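import Mathlib
import Pool.Agent.Q2.PM.Stm

/-!
# Project PM, job B12 (helper87)
-/

set_option autoImplicit false

namespace Q87.PM_B12

open Subgroup Q2.PM
open Q2.TN (IsPNil IsSyl IsChief Nm)

theorem le_syl {G : Type} [Group G] [Finite G] {P T : Subgroup G} (hP : IsSyl 2 P)
    (hT : T.Normal) (h2 : IsPGroup 2 T) : T ≤ P := by
  have : Fact (Nat.Prime 2) := ⟨Nat.prime_two⟩
  have h3 : IsPGroup 2 (T ⊔ P : Subgroup G) := IsPGroup.to_sup_of_normal_left h2 hP.1
  let Q : Sylow 2 G := hP.1.toSylow hP.2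
  have h4 : (T ⊔ P : Subgroup G) = P := Q.is_maximal' h3 le_sup_right
  rw [← h4]
  exact le_sup_left

theorem central {G : Type} [Group G] [Finite G] {T : Subgroup G} (hT : T.Normal)
    (h2 : Nat.card T = 2) : ∀ x ∈ T, ∀ y : G, x * y = y * x := by
  intro x hx y
  obtain ⟨z, hz, hz'⟩ := (Nat.card_eq_two_iff' (1 : T)).1 h2
  by_cases h1 : x = 1
  · subst h1
    simp
  · have e1 : (⟨x, hx⟩ : T) = z := hz' _ fun h => h1 (congrArg Subtype.val h)
    have e2 : (⟨y * x * y⁻¹, hT.conj_mem x hx y⟩ : T) = z := by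
      refine hz' _ fun h => h1 ?_
      have h3 : y * x * y⁻¹ = 1 := congrArg Subtype.val h
      have h4 : x = y⁻¹ * (y * x * y⁻¹) * y := by group
      rw [h4, h3]
      group
    have e3 : x = y * x * y⁻¹ := congrArg Subtype.val (e1.trans e2.symm)
    calc x * y = y * x * y⁻¹ * y := by rw [← e3]
      _ = y * x := by group

theorem b12 (h1 : S_B1) (h7 : S_B7) (h8 : S_B8) : S_B12 := by
  intro G _ _ P T F hP hT hF hTF hodd hne hno
  obtain ⟨hTn, hTb, hT2, hTm⟩ := hT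
  -- the contradiction
  have hC : ¬ ∀ x ∈ T, ∀ y ∈ F, x * y = y * x := by
    intro h
    obtain ⟨O, hO, hOo, hOF⟩ := h8 G T F hTn hF hTF hT2 h hodd
    rw [hno O hO hOo, sup_bot_eq] at hOF
    exact hne hOF.symm
  have hchief : IsChief (⊥ : Subgroup G) T :=
    ⟨inferInstance, hTn, bot_lt_iff_ne_bot.2 hTb, fun L hL _ hLT => hTm L hL hLT⟩
  have hab : ∀ x ∈ T, ∀ y ∈ T, x * y = y * x := by
    intro x hx y hy
    have h3 := (h1 G ⊥ T T hchief hT2 hTn hT2).2 x hx y hy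
    rw [mem_bot] at h3
    calc x * y = (x * y * x⁻¹ * y⁻¹) * (y * x) := by group
      _ = y * x := by rw [h3, one_mul]
  refine ⟨fun h2 => hC fun x hx y _ => central hTn h2 x hx y, ?_⟩
  obtain ⟨F₀, hF₀, hinf, hsup, hfac⟩ := h7 G T F hTn hF hTF hT2 hab hodd
  have hK : (T ⊓ Nm F₀).Normal := by
    refine ⟨fun x hx g => ?_⟩
    obtain ⟨t, ht, n, hn, rfl⟩ := hfac g
    have h3 : n * x * n⁻¹ ∈ T := hTn.conj_mem x hx.1 n
    have h4 : n * x * n⁻¹ ∈ Nm F₀ := mul_mem (mul_mem hn hx.2) (inv_mem hn)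
    have h5 : t * n * x * (t * n)⁻¹ = n * x * n⁻¹ := by
      have h6 := hab t ht _ h3
      calc t * n * x * (t * n)⁻¹ = (t * (n * x * n⁻¹)) * t⁻¹ := by group
        _ = (n * x * n⁻¹) * t * t⁻¹ := by rw [h6]
        _ = n * x * n⁻¹ := by group
    rw [h5]
    exact ⟨h3, h4⟩
  have hTP : T ≤ P := le_syl hP hTn hT2
  rcases hTm _ hK inf_le_left with hK0 | hK1
  · refine ⟨P ⊓ Nm F₀, inf_le_left, ?_, ?_⟩
    · rw [eq_bot_iff, ← hK0]
      exact fun x hx => ⟨hx.2, hx.1.2⟩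
    · refine le_antisymm (sup_le hTP inf_le_left) fun x hx => ?_
      obtain ⟨t, ht, n, hn, rfl⟩ := hfac x
      have hnP : n ∈ P := by
        have h3 : n = t⁻¹ * (t * n) := by group
        rw [h3]
        exact mul_mem (inv_mem (hTP ht)) hx
      exact mul_mem (mem_sup_left ht) (mem_sup_right ⟨hnP, hn⟩)
  · exfalso
    have hTN : T ≤ Nm F₀ := by
      rw [← hK1]
      exact inf_le_right
    refine hC ?_
    have h3 : F ≤ centralizer (T : Set G) := by
      rw [← hsup]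
      refine sup_le (fun y hy => ?_) (fun y hy => ?_)
      · rw [mem_centralizer_iff]
        exact fun x hx => hab x hx y hy
      · rw [mem_centralizer_iff]
        intro x hx
        have h4 : x * y * x⁻¹ ∈ F₀ := (mem_normalizer_iff.1 (hTN hx) y).1 hy
        have h5 : x * y * x⁻¹ * y⁻¹ ∈ F₀ := mul_mem h4 (inv_mem hy)
        have h6 : x * y * x⁻¹ * y⁻¹ ∈ T := by
          have h7 : y * x⁻¹ * y⁻¹ ∈ T := hTn.conj_mem _ (inv_mem hx) y
          have h8 : x * y * x⁻¹ * y⁻¹ = x * (y * x⁻¹ * y⁻¹) := by group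
          rw [h8]
          exact mul_mem hx h7
        have h7 : x * y * x⁻¹ * y⁻¹ ∈ (⊥ : Subgroup G) := by
          rw [← hinf]
          exact ⟨h5, h6⟩
        rw [mem_bot] at h7
        calc x * y = (x * y * x⁻¹ * y⁻¹) * (y * x) := by group
          _ = y * x := by rw [h7, one_mul]
    exact fun x hx y hy => (mem_centralizer_iff.1 (h3 hy)) x hx

end Q87.PM_B12
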