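import Mathlib

/-! Carleman operators on `L²(a,b)`. -/

set_option autoImplicit false
open MeasureTheory Filter Topology
open scoped ENNReal InnerProductSpace

namespace Q87.Carleman

/-- The open interval `(a,b)` with extended real end points. -/
def II (a b : EReal) : Set ℝ := {x : ℝ | a < (x : EReal) ∧ (x : EReal) < b}

/-- Lebesgue measure on `(a,b)`. -/
noncomputable def mu (a b : EReal) : Measure ℝ := volume.restrict (II a b)

/-- The complex Hilbert space `L²(μ)`. -/
noncomputable abbrev L2 (μ : Measure ℝ) := Lp ℂ 2 μ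

/-- A Carleman kernel. -/
def IsKernel (μ : Measure ℝ) (k : ℝ → ℝ → ℂ) : Prop :=
  AEStronglyMeasurable (fun p : ℝ × ℝ => k p.1 p.2) (μ.prod μ) ∧ ∀ᵐ x ∂μ, MemLp (k x) 2 μ

/-- `h(x) = ∫ k(x,y) f(y) dy` for almost every `x`. -/
def Repr (μ : Measure ℝ) (k : ℝ → ℝ → ℂ) (f h : L2 μ) : Prop :=
  ∀ᵐ x ∂μ, h x = ∫ y, k x y * f y ∂μ

/-- A possibly unbounded operator is a Carleman operator. -/
def IsCarleman (μ : Measure ℝ) (A : L2 μ →ₗ.[ℂ] L2 μ) : Prop :=
  ∃ k, IsKernel μ k ∧ ∀ f : A.domain, Repr μ k f (A f)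

/-- The product `AB`, with its natural domain, is a Carleman operator. -/
def ProductIsCarleman (μ : Measure ℝ) (A B : L2 μ →ₗ.[ℂ] L2 μ) : Prop :=
  ∃ k, IsKernel μ k ∧ ∀ f : B.domain, ∀ h : B f ∈ A.domain, Repr μ k f (A ⟨B f, h⟩)

/-- `A` is everywhere defined and bounded. -/
def EverywhereBounded (μ : Measure ℝ) (A : L2 μ →ₗ.[ℂ] L2 μ) : Prop :=
  A.domain = ⊤ ∧ ∃ C : ℝ, ∀ f : A.domain, ‖A f‖ ≤ C * ‖(f : L2 μ)‖

section maxop

variable {μ : Measure ℝ}

/-- Maximal operator attached to a family `x ↦ K x` of elements of `L²`. -/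
noncomputable def maxOp (K : ℝ → L2 μ) : L2 μ →ₗ.[ℂ] L2 μ where
  domain :=
    { carrier := {f | MemLp (fun x => ⟪K x, f⟫_ℂ) 2 μ}
      add_mem' := fun {f g} hf hg => by
        have := hf.add hg
        refine this.ae_eq ?_
        exact Eventually.of_forall fun x => (inner_add_right (K x) f g).symm
      zero_mem' := by simp
      smul_mem' := fun c f hf => by
        have := hf.const_smul c
        refine this.ae_eq ?_
        exact Eventually.of_forall fun x => (inner_smul_right (K x) f c).symm }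
  toFun :=
    { toFun := fun f => MemLp.toLp _ f.2
      map_add' := fun f g => by
        rw [← MemLp.toLp_add]
        congr 1
        funext x
        exact inner_add_right (K x) _ _
      map_smul' := fun c f => by
        rw [RingHom.id_apply, ← MemLp.toLp_const_smul]
        congr 1
        funext x
        exact inner_smul_right (K x) _ _ }

theorem mem_maxOp (K : ℝ → L2 μ) (f : L2 μ) :
    f ∈ (maxOp K).domain ↔ MemLp (fun x => ⟪K x, f⟫_ℂ) 2 μ := Iff.rfl

theorem maxOp_apply (K : ℝ → L2 μ) (f : (maxOp K).domain) :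
    (maxOp K f : L2 μ) =ᵐ[μ] fun x => ⟪K x, (f : L2 μ)⟫_ℂ := MemLp.coeFn_toLp f.2

theorem mem_graph_maxOp (K : ℝ → L2 μ) (f h : L2 μ) :
    (f, h) ∈ (maxOp K).graph ↔ (h : ℝ → ℂ) =ᵐ[μ] fun x => ⟪K x, f⟫_ℂ := by
  rw [LinearPMap.mem_graph_iff]
  constructor
  · rintro ⟨y, hy, hh⟩
    simp only at hy hh
    have := maxOp_apply K y
    rw [hh, hy] at this
    exact this
  · intro h1
    have hm : MemLp (fun x => ⟪K x, f⟫_ℂ) 2 μ := (Lp.memLp h).ae_eq h1
    refine ⟨⟨f, hm⟩, rfl, ?_⟩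
    apply Lp.ext
    exact (maxOp_apply K ⟨f, hm⟩).trans h1.symm

theorem maxOp_isClosed (K : ℝ → L2 μ) : (maxOp K).IsClosed := by
  unfold LinearPMap.IsClosed
  rw [← isSeqClosed_iff_isClosed]
  intro u p hu hp
  have h1 : Tendsto (fun n => (u n).1) atTop (𝓝 p.1) := (continuous_fst.tendsto p).comp hp
  have h2 : Tendsto (fun n => (u n).2) atTop (𝓝 p.2) := (continuous_snd.tendsto p).comp hp
  obtain ⟨ns, hns, hae⟩ := (tendstoInMeasure_of_tendsto_Lp h2).exists_seq_tendsto_ae
  have hall : ∀ᵐ x ∂μ, ∀ n, ((u n).2 : ℝ → ℂ) x = ⟪K x, (u n).1⟫_ℂ :=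
    ae_all_iff.2 fun n => (mem_graph_maxOp K (u n).1 (u n).2).1 (hu n)
  refine (mem_graph_maxOp K p.1 p.2).2 ?_
  filter_upwards [hae, hall] with x hx1 hx2
  simp only [hx2] at hx1
  have h3 : Tendsto (fun n => ⟪K x, (u (ns n)).1⟫_ℂ) atTop (𝓝 ⟪K x, p.1⟫_ℂ) :=
    (tendsto_const_nhds).inner (h1.comp hns.tendsto_atTop)
  exact tendsto_nhds_unique hx1 h3

end maxop

section construct

variable {μ : Measure ℝ}

/-- A general construction. `ν` is a measurable index function whose level sets of positive index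
have finite positive measure. -/
theorem exists_bad [SFinite μ] (ν : ℝ → ℕ) (hν : Measurable ν)
    (hfin : ∀ n, 1 ≤ n → μ (ν ⁻¹' {n}) ≠ ⊤) (hpos : ∀ n, 1 ≤ n → μ (ν ⁻¹' {n}) ≠ 0)
    (hle : ∀ n, 1 ≤ n → (μ (ν ⁻¹' {n})).toReal ≤ 1) :
    ∃ A B : L2 μ →ₗ.[ℂ] L2 μ, (IsCarleman μ A ∧ EverywhereBounded μ A) ∧
      (IsCarleman μ B ∧ Dense (B.domain : Set (L2 μ)) ∧ B.IsClosed) ∧
      ¬ ProductIsCarleman μ A B := by
  classical
  have hms : ∀ n, MeasurableSet (ν ⁻¹' {n}) := fun n => hν (measurableSet_singleton n)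
  -- the vectors
  let v : ℕ → L2 μ := fun n => if h : 1 ≤ n then indicatorConstLp 2 (hms n) (hfin n h) (1 : ℂ) else 0
  let m : ℕ → ℝ := fun n => (μ (ν ⁻¹' {n})).toReal
  have hm0 : ∀ n, 1 ≤ n → 0 < m n := fun n h => ENNReal.toReal_pos (hpos n h) (hfin n h)
  have hvin : ∀ n, 1 ≤ n → ∀ f : L2 μ, ⟪v n, f⟫_ℂ = ∫ x in ν ⁻¹' {n}, f x ∂μ := by
    intro n h f
    simp only [v, dif_pos h]
    exact L2.inner_indicatorConstLp_one (hms n) (hfin n h) f
  have hvae : ∀ n, 1 ≤ n → (v n : ℝ → ℂ) =ᵐ[μ] (ν ⁻¹' {n}).indicator fun _ => (1 : ℂ) := by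
    intro n h
    simp only [v, dif_pos h]
    exact indicatorConstLp_coeFn
  have hvv : ∀ i j, 1 ≤ i → 1 ≤ j → ⟪v i, v j⟫_ℂ = if i = j then (m i : ℂ) else 0 := by
    intro i j hi hj
    rw [hvin i hi]
    have h1 : ∫ x in ν ⁻¹' {i}, v j x ∂μ
        = ∫ x in ν ⁻¹' {i}, (ν ⁻¹' {j}).indicator (fun _ => (1 : ℂ)) x ∂μ :=
      integral_congr_ae (ae_restrict_of_ae (hvae j hj))
    rw [h1, integral_indicator_const _ (hms j), measureReal_def, Measure.restrict_apply (hms j)]
    by_cases hij : i = j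
    · subst hij
      simp [m]
    · have : ν ⁻¹' {j} ∩ ν ⁻¹' {i} = ∅ := by
        ext x
        simp only [Set.mem_inter_iff, Set.mem_preimage, Set.mem_singleton_iff,
          Set.mem_empty_iff_false, iff_false, not_and]
        intro h1 h2; exact hij (h2.symm.trans h1)
      simp [this, hij]
  have hvn : ∀ n, ‖v n‖ ≤ 1 := by
    intro n
    by_cases h : 1 ≤ n
    · have h1 : ‖v n‖ ^ 2 = m n := by
        rw [← inner_self_eq_norm_sq (𝕜 := ℂ), hvv n n h h, if_pos rfl]
        simp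
      have h2 : ‖v n‖ ^ 2 ≤ 1 := h1 ▸ hle n h
      exact (sq_le_one_iff₀ (norm_nonneg _)).1 h2
    · simp [v, dif_neg h]
  -- the weights
  let w : ℕ → ℝ := fun n => if 1 ≤ n then 4 ^ n / m n ^ 2 else 0
  -- the vector g
  let g : L2 μ := ∑' n, ((1/2 : ℝ) ^ n : ℝ) • v n
  have hsum : Summable fun n => ((1/2 : ℝ) ^ n : ℝ) • v n := by
    refine Summable.of_norm_bounded (g := fun n => (1/2 : ℝ) ^ n) summable_geometric_two fun n => ?_
    rw [norm_smul, Real.norm_eq_abs, abs_of_nonneg (by positivity)]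
    exact mul_le_of_le_one_right (by positivity) (hvn n)
  have hgv : ∀ n, 1 ≤ n → ⟪g, v n⟫_ℂ = ((1/2 : ℝ) ^ n * m n : ℝ) := by
    intro n hn
    rw [← inner_conj_symm]
    have h1 : ⟪v n, g⟫_ℂ = ∑' j, ⟪v n, ((1/2 : ℝ) ^ j : ℝ) • v j⟫_ℂ := by
      have := (innerSL ℂ (v n)).map_tsum hsum
      simpa only [innerSL_apply_apply] using this
    rw [h1, tsum_eq_single n]
    · have h2 : ((1/2 : ℝ) ^ n : ℝ) • v n = (((1/2 : ℝ) ^ n : ℝ) : ℂ) • v n := by
        exact (Complex.coe_smul _ _).symm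
      rw [h2, inner_smul_right, hvv n n hn hn, if_pos rfl, ← Complex.ofReal_mul,
        Complex.conj_ofReal]
    · intro j hj
      have h2 : ((1/2 : ℝ) ^ j : ℝ) • v j = (((1/2 : ℝ) ^ j : ℝ) : ℂ) • v j := by
        exact (Complex.coe_smul _ _).symm
      rw [h2, inner_smul_right]
      by_cases hj1 : 1 ≤ j
      · rw [hvv n j hn hj1, if_neg hj.symm, mul_zero]
      · simp [v, dif_neg hj1]
  -- the operators
  let K : ℝ → L2 μ := fun x => ((w (ν x) : ℝ) : ℂ) • v (ν x)
  have hKin : ∀ x (f : L2 μ), ⟪K x, f⟫_ℂ = (w (ν x) : ℂ) * ⟪v (ν x), f⟫_ℂ := by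
    intro x f
    simp only [K, inner_smul_left, Complex.conj_ofReal]
  let B := maxOp K
  let Al : L2 μ →ₗ[ℂ] L2 μ := (innerSL ℂ g : L2 μ →L[ℂ] ℂ).toLinearMap.smulRight (v 1)
  have hAl : ∀ f, Al f = ⟪g, f⟫_ℂ • v 1 := fun f => rfl
  let A : L2 μ →ₗ.[ℂ] L2 μ := Al.toPMap ⊤
  have hA : ∀ f : A.domain, A f = ⟪g, (f : L2 μ)⟫_ℂ • v 1 := fun f => rfl
  refine ⟨A, B, ⟨?_, ?_⟩, ⟨?_, ?_, ?_⟩, ?_⟩
  · -- A is Carleman
    refine ⟨fun x y => v 1 x * (starRingEnd ℂ) (g y), ⟨?_, ?_⟩, ?_⟩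
    · have h1 : StronglyMeasurable (fun p : ℝ × ℝ => (v 1 : ℝ → ℂ) p.1) :=
        (Lp.stronglyMeasurable (v 1)).comp_measurable measurable_fst
      have h2 : StronglyMeasurable (fun p : ℝ × ℝ => (g : ℝ → ℂ) p.2) :=
        (Lp.stronglyMeasurable g).comp_measurable measurable_snd
      have h3 : StronglyMeasurable (fun p : ℝ × ℝ => (starRingEnd ℂ) ((g : ℝ → ℂ) p.2)) :=
        Complex.continuous_conj.comp_stronglyMeasurable h2
      exact (h1.mul h3).aestronglyMeasurable
    · refine Eventually.of_forall fun x => ?_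
      have h1 : MemLp (fun y => (starRingEnd ℂ) ((g : ℝ → ℂ) y)) 2 μ := (Lp.memLp g).star
      exact h1.const_mul _
    · intro f
      unfold Repr
      rw [hA f]
      filter_upwards [Lp.coeFn_smul (⟪g, (f : L2 μ)⟫_ℂ) (v 1)] with x hx
      rw [hx, Pi.smul_apply, smul_eq_mul]
      have : ∀ y, (v 1 : ℝ → ℂ) x * (starRingEnd ℂ) ((g : ℝ → ℂ) y) * ((f : L2 μ) : ℝ → ℂ) y
          = (v 1 : ℝ → ℂ) x * ((starRingEnd ℂ) ((g : ℝ → ℂ) y) * ((f : L2 μ) : ℝ → ℂ) y) :=
        fun y => mul_assoc _ _ _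
      simp only [this]
      rw [integral_const_mul, L2.inner_def, mul_comm]
      congr 1
      refine integral_congr_ae (Eventually.of_forall fun y => ?_)
      simp only [RCLike.inner_apply]
      ring
  · refine ⟨rfl, ‖g‖ * ‖v 1‖, fun f => ?_⟩
    rw [hA f, norm_smul]
    have := norm_inner_le_norm (𝕜 := ℂ) g (f : L2 μ)
    nlinarith [norm_nonneg (v 1)]
  · -- B is Carleman
    refine ⟨fun x y => if ν x = ν y then (w (ν x) : ℂ) else 0, ⟨?_, ?_⟩, ?_⟩
    · have h1 : Measurable (fun q : ℕ × ℕ => if q.1 = q.2 then (w q.1 : ℂ) else 0) :=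
        measurable_of_countable _
      have h2 : Measurable (fun p : ℝ × ℝ => (ν p.1, ν p.2)) :=
        (hν.comp measurable_fst).prodMk (hν.comp measurable_snd)
      exact (h1.comp h2).aestronglyMeasurable
    · refine Eventually.of_forall fun x => ?_
      change MemLp (fun y => if ν x = ν y then (w (ν x) : ℂ) else 0) 2 μ
      by_cases hx : 1 ≤ ν x
      · have h1 : (fun y => if ν x = ν y then (w (ν x) : ℂ) else 0)
            = (ν ⁻¹' {ν x}).indicator fun _ => (w (ν x) : ℂ) := by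
          funext y
          by_cases hy : ν x = ν y
          · rw [if_pos hy, Set.indicator_of_mem (by simpa using hy.symm)]
          · rw [if_neg hy, Set.indicator_of_notMem (by simpa using fun h => hy h.symm)]
        rw [h1]
        exact memLp_indicator_const 2 (hms _) _ (Or.inr (hfin _ hx))
      · have h1 : (fun y => if ν x = ν y then (w (ν x) : ℂ) else 0) = fun _ => 0 := by
          funext y; simp [w, if_neg hx]
        rw [h1]; exact MemLp.zero'
    · intro f
      unfold Repr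
      filter_upwards [maxOp_apply K f] with x hx
      rw [hx, hKin]
      by_cases hx1 : 1 ≤ ν x
      · rw [hvin _ hx1, ← integral_const_mul, ← integral_indicator (hms _)]
        refine integral_congr_ae (Eventually.of_forall fun y => ?_)
        by_cases hy : ν x = ν y
        · simp only [if_pos hy]
          rw [Set.indicator_of_mem (by simpa using hy.symm)]
        · simp only [if_neg hy, zero_mul]
          rw [Set.indicator_of_notMem (by simpa using fun h => hy h.symm)]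
      · have h1 : w (ν x) = 0 := by simp [w, if_neg hx1]
        simp [h1]
  · -- B is densely defined
    rw [Submodule.dense_iff_topologicalClosure_eq_top, Submodule.topologicalClosure_eq_top_iff,
      Submodule.eq_bot_iff]
    intro z hz
    have hz' : ∀ u ∈ B.domain, ⟪u, z⟫_ℂ = 0 := fun u hu => (Submodule.mem_orthogonal _ _).1 hz u hu
    have hvd : ∀ n, 1 ≤ n → v n ∈ B.domain := by
      intro n hn
      rw [mem_maxOp]
      have h1 : (fun x => ⟪K x, v n⟫_ℂ) = (ν ⁻¹' {n}).indicator fun _ => ((w n * m n : ℝ) : ℂ) := by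
        funext x
        rw [hKin]
        by_cases hx : ν x = n
        · rw [Set.indicator_of_mem (by simpa using hx), hx, hvv n n hn hn, if_pos rfl]
          push_cast; rfl
        · rw [Set.indicator_of_notMem (by simpa using hx)]
          by_cases hx1 : 1 ≤ ν x
          · rw [hvv _ _ hx1 hn, if_neg hx, mul_zero]
          · simp [w, if_neg hx1]
      rw [h1]
      exact memLp_indicator_const 2 (hms _) _ (Or.inr (hfin _ hn))
    have hzd : z ∈ B.domain := by
      rw [mem_maxOp]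
      have h1 : (fun x => ⟪K x, z⟫_ℂ) = fun _ => 0 := by
        funext x
        rw [hKin]
        by_cases hx1 : 1 ≤ ν x
        · rw [hz' _ (hvd _ hx1), mul_zero]
        · simp [w, if_neg hx1]
      rw [h1]; exact MemLp.zero'
    exact inner_self_eq_zero.1 (hz' z hzd)
  · exact maxOp_isClosed K
  · -- the product is not Carleman
    rintro ⟨k, ⟨-, hk2⟩, hk⟩
    -- test vectors
    have hvd : ∀ n, 1 ≤ n → (fun x => ⟪K x, (((1/2 : ℝ) ^ n : ℝ) : ℂ) • v n⟫_ℂ) =
        (ν ⁻¹' {n}).indicator fun _ => ((w n * m n * (1/2) ^ n : ℝ) : ℂ) := by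
      intro n hn
      funext x
      rw [hKin, inner_smul_right]
      by_cases hx : ν x = n
      · rw [Set.indicator_of_mem (by simpa using hx), hx, hvv n n hn hn, if_pos rfl]
        push_cast; ring
      · rw [Set.indicator_of_notMem (by simpa using hx)]
        by_cases hx1 : 1 ≤ ν x
        · rw [hvv _ _ hx1 hn, if_neg hx, mul_zero, mul_zero]
        · simp [w, if_neg hx1]
    have hfd : ∀ n, 1 ≤ n → (((1/2 : ℝ) ^ n : ℝ) : ℂ) • v n ∈ B.domain := by
      intro n hn
      rw [mem_maxOp, hvd n hn]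
      exact memLp_indicator_const 2 (hms _) _ (Or.inr (hfin _ hn))
    have hBf : ∀ n (hn : 1 ≤ n), (B ⟨_, hfd n hn⟩ : L2 μ) = ((w n * m n * (1/2) ^ n : ℝ) : ℂ) • v n := by
      intro n hn
      apply Lp.ext
      refine (maxOp_apply K ⟨_, hfd n hn⟩).trans ?_
      have h1 := Lp.coeFn_smul ((w n * m n * (1/2) ^ n : ℝ) : ℂ) (v n)
      filter_upwards [h1, hvae n hn] with x hx hx2
      rw [hx, Pi.smul_apply, hx2, smul_eq_mul]
      rw [show ⟪K x, (((1/2 : ℝ) ^ n : ℝ) : ℂ) • v n⟫_ℂ =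
        (ν ⁻¹' {n}).indicator (fun _ => ((w n * m n * (1/2) ^ n : ℝ) : ℂ)) x from
        congrFun (hvd n hn) x]
      by_cases hxn : x ∈ ν ⁻¹' {n}
      · rw [Set.indicator_of_mem hxn, Set.indicator_of_mem hxn, mul_one]
      · rw [Set.indicator_of_notMem hxn, Set.indicator_of_notMem hxn, mul_zero]
    have hval : ∀ n (hn : 1 ≤ n) (h : (B ⟨_, hfd n hn⟩ : L2 μ) ∈ A.domain),
        A ⟨_, h⟩ = v 1 := by
      intro n hn h
      rw [hA]
      simp only
      rw [hBf n hn, inner_smul_right, hgv n hn]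
      have : w n = 4 ^ n / m n ^ 2 := by simp [w, if_pos hn]
      rw [this, ← Complex.ofReal_mul]
      have h3 : 4 ^ n / m n ^ 2 * m n * (1/2) ^ n * ((1/2) ^ n * m n) = (1 : ℝ) := by
        have hne := (hm0 n hn).ne'
        field_simp
        rw [← pow_mul, mul_comm n 2, pow_mul, ← mul_pow]; norm_num
      rw [h3, Complex.ofReal_one, one_smul]
    have hae : ∀ᵐ x ∂μ, ∀ n : ℕ, (v 1 : ℝ → ℂ) x
        = ∫ y, k x y * ((((1/2 : ℝ) ^ (n+1) : ℝ) : ℂ) • v (n+1) : L2 μ) y ∂μ := by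
      rw [ae_all_iff]
      intro n
      have hn : 1 ≤ n + 1 := Nat.succ_le_succ (Nat.zero_le _)
      have := hk ⟨_, hfd (n+1) hn⟩ trivial
      rw [hval (n+1) hn] at this
      exact this
    have hzero : ∀ᵐ x ∂μ, (v 1 : ℝ → ℂ) x = 0 := by
      filter_upwards [hae, hk2] with x hx hx2
      -- the integral is an inner product
      let kx : L2 μ := MemLp.toLp _ hx2.star
      have hin : ∀ f : L2 μ, ∫ y, k x y * f y ∂μ = ⟪kx, f⟫_ℂ := by
        intro f
        rw [L2.inner_def]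
        refine integral_congr_ae ?_
        filter_upwards [MemLp.coeFn_toLp hx2.star] with y hy
        rw [RCLike.inner_apply, hy]
        simp [mul_comm]
      have hlim : Tendsto (fun n : ℕ => ⟪kx, ((((1/2 : ℝ) ^ (n+1) : ℝ) : ℂ) • v (n+1) : L2 μ)⟫_ℂ)
          atTop (𝓝 0) := by
        have h0 : Tendsto (fun n : ℕ => ((((1/2 : ℝ) ^ (n+1) : ℝ) : ℂ) • v (n+1) : L2 μ)) atTop (𝓝 0) := by
          rw [tendsto_zero_iff_norm_tendsto_zero]
          refine squeeze_zero (fun _ => norm_nonneg _) (g := fun n : ℕ => (1/2 : ℝ) ^ (n+1))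
            (fun n => ?_) ?_
          · rw [norm_smul, Complex.norm_real, Real.norm_eq_abs, abs_of_nonneg (by positivity)]
            exact mul_le_of_le_one_right (by positivity) (hvn _)
          · exact (tendsto_pow_atTop_nhds_zero_of_lt_one (by norm_num) (by norm_num)).comp
              (tendsto_add_atTop_nat 1)
        have := (tendsto_const_nhds (x := kx)).inner (𝕜 := ℂ) h0
        simpa using this
      have hconst : (fun n : ℕ => ⟪kx, ((((1/2 : ℝ) ^ (n+1) : ℝ) : ℂ) • v (n+1) : L2 μ)⟫_ℂ)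
          = fun _ => (v 1 : ℝ → ℂ) x := by
        funext n
        rw [← hin, ← hx n]
      rw [hconst] at hlim
      exact tendsto_nhds_unique tendsto_const_nhds hlim
    have hv1 : v 1 = 0 := (Lp.eq_zero_iff_ae_eq_zero).2 hzero
    have := hvv 1 1 le_rfl le_rfl
    rw [hv1, inner_zero_left, if_pos rfl] at this
    have h2 : m 1 = 0 := by exact_mod_cast this.symm
    exact (hm0 1 le_rfl).ne' h2

end construct

section interval

theorem measurableSet_II (a b : EReal) : MeasurableSet (II a b) := by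
  unfold II
  refine MeasurableSet.inter ?_ ?_
  · exact measurableSet_lt measurable_const measurable_coe_real_ereal
  · exact measurableSet_lt measurable_coe_real_ereal measurable_const

/-- index function on `(c, c+1)`, scaled to `(c,d)` -/
noncomputable def ix (c d : ℝ) (x : ℝ) : ℕ :=
  if c < x ∧ x < d then ⌊(d - c) / (x - c)⌋₊ else 0

theorem measurable_ix (c d : ℝ) : Measurable (ix c d) := by
  unfold ix
  refine Measurable.ite ?_ ?_ measurable_const
  · exact measurableSet_Ioo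
  · exact Nat.measurable_floor.comp (measurable_const.div (measurable_id.sub_const c))

theorem exists_index (a b : EReal) (hab : a < b) : ∃ ν : ℝ → ℕ, Measurable ν ∧
    (∀ n, 1 ≤ n → (mu a b) (ν ⁻¹' {n}) ≠ ⊤) ∧ (∀ n, 1 ≤ n → (mu a b) (ν ⁻¹' {n}) ≠ 0) ∧
    (∀ n, 1 ≤ n → ((mu a b) (ν ⁻¹' {n})).toReal ≤ 1) := by
  obtain ⟨c, hac, hcb⟩ := EReal.lt_iff_exists_real_btwn.1 hab
  obtain ⟨d', hcd', hdb⟩ := EReal.lt_iff_exists_real_btwn.1 hcb
  have hcd' : c < d' := by exact_mod_cast hcd'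
  set d := min d' (c + 1) with hd
  have hcd : c < d := lt_min hcd' (by linarith)
  have hd1 : d - c ≤ 1 := by
    have := min_le_right d' (c + 1)
    linarith
  have hdb' : (d : EReal) < b := lt_of_le_of_lt (by exact_mod_cast min_le_left _ _) hdb
  have hsub : Set.Ioo c d ⊆ II a b := by
    intro x hx
    exact ⟨hac.trans (by exact_mod_cast hx.1), lt_trans (by exact_mod_cast hx.2) hdb'⟩
  have hinc : ∀ n, 1 ≤ n → ix c d ⁻¹' {n} ⊆ Set.Ioo c d := by
    intro n hn x hx
    by_contra hx'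
    have hx' : ¬ (c < x ∧ x < d) := hx'
    have : ix c d x = n := hx
    rw [ix, if_neg hx'] at this
    omega
  have hvol : ∀ n, 1 ≤ n → (mu a b) (ix c d ⁻¹' {n}) ≤ ENNReal.ofReal (d - c) := by
    intro n hn
    calc (mu a b) (ix c d ⁻¹' {n}) ≤ volume (ix c d ⁻¹' {n}) := Measure.restrict_apply_le _ _
      _ ≤ volume (Set.Ioo c d) := measure_mono (hinc n hn)
      _ = ENNReal.ofReal (d - c) := Real.volume_Ioo
  refine ⟨ix c d, measurable_ix c d, fun n hn => ?_, fun n hn => ?_, fun n hn => ?_⟩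
  · exact ne_top_of_le_ne_top ENNReal.ofReal_ne_top (hvol n hn)
  · -- contains an open interval
    have hn0 : (0 : ℝ) < n := by exact_mod_cast hn
    have hdc : 0 < d - c := by linarith
    have h1 : Set.Ioo (c + (d - c) / (n + 1)) (c + (d - c) / n) ⊆ ix c d ⁻¹' {n} ∩ II a b := by
      intro x hx
      have h2 : 0 < (d - c) / (n + 1 : ℝ) := by positivity
      have h3 : (d - c) / (n : ℝ) ≤ d - c := div_le_self hdc.le (by exact_mod_cast hn)
      have hx0 : c < x := by have := hx.1; linarith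
      have hxd : x < d := by have := hx.2; linarith
      refine ⟨?_, hsub ⟨hx0, hxd⟩⟩
      have : ix c d x = n := by
        rw [ix, if_pos ⟨hx0, hxd⟩, Nat.floor_eq_iff (by
          apply div_nonneg <;> linarith)]
        have hxc : 0 < x - c := by linarith
        constructor
        · rw [le_div_iff₀ hxc]
          have := hx.2
          have h4 : x - c < (d - c) / n := by linarith
          rw [lt_div_iff₀ hn0] at h4
          linarith
        · rw [div_lt_iff₀ hxc]
          have := hx.1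
          have h4 : (d - c) / (n + 1) < x - c := by linarith
          rw [div_lt_iff₀ (by linarith)] at h4
          linarith
      exact this
    have h2 : 0 < volume (Set.Ioo (c + (d - c) / (n + 1 : ℝ)) (c + (d - c) / n)) := by
      rw [Real.volume_Ioo, ENNReal.ofReal_pos]
      have : (d - c) / (n + 1 : ℝ) < (d - c) / n :=
        div_lt_div_of_pos_left hdc hn0 (by linarith)
      linarith
    have h3 := h2.trans_le (measure_mono h1)
    rw [mu, Measure.restrict_apply (measurable_ix c d (measurableSet_singleton n))]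
    exact h3.ne'
  · calc ((mu a b) (ix c d ⁻¹' {n})).toReal ≤ (ENNReal.ofReal (d - c)).toReal :=
          ENNReal.toReal_mono ENNReal.ofReal_ne_top (hvol n hn)
      _ = d - c := ENNReal.toReal_ofReal (by linarith)
      _ ≤ 1 := hd1

/-- On every interval there are a bounded rank one Carleman operator `A` and a closed densely
defined Carleman operator `B` whose product is not a Carleman operator. -/
theorem interval_bad (a b : EReal) (hab : a < b) :
    ∃ A B : L2 (mu a b) →ₗ.[ℂ] L2 (mu a b),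
      (IsCarleman (mu a b) A ∧ EverywhereBounded (mu a b) A) ∧
      (IsCarleman (mu a b) B ∧ Dense (B.domain : Set (L2 (mu a b))) ∧ B.IsClosed) ∧
      ¬ ProductIsCarleman (mu a b) A B := by
  obtain ⟨ν, h1, h2, h3, h4⟩ := exists_index a b hab
  have : SFinite (mu a b) := by unfold mu; infer_instance
  exact exists_bad ν h1 h2 h3 h4

end interval

section compact

/-- Linear operators in `L²(μ)`, possibly unbounded, each with a linear domain. -/
abbrev Opr (μ : Measure ℝ) := L2 μ →ₗ.[ℂ] L2 μ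

/-- `f ∈ D(A)` and `A f = h`. -/
def Gr {μ : Measure ℝ} (A : Opr μ) (f h : L2 μ) : Prop := (f, h) ∈ A.graph

/-- `A` is a Carleman operator: one Carleman kernel represents `A f` for all `f ∈ D(A)`. -/
def Carl {μ : Measure ℝ} (A : Opr μ) : Prop :=
  ∃ k, IsKernel μ k ∧ ∀ f h, Gr A f h → Repr μ k f h

/-- The product `AB`, on `D(AB) = {f ∈ D(B) : Bf ∈ D(A)}`, is a Carleman operator. -/
def ProdCarl {μ : Measure ℝ} (A B : Opr μ) : Prop :=
  ∃ k, IsKernel μ k ∧ ∀ f u h, Gr B f u → Gr A u h → Repr μ k f h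

/-- `A` is everywhere defined and bounded. -/
def BddOp {μ : Measure ℝ} (A : Opr μ) : Prop :=
  ∃ C : ℝ, ∀ f, ∃ h, Gr A f h ∧ ‖h‖ ≤ C * ‖f‖

/-- The domain of `A` is dense. -/
def DenseOp {μ : Measure ℝ} (A : Opr μ) : Prop := Dense {f | ∃ h, Gr A f h}

/-- The graph of `A` is closed. -/
def ClosedOp {μ : Measure ℝ} (A : Opr μ) : Prop := IsClosed {q : L2 μ × L2 μ | Gr A q.1 q.2}

theorem gr_iff {μ : Measure ℝ} (A : Opr μ) (f h : L2 μ) :
    Gr A f h ↔ ∃ hf : f ∈ A.domain, A ⟨f, hf⟩ = h := by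
  unfold Gr
  rw [LinearPMap.mem_graph_iff]
  constructor
  · rintro ⟨y, rfl, hy⟩
    exact ⟨y.2, hy⟩
  · rintro ⟨hf, hh⟩
    exact ⟨⟨f, hf⟩, rfl, hh⟩

/-- On every interval there are a bounded Carleman operator `A` and a closed densely
defined Carleman operator `B` whose product is not a Carleman operator. -/
theorem interval_bad' (a b : EReal) (hab : a < b) :
    ∃ A B : Opr (mu a b), (Carl A ∧ BddOp A) ∧ (Carl B ∧ DenseOp B ∧ ClosedOp B) ∧
      ¬ ProdCarl A B := by
  obtain ⟨A, B, ⟨⟨k, hk, hA⟩, hA2, C, hC⟩, ⟨⟨k', hk', hB⟩, hB2, hB3⟩, hAB⟩ :=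
    interval_bad a b hab
  refine ⟨A, B, ⟨⟨k, hk, ?_⟩, C, ?_⟩, ⟨⟨k', hk', ?_⟩, ?_, hB3⟩, ?_⟩
  · intro f h hfh
    obtain ⟨hf, rfl⟩ := (gr_iff A f h).1 hfh
    exact hA ⟨f, hf⟩
  · intro f
    have hf : f ∈ A.domain := by rw [hA2]; trivial
    exact ⟨A ⟨f, hf⟩, (gr_iff A _ _).2 ⟨hf, rfl⟩, hC ⟨f, hf⟩⟩
  · intro f h hfh
    obtain ⟨hf, rfl⟩ := (gr_iff B f h).1 hfh
    exact hB ⟨f, hf⟩
  · unfold DenseOp
    convert hB2 using 1
    ext f
    constructor
    · rintro ⟨h, hh⟩; exact ((gr_iff B f h).1 hh).1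
    · intro hf; exact ⟨_, (gr_iff B f _).2 ⟨hf, rfl⟩⟩
  · rintro ⟨k'', hk'', h⟩
    refine hAB ⟨k'', hk'', fun f hf => ?_⟩
    exact h f _ _ ((gr_iff B _ _).2 ⟨f.2, rfl⟩) ((gr_iff A _ _).2 ⟨hf, rfl⟩)

end compact

end Q87.Carleman
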