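import Pool.Agent.Q87.Carleman

/-! Normal Carleman operators: the kernel is square integrable in the first variable. -/

set_option autoImplicit false
open MeasureTheory Filter Topology
open scoped ENNReal InnerProductSpace

namespace Q87.Carleman

theorem countable_index {ι E : Type*} [NormedAddCommGroup E] [InnerProductSpace ℂ E]
    [TopologicalSpace.SeparableSpace E] (b : HilbertBasis ι ℂ E) : Countable ι := by
  have h : (Set.univ : Set ι).PairwiseDisjoint (fun i => Metric.ball (b i) (1/2 : ℝ)) := by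
    intro i _ j _ hij
    rw [Function.onFun, Set.disjoint_left]
    intro z hz1 hz2
    have hb := b.orthonormal
    have h1 : dist (b i) (b j) < 1 := by
      have := dist_triangle_left (b i) (b j) z
      rw [Metric.mem_ball] at hz1 hz2
      linarith
    have h2 : ‖b i - b j‖ ^ 2 = 2 := by
      rw [@norm_sub_sq ℂ, hb.1 i, hb.1 j, hb.2 hij]; norm_num
    rw [dist_eq_norm] at h1
    nlinarith [norm_nonneg (b i - b j)]
  have := h.countable_of_isOpen (fun i _ => Metric.isOpen_ball)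
    (fun i _ => ⟨b i, Metric.mem_ball_self (by norm_num)⟩)
  exact Set.countable_univ_iff.1 this

theorem parseval {ι E : Type*} [NormedAddCommGroup E] [InnerProductSpace ℂ E]
    (b : HilbertBasis ι ℂ E) (v : E) : ∑' i, ‖⟪v, b i⟫_ℂ‖ₑ ^ 2 = ‖v‖ₑ ^ 2 := by
  have h1 := b.hasSum_inner_mul_inner v v
  have h2 : HasSum (fun i => ‖⟪v, b i⟫_ℂ‖ ^ 2) (‖v‖ ^ 2) := by
    have h3 := (Complex.reCLM.hasSum h1)
    convert h3 using 1
    · funext i
      simp only [Complex.reCLM_apply]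
      rw [← inner_conj_symm (b i) v, Complex.mul_conj, Complex.ofReal_re,
        Complex.normSq_eq_norm_sq]
    · simp only [Complex.reCLM_apply]
      exact (inner_self_eq_norm_sq (𝕜 := ℂ) v).symm
  have h3 : ∀ i, ‖⟪v, b i⟫_ℂ‖ₑ ^ 2 = ENNReal.ofReal (‖⟪v, b i⟫_ℂ‖ ^ 2) := by
    intro i
    rw [ENNReal.ofReal_pow (norm_nonneg _), ofReal_norm]
  simp only [h3]
  rw [← ENNReal.ofReal_tsum_of_nonneg (fun i => by positivity) h2.summable, h2.tsum_eq,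
    ENNReal.ofReal_pow (norm_nonneg _), ofReal_norm]

theorem enorm_sq_eq {μ : Measure ℝ} (f : L2 μ) : ‖f‖ₑ ^ 2 = ∫⁻ x, ‖f x‖ₑ ^ 2 ∂μ := by
  have h := eLpNorm_nnreal_pow_eq_lintegral (f := (f : ℝ → ℂ)) (μ := μ) (p := 2) two_ne_zero
  rw [Lp.enorm_def]
  have e1 : (((2 : NNReal) : ℝ)) = ((2 : ℕ) : ℝ) := by norm_num
  rw [e1] at h
  simp only [ENNReal.rpow_natCast] at h
  exact_mod_cast h

/-- multiplication by an indicator -/
noncomputable def cut {μ : Measure ℝ} {A : Set ℝ} (hA : MeasurableSet A) (f : L2 μ) : L2 μ :=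
  MemLp.toLp _ ((Lp.memLp f).indicator hA)

theorem cut_ae {μ : Measure ℝ} {A : Set ℝ} (hA : MeasurableSet A) (f : L2 μ) :
    (cut hA f : ℝ → ℂ) =ᵐ[μ] A.indicator f := MemLp.coeFn_toLp _

theorem cut_symm {μ : Measure ℝ} {A : Set ℝ} (hA : MeasurableSet A) (f g : L2 μ) :
    ⟪cut hA f, g⟫_ℂ = ⟪f, cut hA g⟫_ℂ := by
  rw [L2.inner_def, L2.inner_def]
  refine integral_congr_ae ?_
  filter_upwards [cut_ae hA f, cut_ae hA g] with x h1 h2
  rw [h1, h2]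
  by_cases hx : x ∈ A
  · rw [Set.indicator_of_mem hx, Set.indicator_of_mem hx]
  · rw [Set.indicator_of_notMem hx, Set.indicator_of_notMem hx, inner_zero_left, inner_zero_right]

theorem cut_enorm {μ : Measure ℝ} {A : Set ℝ} (hA : MeasurableSet A) (f : L2 μ) :
    ‖cut hA f‖ₑ ^ 2 = ∫⁻ x in A, ‖f x‖ₑ ^ 2 ∂μ := by
  rw [enorm_sq_eq, ← lintegral_indicator hA]
  refine lintegral_congr_ae ?_
  filter_upwards [cut_ae hA f] with x h1
  rw [h1]
  by_cases hx : x ∈ A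
  · rw [Set.indicator_of_mem hx, Set.indicator_of_mem hx]
  · rw [Set.indicator_of_notMem hx, Set.indicator_of_notMem hx]; simp

variable {μ : Measure ℝ} [SigmaFinite μ]

omit [SigmaFinite μ] in
/-- the row of the kernel as an element of `L²`: for `x` in a full set,
`∫ k(x,y) f(y) dy = ⟪row, f⟫`. -/
theorem row_exists {k : ℝ → ℂ} (hk : MemLp k 2 μ) : ∃ r : L2 μ,
    (∀ f : L2 μ, ∫ y, k y * f y ∂μ = ⟪r, f⟫_ℂ) ∧
    ∀ (A : Set ℝ) (hA : MeasurableSet A), ‖cut hA r‖ₑ ^ 2 = ∫⁻ y in A, ‖k y‖ₑ ^ 2 ∂μ := by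
  refine ⟨MemLp.toLp _ hk.star, fun f => ?_, fun A hA => ?_⟩
  · rw [L2.inner_def]
    refine integral_congr_ae ?_
    filter_upwards [MemLp.coeFn_toLp hk.star] with y hy
    rw [RCLike.inner_apply, hy]
    simp [mul_comm]
  · rw [cut_enorm]
    refine lintegral_congr_ae (ae_restrict_of_ae ?_)
    filter_upwards [MemLp.coeFn_toLp hk.star] with y hy
    rw [hy]
    simp

theorem normal_key (N : L2 μ →L[ℂ] L2 μ) (hN : IsStarNormal N) (k : ℝ → ℝ → ℂ)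
    (hk : IsKernel μ k) (hNk : ∀ f, Repr μ k f (N f)) (A : Set ℝ) (hA : MeasurableSet A) :
    ∫⁻ x, ∫⁻ y in A, ‖k x y‖ₑ ^ 2 ∂μ ∂μ = ∫⁻ x in A, ∫⁻ y, ‖k x y‖ₑ ^ 2 ∂μ ∂μ := by
  obtain ⟨w, b, -⟩ := exists_hilbertBasis ℂ (L2 μ)
  have : Fact ((2 : ℝ≥0∞) ≠ ∞) := ⟨ENNReal.ofNat_ne_top⟩
  have : Countable w := countable_index b
  have hn : ∀ f, ‖N f‖ = ‖N.adjoint f‖ := fun f =>
    ((ContinuousLinearMap.isStarNormal_iff_norm_eq_adjoint).1 hN f)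
  -- first computation
  have h1 : ∫⁻ x, ∫⁻ y in A, ‖k x y‖ₑ ^ 2 ∂μ ∂μ = ∑' i, ‖N (cut hA (b i))‖ₑ ^ 2 := by
    have hrep : ∀ᵐ x ∂μ, ∀ i, N (cut hA (b i)) x = ∫ y, k x y * cut hA (b i) y ∂μ :=
      ae_all_iff.2 fun i => hNk (cut hA (b i))
    have e1 : ∫⁻ x, ∫⁻ y in A, ‖k x y‖ₑ ^ 2 ∂μ ∂μ
        = ∫⁻ x, ∑' i, ‖N (cut hA (b i)) x‖ₑ ^ 2 ∂μ := by
      refine lintegral_congr_ae ?_
      filter_upwards [hrep, hk.2] with x hx hx2
      obtain ⟨r, hr1, hr2⟩ := row_exists hx2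
      rw [← hr2 A hA, ← parseval b]
      refine tsum_congr fun i => ?_
      rw [hx i, hr1, cut_symm]
    rw [e1, lintegral_tsum (fun i => ((Lp.aestronglyMeasurable _).enorm.pow_const 2))]
    exact tsum_congr fun i => (enorm_sq_eq _).symm
  have h2 : ∫⁻ x in A, ∫⁻ y, ‖k x y‖ₑ ^ 2 ∂μ ∂μ = ∑' i, ‖cut hA (N (b i))‖ₑ ^ 2 := by
    have hrep : ∀ᵐ x ∂μ, ∀ i, N (b i) x = ∫ y, k x y * b i y ∂μ :=
      ae_all_iff.2 fun i => hNk (b i)
    have e1 : ∫⁻ x in A, ∫⁻ y, ‖k x y‖ₑ ^ 2 ∂μ ∂μ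
        = ∫⁻ x in A, ∑' i, ‖N (b i) x‖ₑ ^ 2 ∂μ := by
      refine lintegral_congr_ae (ae_restrict_of_ae ?_)
      filter_upwards [hrep, hk.2] with x hx hx2
      obtain ⟨r, hr1, hr2⟩ := row_exists hx2
      have h3 := hr2 Set.univ MeasurableSet.univ
      rw [Measure.restrict_univ] at h3
      have h4 : ‖r‖ₑ ^ 2 = ∫⁻ y, ‖k x y‖ₑ ^ 2 ∂μ := by
        rw [← h3, cut_enorm, Measure.restrict_univ, enorm_sq_eq]
      rw [← h4, ← parseval b]
      refine tsum_congr fun i => ?_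
      rw [hx i, hr1]
    rw [e1, lintegral_tsum (fun i => ((Lp.aestronglyMeasurable _).enorm.pow_const 2).restrict)]
    exact tsum_congr fun i => (cut_enorm hA _).symm
  rw [h1, h2]
  have e : ∀ i, ‖N (cut hA (b i))‖ₑ ^ 2 = ∑' j, ‖⟪b i, cut hA (N (b j))⟫_ℂ‖ₑ ^ 2 := by
    intro i
    have : ‖N (cut hA (b i))‖ₑ = ‖N.adjoint (cut hA (b i))‖ₑ := by
      rw [← ofReal_norm, ← ofReal_norm, hn]
    rw [this, ← parseval b]
    refine tsum_congr fun j => ?_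
    rw [ContinuousLinearMap.adjoint_inner_left, cut_symm]
  simp only [e]
  rw [ENNReal.tsum_comm]
  refine tsum_congr fun j => ?_
  rw [← parseval b]
  refine tsum_congr fun i => ?_
  rw [← inner_conj_symm, RCLike.enorm_conj]

/-- For a normal Carleman operator the row and column norms of the kernel agree almost
everywhere; in particular the kernel is square integrable in its first variable. -/
theorem normal_main (N : L2 μ →L[ℂ] L2 μ) (hN : IsStarNormal N) (k : ℝ → ℝ → ℂ)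
    (hk : IsKernel μ k) (hNk : ∀ f, Repr μ k f (N f)) :
    ∀ᵐ y ∂μ, ∫⁻ x, ‖k x y‖ₑ ^ 2 ∂μ = ∫⁻ x, ‖k y x‖ₑ ^ 2 ∂μ ∧ ∫⁻ x, ‖k x y‖ₑ ^ 2 ∂μ < ⊤ := by
  have hm : AEMeasurable (fun p : ℝ × ℝ => ‖k p.1 p.2‖ₑ ^ 2) (μ.prod μ) :=
    hk.1.enorm.pow_const 2
  have hms : AEMeasurable (fun p : ℝ × ℝ => ‖k p.2 p.1‖ₑ ^ 2) (μ.prod μ) := hm.prod_swap
  have hm1 : AEMeasurable (fun y => ∫⁻ x, ‖k y x‖ₑ ^ 2 ∂μ) μ := hm.lintegral_prod_right'
  have hm2 : AEMeasurable (fun y => ∫⁻ x, ‖k x y‖ₑ ^ 2 ∂μ) μ := hms.lintegral_prod_right'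
  have heq : (fun y => ∫⁻ x, ‖k x y‖ₑ ^ 2 ∂μ) =ᵐ[μ] fun y => ∫⁻ x, ‖k y x‖ₑ ^ 2 ∂μ := by
    refine ae_eq_of_forall_setLIntegral_eq_of_sigmaFinite₀ hm2 hm1 fun A hA _ => ?_
    rw [← normal_key N hN k hk hNk A hA]
    have h1 : AEMeasurable (Function.uncurry fun x y => ‖k x y‖ₑ ^ 2) (μ.prod (μ.restrict A)) := by
      have : μ.prod (μ.restrict A) ≪ μ.prod μ :=
        (Measure.AbsolutelyContinuous.refl μ).prod (Measure.restrict_le_self.absolutelyContinuous)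
      exact hm.mono_ac this
    rw [lintegral_lintegral_swap h1]
  filter_upwards [heq, hk.2] with y h1 h2
  refine ⟨h1, ?_⟩
  rw [h1]
  have h3 := h2.2
  have h := eLpNorm_nnreal_pow_eq_lintegral (f := k y) (μ := μ) (p := 2) two_ne_zero
  have e1 : (((2 : NNReal) : ℝ)) = ((2 : ℕ) : ℝ) := by norm_num
  rw [e1] at h
  simp only [ENNReal.rpow_natCast] at h
  rw [← h]
  exact ENNReal.pow_lt_top (by exact_mod_cast h3)

/-- Bounded operators on `L²(μ)`. -/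
abbrev BOp (μ : Measure ℝ) := L2 μ →L[ℂ] L2 μ

/-- `N` is normal: `N N* = N* N`. -/
def NormalOp {μ : Measure ℝ} (N : BOp μ) : Prop := IsStarNormal N

/-- `N` is a Carleman operator with kernel `k`. -/
def CarlKernel {μ : Measure ℝ} (N : BOp μ) (k : ℝ → ℝ → ℂ) : Prop :=
  IsKernel μ k ∧ ∀ f, Repr μ k f (N f)

/-- `∫ |k(x,y)|² dx`. -/
noncomputable def colSq (μ : Measure ℝ) (k : ℝ → ℝ → ℂ) (y : ℝ) : ℝ≥0∞ := ∫⁻ x, ‖k x y‖ₑ ^ 2 ∂μ

/-- `∫ |k(y,x)|² dx`. -/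
noncomputable def rowSq (μ : Measure ℝ) (k : ℝ → ℝ → ℂ) (y : ℝ) : ℝ≥0∞ := ∫⁻ x, ‖k y x‖ₑ ^ 2 ∂μ

theorem normal_main' (a b : EReal) (N : BOp (mu a b)) (hN : NormalOp N) (k : ℝ → ℝ → ℂ)
    (hk : CarlKernel N k) :
    ∀ᵐ y ∂(mu a b), colSq (mu a b) k y = rowSq (mu a b) k y ∧ colSq (mu a b) k y < ⊤ := by
  have : SigmaFinite (mu a b) := by unfold mu; infer_instance
  exact normal_main N hN k hk.1 hk.2

end Q87.Carleman
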