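import Mathlib

/-! Cauchy–Pompeiu type formulas with smooth compactly supported functions. -/

set_option autoImplicit false

open Set Topology Metric MeasureTheory Filter

namespace Q87.Cauchy

variable {E : Type*} [NormedAddCommGroup E] [NormedSpace ℂ E]

/-- `∂_x + i ∂_y`, that is `2 ∂̄`. -/
noncomputable def db (ψ : ℂ → ℂ) (z : ℂ) : ℂ :=
  fderiv ℝ ψ z 1 + Complex.I * fderiv ℝ ψ z Complex.I

theorem cont_smul {a : ℂ → ℂ} (ha : Continuous a) {h : ℂ → E} {U : Set ℂ} (hU : IsOpen U)
    (hsub : tsupport a ⊆ U) (hh : ContinuousOn h U) : Continuous fun z => a z • h z := by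
  apply continuous_of_tsupport
  intro x hx
  have hx' : x ∈ tsupport a := tsupport_smul_subset_left a h hx
  exact ha.continuousAt.smul (hh.continuousAt (hU.mem_nhds (hsub hx')))

theorem integrable_smul {a : ℂ → ℂ} (ha : Continuous a) (hc : HasCompactSupport a) {h : ℂ → E}
    {U : Set ℂ} (hU : IsOpen U) (hsub : tsupport a ⊆ U) (hh : ContinuousOn h U) :
    Integrable fun z => a z • h z :=
  (cont_smul ha hU hsub hh).integrable_of_hasCompactSupport (hc.smul_right)

theorem tsupport_fderiv_apply (ψ : ℂ → ℂ) (v : ℂ) :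
    tsupport (fun z => fderiv ℝ ψ z v) ⊆ tsupport ψ := by
  refine closure_minimal ?_ (isClosed_tsupport ψ)
  intro x hx
  by_contra hcon
  apply hx
  have h1 : fderiv ℝ ψ x = 0 := by
    have := notMem_tsupport_iff_eventuallyEq.1 hcon
    rw [this.fderiv_eq]
    simp
  show fderiv ℝ ψ x v = 0
  rw [h1]; rfl

theorem cont_fderiv {ψ : ℂ → ℂ} (hψ : ContDiff ℝ 1 ψ) (v : ℂ) :
    Continuous fun z => fderiv ℝ ψ z v :=
  (hψ.continuous_fderiv one_ne_zero).clm_apply continuous_const

theorem db_cont {ψ : ℂ → ℂ} (hψ : ContDiff ℝ 1 ψ) : Continuous (db ψ) :=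
  (cont_fderiv hψ 1).add (continuous_const.mul (cont_fderiv hψ Complex.I))

theorem tsupport_db (ψ : ℂ → ℂ) : tsupport (db ψ) ⊆ tsupport ψ := by
  refine closure_minimal ?_ (isClosed_tsupport ψ)
  intro x hx
  by_contra hcon
  apply hx
  have h1 : fderiv ℝ ψ x = 0 := by
    have := notMem_tsupport_iff_eventuallyEq.1 hcon
    rw [this.fderiv_eq]
    simp
  unfold db
  rw [h1]; simp

theorem db_eq_zero {ψ : ℂ → ℂ} {c z : ℂ} (h : ∀ᶠ w in 𝓝 z, ψ w = c) : db ψ z = 0 := by
  have h1 : fderiv ℝ ψ z = 0 := by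
    have : ψ =ᶠ[𝓝 z] fun _ => c := h
    rw [this.fderiv_eq]
    simp
  unfold db
  rw [h1]; simp

theorem db_compact {ψ : ℂ → ℂ} (hc : HasCompactSupport ψ) : HasCompactSupport (db ψ) :=
  hc.of_isClosed_subset (isClosed_tsupport _) (tsupport_db ψ)

variable [CompleteSpace E]

theorem stokes {ψ : ℂ → ℂ} (hψ : ContDiff ℝ 1 ψ) (hc : HasCompactSupport ψ) {h : ℂ → E}
    {U : Set ℂ} (hU : IsOpen U) (hsub : tsupport ψ ⊆ U) (hh : DifferentiableOn ℂ h U) :
    ∫ z, db ψ z • h z = 0 := by
  have hdiff : ∀ z ∈ tsupport ψ, DifferentiableAt ℂ h z := fun z hz =>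
    hh.differentiableAt (hU.mem_nhds (hsub hz))
  have hd : DifferentiableOn ℂ (deriv h) U := hh.deriv hU
  have key : ∀ v : ℂ, ∫ z, fderiv ℝ ψ z v • h z = - (v • ∫ z, ψ z • deriv h z) := by
    intro v
    have h1 : ∀ z, ψ z • fderiv ℝ h z v = v • (ψ z • deriv h z) := by
      intro z
      by_cases hz : z ∈ tsupport ψ
      · have h2 : fderiv ℝ h z v = v • deriv h z := by
          rw [(hdiff z hz).fderiv_restrictScalars ℝ]
          simp
        rw [h2, smul_comm]
      · rw [image_eq_zero_of_notMem_tsupport hz]; simp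
    have hint1 : Integrable fun z => ψ z • fderiv ℝ h z v := by
      simp only [h1]
      exact (integrable_smul hψ.continuous hc hU hsub hd.continuousOn).smul v
    have h3 := integral_smul_fderiv_eq_neg_fderiv_smul_of_integrable (μ := (volume : Measure ℂ))
      (f := ψ) (g := h) (v := v)
      (integrable_smul (cont_fderiv hψ v) (hc.of_isClosed_subset (isClosed_tsupport _)
        (tsupport_fderiv_apply ψ v)) hU ((tsupport_fderiv_apply ψ v).trans hsub) hh.continuousOn)
      hint1 (integrable_smul hψ.continuous hc hU hsub hh.continuousOn)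
      (fun x _ => (hψ.differentiable one_ne_zero) x)
      (fun x hx => (hdiff x hx).restrictScalars ℝ)
    rw [eq_neg_iff_add_eq_zero] at h3
    rw [eq_neg_iff_add_eq_zero, ← integral_smul, add_comm, ← h3]
    congr 1
    refine integral_congr_ae (Eventually.of_forall fun z => (h1 z).symm)
  have hint : ∀ v : ℂ, Integrable fun z => fderiv ℝ ψ z v • h z := fun v =>
    integrable_smul (cont_fderiv hψ v) (hc.of_isClosed_subset (isClosed_tsupport _)
        (tsupport_fderiv_apply ψ v)) hU ((tsupport_fderiv_apply ψ v).trans hsub) hh.continuousOn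
  have h4 : ∀ z, db ψ z • h z = fderiv ℝ ψ z 1 • h z + Complex.I • (fderiv ℝ ψ z Complex.I • h z) := by
    intro z
    unfold db
    rw [add_smul, smul_smul]
  simp only [h4]
  have hI : Integrable fun z => Complex.I • (fderiv ℝ ψ z Complex.I • h z) :=
    (hint Complex.I).smul Complex.I
  rw [integral_add (hint 1) hI, integral_smul, key, key, smul_neg,
    smul_smul, Complex.I_mul_I]
  module

/-! ### The constant -/

/-- A smooth nonincreasing function, `1` on `(-∞, 1]` and `0` on `[2, ∞)`. -/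
noncomputable def rho (t : ℝ) : ℝ := Real.smoothTransition (2 - t)

theorem rho_contDiff : ContDiff ℝ 2 rho :=
  (Real.smoothTransition.contDiff (n := 2)).comp (contDiff_const.sub contDiff_id)

theorem rho_one {t : ℝ} (h : t ≤ 1) : rho t = 1 := Real.smoothTransition.one_of_one_le (by linarith)
theorem rho_zero {t : ℝ} (h : 2 ≤ t) : rho t = 0 := Real.smoothTransition.zero_of_nonpos (by linarith)

theorem rho_anti : Antitone rho := fun a b h => by
  unfold rho
  exact Real.smoothTransition.monotone (by linarith)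

/-- The radial cutoff function at `l`. -/
noncomputable def bump (l z : ℂ) : ℂ := (rho ((z - l).re ^ 2 + (z - l).im ^ 2) : ℝ)

theorem hasFDerivAt_sq (l z : ℂ) : HasFDerivAt (fun z : ℂ => (z - l).re ^ 2 + (z - l).im ^ 2)
    ((2 * (z - l).re) • Complex.reCLM + (2 * (z - l).im) • Complex.imCLM) z := by
  have h1 : HasFDerivAt (fun z : ℂ => (z - l).re) Complex.reCLM z :=
    Complex.reCLM.hasFDerivAt.sub_const l.re
  have h2 : HasFDerivAt (fun z : ℂ => (z - l).im) Complex.imCLM z :=
    Complex.imCLM.hasFDerivAt.sub_const l.im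
  refine ((h1.pow 2).add (h2.pow 2)).congr_fderiv ?_
  ext v <;> simp

theorem bump_contDiff (l : ℂ) : ContDiff ℝ 1 (bump l) := by
  unfold bump
  refine Complex.ofRealCLM.contDiff.comp ((rho_contDiff.of_le (by norm_num)).comp ?_)
  have h1 : ContDiff ℝ 1 (fun z : ℂ => (z - l).re) :=
    Complex.reCLM.contDiff.comp (contDiff_id.sub contDiff_const)
  have h2 : ContDiff ℝ 1 (fun z : ℂ => (z - l).im) :=
    Complex.imCLM.contDiff.comp (contDiff_id.sub contDiff_const)
  exact (h1.pow 2).add (h2.pow 2)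

theorem sq_eq (w : ℂ) : w.re ^ 2 + w.im ^ 2 = ‖w‖ ^ 2 := by
  rw [← Complex.normSq_eq_norm_sq, Complex.normSq_apply]; ring

theorem db_bump (l z : ℂ) : db (bump l) z = 2 * (deriv rho (‖z - l‖ ^ 2) : ℝ) * (z - l) := by
  have h1 : HasFDerivAt (bump l) (Complex.ofRealCLM.comp
      ((deriv rho ((z - l).re ^ 2 + (z - l).im ^ 2)) •
        ((2 * (z - l).re) • Complex.reCLM + (2 * (z - l).im) • Complex.imCLM))) z := by
    have h2 : HasDerivAt rho (deriv rho ((z - l).re ^ 2 + (z - l).im ^ 2))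
        ((z - l).re ^ 2 + (z - l).im ^ 2) :=
      (rho_contDiff.differentiable (by norm_num)).differentiableAt.hasDerivAt
    have h3 := h2.comp_hasFDerivAt z (hasFDerivAt_sq l z)
    have h4 := Complex.ofRealCLM.hasFDerivAt.comp z h3
    exact h4
  unfold db
  rw [h1.fderiv, ← sq_eq]
  simp only [ContinuousLinearMap.comp_apply, smul_apply,
    add_apply, Complex.reCLM_apply, Complex.imCLM_apply, Complex.one_re,
    Complex.one_im, Complex.I_re, Complex.I_im, Complex.ofRealCLM_apply, smul_eq_mul]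
  generalize z - l = w
  generalize deriv rho (w.re ^ 2 + w.im ^ 2) = d
  push_cast
  linear_combination (2 * (d : ℂ)) * (Complex.re_add_im w)

/-- The constant. -/
noncomputable def kap : ℝ := ∫ z : ℂ, -2 * deriv rho (‖z‖ ^ 2)

theorem deriv_rho_cont : Continuous (deriv rho) := rho_contDiff.continuous_deriv (by norm_num)

theorem deriv_rho_zero {t : ℝ} (h : 2 < t) : deriv rho t = 0 := by
  have : rho =ᶠ[𝓝 t] fun _ => 0 := by
    filter_upwards [Ioi_mem_nhds h] with s hs
    exact rho_zero hs.le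
  rw [this.deriv_eq]; simp

theorem kap_pos : 0 < kap := by
  unfold kap
  have hcont : Continuous fun z : ℂ => -2 * deriv rho (‖z‖ ^ 2) :=
    continuous_const.mul (deriv_rho_cont.comp (continuous_norm.pow 2))
  have hcs : HasCompactSupport fun z : ℂ => -2 * deriv rho (‖z‖ ^ 2) := by
    apply HasCompactSupport.intro (isCompact_closedBall (0 : ℂ) 2)
    intro z hz
    rw [mem_closedBall_zero_iff, not_le] at hz
    rw [deriv_rho_zero (by nlinarith)]
    ring
  obtain ⟨ξ, hξ, hd⟩ := exists_deriv_eq_slope rho (by norm_num : (1 : ℝ) < 2)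
    (rho_contDiff.continuous.continuousOn) ((rho_contDiff.differentiable (by norm_num)).differentiableOn)
  rw [rho_zero (le_refl 2), rho_one (le_refl 1)] at hd
  refine hcont.integral_pos_of_hasCompactSupport_nonneg_nonzero hcs ?_ (x := (Real.sqrt ξ : ℂ)) ?_
  · intro z
    have : deriv rho (‖z‖ ^ 2) ≤ 0 := rho_anti.deriv_nonpos
    show (0 : ℝ) ≤ -2 * deriv rho (‖z‖ ^ 2)
    linarith
  · have hξ0 : 0 ≤ ξ := by linarith [hξ.1]
    have : ‖(Real.sqrt ξ : ℂ)‖ ^ 2 = ξ := by
      rw [Complex.norm_real, Real.norm_eq_abs, sq_abs, Real.sq_sqrt hξ0]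
    rw [this, hd]
    norm_num

theorem bump_near (l : ℂ) : ∀ᶠ z in 𝓝 l, bump l z = 1 := by
  filter_upwards [ball_mem_nhds l one_pos] with z hz
  unfold bump
  rw [sq_eq, rho_one]
  · simp
  · have : ‖z - l‖ < 1 := by rwa [mem_ball_iff_norm] at hz
    nlinarith [norm_nonneg (z - l)]

theorem bump_compact (l : ℂ) : HasCompactSupport (bump l) := by
  apply HasCompactSupport.intro (isCompact_closedBall l 2)
  intro z hz
  rw [mem_closedBall_iff_norm, not_le] at hz
  unfold bump
  rw [sq_eq, rho_zero (by nlinarith)]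
  simp

theorem integral_bump (l : ℂ) : ∫ z, db (bump l) z • (l - z)⁻¹ = (kap : ℂ) := by
  have h1 : ∀ z, db (bump l) z • (l - z)⁻¹ = ((-2 * deriv rho (‖z - l‖ ^ 2) : ℝ) : ℂ) := by
    intro z
    rw [db_bump]
    by_cases hz : z = l
    · subst hz
      have : deriv rho 0 = 0 := by
        have h2 : rho =ᶠ[𝓝 0] fun _ => 1 := by
          filter_upwards [Iio_mem_nhds (zero_lt_one)] with s hs
          exact rho_one hs.le
        rw [h2.deriv_eq]; simp
      simp [this]
    · have : z - l ≠ 0 := sub_ne_zero.2 hz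
      have h3 : l - z ≠ 0 := sub_ne_zero.2 (Ne.symm hz)
      rw [smul_eq_mul]
      push_cast
      field_simp
      ring
  simp only [h1]
  have h2 : ∫ z : ℂ, ((-2 * deriv rho (‖z - l‖ ^ 2) : ℝ) : ℂ) =
      ((∫ z : ℂ, -2 * deriv rho (‖z - l‖ ^ 2) : ℝ) : ℂ) := integral_ofReal
  rw [h2]
  congr 1
  exact integral_sub_right_eq_self (fun z : ℂ => -2 * deriv rho (‖z‖ ^ 2)) l

theorem kernel_diff (l : ℂ) : DifferentiableOn ℂ (fun z : ℂ => (l - z)⁻¹) {l}ᶜ := by
  intro z hz
  have : l - z ≠ 0 := sub_ne_zero.2 (fun h => hz (by simp [h]))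
  exact ((differentiableAt_const l).sub differentiableAt_id).inv this |>.differentiableWithinAt

theorem db_sub {ψ χ : ℂ → ℂ} (hψ : ContDiff ℝ 1 ψ) (hχ : ContDiff ℝ 1 χ) (z : ℂ) :
    db (ψ - χ) z = db ψ z - db χ z := by
  unfold db
  rw [fderiv_sub (hψ.differentiable one_ne_zero).differentiableAt
    (hχ.differentiable one_ne_zero).differentiableAt]
  simp only [sub_apply]
  ring

/-- Cauchy–Pompeiu outside of the support. -/
theorem kernel_zero {ψ : ℂ → ℂ} (hψ : ContDiff ℝ 1 ψ) (hc : HasCompactSupport ψ) {l : ℂ}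
    (hl : ∀ᶠ z in 𝓝 l, ψ z = 0) : ∫ z, db ψ z • (l - z)⁻¹ = 0 := by
  refine stokes hψ hc (isOpen_compl_singleton (x := l)) ?_ (kernel_diff l)
  intro z hz hzl
  rw [mem_singleton_iff] at hzl
  subst hzl
  exact notMem_tsupport_iff_eventuallyEq.2 hl hz

/-- Cauchy–Pompeiu where the function is `1`. -/
theorem kernel_one {ψ : ℂ → ℂ} (hψ : ContDiff ℝ 1 ψ) (hc : HasCompactSupport ψ) {l : ℂ}
    (hl : ∀ᶠ z in 𝓝 l, ψ z = 1) : ∫ z, db ψ z • (l - z)⁻¹ = (kap : ℂ) := by
  have h1 : ∫ z, db (ψ - bump l) z • (l - z)⁻¹ = 0 := by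
    refine kernel_zero (hψ.sub (bump_contDiff l)) (hc.sub (bump_compact l)) ?_
    filter_upwards [hl, bump_near l] with z h2 h3
    rw [h2, h3, sub_self]
  have hint : ∀ χ : ℂ → ℂ, ContDiff ℝ 1 χ → HasCompactSupport χ → (∀ᶠ z in 𝓝 l, χ z = 1) →
      Integrable fun z => db χ z • (l - z)⁻¹ := by
    intro χ hχ hcχ hχl
    refine integrable_smul (db_cont hχ) (db_compact hcχ) (isOpen_compl_singleton (x := l)) ?_
      (kernel_diff l).continuousOn
    intro z hz hzl
    rw [mem_singleton_iff] at hzl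
    subst hzl
    refine notMem_tsupport_iff_eventuallyEq.2 ?_ hz
    filter_upwards [hχl.eventually_nhds] with w hw
    exact db_eq_zero hw
  have h2 : ∀ z, db (ψ - bump l) z • (l - z)⁻¹ = db ψ z • (l - z)⁻¹ - db (bump l) z • (l - z)⁻¹ :=
    fun z => by rw [db_sub hψ (bump_contDiff l), sub_smul]
  simp only [h2] at h1
  rw [integral_sub (hint ψ hψ hc hl) (hint _ (bump_contDiff l) (bump_compact l) (bump_near l)),
    integral_bump, sub_eq_zero] at h1
  exact h1

end Q87.Cauchy
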