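import Mathlib

/-! Normalised arc length on the unit circle, finite Blaschke products, model spaces and modified
Aleksandrov-Clark families. -/

set_option autoImplicit false
open MeasureTheory Filter Topology
open scoped ENNReal InnerProductSpace ComplexConjugate

namespace Q87.Clark

/-- Normalised arc length on the unit circle, as a measure on `ℂ`. -/
noncomputable def arc : Measure ℂ :=
  Measure.map (fun θ : ℝ => Complex.exp (θ * Complex.I))
    (ENNReal.ofReal (2 * Real.pi)⁻¹ • volume.restrict (Set.Ioc 0 (2 * Real.pi)))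

theorem measurable_e : Measurable (fun θ : ℝ => Complex.exp (θ * Complex.I)) := by fun_prop

instance : IsProbabilityMeasure arc := by
  constructor
  rw [arc, Measure.map_apply measurable_e MeasurableSet.univ, Set.preimage_univ,
    Measure.smul_apply, Measure.restrict_apply_univ, Real.volume_Ioc, smul_eq_mul, sub_zero,
    ← ENNReal.ofReal_mul (by positivity), inv_mul_cancel₀ (by positivity), ENNReal.ofReal_one]

theorem integral_arc (f : ℂ → ℂ) (hf : AEStronglyMeasurable f arc) :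
    ∫ z, f z ∂arc = (2 * Real.pi)⁻¹ • ∫ θ in (0:ℝ)..(2 * Real.pi), f (Complex.exp (θ * Complex.I)) := by
  rw [arc, integral_map measurable_e.aemeasurable hf, integral_smul_measure,
    intervalIntegral.integral_of_le (by positivity), ENNReal.toReal_ofReal (by positivity)]

theorem ae_norm : ∀ᵐ z ∂arc, ‖z‖ = 1 := by
  rw [arc, ae_map_iff measurable_e.aemeasurable (measurableSet_eq_fun measurable_norm measurable_const)]
  exact Eventually.of_forall fun θ => Complex.norm_exp_ofReal_mul_I θ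

theorem arc_singleton (ζ : ℂ) : arc {ζ} = 0 := by
  rw [arc, Measure.map_apply measurable_e (measurableSet_singleton _), Measure.smul_apply]
  suffices hs : (volume.restrict (Set.Ioc 0 (2 * Real.pi)))
      ((fun θ : ℝ => Complex.exp (θ * Complex.I)) ⁻¹' {ζ}) = 0 by
    rw [hs, smul_zero]
  refine Set.Countable.measure_zero ?_ _
  by_cases h : ∃ θ0 : ℝ, Complex.exp (θ0 * Complex.I) = ζ
  · obtain ⟨θ0, h0⟩ := h
    refine (Set.countable_range fun n : ℤ => θ0 + n * (2 * Real.pi)).mono ?_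
    intro θ hθ
    have h1 : Complex.exp (θ * Complex.I) = Complex.exp (θ0 * Complex.I) := by
      rw [h0]; exact hθ
    obtain ⟨n, hn⟩ := Complex.exp_eq_exp_iff_exists_int.1 h1
    refine ⟨n, ?_⟩
    have h2 : (θ : ℂ) = θ0 + n * (2 * Real.pi) := by
      have := mul_right_cancel₀ Complex.I_ne_zero
        (show (θ : ℂ) * Complex.I = (θ0 + n * (2 * Real.pi)) * Complex.I by rw [hn]; ring)
      exact this
    have h3 : θ = θ0 + n * (2 * Real.pi) := by exact_mod_cast h2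
    exact h3.symm
  · have : (fun θ : ℝ => Complex.exp (θ * Complex.I)) ⁻¹' {ζ} = ∅ := by
      ext θ
      simp only [Set.mem_preimage, Set.mem_singleton_iff, Set.mem_empty_iff_false, iff_false]
      exact fun h' => h ⟨θ, h'⟩
    rw [this]; exact Set.countable_empty

theorem ae_ne (ζ : ℂ) : ∀ᵐ z ∂arc, z ≠ ζ := by
  rw [ae_iff]
  simpa using arc_singleton ζ

theorem integral_mono (a b : ℕ) :
    ∫ z, z ^ a * conj (z ^ b) ∂arc = if a = b then 1 else 0 := by
  rw [integral_arc _ (by fun_prop)]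
  have h1 : ∀ θ : ℝ, Complex.exp (θ * Complex.I) ^ a * conj (Complex.exp (θ * Complex.I) ^ b)
      = Complex.exp ((((a : ℂ) - b) * Complex.I) * θ) := by
    intro θ
    rw [map_pow, ← Complex.exp_conj, map_mul, Complex.conj_I, Complex.conj_ofReal,
      ← Complex.exp_nat_mul, ← Complex.exp_nat_mul, ← Complex.exp_add]
    congr 1; ring
  simp only [h1]
  by_cases hab : a = b
  · subst hab
    simp only [sub_self, zero_mul, Complex.exp_zero, intervalIntegral.integral_const, sub_zero,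
      if_true]
    rw [smul_smul, inv_mul_cancel₀ (by positivity), one_smul]
  · rw [if_neg hab, integral_exp_mul_complex]
    · have : Complex.exp (((a : ℂ) - b) * Complex.I * ((2 * Real.pi : ℝ) : ℂ)) = 1 := by
        rw [Complex.exp_eq_one_iff]
        refine ⟨(a : ℤ) - b, ?_⟩
        push_cast; ring
      rw [this]; simp
    · have : (a : ℂ) - b ≠ 0 := by
        rw [sub_ne_zero]; exact_mod_cast hab
      exact mul_ne_zero this Complex.I_ne_zero

/-- `L²` of the unit circle. -/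
noncomputable abbrev L2T := Lp ℂ 2 arc

/-- The Hardy space `H²`: closed span of the monomials `z ↦ z ^ n`, `n ≥ 0`. -/
noncomputable def H2 : Submodule ℂ L2T :=
  (Submodule.span ℂ {f : L2T | ∃ n : ℕ, (f : ℂ → ℂ) =ᵐ[arc] fun z => z ^ n}).topologicalClosure

/-- Data of a finite Blaschke product of degree `n`. -/
structure Blaschke (n : ℕ) where
  /-- unimodular constant -/
  c : ℂ
  hc : ‖c‖ = 1
  /-- zeros -/
  lam : Fin n → ℂ
  hlam : ∀ j, ‖lam j‖ < 1

/-- The finite Blaschke product `c ∏ (z - λ_j) / (1 - conj λ_j z)`. -/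
noncomputable def Blaschke.eval {n : ℕ} (Θ : Blaschke n) (z : ℂ) : ℂ :=
  Θ.c * ∏ j, (z - Θ.lam j) / (1 - conj (Θ.lam j) * z)

/-- Membership in the model space `K_Θ = H² ⊖ Θ H²`. -/
def InModel {n : ℕ} (Θ : Blaschke n) (f : L2T) : Prop :=
  f ∈ H2 ∧ ∀ g ∈ H2, ∫ z, conj (Θ.eval z * g z) * f z ∂arc = 0

/-- `M` is unitarily equivalent to a truncated Toeplitz operator: it is the matrix
`⟨A_φ u_j, u_i⟩ = ⟨φ u_j, u_i⟩` of some `A_φ` in some orthonormal basis `u` of some `K_Θ`. -/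
def UnitarilyTTO {n : ℕ} (M : Matrix (Fin n) (Fin n) ℂ) : Prop :=
  ∃ (Θ : Blaschke n) (φ : ℂ → ℂ) (u : Fin n → L2T), MemLp φ ⊤ arc ∧ Orthonormal ℂ u ∧
    (∀ f, InModel Θ f ↔ f ∈ Submodule.span ℂ (Set.range u)) ∧
    ∀ i j, M i j = ∫ z, φ z * u j z * conj (u i z) ∂arc

/-- Data of a modified Aleksandrov-Clark basis: `α` and the `ζ_j` are unimodular, the `ζ_j` are
the `n` distinct solutions of `Θ(ζ) = α`, and `w_j² = α conj ζ_j`. -/
structure ClarkData {n : ℕ} (Θ : Blaschke n) where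
  /-- value -/
  α : ℂ
  hα : ‖α‖ = 1
  /-- solutions -/
  ζ : Fin n → ℂ
  hζ : ∀ j, ‖ζ j‖ = 1
  inj : Function.Injective ζ
  sol : ∀ j, Θ.eval (ζ j) = α
  /-- phases -/
  w : Fin n → ℂ
  hw : ∀ j, ‖w j‖ = 1
  hw2 : ∀ j, w j ^ 2 = α * conj (ζ j)

/-- The boundary kernel `k_{ζ_j}(z) = (1 - conj α Θ(z)) / (1 - conj ζ_j z)`. -/
noncomputable def ClarkData.k {n : ℕ} {Θ : Blaschke n} (D : ClarkData Θ) (j : Fin n) (z : ℂ) : ℂ :=
  (1 - conj D.α * Θ.eval z) / (1 - conj (D.ζ j) * z)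

/-- `‖k_{ζ_j}‖` in `L²`. -/
noncomputable def ClarkData.nk {n : ℕ} {Θ : Blaschke n} (D : ClarkData Θ) (j : Fin n) : ℝ :=
  Real.sqrt (∫ z, ‖D.k j z‖ ^ 2 ∂arc)

/-- The element `e_j = w_j k_{ζ_j} / ‖k_{ζ_j}‖` of the modified Clark basis. -/
noncomputable def ClarkData.e {n : ℕ} {Θ : Blaschke n} (D : ClarkData Θ) (j : Fin n) (z : ℂ) : ℂ :=
  D.w j * (D.k j z / D.nk j)

/-- `M` is the matrix of some truncated Toeplitz operator `A_φ^Θ` with respect to some modified
Aleksandrov-Clark basis of `K_Θ`. -/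
def ClarkMatrix {n : ℕ} (M : Matrix (Fin n) (Fin n) ℂ) : Prop :=
  ∃ (Θ : Blaschke n) (φ : ℂ → ℂ) (D : ClarkData Θ), MemLp φ ⊤ arc ∧
    ∀ i j, M i j = ∫ z, φ z * D.e j z * conj (D.e i z) ∂arc

/-! ### Boundedness of the kernels -/

theorem den_bound {lam z : ℂ} (hl : ‖lam‖ < 1) (hz : ‖z‖ = 1) :
    1 - ‖lam‖ ≤ ‖1 - conj lam * z‖ := by
  have := norm_sub_norm_le (1 : ℂ) (conj lam * z)
  rw [norm_one, norm_mul, RCLike.norm_conj, hz, mul_one] at this
  exact this

theorem factor_norm {lam z : ℂ} (hl : ‖lam‖ < 1) (hz : ‖z‖ = 1) :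
    ‖(z - lam) / (1 - conj lam * z)‖ = 1 := by
  have h1 : (1 - conj lam * z) = z * conj (z - lam) := by
    have : z * conj z = 1 := by
      rw [Complex.mul_conj, Complex.normSq_eq_norm_sq, hz]; norm_num
    rw [map_sub, mul_sub, this]; ring
  have h2 : 0 < ‖1 - conj lam * z‖ := lt_of_lt_of_le (by linarith) (den_bound hl hz)
  rw [norm_div, div_eq_one_iff_eq h2.ne', h1, norm_mul, hz, one_mul, RCLike.norm_conj]

theorem eval_norm {n : ℕ} (Θ : Blaschke n) {z : ℂ} (hz : ‖z‖ = 1) : ‖Θ.eval z‖ = 1 := by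
  rw [Blaschke.eval, norm_mul, Θ.hc, one_mul, norm_prod]
  exact Finset.prod_eq_one fun j _ => factor_norm (Θ.hlam j) hz

theorem factor_lip {lam z ζ : ℂ} (hl : ‖lam‖ < 1) (hz : ‖z‖ = 1) (hζ : ‖ζ‖ = 1) :
    ‖(z - lam) / (1 - conj lam * z) - (ζ - lam) / (1 - conj lam * ζ)‖
      ≤ (2 / (1 - ‖lam‖) ^ 2) * ‖z - ζ‖ := by
  have h1 := den_bound hl hz
  have h2 := den_bound hl hζ
  have hp : 0 < 1 - ‖lam‖ := by linarith
  have n1 : 1 - conj lam * z ≠ 0 := norm_pos_iff.1 (hp.trans_le h1)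
  have n2 : 1 - conj lam * ζ ≠ 0 := norm_pos_iff.1 (hp.trans_le h2)
  have e : (z - lam) / (1 - conj lam * z) - (ζ - lam) / (1 - conj lam * ζ)
      = ((1 - lam * conj lam) * (z - ζ)) / ((1 - conj lam * z) * (1 - conj lam * ζ)) := by
    rw [div_sub_div _ _ n1 n2]
    congr 1
    ring
  rw [e, norm_div, norm_mul, norm_mul]
  have h3 : ‖1 - lam * conj lam‖ ≤ 2 := by
    calc ‖1 - lam * conj lam‖ ≤ ‖(1:ℂ)‖ + ‖lam * conj lam‖ := norm_sub_le _ _
      _ = 1 + ‖lam‖ * ‖lam‖ := by rw [norm_one, norm_mul, RCLike.norm_conj]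
      _ ≤ 2 := by nlinarith [norm_nonneg lam]
  have h4 : (1 - ‖lam‖) ^ 2 ≤ ‖1 - conj lam * z‖ * ‖1 - conj lam * ζ‖ := by
    rw [sq]; exact mul_le_mul h1 h2 hp.le (norm_nonneg _)
  have h5 : 0 < ‖1 - conj lam * z‖ * ‖1 - conj lam * ζ‖ := lt_of_lt_of_le (by positivity) h4
  rw [div_mul_eq_mul_div]
  apply div_le_div₀ (by positivity) (mul_le_mul_of_nonneg_right h3 (norm_nonneg _)) (by positivity) h4

theorem prod_lip {ι : Type*} (s : Finset ι) (f g : ι → ℂ) (C : ι → ℝ) (r : ℝ) (hr : 0 ≤ r)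
    (hC : ∀ i, 0 ≤ C i)
    (hf : ∀ i, ‖f i‖ = 1) (hg : ∀ i, ‖g i‖ = 1) (h : ∀ i, ‖f i - g i‖ ≤ C i * r) :
    ‖∏ i ∈ s, f i - ∏ i ∈ s, g i‖ ≤ (∑ i ∈ s, C i) * r := by
  classical
  induction s using Finset.induction_on with
  | empty => simp
  | insert a s ha ih =>
    rw [Finset.prod_insert ha, Finset.prod_insert ha, Finset.sum_insert ha]
    have e : f a * ∏ i ∈ s, f i - g a * ∏ i ∈ s, g i
        = (f a - g a) * ∏ i ∈ s, f i + g a * (∏ i ∈ s, f i - ∏ i ∈ s, g i) := by ring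
    have h1 : ‖∏ i ∈ s, f i‖ = 1 := by rw [norm_prod]; exact Finset.prod_eq_one fun i _ => hf i
    rw [e]
    refine (norm_add_le _ _).trans ?_
    rw [norm_mul, norm_mul, h1, hg a, mul_one, one_mul, add_mul]
    exact add_le_add (h a) ih

theorem k_bound {n : ℕ} {Θ : Blaschke n} (D : ClarkData Θ) (j : Fin n) :
    ∃ C : ℝ, 0 ≤ C ∧ ∀ z : ℂ, ‖z‖ = 1 → ‖D.k j z‖ ≤ C := by
  have hCi : ∀ i, 0 ≤ 2 / (1 - ‖Θ.lam i‖) ^ 2 := fun i => by positivity
  refine ⟨∑ i, 2 / (1 - ‖Θ.lam i‖) ^ 2, Finset.sum_nonneg fun i _ => hCi i, fun z hz => ?_⟩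
  have hαα : conj D.α * D.α = 1 := by
    rw [mul_comm, Complex.mul_conj, Complex.normSq_eq_norm_sq, D.hα]; norm_num
  have h1 : ‖1 - conj D.α * Θ.eval z‖ ≤ (∑ i, 2 / (1 - ‖Θ.lam i‖) ^ 2) * ‖z - D.ζ j‖ := by
    have e : 1 - conj D.α * Θ.eval z = conj D.α * (Θ.eval (D.ζ j) - Θ.eval z) := by
      rw [D.sol j, mul_sub, hαα]
    rw [e, norm_mul, RCLike.norm_conj, D.hα, one_mul, norm_sub_rev, Blaschke.eval, Blaschke.eval,
      ← mul_sub, norm_mul, Θ.hc, one_mul]
    exact prod_lip _ _ _ _ _ (norm_nonneg _) hCi (fun i => factor_norm (Θ.hlam i) hz)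
      (fun i => factor_norm (Θ.hlam i) (D.hζ j)) (fun i => factor_lip (Θ.hlam i) hz (D.hζ j))
  have h2 : ‖1 - conj (D.ζ j) * z‖ = ‖z - D.ζ j‖ := by
    have : conj (D.ζ j) * D.ζ j = 1 := by
      rw [mul_comm, Complex.mul_conj, Complex.normSq_eq_norm_sq, D.hζ]; norm_num
    have e : 1 - conj (D.ζ j) * z = conj (D.ζ j) * (D.ζ j - z) := by rw [mul_sub, this]
    rw [e, norm_mul, RCLike.norm_conj, D.hζ, one_mul, norm_sub_rev]
  rw [ClarkData.k, norm_div, h2]
  rcases eq_or_lt_of_le (norm_nonneg (z - D.ζ j)) with h0 | h0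
  · rw [← h0, div_zero]; exact Finset.sum_nonneg fun i _ => hCi i
  · rw [div_le_iff₀ h0]; exact h1

theorem clark_alg (f N N' A wi wj z ni nj P Q : ℂ) (hP : P = 1 - A * wi ^ 2 * z)
    (hQ : Q = 1 - A * wj ^ 2 * z) (hP0 : P ≠ 0) (hQ0 : Q ≠ 0) (hwi : wi ≠ 0) (hwj : wj ≠ 0)
    (hni : ni ≠ 0) (hnj : nj ≠ 0) :
    f * (wj * (N / Q / nj)) * (wi⁻¹ * (N' * (-(A * wi ^ 2) * z) / P / ni)) *
      (wi * wj⁻¹ - wj * wi⁻¹) = ni⁻¹ * nj⁻¹ * (f * N' * (N / Q) - f * N' * (N / P)) := by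
  field_simp
  rw [hP, hQ]
  ring

/-- The key identity: off-diagonal entries of a Clark matrix. -/
theorem clark_entry {n : ℕ} {Θ : Blaschke n} (D : ClarkData Θ) (φ : ℂ → ℂ) (hφ : MemLp φ ⊤ arc)
    (heval : Measurable Θ.eval) (hk : ∀ j, Measurable (D.k j)) :
    ∃ Γ : Fin n → ℂ, ∀ i j, i ≠ j →
      (∫ z, φ z * D.e j z * conj (D.e i z) ∂arc) * (D.w i * conj (D.w j) - D.w j * conj (D.w i))
        = ((D.nk i)⁻¹ * (D.nk j)⁻¹ : ℝ) * (Γ j - Γ i) := by
  let G : Fin n → ℂ → ℂ := fun j z => φ z * conj (1 - conj D.α * Θ.eval z) * D.k j z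
  have hGi : ∀ j, Integrable (G j) arc := by
    intro j
    obtain ⟨C, hC0, hC⟩ := k_bound D j
    have h1 : MemLp (fun z => conj (1 - conj D.α * Θ.eval z) * D.k j z) ⊤ arc := by
      refine MemLp.of_bound (C := 2 * C) ?_ ?_
      · have := hk j
        have h2 : Measurable fun z => conj (1 - conj D.α * Θ.eval z) :=
          Complex.continuous_conj.measurable.comp (by fun_prop)
        exact (h2.mul this).aestronglyMeasurable
      · filter_upwards [ae_norm] with z hz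
        rw [norm_mul, RCLike.norm_conj]
        refine mul_le_mul ?_ (hC z hz) (norm_nonneg _) (by norm_num)
        calc ‖1 - conj D.α * Θ.eval z‖ ≤ ‖(1:ℂ)‖ + ‖conj D.α * Θ.eval z‖ := norm_sub_le _ _
          _ = 2 := by rw [norm_one, norm_mul, RCLike.norm_conj, D.hα, eval_norm Θ hz]; norm_num
    have h3 : MemLp (fun z => φ z * (conj (1 - conj D.α * Θ.eval z) * D.k j z)) ⊤ arc :=
      h1.mul' hφ
    have h4 : MemLp (G j) ⊤ arc := by
      refine h3.ae_eq (Eventually.of_forall fun z => ?_)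
      simp only [G]; ring
    exact (h4.mono_exponent le_top).integrable le_rfl
  refine ⟨fun j => ∫ z, G j z ∂arc, fun i j hij => ?_⟩
  have hww : ∀ j, D.w j * conj (D.w j) = 1 := fun j => by
    rw [Complex.mul_conj, Complex.normSq_eq_norm_sq, D.hw]; norm_num
  have hζζ : ∀ j, D.ζ j * conj (D.ζ j) = 1 := fun j => by
    rw [Complex.mul_conj, Complex.normSq_eq_norm_sq, D.hζ]; norm_num
  have hαα : conj D.α * D.α = 1 := by
    rw [mul_comm, Complex.mul_conj, Complex.normSq_eq_norm_sq, D.hα]; norm_num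
  have hζw : ∀ j, conj (D.ζ j) = conj D.α * D.w j ^ 2 := fun j => by
    rw [D.hw2, ← mul_assoc, hαα, one_mul]
  rw [← integral_sub (hGi j) (hGi i), ← integral_mul_const, ← integral_const_mul]
  refine integral_congr_ae ?_
  filter_upwards [ae_norm, ae_ne (D.ζ i), ae_ne (D.ζ j)] with z hz hzi hzj
  have hzz : z * conj z = 1 := by
    rw [Complex.mul_conj, Complex.normSq_eq_norm_sq, hz]; norm_num
  have hz0 : z ≠ 0 := by
    intro h; rw [h, norm_zero] at hz; exact zero_ne_one hz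
  have hw0 : ∀ j, D.w j ≠ 0 := fun j h => by
    have := D.hw j; rw [h, norm_zero] at this; exact zero_ne_one this
  have hden : ∀ l, z ≠ D.ζ l → 1 - conj (D.ζ l) * z ≠ 0 := by
    intro l hl h
    apply hl
    have h1 : conj (D.ζ l) * z = 1 := (sub_eq_zero.1 h).symm
    calc z = (D.ζ l * conj (D.ζ l)) * z := by rw [hζζ, one_mul]
      _ = D.ζ l * (conj (D.ζ l) * z) := by ring
      _ = D.ζ l := by rw [h1, mul_one]
  have di := hden i hzi
  have dj := hden j hzj
  -- conj of k i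
  set N : ℂ := 1 - conj D.α * Θ.eval z with hN
  have hki : conj (D.k i z) = conj N * (-(conj (D.ζ i)) * z) / (1 - conj (D.ζ i) * z) := by
    rw [ClarkData.k, map_div₀, ← hN]
    have e1 : conj (1 - conj (D.ζ i) * z) = -(D.ζ i) * conj z * (1 - conj (D.ζ i) * z) := by
      rw [map_sub, map_one, map_mul, Complex.conj_conj]
      have h1 := hζζ i
      linear_combination (-(D.ζ i * conj (D.ζ i))) * hzz - h1
    have e2 : -(D.ζ i) * conj z ≠ 0 := by
      have : D.ζ i ≠ 0 := fun h => by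
        have := D.hζ i; rw [h, norm_zero] at this; exact zero_ne_one this
      exact mul_ne_zero (neg_ne_zero.2 this) ((map_ne_zero _).2 hz0)
    rw [e1, div_eq_div_iff (mul_ne_zero e2 di) di]
    have h1 := hζζ i
    linear_combination (conj N * (1 - conj (D.ζ i) * z)) * (-(D.ζ i * conj (D.ζ i)) * hzz - h1)
  simp only [G, ClarkData.e, map_mul, map_div₀, Complex.conj_ofReal, hki]
  rw [ClarkData.k, ClarkData.k, ← hN]
  have hci := hζw i
  have hcj := hζw j
  have wi := hww i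
  have wj := hww j
  have c1 : conj (D.w i) = (D.w i)⁻¹ := (eq_inv_of_mul_eq_one_right wi)
  have c2 : conj (D.w j) = (D.w j)⁻¹ := (eq_inv_of_mul_eq_one_right wj)
  have hwi := hw0 i
  have hwj := hw0 j
  rw [c1, c2]
  push_cast
  by_cases ni : (D.nk i : ℂ) = 0
  · simp [ni]
  by_cases nj : (D.nk j : ℂ) = 0
  · simp [nj]
  rw [hci] at di
  rw [hcj] at dj
  rw [hci, hcj]
  exact clark_alg _ _ _ _ _ _ _ _ _ _ _ rfl rfl di dj hwi hwj ni nj

theorem measurable_eval {n : ℕ} (Θ : Blaschke n) : Measurable Θ.eval := by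
  unfold Blaschke.eval
  fun_prop

theorem measurable_k {n : ℕ} {Θ : Blaschke n} (D : ClarkData Θ) (j : Fin n) :
    Measurable (D.k j) := by
  unfold ClarkData.k
  have := measurable_eval Θ
  fun_prop

end Q87.Clark
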