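import Pool.Agent.Q87.Clark

/-! A complex symmetric matrix unitarily equivalent to a truncated Toeplitz operator which is not the
matrix of a truncated Toeplitz operator in a modified Clark basis. -/

set_option autoImplicit false
open MeasureTheory Filter Topology
open scoped ENNReal InnerProductSpace ComplexConjugate

namespace Q87.Clark

/-- The counterexample. -/
def MM : Matrix (Fin 3) (Fin 3) ℂ := !![0, 1, 0; 1, 0, Complex.I; 0, Complex.I, 0]

theorem not_clark : ¬ ClarkMatrix MM := by
  rintro ⟨Θ, φ, D, hφ, hM⟩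
  obtain ⟨Γ, hΓ⟩ := clark_entry D φ hφ (measurable_eval Θ) (measurable_k D)
  have h02 := hΓ 0 2 (by decide)
  have h01 := hΓ 0 1 (by decide)
  have h12 := hΓ 1 2 (by decide)
  rw [← hM] at h02 h01 h12
  have m02 : MM 0 2 = 0 := rfl
  have m01 : MM 0 1 = 1 := rfl
  have m12 : MM 1 2 = Complex.I := rfl
  rw [m02, zero_mul] at h02
  rw [m01, one_mul] at h01
  rw [m12] at h12
  have hww : ∀ j, D.w j * conj (D.w j) = 1 := fun j => by
    rw [Complex.mul_conj, Complex.normSq_eq_norm_sq, D.hw]; norm_num
  -- differences are purely imaginary and nonzero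
  have hne : ∀ i j, i ≠ j → D.w i * conj (D.w j) - D.w j * conj (D.w i) ≠ 0 := by
    intro i j hij h
    apply hij
    apply D.inj
    have h1 : D.w i ^ 2 = D.w j ^ 2 := by
      have hi := hww i
      have hj := hww j
      linear_combination (D.w i * D.w j) * h - (D.w i ^ 2) * hj + (D.w j ^ 2) * hi
    rw [D.hw2, D.hw2] at h1
    have hα0 : D.α ≠ 0 := fun h => by
      have := D.hα; rw [h, norm_zero] at this; exact zero_ne_one this
    have h2 := mul_left_cancel₀ hα0 h1
    exact (starRingEnd ℂ).injective h2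
  have him : ∀ i j, (D.w i * conj (D.w j) - D.w j * conj (D.w i)).re = 0 := by
    intro i j
    simp only [Complex.sub_re, Complex.mul_re, Complex.conj_re, Complex.conj_im]
    ring
  set s : Fin 3 → ℝ := fun j => (D.nk j)⁻¹ with hs
  have hd01 := hne 0 1 (by decide)
  have hd12 := hne 1 2 (by decide)
  have hre01 := him 0 1
  have hre12 := him 1 2
  set d01 := D.w 0 * conj (D.w 1) - D.w 1 * conj (D.w 0)
  set d12 := D.w 1 * conj (D.w 2) - D.w 2 * conj (D.w 1)
  have h01' : d01 = (s 0 * s 1 : ℝ) * (Γ 1 - Γ 0) := h01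
  have h12' : Complex.I * d12 = (s 1 * s 2 : ℝ) * (Γ 2 - Γ 1) := h12
  have h02' : (0 : ℂ) = (s 0 * s 2 : ℝ) * (Γ 2 - Γ 0) := h02
  have hs01 : s 0 * s 1 ≠ 0 := fun h => by
    rw [h] at h01'; apply hd01; rw [h01']; simp
  have hs12 : s 1 * s 2 ≠ 0 := fun h => by
    rw [h] at h12'
    have : Complex.I * d12 = 0 := by rw [h12']; simp
    exact hd12 ((mul_eq_zero.1 this).resolve_left Complex.I_ne_zero)
  have s0 : s 0 ≠ 0 := left_ne_zero_of_mul hs01
  have s1 : s 1 ≠ 0 := left_ne_zero_of_mul hs12
  have s2 : s 2 ≠ 0 := right_ne_zero_of_mul hs12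
  have hΓ02 : Γ 2 - Γ 0 = 0 := by
    have : ((s 0 * s 2 : ℝ) : ℂ) ≠ 0 := by exact_mod_cast mul_ne_zero s0 s2
    exact (mul_eq_zero.1 h02'.symm).resolve_left this
  have key : (s 2 : ℂ) * d01 = -(s 0 : ℂ) * (Complex.I * d12) := by
    rw [h01', h12']
    push_cast
    linear_combination (-(s 0 : ℂ) * s 1 * s 2) * hΓ02 + 2 * ((s 0 : ℂ) * s 1 * s 2) * hΓ02
  -- compare imaginary parts
  have him2 := congrArg Complex.im key
  simp only [Complex.mul_im, Complex.mul_re, Complex.ofReal_re, Complex.ofReal_im, Complex.I_re,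
    Complex.I_im, Complex.neg_re, Complex.neg_im, hre12, hre01] at him2
  have h3 : s 2 * d01.im = 0 := by linarith
  have h4 : d01.im = 0 := (mul_eq_zero.1 h3).resolve_left s2
  exact hd01 (Complex.ext hre01 h4)

/-! ### The model space of `z ^ 3` -/

/-- `Θ(z) = z³`. -/
noncomputable def cube : Blaschke 3 where
  c := 1
  hc := norm_one
  lam := fun _ => 0
  hlam := fun _ => by simp

theorem cube_eval (z : ℂ) : cube.eval z = z ^ 3 := by
  simp [cube, Blaschke.eval]

theorem memLp_of_cont (f : ℂ → ℂ) (hf : Continuous f) (p : ℝ≥0∞) : MemLp f p arc := by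
  obtain ⟨C, hC⟩ := (isCompact_sphere (0 : ℂ) 1).exists_bound_of_continuousOn hf.continuousOn
  refine MemLp.of_bound hf.aestronglyMeasurable C ?_
  filter_upwards [ae_norm] with z hz
  exact hC z (by simpa using hz)

/-- monomials -/
noncomputable def mono (n : ℕ) : L2T := MemLp.toLp (fun z => z ^ n) (memLp_of_cont _ (by fun_prop) 2)

theorem mono_ae (n : ℕ) : (mono n : ℂ → ℂ) =ᵐ[arc] fun z => z ^ n := MemLp.coeFn_toLp _

theorem mono_inner (a b : ℕ) : ⟪mono a, mono b⟫_ℂ = if a = b then 1 else 0 := by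
  have := integral_mono b a
  rw [L2.inner_def]
  rw [show (if a = b then (1:ℂ) else 0) = if b = a then 1 else 0 by simp [eq_comm], ← this]
  refine integral_congr_ae ?_
  filter_upwards [mono_ae a, mono_ae b] with z h1 h2
  rw [h1, h2, RCLike.inner_apply]

theorem H2_eq : H2 = (Submodule.span ℂ (Set.range mono)).topologicalClosure := by
  unfold H2
  congr 2
  ext f
  constructor
  · rintro ⟨n, hn⟩
    exact ⟨n, (Lp.ext (hn.trans (mono_ae n).symm)).symm⟩
  · rintro ⟨n, rfl⟩
    exact ⟨n, mono_ae n⟩

theorem mono_mem (n : ℕ) : mono n ∈ H2 := by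
  rw [H2_eq]
  exact Submodule.le_topologicalClosure _ (Submodule.subset_span ⟨n, rfl⟩)

/-- An element of `H²` orthogonal to all monomials vanishes. -/
theorem H2_orth (f : L2T) (hf : f ∈ H2) (h : ∀ n, ⟪mono n, f⟫_ℂ = 0) : f = 0 := by
  have h1 : ∀ g ∈ H2, ⟪g, f⟫_ℂ = 0 := by
    intro g hg
    rw [H2_eq] at hg
    have hle : (Submodule.span ℂ (Set.range mono)).topologicalClosure ≤ (ℂ ∙ f)ᗮ := by
      refine Submodule.topologicalClosure_minimal _ ?_ (Submodule.isClosed_orthogonal _)
      rw [Submodule.span_le]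
      rintro _ ⟨n, rfl⟩
      rw [SetLike.mem_coe, Submodule.mem_orthogonal_singleton_iff_inner_left]
      exact h n
    exact (Submodule.mem_orthogonal_singleton_iff_inner_left).1 (hle hg)
  exact inner_self_eq_zero.1 (h1 f hf)

theorem integral_shift (g f : L2T) (N : ℕ) :
    ∃ g' : L2T, ∫ z, conj (z ^ N * g z) * f z ∂arc = ⟪g', f⟫_ℂ ∧
      (g' : ℂ → ℂ) =ᵐ[arc] fun z => z ^ N * g z := by
  have hm : MemLp (fun z => z ^ N * g z) 2 arc := by
    have h1 : MemLp (fun z : ℂ => z ^ N) ⊤ arc := memLp_of_cont _ (by fun_prop) ⊤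
    exact (Lp.memLp g).mul' h1
  refine ⟨MemLp.toLp _ hm, ?_, MemLp.coeFn_toLp hm⟩
  rw [L2.inner_def]
  refine integral_congr_ae ?_
  filter_upwards [MemLp.coeFn_toLp hm] with z hz
  rw [hz, RCLike.inner_apply]
  ring

theorem model_cube (f : L2T) :
    InModel cube f ↔ f ∈ Submodule.span ℂ (Set.range fun j : Fin 3 => mono j) := by
  constructor
  · rintro ⟨hf, hg⟩
    have hbig : ∀ n : ℕ, ⟪mono (3 + n), f⟫_ℂ = 0 := by
      intro n
      have h1 := hg (mono n) (mono_mem n)
      rw [← h1, L2.inner_def]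
      refine integral_congr_ae ?_
      filter_upwards [mono_ae (3+n), mono_ae n] with z h2 h3
      rw [RCLike.inner_apply, h2, h3, cube_eval, pow_add]
      ring
    set g : L2T := f - ∑ j : Fin 3, ⟪mono j, f⟫_ℂ • mono j with hgd
    have hgH : g ∈ H2 := by
      refine Submodule.sub_mem _ hf (Submodule.sum_mem _ fun j _ => ?_)
      exact Submodule.smul_mem _ _ (mono_mem j)
    have hg0 : ∀ n, ⟪mono n, g⟫_ℂ = 0 := by
      intro n
      rw [hgd, inner_sub_right, inner_sum]
      simp only [inner_smul_right, mono_inner]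
      by_cases hn : n < 3
      · rw [Finset.sum_eq_single (⟨n, hn⟩ : Fin 3)]
        · simp
        · intro b _ hb
          have : n ≠ (b : ℕ) := fun h => hb (Fin.ext h.symm)
          simp [this]
        · intro h; exact absurd (Finset.mem_univ _) h
      · have h1 := hbig (n - 3)
        rw [show 3 + (n - 3) = n by omega] at h1
        rw [h1, zero_sub, neg_eq_zero]
        refine Finset.sum_eq_zero fun j _ => ?_
        have : n ≠ (j : ℕ) := by have := j.2; omega
        simp [this]
    have hgz := H2_orth g hgH hg0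
    have hfe : f = ∑ j : Fin 3, ⟪mono j, f⟫_ℂ • mono j := sub_eq_zero.1 hgz
    rw [hfe]
    exact Submodule.sum_mem _ fun j _ => Submodule.smul_mem _ _ (Submodule.subset_span ⟨j, rfl⟩)
  · intro hf
    have hspan : ∀ g ∈ H2, ∀ j : Fin 3, ∫ z, conj (cube.eval z * g z) * mono j z ∂arc = 0 := by
      intro g hg j
      have e1 : ∫ z, conj (cube.eval z * g z) * mono j z ∂arc
          = ∫ z, conj (z ^ 3 * g z) * mono j z ∂arc := by simp only [cube_eval]
      obtain ⟨g', hg', hg'2⟩ := integral_shift g (mono j) 3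
      rw [e1, hg']
      -- move the power to the other side: use density
      rw [H2_eq] at hg
      have hle : ∀ g ∈ (Submodule.span ℂ (Set.range mono)).topologicalClosure,
          ∫ z, conj (z ^ 3 * g z) * mono j z ∂arc = 0 := by
        -- the functional is an inner product with `conj z ^ 3 * mono j`
        have hm : MemLp (fun z => conj (z ^ 3) * mono j z) 2 arc := by
          have h1 : MemLp (fun z : ℂ => conj (z ^ 3)) ⊤ arc :=
            memLp_of_cont _ (by fun_prop) ⊤
          exact (Lp.memLp (mono j)).mul' h1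
        have hfun : ∀ g : L2T, ∫ z, conj (z ^ 3 * g z) * mono j z ∂arc
            = ⟪g, MemLp.toLp _ hm⟫_ℂ := by
          intro g
          rw [L2.inner_def]
          refine integral_congr_ae ?_
          filter_upwards [MemLp.coeFn_toLp hm] with z hz
          rw [hz, RCLike.inner_apply, map_mul]
          ring
        intro g hg
        rw [hfun]
        have hle : (Submodule.span ℂ (Set.range mono)).topologicalClosure
            ≤ (ℂ ∙ (MemLp.toLp _ hm : L2T))ᗮ := by
          refine Submodule.topologicalClosure_minimal _ ?_ (Submodule.isClosed_orthogonal _)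
          rw [Submodule.span_le]
          rintro _ ⟨n, rfl⟩
          rw [SetLike.mem_coe, Submodule.mem_orthogonal_singleton_iff_inner_left, ← hfun]
          have h3 := integral_mono j (3 + n)
          rw [if_neg (by have := j.2; omega)] at h3
          rw [← h3]
          refine integral_congr_ae ?_
          filter_upwards [mono_ae j, mono_ae n] with z h4 h5
          rw [h4, h5, pow_add]
          ring
        exact (Submodule.mem_orthogonal_singleton_iff_inner_left).1 (hle hg)
      rw [← hg']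
      exact hle g hg
    refine ⟨?_, fun g hg => ?_⟩
    · have hle : Submodule.span ℂ (Set.range fun j : Fin 3 => mono j) ≤ H2 := by
        rw [Submodule.span_le]
        rintro _ ⟨j, rfl⟩
        exact mono_mem j
      exact hle hf
    · obtain ⟨g', hg', hg'2⟩ := integral_shift g f 3
      have e1 : ∀ f : L2T, ∫ z, conj (cube.eval z * g z) * f z ∂arc = ⟪g', f⟫_ℂ := by
        intro f
        rw [L2.inner_def]
        refine integral_congr_ae ?_
        filter_upwards [hg'2] with z hz
        rw [hz, RCLike.inner_apply, cube_eval]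
        ring
      rw [e1]
      have hle : Submodule.span ℂ (Set.range fun j : Fin 3 => mono j) ≤ (ℂ ∙ g')ᗮ := by
        rw [Submodule.span_le]
        rintro _ ⟨j, rfl⟩
        rw [SetLike.mem_coe, Submodule.mem_orthogonal_singleton_iff_inner_right, ← e1]
        exact hspan g hg j
      exact (Submodule.mem_orthogonal_singleton_iff_inner_right).1 (hle hf)

/-- `1/√2` -/
noncomputable def r : ℝ := (Real.sqrt 2)⁻¹

theorem r_sq : (r : ℂ) * r = 1 / 2 := by
  have : r * r = 1 / 2 := by
    unfold r
    rw [← mul_inv, Real.mul_self_sqrt (by norm_num)]; norm_num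
  have h := congrArg (fun x : ℝ => (x : ℂ)) this
  push_cast at h
  exact h

/-- coefficients of the orthonormal basis with respect to the monomials -/
noncomputable def V : Matrix (Fin 3) (Fin 3) ℂ :=
  !![(r : ℂ), 0, Complex.I * r; 0, 1, 0; (r : ℂ), 0, -(Complex.I * r)]

/-- the orthonormal basis -/
noncomputable def uu (j : Fin 3) : L2T := ∑ l : Fin 3, V l j • mono l

theorem uu_ae (j : Fin 3) : (uu j : ℂ → ℂ) =ᵐ[arc] fun z => ∑ l : Fin 3, V l j * z ^ (l : ℕ) := by
  have h1 : ∀ᵐ z ∂arc, ∀ l : Fin 3, (V l j • mono l : L2T) z = V l j * (mono l : ℂ → ℂ) z :=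
    ae_all_iff.2 fun l => Lp.coeFn_smul (V l j) (mono l)
  have h2 : ∀ᵐ z ∂arc, ∀ l : Fin 3, (mono l : ℂ → ℂ) z = z ^ (l : ℕ) :=
    ae_all_iff.2 fun l => mono_ae l
  have h3 : (uu j : ℂ → ℂ) =ᵐ[arc] fun z => ∑ l : Fin 3, (V l j • mono l : L2T) z := by
    unfold uu
    rw [Fin.sum_univ_three]
    filter_upwards [Lp.coeFn_add (V 0 j • mono (0 : Fin 3) + V 1 j • mono (1 : Fin 3) : L2T)
      (V 2 j • mono (2 : Fin 3)),
      Lp.coeFn_add (V 0 j • mono (0 : Fin 3) : L2T) (V 1 j • mono (1 : Fin 3))] with z h4 h5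
    rw [h4, Pi.add_apply, h5, Fin.sum_univ_three]
    rfl
  filter_upwards [h1, h2, h3] with z h4 h5 h6
  rw [h6]
  exact Finset.sum_congr rfl fun l _ => by rw [h4 l, h5 l]

theorem uu_inner (i j : Fin 3) : ⟪uu i, uu j⟫_ℂ = if i = j then 1 else 0 := by
  unfold uu
  rw [sum_inner]
  simp only [inner_sum, inner_smul_left, inner_smul_right, mono_inner]
  simp only [Fin.sum_univ_three, Fin.val_zero, Fin.val_one, Fin.val_two]
  have hr := r_sq
  have hI := Complex.I_mul_I
  fin_cases i <;> fin_cases j <;> simp [V] <;>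
    first
    | linear_combination (2 : ℂ) * hr
    | linear_combination (2 : ℂ) * hr - (2 * (r : ℂ) * r) * hI

theorem uu_orthonormal : Orthonormal ℂ uu := by
  rw [orthonormal_iff_ite]
  exact uu_inner

theorem span_uu : Submodule.span ℂ (Set.range uu)
    = Submodule.span ℂ (Set.range fun j : Fin 3 => mono j) := by
  have hr := r_sq
  have hI := Complex.I_mul_I
  apply le_antisymm
  · rw [Submodule.span_le]
    rintro _ ⟨j, rfl⟩
    exact Submodule.sum_mem _ fun l _ =>
      Submodule.smul_mem _ _ (Submodule.subset_span ⟨l, rfl⟩)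
  · rw [Submodule.span_le]
    have m : ∀ j, uu j ∈ Submodule.span ℂ (Set.range uu) := fun j =>
      Submodule.subset_span ⟨j, rfl⟩
    have e0 : mono 0 = (r : ℂ) • uu 0 - ((r : ℂ) * Complex.I) • uu 2 := by
      unfold uu
      simp only [Fin.sum_univ_three, V, Matrix.of_apply, Matrix.cons_val', Matrix.cons_val_zero,
        Matrix.cons_val_one, Matrix.cons_val, Matrix.empty_val', Matrix.cons_val_fin_one,
        Fin.val_zero, Fin.val_one, Fin.val_two, zero_smul, add_zero]
      simp only [smul_add, smul_smul]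
      have e1 : (r : ℂ) * Complex.I * (Complex.I * r) = -(1/2) := by
        linear_combination (r : ℂ) * r * hI - hr
      have e2 : (r : ℂ) * Complex.I * (-(Complex.I * r)) = 1/2 := by
        linear_combination -((r : ℂ) * r * hI) + hr
      rw [hr, e1, e2]
      module
    have e2 : mono 2 = (r : ℂ) • uu 0 + ((r : ℂ) * Complex.I) • uu 2 := by
      unfold uu
      simp only [Fin.sum_univ_three, V, Matrix.of_apply, Matrix.cons_val', Matrix.cons_val_zero,
        Matrix.cons_val_one, Matrix.cons_val, Matrix.empty_val', Matrix.cons_val_fin_one,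
        Fin.val_zero, Fin.val_one, Fin.val_two, zero_smul, add_zero]
      simp only [smul_add, smul_smul]
      have e1 : (r : ℂ) * Complex.I * (Complex.I * r) = -(1/2) := by
        linear_combination (r : ℂ) * r * hI - hr
      have e2 : (r : ℂ) * Complex.I * (-(Complex.I * r)) = 1/2 := by
        linear_combination -((r : ℂ) * r * hI) + hr
      rw [hr, e1, e2]
      module
    have e1 : mono 1 = uu 1 := by
      unfold uu
      simp [Fin.sum_univ_three, V]
    rintro _ ⟨j, rfl⟩
    fin_cases j
    · change mono 0 ∈ _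
      rw [e0]
      exact Submodule.sub_mem _ (Submodule.smul_mem _ _ (m 0)) (Submodule.smul_mem _ _ (m 2))
    · change mono 1 ∈ _
      rw [e1]; exact m 1
    · change mono 2 ∈ _
      rw [e2]
      exact Submodule.add_mem _ (Submodule.smul_mem _ _ (m 0)) (Submodule.smul_mem _ _ (m 2))

theorem uu_matrix (i j : Fin 3) :
    ∫ z, (2 * (r : ℂ) * z) * uu j z * conj (uu i z) ∂arc
      = 2 * r * (V 0 j * conj (V 1 i) + V 1 j * conj (V 2 i)) := by
  have e1 : ∫ z, (2 * (r : ℂ) * z) * uu j z * conj (uu i z) ∂arc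
      = ∫ z, ∑ l : Fin 3, ∑ m : Fin 3, (2 * (r : ℂ) * V l j * conj (V m i)) *
          (z ^ ((l : ℕ) + 1) * conj (z ^ (m : ℕ))) ∂arc := by
    refine integral_congr_ae ?_
    filter_upwards [uu_ae i, uu_ae j] with z h1 h2
    rw [h1, h2]
    simp only [Fin.sum_univ_three, map_add, map_mul, pow_succ, map_pow]
    ring
  have hint : ∀ (l m : ℕ), Integrable (fun z : ℂ => z ^ (l + 1) * conj (z ^ m)) arc := fun l m =>
    (memLp_of_cont _ (by fun_prop) 1).integrable le_rfl
  rw [e1, integral_finsetSum _ fun (l : Fin 3) _ => integrable_finsetSum _ fun (m : Fin 3) _ =>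
    (hint l m).const_mul _]
  have e2 : ∀ l : Fin 3, ∫ z, ∑ m : Fin 3, (2 * (r : ℂ) * V l j * conj (V m i)) *
          (z ^ ((l : ℕ) + 1) * conj (z ^ (m : ℕ))) ∂arc
      = ∑ m : Fin 3, (2 * (r : ℂ) * V l j * conj (V m i)) *
          (if (l : ℕ) + 1 = m then 1 else 0) := by
    intro l
    rw [integral_finsetSum _ fun (m : Fin 3) _ => (hint l m).const_mul _]
    refine Finset.sum_congr rfl fun m _ => ?_
    rw [integral_const_mul, integral_mono]
  rw [Finset.sum_congr rfl fun l _ => e2 l]
  simp only [Fin.sum_univ_three, Fin.val_zero, Fin.val_one, Fin.val_two]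
  norm_num
  ring

theorem unitarilyTTO_MM : UnitarilyTTO MM := by
  refine ⟨cube, fun z => 2 * (r : ℂ) * z, uu, memLp_of_cont _ (by fun_prop) ⊤, uu_orthonormal,
    fun f => ?_, fun i j => ?_⟩
  · rw [span_uu]; exact model_cube f
  · rw [uu_matrix]
    have hr := r_sq
    fin_cases i <;> fin_cases j <;> simp [V, MM] <;>
      first
      | linear_combination (-2 : ℂ) * hr
      | linear_combination (-2 : ℂ) * Complex.I * hr

end Q87.Clark
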