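import Mathlib

/-! A unicoherence property of the complex plane. -/

set_option autoImplicit false

open Set Topology Metric

namespace Q87.EssTop

theorem discrete_int : IsDiscrete (Set.range ((↑) : ℤ → ℝ)) := by
  rw [isDiscrete_iff_discreteTopology]
  exact Int.isClosedEmbedding_coe_real.isEmbedding.toHomeomorph.discreteTopology

/-- Let `A` be closed, bounded and preconnected and `F` closed with `A ∪ F = ℂ`, such that a bounded
open set whose boundary misses `F` misses `F`. Then `A ∩ F` is preconnected. -/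
theorem inter_preconnected {A F : Set ℂ} (hA : IsClosed A) (hF : IsClosed F) (hAF : A ∪ F = univ)
    (hAb : Bornology.IsBounded A) (hAc : IsPreconnected A)
    (hmp : ∀ V : Set ℂ, Bornology.IsBounded V → IsOpen V → Disjoint (frontier V) F →
      Disjoint V F) : IsPreconnected (A ∩ F) := by
  rw [isPreconnected_closed_iff]
  intro t t' ht ht' hsub hne hne'
  by_contra hcon
  rw [Set.not_nonempty_iff_eq_empty] at hcon
  obtain ⟨φ, hφ0, hφ1, -⟩ := exists_continuous_zero_one_of_isClosed
    ((hA.inter hF).inter ht') ((hA.inter hF).inter ht) (by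
      rw [Set.disjoint_iff_inter_eq_empty, ← hcon]
      ext z; simp only [mem_inter_iff]; tauto)
  classical
  let g : ℂ → Circle := fun z => if z ∈ A then Circle.exp (φ z * (2 * Real.pi)) else 1
  have hgA : ∀ z ∈ A, g z = Circle.exp (φ z * (2 * Real.pi)) := fun z hz => if_pos hz
  have hgF : ∀ z ∈ F, g z = 1 := by
    intro z hz
    by_cases hzA : z ∈ A
    · rw [hgA z hzA]
      rcases hsub ⟨hzA, hz⟩ with h | h
      · have : φ z = 1 := hφ1 ⟨⟨hzA, hz⟩, h⟩
        rw [this, Circle.exp_eq_one]
        exact ⟨1, by push_cast; ring⟩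
      · have : φ z = 0 := hφ0 ⟨⟨hzA, hz⟩, h⟩
        rw [this, zero_mul, Circle.exp_zero]
    · exact if_neg hzA
  have hgc : Continuous g := by
    rw [← continuousOn_univ, ← hAF]
    refine ContinuousOn.union_of_isClosed ?_ ?_ hA hF
    · have : Continuous fun z => Circle.exp (φ z * (2 * Real.pi)) := by fun_prop
      exact this.continuousOn.congr hgA
    · exact continuousOn_const.congr hgF
  obtain ⟨h, ⟨-, hh⟩, -⟩ := Circle.isCoveringMap_exp.existsUnique_continuousMap_lifts
    (⟨g, hgc⟩ : C(ℂ, Circle)) 0 (Classical.choose (Circle.exp_surjective (g 0)))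
    (Classical.choose_spec (Circle.exp_surjective (g 0)))
  have hhz : ∀ z, Circle.exp (h z) = g z := fun z => congrFun hh z
  set u : ℂ → ℝ := fun z => h z / (2 * Real.pi) with hu
  have huc : Continuous u := h.continuous.div_const _
  have hpi : (2 * Real.pi) ≠ 0 := by positivity
  have huF : MapsTo u F (Set.range ((↑) : ℤ → ℝ)) := by
    intro z hz
    have h1 : Circle.exp (h z) = 1 := by rw [hhz, hgF z hz]
    obtain ⟨n, hn⟩ := Circle.exp_eq_one.1 h1
    exact ⟨n, by simp only [hu]; rw [hn, mul_div_cancel_right₀ _ hpi]⟩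
  have huA : MapsTo (fun z => u z - φ z) A (Set.range ((↑) : ℤ → ℝ)) := by
    intro z hz
    have h1 : Circle.exp (h z) = Circle.exp (φ z * (2 * Real.pi)) := by rw [hhz, hgA z hz]
    obtain ⟨n, hn⟩ := Circle.exp_eq_exp.1 h1
    refine ⟨n, ?_⟩
    simp only [hu]
    rw [hn, ← add_mul, mul_div_cancel_right₀ _ hpi]
    ring
  -- the radius
  obtain ⟨R₀, hR₀⟩ := hAb.subset_ball (0 : ℂ)
  set R : ℝ := max R₀ 0 with hR
  have hAR : A ⊆ ball (0 : ℂ) R := hR₀.trans (ball_subset_ball (le_max_left _ _))
  have hsph : sphere (0 : ℂ) R ⊆ F := by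
    intro z hz
    have : z ∈ A ∪ F := by rw [hAF]; trivial
    rcases this with h1 | h1
    · exact absurd (mem_ball.1 (hAR h1)) (by rw [mem_sphere.1 hz]; exact lt_irrefl _)
    · exact h1
  have hsc : IsConnected (sphere (0 : ℂ) R) :=
    isConnected_sphere (by rw [Complex.rank_real_complex]; exact_mod_cast one_lt_two) 0
      (le_max_right _ _)
  obtain ⟨z₀, hz₀⟩ := hsc.nonempty
  set c := u z₀ with hc
  have hus : ∀ z ∈ sphere (0 : ℂ) R, u z = c := fun z hz =>
    hsc.isPreconnected.constant_of_mapsTo discrete_int huc.continuousOn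
      (huF.mono_left hsph) hz hz₀
  -- the open set
  let V : Set ℂ := ball (0 : ℂ) R ∩ {z | 1 / 2 < |u z - c|}
  have hVo : IsOpen V := isOpen_ball.inter (isOpen_lt continuous_const (by fun_prop))
  have hVF : Disjoint V F := by
    refine hmp V (isBounded_ball.subset inter_subset_left) hVo ?_
    rw [Set.disjoint_left]
    intro z hz hzF
    have hz1 : z ∈ closure V := frontier_subset_closure hz
    have hz2 : z ∉ V := fun hV => by
      rw [hVo.frontier_eq] at hz
      exact hz.2 hV
    have hcl : z ∈ closedBall (0 : ℂ) R ∩ {z | 1 / 2 ≤ |u z - c|} := by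
      have hsub2 : closure V ⊆ closedBall (0 : ℂ) R ∩ {z | 1 / 2 ≤ |u z - c|} := by
        refine closure_minimal ?_ (isClosed_closedBall.inter
          (isClosed_le continuous_const (by fun_prop)))
        exact inter_subset_inter ball_subset_closedBall fun w (hw : 1 / 2 < |u w - c|) =>
          (show 1 / 2 ≤ |u w - c| from hw.le)
      exact hsub2 hz1
    obtain ⟨n, hn⟩ := huF hzF
    obtain ⟨m, hm⟩ := huF (hsph hz₀)
    have hne2 : u z ≠ c := by
      intro h1
      have := hcl.2
      simp only [Set.mem_ofPred_eq] at this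
      rw [h1, sub_self, abs_zero] at this
      norm_num at this
    have hnm : (n : ℝ) - m ≠ 0 := by
      rw [hn, hm]; exact sub_ne_zero.2 hne2
    have h1 : (1 : ℝ) ≤ |u z - c| := by
      rw [hc, ← hn, ← hm, ← Int.cast_sub, ← Int.cast_abs]
      have : (n - m : ℤ) ≠ 0 := by intro h2; apply hnm; exact_mod_cast h2
      exact_mod_cast Int.one_le_abs this
    apply hz2
    refine ⟨?_, by show 1 / 2 < |u z - c|; linarith⟩
    rcases (mem_closedBall.1 hcl.1).lt_or_eq with h2 | h2
    · exact mem_ball.2 h2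
    · exact absurd (hus z (mem_sphere.2 h2)) hne2
  have huF2 : ∀ z ∈ A ∩ F, u z = c := by
    intro z hz
    by_contra hne2
    obtain ⟨n, hn⟩ := huF hz.2
    obtain ⟨m, hm⟩ := huF (hsph hz₀)
    have hnm : (n : ℝ) - m ≠ 0 := by
      rw [hn, hm]; exact sub_ne_zero.2 hne2
    have h1 : (1 : ℝ) ≤ |u z - c| := by
      rw [hc, ← hn, ← hm, ← Int.cast_sub, ← Int.cast_abs]
      have : (n - m : ℤ) ≠ 0 := by intro h2; apply hnm; exact_mod_cast h2
      exact_mod_cast Int.one_le_abs this
    exact Set.disjoint_left.1 hVF ⟨hAR hz.1, by show 1 / 2 < |u z - c|; linarith⟩ hz.2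
  obtain ⟨a, ha⟩ := hne
  obtain ⟨b, hb⟩ := hne'
  have hab := hAc.constant_of_mapsTo discrete_int (f := fun z => u z - φ z)
    (huc.sub φ.continuous).continuousOn huA ha.1.1 hb.1.1
  have hφa : φ a = 1 := hφ1 ha
  have hφb : φ b = 0 := hφ0 hb
  simp only [huF2 a ha.1, huF2 b hb.1, hφa, hφb] at hab
  linarith

end Q87.EssTop
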