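import Mathlib
import Pool.Agent.Q87.Cauchy

/-! The Riesz idempotent of a disconnected spectrum in a Banach algebra. -/

set_option autoImplicit false

open Set Topology Metric MeasureTheory Filter
open Q87.Cauchy

namespace Q87.RieszIdem

variable {A : Type*} [NormedRing A] [NormedAlgebra ℂ A] [CompleteSpace A]

theorem res_cont (a : A) : ContinuousOn (resolvent a) (resolventSet ℂ a) := fun z hz =>
  (spectrum.hasDerivAt_resolvent_const_left hz).continuousAt.continuousWithinAt

theorem res_mul {a : A} {z : ℂ} (hz : z ∈ resolventSet ℂ a) :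
    (algebraMap ℂ A z - a) * resolvent a z = 1 := Ring.mul_inverse_cancel _ hz

theorem res_mul' {a : A} {z : ℂ} (hz : z ∈ resolventSet ℂ a) :
    resolvent a z * (algebraMap ℂ A z - a) = 1 := Ring.inverse_mul_cancel _ hz

theorem res_comm {a : A} {z : ℂ} (hz : z ∈ resolventSet ℂ a) :
    a * resolvent a z = resolvent a z * a := by
  have h1 := res_mul hz
  have h2 := res_mul' hz
  have h3 : algebraMap ℂ A z * resolvent a z = resolvent a z * algebraMap ℂ A z :=
    Algebra.commutes _ _
  have h4 : algebraMap ℂ A z * resolvent a z - a * resolvent a z =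
      resolvent a z * algebraMap ℂ A z - resolvent a z * a := by
    rw [← sub_mul, ← mul_sub, h1, h2]
  rw [h3] at h4
  exact sub_right_injective h4

section

variable {a : A} {ψ : ℂ → ℂ} (hψ : ContDiff ℝ 1 ψ) (hc : HasCompactSupport ψ)
  (hsp : tsupport (db ψ) ⊆ resolventSet ℂ a)

/-- the density -/
noncomputable def gg (a : A) (ψ : ℂ → ℂ) (z : ℂ) : A := db ψ z • resolvent a z

include hψ hsp in
theorem gg_cont : Continuous (gg a ψ) :=
  cont_smul (db_cont hψ) (spectrum.isOpen_resolventSet a) hsp (res_cont a)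

include hc in
theorem gg_compact : HasCompactSupport (gg a ψ) := (db_compact hc).smul_right

include hψ hc hsp in
theorem gg_int : Integrable (gg a ψ) :=
  (gg_cont hψ hsp).integrable_of_hasCompactSupport (gg_compact hc)

/-- the unnormalised projection -/
noncomputable def P0 (a : A) (ψ : ℂ → ℂ) : A := ∫ z, gg a ψ z

/-- the transform -/
noncomputable def BB (a : A) (ψ : ℂ → ℂ) (l : ℂ) : A := ∫ z, (l - z)⁻¹ • gg a ψ z

include hψ hc hsp in
theorem bb_int {l : ℂ} (hl : l ∉ tsupport (db ψ)) :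
    Integrable fun z => (l - z)⁻¹ • gg a ψ z := by
  have h1 : (fun z => (l - z)⁻¹ • gg a ψ z) = fun z => db ψ z • ((l - z)⁻¹ • resolvent a z) := by
    funext z; unfold gg; rw [smul_comm]
  rw [h1]
  refine integrable_smul (U := resolventSet ℂ a ∩ {l}ᶜ) (db_cont hψ) (db_compact hc)
    ((spectrum.isOpen_resolventSet a).inter isOpen_compl_singleton) ?_ ?_
  · intro z hz
    refine ⟨hsp hz, ?_⟩
    rintro (rfl : z = l)
    exact hl hz
  · exact ((kernel_diff l).continuousOn.mono inter_subset_right).smul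
      ((res_cont a).mono inter_subset_left)

include hψ hc hsp in
theorem ker_int {l : ℂ} (hl : l ∉ tsupport (db ψ)) :
    Integrable fun z => db ψ z • (l - z)⁻¹ := by
  refine integrable_smul (U := {l}ᶜ) (db_cont hψ) (db_compact hc) isOpen_compl_singleton ?_
    (kernel_diff l).continuousOn
  intro z hz
  rintro (rfl : z = l)
  exact hl hz

include hψ hc hsp in
theorem bb_eq {l : ℂ} (hl : l ∉ tsupport (db ψ)) :
    (algebraMap ℂ A l - a) * BB a ψ l = P0 a ψ + (∫ z, db ψ z • (l - z)⁻¹) • (1 : A) := by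
  unfold BB P0
  have h1 := (ContinuousLinearMap.mul ℂ A (algebraMap ℂ A l - a)).integral_comp_comm
    (bb_int hψ hc hsp hl)
  have h2 : (ContinuousLinearMap.mul ℂ A (algebraMap ℂ A l - a)) (∫ z, (l - z)⁻¹ • gg a ψ z) =
    (algebraMap ℂ A l - a) * ∫ z, (l - z)⁻¹ • gg a ψ z := rfl
  rw [← h2, ← h1, ← integral_smul_const, ← integral_add (gg_int hψ hc hsp)
    ((ker_int hψ hc hsp hl).smul_const (1 : A))]
  refine integral_congr_ae (Eventually.of_forall fun z => ?_)
  show (algebraMap ℂ A l - a) * ((l - z)⁻¹ • gg a ψ z) = gg a ψ z + (db ψ z • (l - z)⁻¹) • (1 : A)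
  unfold gg
  by_cases hz : db ψ z = 0
  · simp [hz]
  · have hz1 : z ∈ tsupport (db ψ) := subset_tsupport _ hz
    have hz2 := hsp hz1
    have hz3 : l - z ≠ 0 := sub_ne_zero.2 fun h => hl (h ▸ hz1)
    have h3 : (algebraMap ℂ A l - a) * resolvent a z = (l - z) • resolvent a z + 1 := by
      have : algebraMap ℂ A l - a = (l - z) • (1 : A) + (algebraMap ℂ A z - a) := by
        rw [Algebra.algebraMap_eq_smul_one, Algebra.algebraMap_eq_smul_one]
        module
      rw [this, add_mul, res_mul hz2, smul_mul_assoc, one_mul]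
    rw [mul_smul_comm, mul_smul_comm, h3, smul_add, smul_add, smul_smul, smul_smul, smul_smul,
      smul_assoc, smul_smul]
    congr 2
    · congr 1
      field_simp
    · rw [mul_comm]

include hψ hc hsp in
theorem p0_comm : a * P0 a ψ = P0 a ψ * a := by
  unfold P0
  have h1 := (ContinuousLinearMap.mul ℂ A a).integral_comp_comm (gg_int hψ hc hsp)
  have h2 := ((ContinuousLinearMap.mul ℂ A).flip a).integral_comp_comm (gg_int hψ hc hsp)
  refine (h1.symm.trans (Eq.trans ?_ h2))
  refine integral_congr_ae (Eventually.of_forall fun z => ?_)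
  show a * gg a ψ z = gg a ψ z * a
  unfold gg
  by_cases hz : db ψ z = 0
  · simp [hz]
  · rw [mul_smul_comm, smul_mul_assoc, res_comm (hsp (subset_tsupport _ hz))]

include hψ hc hsp in
theorem bb_comm {l : ℂ} (hl : l ∉ tsupport (db ψ)) : a * BB a ψ l = BB a ψ l * a := by
  unfold BB
  have h1 := (ContinuousLinearMap.mul ℂ A a).integral_comp_comm (bb_int hψ hc hsp hl)
  have h2 := ((ContinuousLinearMap.mul ℂ A).flip a).integral_comp_comm (bb_int hψ hc hsp hl)
  refine (h1.symm.trans (Eq.trans ?_ h2))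
  refine integral_congr_ae (Eventually.of_forall fun z => ?_)
  show a * ((l - z)⁻¹ • gg a ψ z) = ((l - z)⁻¹ • gg a ψ z) * a
  unfold gg
  by_cases hz : db ψ z = 0
  · simp [hz]
  · rw [mul_smul_comm, mul_smul_comm, smul_mul_assoc, smul_mul_assoc,
      res_comm (hsp (subset_tsupport _ hz))]

include hψ hc hsp in
theorem bb_diff {l : ℂ} (hl : l ∉ tsupport (db ψ)) : DifferentiableAt ℂ (BB a ψ) l := by
  obtain ⟨ε, hε, hball⟩ := Metric.isOpen_iff.1 (isClosed_tsupport (db ψ)).isOpen_compl l hl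
  have hdist : ∀ z ∈ tsupport (db ψ), ∀ x ∈ ball l (ε / 2), ε / 2 ≤ ‖x - z‖ := by
    intro z hz x hx
    have h1 : ε ≤ dist z l := by
      by_contra h
      exact hball (mem_ball.2 (not_le.1 h)) hz
    have h2 := dist_triangle z x l
    rw [mem_ball] at hx
    rw [← dist_eq_norm, dist_comm]
    linarith
  have hgz : ∀ z, z ∉ tsupport (db ψ) → gg a ψ z = 0 := fun z hz => by
    unfold gg; rw [image_eq_zero_of_notMem_tsupport hz, zero_smul]
  have hcont := gg_cont hψ hsp
  have key := hasDerivAt_integral_of_dominated_loc_of_deriv_le (μ := (volume : Measure ℂ))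
    (F := fun (x : ℂ) (z : ℂ) => (x - z)⁻¹ • gg a ψ z)
    (F' := fun (x : ℂ) (z : ℂ) => (-((x - z) ^ 2)⁻¹) • gg a ψ z)
    (bound := fun z => ((ε / 2) ^ 2)⁻¹ * ‖gg a ψ z‖) (x₀ := l)
    (ball_mem_nhds l (half_pos hε))
    (Eventually.of_forall fun x => (((measurable_const.sub measurable_id).inv
      ).aestronglyMeasurable).smul hcont.aestronglyMeasurable)
    (bb_int hψ hc hsp hl)
    ((((measurable_const.sub measurable_id).pow_const 2).inv.neg
      ).aestronglyMeasurable.smul hcont.aestronglyMeasurable)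
    (Eventually.of_forall fun z x hx => by
      by_cases hz : z ∈ tsupport (db ψ)
      · rw [norm_smul, norm_neg, norm_inv, norm_pow]
        have h1 := hdist z hz x hx
        gcongr
      · rw [hgz z hz]; simp)
    ((gg_int hψ hc hsp).norm.const_mul _)
    (Eventually.of_forall fun z x hx => by
      by_cases hz : z ∈ tsupport (db ψ)
      · have h1 : x - z ≠ 0 := by
          intro h
          have := hdist z hz x hx
          rw [h, norm_zero] at this
          linarith
        have h2 : HasDerivAt (fun x : ℂ => (x - z)⁻¹) (-((x - z) ^ 2)⁻¹) x := by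
          have h5 := ((hasDerivAt_id x).sub_const z).inv h1
          have h6 : -1 / (id x - z) ^ 2 = -((x - z) ^ 2)⁻¹ := by
            rw [neg_div, one_div]; rfl
          rw [h6] at h5
          exact h5
        exact h2.smul_const _
      · simp only [hgz z hz, smul_zero]
        exact hasDerivAt_const x (0 : A))
  exact key.2.differentiableAt

end

/-- **Riesz idempotent.** If the spectrum of `a` is the disjoint union of two nonempty closed sets,
there is a nontrivial idempotent commuting with `a`. -/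
theorem exists_idem (a : A) {A₁ A₂ : Set ℂ} (h₁ : IsClosed A₁) (h₂ : IsClosed A₂)
    (hd : Disjoint A₁ A₂) (hu : spectrum ℂ a = A₁ ∪ A₂) (hn₁ : A₁.Nonempty) (hn₂ : A₂.Nonempty) :
    ∃ e : A, e * e = e ∧ a * e = e * a ∧ e ≠ 0 ∧ e ≠ 1 := by
  have hbdd : Bornology.IsBounded (spectrum ℂ a) := spectrum.isBounded a
  obtain ⟨R, hR⟩ := hbdd.subset_ball (0 : ℂ)
  have hA1R : A₁ ⊆ ball (0 : ℂ) R := fun z hz => hR (by rw [hu]; exact Or.inl hz)
  obtain ⟨f, hf0, hf1, -⟩ := exists_contMDiffMap_zero_one_nhds_of_isClosed (n := 1)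
    (modelWithCornersSelf ℝ ℂ) (s := A₂ ∪ (ball (0 : ℂ) R)ᶜ) (t := A₁)
    (h₂.union isOpen_ball.isClosed_compl) h₁ (by
      rw [Set.disjoint_union_left]
      exact ⟨hd.symm, Set.disjoint_left.2 fun z hz hz1 => hz (hA1R hz1)⟩)
  set ψ : ℂ → ℂ := fun z => ((f z : ℝ) : ℂ) with hψdef
  have hψ : ContDiff ℝ 1 ψ := Complex.ofRealCLM.contDiff.comp f.contMDiff.contDiff
  have hψ0 : ∀ z ∈ A₂ ∪ (ball (0 : ℂ) R)ᶜ, ∀ᶠ w in 𝓝 z, ψ w = 0 := by
    intro z hz
    filter_upwards [(eventually_nhdsSet_iff_forall.1 hf0) z hz] with w hw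
    simp only [hψdef]; rw [hw]; simp
  have hψ1 : ∀ z ∈ A₁, ∀ᶠ w in 𝓝 z, ψ w = 1 := by
    intro z hz
    filter_upwards [(eventually_nhdsSet_iff_forall.1 hf1) z hz] with w hw
    simp only [hψdef]; rw [hw]; simp
  have hc : HasCompactSupport ψ := by
    apply HasCompactSupport.intro (isCompact_closedBall (0 : ℂ) R)
    intro z hz
    exact (hψ0 z (Or.inr fun h => hz (ball_subset_closedBall h))).self_of_nhds
  have hsp : tsupport (db ψ) ⊆ resolventSet ℂ a := by
    intro z hz
    by_contra hcon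
    have hz2 : z ∈ spectrum ℂ a := hcon
    rw [hu] at hz2
    have : ∃ c : ℂ, ∀ᶠ w in 𝓝 z, ψ w = c := by
      rcases hz2 with h | h
      · exact ⟨1, hψ1 z h⟩
      · exact ⟨0, hψ0 z (Or.inl h)⟩
    obtain ⟨c, hc2⟩ := this
    refine notMem_tsupport_iff_eventuallyEq.2 ?_ hz
    filter_upwards [hc2.eventually_nhds] with w hw
    exact db_eq_zero hw
  have hnot : ∀ (l c : ℂ), (∀ᶠ w in 𝓝 l, ψ w = c) → l ∉ tsupport (db ψ) := by
    intro l c hl hz
    refine notMem_tsupport_iff_eventuallyEq.2 ?_ hz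
    filter_upwards [hl.eventually_nhds] with w hw
    exact db_eq_zero hw
  set P := P0 a ψ with hP
  have hk : (kap : ℂ) ≠ 0 := by exact_mod_cast kap_pos.ne'
  have e1 : ∀ l, (∀ᶠ w in 𝓝 l, ψ w = 1) →
      (algebraMap ℂ A l - a) * BB a ψ l = P + (kap : ℂ) • (1 : A) := fun l hl => by
    rw [bb_eq hψ hc hsp (hnot l 1 hl), kernel_one hψ hc hl]
  have e0 : ∀ l, (∀ᶠ w in 𝓝 l, ψ w = 0) →
      (algebraMap ℂ A l - a) * BB a ψ l = P := fun l hl => by
    rw [bb_eq hψ hc hsp (hnot l 0 hl), kernel_zero hψ hc hl, zero_smul, add_zero]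
  set Z := (P + (kap : ℂ) • (1 : A)) * P with hZ
  have hZ' : Z = P * (P + (kap : ℂ) • (1 : A)) := by
    rw [hZ, add_mul, mul_add]; simp
  classical
  let E : ℂ → A := fun l => if (∀ᶠ w in 𝓝 l, ψ w = 1) then BB a ψ l * P else
    if (∀ᶠ w in 𝓝 l, ψ w = 0) then BB a ψ l * (P + (kap : ℂ) • (1 : A)) else resolvent a l * Z
  have hEres : ∀ l ∈ resolventSet ℂ a, E l = resolvent a l * Z := by
    intro l hl
    by_cases h1 : ∀ᶠ w in 𝓝 l, ψ w = 1
    · have h2 : BB a ψ l = resolvent a l * (P + (kap : ℂ) • (1 : A)) := by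
        rw [← e1 l h1, ← mul_assoc, res_mul' hl, one_mul]
      simp only [E, if_pos h1]
      rw [h2, mul_assoc]
    · by_cases h0 : ∀ᶠ w in 𝓝 l, ψ w = 0
      · have h2 : BB a ψ l = resolvent a l * P := by
          rw [← e0 l h0, ← mul_assoc, res_mul' hl, one_mul]
        simp only [E, if_neg h1, if_pos h0]
        rw [h2, mul_assoc, hZ']
      · simp only [E, if_neg h1, if_neg h0]
  have hE : Differentiable ℂ E := by
    intro l
    by_cases hl : l ∈ resolventSet ℂ a
    · have h1 : E =ᶠ[𝓝 l] fun l => resolvent a l * Z := by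
        filter_upwards [(spectrum.isOpen_resolventSet a).mem_nhds hl] with w hw
        exact hEres w hw
      refine DifferentiableAt.congr_of_eventuallyEq ?_ h1
      exact (spectrum.hasDerivAt_resolvent_const_left hl).differentiableAt.mul_const Z
    · have hl2 : l ∈ spectrum ℂ a := hl
      rw [hu] at hl2
      rcases hl2 with h | h
      · have h1 := hψ1 l h
        have h2 : E =ᶠ[𝓝 l] fun l => BB a ψ l * P := by
          filter_upwards [h1.eventually_nhds] with w hw
          simp only [E, if_pos hw]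
        refine DifferentiableAt.congr_of_eventuallyEq ?_ h2
        exact (bb_diff hψ hc hsp (hnot l 1 h1)).mul_const P
      · have h1 := hψ0 l (Or.inl h)
        have h2 : E =ᶠ[𝓝 l] fun l => BB a ψ l * (P + (kap : ℂ) • (1 : A)) := by
          filter_upwards [h1.eventually_nhds] with w hw
          have hw1 : ¬ ∀ᶠ v in 𝓝 w, ψ v = 1 := fun h3 => by
            have := hw.self_of_nhds.symm.trans h3.self_of_nhds
            exact zero_ne_one this
          simp only [E, if_neg hw1, if_pos hw]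
        refine DifferentiableAt.congr_of_eventuallyEq ?_ h2
        exact (bb_diff hψ hc hsp (hnot l 0 h1)).mul_const _
  have hEt : Tendsto E (cocompact ℂ) (𝓝 0) := by
    have h1 : Tendsto (fun l => resolvent a l * Z) (cocompact ℂ) (𝓝 0) := by
      have := (spectrum.resolvent_tendsto_cobounded (𝕜 := ℂ) a).mul_const Z
      rw [zero_mul] at this
      rwa [← Metric.cobounded_eq_cocompact]
    refine h1.congr' ?_
    rw [← Metric.cobounded_eq_cocompact]
    have h2 : (ball (0 : ℂ) R)ᶜ ∈ Bornology.cobounded ℂ := isBounded_ball.compl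
    filter_upwards [h2] with l hl
    refine (hEres l ?_).symm
    by_contra hcon
    exact hl (hR hcon)
  have hZ0 : Z = 0 := by
    obtain ⟨l, hl⟩ : ∃ l : ℂ, l ∈ resolventSet ℂ a := by
      refine ⟨(R : ℂ), ?_⟩
      by_contra hcon
      have h1 := hR hcon
      rw [mem_ball_zero_iff, Complex.norm_real, Real.norm_eq_abs] at h1
      exact absurd h1 (not_lt.2 (le_abs_self R))
    have h1 := hE.apply_eq_of_tendsto_cocompact l hEt
    rw [hEres l hl] at h1
    calc Z = (algebraMap ℂ A l - a) * (resolvent a l * Z) := by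
            rw [← mul_assoc, res_mul hl, one_mul]
      _ = 0 := by rw [h1, mul_zero]
  have hPP : P * P = -((kap : ℂ) • P) := by
    have : P * P + (kap : ℂ) • P = 0 := by
      rw [← hZ0, hZ, add_mul]; simp
    exact eq_neg_of_add_eq_zero_left this
  refine ⟨-((kap : ℂ)⁻¹ • P), ?_, ?_, ?_, ?_⟩
  · rw [neg_mul_neg, smul_mul_smul_comm, hPP, smul_neg, smul_smul, mul_assoc, inv_mul_cancel₀ hk,
      mul_one]
  · rw [mul_neg, neg_mul, mul_smul_comm, smul_mul_assoc, p0_comm hψ hc hsp]
  · intro h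
    have hP0 : P = 0 := by
      have h1 : (kap : ℂ)⁻¹ • P = 0 := neg_eq_zero.1 h
      exact (smul_eq_zero.1 h1).resolve_left (inv_ne_zero hk)
    obtain ⟨l, hl⟩ := hn₁
    have h1 := e1 l (hψ1 l hl)
    rw [hP0, zero_add] at h1
    have hcom := bb_comm hψ hc hsp (hnot l 1 (hψ1 l hl))
    have h2 : BB a ψ l * (algebraMap ℂ A l - a) = (kap : ℂ) • (1 : A) := by
      rw [← h1, mul_sub, sub_mul, hcom, Algebra.commutes]
    have hun : IsUnit (algebraMap ℂ A l - a) := by
      refine ⟨⟨algebraMap ℂ A l - a, (kap : ℂ)⁻¹ • BB a ψ l, ?_, ?_⟩, rfl⟩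
      · rw [mul_smul_comm, h1, smul_smul, inv_mul_cancel₀ hk, one_smul]
      · rw [smul_mul_assoc, h2, smul_smul, inv_mul_cancel₀ hk, one_smul]
    have h3 : l ∈ spectrum ℂ a := by rw [hu]; exact Or.inl hl
    exact h3 hun
  · intro h
    have hP0 : P = -((kap : ℂ) • (1 : A)) := by
      have h1 : (kap : ℂ) • (-((kap : ℂ)⁻¹ • P)) = (kap : ℂ) • (1 : A) := by rw [h]
      rw [smul_neg, smul_smul, mul_inv_cancel₀ hk, one_smul] at h1
      rw [← h1, neg_neg]
    obtain ⟨l, hl⟩ := hn₂
    have h1 := e0 l (hψ0 l (Or.inl hl))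
    rw [hP0] at h1
    have hcom := bb_comm hψ hc hsp (hnot l 0 (hψ0 l (Or.inl hl)))
    have h2 : BB a ψ l * (algebraMap ℂ A l - a) = -((kap : ℂ) • (1 : A)) := by
      rw [← h1, mul_sub, sub_mul, hcom, Algebra.commutes]
    have hun : IsUnit (algebraMap ℂ A l - a) := by
      refine ⟨⟨algebraMap ℂ A l - a, -((kap : ℂ)⁻¹ • BB a ψ l), ?_, ?_⟩, rfl⟩
      · rw [mul_neg, mul_smul_comm, h1, smul_neg, neg_neg, smul_smul, inv_mul_cancel₀ hk, one_smul]
      · rw [neg_mul, smul_mul_assoc, h2, smul_neg, neg_neg, smul_smul, inv_mul_cancel₀ hk, one_smul]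
    have h3 : l ∈ spectrum ℂ a := by rw [hu]; exact Or.inr hl
    exact h3 hun

end Q87.RieszIdem
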