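import Mathlib
import Pool.Agent.Q87.RieszIdem
import Pool.Agent.Q87.EssTop

/-! Operators all of whose nontrivial invariant subspaces have finite codimension: the essential
spectrum is connected. -/

set_option autoImplicit false

open Set Topology Metric Filter Polynomial

namespace Q87.EssMain

variable {H : Type*} [NormedAddCommGroup H] [NormedSpace ℂ H]

/-- Every nontrivial closed invariant subspace has finite codimension. -/
def OnlyFiniteCodim (T : H →L[ℂ] H) : Prop :=
  ∀ M : Submodule ℂ H, IsClosed (M : Set H) → (∀ x ∈ M, T x ∈ M) → M ≠ ⊥ → M ≠ ⊤ →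
    FiniteDimensional ℂ (H ⧸ M)

/-- The essential spectrum: `T - z` is not invertible modulo compact operators. -/
def essSpectrum (T : H →L[ℂ] H) : Set ℂ :=
  {z | ¬ ∃ S : H →L[ℂ] H, IsCompactOperator (S * (T - z • 1) - 1 : H →L[ℂ] H) ∧
    IsCompactOperator ((T - z • 1) * S - 1 : H →L[ℂ] H)}

/-- `T - z` -/
def D (T : H →L[ℂ] H) (z : ℂ) : H →L[ℂ] H := T - z • 1

theorem D_apply (T : H →L[ℂ] H) (z : ℂ) (x : H) : D T z x = T x - z • x := rfl

theorem inj {T : H →L[ℂ] H} (hT : OnlyFiniteCodim T) (hX : ¬ FiniteDimensional ℂ H) (z : ℂ)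
    (x : H) (hx : D T z x = 0) : x = 0 := by
  by_contra hne
  have hTx : T x = z • x := sub_eq_zero.1 (by rw [← D_apply]; exact hx)
  have hM : FiniteDimensional ℂ (H ⧸ (ℂ ∙ x)) := by
    refine hT (ℂ ∙ x) (Submodule.closed_of_finiteDimensional _) ?_ ?_ ?_
    · intro y hy
      obtain ⟨c, rfl⟩ := Submodule.mem_span_singleton.1 hy
      rw [map_smul, hTx]
      exact Submodule.smul_mem _ _ (Submodule.smul_mem _ _ (Submodule.mem_span_singleton_self x))
    · intro h
      exact hne (Submodule.span_singleton_eq_bot.1 h)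
    · intro h
      apply hX
      have : FiniteDimensional ℂ (⊤ : Submodule ℂ H) := by rw [← h]; infer_instance
      exact LinearEquiv.finiteDimensional (Submodule.topEquiv (R := ℂ) (M := H))
  exact hX (Module.Finite.of_submodule_quotient (ℂ ∙ x))

theorem inj' {T : H →L[ℂ] H} (hT : OnlyFiniteCodim T) (hX : ¬ FiniteDimensional ℂ H) (z : ℂ) :
    Function.Injective (D T z) :=
  (injective_iff_map_eq_zero _).2 (inj hT hX z)

/-- Outside of the essential spectrum `T - z` is bounded below. -/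
theorem bddBelow {T : H →L[ℂ] H} (hT : OnlyFiniteCodim T) (hX : ¬ FiniteDimensional ℂ H) {z : ℂ}
    (hz : z ∉ essSpectrum T) : ∃ c : ℝ, 0 < c ∧ ∀ x, c * ‖x‖ ≤ ‖D T z x‖ := by
  have hz' : ∃ S : H →L[ℂ] H, IsCompactOperator (S * (T - z • 1) - 1 : H →L[ℂ] H) ∧
    IsCompactOperator ((T - z • 1) * S - 1 : H →L[ℂ] H) := not_not.1 hz
  obtain ⟨S, hS, -⟩ := hz'
  by_contra hcon
  push Not at hcon
  have h1 : ∀ n : ℕ, ∃ x : H, ‖x‖ = 1 ∧ ‖D T z x‖ < 1 / (n + 1 : ℝ) := by
    intro n
    obtain ⟨x, hx⟩ := hcon (1 / (n + 1 : ℝ)) (by positivity)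
    have hx0 : x ≠ 0 := by
      rintro rfl
      simp at hx
    have hxn : ‖x‖ ≠ 0 := norm_ne_zero_iff.2 hx0
    refine ⟨((‖x‖⁻¹ : ℝ) : ℂ) • x, ?_, ?_⟩
    · rw [norm_smul, Complex.norm_real, norm_inv, norm_norm, inv_mul_cancel₀ hxn]
    · rw [map_smul, norm_smul, Complex.norm_real, norm_inv, norm_norm, inv_mul_lt_iff₀
        (norm_pos_iff.2 hx0), mul_comm]
      exact hx
  choose x hx1 hx2 using h1
  have hlim : Tendsto (fun n => D T z (x n)) atTop (𝓝 0) := by
    refine squeeze_zero_norm (fun n => (hx2 n).le) ?_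
    exact tendsto_one_div_add_atTop_nhds_zero_nat
  obtain ⟨K, hK, hKsub⟩ := IsCompactOperator.image_closedBall_subset_compact
    (f := ((S * (T - z • 1) - 1 : H →L[ℂ] H) : H →ₗ[ℂ] H)) hS 1
  have hin : ∀ n, (S * (T - z • 1) - 1) (x n) ∈ K := fun n =>
    hKsub ⟨x n, by rw [mem_closedBall_zero_iff, hx1 n], rfl⟩
  obtain ⟨y, -, φ, hφ, hy⟩ := hK.tendsto_subseq hin
  have h3 : ∀ n, (S * (T - z • 1) - 1) (x n) = S (D T z (x n)) - x n := fun n => rfl
  have h4 : Tendsto (fun n => x (φ n)) atTop (𝓝 (-y)) := by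
    have h5 : Tendsto (fun n => S (D T z (x (φ n)))) atTop (𝓝 (S 0)) :=
      (S.continuous.tendsto 0).comp (hlim.comp hφ.tendsto_atTop)
    rw [map_zero] at h5
    have h6 := h5.sub hy
    rw [zero_sub] at h6
    refine h6.congr fun n => ?_
    simp only [Function.comp_apply, h3]
    abel
  have h5 : Tendsto (fun n => D T z (x (φ n))) atTop (𝓝 (D T z (-y))) :=
    ((D T z).continuous.tendsto _).comp h4
  have h6 : D T z (-y) = 0 := tendsto_nhds_unique h5 (hlim.comp hφ.tendsto_atTop)
  have h7 : -y = 0 := inj hT hX z _ h6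
  have h8 : Tendsto (fun n => ‖x (φ n)‖) atTop (𝓝 ‖-y‖) := h4.norm
  simp only [hx1] at h8
  have h9 := tendsto_nhds_unique tendsto_const_nhds h8
  rw [h7, norm_zero] at h9
  exact one_ne_zero h9

/-! ### The cyclic subspace -/

section cyclic

variable (T : H →L[ℂ] H) (f : H)

/-- `p ↦ p(T) f` -/
noncomputable def ev : ℂ[X] →ₗ[ℂ] H where
  toFun p := (aeval T p) f
  map_add' p q := by rw [map_add]; rfl
  map_smul' c p := by rw [map_smul]; rfl

theorem ev_C (c : ℂ) : ev T f (C c) = c • f := by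
  show (aeval T (C c)) f = _
  rw [aeval_C]; rfl

theorem ev_X_mul (q : ℂ[X]) : ev T f (X * q) = T (ev T f q) := by
  show (aeval T (X * q)) f = T ((aeval T q) f)
  rw [map_mul, aeval_X]; rfl

theorem ev_mul (z : ℂ) (q : ℂ[X]) : ev T f ((X - C z) * q) = D T z (ev T f q) := by
  rw [sub_mul, map_sub, ev_X_mul, ← smul_eq_C_mul, map_smul]; rfl

theorem ev_eq (z c : ℂ) (q : ℂ[X]) :
    ev T f ((X - C z) * q + C c) = D T z (ev T f q) + c • f := by
  rw [map_add, ev_mul, ev_C]

/-- the cyclic subspace -/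
noncomputable def MM : Submodule ℂ H := (LinearMap.range (ev T f)).topologicalClosure

theorem MM_closed : IsClosed (MM T f : Set H) := Submodule.isClosed_topologicalClosure _

theorem ev_mem (p : ℂ[X]) : ev T f p ∈ MM T f :=
  Submodule.le_topologicalClosure _ ⟨p, rfl⟩

theorem f_mem : f ∈ MM T f := by
  have := ev_mem T f (C 1)
  rwa [ev_C, one_smul] at this

theorem MM_ind {N : Set H} (hN : IsClosed N) (h : ∀ p, ev T f p ∈ N) : (MM T f : Set H) ⊆ N := by
  intro x hx
  have : x ∈ closure (LinearMap.range (ev T f) : Set H) := by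
    rwa [← Submodule.topologicalClosure_coe]
  refine closure_minimal ?_ hN this
  rintro _ ⟨p, rfl⟩
  exact h p

theorem MM_inv (x : H) (hx : x ∈ MM T f) : T x ∈ MM T f := by
  have : (MM T f : Set H) ⊆ T ⁻¹' (MM T f) :=
    MM_ind T f ((MM_closed T f).preimage T.continuous) fun p => by
      show T (ev T f p) ∈ MM T f
      rw [← ev_X_mul]
      exact ev_mem T f _
  exact this hx

theorem MM_D (z : ℂ) (x : H) (hx : x ∈ MM T f) : D T z x ∈ MM T f :=
  Submodule.sub_mem _ (MM_inv T f x hx) (Submodule.smul_mem _ _ hx)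

theorem MM_quot {T : H →L[ℂ] H} (hT : OnlyFiniteCodim T) {f : H} (hf : f ≠ 0) :
    FiniteDimensional ℂ (H ⧸ MM T f) := by
  by_cases h : MM T f = ⊤
  · rw [h]
    have : Subsingleton (H ⧸ (⊤ : Submodule ℂ H)) := Submodule.Quotient.subsingleton_iff.2 rfl
    infer_instance
  · refine hT _ (MM_closed T f) (MM_inv T f) ?_ h
    intro h2
    have := f_mem T f
    rw [h2, Submodule.mem_bot] at this
    exact hf this

/-- The key estimate. -/
def Good (z : ℂ) (C : ℝ) : Prop :=
  ∀ (q : ℂ[X]) (c : ℂ), ‖ev T f q‖ + ‖c‖ ≤ C * ‖D T z (ev T f q) + c • f‖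

variable {T f}

theorem Good.mono {z : ℂ} {C C' : ℝ} (h : Good T f z C) (hC : C ≤ C') : Good T f z C' :=
  fun q c => (h q c).trans (mul_le_mul_of_nonneg_right hC (norm_nonneg _))

theorem Good.perturb {z w : ℂ} {C : ℝ} (h : Good T f z C) (hC : 0 ≤ C) (hw : ‖w - z‖ * C ≤ 1 / 2) :
    Good T f w (2 * C) := by
  intro q c
  have h1 := h q c
  have h2 : D T z (ev T f q) + c • f = (D T w (ev T f q) + c • f) + (w - z) • ev T f q := by
    rw [D_apply, D_apply]; module
  have h3 : ‖D T z (ev T f q) + c • f‖ ≤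
      ‖D T w (ev T f q) + c • f‖ + ‖w - z‖ * ‖ev T f q‖ := by
    rw [h2, ← norm_smul]
    exact norm_add_le _ _
  have h4 : C * ‖D T z (ev T f q) + c • f‖ ≤
      C * ‖D T w (ev T f q) + c • f‖ + 1 / 2 * ‖ev T f q‖ := by
    calc C * ‖D T z (ev T f q) + c • f‖ ≤
        C * (‖D T w (ev T f q) + c • f‖ + ‖w - z‖ * ‖ev T f q‖) :=
          mul_le_mul_of_nonneg_left h3 hC
      _ = C * ‖D T w (ev T f q) + c • f‖ + (‖w - z‖ * C) * ‖ev T f q‖ := by ring
      _ ≤ _ := by
        gcongr
  have h5 := norm_nonneg (ev T f q)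
  have h6 := norm_nonneg c
  linarith

/-- the set of good points -/
def GG (T : H →L[ℂ] H) (f : H) : Set ℂ := {z | ∃ C : ℝ, 0 ≤ C ∧ Good T f z C}

theorem GG_open : IsOpen (GG T f) := by
  rw [Metric.isOpen_iff]
  rintro z ⟨C, hC, hz⟩
  refine ⟨1 / (2 * (C + 1)), by positivity, fun w hw => ⟨2 * C, by positivity, hz.perturb hC ?_⟩⟩
  rw [mem_ball, dist_eq_norm] at hw
  have h1 : ‖w - z‖ * C ≤ 1 / (2 * (C + 1)) * C := mul_le_mul_of_nonneg_right hw.le hC
  refine h1.trans ?_
  rw [div_mul_eq_mul_div, one_mul, div_le_div_iff₀ (by positivity) (by norm_num)]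
  linarith

/-- uniqueness of division -/
theorem div_unique (w c : ℂ) (q : ℂ[X]) :
    ((X - C w) * q + C c) /ₘ (X - C w) = q ∧ ((X - C w) * q + C c).eval w = c := by
  constructor
  · have := Polynomial.div_modByMonic_unique (f := (X - C w) * q + C c) (g := X - C w) q (C c)
      (monic_X_sub_C w) ⟨by ring, by
        rw [degree_X_sub_C]
        exact lt_of_le_of_lt degree_C_le zero_lt_one⟩
    exact this.1
  · simp

theorem div_spec (w : ℂ) (p : ℂ[X]) : (X - C w) * (p /ₘ (X - C w)) + C (p.eval w) = p := by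
  have := modByMonic_add_div p (X - C w)
  rw [modByMonic_X_sub_C_eq_C_eval] at this
  rw [add_comm]; exact this

theorem ev_div_diff (p : ℂ[X]) : Differentiable ℂ fun w : ℂ => ev T f (p /ₘ (X - C w)) := by
  induction p using Polynomial.recOnHorner with
  | M0 => simp
  | MC p a _ _ ih =>
    have : ∀ w : ℂ, (p + C a) /ₘ (X - C w) = p /ₘ (X - C w) := by
      intro w
      have h1 := div_spec w p
      have h2 := (div_unique w (p.eval w + a) (p /ₘ (X - C w))).1
      rw [C_add, ← add_assoc, h1] at h2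
      exact h2
    simp only [this]
    exact ih
  | MX p _ ih =>
    have : ∀ w : ℂ, (p * X) /ₘ (X - C w) = p + C w * (p /ₘ (X - C w)) := by
      intro w
      have h1 := div_spec w p
      have h2 := (div_unique w (w * p.eval w) (p + C w * (p /ₘ (X - C w)))).1
      have h3 : (X - C w) * (p + C w * (p /ₘ (X - C w))) + C (w * p.eval w) = p * X := by
        rw [C_mul]
        linear_combination (C w) * h1
      rw [h3] at h2
      exact h2
    simp only [this, map_add, ← smul_eq_C_mul, map_smul]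
    exact (differentiable_const _).add (differentiable_id.smul ih)

/-- the maximum principle for the set of good points -/
theorem GG_mp (V : Set ℂ) (hVb : Bornology.IsBounded V) (hfr : frontier V ⊆ GG T f) :
    V ⊆ GG T f := by
  have hcomp : IsCompact (frontier V) :=
    (Metric.isCompact_of_isClosed_isBounded isClosed_closure hVb.closure).of_isClosed_subset
      isClosed_frontier frontier_subset_closure
  obtain ⟨K, hK, hgood⟩ : ∃ K : ℝ, 0 ≤ K ∧ ∀ w ∈ frontier V, Good T f w K := by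
    refine hcomp.induction_on (p := fun S => ∃ K : ℝ, 0 ≤ K ∧ ∀ w ∈ S, Good T f w K) ?_ ?_ ?_ ?_
    · exact ⟨0, le_rfl, fun w hw => absurd hw (notMem_empty w)⟩
    · rintro s t hst ⟨K, hK, h⟩
      exact ⟨K, hK, fun w hw => h w (hst hw)⟩
    · rintro s t ⟨K, hK, h⟩ ⟨K', hK', h'⟩
      refine ⟨max K K', hK.trans (le_max_left _ _), ?_⟩
      rintro w (hw | hw)
      · exact (h w hw).mono (le_max_left _ _)
      · exact (h' w hw).mono (le_max_right _ _)
    · intro z hz
      obtain ⟨C, hC, hzC⟩ := hfr hz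
      refine ⟨ball z (1 / (2 * (C + 1))), mem_nhdsWithin_of_mem_nhds (ball_mem_nhds _ (by positivity)),
        2 * C, by positivity, fun w hw => hzC.perturb hC ?_⟩
      rw [mem_ball, dist_eq_norm] at hw
      have h1 : ‖w - z‖ * C ≤ 1 / (2 * (C + 1)) * C := mul_le_mul_of_nonneg_right hw.le hC
      refine h1.trans ?_
      rw [div_mul_eq_mul_div, one_mul, div_le_div_iff₀ (by positivity) (by norm_num)]
      linarith
  intro w hw
  refine ⟨2 * K, by positivity, fun q c => ?_⟩
  obtain ⟨hq, hc⟩ := div_unique w c q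
  set p := (X - C w) * q + C c with hp
  have hevp : ev T f p = D T w (ev T f q) + c • f := ev_eq T f w c q
  have hfront : ∀ z ∈ frontier V, ‖ev T f (p /ₘ (X - C z))‖ + ‖p.eval z‖ ≤ K * ‖ev T f p‖ := by
    intro z hz
    have h1 := hgood z hz (p /ₘ (X - C z)) (p.eval z)
    rwa [← ev_eq, div_spec] at h1
  have hwc : w ∈ closure V := subset_closure hw
  have h1 := Complex.norm_le_of_forall_mem_frontier_norm_le hVb
    ((ev_div_diff (T := T) (f := f) p).diffContOnCl) (C := K * ‖ev T f p‖)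
    (fun z hz => (le_add_of_nonneg_right (norm_nonneg _)).trans (hfront z hz)) hwc
  have h2 := Complex.norm_le_of_forall_mem_frontier_norm_le hVb
    ((p.differentiable (𝕜 := ℂ)).diffContOnCl) (C := K * ‖ev T f p‖)
    (fun z hz => (le_add_of_nonneg_left (norm_nonneg _)).trans (hfront z hz)) hwc
  rw [← hevp]
  rw [hq] at h1
  rw [hc] at h2
  linarith

end cyclic

end Q87.EssMain
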