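import Mathlib
import Pool.Agent.Q87.EssMain

/-! Operators all of whose nontrivial invariant subspaces have finite codimension: the essential
spectrum is connected. Second part. -/

set_option autoImplicit false

open Set Topology Metric Filter Polynomial

namespace Q87.EssMain

variable {H : Type*} [NormedAddCommGroup H] [NormedSpace ℂ H]

section quot

variable {T : H →L[ℂ] H} {z : ℂ} {M : Submodule ℂ H}

/-- `T - z` acts injectively on the quotient by `M` when it maps `M` onto `M`; hence it is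
surjective when the quotient is finite dimensional. -/
theorem surj_of_map_eq [FiniteDimensional ℂ (H ⧸ M)] (hinj : Function.Injective (D T z))
    (hmap : ∀ x ∈ M, D T z x ∈ M) (honto : ∀ y ∈ M, ∃ x ∈ M, D T z x = y) :
    Function.Surjective (D T z) := by
  let L : (H ⧸ M) →ₗ[ℂ] (H ⧸ M) := M.mapQ M (D T z : H →ₗ[ℂ] H) hmap
  have hL : ∀ x : H, L (Submodule.Quotient.mk x) = Submodule.Quotient.mk (D T z x) := fun x => rfl
  have hLinj : Function.Injective L := by
    rw [injective_iff_map_eq_zero]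
    intro y hy
    obtain ⟨x, rfl⟩ := Submodule.Quotient.mk_surjective M y
    rw [hL, Submodule.Quotient.mk_eq_zero] at hy
    obtain ⟨m, hm, hmx⟩ := honto _ hy
    rw [Submodule.Quotient.mk_eq_zero]
    rwa [← hinj hmx]
  have hLs : Function.Surjective L := LinearMap.injective_iff_surjective.1 hLinj
  intro y
  obtain ⟨u, hu⟩ := hLs (Submodule.Quotient.mk y)
  obtain ⟨x, rfl⟩ := Submodule.Quotient.mk_surjective M u
  rw [hL, Submodule.Quotient.eq] at hu
  obtain ⟨m, hm, hmx⟩ := honto _ hu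
  exact ⟨x - m, by rw [map_sub, hmx]; abel⟩

theorem mem_of_map_mem [FiniteDimensional ℂ (H ⧸ M)] (hsurj : Function.Surjective (D T z))
    (hmap : ∀ x ∈ M, D T z x ∈ M) {x : H} (hx : D T z x ∈ M) : x ∈ M := by
  let L : (H ⧸ M) →ₗ[ℂ] (H ⧸ M) := M.mapQ M (D T z : H →ₗ[ℂ] H) hmap
  have hL : ∀ x : H, L (Submodule.Quotient.mk x) = Submodule.Quotient.mk (D T z x) := fun x => rfl
  have hLs : Function.Surjective L := by
    intro y
    obtain ⟨y', rfl⟩ := Submodule.Quotient.mk_surjective M y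
    obtain ⟨x', hx'⟩ := hsurj y'
    exact ⟨Submodule.Quotient.mk x', by rw [hL, hx']⟩
  have hLinj : Function.Injective L := LinearMap.injective_iff_surjective.2 hLs
  rw [← Submodule.Quotient.mk_eq_zero M]
  apply hLinj
  rw [map_zero, hL, Submodule.Quotient.mk_eq_zero]
  exact hx

end quot

variable [CompleteSpace H] {T : H →L[ℂ] H} {f : H}

theorem good_of_mem (hT : OnlyFiniteCodim T) (hX : ¬ FiniteDimensional ℂ H) (hf : f ≠ 0) {z : ℂ}
    (hz : z ∉ essSpectrum T) (hns : ¬ Function.Surjective (D T z)) : z ∈ GG T f := by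
  obtain ⟨c₀, hc₀, hbelow⟩ := bddBelow hT hX hz
  have := MM_quot hT hf
  set N : Submodule ℂ H := (MM T f).map (D T z : H →ₗ[ℂ] H) with hN
  have hanti : AntilipschitzWith (Real.toNNReal c₀⁻¹) (D T z) :=
    ContinuousLinearMap.antilipschitz_of_bound _ fun x => by
      rw [Real.coe_toNNReal _ (by positivity)]
      have := hbelow x
      calc ‖x‖ = c₀⁻¹ * (c₀ * ‖x‖) := by field_simp
        _ ≤ c₀⁻¹ * ‖D T z x‖ := by gcongr
  have hNc : IsClosed (N : Set H) := by
    have h1 := (hanti.isClosedEmbedding (D T z).uniformContinuous).isClosedMap _ (MM_closed T f)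
    exact h1
  have hfN : f ∉ N := by
    intro hfN
    apply hns
    refine surj_of_map_eq (M := MM T f) (inj' hT hX z) (MM_D T f z) ?_
    have h1 : (MM T f : Set H) ⊆ N := by
      refine MM_ind T f hNc fun p => ?_
      rw [← div_spec z p, ev_eq]
      exact N.add_mem ⟨_, ev_mem T f _, rfl⟩ (N.smul_mem _ hfN)
    intro y hy
    obtain ⟨x, hx, hxy⟩ := h1 hy
    exact ⟨x, hx, hxy⟩
  set δ := infDist f (N : Set H) with hδ
  have hδpos : 0 < δ := (hNc.notMem_iff_infDist_pos ⟨0, N.zero_mem⟩).1 hfN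
  refine ⟨(1 + ‖f‖ / δ) / c₀ + 1 / δ, by positivity, fun q c => ?_⟩
  set u := ev T f q with hu
  set R := ‖D T z u + c • f‖ with hR
  have hc : ‖c‖ * δ ≤ R := by
    by_cases hc0 : c = 0
    · rw [hc0, norm_zero, zero_mul]
      exact norm_nonneg _
    · have h1 : δ ≤ dist f (-(c⁻¹ • D T z u)) :=
        infDist_le_dist_of_mem (N.neg_mem (N.smul_mem _ ⟨u, ev_mem T f q, rfl⟩))
      have h2 : D T z u + c • f = c • (f - -(c⁻¹ • D T z u)) := by
        rw [sub_neg_eq_add, smul_add, smul_smul, mul_inv_cancel₀ hc0, one_smul, add_comm]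
      rw [hR, h2, norm_smul, ← dist_eq_norm]
      gcongr
  have hc' : ‖c‖ ≤ 1 / δ * R := by
    rw [one_div, inv_mul_eq_div, le_div_iff₀ hδpos]
    exact hc
  have hu1 : ‖D T z u‖ ≤ R + ‖c‖ * ‖f‖ := by
    have : D T z u = (D T z u + c • f) - c • f := by abel
    rw [this]
    refine (norm_sub_le _ _).trans ?_
    rw [norm_smul]
  have hu2 : ‖u‖ ≤ (1 + ‖f‖ / δ) / c₀ * R := by
    have h1 := hbelow u
    have h2 : c₀ * ‖u‖ ≤ (1 + ‖f‖ / δ) * R := by
      refine h1.trans (hu1.trans ?_)
      have h3 : ‖c‖ * ‖f‖ ≤ 1 / δ * R * ‖f‖ := by gcongr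
      calc R + ‖c‖ * ‖f‖ ≤ R + 1 / δ * R * ‖f‖ := by linarith
        _ = (1 + ‖f‖ / δ) * R := by ring
    rw [div_mul_eq_mul_div, le_div_iff₀ hc₀]
    linarith
  calc ‖u‖ + ‖c‖ ≤ (1 + ‖f‖ / δ) / c₀ * R + 1 / δ * R := add_le_add hu2 hc'
    _ = _ := by ring

/-- the key estimate on the whole cyclic subspace -/
theorem good_MM {z : ℂ} {C : ℝ} (h : Good T f z C) (x : H) (hx : x ∈ MM T f) (c : ℂ) :
    ‖x‖ + ‖c‖ ≤ C * ‖D T z x + c • f‖ := by
  have hcl : IsClosed {x : H | ‖x‖ + ‖c‖ ≤ C * ‖D T z x + c • f‖} :=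
    isClosed_le (by fun_prop) (by fun_prop)
  exact MM_ind T f hcl (fun p => h p c) hx

theorem not_surj_of_good (hT : OnlyFiniteCodim T) (hf : f ≠ 0) {z : ℂ}
    (hz : z ∈ GG T f) : ¬ Function.Surjective (D T z) := by
  obtain ⟨C, hC, hg⟩ := hz
  intro hs
  have := MM_quot hT hf
  obtain ⟨x, hx⟩ := hs f
  have hxM : x ∈ MM T f := mem_of_map_mem hs (MM_D T f z) (by rw [hx]; exact f_mem T f)
  have h1 := good_MM hg x hxM (-1)
  rw [hx] at h1
  simp only [neg_smul, one_smul, add_neg_cancel, norm_zero, mul_zero, norm_neg, norm_one] at h1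
  have := norm_nonneg x
  linarith

theorem notMem_of_good (hT : OnlyFiniteCodim T) (hX : ¬ FiniteDimensional ℂ H) (hf : f ≠ 0) {z : ℂ}
    (hz : z ∈ GG T f) : z ∉ essSpectrum T := by
  obtain ⟨C, hC, hg⟩ := hz
  have hq := MM_quot hT hf
  -- the image of the cyclic subspace is closed
  set N : Submodule ℂ H := (MM T f).map (D T z : H →ₗ[ℂ] H) with hN
  have hcomp : CompleteSpace (MM T f) := (MM_closed T f).completeSpace_coe
  have hanti : AntilipschitzWith (Real.toNNReal C) ((D T z).comp (MM T f).subtypeL) :=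
    ContinuousLinearMap.antilipschitz_of_bound _ fun x => by
      rw [Real.coe_toNNReal _ hC]
      have := good_MM hg x x.2 0
      simpa using this
  have hNc : IsClosed (N : Set H) := by
    have h1 := (hanti.isClosedEmbedding
      ((D T z).comp (MM T f).subtypeL).uniformContinuous).isClosed_range
    convert h1 using 1
    ext y
    constructor
    · rintro ⟨x, hx, rfl⟩
      exact ⟨⟨x, hx⟩, rfl⟩
    · rintro ⟨⟨x, hx⟩, rfl⟩
      exact ⟨x, hx, rfl⟩
  -- it has finite codimension
  have hsup : MM T f ≤ N ⊔ (ℂ ∙ f) := by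
    have h1 : (MM T f : Set H) ⊆ (N ⊔ (ℂ ∙ f) : Submodule ℂ H) := by
      refine MM_ind T f (Submodule.isClosed_sup_finiteDimensional _ _ hNc) fun p => ?_
      rw [← div_spec z p, ev_eq]
      exact Submodule.add_mem_sup ⟨_, ev_mem T f _, rfl⟩
        (Submodule.smul_mem _ _ (Submodule.mem_span_singleton_self f))
    exact h1
  have hNq : FiniteDimensional ℂ (H ⧸ N) := by
    have h1 : (N ⊔ (ℂ ∙ f) : Submodule ℂ H).CoFG := Submodule.CoFG.of_le hsup hq
    obtain ⟨K, hK⟩ := (MM T f).exists_isCompl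
    have hKf : FiniteDimensional ℂ K :=
      (Submodule.quotientEquivOfIsCompl _ _ hK).finiteDimensional
    have h2 : N ⊔ ((ℂ ∙ f) ⊔ K) = ⊤ := by
      rw [eq_top_iff, ← hK.sup_eq_top, ← sup_assoc]
      exact sup_le_sup_right hsup K
    have h3 : (⊤ : Submodule ℂ (H ⧸ N)) = ((ℂ ∙ f) ⊔ K).map N.mkQ := by
      have h4 := congrArg (Submodule.map N.mkQ) h2
      rw [Submodule.map_sup, Submodule.map_top, Submodule.range_mkQ] at h4
      rw [← h4]
      simp
    have h5 : FiniteDimensional ℂ (⊤ : Submodule ℂ (H ⧸ N)) := by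
      rw [h3]; infer_instance
    exact LinearEquiv.finiteDimensional (Submodule.topEquiv (R := ℂ) (M := H ⧸ N))
  have hNR : N ≤ (D T z).range := by
    rintro _ ⟨x, -, rfl⟩
    exact ⟨x, rfl⟩
  have hRc : IsClosed ((D T z).range : Set H) :=
    Submodule.isClosed_mono_of_finiteDimensional_quotient hNc hNR
  have hRq : FiniteDimensional ℂ (H ⧸ (D T z).range) := Submodule.CoFG.of_le hNR hNq
  obtain ⟨S, hS⟩ := ContinuousLinearMap.HasLeftInverse.of_injective_of_isClosed_range_of_closedComplement_range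
    (inj' hT hX z) (by
      have h6 : range (D T z) = ((D T z).range : Set H) := by ext; rfl
      rw [h6]; exact hRc) (Submodule.ClosedComplemented.of_finiteDimensional_quotient hRc)
  intro hmem
  apply hmem
  refine ⟨S, ?_, ?_⟩
  · have : (S * (T - z • 1) - 1 : H →L[ℂ] H) = 0 := by
      ext x
      show S (D T z x) - x = 0
      rw [hS x, sub_self]
    rw [this]
    exact isCompactOperator_zero
  · set P : H →L[ℂ] H := (T - z • 1) * S - 1 with hP
    have hPk : (D T z).range ≤ P.ker := by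
      rintro _ ⟨x, rfl⟩
      show D T z (S (D T z x)) - D T z x = 0
      rw [hS x, sub_self]
    have : IsClosed ((D T z).range : Set H) := hRc
    have : T2Space (H ⧸ (D T z).range) := by infer_instance
    let L : (H ⧸ (D T z).range) →ₗ[ℂ] H := (D T z).range.liftQ (P : H →ₗ[ℂ] H) hPk
    have hLc : Continuous L := LinearMap.continuous_of_finiteDimensional L
    have : LocallyCompactSpace (H ⧸ (D T z).range) := .of_finiteDimensional_of_complete ℂ _
    have h1 : IsCompactOperator L :=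
      isCompactOperator_of_locallyCompactSpace_rng (⟨L, hLc⟩ : (H ⧸ (D T z).range) →L[ℂ] H)
    have h2 : (P : H → H) = L ∘ (D T z).range.mkQL := by
      ext x; rfl
    rw [h2]
    exact h1.comp_clm _

end Q87.EssMain
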