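import Mathlib
import Pool.Agent.Q87.EssFin

/-! Operators all of whose nontrivial invariant subspaces have finite codimension: the essential
spectrum is connected. Third part. -/

set_option autoImplicit false

open Set Topology Metric Filter Polynomial

namespace Q87.EssMain

variable {H : Type*} [NormedAddCommGroup H] [NormedSpace ℂ H] [CompleteSpace H]
  {T : H →L[ℂ] H}

theorem spectrum_preconnected (hT : OnlyFiniteCodim T) (hX : ¬ FiniteDimensional ℂ H) :
    IsPreconnected (spectrum ℂ T) := by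
  rw [isPreconnected_iff_subset_of_disjoint_closed]
  intro u v hu hv huv huv'
  by_contra hcon
  rw [not_or, not_subset, not_subset] at hcon
  obtain ⟨⟨a, ha, hau⟩, ⟨b, hb, hbv⟩⟩ := hcon
  obtain ⟨e, he, hcomm, he0, he1⟩ := Q87.RieszIdem.exists_idem T
    (A₁ := spectrum ℂ T ∩ u) (A₂ := spectrum ℂ T ∩ v)
    ((spectrum.isClosed T).inter hu) ((spectrum.isClosed T).inter hv) (by
      rw [Set.disjoint_iff_inter_eq_empty, ← huv']
      ext x
      simp only [mem_inter_iff]
      tauto) (by
      rw [← inter_union_distrib_left]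
      exact (inter_eq_left.2 huv).symm)
    ⟨b, hb, (huv hb).resolve_right hbv⟩ ⟨a, ha, (huv ha).resolve_left hau⟩
  have hee : ∀ x, e (e x) = e x := fun x => congrArg (fun g : H →L[ℂ] H => g x) he
  have hTe : ∀ x, T (e x) = e (T x) := fun x => congrArg (fun g : H →L[ℂ] H => g x) hcomm
  set M₁ : Submodule ℂ H := e.ker with hM₁
  set M₂ : Submodule ℂ H := (1 - e : H →L[ℂ] H).ker with hM₂
  have m1 : ∀ x, x ∈ M₁ ↔ e x = 0 := fun x => LinearMap.mem_ker
  have m2 : ∀ x, x ∈ M₂ ↔ e x = x := fun x => by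
    rw [hM₂, LinearMap.mem_ker]
    show x - e x = 0 ↔ _
    rw [sub_eq_zero]; exact eq_comm
  have hxe : ∀ x, x - e x ∈ M₁ := fun x => by rw [m1, map_sub, hee, sub_self]
  have hex : ∀ x, e x ∈ M₂ := fun x => by rw [m2, hee]
  have h1b : M₁ ≠ ⊥ := by
    intro h
    apply he1
    ext x
    have := hxe x
    rw [h, Submodule.mem_bot, sub_eq_zero] at this
    exact this.symm
  have h1t : M₁ ≠ ⊤ := by
    intro h
    apply he0
    ext x
    have : x ∈ M₁ := by rw [h]; trivial
    rwa [m1] at this
  have h2b : M₂ ≠ ⊥ := by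
    intro h
    apply he0
    ext x
    have := hex x
    rwa [h, Submodule.mem_bot] at this
  have h2t : M₂ ≠ ⊤ := by
    intro h
    apply he1
    ext x
    have : x ∈ M₂ := by rw [h]; trivial
    rwa [m2] at this
  have q1 : FiniteDimensional ℂ (H ⧸ M₁) := hT M₁ e.isClosed_ker
    (fun x hx => by rw [m1] at hx ⊢; rw [← hTe, hx, map_zero]) h1b h1t
  have q2 : FiniteDimensional ℂ (H ⧸ M₂) := hT M₂ (1 - e : H →L[ℂ] H).isClosed_ker
    (fun x hx => by rw [m2] at hx ⊢; rw [← hTe, hx]) h2b h2t
  have hc : IsCompl M₁ M₂ := by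
    rw [isCompl_iff, disjoint_iff, codisjoint_iff]
    constructor
    · rw [eq_bot_iff]
      rintro x ⟨h1, h2⟩
      rw [SetLike.mem_coe, m1] at h1
      rw [SetLike.mem_coe, m2] at h2
      rw [Submodule.mem_bot, ← h2, h1]
    · rw [eq_top_iff]
      intro x _
      rw [Submodule.mem_sup]
      exact ⟨x - e x, hxe x, e x, hex x, by abel⟩
  have f2 : FiniteDimensional ℂ M₂ := (Submodule.quotientEquivOfIsCompl _ _ hc).finiteDimensional
  exact hX (Module.Finite.of_submodule_quotient M₂)

theorem mem_spectrum_iff (z : ℂ) : z ∈ spectrum ℂ T ↔ ¬ Function.Bijective (D T z) := by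
  rw [spectrum.mem_iff, ← ContinuousLinearMap.isUnit_iff_bijective, ← IsUnit.neg_iff]
  have : -((algebraMap ℂ (H →L[ℂ] H)) z - T) = D T z := by
    rw [neg_sub, Algebra.algebraMap_eq_smul_one]; rfl
  rw [this]

/-- The main theorem. -/
theorem connected (hT : OnlyFiniteCodim T) (hX : ¬ FiniteDimensional ℂ H) :
    IsConnected (essSpectrum T) := by
  have hnt : Nontrivial H := by
    rw [← not_subsingleton_iff_nontrivial]
    intro h
    exact hX inferInstance
  obtain ⟨f, hf⟩ := exists_ne (0 : H)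
  have hsub : ∀ z, z ∈ essSpectrum T → z ∈ spectrum ℂ T := by
    intro z hz
    rw [mem_spectrum_iff]
    intro hb
    rw [← ContinuousLinearMap.isUnit_iff_bijective] at hb
    obtain ⟨u, hu⟩ := hb
    apply hz
    refine ⟨(u⁻¹ : (H →L[ℂ] H)ˣ), ?_, ?_⟩
    · have : ((u⁻¹ : (H →L[ℂ] H)ˣ) * (T - z • 1) - 1 : H →L[ℂ] H) = 0 := by
        rw [show T - z • 1 = (u : H →L[ℂ] H) from hu.symm, Units.inv_mul, sub_self]
      rw [this]; exact isCompactOperator_zero
    · have : ((T - z • 1) * (u⁻¹ : (H →L[ℂ] H)ˣ) - 1 : H →L[ℂ] H) = 0 := by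
        rw [show T - z • 1 = (u : H →L[ℂ] H) from hu.symm, Units.mul_inv, sub_self]
      rw [this]; exact isCompactOperator_zero
  have hGs : ∀ z ∈ GG T f, z ∈ spectrum ℂ T := by
    intro z hz
    rw [mem_spectrum_iff]
    exact fun hb => not_surj_of_good hT hf hz hb.2
  have hmem : ∀ z ∈ spectrum ℂ T, z ∉ essSpectrum T → z ∈ GG T f := by
    intro z hz hze
    refine good_of_mem hT hX hf hze fun hs => ?_
    rw [mem_spectrum_iff] at hz
    exact hz ⟨inj' hT hX z, hs⟩
  have heq : essSpectrum T = spectrum ℂ T ∩ (GG T f)ᶜ := by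
    ext z
    constructor
    · intro hz
      exact ⟨hsub z hz, fun hg => notMem_of_good hT hX hf hg hz⟩
    · rintro ⟨h1, h2⟩
      by_contra h3
      exact h2 (hmem z h1 h3)
  refine ⟨?_, ?_⟩
  · by_contra hne
    rw [Set.not_nonempty_iff_eq_empty] at hne
    have h1 : spectrum ℂ T = GG T f := by
      ext z
      exact ⟨fun hz => hmem z hz (by rw [hne]; exact notMem_empty z), fun hz => hGs z hz⟩
    have h2 : IsClopen (spectrum ℂ T) := ⟨spectrum.isClosed T, by rw [h1]; exact GG_open⟩
    rcases isClopen_iff.1 h2 with h3 | h3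
    · exact (spectrum.nonempty T).ne_empty h3
    · have := spectrum.isBounded (𝕜 := ℂ) T
      rw [h3] at this
      exact NormedSpace.unbounded_univ ℂ ℂ this
  · rw [heq]
    refine Q87.EssTop.inter_preconnected (spectrum.isClosed T) GG_open.isClosed_compl ?_
      (spectrum.isBounded T) (spectrum_preconnected hT hX) ?_
    · rw [eq_univ_iff_forall]
      intro z
      by_cases hz : z ∈ GG T f
      · exact Or.inl (hGs z hz)
      · exact Or.inr hz
    · intro V hVb _ hd
      rw [Set.disjoint_compl_right_iff_subset] at hd ⊢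
      exact GG_mp V hVb hd

/-- two concentric circles are never the essential spectrum -/
theorem not_two_circles (hT : OnlyFiniteCodim T) (hX : ¬ FiniteDimensional ℂ H) (c : ℂ) {r R : ℝ}
    (hr : 0 < r) (hR : r < R) : essSpectrum T ≠ sphere c r ∪ sphere c R := by
  intro h
  have hc := (connected hT hX).isPreconnected
  rw [h, isPreconnected_iff_subset_of_disjoint_closed] at hc
  have h1 := hc (sphere c r) (sphere c R) isClosed_sphere isClosed_sphere Subset.rfl (by
    rw [Set.eq_empty_iff_forall_notMem]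
    rintro x ⟨-, hx1, hx2⟩
    rw [mem_sphere] at hx1 hx2
    linarith)
  have hrr : c + r ∈ sphere c r := by
    rw [mem_sphere, dist_eq_norm]; simp [abs_of_pos hr]
  have hRR : c + R ∈ sphere c R := by
    rw [mem_sphere, dist_eq_norm]; simp [abs_of_pos (hr.trans hR)]
  rcases h1 with h1 | h1
  · have := h1 (Or.inr hRR)
    rw [mem_sphere] at this hRR
    linarith
  · have := h1 (Or.inl hrr)
    rw [mem_sphere] at this hrr
    linarith

end Q87.EssMain
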