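import Mathlib
import Pool.Agent.Q37.GU.Stm

/-!
# Project GU, job P11 (helper87): units on a cover of a product are locally products
-/

set_option autoImplicit false

open Topology
open scoped TensorProduct

namespace Q87.GU_P11

open Pool.Agent.Q37.GU Pool.Agent.W481

/-- the point of the tensor product defined by two points -/
noncomputable def tp {C1 C2 : Type} [CommRing C1] [CommRing C2] [Algebra ℂ C1] [Algebra ℂ C2]
    (x : Sp C1) (y : Sp C2) : C1 ⊗[ℂ] C2 →ₐ[ℂ] ℂ :=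
  Algebra.TensorProduct.lift x.hom y.hom (fun _ _ => Commute.all _ _)

theorem tp_tmul {C1 C2 : Type} [CommRing C1] [CommRing C2] [Algebra ℂ C1] [Algebra ℂ C2]
    (x : Sp C1) (y : Sp C2) (a : C1) (b : C2) : tp x y (a ⊗ₜ b) = x.hom a * y.hom b :=
  Algebra.TensorProduct.lift_tmul _ _ _ _ _

theorem continuousAt_tp {T C1 C2 : Type} [TopologicalSpace T] [CommRing C1] [CommRing C2]
    [Algebra ℂ C1] [Algebra ℂ C2] (f : T → Sp C1) (g : T → Sp C2) (t : T)
    (hf : ContinuousAt f t) (hg : ContinuousAt g t) (w : C1 ⊗[ℂ] C2) :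
    ContinuousAt (fun s => tp (f s) (g s) w) t := by
  induction w with
  | zero => simpa using continuousAt_const
  | tmul x y =>
    have h1 : (fun s => tp (f s) (g s) (x ⊗ₜ y)) =
        fun s => (f s).hom x * (g s).hom y := by
      funext s
      exact tp_tmul _ _ _ _
    rw [h1]
    exact (ContinuousAt.comp (f := f) (continuous_sp_eval x).continuousAt hf).mul
      (ContinuousAt.comp (f := g) (continuous_sp_eval y).continuousAt hg)
  | add a b ha hb =>
    have h1 : (fun s => tp (f s) (g s) (a + b)) =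
        fun s => tp (f s) (g s) a + tp (f s) (g s) b := by
      funext s
      exact map_add _ _ _
    rw [h1]
    exact ha.add hb

theorem continuousAt_to_sp {T A : Type} [TopologicalSpace T] [CommRing A] [Algebra ℂ A]
    (f : T → Sp A) (t : T) (h : ∀ a : A, ContinuousAt (fun s => (f s).hom a) t) :
    ContinuousAt f t := by
  have hind : IsInducing (fun (φ : Sp A) (a : A) => φ.hom a) := ⟨rfl⟩
  exact hind.continuousAt_iff.2 (continuousAt_pi.2 fun a => h a)

theorem p11 (h3 : S_P3) (h10 : S_P10) : S_P11 := by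
  intro A B R C _ _ _ _ _ _ _ _ _ _ _ _ _ _ i j hb v hv ψ₀
  obtain ⟨C1, C2, _, _, _, _, _, _, _, _, _, _, _, _, _, _, c1, c2, Φ, hi, hj, hψ⟩ :=
    h10 A B R C i j hb ψ₀
  have : Algebra.FiniteType ℂ C1 := Algebra.FiniteType.trans (S := A) inferInstance inferInstance
  have : Algebra.FiniteType ℂ C2 := Algebra.FiniteType.trans (S := B) inferInstance inferInstance
  obtain ⟨a, b, hab⟩ := h3 C1 C2 (Φ v) (hv.map Φ)
  -- the restrictions
  let rA : Sp C → Sp A := Sp.comap ((IsScalarTower.toAlgHom ℂ R C).comp i)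
  let rB : Sp C → Sp B := Sp.comap ((IsScalarTower.toAlgHom ℂ R C).comp j)
  have hrA : Continuous rA := continuous_comap _
  have hrB : Continuous rB := continuous_comap _
  have hrA' : ∀ ψ x, (rA ψ).hom x = ψ.hom (algebraMap R C (i x)) := fun ψ x => rfl
  have hrB' : ∀ ψ x, (rB ψ).hom x = ψ.hom (algebraMap R C (j x)) := fun ψ x => rfl
  obtain ⟨e, he0, he⟩ := isLocalHomeomorph_comap (A := R) (B := C) ψ₀
  obtain ⟨e1, he10, he1⟩ := isLocalHomeomorph_comap (A := A) (B := C1) c1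
  obtain ⟨e2, he20, he2⟩ := isLocalHomeomorph_comap (A := B) (B := C2) c2
  have hc1 : e1 c1 = rA ψ₀ := by
    rw [← he1]
    refine AlgHom.ext fun x => ?_
    show c1.hom (algebraMap A C1 x) = ψ₀.hom (algebraMap R C (i x))
    rw [← hψ, hi, Algebra.TensorProduct.lift_tmul, map_one, mul_one]
  have hc2 : e2 c2 = rB ψ₀ := by
    rw [← he2]
    refine AlgHom.ext fun x => ?_
    show c2.hom (algebraMap B C2 x) = ψ₀.hom (algebraMap R C (j x))
    rw [← hψ, hj, Algebra.TensorProduct.lift_tmul, map_one, one_mul]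
  have ht1 : rA ψ₀ ∈ e1.target := hc1 ▸ e1.map_source he10
  have ht2 : rB ψ₀ ∈ e2.target := hc2 ▸ e2.map_source he20
  have hs1 : e1.symm (rA ψ₀) = c1 := by rw [← hc1]; exact e1.left_inv he10
  have hs2 : e2.symm (rB ψ₀) = c2 := by rw [← hc2]; exact e2.left_inv he20
  let T : Sp C → Sp C := fun ψ => (tp (e1.symm (rA ψ)) (e2.symm (rB ψ))).comp Φ
  have hT0 : T ψ₀ = ψ₀ := by
    refine AlgHom.ext fun c => ?_
    show tp (e1.symm (rA ψ₀)) (e2.symm (rB ψ₀)) (Φ c) = ψ₀.hom c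
    rw [hs1, hs2]
    exact hψ c
  have hTc : ContinuousAt T ψ₀ := by
    refine continuousAt_to_sp _ _ fun c => ?_
    refine continuousAt_tp _ _ _ ?_ ?_ (Φ c)
    · exact ContinuousAt.comp (f := rA) (e1.symm.continuousAt ht1) hrA.continuousAt
    · exact ContinuousAt.comp (f := rB) (e2.symm.continuousAt ht2) hrB.continuousAt
  let N : Set (Sp C) := {ψ | ψ ∈ e.source ∧ rA ψ ∈ e1.target ∧ rB ψ ∈ e2.target ∧ T ψ ∈ e.source}
  have hN : N ∈ 𝓝 ψ₀ := by
    have n1 : ∀ᶠ ψ in 𝓝 ψ₀, ψ ∈ e.source := e.open_source.mem_nhds he0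
    have n2 : ∀ᶠ ψ in 𝓝 ψ₀, rA ψ ∈ e1.target :=
      hrA.continuousAt.eventually (e1.open_target.mem_nhds ht1)
    have n3 : ∀ᶠ ψ in 𝓝 ψ₀, rB ψ ∈ e2.target :=
      hrB.continuousAt.eventually (e2.open_target.mem_nhds ht2)
    have n4 : ∀ᶠ ψ in 𝓝 ψ₀, T ψ ∈ e.source :=
      hTc.eventually (e.open_source.mem_nhds (hT0.symm ▸ he0))
    filter_upwards [n1, n2, n3, n4] with ψ m1 m2 m3 m4
    exact ⟨m1, m2, m3, m4⟩
  have hNT : ∀ ψ ∈ N, T ψ = ψ := by
    rintro ψ ⟨m1, m2, m3, m4⟩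
    refine e.injOn m4 m1 ?_
    rw [← he]
    have k1 : ∀ x, (T ψ).hom (algebraMap R C (i x)) = ψ.hom (algebraMap R C (i x)) := by
      intro x
      show tp (e1.symm (rA ψ)) (e2.symm (rB ψ)) (Φ (algebraMap R C (i x))) = _
      rw [hi, tp_tmul, map_one, mul_one, ← hrA']
      have h5 : e1 (e1.symm (rA ψ)) = rA ψ := e1.right_inv m2
      rw [← he1] at h5
      exact congrArg (fun z : Sp A => z.hom x) h5
    have k2 : ∀ x, (T ψ).hom (algebraMap R C (j x)) = ψ.hom (algebraMap R C (j x)) := by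
      intro x
      show tp (e1.symm (rA ψ)) (e2.symm (rB ψ)) (Φ (algebraMap R C (j x))) = _
      rw [hj, tp_tmul, map_one, one_mul, ← hrB']
      have h5 : e2 (e2.symm (rB ψ)) = rB ψ := e2.right_inv m3
      rw [← he2] at h5
      exact congrArg (fun z : Sp B => z.hom x) h5
    refine AlgHom.ext fun r => ?_
    obtain ⟨w, rfl⟩ := hb.2 r
    show (T ψ).hom (algebraMap R C _) = ψ.hom (algebraMap R C _)
    induction w with
    | zero => simp
    | tmul x y =>
      rw [Algebra.TensorProduct.lift_tmul, map_mul, map_mul, map_mul, k1, k2]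
    | add x y hx hy =>
      rw [map_add, map_add, map_add, map_add, hx, hy]
  have hval : ∀ ψ ∈ N, ψ.hom v = (e1.symm (rA ψ)).hom a * (e2.symm (rB ψ)).hom b := by
    intro ψ hψN
    have h5 : (T ψ).hom v = ψ.hom v := by rw [hNT ψ hψN]
    rw [← h5]
    show tp (e1.symm (rA ψ)) (e2.symm (rB ψ)) (Φ v) = _
    rw [hab, tp_tmul]
  refine ⟨N, hN, fun ψ hψN ψ₁ hψ₁ ψ₂ hψ₂ q1 q2 q3 q4 => ?_⟩
  have r1 : rA ψ₁ = rA ψ := AlgHom.ext q1
  have r2 : rB ψ₁ = rB ψ₀ := AlgHom.ext q2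
  have r3 : rA ψ₂ = rA ψ₀ := AlgHom.ext q3
  have r4 : rB ψ₂ = rB ψ := AlgHom.ext q4
  rw [hval ψ hψN, hval ψ₀ (mem_of_mem_nhds hN), hval ψ₁ hψ₁, hval ψ₂ hψ₂, r1, r2, r3, r4]
  ring

end Q87.GU_P11
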