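import Mathlib

/-! Finite groups generated by three involutions with large girth; a bounded geometry metric space
without property A. -/

set_option autoImplicit false

namespace Q87.Girth

/-- Reduced words over three letters. -/
def Red (l : List (Fin 3)) : Prop := l.IsChain (· ≠ ·)

/-- Reduced words of length at most `n`. -/
def W (n : ℕ) : Type := {l : List (Fin 3) // l.length ≤ n ∧ Red l}

instance (n : ℕ) : Finite (W n) := by
  have h : {l : List (Fin 3) | l.length ≤ n}.Finite := List.finite_length_le _ _
  exact Set.Finite.subset h (fun l hl => hl.1)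

noncomputable instance (n : ℕ) : Fintype (W n) := Fintype.ofFinite _

open Classical in
/-- action of a letter on words -/
noncomputable def act (n : ℕ) (i : Fin 3) (l : List (Fin 3)) : List (Fin 3) :=
  if l.head? = some i then l.tail else if l.length < n then i :: l else l

theorem red_tail {l : List (Fin 3)} (h : Red l) : Red l.tail := List.IsChain.tail h

theorem red_cons {l : List (Fin 3)} {i : Fin 3} (h : Red l) (hi : l.head? ≠ some i) :
    Red (i :: l) := by
  cases l with
  | nil => exact List.isChain_singleton _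
  | cons j t =>
    unfold Red
    rw [List.isChain_cons_cons]
    refine ⟨fun hij => hi ?_, h⟩
    rw [hij]; rfl

theorem act_mem (n : ℕ) (i : Fin 3) {l : List (Fin 3)} (h : l.length ≤ n ∧ Red l) :
    (act n i l).length ≤ n ∧ Red (act n i l) := by
  unfold act
  split_ifs with h1 h2
  · refine ⟨?_, red_tail h.2⟩
    rw [List.length_tail]; have := h.1; omega
  · exact ⟨by rw [List.length_cons]; omega, red_cons h.2 h1⟩
  · exact h

theorem act_act (n : ℕ) (i : Fin 3) {l : List (Fin 3)} (h : l.length ≤ n ∧ Red l) :
    act n i (act n i l) = l := by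
  by_cases h1 : l.head? = some i
  · cases l with
    | nil => simp at h1
    | cons j t =>
      have hj : j = i := by simpa using h1
      subst hj
      have e : act n j (j :: t) = t := by
        unfold act; rw [if_pos h1]; rfl
      rw [e]
      have h2 : t.head? ≠ some j := by
        cases t with
        | nil => simp
        | cons k t' =>
          have := h.2
          unfold Red at this
          rw [List.isChain_cons_cons] at this
          intro hk
          apply this.1
          simpa using hk.symm
      have h3 : t.length < n := by have := h.1; rw [List.length_cons] at this; omega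
      unfold act
      rw [if_neg h2, if_pos h3]
  · by_cases h2 : l.length < n
    · have e : act n i l = i :: l := by unfold act; rw [if_neg h1, if_pos h2]
      rw [e]; unfold act; rw [if_pos (by simp)]; rfl
    · have e : act n i l = l := by unfold act; rw [if_neg h1, if_neg h2]
      rw [e, e]

/-- The involutions. -/
noncomputable def s (n : ℕ) (i : Fin 3) : Equiv.Perm (W n) where
  toFun l := ⟨act n i l.1, act_mem n i l.2⟩
  invFun l := ⟨act n i l.1, act_mem n i l.2⟩
  left_inv l := Subtype.ext (act_act n i l.2)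
  right_inv l := Subtype.ext (act_act n i l.2)

theorem s_mul_s (n : ℕ) (i : Fin 3) : s n i * s n i = 1 := by
  ext l
  exact (s n i).left_inv l

/-- The finite group. -/
abbrev G (n : ℕ) := Equiv.Perm (W n)

/-- The element of `G n` given by a word. -/
noncomputable def σ (n : ℕ) (u : List (Fin 3)) : G n := (u.map (s n)).prod

theorem σ_nil (n : ℕ) : σ n [] = 1 := rfl

theorem σ_cons (n : ℕ) (i : Fin 3) (u : List (Fin 3)) : σ n (i :: u) = s n i * σ n u := by
  simp [σ]

theorem σ_append (n : ℕ) (u v : List (Fin 3)) : σ n (u ++ v) = σ n u * σ n v := by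
  simp [σ]

theorem σ_reverse (n : ℕ) (u : List (Fin 3)) : σ n u.reverse * σ n u = 1 := by
  induction u with
  | nil => simp [σ]
  | cons i u ih =>
    rw [List.reverse_cons, σ_append, σ_cons, σ_cons, σ_nil, mul_one]
    calc σ n u.reverse * s n i * (s n i * σ n u) = σ n u.reverse * (s n i * s n i) * σ n u := by
          simp only [mul_assoc]
      _ = 1 := by rw [s_mul_s, mul_one, ih]

/-- the empty word -/
def e0 (n : ℕ) : W n := ⟨[], Nat.zero_le _, List.isChain_nil⟩

/-- A reduced word of length at most `n` is recovered from its action on the empty word. -/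
theorem σ_apply (n : ℕ) (u : List (Fin 3)) (hu : Red u) (hn : u.length ≤ n) :
    (σ n u (e0 n)).1 = u := by
  induction u with
  | nil => rfl
  | cons i u ih =>
    rw [List.length_cons] at hn
    have hu' : Red u := red_tail hu
    have h1 := ih hu' (by omega)
    rw [σ_cons, Equiv.Perm.mul_apply]
    change act n i (σ n u (e0 n)).1 = i :: u
    rw [h1]
    have h2 : u.head? ≠ some i := by
      cases u with
      | nil => simp
      | cons k t' =>
        unfold Red at hu
        rw [List.isChain_cons_cons] at hu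
        intro hk
        apply hu.1
        simpa using hk.symm
    unfold act
    rw [if_neg h2, if_pos (by omega)]

/-- Every word can be reduced. -/
theorem exists_red (n : ℕ) (u : List (Fin 3)) :
    ∃ w : List (Fin 3), Red w ∧ w.length ≤ u.length ∧ σ n w = σ n u := by
  induction u with
  | nil => exact ⟨[], List.isChain_nil, le_rfl, rfl⟩
  | cons i u ih =>
    obtain ⟨w, hw, hl, he⟩ := ih
    by_cases h1 : w.head? = some i
    · cases w with
      | nil => simp at h1
      | cons j t =>
        have hj : j = i := by simpa using h1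
        subst hj
        refine ⟨t, red_tail hw, ?_, ?_⟩
        · rw [List.length_cons] at *; omega
        · rw [σ_cons, ← he, σ_cons, ← mul_assoc, s_mul_s, one_mul]
    · refine ⟨i :: w, red_cons hw h1, ?_, ?_⟩
      · rw [List.length_cons, List.length_cons]; omega
      · rw [σ_cons, σ_cons, he]

/-- `y` is reached from `x` by a word of length at most `k`. -/
def Rk (n k : ℕ) (x y : G n) : Prop := ∃ u : List (Fin 3), u.length ≤ k ∧ y = σ n u * x

theorem Rk.mono {n k k' : ℕ} (h : k ≤ k') {x y : G n} (hxy : Rk n k x y) : Rk n k' x y := by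
  obtain ⟨u, hu, rfl⟩ := hxy
  exact ⟨u, hu.trans h, rfl⟩

theorem Rk.symm {n k : ℕ} {x y : G n} (hxy : Rk n k x y) : Rk n k y x := by
  obtain ⟨u, hu, rfl⟩ := hxy
  refine ⟨u.reverse, by simpa using hu, ?_⟩
  rw [← mul_assoc, σ_reverse, one_mul]

theorem Rk.trans {n k k' : ℕ} {x y z : G n} (h1 : Rk n k x y) (h2 : Rk n k' y z) :
    Rk n (k + k') x z := by
  obtain ⟨u, hu, rfl⟩ := h1
  obtain ⟨v, hv, rfl⟩ := h2
  refine ⟨v ++ u, by rw [List.length_append]; omega, ?_⟩
  rw [σ_append, mul_assoc]

theorem Rk.zero {n : ℕ} {x y : G n} (h : Rk n 0 x y) : x = y := by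
  obtain ⟨u, hu, rfl⟩ := h
  have : u = [] := List.length_eq_zero_iff.1 (Nat.le_zero.1 hu)
  subst this
  simp [σ]

theorem Rk.refl {n : ℕ} (k : ℕ) (x : G n) : Rk n k x x := ⟨[], Nat.zero_le _, by simp [σ]⟩

open Classical in
/-- truncated word distance -/
noncomputable def D (n : ℕ) (x y : G n) : ℕ := sInf {k | k = n + 1 ∨ Rk n k x y}

theorem D_spec (n : ℕ) (x y : G n) : D n x y = n + 1 ∨ Rk n (D n x y) x y := by
  have : D n x y ∈ {k | k = n + 1 ∨ Rk n k x y} := Nat.sInf_mem ⟨n + 1, Or.inl rfl⟩
  exact this

theorem D_le (n : ℕ) (x y : G n) : D n x y ≤ n + 1 := Nat.sInf_le (Or.inl rfl)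

theorem D_le_of {n k : ℕ} {x y : G n} (h : Rk n k x y) : D n x y ≤ k := Nat.sInf_le (Or.inr h)

theorem Rk_of_D {n k : ℕ} {x y : G n} (h : D n x y ≤ k) (hk : k ≤ n) : Rk n k x y := by
  rcases D_spec n x y with h1 | h1
  · omega
  · exact h1.mono h

theorem D_self (n : ℕ) (x : G n) : D n x x = 0 := Nat.le_zero.1 (D_le_of (Rk.refl 0 x))

theorem D_eq_zero {n : ℕ} {x y : G n} (h : D n x y = 0) : x = y :=
  (Rk_of_D h.le (Nat.zero_le n)).zero

theorem D_comm (n : ℕ) (x y : G n) : D n x y = D n y x := by
  have : ∀ x y : G n, D n x y ≤ D n y x := by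
    intro x y
    rcases D_spec n y x with h | h
    · rw [h]; exact D_le n x y
    · exact D_le_of h.symm
  exact le_antisymm (this x y) (this y x)

theorem D_triangle (n : ℕ) (x y z : G n) : D n x z ≤ D n x y + D n y z := by
  rcases D_spec n x y with h | h
  · have := D_le n x z; omega
  · rcases D_spec n y z with h' | h'
    · have := D_le n x z; omega
    · exact D_le_of (h.trans h')

/-- The space: the disjoint union of the groups. -/
structure X where
  /-- index -/
  idx : ℕ
  /-- element -/
  el : G idx

open Classical in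
/-- distance on the disjoint union -/
noncomputable def dst (a b : X) : ℕ :=
  if h : a.idx = b.idx then D b.idx (h ▸ a.el) b.el else (a.idx + 1) + (b.idx + 1)

theorem dst_same (n : ℕ) (x y : G n) : dst ⟨n, x⟩ ⟨n, y⟩ = D n x y := by
  unfold dst; simp

theorem dst_ne {a b : X} (h : a.idx ≠ b.idx) : dst a b = (a.idx + 1) + (b.idx + 1) := by
  unfold dst; rw [dif_neg h]

theorem dst_comm (a b : X) : dst a b = dst b a := by
  obtain ⟨n, x⟩ := a
  obtain ⟨m, y⟩ := b
  by_cases h : n = m
  · subst h; rw [dst_same, dst_same, D_comm]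
  · rw [dst_ne h, dst_ne (Ne.symm h)]; simp only; omega

theorem dst_triangle (a b c : X) : dst a c ≤ dst a b + dst b c := by
  obtain ⟨n, x⟩ := a
  obtain ⟨m, y⟩ := b
  obtain ⟨l, z⟩ := c
  by_cases h1 : n = m
  · subst h1
    by_cases h2 : n = l
    · subst h2; rw [dst_same, dst_same, dst_same]; exact D_triangle n x y z
    · have e1 : dst ⟨n, x⟩ ⟨l, z⟩ = (n + 1) + (l + 1) := dst_ne h2
      have e2 : dst ⟨n, y⟩ ⟨l, z⟩ = (n + 1) + (l + 1) := dst_ne h2
      omega
  · by_cases h2 : n = l
    · subst h2
      have e1 : dst ⟨n, x⟩ ⟨m, y⟩ = (n + 1) + (m + 1) := dst_ne h1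
      have e2 : dst ⟨n, x⟩ ⟨n, z⟩ = D n x z := dst_same n x z
      have := D_le n x z
      omega
    · have e1 : dst ⟨n, x⟩ ⟨m, y⟩ = (n + 1) + (m + 1) := dst_ne h1
      have e2 : dst ⟨n, x⟩ ⟨l, z⟩ = (n + 1) + (l + 1) := dst_ne h2
      by_cases h3 : m = l
      · subst h3
        omega
      · have e3 : dst ⟨m, y⟩ ⟨l, z⟩ = (m + 1) + (l + 1) := dst_ne h3
        omega

noncomputable instance : MetricSpace X where
  dist a b := (dst a b : ℝ)
  dist_self a := by
    obtain ⟨n, x⟩ := a
    rw [dst_same, D_self]; simp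
  dist_comm a b := by
    rw [dst_comm]
  dist_triangle a b c := by
    exact_mod_cast dst_triangle a b c
  eq_of_dist_eq_zero := by
    intro a b h
    have h' : dst a b = 0 := by exact_mod_cast h
    obtain ⟨n, x⟩ := a
    obtain ⟨m, y⟩ := b
    by_cases h1 : n = m
    · subst h1
      rw [dst_same] at h'
      rw [D_eq_zero h']
    · rw [dst_ne h1] at h'; simp at h'

theorem dist_def (a b : X) : dist a b = (dst a b : ℝ) := rfl

instance : Countable X := by
  have h : Function.Injective (fun a : X => (⟨a.idx, a.el⟩ : Σ n : ℕ, G n)) := by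
    rintro ⟨n, x⟩ ⟨m, y⟩ h
    simp only [Sigma.mk.injEq] at h
    obtain ⟨rfl, h2⟩ := h
    rw [eq_of_heq h2]
  exact h.countable

/-- Bounded geometry. -/
theorem bounded_geometry (R : ℝ) :
    ∃ N : ℕ, ∀ x : X, (Metric.ball x R).Finite ∧ (Metric.ball x R).ncard ≤ N := by
  obtain ⟨K, hK⟩ := exists_nat_gt R
  -- a finite set containing everything of small index
  let F : Set X := {a : X | a.idx < K}
  have hF : F.Finite := by
    have : F = ⋃ n ∈ Finset.range K, Set.range (fun x : G n => (⟨n, x⟩ : X)) := by
      ext ⟨n, x⟩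
      simp only [F, Set.mem_ofPred_eq, Set.mem_iUnion, Set.mem_range, Finset.mem_range]
      constructor
      · intro h; exact ⟨n, h, x, rfl⟩
      · rintro ⟨m, hm, y, hy⟩
        have : m = n := congrArg X.idx hy
        omega
    rw [this]
    exact Set.Finite.biUnion (Finset.finite_toSet _) fun n _ => Set.finite_range _
  have hL : {u : List (Fin 3) | u.length ≤ K}.Finite := List.finite_length_le _ _
  refine ⟨F.ncard + {u : List (Fin 3) | u.length ≤ K}.ncard, fun a => ?_⟩
  obtain ⟨n, x⟩ := a
  have hsub : Metric.ball (⟨n, x⟩ : X) R ⊆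
      F ∪ (fun u => (⟨n, σ n u * x⟩ : X)) '' {u : List (Fin 3) | u.length ≤ K} := by
    rintro ⟨m, y⟩ hy
    rw [Metric.mem_ball, dist_def] at hy
    have hy' : dst ⟨m, y⟩ ⟨n, x⟩ < K := by exact_mod_cast hy.trans hK
    by_cases h1 : m = n
    · subst h1
      by_cases h2 : m < K
      · left; exact h2
      · right
        rw [dst_same, D_comm] at hy'
        obtain ⟨u, hu, rfl⟩ := Rk_of_D hy'.le (by omega)
        exact ⟨u, hu, rfl⟩
    · left
      have e1 : dst ⟨m, y⟩ ⟨n, x⟩ = (m + 1) + (n + 1) := dst_ne h1
      change m < K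
      omega
  have hfin : (F ∪ (fun u => (⟨n, σ n u * x⟩ : X)) '' {u : List (Fin 3) | u.length ≤ K}).Finite :=
    hF.union (hL.image _)
  refine ⟨hfin.subset hsub, (Set.ncard_le_ncard hsub hfin).trans ?_⟩
  refine (Set.ncard_union_le _ _).trans ?_
  exact Nat.add_le_add_left (Set.ncard_image_le hL) _

end Q87.Girth
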