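import Pool.Agent.Q87.Girth

/-! The disjoint union of the large girth Cayley graphs fails property A. -/

set_option autoImplicit false

namespace Q87.Girth

open Classical in
theorem two_le_card (h : Option (Fin 3)) :
    2 ≤ (Finset.univ.filter fun i : Fin 3 => h ≠ some i).card := by
  rcases h with _ | j
  · simp
  · fin_cases j <;> decide

open Classical in
/-- Isoperimetry in balls of radius smaller than the girth. -/
theorem boundary (n k : ℕ) (hk : k + 1 ≤ n) (z : G n) (B : Finset (G n))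
    (hB : ∀ x ∈ B, Rk n k z x) :
    B.card ≤ (Finset.univ.filter fun q : G n × Fin 3 => q.1 ∈ B ∧ s n q.2 * q.1 ∉ B).card := by
  let Wd : G n → List (Fin 3) := fun x => ((x * z⁻¹) (e0 n)).1
  have hW : ∀ u : List (Fin 3), Red u → u.length ≤ n → Wd (σ n u * z) = u := by
    intro u hu hn
    simp only [Wd, mul_inv_cancel_right]
    exact σ_apply n u hu hn
  have hrep : ∀ x ∈ B, Red (Wd x) ∧ (Wd x).length ≤ k ∧ x = σ n (Wd x) * z := by
    intro x hx
    obtain ⟨u, hu, rfl⟩ := hB x hx
    obtain ⟨w, hw, hl, he⟩ := exists_red n u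
    have h1 : Wd (σ n u * z) = w := by
      rw [← he]; exact hW w hw (by omega)
    rw [h1]
    exact ⟨hw, by omega, by rw [he]⟩
  have hchild : ∀ x ∈ B, ∀ i : Fin 3, (Wd x).head? ≠ some i → Wd (s n i * x) = i :: Wd x := by
    intro x hx i hi
    obtain ⟨h1, h2, h3⟩ := hrep x hx
    have h4 : s n i * x = σ n (i :: Wd x) * z := by
      rw [σ_cons, mul_assoc, ← h3]
    rw [h4]
    exact hW _ (red_cons h1 hi) (by rw [List.length_cons]; omega)
  let C : Finset (G n × Fin 3) :=
    Finset.univ.filter fun q : G n × Fin 3 => q.1 ∈ B ∧ (Wd q.1).head? ≠ some q.2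
  let Cin : Finset (G n × Fin 3) := C.filter fun q => s n q.2 * q.1 ∈ B
  have hC : 2 * B.card ≤ C.card := by
    have e : C.card = ∑ x ∈ B, (Finset.univ.filter fun i : Fin 3 => (Wd x).head? ≠ some i).card := by
      rw [Finset.card_eq_sum_ones, ← Finset.sum_fiberwise_of_maps_to (s := C) (t := B)
        (g := fun q => q.1) (fun q hq => (Finset.mem_filter.1 hq).2.1)]
      refine Finset.sum_congr rfl fun x hx => ?_
      rw [← Finset.card_eq_sum_ones]
      refine Finset.card_bij (fun q _ => q.2) ?_ ?_ ?_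
      · intro q hq
        simp only [C, Finset.mem_filter, Finset.mem_univ, true_and] at hq ⊢
        obtain ⟨⟨_, h2⟩, h3⟩ := hq
        rw [← h3]; exact h2
      · rintro ⟨a, i⟩ hq ⟨b, j⟩ hq' h
        simp only [C, Finset.mem_filter, Finset.mem_univ, true_and] at hq hq' h
        rw [hq.2, hq'.2, h]
      · intro i hi
        simp only [Finset.mem_filter, Finset.mem_univ, true_and] at hi
        refine ⟨(x, i), ?_, rfl⟩
        simp only [C, Finset.mem_filter, Finset.mem_univ, true_and]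
        exact ⟨⟨hx, hi⟩, trivial⟩
    rw [e, mul_comm, ← smul_eq_mul, ← Finset.sum_const]
    exact Finset.sum_le_sum fun x _ => two_le_card _
  have hCin : Cin.card ≤ B.card := by
    refine Finset.card_le_card_of_injOn (fun q => s n q.2 * q.1) ?_ ?_
    · intro q hq
      exact (Finset.mem_filter.1 hq).2
    · rintro ⟨x, i⟩ hq ⟨y, j⟩ hq' h
      have h1 := (Finset.mem_filter.1 (Finset.mem_filter.1 (Finset.mem_coe.1 hq)).1).2
      have h2 := (Finset.mem_filter.1 (Finset.mem_filter.1 (Finset.mem_coe.1 hq')).1).2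
      simp only at h h1 h2
      have h3 := hchild x h1.1 i h1.2
      have h4 := hchild y h2.1 j h2.2
      rw [h, h4] at h3
      have hij : j = i := (List.cons.inj h3).1
      subst hij
      rw [mul_left_cancel h]
  have hsub : C \ Cin ⊆ Finset.univ.filter fun q : G n × Fin 3 => q.1 ∈ B ∧ s n q.2 * q.1 ∉ B := by
    intro q hq
    rw [Finset.mem_sdiff] at hq
    obtain ⟨h1, h2⟩ := hq
    have h3 := (Finset.mem_filter.1 h1).2
    refine Finset.mem_filter.2 ⟨Finset.mem_univ _, h3.1, fun h4 => h2 ?_⟩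
    exact Finset.mem_filter.2 ⟨h1, h4⟩
  have h5 : (C \ Cin).card = C.card - Cin.card :=
    Finset.card_sdiff_of_subset (Finset.filter_subset _ _)
  have h6 := Finset.card_le_card hsub
  omega

open Classical in
theorem not_propertyA : ¬ (∀ R : ℝ, 0 < R → ∀ ε : ℝ, 0 < ε →
        ∃ S : ℝ, ∃ A : X → Set (X × ℕ),
          (∀ x, (A x).Finite) ∧ (∀ x, (x, 0) ∈ A x) ∧
          (∀ x, ∀ w ∈ A x, dist w.1 x ≤ S) ∧
          ∀ x y, dist x y < R →
            ((symmDiff (A x) (A y)).ncard : ℝ) < ε * ((A x ∩ A y).ncard : ℝ)) := by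
  intro h
  obtain ⟨S, A, hfin, h0, hS, hA⟩ := h 2 (by norm_num) (1/3) (by norm_num)
  obtain ⟨k, hk⟩ := exists_nat_ge S
  set n := k + 1 with hn
  let ι : G n × ℕ → X × ℕ := fun p => (⟨n, p.1⟩, p.2)
  have hι : Function.Injective ι := by
    rintro ⟨x, a⟩ ⟨y, b⟩ hxy
    simp only [ι, Prod.mk.injEq, X.mk.injEq, heq_eq_eq, true_and] at hxy
    rw [hxy.1, hxy.2]
  let A' : G n → Finset (G n × ℕ) := fun x =>
    ((hfin ⟨n, x⟩).preimage hι.injOn).toFinset
  have hmem : ∀ x p, p ∈ A' x ↔ ι p ∈ A ⟨n, x⟩ := by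
    intro x p
    simp only [A', Set.Finite.mem_toFinset, Set.mem_preimage]
  have himg : ∀ x, A ⟨n, x⟩ = ι '' (A' x : Set (G n × ℕ)) := by
    intro x
    ext w
    constructor
    · intro hw
      have h1 := hS _ w hw
      obtain ⟨⟨m, y⟩, j⟩ := w
      have hm : m = n := by
        by_contra hne
        have e1 : dst ⟨m, y⟩ ⟨n, x⟩ = (m + 1) + (n + 1) := dst_ne hne
        rw [dist_def] at h1
        simp only [e1] at h1
        push_cast at h1
        have h2 : (n : ℝ) = k + 1 := by rw [hn]; push_cast; ring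
        have h3 : (0:ℝ) ≤ m := Nat.cast_nonneg m
        linarith
      subst hm
      exact ⟨(y, j), (hmem x _).2 hw, rfl⟩
    · rintro ⟨p, hp, rfl⟩
      exact (hmem x p).1 hp
  -- comparison for neighbours
  have hcmp : ∀ (x : G n) (i : Fin 3),
      3 * ((A' x \ A' (s n i * x)).card : ℝ) < ((A' x).card : ℝ) := by
    intro x i
    have hd : dist (⟨n, x⟩ : X) ⟨n, s n i * x⟩ < 2 := by
      rw [dist_def, dst_same]
      have : D n x (s n i * x) ≤ 1 := D_le_of ⟨[i], le_rfl, by rw [σ_cons, σ_nil, mul_one]⟩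
      have : (D n x (s n i * x) : ℝ) ≤ 1 := by exact_mod_cast this
      linarith
    have h1 := hA _ _ hd
    have h2 : (A' x \ A' (s n i * x)).card ≤ (symmDiff (A ⟨n, x⟩) (A ⟨n, s n i * x⟩)).ncard := by
      have hfs : (symmDiff (A ⟨n, x⟩) (A ⟨n, s n i * x⟩)).Finite :=
        Set.Finite.subset ((hfin ⟨n, x⟩).union (hfin ⟨n, s n i * x⟩)) (by
          intro w hw
          rcases hw with hw | hw
          · exact Or.inl hw.1
          · exact Or.inr hw.1)
      rw [← Set.ncard_coe_finset, ← Set.ncard_image_of_injective _ hι]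
      refine Set.ncard_le_ncard ?_ hfs
      rintro _ ⟨p, hp, rfl⟩
      have hp' := Finset.mem_sdiff.1 (Finset.mem_coe.1 hp)
      left
      exact ⟨(hmem x p).1 hp'.1, fun h => hp'.2 ((hmem _ p).2 h)⟩
    have h3 : (A ⟨n, x⟩ ∩ A ⟨n, s n i * x⟩).ncard ≤ (A' x).card := by
      rw [← Set.ncard_coe_finset, ← Set.ncard_image_of_injective (A' x : Set (G n × ℕ)) hι,
        ← himg x]
      exact Set.ncard_le_ncard Set.inter_subset_left (hfin _)
    have h2' : ((A' x \ A' (s n i * x)).card : ℝ) ≤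
        ((symmDiff (A ⟨n, x⟩) (A ⟨n, s n i * x⟩)).ncard : ℝ) := by exact_mod_cast h2
    have h3' : ((A ⟨n, x⟩ ∩ A ⟨n, s n i * x⟩).ncard : ℝ) ≤ ((A' x).card : ℝ) := by
      exact_mod_cast h3
    linarith
  -- upper bound
  have hup : (∑ x : G n, ∑ i : Fin 3, ((A' x \ A' (s n i * x)).card : ℝ))
      < ∑ x : G n, ((A' x).card : ℝ) := by
    have h1 : ∀ x : G n, ∑ i : Fin 3, ((A' x \ A' (s n i * x)).card : ℝ) < ((A' x).card : ℝ) := by
      intro x
      rw [Fin.sum_univ_three]
      have h0 := hcmp x 0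
      have h1 := hcmp x 1
      have h2 := hcmp x 2
      linarith
    exact Finset.sum_lt_sum_of_nonempty ⟨1, Finset.mem_univ _⟩ fun x _ => h1 x
  -- lower bound
  have hlow : ∑ x : G n, (A' x).card ≤ ∑ x : G n, ∑ i : Fin 3, (A' x \ A' (s n i * x)).card := by
    let U : Finset (G n × ℕ) := Finset.univ.biUnion A'
    have hU : ∀ x, A' x ⊆ U := fun x => Finset.subset_biUnion_of_mem A' (Finset.mem_univ x)
    have e1 : ∀ T : Finset (G n × ℕ), T ⊆ U → T.card = ∑ w ∈ U, if w ∈ T then 1 else 0 := by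
      intro T hT
      rw [← Finset.sum_filter, ← Finset.card_eq_sum_ones]
      congr 1
      ext w
      rw [Finset.mem_filter]
      exact ⟨fun h => ⟨hT h, h⟩, fun h => h.2⟩
    have e2 : ∑ x : G n, (A' x).card
        = ∑ w ∈ U, (Finset.univ.filter fun x : G n => w ∈ A' x).card := by
      rw [Finset.sum_congr rfl fun x _ => e1 (A' x) (hU x), Finset.sum_comm]
      refine Finset.sum_congr rfl fun w _ => ?_
      rw [← Finset.sum_filter, ← Finset.card_eq_sum_ones]
    have e3 : ∑ x : G n, ∑ i : Fin 3, (A' x \ A' (s n i * x)).card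
        = ∑ w ∈ U, (Finset.univ.filter fun q : G n × Fin 3 =>
            w ∈ A' q.1 ∧ w ∉ A' (s n q.2 * q.1)).card := by
      have e4 : ∑ x : G n, ∑ i : Fin 3, (A' x \ A' (s n i * x)).card
          = ∑ q : G n × Fin 3, (A' q.1 \ A' (s n q.2 * q.1)).card :=
        (Fintype.sum_prod_type (f := fun q : G n × Fin 3 =>
          (A' q.1 \ A' (s n q.2 * q.1)).card)).symm
      rw [e4, Finset.sum_congr rfl fun q _ => e1 _ (Finset.sdiff_subset.trans (hU q.1)),
        Finset.sum_comm]
      refine Finset.sum_congr rfl fun w _ => ?_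
      rw [← Finset.sum_filter, ← Finset.card_eq_sum_ones]
      congr 1
      ext q
      simp only [Finset.mem_filter, Finset.mem_univ, true_and, Finset.mem_sdiff]
    rw [e2, e3]
    refine Finset.sum_le_sum fun w _ => ?_
    have hB := boundary n k (by omega) w.1 (Finset.univ.filter fun x : G n => w ∈ A' x) (by
      intro x hx
      have hx' : w ∈ A' x := (Finset.mem_filter.1 hx).2
      have h1 := hS _ _ ((hmem x w).1 hx')
      rw [dist_def] at h1
      have h2 : dst ⟨n, w.1⟩ ⟨n, x⟩ ≤ k := by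
        have : (dst (ι w).1 ⟨n, x⟩ : ℝ) ≤ k := h1.trans hk
        exact_mod_cast this
      rw [dst_same] at h2
      exact Rk_of_D h2 (by omega))
    refine hB.trans (Finset.card_le_card ?_)
    intro q hq
    simp only [Finset.mem_filter, Finset.mem_univ, true_and] at hq ⊢
    exact hq
  have hlow' : (∑ x : G n, ((A' x).card : ℝ))
      ≤ ∑ x : G n, ∑ i : Fin 3, ((A' x \ A' (s n i * x)).card : ℝ) := by
    exact_mod_cast hlow
  linarith

end Q87.Girth
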