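import Mathlib

/-! Scalar Hardy space on the circle and multiplication operators. -/

set_option autoImplicit false

open MeasureTheory AddCircle
open scoped ComplexConjugate InnerProductSpace ENNReal

namespace Q87.Hardy

/-- `L²` of the circle `ℝ/ℤ` with normalised Lebesgue measure. The function `fourier 1` is the
coordinate function `z`. -/
abbrev L2 : Type := Lp ℂ 2 (haarAddCircle (T := (1 : ℝ)))

/-- The Hardy space: the elements of `L²` orthogonal to `z ^ k` for every `k < 0`. -/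
noncomputable def H2 : Submodule ℂ L2 :=
  (Submodule.span ℂ (Set.range fun k : {k : ℤ // k < 0} => (fourierLp 2 (k : ℤ) : L2)))ᗮ

instance : CompleteSpace H2 := by unfold H2; infer_instance

theorem mem_H2 (f : L2) : f ∈ H2 ↔ ∀ k : ℤ, k < 0 → ⟪(fourierLp 2 k : L2), f⟫_ℂ = 0 := by
  unfold H2
  constructor
  · intro h k hk
    exact (Submodule.mem_orthogonal _ _).1 h _ (Submodule.subset_span ⟨⟨k, hk⟩, rfl⟩)
  · intro h
    rw [Submodule.mem_orthogonal]
    intro u hu
    induction hu using Submodule.span_induction with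
    | mem x hx => obtain ⟨⟨k, hk⟩, rfl⟩ := hx; exact h k hk
    | zero => exact inner_zero_left _
    | add x y _ _ hx hy => rw [inner_add_left, hx, hy, add_zero]
    | smul c x _ hx => rw [inner_smul_left, hx, mul_zero]

theorem memLp_mul (φ : C(UnitAddCircle, ℂ)) (f : L2) :
    MemLp (fun θ => φ θ * f θ) 2 (haarAddCircle (T := (1 : ℝ))) := by
  refine MemLp.of_le_mul (c := ‖φ‖) (Lp.memLp f)
    (φ.continuous.aestronglyMeasurable.mul (Lp.aestronglyMeasurable f)) ?_
  exact Filter.Eventually.of_forall fun θ => by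
    rw [norm_mul]
    exact mul_le_mul_of_nonneg_right (φ.norm_coe_le_norm θ) (norm_nonneg _)

/-- Multiplication by a continuous function. -/
noncomputable def mulOp (φ : C(UnitAddCircle, ℂ)) : L2 →L[ℂ] L2 :=
  LinearMap.mkContinuous
    { toFun := fun f => (memLp_mul φ f).toLp
      map_add' := fun f g => by
        apply Lp.ext
        filter_upwards [(memLp_mul φ (f + g)).coeFn_toLp, (memLp_mul φ f).coeFn_toLp,
          (memLp_mul φ g).coeFn_toLp, Lp.coeFn_add f g,
          Lp.coeFn_add (memLp_mul φ f).toLp (memLp_mul φ g).toLp] with θ h1 h2 h3 h4 h5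
        rw [h5, h1, Pi.add_apply, h2, h3, h4, Pi.add_apply, mul_add]
      map_smul' := fun c f => by
        apply Lp.ext
        filter_upwards [(memLp_mul φ (c • f)).coeFn_toLp, (memLp_mul φ f).coeFn_toLp,
          Lp.coeFn_smul c f, Lp.coeFn_smul c (memLp_mul φ f).toLp] with θ h1 h2 h3 h4
        rw [RingHom.id_apply, h4, h1, Pi.smul_apply, h2, h3, Pi.smul_apply, smul_eq_mul,
          smul_eq_mul]
        ring } ‖φ‖ (fun f => by
      refine Lp.norm_le_mul_norm_of_ae_le_mul ?_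
      filter_upwards [(memLp_mul φ f).coeFn_toLp] with θ h1
      show ‖((MemLp.toLp _ (memLp_mul φ f) : L2) : UnitAddCircle → ℂ) θ‖ ≤ _
      rw [h1, norm_mul]
      exact mul_le_mul_of_nonneg_right (φ.norm_coe_le_norm θ) (norm_nonneg _))

theorem mulOp_ae (φ : C(UnitAddCircle, ℂ)) (f : L2) :
    (mulOp φ f : UnitAddCircle → ℂ) =ᵐ[haarAddCircle] fun θ => φ θ * f θ :=
  (memLp_mul φ f).coeFn_toLp

theorem inner_eq (f g : L2) : ⟪f, g⟫_ℂ = ∫ θ, conj (f θ) * g θ ∂haarAddCircle := by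
  rw [L2.inner_def]
  refine integral_congr_ae (Filter.Eventually.of_forall fun θ => ?_)
  show ⟪f θ, g θ⟫_ℂ = _
  rw [RCLike.inner_apply]; ring

theorem inner_mulOp (φ : C(UnitAddCircle, ℂ)) (f g : L2) :
    ⟪f, mulOp φ g⟫_ℂ = ∫ θ, conj (f θ) * (φ θ * g θ) ∂haarAddCircle := by
  rw [inner_eq]
  refine integral_congr_ae ?_
  filter_upwards [mulOp_ae φ g] with θ h
  rw [h]

theorem mulOp_adj (φ : C(UnitAddCircle, ℂ)) (f g : L2) :
    ⟪f, mulOp φ g⟫_ℂ = ⟪mulOp (star φ) f, g⟫_ℂ := by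
  rw [inner_mulOp, inner_eq]
  refine integral_congr_ae ?_
  filter_upwards [mulOp_ae (star φ) f] with θ h
  rw [h, map_mul]
  show _ = conj (conj (φ θ)) * _ * _
  rw [Complex.conj_conj]; ring

theorem mulOp_mulOp (φ ψ : C(UnitAddCircle, ℂ)) (f : L2) :
    mulOp φ (mulOp ψ f) = mulOp (φ * ψ) f := by
  apply Lp.ext
  filter_upwards [mulOp_ae φ (mulOp ψ f), mulOp_ae ψ f, mulOp_ae (φ * ψ) f] with θ h1 h2 h3
  rw [h1, h2, h3, ContinuousMap.mul_apply]; ring

theorem mulOp_one (f : L2) : mulOp 1 f = f := by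
  apply Lp.ext
  filter_upwards [mulOp_ae 1 f] with θ h1
  rw [h1]; simp

theorem mulOp_fourier (j k : ℤ) : mulOp (fourier j) (fourierLp 2 k) = fourierLp 2 (j + k) := by
  apply Lp.ext
  filter_upwards [mulOp_ae (fourier j) (fourierLp 2 k), coeFn_fourierLp 2 k,
    coeFn_fourierLp 2 (j + k)] with θ h1 h2 h3
  rw [h1, h2, h3, fourier_add]

theorem star_fourier (j : ℤ) : (star (fourier j) : C(UnitAddCircle, ℂ)) = fourier (-j) := by
  ext θ
  show conj (fourier j θ) = _
  rw [fourier_neg]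

theorem fourier_mul_neg (j : ℤ) : (fourier j * fourier (-j) : C(UnitAddCircle, ℂ)) = 1 := by
  ext θ
  rw [ContinuousMap.mul_apply, ← fourier_add, add_neg_cancel, fourier_zero]; rfl

theorem neg_fourier_mul (j : ℤ) : (fourier (-j) * fourier j : C(UnitAddCircle, ℂ)) = 1 := by
  rw [mul_comm, fourier_mul_neg]

theorem z_mem (f : L2) (hf : f ∈ H2) : mulOp (fourier 1) f ∈ H2 := by
  rw [mem_H2] at hf ⊢
  intro k hk
  rw [mulOp_adj, star_fourier, mulOp_fourier]
  exact hf _ (by omega)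

theorem fourier_mem (k : ℤ) (hk : 0 ≤ k) : (fourierLp 2 k : L2) ∈ H2 := by
  rw [mem_H2]
  intro j hj
  have := (orthonormal_fourier (T := (1:ℝ))).2 (show j ≠ k by omega)
  exact this

end Q87.Hardy
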