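import Mathlib

/-!
# The little Lipschitz space of a rooted tree
-/

set_option autoImplicit false

open Set Filter Topology

namespace Q87.LipTree

/-- A rooted, locally finite tree on the vertex set `V`, given by its root and its parent map; the
convention is `parent root = root`. Every vertex other than the root has a child (only the root may
have degree one). -/
structure RTree (V : Type*) where
  /-- the root -/
  root : V
  /-- the parent map -/
  parent : V → V
  parent_root : parent root = root
  reach : ∀ v, ∃ n : ℕ, parent^[n] v = root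
  locFin : ∀ v, {w | w ≠ root ∧ parent w = v}.Finite
  child : ∀ v, v ≠ root → ∃ w, w ≠ root ∧ parent w = v

variable {V : Type*} (T : RTree V)

/-- The functions whose differences along the edges tend to zero. -/
def lip0 : Submodule ℂ (V → ℂ) where
  carrier := {f | Tendsto (fun v => f v - f (T.parent v)) cofinite (𝓝 0)}
  add_mem' := by
    intro f g hf hg
    have := Tendsto.add hf hg
    simp only [add_zero] at this
    refine this.congr fun v => ?_
    simp only [Pi.add_apply]; ring
  zero_mem' := by
    show Tendsto _ _ _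
    simpa using (tendsto_const_nhds (x := (0 : ℂ)))
  smul_mem' := by
    intro c f hf
    have := Tendsto.const_mul c hf
    simp only [mul_zero] at this
    refine this.congr fun v => ?_
    simp only [Pi.smul_apply, smul_eq_mul]; ring

/-- The little Lipschitz space `L_0(T)`. -/
def LipZero : Type _ := ↥(lip0 T)

noncomputable instance : AddCommGroup (LipZero T) := inferInstanceAs (AddCommGroup (lip0 T))

noncomputable instance : Module ℂ (LipZero T) := inferInstanceAs (Module ℂ (lip0 T))

instance : CoeFun (LipZero T) (fun _ => V → ℂ) := ⟨fun f => f.1⟩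

variable {T}

@[ext] lemma LipZero.ext {f g : LipZero T} (h : ∀ v, f v = g v) : f = g :=
  Subtype.ext (funext h)

lemma LipZero.tend (f : LipZero T) : Tendsto (fun v => f v - f (T.parent v)) cofinite (𝓝 0) := f.2

@[simp] lemma add_app (f g : LipZero T) (v : V) : (f + g) v = f v + g v := rfl
@[simp] lemma sub_app (f g : LipZero T) (v : V) : (f - g) v = f v - g v := rfl
@[simp] lemma neg_app (f : LipZero T) (v : V) : (-f) v = -f v := rfl
@[simp] lemma zero_app (v : V) : (0 : LipZero T) v = 0 := rfl
@[simp] lemma smul_app (c : ℂ) (f : LipZero T) (v : V) : (c • f) v = c * f v := rfl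

variable (T)

/-- The norm `max (|f(root)|) (sup_v |f(v) - f(parent v)|)`. -/
noncomputable instance : Norm (LipZero T) :=
  ⟨fun f => max ‖f T.root‖ (⨆ v, ‖f v - f (T.parent v)‖)⟩

variable {T}

lemma norm_def (f : LipZero T) : ‖f‖ = max ‖f T.root‖ (⨆ v, ‖f v - f (T.parent v)‖) := rfl

lemma bdd_of_tend {g : V → ℂ} (h : Tendsto g cofinite (𝓝 0)) :
    BddAbove (Set.range fun v => ‖g v‖) := by
  have h1 : ∀ᶠ v in cofinite, ‖g v‖ < 1 := by
    have := h.norm
    rw [norm_zero] at this
    exact this.eventually (gt_mem_nhds one_pos)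
  rw [Filter.eventually_cofinite] at h1
  have h2 := (h1.image fun v => ‖g v‖).bddAbove
  obtain ⟨M, hM⟩ := h2
  refine ⟨max M 1, ?_⟩
  rintro _ ⟨v, rfl⟩
  by_cases hv : ‖g v‖ < 1
  · exact hv.le.trans (le_max_right _ _)
  · exact (hM ⟨v, hv, rfl⟩).trans (le_max_left _ _)

lemma LipZero.bdd (f : LipZero T) : BddAbove (Set.range fun v => ‖f v - f (T.parent v)‖) :=
  bdd_of_tend f.tend

lemma root_le (f : LipZero T) : ‖f T.root‖ ≤ ‖f‖ := le_max_left _ _

lemma edge_le (f : LipZero T) (v : V) : ‖f v - f (T.parent v)‖ ≤ ‖f‖ :=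
  (le_ciSup f.bdd v).trans (le_max_right _ _)

lemma norm_le {f : LipZero T} {c : ℝ} (h1 : ‖f T.root‖ ≤ c)
    (h2 : ∀ v, ‖f v - f (T.parent v)‖ ≤ c) : ‖f‖ ≤ c := by
  have : Nonempty V := ⟨T.root⟩
  exact max_le h1 (ciSup_le h2)

lemma norm_le_iff {f : LipZero T} {c : ℝ} :
    ‖f‖ ≤ c ↔ ‖f T.root‖ ≤ c ∧ ∀ v, ‖f v - f (T.parent v)‖ ≤ c :=
  ⟨fun h => ⟨(root_le f).trans h, fun v => (edge_le f v).trans h⟩, fun h => norm_le h.1 h.2⟩

lemma eval_le_aux (f : LipZero T) (n : ℕ) : ∀ v, T.parent^[n] v = T.root →
    ‖f v‖ ≤ (n + 1) * ‖f‖ := by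
  induction n with
  | zero =>
    intro v hv
    simp only [Function.iterate_zero, id] at hv
    rw [hv]; simpa using root_le f
  | succ n ih =>
    intro v hv
    rw [Function.iterate_succ_apply] at hv
    have h1 := ih _ hv
    have h2 := edge_le f v
    have h3 : ‖f v‖ ≤ ‖f v - f (T.parent v)‖ + ‖f (T.parent v)‖ := by
      simpa using norm_add_le (f v - f (T.parent v)) (f (T.parent v))
    push_cast
    linarith

variable (T) in
/-- the depth of a vertex -/
noncomputable def dep (v : V) : ℕ := sInf {n | T.parent^[n] v = T.root}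

lemma dep_spec (v : V) : T.parent^[dep T v] v = T.root := Nat.sInf_mem (T.reach v)

lemma dep_le {v : V} {n : ℕ} (h : T.parent^[n] v = T.root) : dep T v ≤ n := Nat.sInf_le h

lemma dep_root : dep T T.root = 0 := by
  have : dep T T.root ≤ 0 := dep_le rfl
  omega

lemma dep_eq_zero {v : V} (h : dep T v = 0) : v = T.root := by
  have := dep_spec (T := T) v
  rw [h] at this
  exact this

lemma dep_parent {v : V} (h : v ≠ T.root) : dep T v = dep T (T.parent v) + 1 := by
  have h0 : dep T v ≠ 0 := fun h' => h (dep_eq_zero h')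
  obtain ⟨n, hn⟩ := Nat.exists_eq_succ_of_ne_zero h0
  apply le_antisymm
  · apply dep_le
    rw [Function.iterate_succ_apply]
    exact dep_spec _
  · rw [hn]
    have h1 := dep_spec (T := T) v
    rw [hn, Function.iterate_succ_apply] at h1
    have := dep_le h1
    omega

lemma parent_iter_root (n : ℕ) : T.parent^[n] T.root = T.root := by
  induction n with
  | zero => rfl
  | succ n ih => rw [Function.iterate_succ_apply, T.parent_root, ih]

lemma iter_of_dep_le {v : V} {n : ℕ} (h : dep T v ≤ n) : T.parent^[n] v = T.root := by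
  obtain ⟨k, rfl⟩ := Nat.exists_eq_add_of_le h
  rw [Nat.add_comm, Function.iterate_add_apply, dep_spec, parent_iter_root]

lemma eval_le (f : LipZero T) (v : V) : ‖f v‖ ≤ (dep T v + 1) * ‖f‖ :=
  eval_le_aux f _ v (dep_spec v)

lemma core : NormedSpace.Core ℂ (LipZero T) where
  norm_nonneg f := (norm_nonneg _).trans (root_le f)
  norm_smul c f := by
    apply le_antisymm
    · apply norm_le
      · rw [smul_app, norm_mul]
        exact mul_le_mul_of_nonneg_left (root_le f) (norm_nonneg _)
      · intro v
        rw [smul_app, smul_app, ← mul_sub, norm_mul]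
        exact mul_le_mul_of_nonneg_left (edge_le f v) (norm_nonneg _)
    · by_cases hc : c = 0
      · subst hc
        rw [norm_zero, zero_mul]
        exact (norm_nonneg _).trans (root_le _)
      · have hc' : 0 < ‖c‖ := norm_pos_iff.mpr hc
        rw [← le_div_iff₀' hc']
        apply norm_le
        · rw [le_div_iff₀' hc', ← norm_mul]
          exact root_le (c • f)
        · intro v
          rw [le_div_iff₀' hc', ← norm_mul, mul_sub]
          exact edge_le (c • f) v
  norm_triangle f g := by
    apply norm_le
    · exact (norm_add_le _ _).trans (add_le_add (root_le f) (root_le g))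
    · intro v
      rw [add_app, add_app, add_sub_add_comm]
      exact (norm_add_le _ _).trans (add_le_add (edge_le f v) (edge_le g v))
  norm_eq_zero_iff f := by
    constructor
    · intro h
      ext v
      have := eval_le f v
      rw [h, mul_zero] at this
      simpa using this
    · rintro rfl
      apply le_antisymm
      · exact norm_le (by simp) (by simp)
      · exact (norm_nonneg _).trans (root_le _)

noncomputable instance : NormedAddCommGroup (LipZero T) := NormedAddCommGroup.ofCore core

noncomputable instance : NormedSpace ℂ (LipZero T) := NormedSpace.ofCore core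

/-- evaluation at a vertex, as a continuous linear functional -/
noncomputable def evalL (v : V) : LipZero T →L[ℂ] ℂ :=
  LinearMap.mkContinuous
    { toFun := fun f => f v
      map_add' := fun _ _ => rfl
      map_smul' := fun _ _ => rfl } (dep T v + 1) (fun f => eval_le f v)

@[simp] lemma evalL_apply (v : V) (f : LipZero T) : evalL v f = f v := rfl

instance : CompleteSpace (LipZero T) := by
  refine Metric.complete_of_cauchySeq_tendsto fun u hu => ?_
  have hpt : ∀ v, ∃ z : ℂ, Tendsto (fun n => u n v) atTop (𝓝 z) := by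
    intro v
    have h1 : CauchySeq (fun n => evalL v (u n)) := (evalL v).uniformContinuous.comp_cauchySeq hu
    exact cauchySeq_tendsto_of_complete h1
  choose f hf using hpt
  have hunif : ∀ ε > 0, ∃ N, ∀ n ≥ N, ‖u n T.root - f T.root‖ ≤ ε ∧
      ∀ v, ‖(u n v - f v) - (u n (T.parent v) - f (T.parent v))‖ ≤ ε := by
    intro ε hε
    obtain ⟨N, hN⟩ := Metric.cauchySeq_iff.mp hu ε hε
    refine ⟨N, fun n hn => ⟨?_, fun v => ?_⟩⟩
    · have h1 : Tendsto (fun m => ‖u n T.root - u m T.root‖) atTop (𝓝 ‖u n T.root - f T.root‖) :=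
        (tendsto_const_nhds.sub (hf _)).norm
      refine le_of_tendsto h1 ?_
      filter_upwards [eventually_ge_atTop N] with m hm
      have := hN n hn m hm
      rw [dist_eq_norm] at this
      exact (root_le (u n - u m)).trans this.le
    · have h1 : Tendsto (fun m => ‖(u n v - u m v) - (u n (T.parent v) - u m (T.parent v))‖) atTop
          (𝓝 ‖(u n v - f v) - (u n (T.parent v) - f (T.parent v))‖) :=
        ((tendsto_const_nhds.sub (hf _)).sub (tendsto_const_nhds.sub (hf _))).norm
      refine le_of_tendsto h1 ?_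
      filter_upwards [eventually_ge_atTop N] with m hm
      have := hN n hn m hm
      rw [dist_eq_norm] at this
      exact (edge_le (u n - u m) v).trans this.le
  have hmem : Tendsto (fun v => f v - f (T.parent v)) cofinite (𝓝 0) := by
    rw [Metric.tendsto_nhds]
    intro ε hε
    obtain ⟨N, hN⟩ := hunif (ε / 2) (by positivity)
    have h1 := (u N).tend
    rw [Metric.tendsto_nhds] at h1
    filter_upwards [h1 (ε / 2) (by positivity)] with v hv
    rw [dist_zero_right] at hv ⊢
    have h2 := (hN N le_rfl).2 v
    have h3 : f v - f (T.parent v) = (u N v - u N (T.parent v)) -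
      ((u N v - f v) - (u N (T.parent v) - f (T.parent v))) := by ring
    rw [h3]
    exact (norm_sub_le _ _).trans_lt (by linarith)
  let F : LipZero T := ⟨f, hmem⟩
  refine ⟨F, ?_⟩
  rw [Metric.tendsto_atTop]
  intro ε hε
  obtain ⟨N, hN⟩ := hunif (ε / 2) (by positivity)
  refine ⟨N, fun n hn => ?_⟩
  rw [dist_eq_norm]
  have : ‖u n - F‖ ≤ ε / 2 := norm_le (hN n hn).1 (hN n hn).2
  linarith

/-- finitely supported functions -/
def ofFin (T : RTree V) (g : V → ℂ) (hg : (Function.support g).Finite) : LipZero T :=
  ⟨g, by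
    have hfin : ∀ (v : V), {w | T.parent w = v}.Finite := by
      intro v
      refine ((T.locFin v).insert T.root).subset ?_
      intro w hw
      by_cases h : w = T.root
      · exact Or.inl h
      · exact Or.inr ⟨h, hw⟩
    have h2 : ∀ᶠ v in cofinite, g v - g (T.parent v) = 0 := by
      rw [Filter.eventually_cofinite]
      have h3 : (⋃ u ∈ Function.support g, {w | T.parent w = u}).Finite :=
        hg.biUnion fun u _ => hfin u
      refine (hg.union h3).subset ?_
      intro v hv
      by_contra hcon
      simp only [mem_union, Function.mem_support, mem_iUnion, mem_ofPred_eq, not_or, not_exists,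
        not_not] at hcon
      apply hv
      have h4 : g v = 0 := hcon.1
      have h5 : g (T.parent v) = 0 := by
        by_contra h6
        exact hcon.2 _ h6 rfl
      rw [h4, h5, sub_zero]
    exact tendsto_const_nhds.congr' (h2.mono fun v hv => hv.symm)⟩

@[simp] lemma ofFin_app (g : V → ℂ) (hg : (Function.support g).Finite) (v : V) :
    ofFin T g hg v = g v := rfl

open Classical in
/-- the indicator function of a vertex -/
noncomputable def chi (T : RTree V) (v : V) : LipZero T :=
  ofFin T (fun w => if w = v then 1 else 0) (by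
    refine (Set.finite_singleton v).subset ?_
    intro w hw
    by_contra h
    apply hw
    simp only [mem_singleton_iff] at h
    simp [h])

open Classical in
lemma chi_app (v w : V) : chi T v w = if w = v then 1 else 0 := rfl

lemma level_finite (n : ℕ) : {v | T.parent^[n] v = T.root}.Finite := by
  induction n with
  | zero =>
    refine (Set.finite_singleton T.root).subset ?_
    intro v hv
    exact hv
  | succ n ih =>
    have hfin : ∀ (v : V), {w | T.parent w = v}.Finite := by
      intro v
      refine ((T.locFin v).insert T.root).subset ?_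
      intro w hw
      by_cases h : w = T.root
      · exact Or.inl h
      · exact Or.inr ⟨h, hw⟩
    refine (ih.biUnion fun u _ => hfin u).subset ?_
    intro v hv
    rw [mem_ofPred_eq, Function.iterate_succ_apply] at hv
    simp only [mem_iUnion, mem_ofPred_eq]
    exact ⟨T.parent v, hv, rfl⟩

lemma dep_le_finite (n : ℕ) : {v | dep T v ≤ n}.Finite :=
  (level_finite (T := T) n).subset fun _ hv => iter_of_dep_le hv

lemma countable_V (T : RTree V) : Countable V := by
  rw [← Set.countable_univ_iff]
  have : (univ : Set V) ⊆ ⋃ n : ℕ, {v | dep T v ≤ n} := by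
    intro v _
    rw [mem_iUnion]
    exact ⟨dep T v, show dep T v ≤ dep T v from le_refl _⟩
  exact (Set.countable_iUnion fun n => (dep_le_finite n).countable).mono this

lemma exists_dep_bound {s : Set V} (hs : s.Finite) : ∃ n, ∀ v ∈ s, dep T v ≤ n := by
  obtain ⟨n, hn⟩ := (hs.image (dep T)).bddAbove
  exact ⟨n, fun v hv => hn ⟨v, hv, rfl⟩⟩

/-- Finitely supported functions are dense. -/
lemma exists_ofFin_near (f : LipZero T) {ε : ℝ} (hε : 0 < ε) :
    ∃ (g : V → ℂ) (hg : (Function.support g).Finite), ‖f - ofFin T g hg‖ ≤ ε := by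
  have h1 := f.tend
  rw [Metric.tendsto_nhds] at h1
  have h2 := h1 (ε / 2) (by positivity)
  rw [Filter.eventually_cofinite] at h2
  obtain ⟨n, hn⟩ := exists_dep_bound (T := T) h2
  have hn' : ∀ v, n < dep T v → ‖f v - f (T.parent v)‖ ≤ ε / 2 := by
    intro v hv
    by_contra hcon
    have h3 : v ∈ {x | ¬dist (f x - f (T.parent x)) 0 < ε / 2} := by
      rw [mem_ofPred_eq, dist_zero_right]
      intro h4
      exact hcon h4.le
    have := hn v h3
    omega
  obtain ⟨M, hM⟩ := ((dep_le_finite (T := T) n).image fun v => ‖f v‖).bddAbove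
  have hM' : ∀ v, dep T v ≤ n → ‖f v‖ ≤ M := fun v hv => hM ⟨v, hv, rfl⟩
  have hM0 : 0 ≤ M := (norm_nonneg _).trans (hM' T.root (by rw [dep_root]; omega))
  obtain ⟨L, hL⟩ := exists_nat_gt (2 * M / ε + 1)
  have hL0 : (0 : ℝ) < L := by
    have : 0 ≤ 2 * M / ε := by positivity
    linarith
  have hML : M / L ≤ ε / 2 := by
    rw [div_le_iff₀ hL0]
    have h3 : 2 * M / ε < L := by linarith
    rw [div_lt_iff₀ hε] at h3
    linarith
  let ψ : ℕ → ℝ := fun t => max 0 (1 - t / L)
  have hψ0 : ψ 0 = 1 := by simp [ψ]
  have hψL : ∀ t, |ψ (t + 1) - ψ t| ≤ 1 / L := by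
    intro t
    have h3 : |ψ (t + 1) - ψ t| ≤ |(1 - ((t + 1 : ℕ) : ℝ) / L) - (1 - (t : ℝ) / L)| := by
      simp only [ψ]
      rw [max_comm 0, max_comm 0]
      exact abs_max_sub_max_le_abs _ _ _
    refine h3.trans ?_
    have h4 : (1 - ((t + 1 : ℕ) : ℝ) / L) - (1 - (t : ℝ) / L) = -(1 / L) := by
      push_cast; ring
    rw [h4, abs_neg, abs_of_pos (by positivity)]
  have hψz : ∀ t, L ≤ t → ψ t = 0 := by
    intro t ht
    simp only [ψ]
    apply max_eq_left
    have : (1 : ℝ) ≤ t / L := by
      rw [le_div_iff₀ hL0]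
      simpa using (Nat.cast_le (α := ℝ)).mpr ht
    linarith
  let g : V → ℂ := fun v => f (T.parent^[dep T v - n] v) * (ψ (dep T v - n) : ℂ)
  have hg : (Function.support g).Finite := by
    refine (dep_le_finite (T := T) (n + L)).subset ?_
    intro v hv
    by_contra hcon
    apply hv
    rw [mem_ofPred_eq, not_le] at hcon
    simp only [g]
    rw [hψz _ (by omega)]
    simp
  refine ⟨g, hg, ?_⟩
  have hgle : ∀ v, dep T v ≤ n → g v = f v := by
    intro v hv
    have : dep T v - n = 0 := by omega
    simp only [g, this, hψ0]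
    simp
  apply norm_le
  · rw [sub_app, ofFin_app, hgle _ (by rw [dep_root]; omega)]
    simp; positivity
  · intro v
    simp only [sub_app, ofFin_app]
    by_cases hv : dep T v ≤ n
    · have hpv : dep T (T.parent v) ≤ n := by
        by_cases hr : v = T.root
        · rw [hr, T.parent_root, dep_root]; omega
        · have := dep_parent hr
          omega
      rw [hgle v hv, hgle _ hpv]
      simp; positivity
    · have hr : v ≠ T.root := by
        rintro rfl
        rw [dep_root] at hv; omega
      have hd := dep_parent hr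
      obtain ⟨j, hj⟩ : ∃ j, dep T (T.parent v) = n + j := ⟨dep T (T.parent v) - n, by omega⟩
      have hg1 : g v = f (T.parent^[j] (T.parent v)) * (ψ (j + 1) : ℂ) := by
        have h4 : dep T v - n = j + 1 := by omega
        simp only [g, h4, Function.iterate_succ_apply]
      have hg2 : g (T.parent v) = f (T.parent^[j] (T.parent v)) * (ψ j : ℂ) := by
        have h4 : dep T (T.parent v) - n = j := by omega
        simp only [g, h4]
      have hdepj : dep T (T.parent^[j] (T.parent v)) ≤ n := by
        apply dep_le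
        rw [← Function.iterate_add_apply]
        exact iter_of_dep_le (by omega)
      have h5 : (f v - g v) - (f (T.parent v) - g (T.parent v)) =
          (f v - f (T.parent v)) -
            f (T.parent^[j] (T.parent v)) * ((ψ (j + 1) - ψ j : ℝ) : ℂ) := by
        rw [hg1, hg2]; push_cast; ring
      rw [h5]
      refine (norm_sub_le _ _).trans ?_
      have h6 : ‖f (T.parent^[j] (T.parent v)) * ((ψ (j + 1) - ψ j : ℝ) : ℂ)‖ ≤ ε / 2 := by
        rw [norm_mul, Complex.norm_real, Real.norm_eq_abs]
        calc _ ≤ M * (1 / L) := mul_le_mul (hM' _ hdepj) (hψL j) (abs_nonneg _) hM0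
          _ = M / L := by ring
          _ ≤ ε / 2 := hML
      have h7 := hn' v (by omega)
      linarith

lemma ofFin_mem_span (g : V → ℂ) (hg : (Function.support g).Finite) :
    ofFin T g hg ∈ Submodule.span ℂ (Set.range (chi T)) := by
  classical
  have : ofFin T g hg = ∑ v ∈ hg.toFinset, g v • chi T v := by
    ext w
    rw [ofFin_app]
    have h1 : (∑ v ∈ hg.toFinset, g v • chi T v) w = ∑ v ∈ hg.toFinset, (g v • chi T v) w := by
      exact map_sum (evalL (T := T) w) (fun v => g v • chi T v) hg.toFinset
    rw [h1]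
    simp only [smul_app, chi_app, mul_ite, mul_one, mul_zero]
    rw [Finset.sum_ite_eq]
    simp
  rw [this]
  refine Submodule.sum_mem _ fun v _ => Submodule.smul_mem _ _ (Submodule.subset_span ⟨v, rfl⟩)

lemma dense_span : (Submodule.span ℂ (Set.range (chi T))).topologicalClosure = ⊤ := by
  rw [Submodule.eq_top_iff']
  intro f
  rw [← SetLike.mem_coe, Submodule.topologicalClosure_coe, Metric.mem_closure_iff]
  intro ε hε
  obtain ⟨g, hg, h⟩ := exists_ofFin_near f (ε := ε / 2) (by positivity)
  refine ⟨_, ofFin_mem_span g hg, ?_⟩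
  rw [dist_eq_norm]
  linarith

instance : TopologicalSpace.SeparableSpace (LipZero T) := by
  have := countable_V T
  rw [← TopologicalSpace.isSeparable_univ_iff]
  have h1 : TopologicalSpace.IsSeparable (Set.range (chi T)) :=
    (Set.countable_range _).isSeparable
  have h2 : TopologicalSpace.IsSeparable
      ((Submodule.span ℂ (Set.range (chi T))).topologicalClosure : Set (LipZero T)) := by
    rw [Submodule.topologicalClosure_coe]
    exact (h1.span (R := ℂ)).closure
  rw [dense_span] at h2
  exact h2

/-- A bounded operator is hypercyclic if some orbit is dense. -/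
def Hypercyclic {X : Type*} [NormedAddCommGroup X] [NormedSpace ℂ X] (A : X →L[ℂ] X) : Prop :=
  ∃ x : X, Dense (Set.range fun n : ℕ => (A ^ n) x)

/-- Transitivity criterion. -/
lemma hypercyclic_of_trans {X : Type*} [NormedAddCommGroup X] [NormedSpace ℂ X] [CompleteSpace X]
    [TopologicalSpace.SeparableSpace X] (A : X →L[ℂ] X)
    (h : ∀ (x y : X) (ε : ℝ), 0 < ε → ∃ (n : ℕ) (u : X), ‖u - x‖ < ε ∧ ‖(A ^ n) u - y‖ < ε) :
    Hypercyclic A := by
  let d : ℕ → X := TopologicalSpace.denseSeq X
  have hd : DenseRange d := TopologicalSpace.denseRange_denseSeq X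
  let O : ℕ × ℕ → Set X := fun p => ⋃ n : ℕ, {x | ‖(A ^ n) x - d p.1‖ < 1 / ((p.2 : ℝ) + 1)}
  have hO1 : ∀ p, IsOpen (O p) := by
    intro p
    refine isOpen_iUnion fun n => ?_
    exact isOpen_lt (((A ^ n).continuous.sub continuous_const).norm) continuous_const
  have hO2 : ∀ p, Dense (O p) := by
    intro p
    rw [Metric.dense_iff]
    intro x r hr
    have hpos : (0 : ℝ) < 1 / ((p.2 : ℝ) + 1) := by positivity
    obtain ⟨n, u, h1, h2⟩ := h x (d p.1) (min r (1 / ((p.2 : ℝ) + 1))) (lt_min hr hpos)
    refine ⟨u, ?_, ?_⟩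
    · rw [Metric.mem_ball, dist_eq_norm]
      exact h1.trans_le (min_le_left _ _)
    · rw [mem_iUnion]
      exact ⟨n, h2.trans_le (min_le_right _ _)⟩
  obtain ⟨x, hx⟩ := (dense_iInter_of_isOpen hO1 hO2).nonempty
  refine ⟨x, ?_⟩
  rw [Metric.dense_iff]
  intro y r hr
  obtain ⟨k, hk⟩ := exists_nat_one_div_lt (show (0 : ℝ) < r / 2 by positivity)
  obtain ⟨_, hj1, j, rfl⟩ := Metric.dense_iff.mp hd y (r / 2) (by positivity)
  have h1 := mem_iInter.mp hx (j, k)
  rw [mem_iUnion] at h1
  obtain ⟨n, hn⟩ := h1
  refine ⟨(A ^ n) x, ?_, ⟨n, rfl⟩⟩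
  rw [Metric.mem_ball] at hj1 ⊢
  have hn' : dist ((A ^ n) x) (d j) < 1 / ((k : ℝ) + 1) := by rw [dist_eq_norm]; exact hn
  calc dist ((A ^ n) x) y ≤ dist ((A ^ n) x) (d j) + dist (d j) y := dist_triangle _ _ _
    _ < r / 2 + r / 2 := by
        apply add_lt_add (hn'.trans hk) hj1
    _ = r := by ring

end Q87.LipTree
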