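import Mathlib
import Pool.Agent.Q87.LipTree

/-!
# A rooted tree on `ℤ` for which the translation `x ↦ x + 1` induces a hypercyclic operator
-/

set_option autoImplicit false

open Set Filter Topology

namespace Q87.LipTree

/-! ### An abstract criterion -/

section crit

variable {X : Type*} [NormedAddCommGroup X] [NormedSpace ℂ X]

lemma approx_span (A : ℕ → (X →L[ℂ] X)) (E : Set X)
    (h : ∀ e ∈ E, ∀ ε : ℝ, 0 < ε → ∀ᶠ q : ℕ in atTop, ∃ h : X, ‖h - e‖ ≤ ε ∧ ‖A q h‖ ≤ ε) :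
    ∀ e ∈ Submodule.span ℂ E, ∀ ε : ℝ, 0 < ε →
      ∀ᶠ q : ℕ in atTop, ∃ h : X, ‖h - e‖ ≤ ε ∧ ‖A q h‖ ≤ ε := by
  intro e he
  induction he using Submodule.span_induction with
  | mem e he => exact h e he
  | zero =>
    intro ε hε
    exact Eventually.of_forall fun q => ⟨0, by simpa using hε.le, by simpa using hε.le⟩
  | add x y _ _ hx hy =>
    intro ε hε
    filter_upwards [hx (ε / 2) (by positivity), hy (ε / 2) (by positivity)] with q hq1 hq2
    obtain ⟨u, hu1, hu2⟩ := hq1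
    obtain ⟨w, hw1, hw2⟩ := hq2
    refine ⟨u + w, ?_, ?_⟩
    · rw [add_sub_add_comm]
      exact (norm_add_le _ _).trans (by linarith)
    · rw [map_add]
      exact (norm_add_le _ _).trans (by linarith)
  | smul c x _ hx =>
    intro ε hε
    have hc : 0 < ‖c‖ + 1 := by positivity
    have hc2 : ‖c‖ * (ε / (‖c‖ + 1)) ≤ ε := by
      rw [← mul_div_assoc, div_le_iff₀ hc]
      nlinarith
    filter_upwards [hx (ε / (‖c‖ + 1)) (by positivity)] with q hq1
    obtain ⟨u, hu1, hu2⟩ := hq1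
    refine ⟨c • u, ?_, ?_⟩
    · rw [← smul_sub, norm_smul]
      exact (mul_le_mul_of_nonneg_left hu1 (norm_nonneg _)).trans hc2
    · rw [map_smul, norm_smul]
      exact (mul_le_mul_of_nonneg_left hu2 (norm_nonneg _)).trans hc2

lemma approx_span' (A : ℕ → (X →L[ℂ] X)) (E : Set X)
    (h : ∀ e ∈ E, ∀ ε : ℝ, 0 < ε → ∀ᶠ q : ℕ in atTop, ∃ h : X, ‖h‖ ≤ ε ∧ ‖A q h - e‖ ≤ ε) :
    ∀ e ∈ Submodule.span ℂ E, ∀ ε : ℝ, 0 < ε →
      ∀ᶠ q : ℕ in atTop, ∃ h : X, ‖h‖ ≤ ε ∧ ‖A q h - e‖ ≤ ε := by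
  intro e he
  induction he using Submodule.span_induction with
  | mem e he => exact h e he
  | zero =>
    intro ε hε
    exact Eventually.of_forall fun q => ⟨0, by simpa using hε.le, by simpa using hε.le⟩
  | add x y _ _ hx hy =>
    intro ε hε
    filter_upwards [hx (ε / 2) (by positivity), hy (ε / 2) (by positivity)] with q hq1 hq2
    obtain ⟨u, hu1, hu2⟩ := hq1
    obtain ⟨w, hw1, hw2⟩ := hq2
    refine ⟨u + w, ?_, ?_⟩
    · exact (norm_add_le _ _).trans (by linarith)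
    · rw [map_add, add_sub_add_comm]
      exact (norm_add_le _ _).trans (by linarith)
  | smul c x _ hx =>
    intro ε hε
    have hc : 0 < ‖c‖ + 1 := by positivity
    have hc2 : ‖c‖ * (ε / (‖c‖ + 1)) ≤ ε := by
      rw [← mul_div_assoc, div_le_iff₀ hc]
      nlinarith
    filter_upwards [hx (ε / (‖c‖ + 1)) (by positivity)] with q hq1
    obtain ⟨u, hu1, hu2⟩ := hq1
    refine ⟨c • u, ?_, ?_⟩
    · rw [norm_smul]
      exact (mul_le_mul_of_nonneg_left hu1 (norm_nonneg _)).trans hc2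
    · rw [map_smul, ← smul_sub, norm_smul]
      exact (mul_le_mul_of_nonneg_left hu2 (norm_nonneg _)).trans hc2

lemma hypercyclic_of_approx [CompleteSpace X] [TopologicalSpace.SeparableSpace X]
    (A : X →L[ℂ] X) (n : ℕ → ℕ) (E : Set X)
    (hE : (Submodule.span ℂ E).topologicalClosure = ⊤)
    (h1 : ∀ e ∈ E, ∀ ε : ℝ, 0 < ε → ∀ᶠ q : ℕ in atTop, ∃ h : X, ‖h - e‖ ≤ ε ∧ ‖(A ^ n q) h‖ ≤ ε)
    (h2 : ∀ e ∈ E, ∀ ε : ℝ, 0 < ε → ∀ᶠ q : ℕ in atTop, ∃ h : X, ‖h‖ ≤ ε ∧ ‖(A ^ n q) h - e‖ ≤ ε)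
    (lam : ℂ) (hlam : ‖lam‖ = 1) : Hypercyclic (lam • A) := by
  apply hypercyclic_of_trans
  intro x y ε hε
  have hden : ∀ z : X, ∃ z' ∈ Submodule.span ℂ E, ‖z' - z‖ < ε / 4 := by
    intro z
    have hz : z ∈ ((Submodule.span ℂ E).topologicalClosure : Set X) := by rw [hE]; trivial
    rw [Submodule.topologicalClosure_coe, Metric.mem_closure_iff] at hz
    obtain ⟨z', hz', hd⟩ := hz (ε / 4) (by positivity)
    exact ⟨z', hz', by rw [norm_sub_rev, ← dist_eq_norm]; exact hd⟩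
  obtain ⟨x', hx', hxx'⟩ := hden x
  obtain ⟨y', hy', hyy'⟩ := hden y
  obtain ⟨q, ⟨h, hh1, hh2⟩, ⟨g, hg1, hg2⟩⟩ :=
    ((approx_span (fun q => A ^ n q) E h1 x' hx' (ε / 4) (by positivity)).and
      (approx_span' (fun q => A ^ n q) E h2 y' hy' (ε / 4) (by positivity))).exists
  have hl : ‖lam ^ n q‖ = 1 := by rw [norm_pow, hlam, one_pow]
  have hl0 : lam ^ n q ≠ 0 := by
    intro h0
    rw [h0, norm_zero] at hl
    exact zero_ne_one hl
  refine ⟨n q, h + (lam ^ n q)⁻¹ • g, ?_, ?_⟩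
  · have h3 : h + (lam ^ n q)⁻¹ • g - x = (h - x') + (x' - x) + (lam ^ n q)⁻¹ • g := by abel
    rw [h3]
    have h4 : ‖(lam ^ n q)⁻¹ • g‖ = ‖g‖ := by rw [norm_smul, norm_inv, hl, inv_one, one_mul]
    have h5 := norm_add_le ((h - x') + (x' - x)) ((lam ^ n q)⁻¹ • g)
    have h6 := norm_add_le (h - x') (x' - x)
    rw [h4] at h5
    linarith
  · have h3 : ((lam • A) ^ n q) (h + (lam ^ n q)⁻¹ • g) - y =
        lam ^ n q • (A ^ n q) h + ((A ^ n q) g - y') + (y' - y) := by
      rw [smul_pow, smul_apply, map_add, map_smul, smul_add, smul_smul,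
        mul_inv_cancel₀ hl0, one_smul]
      abel
    rw [h3]
    have h4 : ‖lam ^ n q • (A ^ n q) h‖ = ‖(A ^ n q) h‖ := by rw [norm_smul, hl, one_mul]
    have h5 := norm_add_le (lam ^ n q • (A ^ n q) h + ((A ^ n q) g - y')) (y' - y)
    have h6 := norm_add_le (lam ^ n q • (A ^ n q) h) ((A ^ n q) g - y')
    rw [h4] at h6
    linarith

end crit

/-! ### The tree -/

/-- the size of the step from `x` to its parent -/
def szn (x : ℤ) : ℕ := 2 ^ Nat.log 4 x.natAbs

/-- the parent map: `x ↦ x - sgn(x) 2 ^ ⌊log₄ |x|⌋` -/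
def par (x : ℤ) : ℤ := x - x.sign * (szn x : ℤ)

lemma szn_neg (x : ℤ) : szn (-x) = szn x := by simp [szn]

lemma par_neg (x : ℤ) : par (-x) = -par x := by
  simp only [par, szn_neg, Int.sign_neg]; ring

lemma par_zero : par 0 = 0 := by simp [par]

lemma szn_sq_le {x : ℤ} (hx : x ≠ 0) : ((szn x : ℤ)) ^ 2 ≤ |x| := by
  have h1 : 4 ^ Nat.log 4 x.natAbs ≤ x.natAbs := Nat.pow_log_le_self 4 (by omega)
  have h2 : (szn x) ^ 2 = 4 ^ Nat.log 4 x.natAbs := by
    unfold szn; rw [← pow_mul, mul_comm, pow_mul]; norm_num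
  rw [← h2] at h1
  rw [Int.abs_eq_natAbs]
  exact_mod_cast h1

lemma lt_szn_sq (x : ℤ) : |x| < 4 * ((szn x : ℤ)) ^ 2 := by
  have h1 : x.natAbs < 4 ^ (Nat.log 4 x.natAbs + 1) := Nat.lt_pow_succ_log_self (by norm_num) _
  have h2 : 4 * (szn x) ^ 2 = 4 ^ (Nat.log 4 x.natAbs + 1) := by
    unfold szn; rw [← pow_mul, mul_comm _ 2, pow_mul, pow_succ]; norm_num; ring
  rw [← h2] at h1
  rw [Int.abs_eq_natAbs]
  exact_mod_cast h1

lemma szn_pos (x : ℤ) : (1 : ℤ) ≤ szn x := by
  unfold szn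
  exact_mod_cast Nat.one_le_two_pow

lemma szn_le {x : ℤ} (hx : x ≠ 0) : (szn x : ℤ) ≤ |x| := by
  have := szn_sq_le hx
  have := szn_pos x
  nlinarith

/-- if `2 * szn x ≤ |x| + 1` -/
lemma two_szn_le {x : ℤ} (hx : x ≠ 0) : 2 * (szn x : ℤ) ≤ |x| + 1 := by
  have := szn_sq_le hx
  nlinarith [sq_nonneg ((szn x : ℤ) - 1)]

lemma par_pos {x : ℤ} (hx : 0 < x) : par x = x - szn x := by
  simp [par, Int.sign_eq_one_of_pos hx]

lemma abs_par {x : ℤ} (hx : x ≠ 0) : |par x| = |x| - szn x := by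
  rcases lt_or_gt_of_ne hx with h | h
  · have h1 : par x = -par (-x) := by rw [par_neg, neg_neg]
    rw [h1, par_pos (by omega), szn_neg, abs_neg, abs_of_neg h]
    have := szn_le hx
    rw [abs_of_neg h] at this
    exact abs_of_nonneg (by omega)
  · rw [par_pos h, abs_of_pos h]
    have := szn_le hx
    rw [abs_of_pos h] at this
    exact abs_of_nonneg (by omega)

lemma abs_sub_par {x : ℤ} (hx : x ≠ 0) : |x - par x| = szn x := by
  have : x - par x = x.sign * szn x := by simp [par]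
  rw [this, abs_mul, Int.abs_sign_of_ne_zero hx, one_mul]
  simp

lemma dvd_sub_par (x : ℤ) : (szn x : ℤ) ∣ x - par x := by
  have : x - par x = x.sign * szn x := by simp [par]
  rw [this]
  exact Dvd.intro_left _ rfl

lemma abs_le_par (x : ℤ) : |x| ≤ 2 * |par x| + 1 := by
  by_cases hx : x = 0
  · subst hx; simp [par_zero]
  · have h1 := abs_par hx
    have h2 := two_szn_le hx
    omega

lemma par_ne_self {x : ℤ} (hx : x ≠ 0) : par x ≠ x := by
  intro h
  have h1 := abs_par hx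
  rw [h] at h1
  have := szn_pos x
  omega

lemma szn_mono {x y : ℤ} (h : |x| ≤ |y|) : szn x ∣ szn y ∧ szn x ≤ szn y := by
  have h1 : Nat.log 4 x.natAbs ≤ Nat.log 4 y.natAbs := by
    apply Nat.log_mono_right
    rw [Int.abs_eq_natAbs, Int.abs_eq_natAbs] at h
    exact_mod_cast h
  exact ⟨pow_dvd_pow 2 h1, Nat.pow_le_pow_right (by norm_num) h1⟩

lemma par_fiber_finite (v : ℤ) : {w | par w = v}.Finite := by
  refine (Set.finite_Icc (-(2 * |v| + 1)) (2 * |v| + 1)).subset ?_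
  intro w hw
  have h1 := abs_le_par w
  have hw' : par w = v := hw
  rw [hw'] at h1
  rw [Set.mem_Icc]
  have := abs_le.mp h1
  omega

lemma par_reach (x : ℤ) : ∃ n : ℕ, par^[n] x = 0 := by
  induction hn : x.natAbs using Nat.strong_induction_on generalizing x with
  | _ n ih =>
    by_cases hx : x = 0
    · exact ⟨0, hx⟩
    · have h1 := abs_par hx
      have h2 := szn_pos x
      rw [Int.abs_eq_natAbs, Int.abs_eq_natAbs] at h1
      obtain ⟨k, hk⟩ := ih (par x).natAbs (by omega) (par x) rfl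
      exact ⟨k + 1, by rw [Function.iterate_succ_apply]; exact hk⟩

lemma log_eq {k : ℕ} {x : ℤ} (h1 : (4 : ℤ) ^ k ≤ x) (h2 : x < 4 ^ (k + 1)) :
    szn x = 2 ^ k := by
  have hx : 0 < x := lt_of_lt_of_le (by positivity) h1
  obtain ⟨n, rfl⟩ := Int.eq_ofNat_of_zero_le hx.le
  unfold szn
  congr 1
  rw [Int.natAbs_natCast]
  rw [Nat.log_eq_iff (Or.inr ⟨by norm_num, by omega⟩)]
  constructor
  · exact_mod_cast h1
  · exact_mod_cast h2

lemma exists_log {x : ℤ} (hx : 0 < x) : ∃ k : ℕ, (4 : ℤ) ^ k ≤ x ∧ x < 4 ^ (k + 1) := by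
  obtain ⟨n, rfl⟩ := Int.eq_ofNat_of_zero_le hx.le
  refine ⟨Nat.log 4 n, ?_, ?_⟩
  · exact_mod_cast Nat.pow_log_le_self 4 (by omega)
  · exact_mod_cast Nat.lt_pow_succ_log_self (by norm_num) n

lemma two_pow_le_four (k : ℕ) : (2 : ℤ) * 2 ^ k ≤ 4 ^ k + 1 := by
  have : (4 : ℤ) ^ k = (2 ^ k) ^ 2 := by rw [← pow_mul, mul_comm, pow_mul]; norm_num
  rw [this]
  nlinarith [sq_nonneg ((2 : ℤ) ^ k - 1)]

lemma par_child (v : ℤ) (hv : v ≠ 0) : ∃ w, w ≠ 0 ∧ par w = v := by
  -- reduce to positive `v`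
  have key : ∀ v : ℤ, 0 < v → ∃ w, w ≠ 0 ∧ par w = v := by
    intro v hv
    obtain ⟨k, hk1, hk2⟩ := exists_log hv
    have hp : (0 : ℤ) < 2 ^ k := by positivity
    have h4 : (4 : ℤ) ^ (k + 1) = 4 * 4 ^ k := by ring
    have h4' : (4 : ℤ) ^ (k + 1 + 1) = 16 * 4 ^ k := by ring
    have h2' : (2 : ℤ) ^ (k + 1) = 2 * 2 ^ k := by ring
    have h3 := two_pow_le_four k
    have h3' : (1 : ℤ) ≤ 4 ^ k := by
      have : (0 : ℤ) < 4 ^ k := by positivity
      omega
    by_cases h : v + 2 ^ k < 4 ^ (k + 1)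
    · refine ⟨v + 2 ^ k, by omega, ?_⟩
      rw [par_pos (by omega), log_eq (k := k) (by omega) h]
      push_cast; ring
    · refine ⟨v + 2 ^ (k + 1), by omega, ?_⟩
      rw [par_pos (by omega), log_eq (k := k + 1) (by omega) (by omega)]
      push_cast; ring
  rcases lt_or_gt_of_ne hv with h | h
  · obtain ⟨w, hw1, hw2⟩ := key (-v) (by omega)
    exact ⟨-w, by omega, by rw [par_neg, hw2, neg_neg]⟩
  · exact key v h

/-- The rooted tree with vertex set `ℤ`, root `0`, in which the parent of `x ≠ 0` is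
`x - sgn(x) 2 ^ ⌊log₄ |x|⌋`. -/
def intTree : RTree ℤ where
  root := 0
  parent := par
  parent_root := par_zero
  reach := par_reach
  locFin := fun v => (par_fiber_finite v).subset fun _ hw => hw.2
  child := par_child

lemma par_mk {x : ℤ} {k : ℕ} (h1 : (4 : ℤ) ^ k ≤ x) (h2 : x < 4 ^ (k + 1)) :
    par x = x - 2 ^ k := by
  have hx : 0 < x := lt_of_lt_of_le (by positivity) h1
  rw [par_pos hx, log_eq h1 h2]
  push_cast; ring

lemma par_mk_neg {x : ℤ} {k : ℕ} (h1 : (4 : ℤ) ^ k ≤ -x) (h2 : -x < 4 ^ (k + 1)) :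
    par x = x + 2 ^ k := by
  have : par x = -par (-x) := by rw [par_neg, neg_neg]
  rw [this, par_mk h1 h2]; ring

lemma shift_edge (f : ℤ → ℂ) (x : ℤ) : ‖f (x + 1) - f (par x + 1)‖ ≤
    ‖f (x + 1) - f (par (x + 1))‖ + ‖f (par x + 1) - f (par (par x + 1))‖ +
      ‖f (par (x + 1)) - f (par (par (x + 1)))‖ := by
  have n1 := norm_nonneg (f (x + 1) - f (par (x + 1)))
  have n2 := norm_nonneg (f (par x + 1) - f (par (par x + 1)))
  have n3 := norm_nonneg (f (par (x + 1)) - f (par (par (x + 1))))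
  have same : par (x + 1) = par x + 1 → ‖f (x + 1) - f (par x + 1)‖ ≤
      ‖f (x + 1) - f (par (x + 1))‖ + ‖f (par x + 1) - f (par (par x + 1))‖ +
      ‖f (par (x + 1)) - f (par (par (x + 1)))‖ := by
    intro h
    rw [← h] at n2 ⊢
    linarith
  rcases lt_trichotomy x 0 with hx | hx | hx
  · obtain ⟨k, hk1, hk2⟩ := exists_log (x := -x) (by omega)
    have hpx := par_mk_neg hk1 hk2
    by_cases h : (4 : ℤ) ^ k ≤ -(x + 1)
    · apply same
      rw [par_mk_neg h (by omega), hpx]; ring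
    · have hxk : x = -4 ^ k := by omega
      rcases Nat.eq_zero_or_pos k with hk0 | hk0
      · subst hk0
        simp only [pow_zero] at hxk hpx
        subst hxk
        have h1 : par 1 = 0 := by
          have := par_mk (x := 1) (k := 0) (by norm_num) (by norm_num)
          simpa using this
        have h2 : par (-1) = 0 := by rw [par_neg, h1, neg_zero]
        have m1 := norm_nonneg (f 0 - f (par 0))
        have m3 := norm_nonneg (f (par 0) - f (par (par 0)))
        rw [h2]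
        norm_num [h1]
        rw [norm_sub_rev (f 0) (f 1)]
        linarith
      · obtain ⟨j, rfl⟩ : ∃ j, k = j + 1 := ⟨k - 1, by omega⟩
        have h4 : (4 : ℤ) ^ (j + 1) = 4 * 4 ^ j := by ring
        have h2' : (2 : ℤ) ^ (j + 1) = 2 * 2 ^ j := by ring
        have h3 := two_pow_le_four j
        have h3' : (0 : ℤ) < 4 ^ j := by positivity
        have h2p : (0 : ℤ) < 2 ^ j := by positivity
        have e1 : par (x + 1) = x + 1 + 2 ^ j :=
          par_mk_neg (by omega) (by omega)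
        have e2 : par (x + 1 + 2 ^ j) = x + 1 + 2 ^ j + 2 ^ j :=
          par_mk_neg (by omega) (by omega)
        have e3 : par x + 1 = x + 1 + 2 ^ j + 2 ^ j := by rw [hpx]; omega
        rw [e1, e2, ← e3]
        have := norm_add_le (f (x + 1) - f (x + 1 + 2 ^ j)) (f (x + 1 + 2 ^ j) - f (par x + 1))
        have h5 : f (x + 1) - f (x + 1 + 2 ^ j) + (f (x + 1 + 2 ^ j) - f (par x + 1)) =
          f (x + 1) - f (par x + 1) := by ring
        rw [h5] at this
        linarith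
  · subst hx
    simp only [par_zero, sub_self, norm_zero]
    positivity
  · obtain ⟨k, hk1, hk2⟩ := exists_log hx
    have hpx := par_mk hk1 hk2
    by_cases h : x + 1 < 4 ^ (k + 1)
    · apply same
      rw [par_mk (by omega) h, hpx]; ring
    · have hxk : x = 4 ^ (k + 1) - 1 := by omega
      have h4 : (4 : ℤ) ^ (k + 1) = 4 * 4 ^ k := by ring
      have h4' : (4 : ℤ) ^ (k + 1 + 1) = 16 * 4 ^ k := by ring
      have h2' : (2 : ℤ) ^ (k + 1) = 2 * 2 ^ k := by ring
      have h3 := two_pow_le_four k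
      have h3' : (0 : ℤ) < 4 ^ k := by positivity
      have h2p : (0 : ℤ) < 2 ^ k := by positivity
      have e1 : par (x + 1) = x + 1 - 2 ^ (k + 1) := par_mk (by omega) (by omega)
      have e2 : par (par x + 1) = par x + 1 - 2 ^ k := par_mk (by omega) (by omega)
      have e3 : par (x + 1) = par (par x + 1) := by rw [e1, e2, hpx]; omega
      rw [← e3]
      have := norm_sub_le (f (x + 1) - f (par (x + 1))) (f (par x + 1) - f (par (x + 1)))
      have h5 : f (x + 1) - f (par (x + 1)) - (f (par x + 1) - f (par (x + 1))) =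
        f (x + 1) - f (par x + 1) := by ring
      rw [h5] at this
      linarith

lemma par_tendsto : Tendsto par cofinite cofinite :=
  Filter.Tendsto.cofinite_of_finite_preimage_singleton fun v => par_fiber_finite v

lemma succ_tendsto : Tendsto (fun x : ℤ => x + 1) cofinite cofinite :=
  (add_left_injective (1 : ℤ)).tendsto_cofinite

/-- The composition operator with symbol `x ↦ x + 1`. -/
noncomputable def shiftOp : LipZero intTree →L[ℂ] LipZero intTree :=
  LinearMap.mkContinuous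
    { toFun := fun f => ⟨fun x => f (x + 1), by
        have h0 : Tendsto (fun v => f v - f (par v)) cofinite (𝓝 0) := f.tend
        have h1 := (h0.comp succ_tendsto).norm
        have h2 := (h0.comp (succ_tendsto.comp par_tendsto)).norm
        have h3 := (h0.comp (par_tendsto.comp succ_tendsto)).norm
        have h4 := (h1.add h2).add h3
        simp only [norm_zero, add_zero] at h4
        exact squeeze_zero_norm (fun x => shift_edge f x) h4⟩
      map_add' := fun _ _ => rfl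
      map_smul' := fun _ _ => rfl } 3 (by
    intro f
    have hn := (norm_nonneg _).trans (root_le f)
    apply norm_le
    · show ‖f (0 + 1)‖ ≤ 3 * ‖f‖
      have h1 : par 1 = 0 := by
        have := par_mk (x := 1) (k := 0) (by norm_num) (by norm_num)
        simpa using this
      have h2 : ‖f 1 - f (par 1)‖ ≤ ‖f‖ := edge_le f 1
      rw [h1] at h2
      have h3 : ‖f 0‖ ≤ ‖f‖ := root_le f
      have h4 : ‖f 1‖ ≤ ‖f 1 - f 0‖ + ‖f 0‖ := by simpa using norm_add_le (f 1 - f 0) (f 0)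
      rw [zero_add]
      linarith
    · intro v
      show ‖f (v + 1) - f (par v + 1)‖ ≤ 3 * ‖f‖
      refine (shift_edge f v).trans ?_
      have h1 : ‖f (v + 1) - f (par (v + 1))‖ ≤ ‖f‖ := edge_le f (v + 1)
      have h2 : ‖f (par v + 1) - f (par (par v + 1))‖ ≤ ‖f‖ := edge_le f (par v + 1)
      have h3 : ‖f (par (v + 1)) - f (par (par (v + 1)))‖ ≤ ‖f‖ := edge_le f (par (v + 1))
      linarith)

@[simp] lemma shiftOp_apply (f : LipZero intTree) (x : ℤ) : shiftOp f x = f (x + 1) := rfl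

lemma shiftOp_pow (n : ℕ) (f : LipZero intTree) (x : ℤ) : (shiftOp ^ n) f x = f (x + n) := by
  induction n generalizing x with
  | zero => simp
  | succ n ih =>
    rw [pow_succ']
    show ((shiftOp ^ n) f) (x + 1) = _
    have h : x + 1 + (n : ℤ) = x + ((n + 1 : ℕ) : ℤ) := by push_cast; ring
    rw [ih, h]

end Q87.LipTree
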