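import Mathlib
import Pool.Agent.Q87.IntTree

/-!
# Hypercyclicity of the translation operator on the little Lipschitz space of `intTree`
-/

set_option autoImplicit false

open Set Filter Topology

namespace Q87.LipTree

/-- the moduli `s i = 2 ^ (2 ^ i - 1)` -/
def ss (i : ℕ) : ℤ := 2 ^ (2 ^ i - 1)

lemma ss_pos (i : ℕ) : 0 < ss i := by unfold ss; positivity

lemma ss_succ (i : ℕ) : ss (i + 1) = 2 * (ss i) ^ 2 := by
  unfold ss
  rw [← pow_mul, ← pow_succ']
  congr 1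
  have : 1 ≤ 2 ^ i := Nat.one_le_two_pow
  rw [pow_succ]
  omega

lemma ss_dvd {i j : ℕ} (h : i ≤ j) : ss i ∣ ss j := by
  unfold ss
  apply pow_dvd_pow
  have := Nat.pow_le_pow_right (n := 2) (by norm_num) h
  omega

lemma ss_mono {i j : ℕ} (h : i ≤ j) : ss i ≤ ss j :=
  Int.le_of_dvd (ss_pos j) (ss_dvd h)

lemma exists_ss_gt (a : ℤ) : ∃ i, a < ss i := by
  refine ⟨a.natAbs + 1, ?_⟩
  have h1 : a.natAbs < 2 ^ (2 ^ (a.natAbs + 1) - 1) := by
    have h2 : a.natAbs + 1 < 2 ^ (a.natAbs + 1) := Nat.lt_two_pow_self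
    calc a.natAbs < 2 ^ a.natAbs := Nat.lt_two_pow_self
      _ ≤ 2 ^ (2 ^ (a.natAbs + 1) - 1) := Nat.pow_le_pow_right (by norm_num) (by omega)
  have h2 : a ≤ a.natAbs := Int.le_natAbs
  have h3 : ((a.natAbs : ℕ) : ℤ) < ss (a.natAbs + 1) := by
    unfold ss; exact_mod_cast h1
  omega

/-- a step at a point of modulus at least `(s i)²` is a multiple of `s i` -/
lemma ss_dvd_szn {i : ℕ} {x : ℤ} (h : (ss i) ^ 2 ≤ |x|) : ss i ∣ (szn x : ℤ) := by
  unfold ss szn
  push_cast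
  apply pow_dvd_pow
  have hx : x.natAbs ≠ 0 := by
    intro h0
    have h1 : x = 0 := by omega
    rw [h1, abs_zero] at h
    have := ss_pos i
    nlinarith
  apply Nat.le_log_of_pow_le (by norm_num)
  have h2 : (ss i) ^ 2 = 4 ^ (2 ^ i - 1) := by
    unfold ss; rw [← pow_mul, mul_comm, pow_mul]; norm_num
  rw [h2, Int.abs_eq_natAbs] at h
  exact_mod_cast h

/-- the number of `i < m` such that `s (i₀ + i)` divides `w - v` -/
def cnt (i₀ m : ℕ) (v w : ℤ) : ℕ := ((Finset.range m).filter fun i => ss (i₀ + i) ∣ w - v).card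

lemma cnt_self (i₀ m : ℕ) (v : ℤ) : cnt i₀ m v v = m := by
  simp [cnt]

lemma cnt_zero {i₀ m : ℕ} {v w : ℤ} (h1 : w ≠ v) (h2 : |w - v| < ss i₀) : cnt i₀ m v w = 0 := by
  unfold cnt
  rw [Finset.card_eq_zero, Finset.filter_eq_empty_iff]
  intro i _ hdvd
  have h3 := Int.le_of_dvd (abs_pos.mpr (sub_ne_zero.mpr h1)) ((dvd_abs _ _).mpr hdvd)
  have h4 := ss_mono (Nat.le_add_right i₀ i)
  omega

lemma cnt_le_succ {i₀ m : ℕ} {v w w' : ℤ}
    (h : ∀ i, i₀ ≤ i → ss (i + 1) ∣ w - v → ss i ∣ w' - v) :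
    cnt i₀ m v w ≤ cnt i₀ m v w' + 1 := by
  unfold cnt
  have hsub : ((Finset.range m).filter fun i => ss (i₀ + i) ∣ w - v) ⊆
      insert 0 (((Finset.range m).filter fun i => ss (i₀ + i) ∣ w' - v).image Nat.succ) := by
    intro i hi
    rw [Finset.mem_filter, Finset.mem_range] at hi
    rw [Finset.mem_insert, Finset.mem_image]
    rcases Nat.eq_zero_or_pos i with h0 | h0
    · exact Or.inl h0
    · right
      obtain ⟨j, rfl⟩ : ∃ j, i = j + 1 := ⟨i - 1, by omega⟩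
      refine ⟨j, ?_, rfl⟩
      rw [Finset.mem_filter, Finset.mem_range]
      exact ⟨by omega, h (i₀ + j) (by omega) hi.2⟩
  refine (Finset.card_le_card hsub).trans ?_
  refine (Finset.card_insert_le _ _).trans ?_
  exact Nat.add_le_add_right Finset.card_image_le 1

lemma cnt_congr {i₀ m : ℕ} {v w w' : ℤ} (h : ∀ i < m, ss (i₀ + i) ∣ w - w') :
    cnt i₀ m v w = cnt i₀ m v w' := by
  unfold cnt
  congr 1
  apply Finset.filter_congr
  intro i hi
  rw [Finset.mem_range] at hi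
  have h1 := h i hi
  have h2 : w - v = (w - w') + (w' - v) := by ring
  rw [h2]
  exact (Int.dvd_add_right h1)

/-- the key arithmetic fact: along an edge not touching `v` the count changes by at most one -/
lemma edge_key {i₀ i : ℕ} {v w : ℤ} (hv : |v| < ss i₀) (hi : i₀ ≤ i) (hw : w ≠ v)
    (h : ss (i + 1) ∣ w - v) : (ss i) ^ 2 ≤ |w| := by
  have h3 := Int.le_of_dvd (abs_pos.mpr (sub_ne_zero.mpr hw)) ((dvd_abs _ _).mpr h)
  rw [ss_succ] at h3
  have h4 := ss_mono hi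
  have h5 := ss_pos i
  have h6 : |w - v| ≤ |w| + |v| := abs_sub _ _
  nlinarith

lemma cnt_edge {i₀ m : ℕ} {v w : ℤ} (hv : |v| < ss i₀) (h1 : w ≠ v) (h2 : par w ≠ v) :
    cnt i₀ m v w ≤ cnt i₀ m v (par w) + 1 ∧ cnt i₀ m v (par w) ≤ cnt i₀ m v w + 1 := by
  have hle : |par w| ≤ |w| := by
    by_cases hw : w = 0
    · subst hw; rw [par_zero]
    · have := abs_par hw
      have := szn_pos w
      omega
  constructor
  · apply cnt_le_succ
    intro i hi hd
    have h3 := ss_dvd_szn (edge_key hv hi h1 hd)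
    have h4 := h3.trans (dvd_sub_par w)
    have h5 := (ss_dvd (Nat.le_succ i)).trans hd
    have h6 : par w - v = (w - v) - (w - par w) := by ring
    rw [h6]
    exact dvd_sub h5 h4
  · apply cnt_le_succ
    intro i hi hd
    have h3 := ss_dvd_szn ((edge_key hv hi h2 hd).trans hle)
    have h4 := h3.trans (dvd_sub_par w)
    have h5 := (ss_dvd (Nat.le_succ i)).trans hd
    have h6 : w - v = (par w - v) + (w - par w) := by ring
    rw [h6]
    exact dvd_add h5 h4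

/-- the function `H` -/
noncomputable def HH (i₀ m q : ℕ) (v w : ℤ) : ℝ :=
  max 0 (min ((cnt i₀ m v w : ℝ) / m) (1 - |(w : ℝ)| / (m * 2 ^ (q + 1))))

lemma HH_nonneg (i₀ m q : ℕ) (v w : ℤ) : 0 ≤ HH i₀ m q v w := le_max_left _ _

lemma cnt_le (i₀ m : ℕ) (v w : ℤ) : cnt i₀ m v w ≤ m := by
  unfold cnt
  exact (Finset.card_filter_le _ _).trans (by simp)

lemma HH_le_one (i₀ m q : ℕ) (v w : ℤ) : HH i₀ m q v w ≤ 1 := by
  unfold HH
  apply max_le zero_le_one
  refine (min_le_right _ _).trans ?_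
  have : 0 ≤ |(w : ℝ)| / (m * 2 ^ (q + 1)) := by positivity
  linarith

lemma HH_zero_of_cnt {i₀ m q : ℕ} {v w : ℤ} (h : cnt i₀ m v w = 0) : HH i₀ m q v w = 0 := by
  unfold HH
  rw [h]
  simp

lemma HH_zero_of_large {i₀ m q : ℕ} (hm : 0 < m) {v w : ℤ} (h : (m : ℤ) * 2 ^ (q + 1) ≤ |w|) :
    HH i₀ m q v w = 0 := by
  unfold HH
  apply max_eq_left
  refine (min_le_right _ _).trans ?_
  have hm' : (0 : ℝ) < m := by exact_mod_cast hm
  have h1 : (1 : ℝ) ≤ |(w : ℝ)| / (m * 2 ^ (q + 1)) := by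
    rw [le_div_iff₀ (by positivity), one_mul]
    have : (((m : ℤ) * 2 ^ (q + 1) : ℤ) : ℝ) ≤ ((|w| : ℤ) : ℝ) := by exact_mod_cast h
    push_cast at this
    exact this
  linarith

lemma HH_lip {i₀ m q : ℕ} (hm : 0 < m) {v w w' : ℤ}
    (h1 : cnt i₀ m v w ≤ cnt i₀ m v w' + 1) (h2 : cnt i₀ m v w' ≤ cnt i₀ m v w + 1)
    (h3 : |w - w'| ≤ 2 ^ (q + 1)) :
    |HH i₀ m q v w - HH i₀ m q v w'| ≤ 1 / m := by
  have hm' : (0 : ℝ) < m := by exact_mod_cast hm
  unfold HH
  rw [max_comm 0, max_comm 0]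
  refine (abs_max_sub_max_le_abs _ _ _).trans ?_
  refine (abs_min_sub_min_le_max _ _ _ _).trans ?_
  apply max_le
  · rw [← sub_div, abs_div, abs_of_pos hm']
    apply div_le_div_of_nonneg_right _ hm'.le
    rw [abs_le]
    have e1 : (cnt i₀ m v w : ℝ) ≤ cnt i₀ m v w' + 1 := by exact_mod_cast h1
    have e2 : (cnt i₀ m v w' : ℝ) ≤ cnt i₀ m v w + 1 := by exact_mod_cast h2
    constructor <;> linarith
  · have e1 : (1 - |(w : ℝ)| / (m * 2 ^ (q + 1))) - (1 - |(w' : ℝ)| / (m * 2 ^ (q + 1))) =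
      (|(w' : ℝ)| - |(w : ℝ)|) / (m * 2 ^ (q + 1)) := by ring
    rw [e1, abs_div, abs_of_pos (show (0 : ℝ) < m * 2 ^ (q + 1) by positivity)]
    rw [div_le_div_iff₀ (by positivity) hm', one_mul]
    have e2 : |(|(w' : ℝ)| - |(w : ℝ)|)| ≤ 2 ^ (q + 1) := by
      refine (abs_abs_sub_abs_le _ _).trans ?_
      rw [abs_sub_comm]
      have : ((|w - w'| : ℤ) : ℝ) ≤ ((2 ^ (q + 1) : ℤ) : ℝ) := by exact_mod_cast h3
      push_cast at this
      exact this
    nlinarith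

lemma HH_edge {i₀ m q : ℕ} (hm : 0 < m) (hq1 : 1 ≤ q) (hq : 8 * m ≤ 2 ^ q) {v w : ℤ}
    (hv : |v| < ss i₀) (h1 : w ≠ v) (h2 : par w ≠ v) :
    |HH i₀ m q v w - HH i₀ m q v (par w)| ≤ 1 / m := by
  obtain ⟨p, rfl⟩ : ∃ p, q = p + 1 := ⟨q - 1, by omega⟩
  have hmN : (m : ℤ) * 2 ^ (p + 1 + 1) ≤ 4 ^ p := by
    have e1 : (8 * m : ℤ) ≤ 2 ^ (p + 1) := by exact_mod_cast hq
    have e2 : (4 : ℤ) ^ p = 2 ^ p * 2 ^ p := by rw [← mul_pow]; norm_num
    have e3 : (0 : ℤ) < 2 ^ p := by positivity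
    rw [e2]
    rw [pow_succ] at e1
    rw [pow_succ, pow_succ]
    nlinarith
  have hle : |par w| ≤ |w| := by
    by_cases hw : w = 0
    · subst hw; rw [par_zero]
    · have := abs_par hw
      have := szn_pos w
      omega
  by_cases hlarge : (m : ℤ) * 2 ^ (p + 1 + 1) ≤ |par w|
  · rw [HH_zero_of_large hm hlarge, HH_zero_of_large hm (hlarge.trans hle)]
    simp
  · apply HH_lip hm (cnt_edge hv h1 h2).1 (cnt_edge hv h1 h2).2
    by_cases hw : w = 0
    · subst hw; rw [par_zero]; simp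
    · rw [abs_sub_par hw]
      have h3 := abs_le_par w
      have h4 := szn_sq_le hw
      have e2 : (4 : ℤ) ^ p = 2 ^ p * 2 ^ p := by rw [← mul_pow]; norm_num
      have e3 : (0 : ℤ) < 2 ^ p := by positivity
      have e4 : (2 : ℤ) ^ (p + 1 + 1) = 4 * 2 ^ p := by ring
      rw [e4]
      by_contra hcon
      push Not at hcon
      rw [e4] at hmN hlarge
      nlinarith

/-- far away edges, seen from a window -/
lemma HH_far {i₀ m q : ℕ} (hm : 0 < m) (hq1 : 2 ^ (i₀ + m) ≤ q) (hq : 8 * m ≤ 2 ^ q) {v : ℤ}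
    {n y : ℤ} (hn : |n| = 4 ^ q) :
    |HH i₀ m q v (y - n) - HH i₀ m q v (par y - n)| ≤ 1 / m := by
  have hq2 : 1 ≤ 2 ^ (i₀ + m) := Nat.one_le_two_pow
  obtain ⟨p, rfl⟩ : ∃ p, q = p + 1 := ⟨q - 1, by omega⟩
  have e2 : (4 : ℤ) ^ p = 2 ^ p * 2 ^ p := by rw [← mul_pow]; norm_num
  have e3 : (0 : ℤ) < 2 ^ p := by positivity
  have e3' : (0 : ℤ) < 4 ^ p := by positivity
  have e4 : (2 : ℤ) ^ (p + 1 + 1) = 4 * 2 ^ p := by ring
  have e5 : (4 : ℤ) ^ (p + 1) = 4 * 4 ^ p := by ring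
  have hmN : (m : ℤ) * 2 ^ (p + 1 + 1) ≤ 4 ^ p := by
    have e1 : (8 * m : ℤ) ≤ 2 ^ (p + 1) := by exact_mod_cast hq
    rw [e2]
    rw [pow_succ] at e1
    rw [pow_succ, pow_succ]
    nlinarith
  rw [e5] at hn
  -- the generic conclusion
  have concl : 4 ^ p ≤ |y| → |y| < 4 * 4 ^ (p + 1) →
      |HH i₀ m (p + 1) v (y - n) - HH i₀ m (p + 1) v (par y - n)| ≤ 1 / m := by
    intro g1 g2
    have hy : y ≠ 0 := by
      rintro rfl
      rw [abs_zero] at g1
      omega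
    have hd : ∀ i < m, ss (i₀ + i) ∣ (y - n) - (par y - n) := by
      intro i hi
      have h5 : (y - n) - (par y - n) = y - par y := by ring
      rw [h5]
      refine (ss_dvd_szn ?_).trans (dvd_sub_par y)
      refine le_trans ?_ g1
      unfold ss
      rw [← pow_mul, mul_comm, pow_mul]
      norm_num
      apply pow_le_pow_right₀ (by norm_num)
      have h6 : 2 ^ (i₀ + i) ≤ 2 ^ (i₀ + m) := Nat.pow_le_pow_right (by norm_num) (by omega)
      omega
    have hc := cnt_congr (v := v) hd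
    apply HH_lip hm (by omega) (by omega)
    have h5 : (y - n) - (par y - n) = y - par y := by ring
    rw [h5, abs_sub_par hy, e4]
    have h4 := szn_sq_le hy
    by_contra hcon
    push Not at hcon
    rw [e5] at g2
    nlinarith
  have t1 : |y| ≤ |y - n| + |n| := by simpa using abs_add_le (y - n) n
  have t2 : |n| ≤ |y - n| + |y| := by
    have := abs_sub (y - n) y
    simp only [sub_sub_cancel_left, abs_neg] at this
    exact this
  have t3 : |par y| ≤ |par y - n| + |n| := by simpa using abs_add_le (par y - n) n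
  have t4 : |n| ≤ |par y - n| + |par y| := by
    have := abs_sub (par y - n) (par y)
    simp only [sub_sub_cancel_left, abs_neg] at this
    exact this
  by_cases hA : |y - n| < (m : ℤ) * 2 ^ (p + 1 + 1)
  · apply concl
    · omega
    · omega
  · by_cases hB : |par y - n| < (m : ℤ) * 2 ^ (p + 1 + 1)
    · have hle : |par y| ≤ |y| := by
        by_cases hw : y = 0
        · subst hw; rw [par_zero]
        · have := abs_par hw
          have := szn_pos y
          omega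
      have h3 := abs_le_par y
      apply concl
      · omega
      · omega
    · rw [HH_zero_of_large hm (by omega), HH_zero_of_large hm (by omega)]
      simp

lemma HH_finite {i₀ m q : ℕ} (hm : 0 < m) (v n : ℤ) :
    (Function.support fun w => ((HH i₀ m q v (w - n) : ℝ) : ℂ)).Finite := by
  refine (Set.finite_Icc (n - (m : ℤ) * 2 ^ (q + 1)) (n + (m : ℤ) * 2 ^ (q + 1))).subset ?_
  intro w hw
  by_contra hcon
  apply hw
  have : HH i₀ m q v (w - n) = 0 := by
    apply HH_zero_of_large hm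
    rw [Set.mem_Icc, not_and_or] at hcon
    rcases hcon with h | h
    · rw [abs_of_nonpos (by
        have : (0 : ℤ) ≤ (m : ℤ) * 2 ^ (q + 1) := by positivity
        omega)]
      omega
    · rw [abs_of_nonneg (by
        have : (0 : ℤ) ≤ (m : ℤ) * 2 ^ (q + 1) := by positivity
        omega)]
      omega
  show ((HH i₀ m q v (w - n) : ℝ) : ℂ) = 0
  rw [this]; simp

/-- the translate of `H` by `n`, in the little Lipschitz space -/
noncomputable def HT {m : ℕ} (hm : 0 < m) (i₀ q : ℕ) (v n : ℤ) : LipZero intTree :=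
  ofFin intTree (fun w => ((HH i₀ m q v (w - n) : ℝ) : ℂ)) (HH_finite hm v n)

lemma HT_app {m : ℕ} (hm : 0 < m) (i₀ q : ℕ) (v n w : ℤ) :
    HT hm i₀ q v n w = ((HH i₀ m q v (w - n) : ℝ) : ℂ) := rfl

lemma norm_sub_real (a b : ℝ) : ‖(a : ℂ) - (b : ℂ)‖ = |a - b| := by
  rw [← Complex.ofReal_sub, Complex.norm_real, Real.norm_eq_abs]

/-- `H` translated far away is small. -/
lemma HT_far {m : ℕ} (hm : 0 < m) {i₀ q : ℕ} (hq1 : 2 ^ (i₀ + m) ≤ q) (hq : 8 * m ≤ 2 ^ q) {v : ℤ}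
    {n : ℤ} (hn : |n| = 4 ^ q) : ‖HT hm i₀ q v n‖ ≤ 1 / m := by
  apply norm_le
  · show ‖HT hm i₀ q v n 0‖ ≤ 1 / m
    rw [HT_app, HH_zero_of_large hm]
    · simp
    · rw [zero_sub, abs_neg, hn]
      have e1 : (8 * m : ℤ) ≤ 2 ^ q := by exact_mod_cast hq
      have e2 : (4 : ℤ) ^ q = 2 ^ q * 2 ^ q := by rw [← mul_pow]; norm_num
      have e3 : (0 : ℤ) < 2 ^ q := by positivity
      rw [e2, pow_succ]
      nlinarith
  · intro y
    show ‖HT hm i₀ q v n y - HT hm i₀ q v n (par y)‖ ≤ 1 / m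
    rw [HT_app, HT_app, norm_sub_real]
    exact HH_far hm hq1 hq hn

/-- `H` is close to the indicator of `v`. -/
lemma HT_near {m : ℕ} (hm : 0 < m) {i₀ q : ℕ} (hq1 : 1 ≤ q) (hq : 8 * m ≤ 2 ^ q) {v : ℤ}
    (hv : |v| + 1 < ss i₀) (hvq : |v| ≤ 2 ^ (q + 1)) :
    ‖HT hm i₀ q v 0 - chi intTree v‖ ≤ 1 / m := by
  have hm' : (0 : ℝ) < m := by exact_mod_cast hm
  have hHv : |HH i₀ m q v v - 1| ≤ 1 / m := by
    have h1 : 1 - 1 / (m : ℝ) ≤ HH i₀ m q v v := by
      unfold HH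
      refine le_trans ?_ (le_max_right _ _)
      rw [cnt_self, div_self hm'.ne']
      apply le_min
      · have : 0 < 1 / (m : ℝ) := by positivity
        linarith
      · have : |(v : ℝ)| / (m * 2 ^ (q + 1)) ≤ 1 / m := by
          rw [div_le_div_iff₀ (by positivity) hm', one_mul]
          have h2 : ((|v| : ℤ) : ℝ) ≤ ((2 ^ (q + 1) : ℤ) : ℝ) := by exact_mod_cast hvq
          push_cast at h2
          nlinarith
        linarith
    have h2 := HH_le_one i₀ m q v v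
    rw [abs_le]
    constructor <;> linarith
  have hnb : ∀ w, w ≠ v → |w - v| ≤ |v| + 1 → HH i₀ m q v w = 0 := by
    intro w h1 h2
    exact HH_zero_of_cnt (cnt_zero h1 (by omega))
  have happ : ∀ w, (HT hm i₀ q v 0 - chi intTree v) w =
      (((HH i₀ m q v w - if w = v then 1 else 0 : ℝ)) : ℂ) := by
    intro w
    rw [sub_app, HT_app, chi_app, sub_zero]
    by_cases h : w = v
    · simp [h]
    · simp [h]
  have hEv : ∀ w, (HH i₀ m q v w - if w = v then (1 : ℝ) else 0) =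
      if w = v then HH i₀ m q v v - 1 else HH i₀ m q v w := by
    intro w
    by_cases h : w = v
    · simp [h]
    · simp [h]
  have hpos : 0 ≤ 1 / (m : ℝ) := by positivity
  apply norm_le
  · show ‖(HT hm i₀ q v 0 - chi intTree v) 0‖ ≤ 1 / m
    rw [happ, Complex.norm_real, Real.norm_eq_abs, hEv]
    by_cases h : (0 : ℤ) = v
    · rw [if_pos h]; exact hHv
    · rw [if_neg h, hnb 0 h (by rw [zero_sub, abs_neg]; omega)]
      simp
  · intro w
    show ‖(HT hm i₀ q v 0 - chi intTree v) w - (HT hm i₀ q v 0 - chi intTree v) (par w)‖ ≤ 1 / m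
    rw [happ, happ, norm_sub_real, hEv, hEv]
    by_cases hw0 : w = 0
    · subst hw0; rw [par_zero]; simp
    by_cases h1 : w = v
    · have h2 : par w ≠ v := by rw [← h1]; exact par_ne_self hw0
      rw [if_pos h1, if_neg h2, hnb (par w) h2, sub_zero]
      · exact hHv
      · rw [← h1, abs_sub_comm, abs_sub_par hw0]
        have := szn_le hw0
        omega
    · by_cases h2 : par w = v
      · rw [if_neg h1, if_pos h2, hnb w h1, zero_sub, abs_neg]
        · exact hHv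
        · rw [← h2, abs_sub_par hw0]
          have h3 := abs_par hw0
          have h4 := two_szn_le hw0
          omega
      · rw [if_neg h1, if_neg h2]
        exact HH_edge hm hq1 hq (by omega) h1 h2

lemma pow_HT {m : ℕ} (hm : 0 < m) (i₀ q : ℕ) (v : ℤ) (k : ℤ) (n : ℕ) :
    (shiftOp ^ n) (HT hm i₀ q v k) = HT hm i₀ q v (k - n) := by
  ext w
  rw [shiftOp_pow, HT_app, HT_app]
  congr 2
  ring

lemma eventually_cond (v : ℤ) (m : ℕ) : ∃ i₀, |v| + 1 < ss i₀ ∧ ∀ᶠ q : ℕ in atTop,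
    2 ^ (i₀ + m) ≤ q ∧ 8 * m ≤ 2 ^ q ∧ 1 ≤ q ∧ |v| ≤ 2 ^ (q + 1) := by
  obtain ⟨i₀, hi⟩ := exists_ss_gt (|v| + 1)
  refine ⟨i₀, hi, ?_⟩
  filter_upwards [eventually_ge_atTop (2 ^ (i₀ + m)), eventually_ge_atTop (8 * m),
    eventually_ge_atTop 1, eventually_ge_atTop v.natAbs] with q h1 h2 h3 h4
  have h5 : q < 2 ^ q := Nat.lt_two_pow_self
  refine ⟨h1, by omega, h3, ?_⟩
  rw [Int.abs_eq_natAbs]
  have h6 : 2 ^ q ≤ 2 ^ (q + 1) := Nat.pow_le_pow_right (by norm_num) (by omega)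
  have h7 : v.natAbs ≤ 2 ^ (q + 1) := by omega
  exact_mod_cast h7

/-- The operator `λ C_φ`, `φ x = x + 1`, `|λ| = 1`, is hypercyclic. -/
theorem shiftOp_hypercyclic (lam : ℂ) (hlam : ‖lam‖ = 1) : Hypercyclic (lam • shiftOp) := by
  apply hypercyclic_of_approx shiftOp (fun q => 4 ^ q) (Set.range (chi intTree)) dense_span
    _ _ lam hlam
  · rintro _ ⟨v, rfl⟩ ε hε
    obtain ⟨k, hk⟩ := exists_nat_one_div_lt hε
    obtain ⟨i₀, hi, hev⟩ := eventually_cond v (k + 1)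
    have hk' : 1 / ((k + 1 : ℕ) : ℝ) ≤ ε := by push_cast; exact hk.le
    filter_upwards [hev] with q hq
    refine ⟨HT (Nat.succ_pos k) i₀ q v 0, ?_, ?_⟩
    · exact (HT_near _ hq.2.2.1 hq.2.1 hi hq.2.2.2).trans hk'
    · rw [pow_HT]
      refine (HT_far _ hq.1 hq.2.1 ?_).trans hk'
      rw [zero_sub, abs_neg]
      push_cast
      exact abs_of_pos (by positivity)
  · rintro _ ⟨v, rfl⟩ ε hε
    obtain ⟨k, hk⟩ := exists_nat_one_div_lt hε
    obtain ⟨i₀, hi, hev⟩ := eventually_cond v (k + 1)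
    have hk' : 1 / ((k + 1 : ℕ) : ℝ) ≤ ε := by push_cast; exact hk.le
    filter_upwards [hev] with q hq
    refine ⟨HT (Nat.succ_pos k) i₀ q v (4 ^ q), ?_, ?_⟩
    · refine (HT_far _ hq.1 hq.2.1 ?_).trans hk'
      exact abs_of_pos (by positivity)
    · rw [pow_HT]
      have : (4 : ℤ) ^ q - ((4 ^ q : ℕ) : ℤ) = 0 := by push_cast; ring
      rw [this]
      exact (HT_near _ hq.2.2.1 hq.2.1 hi hq.2.2.2).trans hk'

end Q87.LipTree
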