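import Mathlib

/-! The sequence lemma for the minimum certificate. -/

set_option autoImplicit false

open Filter Topology

namespace Q87.KerSeq

theorem telescope (B : ℕ → ℝ) (m K : ℕ) :
    ∑ k ∈ Finset.range K, ((k : ℝ) + 1) / 2 ^ k *
      (B (m + k) - B (m + k + 1) + B (m + k + 2) / 4) =
    B m - ((K : ℝ) + 1) / 2 ^ K * B (m + K) + (K : ℝ) / 2 ^ (K + 1) * B (m + K + 1) := by
  induction K with
  | zero => simp
  | succ K ih =>
    rw [Finset.sum_range_succ, ih]
    have h2 : (2:ℝ) ^ K ≠ 0 := by positivity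
    have e1 : m + (K + 1) = m + K + 1 := by ring
    have e2 : m + K + 1 + 1 = m + K + 2 := by ring
    rw [e1, e2]
    push_cast
    rw [pow_succ, pow_succ]
    field_simp
    ring

theorem tail_zero (B : ℕ → ℝ) (h0 : ∀ k, 0 ≤ B k) (h1 : ∀ k, B k ≤ 1) (m : ℕ) :
    Tendsto (fun K : ℕ => B m - ((K : ℝ) + 1) / 2 ^ K * B (m + K) +
      (K : ℝ) / 2 ^ (K + 1) * B (m + K + 1)) atTop (𝓝 (B m)) := by
  have hpoly : Tendsto (fun K : ℕ => (K : ℝ) / 2 ^ K) atTop (𝓝 0) := by
    have := tendsto_self_mul_const_pow_of_lt_one (r := (1/2 : ℝ)) (by norm_num) (by norm_num)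
    refine this.congr fun K => ?_
    rw [one_div, inv_pow]; rfl
  have hg : Tendsto (fun K : ℕ => (1 : ℝ) / 2 ^ K) atTop (𝓝 0) := by
    have := tendsto_pow_atTop_nhds_zero_of_lt_one (r := (1/2 : ℝ)) (by norm_num) (by norm_num)
    refine this.congr fun K => ?_
    rw [one_div_pow]
  have ha : Tendsto (fun K : ℕ => ((K : ℝ) + 1) / 2 ^ K) atTop (𝓝 0) := by
    have := hpoly.add hg
    rw [add_zero] at this
    refine this.congr fun K => ?_
    rw [add_div]
  have hb : Tendsto (fun K : ℕ => (K : ℝ) / 2 ^ (K + 1)) atTop (𝓝 0) := by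
    have := hpoly.mul_const (1/2)
    rw [zero_mul] at this
    refine this.congr fun K => ?_
    rw [pow_succ]; field_simp
  have ha' : Tendsto (fun K : ℕ => ((K : ℝ) + 1) / 2 ^ K * B (m + K)) atTop (𝓝 0) := by
    refine squeeze_zero (fun K => mul_nonneg (by positivity) (h0 _)) (fun K => ?_) ha
    exact mul_le_of_le_one_right (by positivity) (h1 _)
  have hb' : Tendsto (fun K : ℕ => (K : ℝ) / 2 ^ (K + 1) * B (m + K + 1)) atTop (𝓝 0) := by
    refine squeeze_zero (fun K => mul_nonneg (by positivity) (h0 _)) (fun K => ?_) hb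
    exact mul_le_of_le_one_right (by positivity) (h1 _)
  have := ((tendsto_const_nhds (x := B m)).sub ha').add hb'
  simpa using this

theorem seq_main (A B : ℕ → ℝ) (hA0 : ∀ k, 0 ≤ A k) (hB0 : ∀ k, 0 ≤ B k) (hB1 : ∀ k, B k ≤ 1)
    (hS : ∀ K, ∑ k ∈ Finset.range K, A k ≤ 1)
    (hr : ∀ k, A k = (if k = 0 then 1 else 0) + B k - B (k + 1) + B (k + 2) / 4) :
    B 0 = 0 ∧ A 0 + A 1 = 1 ∧ (∀ k, 2 ≤ k → B k = 0) := by
  set R : ℕ → ℝ := fun K => B 0 - ((K : ℝ) + 1) / 2 ^ K * B (0 + K) +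
      (K : ℝ) / 2 ^ (K + 1) * B (0 + K + 1) with hR
  have hRl : Tendsto R atTop (𝓝 (B 0)) := tail_zero B hB0 hB1 0
  -- weighted sums
  have hw : ∀ K, 1 ≤ K → ∑ k ∈ Finset.range K, ((k : ℝ) + 1) / 2 ^ k * A k = 1 + R K := by
    intro K hK
    have h1 := telescope B 0 K
    rw [hR]
    show _ = 1 + (B 0 - ((K : ℝ) + 1) / 2 ^ K * B (0 + K) +
      (K : ℝ) / 2 ^ (K + 1) * B (0 + K + 1))
    rw [← h1]
    have h2 : ∑ k ∈ Finset.range K, ((k : ℝ) + 1) / 2 ^ k * A k =
        ∑ k ∈ Finset.range K, ((if k = 0 then (1:ℝ) else 0) + ((k : ℝ) + 1) / 2 ^ k *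
      (B (0 + k) - B (0 + k + 1) + B (0 + k + 2) / 4)) := by
      refine Finset.sum_congr rfl fun k _ => ?_
      rw [hr k, zero_add]
      by_cases hk : k = 0
      · subst hk; simp; ring
      · simp [hk]
    rw [h2, Finset.sum_add_distrib, Finset.sum_ite_eq']
    simp [show 0 < K from hK]
  -- comparison
  have hcmp : ∀ m, 2 ≤ m → ∀ K, m < K → 1 + R K ≤ 1 - A m / 4 := by
    intro m hm K hK
    rw [← hw K (by omega)]
    have h1 : ∀ k ∈ Finset.range K, ((k : ℝ) + 1) / 2 ^ k * A k ≤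
        A k - (if k = m then A m / 4 else 0) := by
      intro k _
      have hw1 : ((k : ℝ) + 1) / 2 ^ k ≤ 1 := by
        rw [div_le_one (by positivity)]
        have : k + 1 ≤ 2 ^ k := Nat.lt_two_pow_self
        exact_mod_cast this
      by_cases hkm : k = m
      · subst hkm
        rw [if_pos rfl]
        have hw2 : ((k : ℝ) + 1) / 2 ^ k ≤ 3/4 := by
          obtain ⟨j, rfl⟩ := Nat.exists_eq_add_of_le hm
          rw [div_le_iff₀ (by positivity)]
          have : j + 1 ≤ 2 ^ j := Nat.lt_two_pow_self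
          have h3 : ((j : ℝ) + 1) ≤ 2 ^ j := by exact_mod_cast this
          push_cast
          rw [pow_add]
          nlinarith
        nlinarith [hA0 k]
      · rw [if_neg hkm, sub_zero]
        exact mul_le_of_le_one_left (hA0 k) hw1
    refine (Finset.sum_le_sum h1).trans ?_
    rw [Finset.sum_sub_distrib, Finset.sum_ite_eq']
    rw [if_pos (Finset.mem_range.2 hK)]
    linarith [hS K]
  have hlim : ∀ m, 2 ≤ m → 1 + B 0 ≤ 1 - A m / 4 := by
    intro m hm
    have h1 : Tendsto (fun K => 1 + R K) atTop (𝓝 (1 + B 0)) := hRl.const_add 1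
    refine le_of_tendsto h1 ?_
    filter_upwards [eventually_gt_atTop m] with K hK
    exact hcmp m hm K hK
  have hB00 : B 0 = 0 := by
    have := hlim 2 le_rfl
    have := hA0 2; have := hB0 0
    linarith
  have hAm : ∀ m, 2 ≤ m → A m = 0 := by
    intro m hm
    have := hlim m hm
    have := hA0 m; have := hB0 0
    linarith
  refine ⟨hB00, ?_, ?_⟩
  · -- `A 0 + A 1 = 1 + R K` for `K ≥ 2`
    have h1 : ∀ K, 2 ≤ K → A 0 + A 1 = 1 + R K := by
      intro K hK
      rw [← hw K (by omega)]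
      obtain ⟨j, rfl⟩ := Nat.exists_eq_add_of_le hK
      rw [show 2 + j = j + 2 by ring, Finset.sum_range_succ', Finset.sum_range_succ']
      have : ∑ k ∈ Finset.range j, (((k + 1 + 1 : ℕ) : ℝ) + 1) / 2 ^ (k + 1 + 1) * A (k + 1 + 1) = 0 :=
        Finset.sum_eq_zero fun k _ => by rw [hAm (k + 1 + 1) (by omega), mul_zero]
      rw [this]
      norm_num
      ring
    have h2 : Tendsto (fun K => 1 + R K) atTop (𝓝 (1 + B 0)) := hRl.const_add 1
    have h3 : Tendsto (fun K => 1 + R K) atTop (𝓝 (A 0 + A 1)) := by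
      refine tendsto_const_nhds.congr' ?_
      filter_upwards [eventually_ge_atTop 2] with K hK
      exact h1 K hK
    have := tendsto_nhds_unique h3 h2
    rw [this, hB00, add_zero]
  · intro m hm
    have h1 := tail_zero B hB0 hB1 m
    have h2 : ∀ K : ℕ, B m - ((K : ℝ) + 1) / 2 ^ K * B (m + K) +
      (K : ℝ) / 2 ^ (K + 1) * B (m + K + 1) = 0 := by
      intro K
      rw [← telescope B m K]
      refine Finset.sum_eq_zero fun k _ => ?_
      have h3 := hr (m + k)
      rw [hAm (m + k) (by omega), if_neg (by omega : m + k ≠ 0), zero_add] at h3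
      rw [← h3, mul_zero]
    simp only [h2] at h1
    exact (tendsto_nhds_unique h1 tendsto_const_nhds)

end Q87.KerSeq
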