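import Pool.Agent.Q87.KerPSD
import Pool.Agent.Q87.KerSeq

/-! Fourier modes on circles close to the boundary of the disc of radius `1/√2`. -/

set_option autoImplicit false

open scoped ComplexConjugate ComplexOrder
open Filter Topology

namespace Q87.KerLim

open Q87.Ker

/-- the disc of radius `1/√2` -/
abbrev D : Type := Metric.ball (0:ℂ) (1 / Real.sqrt 2)

/-- a nonprincipal ultrafilter -/
noncomputable def UU : Ultrafilter ℕ := hyperfilter ℕ

instance : (UU : Filter ℕ).NeBot := UU.neBot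

theorem UU_le : (UU : Filter ℕ) ≤ atTop := Nat.hyperfilter_le_atTop

/-- ultralimit -/
noncomputable def ul (u : ℕ → ℂ) : ℂ := limUnder (UU : Filter ℕ) u

theorem tendsto_ul (u : ℕ → ℂ) (C : ℝ) (h : ∀ j, ‖u j‖ ≤ C) :
    Tendsto u (UU : Filter ℕ) (𝓝 (ul u)) := by
  have hc := isCompact_closedBall (0:ℂ) C
  have h1 : ((UU.map u : Ultrafilter ℂ) : Filter ℂ) ≤ 𝓟 (Metric.closedBall (0:ℂ) C) := by
    rw [Ultrafilter.coe_map]
    refine le_principal_iff.2 ?_
    refine Filter.mem_map.2 (Filter.Eventually.of_forall fun j => ?_)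
    exact mem_closedBall_zero_iff.2 (h j)
  obtain ⟨x, -, hx⟩ := hc.ultrafilter_le_nhds _ h1
  have h2 : Tendsto u (UU : Filter ℕ) (𝓝 x) := by
    rw [Ultrafilter.coe_map] at hx; exact hx
  exact tendsto_nhds_limUnder ⟨x, h2⟩

/-- squared radii -/
noncomputable def rho (j : ℕ) : ℝ := 1 / 2 - 1 / (2 * (j + 2))
/-- number of points -/
def nn (j : ℕ) : ℕ := j + 4

theorem nn_pos (j : ℕ) : 0 < nn j := Nat.succ_pos _
theorem nn_ne (j : ℕ) : (nn j : ℂ) ≠ 0 := Nat.cast_ne_zero.2 (nn_pos j).ne'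

theorem rho_pos (j : ℕ) : 0 < rho j := by
  rw [rho, sub_pos, div_lt_div_iff_of_pos_left (by norm_num) (by positivity) (by norm_num)]
  have : (0:ℝ) ≤ j := Nat.cast_nonneg j
  linarith

theorem rho_lt (j : ℕ) : rho j < 1 / 2 := by
  rw [rho]
  have : (0:ℝ) < 1 / (2 * (j + 2)) := by positivity
  linarith

/-- radius -/
noncomputable def rr (j : ℕ) : ℝ := Real.sqrt (rho j)

theorem rr_sq (j : ℕ) : rr j * rr j = rho j := Real.mul_self_sqrt (rho_pos j).le
theorem rr_pos (j : ℕ) : 0 < rr j := Real.sqrt_pos.2 (rho_pos j)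

theorem rr_lt (j : ℕ) : rr j < 1 / Real.sqrt 2 := by
  rw [rr, one_div, ← Real.sqrt_inv]
  apply Real.sqrt_lt_sqrt (rho_pos j).le
  have := rho_lt j
  linarith

/-- root of unity -/
noncomputable def om (j : ℕ) : ℂ := Complex.exp (2 * Real.pi * Complex.I / (nn j : ℂ))

theorem om_prim (j : ℕ) : IsPrimitiveRoot (om j) (nn j) :=
  Complex.isPrimitiveRoot_exp _ (nn_pos j).ne'

theorem om_ne (j : ℕ) : om j ≠ 0 := (om_prim j).ne_zero (nn_pos j).ne'

theorem om_norm (j : ℕ) : ‖om j‖ = 1 := (om_prim j).norm'_eq_one (nn_pos j).ne'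

theorem conj_om (j : ℕ) : conj (om j) = (om j)⁻¹ := by
  rw [Complex.inv_def, Complex.normSq_eq_norm_sq, om_norm]; simp

theorem conj_om_zpow (j : ℕ) (s : ℤ) : conj ((om j) ^ s) = (om j) ^ (-s) := by
  rw [map_zpow₀, conj_om, inv_zpow, zpow_neg]

/-- points on the circle -/
noncomputable def wp (j : ℕ) (k : ℕ) : D := ⟨(rr j : ℂ) * (om j) ^ (k : ℤ), by
  rw [mem_ball_zero_iff, norm_mul, norm_zpow, om_norm, one_zpow, mul_one, Complex.norm_real,
    Real.norm_eq_abs, abs_of_pos (rr_pos j)]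
  exact rr_lt j⟩

theorem wp_mul (j k l : ℕ) : (wp j k : ℂ) * conj (wp j l : ℂ) =
    (rho j : ℂ) * ((om j) ^ (k : ℤ) * (om j) ^ (-(l : ℤ))) := by
  show (rr j : ℂ) * (om j) ^ (k : ℤ) * conj ((rr j : ℂ) * (om j) ^ (l : ℤ)) = _
  rw [map_mul, conj_om_zpow, Complex.conj_ofReal, ← rr_sq j]
  push_cast; ring

/-- coefficients of the mode vectors -/
noncomputable def cv (j : ℕ) (p : ℤ) (k : ℕ) : ℂ := (om j) ^ (-(p * k)) / nn j

theorem cv_norm (j : ℕ) (p : ℤ) (k : ℕ) : ‖cv j p k‖ = 1 / nn j := by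
  rw [cv, norm_div, norm_zpow, om_norm, one_zpow]; simp

theorem conj_cv (j : ℕ) (p : ℤ) (k : ℕ) : conj (cv j p k) = (om j) ^ (p * k) / nn j := by
  rw [cv, map_div₀, conj_om_zpow, neg_neg]; simp

/-- Fourier coefficient of a kernel -/
noncomputable def hat (j : ℕ) (K : D → D → ℂ) (p q : ℤ) : ℂ :=
  ∑ k : Fin (nn j), ∑ l : Fin (nn j), cv j p k * conj (cv j q l) * K (wp j k) (wp j l)

/-- mixed coefficient -/
noncomputable def hv (j : ℕ) (K : D → D → ℂ) (m : ℤ) (x : D) : ℂ :=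
  ∑ l : Fin (nn j), conj (cv j m l) * K x (wp j l)

/-- the discrete delta -/
noncomputable def dl (j : ℕ) (s : ℤ) : ℂ := ∑ k : Fin (nn j), (om j) ^ (s * (k : ℕ)) / nn j

theorem dl_zero (j : ℕ) : dl j 0 = 1 := by
  simp [dl]
  field_simp [nn_ne j]

theorem dl_eq_zero (j : ℕ) (s : ℤ) (hs : s ≠ 0) (hn : |s| < nn j) : dl j s = 0 := by
  rw [dl, ← Finset.sum_div]
  have h1 : ∑ k : Fin (nn j), (om j) ^ (s * ((k : ℕ) : ℤ)) = ∑ k ∈ Finset.range (nn j), ((om j) ^ s) ^ k := by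
    rw [Finset.sum_range]
    refine Finset.sum_congr rfl fun k _ => ?_
    rw [zpow_mul, zpow_natCast]
  have hne : (om j) ^ s ≠ 1 := by
    intro h
    have := (om_prim j).zpow_eq_one_iff_dvd s |>.1 h
    have h2 := Int.le_of_dvd (abs_pos.2 hs) ((dvd_abs _ _).2 this)
    omega
  rw [h1, geom_sum_eq hne]
  have h2 : ((om j) ^ s) ^ (nn j) = 1 := by
    rw [← zpow_natCast, ← zpow_mul, mul_comm, zpow_mul, zpow_natCast, (om_prim j).pow_eq_one,
      one_zpow]
  rw [h2, sub_self, zero_div, zero_div]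

theorem tendsto_dl (s : ℤ) : Tendsto (fun j => dl j s) (UU : Filter ℕ)
    (𝓝 (if s = 0 then 1 else 0)) := by
  by_cases hs : s = 0
  · subst hs
    simp only [dl_zero, if_true]
    exact tendsto_const_nhds
  · rw [if_neg hs]
    refine tendsto_const_nhds.congr' ?_
    refine Filter.Eventually.filter_mono UU_le ?_
    filter_upwards [eventually_ge_atTop (|s|.toNat)] with j hj
    refine (dl_eq_zero j s hs ?_).symm
    rw [nn]; push_cast
    have := Int.toNat_of_nonneg (abs_nonneg s)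
    omega

theorem tendsto_rho_real : Tendsto rho (UU : Filter ℕ) (𝓝 (1/2)) := by
  have h : Tendsto rho atTop (𝓝 (1/2 - 0)) := by
    unfold rho
    refine tendsto_const_nhds.sub ?_
    have h1 : Tendsto (fun j : ℕ => (2 * ((j:ℝ) + 2))) atTop atTop :=
      (tendsto_natCast_atTop_atTop.atTop_add tendsto_const_nhds).const_mul_atTop two_pos
    exact tendsto_const_nhds.div_atTop h1
  rw [sub_zero] at h
  exact h.mono_left UU_le

theorem tendsto_rho : Tendsto (fun j => ((rho j : ℝ) : ℂ)) (UU : Filter ℕ)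
    (𝓝 (((1/2 : ℝ)) : ℂ)) :=
  (Complex.continuous_ofReal.tendsto _).comp tendsto_rho_real

theorem tendsto_rr : Tendsto (fun j => ((rr j : ℝ) : ℂ)) (UU : Filter ℕ)
    (𝓝 ((Real.sqrt (1/2) : ℝ) : ℂ)) :=
  (Complex.continuous_ofReal.tendsto _).comp
    ((Real.continuous_sqrt.tendsto _).comp tendsto_rho_real)

/-! ### algebra of the coefficients -/

theorem hat_t (j : ℕ) (K : D → D → ℂ) (p q : ℤ) :
    hat j (fun x y => (x : ℂ) * conj (y : ℂ) * K x y) p q = rho j * hat j K (p - 1) (q - 1) := by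
  rw [hat, hat, Finset.mul_sum]
  refine Finset.sum_congr rfl fun k _ => ?_
  rw [Finset.mul_sum]
  refine Finset.sum_congr rfl fun l _ => ?_
  rw [wp_mul, conj_cv, conj_cv, cv, cv]
  have e1 : -((p - 1) * ((k : ℕ) : ℤ)) = -(p * ((k:ℕ):ℤ)) + ((k : ℕ) : ℤ) := by ring
  have e2 : (q - 1) * ((l : ℕ) : ℤ) = q * ((l : ℕ) : ℤ) + -((l : ℕ) : ℤ) := by ring
  rw [e1, e2, zpow_add₀ (om_ne j), zpow_add₀ (om_ne j)]
  ring

theorem hv_t (j : ℕ) (K : D → D → ℂ) (m : ℤ) (x : D) :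
    hv j (fun x y => (x : ℂ) * conj (y : ℂ) * K x y) m x = (x : ℂ) * rr j * hv j K (m - 1) x := by
  rw [hv, hv, Finset.mul_sum]
  refine Finset.sum_congr rfl fun l _ => ?_
  have e0 : conj (wp j l : ℂ) = (rr j : ℂ) * (om j) ^ (-((l : ℕ) : ℤ)) := by
    show conj ((rr j : ℂ) * (om j) ^ (((l : ℕ)) : ℤ)) = _
    rw [map_mul, conj_om_zpow, Complex.conj_ofReal]
  rw [e0, conj_cv, conj_cv]
  have e2 : (m - 1) * ((l : ℕ) : ℤ) = m * ((l : ℕ) : ℤ) + -((l : ℕ) : ℤ) := by ring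
  rw [e2, zpow_add₀ (om_ne j)]
  ring

theorem hat_add (j : ℕ) (K L : D → D → ℂ) (p q : ℤ) :
    hat j (fun x y => K x y + L x y) p q = hat j K p q + hat j L p q := by
  simp only [hat, mul_add, Finset.sum_add_distrib]

theorem hv_add (j : ℕ) (K L : D → D → ℂ) (m : ℤ) (x : D) :
    hv j (fun x y => K x y + L x y) m x = hv j K m x + hv j L m x := by
  simp only [hv, mul_add, Finset.sum_add_distrib]

theorem hat_smul (j : ℕ) (c : ℂ) (K : D → D → ℂ) (p q : ℤ) :
    hat j (fun x y => c * K x y) p q = c * hat j K p q := by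
  simp only [hat, Finset.mul_sum]
  refine Finset.sum_congr rfl fun k _ => Finset.sum_congr rfl fun l _ => ?_
  ring

theorem hv_smul (j : ℕ) (c : ℂ) (K : D → D → ℂ) (m : ℤ) (x : D) :
    hv j (fun x y => c * K x y) m x = c * hv j K m x := by
  simp only [hv, Finset.mul_sum]
  refine Finset.sum_congr rfl fun k _ => ?_
  ring

theorem hat_one (j : ℕ) (p q : ℤ) : hat j (fun _ _ => 1) p q = dl j (-p) * dl j q := by
  rw [hat, dl, dl, Finset.sum_mul_sum]
  refine Finset.sum_congr rfl fun k _ => Finset.sum_congr rfl fun l _ => ?_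
  rw [conj_cv, cv, neg_mul, mul_one]

theorem hv_one (j : ℕ) (m : ℤ) (x : D) : hv j (fun _ _ => 1) m x = dl j m := by
  rw [hv, dl]
  refine Finset.sum_congr rfl fun l _ => ?_
  rw [conj_cv, mul_one]

theorem hat_bound (j : ℕ) (K : D → D → ℂ) (hK : ∀ x y, ‖K x y‖ ≤ 1) (p q : ℤ) :
    ‖hat j K p q‖ ≤ 1 := by
  rw [hat]
  refine (norm_sum_le _ _).trans ?_
  have h1 : ∀ k ∈ (Finset.univ : Finset (Fin (nn j))), ‖∑ l : Fin (nn j),
      cv j p k * conj (cv j q l) * K (wp j k) (wp j l)‖ ≤ 1 / nn j := by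
    intro k _
    refine (norm_sum_le _ _).trans ?_
    have h2 : ∀ l ∈ (Finset.univ : Finset (Fin (nn j))),
        ‖cv j p k * conj (cv j q l) * K (wp j k) (wp j l)‖ ≤ 1 / nn j * (1 / nn j) := by
      intro l _
      rw [norm_mul, norm_mul, RCLike.norm_conj, cv_norm, cv_norm]
      exact mul_le_of_le_one_right (by positivity) (hK _ _)
    refine (Finset.sum_le_sum h2).trans ?_
    rw [Finset.sum_const, Finset.card_univ, Fintype.card_fin, nsmul_eq_mul]
    have : (nn j : ℝ) ≠ 0 := Nat.cast_ne_zero.2 (nn_pos j).ne'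
    field_simp
    exact le_rfl
  refine (Finset.sum_le_sum h1).trans ?_
  rw [Finset.sum_const, Finset.card_univ, Fintype.card_fin, nsmul_eq_mul]
  have : (nn j : ℝ) ≠ 0 := Nat.cast_ne_zero.2 (nn_pos j).ne'
  field_simp
  exact le_rfl

theorem hv_bound (j : ℕ) (K : D → D → ℂ) (hK : ∀ x y, ‖K x y‖ ≤ 1) (m : ℤ) (x : D) :
    ‖hv j K m x‖ ≤ 1 := by
  rw [hv]
  refine (norm_sum_le _ _).trans ?_
  have h2 : ∀ l ∈ (Finset.univ : Finset (Fin (nn j))),
      ‖conj (cv j m l) * K x (wp j l)‖ ≤ 1 / nn j := by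
    intro l _
    rw [norm_mul, RCLike.norm_conj, cv_norm]
    exact mul_le_of_le_one_right (by positivity) (hK _ _)
  refine (Finset.sum_le_sum h2).trans ?_
  rw [Finset.sum_const, Finset.card_univ, Fintype.card_fin, nsmul_eq_mul]
  have : (nn j : ℝ) ≠ 0 := Nat.cast_ne_zero.2 (nn_pos j).ne'
  field_simp
  exact le_rfl


/-- the sum over a full period of modes is the mean of the diagonal -/
theorem hat_trace (j : ℕ) (K : D → D → ℂ) :
    ∑ m ∈ Finset.range (nn j), hat j K (1 - m) (1 - m) =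
      ∑ k : Fin (nn j), K (wp j k) (wp j k) / nn j := by
  simp only [hat]
  rw [Finset.sum_comm]
  refine Finset.sum_congr rfl fun k _ => ?_
  rw [Finset.sum_comm]
  have h1 : ∀ l : Fin (nn j), ∑ m ∈ Finset.range (nn j), cv j (1 - (m:ℤ)) k *
      conj (cv j (1 - (m:ℤ)) l) * K (wp j k) (wp j l) =
      (if k = l then (1:ℂ) else 0) * (K (wp j k) (wp j l) / nn j) := by
    intro l
    have h2 : ∀ m : ℕ, cv j (1 - (m:ℤ)) k * conj (cv j (1 - (m:ℤ)) l) * K (wp j k) (wp j l) =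
        ((om j) ^ ((((k:ℕ):ℤ) - ((l:ℕ):ℤ)) * (m:ℤ)) / nn j) *
        ((om j) ^ (((l:ℕ):ℤ) - ((k:ℕ):ℤ)) * (K (wp j k) (wp j l) / nn j)) := by
      intro m
      rw [conj_cv, cv]
      have e1 : -((1 - (m:ℤ)) * ((k:ℕ):ℤ)) = m * ((k:ℕ):ℤ) + -((k:ℕ):ℤ) := by ring
      have e2 : (1 - (m:ℤ)) * ((l:ℕ):ℤ) = ((l:ℕ):ℤ) + -(m * ((l:ℕ):ℤ)) := by ring
      have e3 : (((k:ℕ):ℤ) - ((l:ℕ):ℤ)) * (m:ℤ) = m * ((k:ℕ):ℤ) + -(m * ((l:ℕ):ℤ)) := by ring
      have e4 : (((l:ℕ):ℤ) - ((k:ℕ):ℤ)) = ((l:ℕ):ℤ) + -((k:ℕ):ℤ) := by ring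
      rw [e1, e2, e3, e4, zpow_add₀ (om_ne j), zpow_add₀ (om_ne j), zpow_add₀ (om_ne j),
        zpow_add₀ (om_ne j)]
      ring
    simp only [h2]
    rw [← Finset.sum_mul]
    have h3 : ∑ m ∈ Finset.range (nn j), (om j) ^ ((((k:ℕ):ℤ) - ((l:ℕ):ℤ)) * (m:ℤ)) / (nn j : ℂ) =
        dl j (((k:ℕ):ℤ) - ((l:ℕ):ℤ)) := by
      rw [Finset.sum_range]; rfl
    rw [h3]
    by_cases hkl : k = l
    · subst hkl
      rw [sub_self, dl_zero, if_pos rfl]
      simp
    · rw [if_neg hkl, dl_eq_zero]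
      · simp
      · intro h
        apply hkl
        ext
        omega
      · have := k.2; have := l.2
        rw [abs_lt]; constructor <;> omega
  simp only [h1]
  simp

theorem hat_trace_le (j : ℕ) (K : D → D → ℂ) (hK : ∀ x y, ‖K x y‖ ≤ 1) :
    (∑ m ∈ Finset.range (nn j), hat j K (1 - m) (1 - m)).re ≤ 1 := by
  rw [hat_trace]
  refine (Complex.re_le_norm _).trans ((norm_sum_le _ _).trans ?_)
  have h2 : ∀ l ∈ (Finset.univ : Finset (Fin (nn j))), ‖K (wp j l) (wp j l) / nn j‖ ≤ 1 / nn j := by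
    intro l _
    rw [norm_div]
    simp only [Complex.norm_natCast]
    exact div_le_div_of_nonneg_right (hK _ _) (by positivity)
  refine (Finset.sum_le_sum h2).trans ?_
  rw [Finset.sum_const, Finset.card_univ, Fintype.card_fin, nsmul_eq_mul]
  have : (nn j : ℝ) ≠ 0 := Nat.cast_ne_zero.2 (nn_pos j).ne'
  field_simp
  exact le_rfl

/-! ### positivity -/

theorem hat_nonneg (j : ℕ) {K : D → D → ℂ} (hK : PSD K) (p : ℤ) : 0 ≤ hat j K p p :=
  hK.form (fun k : Fin (nn j) => wp j k) (fun k => cv j p k)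

theorem hat_cs (j : ℕ) {K : D → D → ℂ} (hK : PSD K) (p q : ℤ) :
    ‖hat j K p q‖ ^ 2 ≤ (hat j K p p).re * (hat j K q q).re :=
  hK.cs (fun k : Fin (nn j) => wp j k) (fun k => cv j p k) (fun k : Fin (nn j) => wp j k)
    (fun k => cv j q k)

theorem hv_cs (j : ℕ) {K : D → D → ℂ} (hK : PSD K) (m : ℤ) (x : D) :
    ‖hv j K m x‖ ^ 2 ≤ (K x x).re * (hat j K m m).re := by
  have := hK.cs (fun _ : Fin 1 => x) (fun _ => 1) (fun k : Fin (nn j) => wp j k)
    (fun k => cv j m k)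
  simpa [hv, hat] using this

/-- point functions of the extended kernel -/
noncomputable def pt (j : ℕ) : D ⊕ ℤ → Option (Fin (nn j)) → D
  | Sum.inl x, _ => x
  | Sum.inr _, some k => wp j k
  | Sum.inr _, none => wp j 0

/-- coefficients of the extended kernel -/
noncomputable def co (j : ℕ) : D ⊕ ℤ → Option (Fin (nn j)) → ℂ
  | Sum.inl _, none => 1
  | Sum.inl _, some _ => 0
  | Sum.inr _, none => 0
  | Sum.inr m, some k => cv j m k

/-- extended kernel -/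
noncomputable def ext (j : ℕ) (K : D → D → ℂ) : D ⊕ ℤ → D ⊕ ℤ → ℂ
  | Sum.inl x, Sum.inl y => K x y
  | Sum.inl x, Sum.inr m => hv j K m x
  | Sum.inr m, Sum.inl y => conj (hv j K m y)
  | Sum.inr p, Sum.inr q => hat j K p q

theorem ext_psd (j : ℕ) {K : D → D → ℂ} (hK : PSD K) : PSD (ext j K) := by
  have h := hK.push (pt j) (co j)
  convert h using 3 with u v
  rcases u with x | p <;> rcases v with y | q
  · simp [ext, Fintype.sum_option, pt, co]
  · simp [ext, Fintype.sum_option, pt, co, hv]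
  · simp only [ext, Fintype.sum_option, pt, co, hv, map_sum, map_mul, Complex.conj_conj]
    simp
    refine Finset.sum_congr rfl fun l _ => ?_
    rw [hK.herm y (wp j l)]
  · simp [ext, Fintype.sum_option, pt, co, hat]

end Q87.KerLim
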