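import Pool.Agent.Q87.KerLim

/-! The limit argument. -/

set_option autoImplicit false

open scoped ComplexConjugate ComplexOrder
open Filter Topology

namespace Q87.KerLim

open Q87.Ker

section

variable {F H : D → D → ℂ} (hF : PSD F) (hH : PSD H) (hF1 : ∀ x, (F x x).re < 1)
  (hH1 : ∀ x, (H x x).re < 1)
  (hrel : ∀ x y : D, F x y = 2 * ((x : ℂ) * conj (y : ℂ)) - ((x : ℂ) * conj (y : ℂ)) ^ 2 +
    (1 - (x : ℂ) * conj (y : ℂ)) ^ 2 * H x y)

include hrel in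
theorem rel_hat (j : ℕ) (p q : ℤ) : hat j F p q =
    2 * (rho j * (dl j (-(p - 1)) * dl j (q - 1))) -
    rho j * (rho j * (dl j (-(p - 1 - 1)) * dl j (q - 1 - 1))) + hat j H p q
    - 2 * (rho j * hat j H (p - 1) (q - 1)) +
    rho j * (rho j * hat j H (p - 1 - 1) (q - 1 - 1)) := by
  have h1 : F = fun x y : D => (2 * ((x : ℂ) * conj (y : ℂ) * 1)) +
      ((-1) * ((x : ℂ) * conj (y : ℂ) * ((x : ℂ) * conj (y : ℂ) * 1)) + (H x y +
      ((-2) * ((x : ℂ) * conj (y : ℂ) * H x y) +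
      ((x : ℂ) * conj (y : ℂ) * ((x : ℂ) * conj (y : ℂ) * H x y))))) := by
    funext x y; rw [hrel]; ring
  rw [h1, hat_add, hat_add, hat_add, hat_add, hat_smul, hat_smul, hat_smul]
  rw [hat_t j (fun _ _ => 1), hat_t j (fun x y : D => (x : ℂ) * conj (y : ℂ) * 1),
    hat_t j (fun _ _ => 1), hat_t j H, hat_t j (fun x y : D => (x : ℂ) * conj (y : ℂ) * H x y),
    hat_t j H, hat_one, hat_one]
  ring

include hrel in
theorem rel_hv (j : ℕ) (m : ℤ) (x : D) : hv j F m x =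
    2 * ((x : ℂ) * rr j * dl j (m - 1)) -
    (x : ℂ) * rr j * ((x : ℂ) * rr j * dl j (m - 1 - 1)) + hv j H m x
    - 2 * ((x : ℂ) * rr j * hv j H (m - 1) x) +
    (x : ℂ) * rr j * ((x : ℂ) * rr j * hv j H (m - 1 - 1) x) := by
  have h1 : F = fun x y : D => (2 * ((x : ℂ) * conj (y : ℂ) * 1)) +
      ((-1) * ((x : ℂ) * conj (y : ℂ) * ((x : ℂ) * conj (y : ℂ) * 1)) + (H x y +
      ((-2) * ((x : ℂ) * conj (y : ℂ) * H x y) +
      ((x : ℂ) * conj (y : ℂ) * ((x : ℂ) * conj (y : ℂ) * H x y))))) := by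
    funext x y; rw [hrel]; ring
  rw [h1, hv_add, hv_add, hv_add, hv_add, hv_smul, hv_smul, hv_smul]
  rw [hv_t j (fun _ _ => 1), hv_t j (fun x y : D => (x : ℂ) * conj (y : ℂ) * 1),
    hv_t j (fun _ _ => 1), hv_t j H, hv_t j (fun x y : D => (x : ℂ) * conj (y : ℂ) * H x y),
    hv_t j H, hv_one, hv_one]
  ring

/-- limit coefficients -/
noncomputable def LH (K : D → D → ℂ) (p q : ℤ) : ℂ := ul fun j => hat j K p q
/-- limit mixed coefficients -/
noncomputable def LV (K : D → D → ℂ) (m : ℤ) (x : D) : ℂ := ul fun j => hv j K m x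

theorem bound_one {K : D → D → ℂ} (hK : PSD K) (hK1 : ∀ x, (K x x).re < 1) (x y : D) :
    ‖K x y‖ ≤ 1 := (hK.norm_lt hK1 x y).le

theorem tendsto_LH {K : D → D → ℂ} (hK : PSD K) (hK1 : ∀ x, (K x x).re < 1) (p q : ℤ) :
    Tendsto (fun j => hat j K p q) (UU : Filter ℕ) (𝓝 (LH K p q)) :=
  tendsto_ul _ 1 fun j => hat_bound j K (bound_one hK hK1) p q

theorem tendsto_LV {K : D → D → ℂ} (hK : PSD K) (hK1 : ∀ x, (K x x).re < 1) (m : ℤ) (x : D) :
    Tendsto (fun j => hv j K m x) (UU : Filter ℕ) (𝓝 (LV K m x)) :=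
  tendsto_ul _ 1 fun j => hv_bound j K (bound_one hK hK1) m x

theorem LH_nonneg {K : D → D → ℂ} (hK : PSD K) (hK1 : ∀ x, (K x x).re < 1) (p : ℤ) :
    0 ≤ LH K p p := ge_of_tendsto' (tendsto_LH hK hK1 p p) fun j => hat_nonneg j hK p

theorem LH_cs {K : D → D → ℂ} (hK : PSD K) (hK1 : ∀ x, (K x x).re < 1) (p q : ℤ) :
    ‖LH K p q‖ ^ 2 ≤ (LH K p p).re * (LH K q q).re := by
  have h1 : Tendsto (fun j => ‖hat j K p q‖ ^ 2) (UU : Filter ℕ) (𝓝 (‖LH K p q‖ ^ 2)) :=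
    ((continuous_norm.tendsto _).comp (tendsto_LH hK hK1 p q)).pow 2
  have h2 : Tendsto (fun j => (hat j K p p).re * (hat j K q q).re) (UU : Filter ℕ)
      (𝓝 ((LH K p p).re * (LH K q q).re)) :=
    ((Complex.continuous_re.tendsto _).comp (tendsto_LH hK hK1 p p)).mul
      ((Complex.continuous_re.tendsto _).comp (tendsto_LH hK hK1 q q))
  exact le_of_tendsto_of_tendsto' h1 h2 fun j => hat_cs j hK p q

theorem LV_cs {K : D → D → ℂ} (hK : PSD K) (hK1 : ∀ x, (K x x).re < 1) (m : ℤ) (x : D) :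
    ‖LV K m x‖ ^ 2 ≤ (K x x).re * (LH K m m).re := by
  have h1 : Tendsto (fun j => ‖hv j K m x‖ ^ 2) (UU : Filter ℕ) (𝓝 (‖LV K m x‖ ^ 2)) :=
    ((continuous_norm.tendsto _).comp (tendsto_LV hK hK1 m x)).pow 2
  have h2 : Tendsto (fun j => (K x x).re * (hat j K m m).re) (UU : Filter ℕ)
      (𝓝 ((K x x).re * (LH K m m).re)) :=
    ((Complex.continuous_re.tendsto _).comp (tendsto_LH hK hK1 m m)).const_mul _
  exact le_of_tendsto_of_tendsto' h1 h2 fun j => hv_cs j hK m x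

/-- indicator of zero -/
noncomputable def de (s : ℤ) : ℂ := if s = 0 then 1 else 0

theorem LH_rel (hF : PSD F) (hH : PSD H) (hF1 : ∀ x, (F x x).re < 1)
    (hH1 : ∀ x, (H x x).re < 1)
    (hrel : ∀ x y : D, F x y = 2 * ((x : ℂ) * conj (y : ℂ)) - ((x : ℂ) * conj (y : ℂ)) ^ 2 +
      (1 - (x : ℂ) * conj (y : ℂ)) ^ 2 * H x y) (p q : ℤ) :
    LH F p q = de (-(p - 1)) * de (q - 1) - 1 / 4 * (de (-(p - 1 - 1)) * de (q - 1 - 1)) +
      LH H p q - LH H (p - 1) (q - 1) + 1 / 4 * LH H (p - 1 - 1) (q - 1 - 1) := by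
  have hr := tendsto_rho
  have h1 : Tendsto (fun j => hat j F p q) (UU : Filter ℕ)
      (𝓝 (2 * (((1/2:ℝ):ℂ) * (de (-(p - 1)) * de (q - 1))) -
    ((1/2:ℝ):ℂ) * (((1/2:ℝ):ℂ) * (de (-(p - 1 - 1)) * de (q - 1 - 1))) + LH H p q
    - 2 * (((1/2:ℝ):ℂ) * LH H (p - 1) (q - 1)) +
    ((1/2:ℝ):ℂ) * (((1/2:ℝ):ℂ) * LH H (p - 1 - 1) (q - 1 - 1)))) := by
    simp only [rel_hat hrel]
    have a1 := (tendsto_dl (-(p - 1))).mul (tendsto_dl (q - 1))
    have a2 := (tendsto_dl (-(p - 1 - 1))).mul (tendsto_dl (q - 1 - 1))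
    exact ((((((hr.mul a1).const_mul 2).sub (hr.mul (hr.mul a2))).add
      (tendsto_LH hH hH1 p q)).sub ((hr.mul (tendsto_LH hH hH1 (p - 1) (q - 1))).const_mul 2)).add
      (hr.mul (hr.mul (tendsto_LH hH hH1 (p - 1 - 1) (q - 1 - 1)))))
  rw [tendsto_nhds_unique (tendsto_LH hF hF1 p q) h1]
  push_cast; ring

theorem LV_rel (hF : PSD F) (hH : PSD H) (hF1 : ∀ x, (F x x).re < 1)
    (hH1 : ∀ x, (H x x).re < 1)
    (hrel : ∀ x y : D, F x y = 2 * ((x : ℂ) * conj (y : ℂ)) - ((x : ℂ) * conj (y : ℂ)) ^ 2 +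
      (1 - (x : ℂ) * conj (y : ℂ)) ^ 2 * H x y) (m : ℤ) (x : D) :
    LV F m x = 2 * ((x : ℂ) * ((Real.sqrt (1/2) : ℝ) : ℂ) * de (m - 1)) -
      (x : ℂ) * ((Real.sqrt (1/2) : ℝ) : ℂ) * ((x : ℂ) * ((Real.sqrt (1/2) : ℝ) : ℂ) * de (m - 1 - 1)) +
      LV H m x - 2 * ((x : ℂ) * ((Real.sqrt (1/2) : ℝ) : ℂ) * LV H (m - 1) x) +
      (x : ℂ) * ((Real.sqrt (1/2) : ℝ) : ℂ) *
        ((x : ℂ) * ((Real.sqrt (1/2) : ℝ) : ℂ) * LV H (m - 1 - 1) x) := by
  have hr : Tendsto (fun j => (x : ℂ) * (rr j : ℂ)) (UU : Filter ℕ)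
    (𝓝 ((x : ℂ) * ((Real.sqrt (1/2) : ℝ) : ℂ))) := tendsto_rr.const_mul _
  have h1 : Tendsto (fun j => hv j F m x) (UU : Filter ℕ)
      (𝓝 (2 * ((x : ℂ) * ((Real.sqrt (1/2) : ℝ) : ℂ) * de (m - 1)) -
      (x : ℂ) * ((Real.sqrt (1/2) : ℝ) : ℂ) * ((x : ℂ) * ((Real.sqrt (1/2) : ℝ) : ℂ) * de (m - 1 - 1)) +
      LV H m x - 2 * ((x : ℂ) * ((Real.sqrt (1/2) : ℝ) : ℂ) * LV H (m - 1) x) +
      (x : ℂ) * ((Real.sqrt (1/2) : ℝ) : ℂ) *
        ((x : ℂ) * ((Real.sqrt (1/2) : ℝ) : ℂ) * LV H (m - 1 - 1) x))) := by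
    simp only [rel_hv hrel]
    have a1 := tendsto_dl (m - 1)
    have a2 := tendsto_dl (m - 1 - 1)
    exact ((((((hr.mul a1).const_mul 2).sub (hr.mul (hr.mul a2))).add
      (tendsto_LV hH hH1 m x)).sub ((hr.mul (tendsto_LV hH hH1 (m - 1) x)).const_mul 2)).add
      (hr.mul (hr.mul (tendsto_LV hH hH1 (m - 1 - 1) x))))
  exact tendsto_nhds_unique (tendsto_LV hF hF1 m x) h1

theorem LH_real {K : D → D → ℂ} (hK : PSD K) (hK1 : ∀ x, (K x x).re < 1) (p : ℤ) :
    LH K p p = ((LH K p p).re : ℂ) := by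
  have h := Complex.nonneg_iff.1 (LH_nonneg hK hK1 p)
  exact Complex.ext (by simp) (by simp [← h.2])

/-- The limits of the modes. -/
theorem modes (hF : PSD F) (hH : PSD H) (hF1 : ∀ x, (F x x).re < 1)
    (hH1 : ∀ x, (H x x).re < 1)
    (hrel : ∀ x y : D, F x y = 2 * ((x : ℂ) * conj (y : ℂ)) - ((x : ℂ) * conj (y : ℂ)) ^ 2 +
      (1 - (x : ℂ) * conj (y : ℂ)) ^ 2 * H x y) :
    (LH H 1 1).re = 0 ∧ (LH F 1 1).re + (LH F 0 0).re = 1 ∧ (LH H (-1) (-1)).re = 0 ∧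
      (LH H (-2) (-2)).re = 0 := by
  set A : ℕ → ℝ := fun k => (LH F (1 - (k:ℤ)) (1 - (k:ℤ))).re with hA
  set B : ℕ → ℝ := fun k => (LH H (1 - (k:ℤ)) (1 - (k:ℤ))).re with hB
  have hA0 : ∀ k, 0 ≤ A k := fun k => (Complex.nonneg_iff.1 (LH_nonneg hF hF1 _)).1
  have hB0 : ∀ k, 0 ≤ B k := fun k => (Complex.nonneg_iff.1 (LH_nonneg hH hH1 _)).1
  have hB1 : ∀ k, B k ≤ 1 := by
    intro k
    have h1 := (Complex.continuous_re.tendsto _).comp (tendsto_LH hH hH1 (1 - (k:ℤ)) (1 - (k:ℤ)))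
    exact le_of_tendsto' h1 fun j =>
      (Complex.re_le_norm _).trans (hat_bound j H (bound_one hH hH1) _ _)
  have hS : ∀ K, ∑ k ∈ Finset.range K, A k ≤ 1 := by
    intro K
    have h1 : Tendsto (fun j => ∑ k ∈ Finset.range K, (hat j F (1 - (k:ℤ)) (1 - (k:ℤ))).re)
        (UU : Filter ℕ) (𝓝 (∑ k ∈ Finset.range K, A k)) :=
      tendsto_finsetSum _ fun k _ =>
        (Complex.continuous_re.tendsto _).comp (tendsto_LH hF hF1 (1 - (k:ℤ)) (1 - (k:ℤ)))
    refine le_of_tendsto h1 ?_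
    refine Filter.Eventually.filter_mono UU_le ?_
    filter_upwards [eventually_ge_atTop K] with j hj
    have h2 := hat_trace_le j F (bound_one hF hF1)
    rw [Complex.re_sum] at h2
    refine le_trans ?_ h2
    refine Finset.sum_le_sum_of_subset_of_nonneg ?_ ?_
    · intro k hk
      rw [Finset.mem_range] at hk ⊢
      rw [nn]; omega
    · intro k _ _
      exact (Complex.nonneg_iff.1 (hat_nonneg j hF _)).1
  have hr : ∀ k, A k = (if k = 0 then 1 else 0) + B k - B (k + 1) + B (k + 2) / 4 := by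
    intro k
    have h1 := congrArg Complex.re (LH_rel hF hH hF1 hH1 hrel (1 - (k:ℤ)) (1 - (k:ℤ)))
    have e1 : (1 - (k:ℤ)) - 1 = 1 - ((k + 1 : ℕ) : ℤ) := by push_cast; ring
    have e2 : (1 - ((k + 1 : ℕ) : ℤ)) - 1 = 1 - ((k + 2 : ℕ) : ℤ) := by push_cast; ring
    rw [e1, e2] at h1
    have d2 : de (-(1 - ((k + 2 : ℕ) : ℤ))) = 0 := by
      rw [de, if_neg]; push_cast; omega
    rw [d2] at h1
    have hd : (de (-(1 - ((k + 1 : ℕ) : ℤ))) * de (1 - ((k + 1 : ℕ) : ℤ))).re =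
        if k = 0 then 1 else 0 := by
      by_cases hk : k = 0
      · subst hk; simp [de]
      · have : de (-(1 - ((k + 1 : ℕ) : ℤ))) = 0 := by
          rw [de, if_neg]; push_cast; omega
        rw [this, if_neg hk]; simp
    have h14 : ∀ z : ℂ, (1 / 4 * z).re = z.re / 4 := by
      intro z
      have : (1 / 4 * z : ℂ) = ((1/4 : ℝ) : ℂ) * z := by push_cast; ring
      rw [this, Complex.re_ofReal_mul]; ring
    rw [zero_mul, mul_zero, sub_zero, Complex.add_re, Complex.sub_re, Complex.add_re, hd, h14] at h1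
    exact h1
  obtain ⟨h0, h1, h2⟩ := KerSeq.seq_main A B hA0 hB0 hB1 hS hr
  refine ⟨?_, ?_, ?_, ?_⟩
  · simpa [hB] using h0
  · simpa [hA] using h1
  · have := h2 2 le_rfl
    simpa [hB] using this
  · have := h2 3 (by norm_num)
    simpa [hB] using this


/-- limit of the extended kernels -/
noncomputable def LE (F : D → D → ℂ) : D ⊕ ℤ → D ⊕ ℤ → ℂ
  | Sum.inl x, Sum.inl y => F x y
  | Sum.inl x, Sum.inr m => LV F m x
  | Sum.inr m, Sum.inl y => conj (LV F m y)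
  | Sum.inr p, Sum.inr q => LH F p q

theorem LE_psd (hF : PSD F) (hF1 : ∀ x, (F x x).re < 1) : PSD (LE F) := by
  refine PSD.of_tendsto (l := (UU : Filter ℕ)) (fun j => ext_psd j hF) fun u v => ?_
  rcases u with x | p <;> rcases v with y | q
  · exact tendsto_const_nhds
  · exact tendsto_LV hF hF1 q x
  · exact (Complex.continuous_conj.tendsto _).comp (tendsto_LV hF hF1 p y)
  · exact tendsto_LH hF hF1 p q

theorem norm_zero_of {z : ℂ} {a b : ℝ} (h : ‖z‖ ^ 2 ≤ a * b) (hab : a * b = 0) : z = 0 := by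
  rw [hab] at h
  have : ‖z‖ ^ 2 = 0 := le_antisymm h (sq_nonneg _)
  exact norm_eq_zero.1 (pow_eq_zero_iff two_ne_zero |>.1 this)

theorem core (hF : PSD F) (hH : PSD H) (hF1 : ∀ x, (F x x).re < 1)
    (hH1 : ∀ x, (H x x).re < 1)
    (hrel : ∀ x y : D, F x y = 2 * ((x : ℂ) * conj (y : ℂ)) - ((x : ℂ) * conj (y : ℂ)) ^ 2 +
      (1 - (x : ℂ) * conj (y : ℂ)) ^ 2 * H x y) :
    ∃ (a : ℝ) (g : D → ℂ), a < 1 ∧
      PSD fun x y : D => (1 - 2 * ((x : ℂ) * conj (y : ℂ))) * (g x * conj (g y)) / ((1 - a : ℝ) : ℂ) -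
        (1 - F x y) := by
  obtain ⟨m1, m2, m3, m4⟩ := modes hF hH hF1 hH1 hrel
  set a : ℝ := (LH F 0 0).re with ha
  set b : ℝ := (LH F 1 1).re with hb
  have hab : b + a = 1 := m2
  have ha0 : 0 ≤ a := (Complex.nonneg_iff.1 (LH_nonneg hF hF1 0)).1
  have hb0 : 0 ≤ b := (Complex.nonneg_iff.1 (LH_nonneg hF hF1 1)).1
  have hLa : LH F 0 0 = (a : ℂ) := LH_real hF hF1 0
  have hLb : LH F 1 1 = (b : ℂ) := LH_real hF hF1 1
  -- vanishing of mixed coefficients
  have z10 : LH H 1 0 = 0 := norm_zero_of (LH_cs hH hH1 1 0) (by rw [m1, zero_mul])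
  have z0 : LH H 0 (-1) = 0 := norm_zero_of (LH_cs hH hH1 0 (-1)) (by rw [m3, mul_zero])
  have z12 : LH H (-1) (-2) = 0 := norm_zero_of (LH_cs hH hH1 (-1) (-2)) (by rw [m3, zero_mul])
  have hv1 : ∀ x, LV H 1 x = 0 := fun x => norm_zero_of (LV_cs hH hH1 1 x) (by rw [m1, mul_zero])
  have hvm1 : ∀ x, LV H (-1) x = 0 := fun x =>
    norm_zero_of (LV_cs hH hH1 (-1) x) (by rw [m3, mul_zero])
  have hvm2 : ∀ x, LV H (-2) x = 0 := fun x =>
    norm_zero_of (LV_cs hH hH1 (-2) x) (by rw [m4, mul_zero])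
  have hF10 : LH F 1 0 = 0 := by
    have h := LH_rel hF hH hF1 hH1 hrel 1 0
    norm_num [de] at h
    rw [h, z10, z0, z12]; ring
  have hF01 : LH F 0 1 = 0 := by
    have := (LE_psd hF hF1).herm (Sum.inr 1) (Sum.inr 0)
    have h2 : LH F 0 1 = conj (LH F 1 0) := this
    rw [h2, hF10, map_zero]
  set s : ℂ := ((Real.sqrt (1/2) : ℝ) : ℂ) with hs
  have hss : s * s = 1 / 2 := by
    rw [hs, ← Complex.ofReal_mul, Real.mul_self_sqrt (by norm_num)]; norm_num
  have hsc : conj s = s := Complex.conj_ofReal _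
  set γ : D → ℂ := fun x => LV F 0 x with hγ
  have hγ0 : ∀ x, LV H 0 x = γ x := by
    intro x
    have h := LV_rel hF hH hF1 hH1 hrel 0 x
    norm_num [de] at h
    rw [hvm1, hvm2] at h
    rw [hγ]
    show _ = LV F 0 x
    rw [h]; ring
  have hγ1 : ∀ x, LV F 1 x = 2 * s * (x : ℂ) * (1 - γ x) := by
    intro x
    have h := LV_rel hF hH hF1 hH1 hrel 1 x
    rw [← hs] at h
    norm_num [de] at h
    rw [hvm1, hv1, hγ0] at h
    rw [h]
    ring
  -- `b > 0`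
  have hbpos : 0 < b := by
    refine lt_of_le_of_ne hb0 fun hb00 => ?_
    have hx : (1/2 : ℂ) ∈ Metric.ball (0:ℂ) (1 / Real.sqrt 2) := by
      rw [mem_ball_zero_iff]
      have h2 : Real.sqrt 2 < 2 := by
        rw [Real.sqrt_lt' (by norm_num)]; norm_num
      have h3 : 0 < Real.sqrt 2 := Real.sqrt_pos.2 (by norm_num)
      have : ‖(1/2:ℂ)‖ = 1/2 := by simp
      rw [this]
      exact one_div_lt_one_div_of_lt h3 h2
    set x : D := ⟨1/2, hx⟩ with hxd
    have h1 : LV F 1 x = 0 := norm_zero_of (LV_cs hF hF1 1 x) (by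
      rw [← hb, ← hb00, mul_zero])
    rw [hγ1] at h1
    have hs0 : s ≠ 0 := by
      intro h0; rw [h0, zero_mul] at hss; norm_num at hss
    have h2 : γ x = 1 := by
      have h3 : (x : ℂ) = 1/2 := rfl
      rw [h3] at h1
      have h4 : 2 * s * (1/2) ≠ 0 := by
        intro h5; apply hs0; linear_combination h5
      have := (mul_eq_zero.1 h1).resolve_left h4
      linear_combination -this
    have h3 := LV_cs hF hF1 0 x
    have h4 : LV F 0 x = 1 := h2
    rw [h4, norm_one, one_pow, ← ha] at h3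
    have h5 : a = 1 := by linarith
    rw [h5, mul_one] at h3
    exact absurd (hF1 x) (not_lt.2 h3)
  have ha1 : a < 1 := by linarith
  refine ⟨a, fun x => 1 - γ x, ha1, ?_⟩
  rw [psd_iff]
  intro n x c
  -- abbreviations
  set S : ℂ := ∑ i, c i with hS
  set Γ : ℂ := ∑ i, c i * γ (x i) with hΓ
  set Z : ℂ := ∑ i, c i * ((x i : ℂ) * (1 - γ (x i))) with hZ
  set Q : ℂ := ∑ i, ∑ j, c i * conj (c j) * F (x i) (x j) with hQ
  set t : ℂ := -(2 * s * Z) / (b : ℂ) with ht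
  have hb' : (b : ℂ) ≠ 0 := by exact_mod_cast hbpos.ne'
  have h1a : ((1 - a : ℝ) : ℂ) = (b : ℂ) := by
    congr 1; linarith
  -- positivity of the extended form
  have hform := (LE_psd hF hF1).form (ι := Fin n ⊕ Bool)
    (Sum.elim (fun i => Sum.inl (x i)) (fun q => Sum.inr (if q then 1 else 0)))
    (Sum.elim c (fun q => if q then t else -S))
  simp only [Fintype.sum_sum_type, Sum.elim_inl, Sum.elim_inr, Fintype.sum_bool,
    Finset.sum_add_distrib, if_true, Bool.false_eq_true, if_false, LE, hLa, hLb, hF10, hF01] at hform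
  have e1 : ∑ i, c i * conj t * LV F 1 (x i) = conj t * (2 * s * Z) := by
    rw [hZ, Finset.mul_sum, Finset.mul_sum]
    refine Finset.sum_congr rfl fun i _ => ?_
    rw [hγ1]; ring
  have e2 : ∑ i, c i * conj (-S) * LV F 0 (x i) = -(conj S * Γ) := by
    rw [hΓ, Finset.mul_sum, ← Finset.sum_neg_distrib (f := fun i => conj S * (c i * γ (x i)))]
    refine Finset.sum_congr rfl fun i _ => ?_
    rw [map_neg]; ring
  have e3 : ∑ j, t * conj (c j) * conj (LV F 1 (x j)) = t * conj (2 * s * Z) := by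
    rw [hZ, Finset.mul_sum, map_sum, Finset.mul_sum]
    refine Finset.sum_congr rfl fun i _ => ?_
    rw [hγ1]
    simp only [map_mul, map_sub, map_one]
    ring
  have e4 : ∑ j, -S * conj (c j) * conj (LV F 0 (x j)) = -(S * conj Γ) := by
    rw [hΓ, map_sum, Finset.mul_sum,
      ← Finset.sum_neg_distrib (f := fun i => S * conj (c i * γ (x i)))]
    refine Finset.sum_congr rfl fun i _ => ?_
    rw [map_mul]; ring
  rw [e1, e2, e3, e4] at hform
  -- the target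
  have hT : ∑ i, ∑ j, c i * conj (c j) * ((1 - 2 * ((x i : ℂ) * conj (x j : ℂ))) *
      ((1 - γ (x i)) * conj (1 - γ (x j))) / ((1 - a : ℝ) : ℂ) - (1 - F (x i) (x j))) =
      (S - Γ) * conj (S - Γ) / b - 2 * (Z * conj Z) / b - S * conj S + Q := by
    have f1 : (S - Γ) * conj (S - Γ) = ∑ i, ∑ j, c i * conj (c j) *
        ((1 - γ (x i)) * conj (1 - γ (x j))) := by
      have : S - Γ = ∑ i, c i * (1 - γ (x i)) := by
        rw [hS, hΓ, ← Finset.sum_sub_distrib]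
        refine Finset.sum_congr rfl fun i _ => ?_
        ring
      rw [this, map_sum, Finset.sum_mul_sum]
      refine Finset.sum_congr rfl fun i _ => Finset.sum_congr rfl fun j _ => ?_
      rw [map_mul]; ring
    have f2 : Z * conj Z = ∑ i, ∑ j, c i * conj (c j) *
        (((x i : ℂ) * conj (x j : ℂ)) * ((1 - γ (x i)) * conj (1 - γ (x j)))) := by
      rw [hZ, map_sum, Finset.sum_mul_sum]
      refine Finset.sum_congr rfl fun i _ => Finset.sum_congr rfl fun j _ => ?_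
      rw [map_mul, map_mul]; ring
    have f3 : S * conj S = ∑ i, ∑ j, c i * conj (c j) := by
      rw [hS, map_sum, Finset.sum_mul_sum]
    rw [f1, f2, f3, hQ, h1a, Finset.sum_div, Finset.mul_sum, Finset.sum_div,
      ← Finset.sum_sub_distrib, ← Finset.sum_sub_distrib, ← Finset.sum_add_distrib]
    refine Finset.sum_congr rfl fun i _ => ?_
    rw [Finset.sum_div, Finset.mul_sum, Finset.sum_div,
      ← Finset.sum_sub_distrib, ← Finset.sum_sub_distrib, ← Finset.sum_add_distrib]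
    refine Finset.sum_congr rfl fun j _ => ?_
    ring
  rw [hT]
  -- the difference is a square
  have hdiff : (S - Γ) * conj (S - Γ) / b - 2 * (Z * conj Z) / b - S * conj S + Q =
      (Q + (conj t * (2 * s * Z) + -(conj S * Γ)) +
        ((t * conj (2 * s * Z) + -(S * conj Γ)) +
        (t * conj t * b + t * conj (-S) * 0 + (-S * conj t * 0 + -S * conj (-S) * a)))) +
      (Γ - a * S) * conj (Γ - a * S) / b := by
    have hconjb : conj (b : ℂ) = b := Complex.conj_ofReal _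
    have hconja : conj (a : ℂ) = a := Complex.conj_ofReal _
    have hba : (b : ℂ) = 1 - a := by
      have : b = 1 - a := by linarith
      rw [this]; push_cast; ring
    have ht2 : conj t = -(2 * s * conj Z) / (b : ℂ) := by
      rw [ht, map_div₀, map_neg, map_mul, map_mul, hsc, hconjb, Complex.conj_ofNat]
    rw [ht2, ht]
    simp only [map_mul, map_sub, map_neg, hsc, hconja]
    have h2 : conj (2:ℂ) = 2 := Complex.conj_ofNat 2
    rw [h2]
    field_simp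
    rw [hba]
    linear_combination (4 * Z * conj Z) * hss
  rw [hdiff]
  refine add_nonneg ?_ ?_
  · refine hform.trans_eq ?_
    ring
  · rw [Complex.mul_conj]
    have : ((Complex.normSq (Γ - a * S) : ℝ) : ℂ) / (b : ℂ) =
      ((Complex.normSq (Γ - a * S) / b : ℝ) : ℂ) := by push_cast; ring
    rw [this]
    exact_mod_cast div_nonneg (Complex.normSq_nonneg _) hbpos.le

end

end Q87.KerLim
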