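import Pool.Agent.Q87.KerMain

/-! Normalisation of kernels and the minimum certificate. -/

set_option autoImplicit false

open scoped ComplexConjugate ComplexOrder
open Filter Topology

namespace Q87.KerNorm

open Q87.Ker Q87.KerLim

variable {X : Type*}

theorem PSD_congr {K L : X → X → ℂ} (hK : PSD K) (h : ∀ x y, K x y = L x y) : PSD L := by
  have : K = L := by funext x y; exact h x y
  rw [← this]; exact hK

/-- Schur complement at a point. -/
theorem schur {K : X → X → ℂ} (hK : PSD K) (o : X) (k0 : ℝ) (hk0 : 0 < k0) (ho : K o o = (k0 : ℂ)) :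
    PSD fun x y => K x y - K x o * K o y / (k0 : ℂ) := by
  rw [psd_iff]
  intro n x c
  set P : ℂ := ∑ i, c i * K (x i) o with hP
  have hk : (k0 : ℂ) ≠ 0 := by exact_mod_cast hk0.ne'
  have h := hK.form (ι := Option (Fin n)) (fun q => q.elim o x) (fun q => q.elim (-P / k0) c)
  simp only [Fintype.sum_option, Option.elim, Finset.sum_add_distrib, ho] at h
  have e1 : ∑ j, -P / (k0:ℂ) * conj (c j) * K o (x j) = -P / k0 * conj P := by
    rw [hP, map_sum, Finset.mul_sum]
    refine Finset.sum_congr rfl fun j _ => ?_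
    rw [map_mul, ← hK.herm (x j) o]; ring
  have e2 : ∑ i, c i * conj (-P / (k0:ℂ)) * K (x i) o = -(conj P) / k0 * P := by
    have : conj (-P / (k0:ℂ)) = -(conj P) / k0 := by
      rw [map_div₀, map_neg, Complex.conj_ofReal]
    rw [this]
    nth_rewrite 3 [hP]
    rw [Finset.mul_sum]
    refine Finset.sum_congr rfl fun j _ => ?_
    ring
  rw [e1, e2] at h
  have e3 : ∑ i, ∑ j, c i * conj (c j) * (K (x i) (x j) - K (x i) o * K o (x j) / (k0:ℂ)) =
      (∑ i, ∑ j, c i * conj (c j) * K (x i) (x j)) - P * conj P / k0 := by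
    have : P * conj P / k0 = ∑ i, ∑ j, c i * conj (c j) * (K (x i) o * K o (x j) / (k0:ℂ)) := by
      rw [hP, map_sum, Finset.sum_mul_sum, Finset.sum_div]
      refine Finset.sum_congr rfl fun i _ => ?_
      rw [Finset.sum_div]
      refine Finset.sum_congr rfl fun j _ => ?_
      rw [map_mul, ← hK.herm (x j) o]; ring
    rw [this, ← Finset.sum_sub_distrib]
    refine Finset.sum_congr rfl fun i _ => ?_
    rw [← Finset.sum_sub_distrib]
    refine Finset.sum_congr rfl fun j _ => ?_
    ring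
  rw [e3]
  refine h.trans_eq ?_
  have : conj (-P / (k0:ℂ)) = -(conj P) / k0 := by
    rw [map_div₀, map_neg, Complex.conj_ofReal]
  rw [this]
  field_simp
  ring

/-- the normalised kernel -/
noncomputable def nk (K : X → X → ℂ) (o : X) (x y : X) : ℂ :=
  1 - (1 - K x y) * (1 - K o o) / ((1 - K x o) * (1 - K o y))

theorem nk_psd {K : X → X → ℂ} (hK : PSD K) (h1 : ∀ x, (K x x).re < 1) (o : X) :
    PSD (nk K o) := by
  have hne := one_sub_ne hK h1
  -- the numerator
  have hnum : PSD fun x y => (1 - K x o) * (1 - K o y) - (1 - K x y) * (1 - K o o) := by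
    set k0 : ℝ := (K o o).re with hk0
    have ho : K o o = (k0 : ℂ) := hK.diag_real o
    have hk00 : 0 ≤ k0 := (Complex.nonneg_iff.1 (hK.diag_nonneg o)).1
    rcases hk00.eq_or_lt with h0 | hpos
    · have hz : ∀ x, K x o = 0 := fun x => norm_zero_of (hK.cs_pt x o) (by
        rw [← hk0, ← h0, mul_zero])
      have hz' : ∀ x, K o x = 0 := fun x => by rw [hK.herm x o, hz, map_zero]
      refine PSD_congr hK fun x y => ?_
      rw [hz, hz', hz]; ring
    · have a1 := (PSD.dyad (fun x => K x o - k0)).smul (1 / k0) (by positivity)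
      have a2 := (schur hK o k0 hpos ho).smul (1 - k0) (by linarith [h1 o])
      refine PSD_congr (a1.add a2) fun x y => ?_
      have hk : (k0 : ℂ) ≠ 0 := by exact_mod_cast hpos.ne'
      rw [map_sub, Complex.conj_ofReal, ← hK.herm y o, ho]
      push_cast
      field_simp
      ring
  refine PSD_congr (hnum.conj_mul fun x => (1 - K x o)⁻¹) fun x y => ?_
  have e1 : conj ((1 - K y o)⁻¹) = (1 - K o y)⁻¹ := by
    rw [map_inv₀, map_sub, map_one, ← hK.herm y o]
  rw [e1, nk]
  have n1 := hne x o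
  have n2 := hne o y
  field_simp

theorem nk_diag {K : X → X → ℂ} (hK : PSD K) (h1 : ∀ x, (K x x).re < 1) (o x : X) :
    (nk K o x x).re < 1 := by
  have hne := one_sub_ne hK h1
  have e1 : (1 - K o x) = conj (1 - K x o) := by
    rw [map_sub, map_one, ← hK.herm x o]
  have e2 : nk K o x x = 1 - (((1 - (K x x).re) * (1 - (K o o).re) /
      Complex.normSq (1 - K x o) : ℝ) : ℂ) := by
    rw [nk, e1, Complex.mul_conj, hK.diag_real x, hK.diag_real o]
    push_cast
    simp
  rw [e2, Complex.sub_re, Complex.ofReal_re, Complex.one_re]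
  have h2 : 0 < Complex.normSq (1 - K x o) := Complex.normSq_pos.2 (hne x o)
  have h3 : 0 < (1 - (K x x).re) * (1 - (K o o).re) / Complex.normSq (1 - K x o) :=
    div_pos (mul_pos (by linarith [h1 x]) (by linarith [h1 o])) h2
  linarith

theorem nk_spec {K : X → X → ℂ} (hK : PSD K) (h1 : ∀ x, (K x x).re < 1) (o x y : X) :
    1 - K x y = (1 - nk K o x y) * ((1 - K x o) * (1 - K o y)) / (1 - K o o) := by
  have hne := one_sub_ne hK h1
  have n1 := hne x o
  have n2 := hne o y
  have n3 := hne o o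
  rw [nk]
  field_simp
  ring

theorem nk_base {K : X → X → ℂ} (hK : PSD K) (h1 : ∀ x, (K x x).re < 1) (o x : X) :
    nk K o x o = 0 := by
  have hne := one_sub_ne hK h1
  have n1 := hne x o
  have n3 := hne o o
  rw [nk]
  field_simp
  ring

/-- the kernel `z w̄` -/
noncomputable def tk (x y : D) : ℂ := (x : ℂ) * conj (y : ℂ)

theorem tk_psd : PSD tk := PSD.dyad fun x : D => (x : ℂ)

theorem tk_diag (x : D) : 2 * (tk x x).re < 1 := by
  have hx := mem_ball_zero_iff.1 x.2
  rw [tk, Complex.mul_conj, Complex.ofReal_re, Complex.normSq_eq_norm_sq]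
  have h2 : ‖(x:ℂ)‖ ^ 2 < (1 / Real.sqrt 2) ^ 2 :=
    pow_lt_pow_left₀ hx (norm_nonneg _) two_ne_zero
  rw [div_pow, one_pow, Real.sq_sqrt (by norm_num)] at h2
  linarith

theorem tk2_psd : PSD fun x y => 2 * tk x y := by
  have := tk_psd.smul 2 (by norm_num)
  simpa using this

theorem tk2_diag (x : D) : (2 * tk x x).re < 1 := by
  have : (2 * tk x x : ℂ) = ((2:ℝ):ℂ) * tk x x := by push_cast; ring
  rw [this, Complex.re_ofReal_mul]
  exact tk_diag x

theorem tk_diag1 (x : D) : (tk x x).re < 1 := by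
  have h := tk_diag x
  have h2 := (Complex.nonneg_iff.1 (tk_psd.diag_nonneg x)).1
  linarith

theorem one_sub_tk_ne (x y : D) : 1 - tk x y ≠ 0 := one_sub_ne tk_psd tk_diag1 x y
theorem one_sub_tk2_ne (x y : D) : 1 - 2 * tk x y ≠ 0 := one_sub_ne tk2_psd tk2_diag x y

/-- the key positivity -/
theorem key {F H : D → D → ℂ} (hF : PSD F) (hH : PSD H) (hF1 : ∀ x, (F x x).re < 1)
    (hH1 : ∀ x, (H x x).re < 1)
    (hrel : ∀ x y : D, F x y = 2 * tk x y - tk x y ^ 2 + (1 - tk x y) ^ 2 * H x y) :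
    PSD fun x y => (1 - 2 * tk x y) / (1 - F x y) := by
  obtain ⟨a, g, ha, hN⟩ := core hF hH hF1 hH1 hrel
  have hFne := one_sub_ne hF hF1
  have ha' : ((1 - a : ℝ) : ℂ) ≠ 0 := by
    have : 1 - a ≠ 0 := by linarith
    exact_mod_cast this
  -- `g` has no zeros
  have hg : ∀ x, g x ≠ 0 := by
    intro x hx
    have h := hN.diag_nonneg x
    rw [hx] at h
    simp only [zero_mul, mul_zero, zero_div, zero_sub] at h
    have h2 := (Complex.nonneg_iff.1 h).1
    simp at h2
    linarith [hF1 x]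
  have h1 : PSD fun x y => 1 + (1 - F x y)⁻¹ *
      ((1 - 2 * ((x : ℂ) * conj (y : ℂ))) * (g x * conj (g y)) / ((1 - a : ℝ) : ℂ) -
        (1 - F x y)) := PSD.const_one.add ((hF.inv_one_sub hF1).mul hN)
  have h2 := (h1.conj_mul fun x => (g x)⁻¹).smul (1 - a) (by linarith)
  refine PSD_congr h2 fun x y => ?_
  have n1 := hFne x y
  have n2 := hg x
  have n3 : conj (g y) ≠ 0 := (map_ne_zero _).2 (hg y)
  rw [map_inv₀]
  show ((1 - a : ℝ) : ℂ) * ((g x)⁻¹ * (conj (g y))⁻¹ * (1 + (1 - F x y)⁻¹ *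
      ((1 - 2 * tk x y) * (g x * conj (g y)) / ((1 - a : ℝ) : ℂ) -
        (1 - F x y)))) = _
  field_simp
  ring

theorem zero_mem : (0:ℂ) ∈ Metric.ball (0:ℂ) (1 / Real.sqrt 2) := by
  rw [mem_ball_zero_iff, norm_zero]; positivity

/-- the base point -/
noncomputable def oo : D := ⟨0, zero_mem⟩

theorem tk_oo (x : D) : tk x oo = 0 := by
  show (x : ℂ) * conj (0:ℂ) = 0
  simp

/-- Minimality. -/
theorem minimal {s' : D → D → ℂ} {δ : D → ℂ} {F h : D → D → ℂ} (hδ : ∀ z, δ z ≠ 0)
    (hF : PSD F) (hF1 : ∀ x, (F x x).re < 1) (hs : ∀ z w, s' z w = δ z * conj (δ w) / (1 - F z w))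
    (hh : PSD h) (hb : ∀ z w, ((1 - tk z w) ^ 2)⁻¹ = (1 - h z w) * s' z w) :
    PSD fun z w => s' z w * (1 - 2 * tk z w) := by
  have hFne := one_sub_ne hF hF1
  -- `h < 1` on the diagonal
  have hh1 : ∀ x, (h x x).re < 1 := by
    intro x
    have h1 := hb x x
    rw [hs, hh.diag_real x, hF.diag_real x, tk_psd.diag_real x, Complex.mul_conj] at h1
    have h2 : ((((1 - (tk x x).re) ^ 2)⁻¹ : ℝ) : ℂ) =
        (((1 - (h x x).re) * (Complex.normSq (δ x) / (1 - (F x x).re)) : ℝ) : ℂ) := by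
      push_cast
      simpa using h1
    have h3 : ((1 - (tk x x).re) ^ 2)⁻¹ =
        (1 - (h x x).re) * (Complex.normSq (δ x) / (1 - (F x x).re)) := by exact_mod_cast h2
    have h4 : 0 < ((1 - (tk x x).re) ^ 2)⁻¹ := by
      have : 0 < 1 - (tk x x).re := by linarith [tk_diag1 x]
      positivity
    have h5 : 0 < Complex.normSq (δ x) / (1 - (F x x).re) :=
      div_pos (Complex.normSq_pos.2 (hδ x)) (by linarith [hF1 x])
    rw [h3] at h4
    have := pos_of_mul_pos_left h4 h5.le
    linarith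
  have hhne := one_sub_ne hh hh1
  set F' := nk F oo with hF'
  set H' := nk h oo with hH'
  have hF'p : PSD F' := nk_psd hF hF1 oo
  have hH'p : PSD H' := nk_psd hh hh1 oo
  have hF'1 : ∀ x, (F' x x).re < 1 := nk_diag hF hF1 oo
  have hH'1 : ∀ x, (H' x x).re < 1 := nk_diag hh hh1 oo
  have hF'ne := one_sub_ne hF'p hF'1
  set G : D → ℂ := fun x => (1 - h x oo) * δ x / (1 - F x oo) with hG
  set κ : ℂ := (1 - F oo oo) / (1 - h oo oo) with hκ
  have hκ0 : κ ≠ 0 := div_ne_zero (hFne _ _) (hhne _ _)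
  have hG0 : ∀ x, G x ≠ 0 := fun x => div_ne_zero (mul_ne_zero (hhne _ _) (hδ x)) (hFne _ _)
  have hconjG : ∀ y, conj (G y) = (1 - h oo y) * conj (δ y) / (1 - F oo y) := by
    intro y
    rw [hG]
    show conj ((1 - h y oo) * δ y / (1 - F y oo)) = _
    rw [map_div₀, map_mul, map_sub, map_sub, map_one, ← hh.herm y oo, ← hF.herm y oo]
  -- the basic identity
  have hid : ∀ x y, ((1 - tk x y) ^ 2)⁻¹ * (1 - F' x y) = (1 - H' x y) * (G x * conj (G y) * κ) := by
    intro x y
    rw [hb x y, hs x y, nk_spec hh hh1 oo x y, nk_spec hF hF1 oo x y, hconjG]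
    have n1 := hFne x oo
    have n2 := hFne oo y
    have n3 := hFne oo oo
    have n4 := hhne x oo
    have n5 := hhne oo y
    have n6 := hhne oo oo
    have n7 := hF'ne x y
    rw [← hF', ← hH', hG, hκ]
    show _ = (1 - H' x y) * ((1 - h x oo) * δ x / (1 - F x oo) *
      ((1 - h oo y) * conj (δ y) / (1 - F oo y)) * ((1 - F oo oo) / (1 - h oo oo)))
    field_simp
  have hone : ∀ x, G x * conj (G oo) * κ = 1 := by
    intro x
    have h1 := hid x oo
    rw [tk_oo, hF', hH', nk_base hF hF1, nk_base hh hh1] at h1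
    simpa using h1.symm
  have hκc : conj κ = κ := by
    rw [hκ, map_div₀, map_sub, map_sub, map_one, ← hF.herm oo oo, ← hh.herm oo oo]
  have hG1 : ∀ x y, G x * conj (G y) * κ = 1 := by
    intro x y
    have h1 := hone x
    have h2 := hone oo
    have h3 := congrArg conj (hone y)
    rw [map_mul, map_mul, Complex.conj_conj, hκc, map_one] at h3
    -- `G x = G oo`
    have h4 : G x = G oo := by
      have hne : conj (G oo) * κ ≠ 0 := mul_ne_zero ((map_ne_zero _).2 (hG0 oo)) hκ0
      apply mul_right_cancel₀ hne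
      linear_combination h1 - h2
    rw [h4]
    linear_combination h3
  have hrel : ∀ x y : D, F' x y = 2 * tk x y - tk x y ^ 2 + (1 - tk x y) ^ 2 * H' x y := by
    intro x y
    have h1 := hid x y
    rw [hG1, mul_one] at h1
    have n := one_sub_tk_ne x y
    have h2 : (1 - F' x y) = (1 - tk x y) ^ 2 * (1 - H' x y) := by
      rw [← h1]; field_simp
    linear_combination -h2
  have hkey := key hF'p hH'p hF'1 hH'1 hrel
  -- conclusion
  have hpos : 0 ≤ 1 - (F oo oo).re := by linarith [hF1 oo]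
  refine PSD_congr ((hkey.conj_mul fun x => δ x / (1 - F x oo)).smul _ hpos) fun x y => ?_
  rw [hs, nk_spec hF hF1 oo x y, ← hF']
  have n1 := hFne x oo
  have n2 := hFne oo y
  have n3 := hFne oo oo
  have n7 := hF'ne x y
  have e1 : conj (δ y / (1 - F y oo)) = conj (δ y) / (1 - F oo y) := by
    rw [map_div₀, map_sub, map_one, ← hF.herm y oo]
  have e2 : (((1 - (F oo oo).re : ℝ)) : ℂ) = 1 - F oo oo := by
    rw [Complex.ofReal_sub, ← hF.diag_real oo]; simp
  rw [e1, e2]
  field_simp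

/-- The certificate property of `1/(1 - 2 z w̄)`. -/
theorem cert_h : PSD fun x y => tk x y ^ 2 * ((1 - tk x y)⁻¹ * (1 - tk x y)⁻¹) :=
  (tk_psd.pow 2).mul ((tk_psd.inv_one_sub tk_diag1).mul (tk_psd.inv_one_sub tk_diag1))

end Q87.KerNorm
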