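import Mathlib

/-! Positive semidefinite kernels. -/

set_option autoImplicit false

open scoped ComplexConjugate ComplexOrder
open Filter Topology

namespace Q87.Ker

variable {X : Type*}

/-- positive semidefinite kernels -/
def PSD (K : X → X → ℂ) : Prop := (Matrix.of K : Matrix X X ℂ).PosSemidef

/-- the explicit quadratic form condition -/
def FormNonneg (K : X → X → ℂ) : Prop :=
  ∀ (n : ℕ) (x : Fin n → X) (c : Fin n → ℂ), 0 ≤ ∑ i, ∑ j, c i * conj (c j) * K (x i) (x j)

theorem PSD.form {K : X → X → ℂ} (hK : PSD K) {ι : Type*} [Fintype ι] (x : ι → X) (c : ι → ℂ) :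
    0 ≤ ∑ i, ∑ j, c i * conj (c j) * K (x i) (x j) := by
  have h := (Matrix.PosSemidef.submatrix hK x).dotProduct_mulVec_nonneg (fun i => conj (c i))
  have h2 : (star (fun i => conj (c i)) ⬝ᵥ
      (((Matrix.of K).submatrix x x).mulVec fun i => conj (c i))) =
      ∑ i, ∑ j, c i * conj (c j) * K (x i) (x j) := by
    simp only [dotProduct, Matrix.mulVec, Pi.star_apply, Matrix.submatrix_apply, Matrix.of_apply,
      RCLike.star_def, Complex.conj_conj]
    refine Finset.sum_congr rfl fun i _ => ?_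
    rw [Finset.mul_sum]
    refine Finset.sum_congr rfl fun j _ => ?_
    ring
  rw [h2] at h
  exact h

theorem PSD.herm {K : X → X → ℂ} (hK : PSD K) (x y : X) : K y x = conj (K x y) := by
  have := hK.1.apply y x
  simpa using this.symm

theorem herm_of_form {K : X → X → ℂ} (h : FormNonneg K) (x y : X) : K y x = conj (K x y) := by
  have h1 := h 2 ![x, y] ![1, 1]
  have h2 := h 2 ![x, y] ![1, Complex.I]
  have hx := h 1 ![x] ![1]
  have hy := h 1 ![y] ![1]
  simp [Fin.sum_univ_two] at h1 h2 hx hy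
  have e1 := (Complex.nonneg_iff.1 h1).2
  have e2 := (Complex.nonneg_iff.1 h2).2
  have e3 := (Complex.nonneg_iff.1 hx).2
  have e4 := (Complex.nonneg_iff.1 hy).2
  simp at e1 e2
  apply Complex.ext
  · simp; linarith
  · simp; linarith

theorem psd_iff {K : X → X → ℂ} : PSD K ↔ FormNonneg K := by
  constructor
  · intro h n x c; exact h.form x c
  · intro h
    refine ⟨?_, ?_⟩
    · ext x y
      show star (K y x) = K x y
      rw [herm_of_form h y x]; simp
    · intro v
      classical
      have e := v.support.equivFin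
      have h1 := h v.support.card (fun i => ((e.symm i : v.support) : X))
        (fun i => conj (v ((e.symm i : v.support) : X)))
      refine h1.trans_eq ?_
      rw [Finsupp.sum]
      have h2 : ∀ g : X → ℂ, ∑ i : Fin v.support.card, g ((e.symm i : v.support) : X) =
          ∑ a ∈ v.support, g a := by
        intro g
        rw [← Finset.sum_coe_sort v.support g]
        exact Equiv.sum_comp e.symm (fun a : v.support => g a)
      rw [h2 (fun a => ∑ j : Fin v.support.card, conj (v a) *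
        conj (conj (v ((e.symm j : v.support) : X))) * K a ((e.symm j : v.support) : X))]
      refine Finset.sum_congr rfl fun a _ => ?_
      rw [h2 (fun b => conj (v a) * conj (conj (v b)) * K a b), Finsupp.sum]
      refine Finset.sum_congr rfl fun b _ => ?_
      simp only [Complex.conj_conj, Matrix.of_apply, RCLike.star_def]
      ring

theorem PSD.mul {K L : X → X → ℂ} (hK : PSD K) (hL : PSD L) : PSD fun x y => K x y * L x y :=
  Matrix.PosSemidef.hadamard hK hL

theorem PSD.add {K L : X → X → ℂ} (hK : PSD K) (hL : PSD L) : PSD fun x y => K x y + L x y :=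
  Matrix.PosSemidef.add hK hL

theorem PSD.dyad (f : X → ℂ) : PSD fun x y => f x * conj (f y) := by
  rw [psd_iff]
  intro n x c
  have : ∑ i, ∑ j, c i * conj (c j) * (f (x i) * conj (f (x j))) =
      (∑ i, c i * f (x i)) * conj (∑ i, c i * f (x i)) := by
    rw [map_sum, Finset.sum_mul_sum]
    refine Finset.sum_congr rfl fun i _ => Finset.sum_congr rfl fun j _ => ?_
    rw [map_mul]; ring
  rw [this, Complex.mul_conj]
  exact_mod_cast Complex.normSq_nonneg _

theorem PSD.const_one : PSD fun _ _ : X => (1:ℂ) := by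
  have := PSD.dyad (X := X) fun _ => 1
  simpa using this

theorem PSD.conj_mul {K : X → X → ℂ} (hK : PSD K) (f : X → ℂ) :
    PSD fun x y => f x * conj (f y) * K x y := (PSD.dyad f).mul hK

theorem PSD.smul {K : X → X → ℂ} (hK : PSD K) (r : ℝ) (hr : 0 ≤ r) :
    PSD fun x y => (r : ℂ) * K x y := by
  have := hK.conj_mul fun _ => ((Real.sqrt r : ℝ) : ℂ)
  convert this using 3
  rw [Complex.conj_ofReal, ← Complex.ofReal_mul, Real.mul_self_sqrt hr]

theorem PSD.pow {K : X → X → ℂ} (hK : PSD K) (n : ℕ) : PSD fun x y => K x y ^ n := by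
  induction n with
  | zero => simpa using PSD.const_one (X := X)
  | succ n ih =>
    have := ih.mul hK
    simpa [pow_succ] using this

theorem PSD.of_tendsto {ι : Type*} {l : Filter ι} [l.NeBot] {K : ι → X → X → ℂ} {L : X → X → ℂ}
    (h : ∀ i, PSD (K i)) (hl : ∀ x y, Tendsto (fun i => K i x y) l (𝓝 (L x y))) : PSD L := by
  rw [psd_iff]
  intro n x c
  have h1 : Tendsto (fun i => ∑ a, ∑ b, c a * conj (c b) * K i (x a) (x b)) l
      (𝓝 (∑ a, ∑ b, c a * conj (c b) * L (x a) (x b))) :=
    tendsto_finsetSum _ fun a _ => tendsto_finsetSum _ fun b _ => (hl _ _).const_mul _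
  exact ge_of_tendsto' h1 fun i => (psd_iff.1 (h i)) n x c

theorem PSD.diag_nonneg {K : X → X → ℂ} (hK : PSD K) (x : X) : 0 ≤ K x x := by
  have := hK.form (fun _ : Fin 1 => x) (fun _ => 1)
  simpa using this

theorem PSD.diag_real {K : X → X → ℂ} (hK : PSD K) (x : X) : K x x = ((K x x).re : ℂ) := by
  have h := Complex.nonneg_iff.1 (hK.diag_nonneg x)
  exact Complex.ext (by simp) (by simp [← h.2])

/-- Cauchy–Schwarz. -/
theorem PSD.cs {K : X → X → ℂ} (hK : PSD K) {ι κ : Type*} [Fintype ι] [Fintype κ] (x : ι → X)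
    (c : ι → ℂ) (y : κ → X) (d : κ → ℂ) :
    ‖∑ i, ∑ j, c i * conj (d j) * K (x i) (y j)‖ ^ 2 ≤
      (∑ i, ∑ j, c i * conj (c j) * K (x i) (x j)).re *
      (∑ i, ∑ j, d i * conj (d j) * K (y i) (y j)).re := by
  set A := ∑ i, ∑ j, c i * conj (c j) * K (x i) (x j) with hA
  set B := ∑ i, ∑ j, d i * conj (d j) * K (y i) (y j) with hB
  set P := ∑ i, ∑ j, c i * conj (d j) * K (x i) (y j) with hP
  have hA0 : 0 ≤ A := hK.form x c
  have hB0 : 0 ≤ B := hK.form y d
  have hAre : A = (A.re : ℂ) := Complex.ext (by simp) (by simp [← (Complex.nonneg_iff.1 hA0).2])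
  have hBre : B = (B.re : ℂ) := Complex.ext (by simp) (by simp [← (Complex.nonneg_iff.1 hB0).2])
  -- the form at `s c + t d`
  have key : ∀ s t : ℂ, 0 ≤ s * conj s * A + s * conj t * P + t * conj s * conj P +
      t * conj t * B := by
    intro s t
    have h := hK.form (Sum.elim x y) (Sum.elim (fun i => s * c i) (fun j => t * d j))
    simp only [Fintype.sum_sum_type, Sum.elim_inl, Sum.elim_inr, Finset.sum_add_distrib] at h
    have e1 : ∑ i, ∑ j, s * c i * conj (s * c j) * K (x i) (x j) = s * conj s * A := by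
      rw [hA, Finset.mul_sum]
      refine Finset.sum_congr rfl fun i _ => ?_
      rw [Finset.mul_sum]
      refine Finset.sum_congr rfl fun j _ => ?_
      rw [map_mul]; ring
    have e2 : ∑ i, ∑ j, s * c i * conj (t * d j) * K (x i) (y j) = s * conj t * P := by
      rw [hP, Finset.mul_sum]
      refine Finset.sum_congr rfl fun i _ => ?_
      rw [Finset.mul_sum]
      refine Finset.sum_congr rfl fun j _ => ?_
      rw [map_mul]; ring
    have e3 : ∑ i, ∑ j, t * d i * conj (s * c j) * K (y i) (x j) = t * conj s * conj P := by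
      rw [hP, map_sum, Finset.sum_comm, Finset.mul_sum]
      refine Finset.sum_congr rfl fun i _ => ?_
      rw [map_sum, Finset.mul_sum]
      refine Finset.sum_congr rfl fun j _ => ?_
      rw [map_mul, map_mul, map_mul, Complex.conj_conj, hK.herm (x i) (y j)]; ring
    have e4 : ∑ i, ∑ j, t * d i * conj (t * d j) * K (y i) (y j) = t * conj t * B := by
      rw [hB, Finset.mul_sum]
      refine Finset.sum_congr rfl fun i _ => ?_
      rw [Finset.mul_sum]
      refine Finset.sum_congr rfl fun j _ => ?_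
      rw [map_mul]; ring
    rw [e1, e2, e3, e4] at h
    refine h.trans_eq ?_
    ring
  -- specialise
  have hA0' : 0 ≤ A.re := (Complex.nonneg_iff.1 hA0).1
  have hB0' : 0 ≤ B.re := (Complex.nonneg_iff.1 hB0).1
  have hkey2 : ∀ r : ℝ, 0 ≤ r ^ 2 * A.re - 2 * r * ‖P‖ ^ 2 + ‖P‖ ^ 2 * B.re := by
    intro r
    have h := key (r : ℂ) (-P)
    rw [hAre, hBre] at h
    have h2 : (r:ℂ) * conj (r:ℂ) * (A.re : ℂ) + (r:ℂ) * conj (-P) * P + (-P) * conj (r:ℂ) * conj P +
        (-P) * conj (-P) * (B.re : ℂ) =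
        ((r ^ 2 * A.re - 2 * r * ‖P‖ ^ 2 + ‖P‖ ^ 2 * B.re : ℝ) : ℂ) := by
      have h3 : P * conj P = ((‖P‖ ^ 2 : ℝ) : ℂ) := by
        rw [Complex.mul_conj, Complex.normSq_eq_norm_sq]
      rw [Complex.conj_ofReal, map_neg]
      push_cast at h3 ⊢
      linear_combination (-2 * (r:ℂ) + (B.re : ℂ)) * h3
    rw [h2] at h
    exact_mod_cast h
  by_cases hB1 : B.re = 0
  · -- then `P = 0`
    have hP0 : ‖P‖ ^ 2 = 0 := by
      by_contra hne
      have hpos : 0 < ‖P‖ ^ 2 := lt_of_le_of_ne (sq_nonneg _) (Ne.symm hne)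
      have h := hkey2 (‖P‖ ^ 2 / (A.re + 1))
      rw [hB1, mul_zero, add_zero] at h
      have hA1 : 0 < A.re + 1 := by linarith
      have h5 : (‖P‖ ^ 2 / (A.re + 1)) ^ 2 * A.re ≤ (‖P‖ ^ 2 / (A.re + 1)) * ‖P‖ ^ 2 := by
        have h6 : (‖P‖ ^ 2 / (A.re + 1)) * A.re ≤ ‖P‖ ^ 2 := by
          rw [div_mul_eq_mul_div, div_le_iff₀ hA1]; nlinarith
        have h7 : 0 ≤ ‖P‖ ^ 2 / (A.re + 1) := by positivity
        nlinarith
      have h8 : 0 < ‖P‖ ^ 2 / (A.re + 1) * ‖P‖ ^ 2 := by positivity
      nlinarith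
    rw [hP0]; positivity
  · have hBpos : 0 < B.re := lt_of_le_of_ne hB0' (Ne.symm hB1)
    have h := hkey2 B.re
    have h2 : 0 ≤ B.re * (B.re * A.re - ‖P‖ ^ 2) := by nlinarith
    have h3 : 0 ≤ B.re * A.re - ‖P‖ ^ 2 := by
      by_contra hn
      push Not at hn
      nlinarith
    linarith

theorem PSD.cs_pt {K : X → X → ℂ} (hK : PSD K) (x y : X) :
    ‖K x y‖ ^ 2 ≤ (K x x).re * (K y y).re := by
  have := hK.cs (fun _ : Fin 1 => x) (fun _ => 1) (fun _ : Fin 1 => y) (fun _ => 1)
  simpa using this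

theorem PSD.norm_lt {K : X → X → ℂ} (hK : PSD K) (h1 : ∀ x, (K x x).re < 1) (x y : X) :
    ‖K x y‖ < 1 := by
  have h := hK.cs_pt x y
  have hx := (Complex.nonneg_iff.1 (hK.diag_nonneg x)).1
  have hy := (Complex.nonneg_iff.1 (hK.diag_nonneg y)).1
  have h2 : ‖K x y‖ ^ 2 < 1 := by
    have := h1 x; have := h1 y
    nlinarith
  nlinarith [norm_nonneg (K x y)]

theorem one_sub_ne {K : X → X → ℂ} (hK : PSD K) (h1 : ∀ x, (K x x).re < 1) (x y : X) :
    1 - K x y ≠ 0 := by
  intro h
  have h2 := hK.norm_lt h1 x y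
  have : K x y = 1 := by linear_combination -h
  rw [this, norm_one] at h2
  exact lt_irrefl _ h2

theorem PSD.inv_one_sub {K : X → X → ℂ} (hK : PSD K) (h1 : ∀ x, (K x x).re < 1) :
    PSD fun x y => (1 - K x y)⁻¹ := by
  have hsum : ∀ n : ℕ, PSD fun x y => ∑ k ∈ Finset.range n, K x y ^ k := by
    intro n
    induction n with
    | zero =>
      have := (PSD.const_one (X := X)).smul 0 le_rfl
      simpa using this
    | succ n ih =>
      have := ih.add (hK.pow n)
      simpa [Finset.sum_range_succ] using this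
  refine PSD.of_tendsto (l := atTop) hsum fun x y => ?_
  exact (hasSum_geometric_of_norm_lt_one (hK.norm_lt h1 x y)).tendsto_sum_nat

end Q87.Ker

namespace Q87.Ker

variable {X : Type*}

theorem PSD.push {K : X → X → ℂ} (hK : PSD K) {Y κ : Type*} [Fintype κ] (pt : Y → κ → X)
    (co : Y → κ → ℂ) :
    PSD fun u v => ∑ a, ∑ b, co u a * conj (co v b) * K (pt u a) (pt v b) := by
  rw [psd_iff]
  intro n y c
  have h := hK.form (fun q : Fin n × κ => pt (y q.1) q.2) (fun q => c q.1 * co (y q.1) q.2)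
  refine h.trans_eq ?_
  rw [Fintype.sum_prod_type]
  refine Finset.sum_congr rfl fun i _ => ?_
  have h1 : ∀ a : κ, ∑ q : Fin n × κ, c i * co (y i) a * conj (c q.1 * co (y q.1) q.2) *
      K (pt (y i) a) (pt (y q.1) q.2) =
      ∑ j, ∑ b, c i * co (y i) a * conj (c j * co (y j) b) * K (pt (y i) a) (pt (y j) b) := by
    intro a; rw [Fintype.sum_prod_type]
  simp only [h1]
  rw [Finset.sum_comm]
  refine Finset.sum_congr rfl fun j _ => ?_
  rw [Finset.mul_sum]
  refine Finset.sum_congr rfl fun a _ => ?_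
  rw [Finset.mul_sum]
  refine Finset.sum_congr rfl fun b _ => ?_
  rw [map_mul]; ring

end Q87.Ker
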