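import Mathlib
import Pool.Agent.Q87.LipTree

/-!
# Hypercyclic multiples `λ C_φ`, `|λ| ≤ 1`, of composition operators on the little Lipschitz space:
every finite direct sum is topologically transitive
-/

set_option autoImplicit false

open Set Filter Topology

namespace Q87.LipTree

/-- Hypercyclic operators are topologically transitive. -/
lemma trans_of_hypercyclic {X : Type*} [NormedAddCommGroup X] [NormedSpace ℂ X] [Nontrivial X]
    {A : X →L[ℂ] X} (hA : Hypercyclic A) (x y : X) {ε : ℝ} (hε : 0 < ε) :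
    ∃ (n : ℕ) (u : X), ‖u - x‖ < ε ∧ ‖(A ^ n) u - y‖ < ε := by
  obtain ⟨x0, hx0⟩ := hA
  have : ∀ z : X, NeBot (𝓝[≠] z) := fun z => Module.punctured_nhds_neBot ℂ X z
  obtain ⟨_, h1, k, rfl⟩ := Metric.dense_iff.mp hx0 x ε hε
  have hfin : (Set.image (fun n : ℕ => (A ^ n) x0) (Set.Iio k)).Finite :=
    (Set.finite_Iio k).image _
  have hd := hx0.sdiff_finite hfin
  obtain ⟨_, h2, ⟨j, rfl⟩, h3⟩ := Metric.dense_iff.mp hd y ε hε
  have hkj : k ≤ j := by
    by_contra hcon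
    apply h3
    exact ⟨j, by simpa using hcon, rfl⟩
  obtain ⟨n, rfl⟩ := Nat.exists_eq_add_of_le hkj
  refine ⟨n, (A ^ k) x0, ?_, ?_⟩
  · rw [← dist_eq_norm]; exact h1
  · rw [← dist_eq_norm]
    have : (A ^ n) ((A ^ k) x0) = (A ^ (k + n)) x0 := by
      rw [add_comm, pow_add]; rfl
    rw [this]
    exact h2

variable {V : Type*} {T : RTree V}

/-- composition with a Lipschitz function -/
def lipComp (Ψ : ℂ → ℂ) (L : ℝ) (hΨ : ∀ z w, ‖Ψ z - Ψ w‖ ≤ L * ‖z - w‖) (f : LipZero T) :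
    LipZero T :=
  ⟨fun v => Ψ (f v), by
    have h := f.tend.norm.const_mul L
    rw [norm_zero, mul_zero] at h
    exact squeeze_zero_norm (fun v => hΨ _ _) h⟩

lemma lipComp_app (Ψ : ℂ → ℂ) (L : ℝ) (hΨ : ∀ z w, ‖Ψ z - Ψ w‖ ≤ L * ‖z - w‖) (f : LipZero T)
    (v : V) : lipComp Ψ L hΨ f v = Ψ (f v) := rfl

/-- the bump function -/
noncomputable def bump (z c : ℂ) : ℝ := max 0 (1 - ‖z - c‖)

lemma bump_lip (z w c : ℂ) : |bump z c - bump w c| ≤ ‖z - w‖ := by
  unfold bump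
  rw [max_comm 0, max_comm 0]
  refine (abs_max_sub_max_le_abs _ _ _).trans ?_
  have h : (1 - ‖z - c‖) - (1 - ‖w - c‖) = ‖w - c‖ - ‖z - c‖ := by ring
  rw [h]
  refine (abs_norm_sub_norm_le _ _).trans ?_
  rw [norm_sub_rev]
  simp

lemma bump_self (c : ℂ) : bump c c = 1 := by simp [bump]

lemma bump_zero {z c : ℂ} (h : 1 ≤ ‖z - c‖) : bump z c = 0 := by
  unfold bump
  exact max_eq_left (by linarith)

/-- sum of bumps -/
noncomputable def sb (F : Finset V) (g : V → ℂ) (c : V → ℂ) (κ : ℝ) (z : ℂ) : ℂ :=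
  ∑ x ∈ F, g x * (bump (κ * z) (c x) : ℂ)

lemma sb_lip (F : Finset V) (g : V → ℂ) (c : V → ℂ) {κ : ℝ} (hκ : 0 ≤ κ) (z w : ℂ) :
    ‖sb F g c κ z - sb F g c κ w‖ ≤ ((∑ x ∈ F, ‖g x‖) * κ) * ‖z - w‖ := by
  unfold sb
  rw [← Finset.sum_sub_distrib, Finset.sum_mul, Finset.sum_mul]
  refine (norm_sum_le _ _).trans (Finset.sum_le_sum fun x _ => ?_)
  rw [← mul_sub, norm_mul, ← Complex.ofReal_sub, Complex.norm_real, Real.norm_eq_abs, mul_assoc]
  apply mul_le_mul_of_nonneg_left _ (norm_nonneg _)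
  refine (bump_lip _ _ _).trans ?_
  rw [← mul_sub, norm_mul, Complex.norm_real, Real.norm_eq_abs, abs_of_nonneg hκ]

lemma sb_eq_zero {F : Finset V} {g : V → ℂ} {c : V → ℂ} {κ : ℝ} {z : ℂ}
    (h : ∀ x ∈ F, 1 ≤ ‖κ * z - c x‖) : sb F g c κ z = 0 := by
  unfold sb
  apply Finset.sum_eq_zero
  intro x hx
  rw [bump_zero (h x hx)]
  simp

lemma sb_eq {F : Finset V} {g : V → ℂ} {c : V → ℂ} {κ : ℝ} {z : ℂ} {y : V} (hy : y ∈ F)
    (hz : κ * z = c y) (h : ∀ x ∈ F, x ≠ y → 1 ≤ ‖c y - c x‖) : sb F g c κ z = g y := by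
  unfold sb
  rw [Finset.sum_eq_single y]
  · rw [hz, bump_self]; simp
  · intro x hx hxy
    rw [hz, bump_zero (h x hx hxy)]; simp
  · intro h'; exact absurd hy h'

/-- Powers of `λ C_φ`. -/
lemma smul_pow_app {φ : V → V} {C : LipZero T →L[ℂ] LipZero T}
    (hC : ∀ (f : LipZero T) (v : V), C f v = f (φ v)) (lam : ℂ) (n : ℕ) (f : LipZero T) (v : V) :
    ((lam • C) ^ n) f v = lam ^ n * f (φ^[n] v) := by
  induction n generalizing v with
  | zero => simp
  | succ n ih =>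
    rw [pow_succ']
    show (lam • C (((lam • C) ^ n) f)) v = _
    rw [smul_app, hC, ih, Function.iterate_succ_apply]
    ring

instance : Nontrivial (LipZero T) := by
  refine ⟨chi T T.root, 0, fun h => ?_⟩
  have : chi T T.root T.root = (0 : LipZero T) T.root := by rw [h]
  rw [chi_app] at this
  simp at this

lemma dist_nat_ge {a b : ℕ} (h : a ≠ b) : (1 : ℝ) ≤ ‖(a : ℂ) - (b : ℂ)‖ := by
  have h1 : ((a : ℂ) - (b : ℂ)) = (((a : ℤ) - (b : ℤ) : ℤ) : ℂ) := by push_cast; ring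
  rw [h1, Complex.norm_intCast]
  have h2 : (a : ℤ) - b ≠ 0 := by omega
  have h3 : (1 : ℤ) ≤ |(a : ℤ) - b| := Int.one_le_abs h2
  exact_mod_cast h3

/-- Finitely supported targets. -/
lemma multi_trans_fin {φ : V → V} {C : LipZero T →L[ℂ] LipZero T}
    (hC : ∀ (f : LipZero T) (v : V), C f v = f (φ v)) {lam : ℂ} (hlam : ‖lam‖ ≤ 1)
    (hA : Hypercyclic (lam • C)) {ι : Type*} [Fintype ι] (N : ℕ) (g h : ι → LipZero T)
    (hg : ∀ i v, N < dep T v → g i v = 0) (hh : ∀ i v, N < dep T v → h i v = 0)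
    {ε : ℝ} (hε : 0 < ε) :
    ∃ (n : ℕ) (u : ι → LipZero T), ∀ i, ‖u i - g i‖ ≤ ε ∧ ‖((lam • C) ^ n) (u i) - h i‖ ≤ ε := by
  classical
  have hcount := countable_V T
  obtain ⟨enc, henc⟩ := hcount.exists_injective_nat
  let e : V → ℕ := fun v => enc v + 1
  have he1 : ∀ v, 1 ≤ e v := fun v => Nat.le_add_left 1 _
  have heinj : ∀ {v w}, v ≠ w → e v ≠ e w := fun hvw h' => hvw (henc (by
    have : enc _ + 1 = enc _ + 1 := h'
    omega))
  let F : Finset V := (dep_le_finite (T := T) N).toFinset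
  have hF : ∀ v, v ∈ F ↔ dep T v ≤ N := by
    intro v
    simp only [F, Set.Finite.mem_toFinset]
    exact Iff.rfl
  let K : ℕ := F.sup e
  have hK : ∀ v ∈ F, e v ≤ K := fun v hv => Finset.le_sup hv
  -- the two test functions
  let g' : V → ℂ := fun v => if dep T v ≤ N then (e v : ℂ) / (K + 1) else 0
  let h' : V → ℂ := fun v => if dep T v ≤ N then (e v : ℂ) + 1 else 0
  have hg's : (Function.support g').Finite := by
    refine (dep_le_finite (T := T) N).subset ?_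
    intro v hv
    by_contra hcon
    exact hv (if_neg hcon)
  have hh's : (Function.support h').Finite := by
    refine (dep_le_finite (T := T) N).subset ?_
    intro v hv
    by_contra hcon
    exact hv (if_neg hcon)
  have hK1 : (0 : ℝ) < (K : ℝ) + 1 := by positivity
  have hK1' : ((K : ℂ) + 1) ≠ 0 := by
    have : ((K : ℂ) + 1) = (((K : ℝ) + 1 : ℝ) : ℂ) := by push_cast; ring
    rw [this]
    exact_mod_cast hK1.ne'
  -- the Lipschitz constant
  let L : ℝ := (∑ i, ∑ x ∈ F, (‖g i x‖ + ‖h i x‖)) * (K + 1)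
  have hL0 : 0 ≤ L := by positivity
  have hLi1 : ∀ i, (∑ x ∈ F, ‖g i x‖) * (K + 1 : ℝ) ≤ L := by
    intro i
    apply mul_le_mul_of_nonneg_right _ hK1.le
    calc (∑ x ∈ F, ‖g i x‖) ≤ ∑ x ∈ F, (‖g i x‖ + ‖h i x‖) :=
          Finset.sum_le_sum fun x _ => le_add_of_nonneg_right (norm_nonneg _)
      _ ≤ _ := Finset.single_le_sum (f := fun i => ∑ x ∈ F, (‖g i x‖ + ‖h i x‖))
          (fun j _ => by positivity) (Finset.mem_univ i)
  have hLi2 : ∀ i, (∑ x ∈ F, ‖h i x‖) * (1 : ℝ) ≤ L := by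
    intro i
    have h1 : (∑ x ∈ F, ‖h i x‖) ≤ ∑ i, ∑ x ∈ F, (‖g i x‖ + ‖h i x‖) :=
      calc (∑ x ∈ F, ‖h i x‖) ≤ ∑ x ∈ F, (‖g i x‖ + ‖h i x‖) :=
          Finset.sum_le_sum fun x _ => le_add_of_nonneg_left (norm_nonneg _)
      _ ≤ _ := Finset.single_le_sum (f := fun i => ∑ x ∈ F, (‖g i x‖ + ‖h i x‖))
          (fun j _ => by positivity) (Finset.mem_univ i)
    have h2 : 0 ≤ ∑ x ∈ F, ‖h i x‖ := by positivity
    have h3 : (1 : ℝ) ≤ K + 1 := by linarith [(Nat.cast_nonneg K : (0 : ℝ) ≤ K)]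
    exact mul_le_mul h1 h3 zero_le_one (h2.trans h1)
  -- the small parameter
  obtain ⟨δ, hδ0, hδ1, hδ2⟩ : ∃ δ : ℝ, 0 < δ ∧ (N + 2) * δ ≤ 1 / (K + 1) ∧
      2 * (L + 1) * ((N + 2) * δ) ≤ ε := by
    have hN2 : ((N : ℝ) + 2) ≠ 0 := by positivity
    refine ⟨min ((1 : ℝ) / ((K : ℝ) + 1)) (ε / (2 * (L + 1))) / ((N : ℝ) + 2), ?_, ?_, ?_⟩
    · have h1 : 0 < ε / (2 * (L + 1)) := by positivity
      have h2 : 0 < (1 : ℝ) / ((K : ℝ) + 1) := by positivity
      have h3 := lt_min h2 h1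
      positivity
    · rw [mul_div_cancel₀ _ hN2]
      exact min_le_left _ _
    · rw [mul_div_cancel₀ _ hN2]
      calc 2 * (L + 1) * min (1 / ((K : ℝ) + 1)) (ε / (2 * (L + 1)))
          ≤ 2 * (L + 1) * (ε / (2 * (L + 1))) :=
            mul_le_mul_of_nonneg_left (min_le_right _ _) (by positivity)
        _ = ε := by field_simp
  have hδδ : δ ≤ (N + 2) * δ := by nlinarith [(Nat.cast_nonneg N : (0 : ℝ) ≤ N)]
  have hδ3 : (N + 2) * δ ≤ 1 := by
    refine hδ1.trans ?_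
    rw [div_le_one hK1]
    linarith [(Nat.cast_nonneg K : (0 : ℝ) ≤ K)]
  obtain ⟨n, f, hf1, hf2⟩ := trans_of_hypercyclic hA (ofFin T g' hg's) (ofFin T h' hh's) hδ0
  have hw : ∀ v, ((lam • C) ^ n) f v = lam ^ n * f (φ^[n] v) := smul_pow_app hC lam n f
  have hln : ‖lam ^ n‖ ≤ 1 := by rw [norm_pow]; exact pow_le_one₀ (norm_nonneg _) hlam
  -- pointwise estimates
  have hp1 : ∀ v, dep T v ≤ N + 1 → ‖f v - g' v‖ ≤ (N + 2) * δ := by
    intro v hv
    refine (eval_le (f - ofFin T g' hg's) v).trans ?_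
    have : ((dep T v : ℝ) + 1) ≤ N + 2 := by
      have : (dep T v : ℝ) ≤ N + 1 := by exact_mod_cast hv
      linarith
    exact mul_le_mul this hf1.le (norm_nonneg _) (by positivity)
  have hp2 : ∀ v, dep T v ≤ N + 1 → ‖lam ^ n * f (φ^[n] v) - h' v‖ ≤ (N + 2) * δ := by
    intro v hv
    rw [← hw]
    refine (eval_le (((lam • C) ^ n) f - ofFin T h' hh's) v).trans ?_
    have : ((dep T v : ℝ) + 1) ≤ N + 2 := by
      have : (dep T v : ℝ) ≤ N + 1 := by exact_mod_cast hv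
      linarith
    exact mul_le_mul this hf2.le (norm_nonneg _) (by positivity)
  have hdp : ∀ v, N + 1 < dep T v → N < dep T (T.parent v) := by
    intro v hv
    have hr : v ≠ T.root := by
      rintro rfl
      rw [dep_root] at hv; omega
    have := dep_parent hr
    omega
  have hp3 : ∀ v, N + 1 < dep T v → ‖f v - f (T.parent v)‖ ≤ δ := by
    intro v hv
    have h1 := edge_le (f - ofFin T g' hg's) v
    have h2 : g' v = 0 := if_neg (by omega)
    have h3 : g' (T.parent v) = 0 := if_neg (by have := hdp v hv; omega)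
    simp only [sub_app, ofFin_app, h2, h3, sub_zero] at h1
    exact h1.trans hf1.le
  have hp4 : ∀ v, N + 1 < dep T v →
      ‖lam ^ n * f (φ^[n] v) - lam ^ n * f (φ^[n] (T.parent v))‖ ≤ δ := by
    intro v hv
    have h1 := edge_le (((lam • C) ^ n) f - ofFin T h' hh's) v
    have h2 : h' v = 0 := if_neg (by omega)
    have h3 : h' (T.parent v) = 0 := if_neg (by have := hdp v hv; omega)
    simp only [sub_app, ofFin_app, h2, h3, sub_zero, hw] at h1
    exact h1.trans hf2.le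
  have hln0 : lam ^ n ≠ 0 := by
    intro h0
    have h1 := hp2 T.root (by rw [dep_root]; omega)
    rw [h0, zero_mul, zero_sub, norm_neg] at h1
    have h2 : h' T.root = ((e T.root + 1 : ℕ) : ℂ) := by
      show (if dep T T.root ≤ N then (e T.root : ℂ) + 1 else 0) = _
      rw [if_pos (by rw [dep_root]; omega)]
      push_cast; ring
    rw [h2, Complex.norm_natCast] at h1
    have h3 := he1 T.root
    have h4 : (1 : ℝ) ≤ (e T.root : ℝ) := by exact_mod_cast h3
    push_cast at h1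
    linarith
  -- the nonlinear functions
  let Ψ : ι → ℂ → ℂ := fun i => sb F (g i) (fun x => (e x : ℂ)) (K + 1)
  let Ψ' : ι → ℂ → ℂ := fun i => sb F (h i) (fun x => ((e x + 1 : ℕ) : ℂ)) 1
  have hΨL : ∀ i z w, ‖Ψ i z - Ψ i w‖ ≤ L * ‖z - w‖ := by
    intro i z w
    refine (sb_lip F (g i) _ hK1.le z w).trans ?_
    exact mul_le_mul_of_nonneg_right (hLi1 i) (norm_nonneg _)
  have hΨ'L : ∀ i z w, ‖Ψ' i z - Ψ' i w‖ ≤ L * ‖z - w‖ := by
    intro i z w
    refine (sb_lip F (h i) _ zero_le_one z w).trans ?_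
    exact mul_le_mul_of_nonneg_right (hLi2 i) (norm_nonneg _)
  have hΨ0 : ∀ i, Ψ i 0 = 0 := by
    intro i
    apply sb_eq_zero
    intro x _
    rw [mul_zero, zero_sub, norm_neg, Complex.norm_natCast]
    exact_mod_cast he1 x
  have hΨbig : ∀ i z, 1 ≤ ‖z‖ → Ψ i z = 0 := by
    intro i z hz
    apply sb_eq_zero
    intro x hx
    have h1 : ‖(((K : ℝ) + 1 : ℝ) : ℂ) * z‖ = (K + 1) * ‖z‖ := by
      rw [norm_mul, Complex.norm_real, Real.norm_eq_abs, abs_of_pos hK1]
    have h2 := norm_sub_norm_le ((((K : ℝ) + 1 : ℝ) : ℂ) * z) (e x : ℂ)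
    rw [h1, Complex.norm_natCast] at h2
    have h3 : (e x : ℝ) ≤ K := by exact_mod_cast hK x hx
    nlinarith
  have hΨg : ∀ i v, dep T v ≤ N + 1 → Ψ i (g' v) = g i v := by
    intro i v _
    by_cases hv2 : dep T v ≤ N
    · have h1 : g' v = (e v : ℂ) / (K + 1) := if_pos hv2
      apply sb_eq ((hF v).mpr hv2)
      · rw [h1]; push_cast; field_simp
      · intro x _ hxv
        exact dist_nat_ge (heinj (Ne.symm hxv))
    · have h1 : g' v = 0 := if_neg hv2
      rw [h1, hΨ0, hg i v (by omega)]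
  have hΨ'small : ∀ i z, ‖z‖ ≤ 1 → Ψ' i z = 0 := by
    intro i z hz
    apply sb_eq_zero
    intro x _
    have h2 := norm_sub_norm_le (((e x + 1 : ℕ) : ℂ)) z
    rw [Complex.norm_natCast] at h2
    have h3 : (1 : ℝ) ≤ e x := by exact_mod_cast he1 x
    rw [Complex.ofReal_one, one_mul, norm_sub_rev]
    push_cast at h2 ⊢
    linarith
  have hΨ'h : ∀ i v, dep T v ≤ N → Ψ' i (h' v) = h i v := by
    intro i v hv2
    have h1 : h' v = ((e v + 1 : ℕ) : ℂ) := by
      show (if dep T v ≤ N then (e v : ℂ) + 1 else 0) = _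
      rw [if_pos hv2]; push_cast; ring
    apply sb_eq ((hF v).mpr hv2)
    · rw [h1]; simp
    · intro x _ hxv
      apply dist_nat_ge
      have := heinj (Ne.symm hxv)
      omega
  let Θ : ι → ℂ → ℂ := fun i z => Ψ i z + (lam ^ n)⁻¹ * Ψ' i (lam ^ n * z)
  have hΘ : ∀ i z w, ‖Θ i z - Θ i w‖ ≤ (2 * L) * ‖z - w‖ := by
    intro i z w
    have h1 : Θ i z - Θ i w = (Ψ i z - Ψ i w) +
        (lam ^ n)⁻¹ * (Ψ' i (lam ^ n * z) - Ψ' i (lam ^ n * w)) := by
      simp only [Θ]; ring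
    rw [h1]
    refine (norm_add_le _ _).trans ?_
    have h2 : ‖(lam ^ n)⁻¹ * (Ψ' i (lam ^ n * z) - Ψ' i (lam ^ n * w))‖ ≤ L * ‖z - w‖ := by
      rw [norm_mul, norm_inv]
      have h3 := hΨ'L i (lam ^ n * z) (lam ^ n * w)
      rw [← mul_sub, norm_mul] at h3
      have hpos : 0 < ‖lam ^ n‖ := norm_pos_iff.mpr hln0
      rw [inv_mul_le_iff₀ hpos]
      linarith
    have := hΨL i z w
    linarith
  refine ⟨n, fun i => lipComp (Θ i) (2 * L) (hΘ i) f, fun i => ?_⟩
  have ha : ∀ v, dep T v ≤ N + 1 → ‖Θ i (f v) - g i v‖ ≤ L * ((N + 2) * δ) := by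
    intro v hv
    have hg'v : ‖g' v‖ ≤ K / (K + 1) := by
      by_cases hv2 : dep T v ≤ N
      · have h1 : g' v = (e v : ℂ) / (K + 1) := if_pos hv2
        have h5 : ((K : ℂ) + 1) = (((K : ℝ) + 1 : ℝ) : ℂ) := by push_cast; ring
        rw [h1, norm_div, Complex.norm_natCast, h5, Complex.norm_real, Real.norm_eq_abs,
          abs_of_pos hK1]
        apply div_le_div_of_nonneg_right _ hK1.le
        exact_mod_cast hK v ((hF v).mpr hv2)
      · have h1 : g' v = 0 := if_neg hv2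
        rw [h1, norm_zero]; positivity
    have h1 : ‖f v‖ ≤ 1 := by
      have h2 : ‖f v‖ ≤ ‖f v - g' v‖ + ‖g' v‖ := by simpa using norm_add_le (f v - g' v) (g' v)
      have h3 := hp1 v hv
      have h4 : (1 : ℝ) / (K + 1) + K / (K + 1) = 1 := by
        rw [← add_div, div_eq_one_iff_eq hK1.ne']; ring
      linarith
    have h2 : Ψ' i (lam ^ n * f v) = 0 := by
      apply hΨ'small
      rw [norm_mul]
      exact mul_le_one₀ hln (norm_nonneg _) h1
    have h3 : Θ i (f v) = Ψ i (f v) := by simp only [Θ, h2, mul_zero, add_zero]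
    rw [h3, ← hΨg i v hv]
    exact (hΨL i _ _).trans (mul_le_mul_of_nonneg_left (hp1 v hv) hL0)
  have hb : ∀ v, dep T v ≤ N + 1 →
      ‖lam ^ n * Θ i (f (φ^[n] v)) - h i v‖ ≤ L * ((N + 2) * δ) := by
    intro v hv
    have hexp : lam ^ n * Θ i (f (φ^[n] v)) =
        lam ^ n * Ψ i (f (φ^[n] v)) + Ψ' i (lam ^ n * f (φ^[n] v)) := by
      simp only [Θ]; rw [mul_add, mul_inv_cancel_left₀ hln0]
    rw [hexp]
    by_cases hv2 : dep T v ≤ N
    · have h1 : h' v = ((e v + 1 : ℕ) : ℂ) := by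
        show (if dep T v ≤ N then (e v : ℂ) + 1 else 0) = _
        rw [if_pos hv2]; push_cast; ring
      have h2 : (2 : ℝ) ≤ ‖h' v‖ := by
        rw [h1, Complex.norm_natCast]
        have h3 : (1 : ℝ) ≤ e v := by exact_mod_cast he1 v
        push_cast; linarith
      have h3 : 1 ≤ ‖lam ^ n * f (φ^[n] v)‖ := by
        have h4 := norm_sub_norm_le (h' v) (lam ^ n * f (φ^[n] v))
        rw [norm_sub_rev] at h4
        have := hp2 v hv
        linarith
      have h4 : 1 ≤ ‖f (φ^[n] v)‖ := by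
        rw [norm_mul] at h3
        nlinarith [norm_nonneg (f (φ^[n] v)), norm_nonneg (lam ^ n)]
      rw [hΨbig i _ h4, mul_zero, zero_add, ← hΨ'h i v hv2]
      exact (hΨ'L i _ _).trans (mul_le_mul_of_nonneg_left (hp2 v hv) hL0)
    · have h1 : h' v = 0 := if_neg hv2
      have h2 := hp2 v hv
      rw [h1, sub_zero] at h2
      rw [hh i v (by omega), sub_zero, hΨ'small i _ (h2.trans hδ3), add_zero, norm_mul]
      have h3 := hΨL i (f (φ^[n] v)) 0
      rw [hΨ0, sub_zero, sub_zero] at h3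
      calc ‖lam ^ n‖ * ‖Ψ i (f (φ^[n] v))‖ ≤ ‖lam ^ n‖ * (L * ‖f (φ^[n] v)‖) :=
            mul_le_mul_of_nonneg_left h3 (norm_nonneg _)
        _ = L * ‖lam ^ n * f (φ^[n] v)‖ := by rw [norm_mul]; ring
        _ ≤ _ := mul_le_mul_of_nonneg_left h2 hL0
  have hdpar : ∀ v, dep T v ≤ N + 1 → dep T (T.parent v) ≤ N + 1 := by
    intro v hv
    by_cases hr : v = T.root
    · rw [hr, T.parent_root, dep_root]; omega
    · have := dep_parent hr
      omega
  have hεL : 2 * (L * ((N + 2) * δ)) ≤ ε := by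
    have : 0 ≤ (N + 2) * δ := by positivity
    nlinarith
  have hεL2 : 2 * L * δ ≤ ε := by
    refine le_trans ?_ hεL
    rw [← mul_assoc]
    nlinarith [mul_le_mul_of_nonneg_left hδδ (by positivity : (0 : ℝ) ≤ 2 * L)]
  have hLn : 0 ≤ L * ((N + 2) * δ) := by positivity
  constructor
  · apply norm_le
    · rw [sub_app, lipComp_app]
      have := ha T.root (by rw [dep_root]; omega)
      linarith
    · intro v
      simp only [sub_app, lipComp_app]
      by_cases hv : dep T v ≤ N + 1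
      · have h1 := ha v hv
        have h2 := ha _ (hdpar v hv)
        exact (norm_sub_le _ _).trans (by linarith)
      · have h1 := hp3 v (by omega)
        rw [hg i v (by omega), hg i (T.parent v) (hdp v (by omega)), sub_zero, sub_zero]
        refine (hΘ i _ _).trans (le_trans ?_ hεL2)
        exact mul_le_mul_of_nonneg_left h1 (by positivity)
  · apply norm_le
    · rw [sub_app, smul_pow_app hC, lipComp_app]
      have := hb T.root (by rw [dep_root]; omega)
      linarith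
    · intro v
      simp only [sub_app, smul_pow_app hC, lipComp_app]
      by_cases hv : dep T v ≤ N + 1
      · have h1 := hb v hv
        have h2 := hb _ (hdpar v hv)
        exact (norm_sub_le _ _).trans (by linarith)
      · have h1 := hp4 v (by omega)
        rw [hh i v (by omega), hh i (T.parent v) (hdp v (by omega)), sub_zero, sub_zero]
        rw [← mul_sub, norm_mul] at h1 ⊢
        calc ‖lam ^ n‖ * ‖Θ i (f (φ^[n] v)) - Θ i (f (φ^[n] (T.parent v)))‖
            ≤ ‖lam ^ n‖ * ((2 * L) * ‖f (φ^[n] v) - f (φ^[n] (T.parent v))‖) :=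
              mul_le_mul_of_nonneg_left (hΘ i _ _) (norm_nonneg _)
          _ = (2 * L) * (‖lam ^ n‖ * ‖f (φ^[n] v) - f (φ^[n] (T.parent v))‖) := by ring
          _ ≤ (2 * L) * δ := mul_le_mul_of_nonneg_left h1 (by positivity)
          _ ≤ ε := hεL2

/-- If `λ C_φ`, `|λ| ≤ 1`, is hypercyclic, all its finite direct sums are transitive. -/
theorem multi_trans {φ : V → V} {C : LipZero T →L[ℂ] LipZero T}
    (hC : ∀ (f : LipZero T) (v : V), C f v = f (φ v)) {lam : ℂ} (hlam : ‖lam‖ ≤ 1)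
    (hA : Hypercyclic (lam • C)) {ι : Type*} [Fintype ι] (g h : ι → LipZero T)
    {ε : ℝ} (hε : 0 < ε) :
    ∃ (n : ℕ) (u : ι → LipZero T), ∀ i, ‖u i - g i‖ < ε ∧ ‖((lam • C) ^ n) (u i) - h i‖ < ε := by
  have h3 : 0 < ε / 3 := by positivity
  choose g1 g2 g3 using fun i => exists_ofFin_near (g i) h3
  choose h1 h2 h3' using fun i => exists_ofFin_near (h i) h3
  have hfin : (⋃ i, (Function.support (g1 i) ∪ Function.support (h1 i))).Finite :=
    Set.finite_iUnion fun i => (g2 i).union (h2 i)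
  obtain ⟨N, hN⟩ := exists_dep_bound (T := T) hfin
  obtain ⟨n, u, hu⟩ := multi_trans_fin hC hlam hA N (fun i => ofFin T (g1 i) (g2 i))
    (fun i => ofFin T (h1 i) (h2 i)) (by
      intro i v hv
      by_contra hcon
      have := hN v (Set.mem_iUnion.mpr ⟨i, Or.inl hcon⟩)
      omega) (by
      intro i v hv
      by_contra hcon
      have := hN v (Set.mem_iUnion.mpr ⟨i, Or.inr hcon⟩)
      omega) h3
  refine ⟨n, u, fun i => ?_⟩
  obtain ⟨e1, e2⟩ := hu i
  have e3 := g3 i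
  have e4 := h3' i
  rw [norm_sub_rev] at e3 e4
  constructor
  · calc ‖u i - g i‖ ≤ ‖u i - ofFin T (g1 i) (g2 i)‖ + ‖ofFin T (g1 i) (g2 i) - g i‖ :=
          norm_sub_le_norm_sub_add_norm_sub _ _ _
      _ < ε := by linarith
  · calc ‖((lam • C) ^ n) (u i) - h i‖ ≤ ‖((lam • C) ^ n) (u i) - ofFin T (h1 i) (h2 i)‖ +
            ‖ofFin T (h1 i) (h2 i) - h i‖ := norm_sub_le_norm_sub_add_norm_sub _ _ _
      _ < ε := by linarith

end Q87.LipTree
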