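import Mathlib
import Pool.Agent.Q87.LipMulti

/-!
# Hypercyclic subspaces for `λ C_φ`, `|λ| ≤ 1`, on the little Lipschitz space of a rooted tree
-/

set_option autoImplicit false

open Set Filter Topology

namespace Q87.LipTree

section abs

variable {X : Type*} [NormedAddCommGroup X] [NormedSpace ℂ X] [CompleteSpace X]

lemma geom_tail {E : Type*} [NormedAddCommGroup E] {u : ℕ → E} {a : E} {c : ℝ} {m : ℕ}
    (h : ∀ k, m ≤ k → ‖u (k + 1) - u k‖ ≤ c * (1 / 2) ^ k) (ha : Tendsto u atTop (𝓝 a)) :
    ‖a - u m‖ ≤ 2 * c * (1 / 2) ^ m := by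
  have h1 : Tendsto (fun k => u (m + k)) atTop (𝓝 a) := by
    have := (tendsto_add_atTop_iff_nat m).mpr ha
    simpa [add_comm] using this
  have h2 := dist_le_of_le_geometric_of_tendsto (f := fun k => u (m + k)) (1 / 2 : ℝ)
    (c * (1 / 2) ^ m) (by norm_num) (fun k => by
      rw [dist_eq_norm, norm_sub_rev]
      have := h (m + k) (Nat.le_add_right _ _)
      rw [pow_add, ← mul_assoc] at this
      exact this) h1 0
  rw [dist_eq_norm, norm_sub_rev] at h2
  simp only [add_zero, pow_zero, mul_one] at h2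
  refine h2.trans (le_of_eq ?_)
  ring

/-- The inductive construction. -/
lemma exists_system (A : X →L[ℂ] X)
    (hmt : ∀ (k : ℕ) (g h : Fin k → X) (ε : ℝ), 0 < ε → ∃ (n : ℕ) (u : Fin k → X),
      ∀ i, ‖u i - g i‖ < ε ∧ ‖(A ^ n) (u i) - h i‖ < ε)
    (x : ℕ → X) (tgt : ℕ → ℕ → X) :
    ∃ (z : ℕ → X) (n : ℕ → ℕ), (∀ i, ‖z i - x i‖ ≤ (1 / 8) * (1 / 2) ^ i) ∧
      (∀ k i, i ≤ k → ‖(A ^ n k) (z i) - tgt k i‖ ≤ (1 / 2) ^ k) ∧
      (∀ k i, k < i → ‖(A ^ n k) (z i - x i)‖ ≤ (1 / 2) ^ i) := by
  classical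
  -- the step
  have step : ∀ (k : ℕ) (Z : ℕ → X) (B : ℝ), 0 ≤ B → ∃ (Z' : ℕ → X) (B' : ℝ) (n : ℕ),
      0 ≤ B' ∧ (∀ i, ‖Z' i - Z i‖ ≤ (1 / 16) * (1 / 2) ^ k / (1 + B)) ∧
      (∀ i, i ≤ k → ‖(A ^ n) (Z' i) - tgt k i‖ ≤ (1 / 2) ^ (k + 1)) ∧
      (∀ i, k < i → Z' i = Z i) ∧ B ≤ B' ∧ ‖A ^ n‖ ≤ B' := by
    intro k Z B hB
    have hpos : 0 < min ((1 / 16 : ℝ) * (1 / 2) ^ k / (1 + B)) ((1 / 2) ^ (k + 1)) :=
      lt_min (by positivity) (by positivity)
    obtain ⟨n, u, hu⟩ := hmt (k + 1) (fun i => Z i) (fun i => tgt k i) _ hpos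
    refine ⟨fun i => if h : i < k + 1 then u ⟨i, h⟩ else Z i, max B ‖A ^ n‖, n,
      hB.trans (le_max_left _ _), ?_, ?_, ?_, le_max_left _ _, le_max_right _ _⟩
    · intro i
      by_cases h : i < k + 1
      · simp only [h, dif_pos]
        exact ((hu ⟨i, h⟩).1.le).trans (min_le_left _ _)
      · simp only [h, dif_neg, not_false_eq_true, sub_self, norm_zero]
        positivity
    · intro i hi
      have h : i < k + 1 := by omega
      simp only [h, dif_pos]
      exact ((hu ⟨i, h⟩).2.le).trans (min_le_right _ _)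
    · intro i hi
      have h : ¬ i < k + 1 := by omega
      simp only [h, dif_neg, not_false_eq_true]
  choose! fZ fB fn h1 h2 h3 h4 h5 h6 using step
  let s : ℕ → (ℕ → X) × ℝ := fun k =>
    Nat.rec (x, 0) (fun k p => (fZ k p.1 p.2, fB k p.1 p.2)) k
  have hs : ∀ k, s (k + 1) = (fZ k (s k).1 (s k).2, fB k (s k).1 (s k).2) := fun k => rfl
  have hs0 : s 0 = (x, 0) := rfl
  have hB0 : ∀ k, 0 ≤ (s k).2 := by
    intro k
    induction k with
    | zero => rw [hs0]
    | succ k ih => rw [hs]; exact h1 k _ _ ih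
  let n : ℕ → ℕ := fun k => fn k (s k).1 (s k).2
  have hBmono : Monotone fun k => (s k).2 := monotone_nat_of_le_succ fun k => by
    show (s k).2 ≤ (s (k + 1)).2
    rw [hs]; exact h5 k _ _ (hB0 k)
  have hBn : ∀ k l, k < l → ‖A ^ n k‖ ≤ (s l).2 := by
    intro k l hkl
    have e1 : ‖A ^ n k‖ ≤ (s (k + 1)).2 := by
      rw [hs]; exact h6 k _ _ (hB0 k)
    exact e1.trans (hBmono hkl)
  have hinc : ∀ k i, ‖(s (k + 1)).1 i - (s k).1 i‖ ≤ (1 / 16) * (1 / 2) ^ k / (1 + (s k).2) := by
    intro k i
    rw [hs]; exact h2 k _ _ (hB0 k) i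
  have hinc' : ∀ k i, ‖(s (k + 1)).1 i - (s k).1 i‖ ≤ (1 / 16) * (1 / 2) ^ k := by
    intro k i
    refine (hinc k i).trans ?_
    apply div_le_self (by positivity)
    linarith [hB0 k]
  have hincA : ∀ l k i, l < k → ‖(A ^ n l) ((s (k + 1)).1 i) - (A ^ n l) ((s k).1 i)‖ ≤
      (1 / 16) * (1 / 2) ^ k := by
    intro l k i hlk
    rw [← map_sub]
    refine ((A ^ n l).le_opNorm _).trans ?_
    have e1 := hBn l k hlk
    have e2 := hinc k i
    have e3 := hB0 k
    calc ‖A ^ n l‖ * ‖(s (k + 1)).1 i - (s k).1 i‖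
        ≤ (s k).2 * ((1 / 16) * (1 / 2) ^ k / (1 + (s k).2)) :=
          mul_le_mul e1 e2 (norm_nonneg _) e3
      _ = ((s k).2 / (1 + (s k).2)) * ((1 / 16) * (1 / 2) ^ k) := by ring
      _ ≤ 1 * ((1 / 16) * (1 / 2) ^ k) := by
          apply mul_le_mul_of_nonneg_right _ (by positivity)
          rw [div_le_one (by linarith)]; linarith
      _ = _ := one_mul _
  have hconst : ∀ k i, k ≤ i → (s k).1 i = x i := by
    intro k
    induction k with
    | zero => intro i _; rw [hs0]
    | succ k ih =>
      intro i hi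
      rw [hs]
      show fZ k (s k).1 (s k).2 i = x i
      rw [h4 k _ _ (hB0 k) i (by omega)]
      exact ih i (by omega)
  have hlim : ∀ i, ∃ z, Tendsto (fun k => (s k).1 i) atTop (𝓝 z) := by
    intro i
    apply cauchySeq_tendsto_of_complete
    apply cauchySeq_of_le_geometric (1 / 2 : ℝ) (1 / 16) (by norm_num)
    intro k
    rw [dist_eq_norm, norm_sub_rev]
    exact hinc' k i
  choose z hz using hlim
  refine ⟨z, n, ?_, ?_, ?_⟩
  · intro i
    have := geom_tail (m := i) (fun k _ => hinc' k i) (hz i)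
    rw [hconst i i le_rfl] at this
    refine this.trans (le_of_eq ?_)
    ring
  · intro k i hik
    have hzA : Tendsto (fun m => (A ^ n k) ((s m).1 i)) atTop (𝓝 ((A ^ n k) (z i))) :=
      ((A ^ n k).continuous.tendsto _).comp (hz i)
    have e1 := geom_tail (m := k + 1) (fun m hm => hincA k m i (by omega)) hzA
    have e2 : ‖(A ^ n k) ((s (k + 1)).1 i) - tgt k i‖ ≤ (1 / 2) ^ (k + 1) := by
      rw [hs]; exact h3 k _ _ (hB0 k) i hik
    calc ‖(A ^ n k) (z i) - tgt k i‖ ≤ ‖(A ^ n k) (z i) - (A ^ n k) ((s (k + 1)).1 i)‖ +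
          ‖(A ^ n k) ((s (k + 1)).1 i) - tgt k i‖ := norm_sub_le_norm_sub_add_norm_sub _ _ _
      _ ≤ 2 * (1 / 16) * (1 / 2) ^ (k + 1) + (1 / 2) ^ (k + 1) := add_le_add e1 e2
      _ ≤ (1 / 2) ^ k := by
          rw [pow_succ]
          have : (0 : ℝ) < (1 / 2) ^ k := by positivity
          linarith
  · intro k i hki
    have hzA : Tendsto (fun m => (A ^ n k) ((s m).1 i)) atTop (𝓝 ((A ^ n k) (z i))) :=
      ((A ^ n k).continuous.tendsto _).comp (hz i)
    have e1 := geom_tail (m := i) (fun m hm => hincA k m i (by omega)) hzA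
    rw [hconst i i le_rfl] at e1
    rw [map_sub]
    refine e1.trans ?_
    have : (0 : ℝ) < (1 / 2) ^ i := by positivity
    linarith

end abs

variable {V : Type*} {T : RTree V}

lemma parent_tendsto (T : RTree V) : Tendsto T.parent cofinite cofinite := by
  apply Filter.Tendsto.cofinite_of_finite_preimage_singleton
  intro v
  refine ((T.locFin v).insert T.root).subset ?_
  intro w hw
  by_cases h : w = T.root
  · exact Or.inl h
  · exact Or.inr ⟨h, hw⟩

/-- functions tending to zero belong to the little Lipschitz space -/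
def ofC0 (T : RTree V) (g : V → ℂ) (hg : Tendsto g cofinite (𝓝 0)) : LipZero T :=
  ⟨g, by
    have := hg.sub (hg.comp (parent_tendsto T))
    rw [sub_zero] at this
    exact this⟩

lemma ofC0_app (g : V → ℂ) (hg : Tendsto g cofinite (𝓝 0)) (v : V) : ofC0 T g hg v = g v := rfl

/-- the vertices of every depth -/
lemma exists_dep_eq [Infinite V] (T : RTree V) (n : ℕ) : ∃ v, dep T v = n := by
  obtain ⟨w, hw⟩ : ∃ w, n ≤ dep T w := by
    by_contra hcon
    push Not at hcon
    have : (univ : Set V).Finite := (dep_le_finite (T := T) n).subset fun v _ => (hcon v).le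
    exact Set.infinite_univ this
  obtain ⟨k, hk⟩ := Nat.exists_eq_add_of_le hw
  induction k generalizing w with
  | zero => exact ⟨w, by omega⟩
  | succ k ih =>
    have hr : w ≠ T.root := by
      rintro rfl
      rw [dep_root] at hk; omega
    have := dep_parent hr
    exact ih (T.parent w) (by omega) (by omega)

lemma extend_tendsto {vv : ℕ → V} (hvv : Function.Injective vv) {a : ℕ → ℂ}
    (ha : Tendsto a cofinite (𝓝 0)) : Tendsto (Function.extend vv a 0) cofinite (𝓝 0) := by
  rw [Metric.tendsto_nhds] at ha ⊢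
  intro ε hε
  have h1 := ha ε hε
  rw [Filter.eventually_cofinite] at h1 ⊢
  refine (h1.image vv).subset ?_
  intro v hv
  by_cases h : ∃ i, vv i = v
  · obtain ⟨i, rfl⟩ := h
    refine ⟨i, ?_, rfl⟩
    have hv' : ¬ dist (Function.extend vv a 0 (vv i)) 0 < ε := hv
    rw [hvv.extend_apply] at hv'
    exact hv'
  · exfalso
    have hv' : ¬ dist (Function.extend vv a 0 v) 0 < ε := hv
    apply hv'
    rw [Function.extend_apply' _ _ _ h]
    simpa using hε

/-- **Hypercyclic subspaces.** -/
theorem exists_hypercyclic_subspace [Infinite V] {φ : V → V} {C : LipZero T →L[ℂ] LipZero T}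
    (hC : ∀ (f : LipZero T) (v : V), C f v = f (φ v)) {lam : ℂ} (hlam : ‖lam‖ ≤ 1)
    (hA : Hypercyclic (lam • C)) :
    ∃ M : Submodule ℂ (LipZero T), IsClosed (M : Set (LipZero T)) ∧ ¬ FiniteDimensional ℂ M ∧
      ∀ f ∈ M, f ≠ 0 → Dense (Set.range fun n : ℕ => ((lam • C) ^ n) f) := by
  classical
  set A := lam • C with hAdef
  choose vv hvv using fun i : ℕ => exists_dep_eq T (2 * i + 2)
  have hinj : Function.Injective vv := by
    intro i j hij
    have h1 := hvv i
    rw [hij, hvv j] at h1
    omega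
  have hroot : ∀ i, vv i ≠ T.root := by
    intro i h
    have := hvv i
    rw [h, dep_root] at this
    omega
  have hpar : ∀ i j, vv j ≠ T.parent (vv i) := by
    intro i j h
    have h1 := dep_parent (hroot i)
    rw [← h, hvv i, hvv j] at h1
    omega
  let d : ℕ → LipZero T := TopologicalSpace.denseSeq (LipZero T)
  have hd : DenseRange d := TopologicalSpace.denseRange_denseSeq (LipZero T)
  let tgt : ℕ → ℕ → LipZero T := fun k i =>
    if i = (Nat.unpair k).1 then d (Nat.unpair (Nat.unpair k).2).1 else 0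
  obtain ⟨z, n, hz1, hz2, hz3⟩ := exists_system A
    (fun k g h ε hε => multi_trans hC hlam hA g h hε) (fun i => chi T (vv i)) tgt
  let r : ℕ → LipZero T := fun i => z i - chi T (vv i)
  have hr1 : ∀ i, ‖r i‖ ≤ (1 / 8) * (1 / 2) ^ i := hz1
  have hgeo : Summable fun i : ℕ => (1 / 2 : ℝ) ^ i := summable_geometric_two
  have hgeo2 : ∑' i : ℕ, (1 / 2 : ℝ) ^ i = 2 := tsum_geometric_two
  -- coefficients
  have ha0 : ∀ a : ZeroAtInftyContinuousMap ℕ ℂ, Tendsto a cofinite (𝓝 0) := by
    intro a
    have := a.zero_at_infty'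
    rwa [Filter.cocompact_eq_cofinite] at this
  have hale : ∀ (a : ZeroAtInftyContinuousMap ℕ ℂ) (i : ℕ), ‖a i‖ ≤ ‖a‖ := by
    intro a i
    rw [← ZeroAtInftyContinuousMap.norm_toBCF_eq_norm]
    exact a.toBCF.norm_coe_le_norm i
  have hsum : ∀ a : ZeroAtInftyContinuousMap ℕ ℂ, Summable fun i => a i • r i := by
    intro a
    refine Summable.of_norm_bounded (g := fun i => (‖a‖ * (1 / 8)) * (1 / 2) ^ i)
      (hgeo.mul_left _) fun i => ?_
    rw [norm_smul, mul_assoc]
    exact mul_le_mul (hale a i) (hr1 i) (norm_nonneg _) (norm_nonneg _)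
  have hRle : ∀ a : ZeroAtInftyContinuousMap ℕ ℂ, ‖∑' i, a i • r i‖ ≤ ‖a‖ / 4 := by
    intro a
    have h1 : ‖∑' i, a i • r i‖ ≤ ∑' i : ℕ, (‖a‖ * (1 / 8)) * (1 / 2 : ℝ) ^ i := by
      refine tsum_of_norm_bounded (hgeo.mul_left _).hasSum fun i => ?_
      rw [norm_smul, mul_assoc]
      exact mul_le_mul (hale a i) (hr1 i) (norm_nonneg _) (norm_nonneg _)
    rw [tsum_mul_left, hgeo2] at h1
    linarith
  -- the embedding
  let J : ZeroAtInftyContinuousMap ℕ ℂ →ₗ[ℂ] LipZero T :=
    { toFun := fun a => ofC0 T (Function.extend vv a 0) (extend_tendsto hinj (ha0 a)) +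
        ∑' i, a i • r i
      map_add' := by
        intro a b
        have h1 : ∑' i, (a + b) i • r i = ∑' i, a i • r i + ∑' i, b i • r i := by
          rw [← (hsum a).tsum_add (hsum b)]
          congr 1
          funext i
          rw [ZeroAtInftyContinuousMap.add_apply, add_smul]
        have h2 : ofC0 T (Function.extend vv (a + b : ZeroAtInftyContinuousMap ℕ ℂ) 0)
            (extend_tendsto hinj (ha0 (a + b))) =
            ofC0 T (Function.extend vv a 0) (extend_tendsto hinj (ha0 a)) +
            ofC0 T (Function.extend vv b 0) (extend_tendsto hinj (ha0 b)) := by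
          ext v
          rw [add_app, ofC0_app, ofC0_app, ofC0_app]
          by_cases h : ∃ i, vv i = v
          · obtain ⟨i, rfl⟩ := h
            rw [hinj.extend_apply, hinj.extend_apply, hinj.extend_apply]
            rfl
          · rw [Function.extend_apply' _ _ _ h, Function.extend_apply' _ _ _ h,
              Function.extend_apply' _ _ _ h]
            simp
        rw [h1, h2]
        abel
      map_smul' := by
        intro c a
        have h1 : ∑' i, (c • a) i • r i = c • ∑' i, a i • r i := by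
          rw [← (hsum a).tsum_const_smul]
          congr 1
          funext i
          rw [ZeroAtInftyContinuousMap.smul_apply, smul_assoc]
        have h2 : ofC0 T (Function.extend vv (c • a : ZeroAtInftyContinuousMap ℕ ℂ) 0)
            (extend_tendsto hinj (ha0 (c • a))) =
            c • ofC0 T (Function.extend vv a 0) (extend_tendsto hinj (ha0 a)) := by
          ext v
          rw [smul_app, ofC0_app, ofC0_app]
          by_cases h : ∃ i, vv i = v
          · obtain ⟨i, rfl⟩ := h
            rw [hinj.extend_apply, hinj.extend_apply]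
            rfl
          · rw [Function.extend_apply' _ _ _ h, Function.extend_apply' _ _ _ h]
            simp
        rw [h1, h2, RingHom.id_apply, smul_add] }
  have hJ : ∀ a, J a = ofC0 T (Function.extend vv a 0) (extend_tendsto hinj (ha0 a)) +
        ∑' i, a i • r i := fun a => rfl
  have hlow : ∀ a, ‖a‖ ≤ (4 / 3) * ‖J a‖ := by
    intro a
    have h1 : ∀ i, ‖a i‖ ≤ ‖J a‖ + ‖a‖ / 4 := by
      intro i
      have e1 := edge_le (J a) (vv i)
      have e2 := edge_le (∑' i, a i • r i) (vv i)
      have e3 : J a (vv i) - J a (T.parent (vv i)) = a i +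
          ((∑' i, a i • r i) (vv i) - (∑' i, a i • r i) (T.parent (vv i))) := by
        rw [hJ, add_app, add_app, ofC0_app, ofC0_app, hinj.extend_apply,
          Function.extend_apply' _ _ _ (by
            rintro ⟨j, hj⟩
            exact hpar i j hj)]
        simp only [Pi.zero_apply]
        ring
      have e4 := hRle a
      have e5 : a i = (J a (vv i) - J a (T.parent (vv i))) -
        ((∑' i, a i • r i) (vv i) - (∑' i, a i • r i) (T.parent (vv i))) := by
        rw [e3]; ring
      rw [e5]
      exact (norm_sub_le _ _).trans (by linarith)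
    have h2 : ‖a‖ ≤ ‖J a‖ + ‖a‖ / 4 := by
      rw [← ZeroAtInftyContinuousMap.norm_toBCF_eq_norm] at h1 ⊢
      rw [BoundedContinuousFunction.norm_le (by positivity)]
      exact h1
    linarith
  have hupp : ∀ a, ‖J a‖ ≤ 3 * ‖a‖ := by
    intro a
    rw [hJ]
    refine (norm_add_le _ _).trans ?_
    have e1 : ‖ofC0 T (Function.extend vv a 0) (extend_tendsto hinj (ha0 a))‖ ≤ 2 * ‖a‖ := by
      have e2 : ∀ v, ‖Function.extend vv a 0 v‖ ≤ ‖a‖ := by
        intro v
        by_cases h : ∃ i, vv i = v
        · obtain ⟨i, rfl⟩ := h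
          rw [hinj.extend_apply]
          exact hale a i
        · rw [Function.extend_apply' _ _ _ h]
          simp
      apply norm_le
      · rw [ofC0_app]
        have := e2 T.root
        have := norm_nonneg a
        linarith
      · intro v
        rw [ofC0_app, ofC0_app]
        exact (norm_sub_le _ _).trans (by linarith [e2 v, e2 (T.parent v)])
    have e2 := hRle a
    have := norm_nonneg a
    linarith
  let JL : ZeroAtInftyContinuousMap ℕ ℂ →L[ℂ] LipZero T := J.mkContinuous 3 hupp
  have hanti : AntilipschitzWith (4 / 3) JL := by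
    apply AddMonoidHomClass.antilipschitz_of_bound
    intro a
    have h1 : JL a = J a := rfl
    rw [h1]
    have h2 : (((4 / 3 : NNReal)) : ℝ) = 4 / 3 := by push_cast; rfl
    rw [h2]
    exact hlow a
  refine ⟨LinearMap.range J, ?_, ?_, ?_⟩
  · have h1 : IsClosed (Set.range JL) := hanti.isClosed_range JL.uniformContinuous
    exact h1
  · intro hfd
    have hJinj : Function.Injective J := hanti.injective
    have h1 : FiniteDimensional ℂ (ZeroAtInftyContinuousMap ℕ ℂ) :=
      LinearEquiv.finiteDimensional (LinearEquiv.ofInjective J hJinj).symm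
    -- the unit vectors are linearly independent
    let e : ℕ → ZeroAtInftyContinuousMap ℕ ℂ := fun i =>
      ⟨⟨Pi.single i 1, continuous_of_discreteTopology⟩, by
        rw [Filter.cocompact_eq_cofinite]
        refine tendsto_const_nhds.congr' ?_
        rw [Filter.EventuallyEq, Filter.eventually_cofinite]
        refine (Set.finite_singleton i).subset ?_
        intro j hj
        by_contra hne
        apply hj
        show (0 : ℂ) = (Pi.single i (1 : ℂ) : ℕ → ℂ) j
        rw [Pi.single_eq_of_ne hne]⟩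
    have h2 : LinearIndependent ℂ e := by
      have h3 : LinearIndependent ℂ (fun i : ℕ => (Pi.single i (1 : ℂ) : ℕ → ℂ)) :=
        Pi.linearIndependent_single_one ℕ ℂ
      let ev : ZeroAtInftyContinuousMap ℕ ℂ →ₗ[ℂ] (ℕ → ℂ) :=
        { toFun := fun a => a
          map_add' := fun _ _ => rfl
          map_smul' := fun _ _ => rfl }
      exact LinearIndependent.of_comp ev h3
    exact Infinite.not_finite (α := ℕ) h2.finite
  · rintro _ ⟨a, rfl⟩ hne
    have hane : ∃ j, a j ≠ 0 := by
      by_contra hcon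
      push Not at hcon
      apply hne
      have : a = 0 := by
        ext j
        rw [hcon j]; rfl
      rw [this, map_zero]
    obtain ⟨j, hj⟩ := hane
    have hjpos : 0 < ‖a j‖ := norm_pos_iff.mpr hj
    -- functions with small supremum
    have hsup : ∀ (m : ℕ) (f : LipZero T) (η : ℝ), (∀ v, ‖f v‖ ≤ η) → ‖(A ^ m) f‖ ≤ 2 * η := by
      intro m f η hf
      have h0 : 0 ≤ η := (norm_nonneg _).trans (hf T.root)
      have h1 : ∀ v, ‖(A ^ m) f v‖ ≤ η := by
        intro v
        rw [hAdef, smul_pow_app hC, norm_mul, norm_pow]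
        have e1 : ‖lam‖ ^ m ≤ 1 := pow_le_one₀ (norm_nonneg _) hlam
        calc ‖lam‖ ^ m * ‖f (φ^[m] v)‖ ≤ 1 * η :=
              mul_le_mul e1 (hf _) (norm_nonneg _) zero_le_one
          _ = η := one_mul _
      apply norm_le
      · linarith [h1 T.root]
      · intro v
        exact (norm_sub_le _ _).trans (by linarith [h1 v, h1 (T.parent v)])
    -- the main estimate
    have hmain : ∀ (η : ℝ) (k : ℕ), (∀ i, k < i → ‖a i‖ ≤ η) → 0 ≤ η → (Nat.unpair k).1 = j →
        ‖(A ^ n k) (J a) - a j • d (Nat.unpair (Nat.unpair k).2).1‖ ≤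
          2 * η + (k + 1) * (‖a‖ * (1 / 2) ^ k) + ‖a‖ * (1 / 2) ^ k := by
      intro η k hη hη0 hkj
      set G := ofC0 T (Function.extend vv a 0) (extend_tendsto hinj (ha0 a)) with hG
      have e0 : (A ^ n k) (∑' i, a i • r i) = ∑' i, a i • (A ^ n k) (r i) := by
        rw [(A ^ n k).map_tsum (hsum a)]
        congr 1
        funext i
        rw [map_smul]
      have hsumA : Summable fun i => a i • (A ^ n k) (r i) := by
        have := (hsum a).mapL (A ^ n k)
        refine this.congr fun i => ?_
        rw [map_smul]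
      have e1 := hsumA.sum_add_tsum_nat_add (k + 1)
      have e2 : ∑ i ∈ Finset.range (k + 1), a i • (A ^ n k) (r i) =
          ∑ i ∈ Finset.range (k + 1), a i • ((A ^ n k) (z i) - tgt k i) +
          ∑ i ∈ Finset.range (k + 1), a i • tgt k i -
          (A ^ n k) (∑ i ∈ Finset.range (k + 1), a i • chi T (vv i)) := by
        rw [map_sum, ← Finset.sum_add_distrib, ← Finset.sum_sub_distrib]
        apply Finset.sum_congr rfl
        intro i _
        simp only [r, map_sub, map_smul, smul_sub]
        abel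
      have e3 : ∑ i ∈ Finset.range (k + 1), a i • tgt k i =
          a j • d (Nat.unpair (Nat.unpair k).2).1 := by
        rw [Finset.sum_eq_single j]
        · simp only [tgt, hkj, if_true]
        · intro i _ hij
          simp only [tgt, hkj, if_neg hij, smul_zero]
        · intro h
          exfalso
          apply h
          rw [Finset.mem_range, ← hkj]
          have := Nat.unpair_left_le k
          omega
      have e4 : (A ^ n k) (J a) - a j • d (Nat.unpair (Nat.unpair k).2).1 =
          (A ^ n k) (G - ∑ i ∈ Finset.range (k + 1), a i • chi T (vv i)) +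
          ∑ i ∈ Finset.range (k + 1), a i • ((A ^ n k) (z i) - tgt k i) +
          ∑' i, a (i + (k + 1)) • (A ^ n k) (r (i + (k + 1))) := by
        rw [hJ, map_add, e0, ← e1, e2, e3, map_sub]
        abel
      rw [e4]
      have f1 : ‖(A ^ n k) (G - ∑ i ∈ Finset.range (k + 1), a i • chi T (vv i))‖ ≤ 2 * η := by
        apply hsup
        intro v
        have g1 : (∑ i ∈ Finset.range (k + 1), a i • chi T (vv i)) v =
            ∑ i ∈ Finset.range (k + 1), a i * (if v = vv i then 1 else 0) := by
          have := map_sum (evalL (T := T) v) (fun i => a i • chi T (vv i)) (Finset.range (k + 1))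
          refine this.trans ?_
          apply Finset.sum_congr rfl
          intro i _
          show (a i • chi T (vv i)) v = _
          rw [smul_app, chi_app]
        rw [sub_app, g1, hG, ofC0_app]
        by_cases h : ∃ i, vv i = v
        · obtain ⟨i, rfl⟩ := h
          rw [hinj.extend_apply]
          by_cases hik : i ≤ k
          · rw [Finset.sum_eq_single i]
            · simp only [if_true, mul_one, sub_self, norm_zero]; exact hη0
            · intro l _ hli
              rw [if_neg (fun h' => hli (hinj h').symm), mul_zero]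
            · intro h'
              exact absurd (Finset.mem_range.mpr (by omega)) h'
          · rw [Finset.sum_eq_zero, sub_zero]
            · exact hη i (by omega)
            · intro l hl
              rw [Finset.mem_range] at hl
              rw [if_neg (fun h' => by have := hinj h'; omega), mul_zero]
        · rw [Function.extend_apply' _ _ _ h, Finset.sum_eq_zero, sub_zero]
          · simpa using hη0
          · intro l _
            rw [if_neg (fun h' => h ⟨l, h'.symm⟩), mul_zero]
      have f2 : ‖∑ i ∈ Finset.range (k + 1), a i • ((A ^ n k) (z i) - tgt k i)‖ ≤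
          (k + 1) * (‖a‖ * (1 / 2) ^ k) := by
        refine (norm_sum_le _ _).trans ?_
        calc ∑ i ∈ Finset.range (k + 1), ‖a i • ((A ^ n k) (z i) - tgt k i)‖
            ≤ ∑ i ∈ Finset.range (k + 1), (‖a‖ * (1 / 2) ^ k) := by
              apply Finset.sum_le_sum
              intro i hi
              rw [Finset.mem_range] at hi
              rw [norm_smul]
              exact mul_le_mul (hale a i) (hz2 k i (by omega)) (norm_nonneg _) (norm_nonneg _)
          _ = (k + 1) * (‖a‖ * (1 / 2) ^ k) := by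
              rw [Finset.sum_const, Finset.card_range, nsmul_eq_mul]; push_cast; ring
      have f3 : ‖∑' i, a (i + (k + 1)) • (A ^ n k) (r (i + (k + 1)))‖ ≤ ‖a‖ * (1 / 2) ^ k := by
        have h1 : ‖∑' i, a (i + (k + 1)) • (A ^ n k) (r (i + (k + 1)))‖ ≤
            ∑' i : ℕ, (‖a‖ * (1 / 2) ^ (k + 1)) * (1 / 2 : ℝ) ^ i := by
          refine tsum_of_norm_bounded (hgeo.mul_left _).hasSum fun i => ?_
          rw [norm_smul, mul_assoc, ← pow_add, add_comm (k + 1) i]
          exact mul_le_mul (hale a _) (hz3 k (i + (k + 1)) (by omega)) (norm_nonneg _)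
            (norm_nonneg _)
        rw [tsum_mul_left, hgeo2, pow_succ] at h1
        linarith
      refine (norm_add_le _ _).trans (add_le_add ((norm_add_le _ _).trans (add_le_add f1 f2)) f3)
    rw [Metric.dense_iff]
    intro y ε hε
    obtain ⟨_, hm, m, rfl⟩ := Metric.dense_iff.mp hd ((a j)⁻¹ • y) (ε / (4 * ‖a j‖)) (by positivity)
    have hm' : ‖a j • d m - y‖ < ε / 4 := by
      rw [Metric.mem_ball, dist_eq_norm] at hm
      have h1 : a j • d m - y = a j • (d m - (a j)⁻¹ • y) := by
        rw [smul_sub, smul_smul, mul_inv_cancel₀ hj, one_smul]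
      rw [h1, norm_smul]
      calc ‖a j‖ * ‖d m - (a j)⁻¹ • y‖ < ‖a j‖ * (ε / (4 * ‖a j‖)) :=
            mul_lt_mul_of_pos_left hm hjpos
        _ = ε / 4 := by field_simp
    -- tail of the coefficients
    have htail : ∃ k₀, ∀ i, k₀ < i → ‖a i‖ ≤ ε / 16 := by
      have h1 := ha0 a
      rw [Nat.cofinite_eq_atTop, Metric.tendsto_atTop] at h1
      obtain ⟨N, hN⟩ := h1 (ε / 16) (by positivity)
      refine ⟨N, fun i hi => ?_⟩
      have := hN i hi.le
      rw [dist_zero_right] at this
      exact this.le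
    obtain ⟨k₀, hk₀⟩ := htail
    have hlimk : Tendsto (fun k : ℕ => ((k : ℝ) + 2) * (‖a‖ * (1 / 2) ^ k)) atTop (𝓝 0) := by
      have h1 := tendsto_self_mul_const_pow_of_lt_one (r := (1 / 2 : ℝ)) (by norm_num) (by norm_num)
      have h2 : Tendsto (fun k : ℕ => (1 / 2 : ℝ) ^ k) atTop (𝓝 0) :=
        tendsto_pow_atTop_nhds_zero_of_lt_one (by norm_num) (by norm_num)
      have h3 := (h1.const_mul ‖a‖).add (h2.const_mul (2 * ‖a‖))
      rw [mul_zero, mul_zero, add_zero] at h3
      refine h3.congr fun k => ?_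
      ring
    obtain ⟨k₁, hk₁⟩ := (Metric.tendsto_atTop.mp hlimk) (ε / 4) (by positivity)
    let k := Nat.pair j (Nat.pair m (max k₀ k₁))
    have hkge : max k₀ k₁ ≤ k := (Nat.right_le_pair m _).trans (Nat.right_le_pair j _)
    have hk2 := hk₁ k ((le_max_right _ _).trans hkge)
    rw [dist_zero_right, Real.norm_eq_abs] at hk2
    have hk3 := (abs_lt.mp hk2).2
    have hfin := hmain (ε / 16) k (fun i hi => hk₀ i (by
      have := (le_max_left k₀ k₁).trans hkge
      omega)) (by positivity) (by simp [k])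
    have hdm : d (Nat.unpair (Nat.unpair k).2).1 = d m := by simp [k]
    rw [hdm] at hfin
    refine ⟨(A ^ n k) (J a), ?_, ⟨n k, rfl⟩⟩
    rw [Metric.mem_ball, dist_eq_norm]
    calc ‖(A ^ n k) (J a) - y‖ ≤ ‖(A ^ n k) (J a) - a j • d m‖ + ‖a j • d m - y‖ :=
          norm_sub_le_norm_sub_add_norm_sub _ _ _
      _ < ε := by nlinarith [hfin, hm', hk3]

end Q87.LipTree
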