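import Mathlib

/-! Matrix generated shift operators on bilateral sequence spaces. -/

set_option autoImplicit false
open scoped ENNReal

namespace Q87.MatShift

/-- The space `ℓ_p(V)` of bilateral sequences. -/
abbrev Seq (p : ℝ≥0∞) (V : Type*) [NormedAddCommGroup V] := lp (fun _ : ℤ => V) p

section basic
variable {V W : Type*} [NormedAddCommGroup V] [NormedAddCommGroup W] {p : ℝ≥0∞} [Fact (1 ≤ p)]

theorem toReal_pos (hp : p ≠ ⊤) : 0 < p.toReal :=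
  ENNReal.toReal_pos (zero_lt_one.trans_le Fact.out).ne' hp

theorem memlp_shift (hp : p ≠ ⊤) (k : ℤ) (M : ℝ) (f : Seq p V) (g : ℤ → W)
    (h : ∀ n, ‖g n‖ ≤ M * ‖f (n + k)‖) : Memℓp g p := by
  have hp0 := toReal_pos hp
  have hs : Summable fun n : ℤ => ‖f n‖ ^ p.toReal := (lp.memℓp f).summable hp0
  have hs2 : Summable fun n : ℤ => ‖f (n + k)‖ ^ p.toReal := (Equiv.addRight k).summable_iff.2 hs
  refine memℓp_gen ?_
  refine Summable.of_nonneg_of_le (fun n => by positivity) (fun n => ?_)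
    (hs2.mul_left (|M| ^ p.toReal))
  have h1 : ‖g n‖ ≤ |M| * ‖f (n + k)‖ :=
    (h n).trans (mul_le_mul_of_nonneg_right (le_abs_self M) (norm_nonneg _))
  calc ‖g n‖ ^ p.toReal ≤ (|M| * ‖f (n + k)‖) ^ p.toReal :=
        Real.rpow_le_rpow (norm_nonneg _) h1 hp0.le
    _ = _ := Real.mul_rpow (abs_nonneg M) (norm_nonneg _)

theorem norm_shift_le (hp : p ≠ ⊤) (k : ℤ) {M : ℝ} (hM : 0 ≤ M) (f : Seq p V) (g : Seq p W)
    (h : ∀ n, ‖g n‖ ≤ M * ‖f (n + k)‖) : ‖g‖ ≤ M * ‖f‖ := by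
  have hp0 := toReal_pos hp
  have hs : HasSum (fun n : ℤ => ‖f n‖ ^ p.toReal) (‖f‖ ^ p.toReal) := lp.hasSum_norm hp0 f
  have hs2 : HasSum (fun n : ℤ => ‖f (n + k)‖ ^ p.toReal) (‖f‖ ^ p.toReal) :=
    (Equiv.addRight k).hasSum_iff.2 hs
  have hs3 := hs2.mul_left (M ^ p.toReal)
  have hg : HasSum (fun n : ℤ => ‖g n‖ ^ p.toReal) (‖g‖ ^ p.toReal) := lp.hasSum_norm hp0 g
  have hle : ‖g‖ ^ p.toReal ≤ M ^ p.toReal * ‖f‖ ^ p.toReal := by
    refine hasSum_le (fun n => ?_) hg hs3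
    calc ‖g n‖ ^ p.toReal ≤ (M * ‖f (n + k)‖) ^ p.toReal :=
          Real.rpow_le_rpow (norm_nonneg _) (h n) hp0.le
      _ = _ := Real.mul_rpow hM (norm_nonneg _)
  rw [← Real.mul_rpow hM (norm_nonneg _)] at hle
  exact (Real.rpow_le_rpow_iff (norm_nonneg _) (by positivity) hp0).1 hle

end basic

section ops
variable {𝕂 : Type*} [RCLike 𝕂] {V : Type*} [NormedAddCommGroup V] [NormedSpace 𝕂 V]
  {p : ℝ≥0∞} [Fact (1 ≤ p)]

/-- The map `(x_n) ↦ (S_{n+1} x_{n+1})` on sequences. -/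
def shiftFun (S : ℤ → V →L[𝕂] V) (f : ℤ → V) : ℤ → V := fun n => S (n + 1) (f (n + 1))

theorem shiftFun_bound (S : ℤ → V →L[𝕂] V) (M : ℝ) (hS : ∀ n, ‖S n‖ ≤ M) (f : ℤ → V) (n : ℤ) :
    ‖shiftFun S f n‖ ≤ M * ‖f (n + 1)‖ :=
  ((S (n+1)).le_opNorm _).trans (mul_le_mul_of_nonneg_right (hS _) (norm_nonneg _))

theorem shiftFun_mem (hp : p ≠ ⊤) (S : ℤ → V →L[𝕂] V) (hS : ∃ M : ℝ, ∀ n, ‖S n‖ ≤ M)
    (f : Seq p V) : Memℓp (shiftFun S f) p := by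
  obtain ⟨M, hM⟩ := hS
  exact memlp_shift hp 1 M f _ (shiftFun_bound S M hM f)

theorem shift_add (hp : p ≠ ⊤) (S : ℤ → V →L[𝕂] V) (hS : ∃ M : ℝ, ∀ n, ‖S n‖ ≤ M)
    (f g : Seq p V) : (⟨shiftFun S (f + g : Seq p V), shiftFun_mem hp S hS (f + g)⟩ : Seq p V) =
      (⟨shiftFun S f, shiftFun_mem hp S hS f⟩ : Seq p V) + ⟨shiftFun S g, shiftFun_mem hp S hS g⟩ := by
  ext n
  exact (S (n+1)).map_add _ _

theorem shift_smul (hp : p ≠ ⊤) (S : ℤ → V →L[𝕂] V) (hS : ∃ M : ℝ, ∀ n, ‖S n‖ ≤ M)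
    (c : 𝕂) (f : Seq p V) :
    (⟨shiftFun S (c • f : Seq p V), shiftFun_mem hp S hS (c • f)⟩ : Seq p V) =
      c • (⟨shiftFun S f, shiftFun_mem hp S hS f⟩ : Seq p V) := by
  ext n
  exact (S (n+1)).map_smul _ _

/-- The shift operator as a linear map. -/
noncomputable def shiftLin (hp : p ≠ ⊤) (S : ℤ → V →L[𝕂] V) (hS : ∃ M : ℝ, ∀ n, ‖S n‖ ≤ M) :
    Seq p V →ₗ[𝕂] Seq p V where
  toFun f := ⟨shiftFun S f, shiftFun_mem hp S hS f⟩
  map_add' := shift_add hp S hS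
  map_smul' := shift_smul hp S hS

theorem shiftLin_bound (hp : p ≠ ⊤) (S : ℤ → V →L[𝕂] V) (hS : ∃ M : ℝ, ∀ n, ‖S n‖ ≤ M) :
    ∃ C : ℝ, ∀ f : Seq p V, ‖shiftLin hp S hS f‖ ≤ C * ‖f‖ := by
  obtain ⟨M, hM⟩ := id hS
  exact ⟨M, fun f => norm_shift_le hp 1 ((norm_nonneg _).trans (hM 0)) f _
    (shiftFun_bound S M hM f)⟩

/-- The shift operator `(x_n) ↦ (S_{n+1} x_{n+1})` on `ℓ_p(V)` generated by a bounded family. -/
noncomputable def shiftOp (hp : p ≠ ⊤) (S : ℤ → V →L[𝕂] V) (hS : ∃ M : ℝ, ∀ n, ‖S n‖ ≤ M) :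
    Seq p V →L[𝕂] Seq p V :=
  (shiftLin hp S hS).mkContinuousOfExistsBound (shiftLin_bound hp S hS)

@[simp] theorem shiftOp_apply (hp : p ≠ ⊤) (S : ℤ → V →L[𝕂] V) (hS : ∃ M : ℝ, ∀ n, ‖S n‖ ≤ M)
    (f : Seq p V) (n : ℤ) : shiftOp hp S hS f n = S (n + 1) (f (n + 1)) := rfl

/-- The diagonal operator `(x_n) ↦ (N x_n)`. -/
noncomputable def diagOp (hp : p ≠ ⊤) (N : V →L[𝕂] V) : Seq p V →L[𝕂] Seq p V :=
  have hb : ∀ (f : Seq p V) (n : ℤ), ‖N (f n)‖ ≤ ‖N‖ * ‖f (n + 0)‖ :=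
    fun f n => by rw [add_zero]; exact N.le_opNorm _
  LinearMap.mkContinuous
    { toFun := fun f => ⟨fun n => N (f n), memlp_shift hp 0 ‖N‖ f _ (hb f)⟩
      map_add' := fun f g => by
        ext n
        exact N.map_add _ _
      map_smul' := fun c f => by
        ext n
        exact N.map_smul _ _ }
    ‖N‖
    (fun f => norm_shift_le hp 0 (norm_nonneg _) f _ (hb f))

@[simp] theorem diagOp_apply (hp : p ≠ ⊤) (N : V →L[𝕂] V) (f : Seq p V) (n : ℤ) :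
    diagOp hp N f n = N (f n) := rfl

/-- Admissible scalar weights: bounded and bounded away from zero. -/
def IsWeight (ω : ℤ → 𝕂) : Prop := ∃ c C : ℝ, 0 < c ∧ ∀ n, c ≤ ‖ω n‖ ∧ ‖ω n‖ ≤ C

theorem IsWeight.bound {ω : ℤ → 𝕂} (hω : IsWeight ω) :
    ∃ M : ℝ, ∀ n, ‖ω n • ContinuousLinearMap.id 𝕂 𝕂‖ ≤ M := by
  obtain ⟨c, C, -, h⟩ := hω
  refine ⟨C, fun n => ?_⟩
  rw [norm_smul, ContinuousLinearMap.norm_id, mul_one]
  exact (h n).2

/-- The weighted backward shift `B_ω` on `ℓ_p(𝕂)`. -/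
noncomputable def weightedShift (hp : p ≠ ⊤) (ω : ℤ → 𝕂) (hω : IsWeight ω) :
    Seq p 𝕂 →L[𝕂] Seq p 𝕂 :=
  shiftOp hp (fun n => ω n • ContinuousLinearMap.id 𝕂 𝕂) hω.bound

@[simp] theorem weightedShift_apply (hp : p ≠ ⊤) (ω : ℤ → 𝕂) (hω : IsWeight ω)
    (f : Seq p 𝕂) (n : ℤ) : weightedShift hp ω hω f n = ω (n + 1) * f (n + 1) := by
  simp [weightedShift]

/-- The product `B_{ω 1} × ⋯ × B_{ω k}` acting coordinatewise on `ℓ_p(𝕂)^k`. -/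
noncomputable def prodShift (hp : p ≠ ⊤) {k : ℕ} (ω : Fin k → ℤ → 𝕂) (hω : ∀ j, IsWeight (ω j)) :
    (Fin k → Seq p 𝕂) →L[𝕂] (Fin k → Seq p 𝕂) :=
  ContinuousLinearMap.pi fun j =>
    (weightedShift hp (ω j) (hω j)).comp (ContinuousLinearMap.proj j)

@[simp] theorem prodShift_apply (hp : p ≠ ⊤) {k : ℕ} (ω : Fin k → ℤ → 𝕂)
    (hω : ∀ j, IsWeight (ω j)) (y : Fin k → Seq p 𝕂) (j : Fin k) :
    prodShift hp ω hω y j = weightedShift hp (ω j) (hω j) (y j) := rfl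

/-- cumulated weights -/
def cw {k : ℕ} (ω : Fin k → ℤ → 𝕂) (j : Fin k) : ℕ → ℤ → 𝕂
  | 0, _ => 1
  | n + 1, m => ω j (m + 1) * cw ω j n (m + 1)

theorem cw_ne {k : ℕ} (ω : Fin k → ℤ → 𝕂) (hω : ∀ j, IsWeight (ω j)) (j : Fin k) (n : ℕ) :
    ∀ m : ℤ, cw ω j n m ≠ 0 := by
  induction n with
  | zero => intro m; simp [cw]
  | succ n ih =>
    intro m
    rw [cw]
    refine mul_ne_zero ?_ (ih _)
    obtain ⟨c, C, hc, h⟩ := hω j
    exact norm_pos_iff.1 (hc.trans_le (h _).1)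

theorem prodShift_pow (hp : p ≠ ⊤) {k : ℕ} (ω : Fin k → ℤ → 𝕂) (hω : ∀ j, IsWeight (ω j))
    (n : ℕ) : ∀ (y : Fin k → Seq p 𝕂) (j : Fin k) (m : ℤ),
    ((prodShift hp ω hω ^ n) y j) m = cw ω j n m * y j (m + n) := by
  induction n with
  | zero => intro y j m; simp [cw]
  | succ n ih =>
    intro y j m
    rw [pow_succ', mul_apply_eq_comp, prodShift_apply, weightedShift_apply, ih, cw]
    push_cast
    rw [mul_assoc, add_assoc, add_comm (1:ℤ) n]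

/-- The general mechanism: a shift with a unipotent part is not a product of scalar shifts. -/
theorem not_conj {E : Type*} [NormedAddCommGroup E] [NormedSpace 𝕂 E]
    (σ B N : E →L[𝕂] E) (hB : ∀ x, ‖B x‖ = ‖x‖) (hBN : ∀ x, B (N x) = N (B x))
    (hN : ∀ x, N (N x) = 0) (hN0 : ∃ x, N x ≠ 0) (hσ : ∀ x, σ x = B (x + N x))
    (hp : p ≠ ⊤) {k : ℕ} (ω : Fin k → ℤ → 𝕂) (hω : ∀ j, IsWeight (ω j))
    (H : E ≃L[𝕂] (Fin k → Seq p 𝕂)) (hH : ∀ x, H (σ x) = prodShift hp ω hω (H x)) : False := by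
  set Wo := prodShift hp ω hω with hWo
  have hBn : ∀ (n : ℕ) (x : E), ‖(B ^ n) x‖ = ‖x‖ := by
    intro n
    induction n with
    | zero => intro x; simp
    | succ n ih => intro x; rw [pow_succ', mul_apply_eq_comp, hB, ih]
  have hBnN : ∀ (n : ℕ) (x : E), (B ^ n) (N x) = N ((B ^ n) x) := by
    intro n
    induction n with
    | zero => intro x; simp
    | succ n ih =>
      intro x
      rw [pow_succ', mul_apply_eq_comp, ih, hBN, mul_apply_eq_comp]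
  have hσn : ∀ (n : ℕ) (x : E), (σ ^ n) x = (B ^ n) (x + (n : 𝕂) • N x) := by
    intro n
    induction n with
    | zero => intro x; simp
    | succ n ih =>
      intro x
      rw [pow_succ', mul_apply_eq_comp, ih, hσ, ← hBnN, map_add N, map_smul N, hN,
        smul_zero, add_zero, ← map_add (B ^ n), pow_succ', mul_apply_eq_comp]
      push_cast
      rw [add_smul, one_smul, add_assoc]
  have hWn : ∀ (n : ℕ) (x : E), (Wo ^ n) (H x) = H ((σ ^ n) x) := by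
    intro n
    induction n with
    | zero => intro x; simp
    | succ n ih =>
      intro x
      rw [pow_succ', mul_apply_eq_comp, ih, ← hH, pow_succ',
        mul_apply_eq_comp]
  set C : ℝ := ‖(H : E →L[𝕂] (Fin k → Seq p 𝕂))‖ * ‖(H.symm : (Fin k → Seq p 𝕂) →L[𝕂] E)‖
    with hC
  have hC0 : 0 ≤ C := by positivity
  have ha : ∀ (n : ℕ) (y : Fin k → Seq p 𝕂),
      ‖(Wo ^ n) (y - (n : 𝕂) • H (N (H.symm y)))‖ ≤ C * ‖y‖ := by
    intro n y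
    have e : y - (n : 𝕂) • H (N (H.symm y)) = H (H.symm y - (n : 𝕂) • N (H.symm y)) := by
      rw [map_sub, map_smul, H.apply_symm_apply]
    rw [e, hWn, hσn, map_sub N, map_smul N, hN, smul_zero, sub_zero, sub_add_cancel]
    calc ‖H ((B ^ n) (H.symm y))‖
        ≤ ‖(H : E →L[𝕂] (Fin k → Seq p 𝕂))‖ * ‖(B ^ n) (H.symm y)‖ :=
          (H : E →L[𝕂] (Fin k → Seq p 𝕂)).le_opNorm _
      _ ≤ ‖(H : E →L[𝕂] (Fin k → Seq p 𝕂))‖ *
          (‖(H.symm : (Fin k → Seq p 𝕂) →L[𝕂] E)‖ * ‖y‖) := by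
          rw [hBn]
          exact mul_le_mul_of_nonneg_left
            ((H.symm : (Fin k → Seq p 𝕂) →L[𝕂] E).le_opNorm _) (norm_nonneg _)
      _ = C * ‖y‖ := by rw [hC]; ring
  have hb : ∀ (n : ℕ) (y : Fin k → Seq p 𝕂),
      ‖y + (n : 𝕂) • H (N (H.symm y))‖ ≤ C * ‖(Wo ^ n) y‖ := by
    intro n y
    have e : y + (n : 𝕂) • H (N (H.symm y)) = H (H.symm y + (n : 𝕂) • N (H.symm y)) := by
      rw [map_add, map_smul, H.apply_symm_apply]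
    have e2 : (σ ^ n) (H.symm y) = H.symm ((Wo ^ n) y) := by
      rw [← H.apply_symm_apply y, hWn, H.symm_apply_apply, H.symm_apply_apply]
    rw [e]
    calc ‖H (H.symm y + (n : 𝕂) • N (H.symm y))‖
        ≤ ‖(H : E →L[𝕂] (Fin k → Seq p 𝕂))‖ * ‖H.symm y + (n : 𝕂) • N (H.symm y)‖ :=
          (H : E →L[𝕂] (Fin k → Seq p 𝕂)).le_opNorm _
      _ = ‖(H : E →L[𝕂] (Fin k → Seq p 𝕂))‖ * ‖H.symm ((Wo ^ n) y)‖ := by
          rw [← hBn n, ← hσn, e2]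
      _ ≤ ‖(H : E →L[𝕂] (Fin k → Seq p 𝕂))‖ *
          (‖(H.symm : (Fin k → Seq p 𝕂) →L[𝕂] E)‖ * ‖(Wo ^ n) y‖) :=
          mul_le_mul_of_nonneg_left
            ((H.symm : (Fin k → Seq p 𝕂) →L[𝕂] E).le_opNorm _) (norm_nonneg _)
      _ = C * ‖(Wo ^ n) y‖ := by rw [hC]; ring
  -- evaluation bounds
  have hp0 : p ≠ 0 := (zero_lt_one.trans_le Fact.out).ne'
  have hev : ∀ (y : Fin k → Seq p 𝕂) (j : Fin k) (m : ℤ), ‖y j m‖ ≤ ‖y‖ := fun y j m =>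
    (lp.norm_apply_le_norm hp0 (y j) m).trans (norm_le_pi_norm y j)
  -- the key estimate
  have key : ∀ (j : Fin k) (m : ℤ) (n : ℕ), ‖cw ω j n m‖ ≤ C := by
    intro j m0 n0
    -- basis vectors
    let e : ℤ → Fin k → Seq p 𝕂 := fun m => Pi.single j (lp.single p m (1 : 𝕂))
    have hen : ∀ m, ‖e m‖ = 1 := by
      intro m
      have : ‖e m‖ = ‖(lp.single p m (1 : 𝕂) : Seq p 𝕂)‖ := by
        simp only [e]
        exact Pi.norm_single _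
      rw [this, lp.norm_single (zero_lt_one.trans_le Fact.out), norm_one]
    have hejm : ∀ m, e m j m = 1 := by
      intro m
      simp only [e, Pi.single_eq_same]
      exact lp.single_apply_self p m 1
    have hWe : ∀ (n : ℕ) (m : ℤ), (Wo ^ n) (e (m + n)) = cw ω j n m • e m := by
      intro n m
      funext i
      ext l
      rw [hWo, prodShift_pow]
      by_cases hij : i = j
      · subst hij
        simp only [e, Pi.smul_apply, Pi.single_eq_same, lp.coeFn_smul, smul_eq_mul]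
        by_cases hl : l = m
        · subst hl
          rw [lp.single_apply_self, lp.single_apply_self]
        · rw [lp.single_apply_ne p _ _ (fun h => hl (by omega)), lp.single_apply_ne p _ _ hl,
            mul_zero, mul_zero]
      · simp [e, hij]
    set m := m0 + n0 with hm
    set κ : 𝕂 := H (N (H.symm (e m))) j m with hκ
    have hA : ∀ n : ℕ, ‖cw ω j n (m - n)‖ * ‖1 - (n : 𝕂) * κ‖ ≤ C := by
      intro n
      have h1 := (hev ((Wo ^ n) (e m - (n : 𝕂) • H (N (H.symm (e m))))) j (m - n)).trans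
        (ha n (e m))
      rw [hWo, prodShift_pow, hen, mul_one, sub_add_cancel] at h1
      have h2 : (e m - (n : 𝕂) • H (N (H.symm (e m)))) j m = 1 - (n : 𝕂) * κ := by
        rw [hκ]
        simp only [Pi.sub_apply, Pi.smul_apply, lp.coeFn_sub, lp.coeFn_smul, smul_eq_mul, hejm]
      rw [h2, norm_mul] at h1
      exact h1
    have hB' : ∀ n : ℕ, ‖1 + (n : 𝕂) * κ‖ ≤ C * ‖cw ω j n (m - n)‖ := by
      intro n
      have h1 := (hev (e m + (n : 𝕂) • H (N (H.symm (e m)))) j m).trans (hb n (e m))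
      have h2 : (e m + (n : 𝕂) • H (N (H.symm (e m)))) j m = 1 + (n : 𝕂) * κ := by
        rw [hκ]
        simp only [Pi.add_apply, Pi.smul_apply, lp.coeFn_add, lp.coeFn_smul, smul_eq_mul, hejm]
      have h3 : (Wo ^ n) (e m) = cw ω j n (m - n) • e (m - n) := by
        have := hWe n (m - n)
        rwa [sub_add_cancel] at this
      rw [h2, h3, norm_smul, hen, mul_one] at h1
      exact h1
    have hκ0 : κ = 0 := by
      by_contra hne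
      have hkpos : 0 < ‖κ‖ := norm_pos_iff.2 hne
      obtain ⟨n, hn⟩ := exists_nat_gt ((C ^ 2 + 1) / ‖κ‖ ^ 2 + 1)
      have hn1 : (1 : ℝ) ≤ n := by
        have : (0:ℝ) ≤ (C ^ 2 + 1) / ‖κ‖ ^ 2 := by positivity
        linarith
      have h1 : ‖1 - (n : 𝕂) * κ‖ * ‖1 + (n : 𝕂) * κ‖ ≤ C ^ 2 := by
        calc ‖1 - (n : 𝕂) * κ‖ * ‖1 + (n : 𝕂) * κ‖
            ≤ ‖1 - (n : 𝕂) * κ‖ * (C * ‖cw ω j n (m - n)‖) :=
              mul_le_mul_of_nonneg_left (hB' n) (norm_nonneg _)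
          _ = C * (‖cw ω j n (m - n)‖ * ‖1 - (n : 𝕂) * κ‖) := by ring
          _ ≤ C * C := mul_le_mul_of_nonneg_left (hA n) hC0
          _ = C ^ 2 := by ring
      rw [← norm_mul] at h1
      have h2 : (1 - (n : 𝕂) * κ) * (1 + (n : 𝕂) * κ) = 1 - (n : 𝕂) ^ 2 * κ ^ 2 := by ring
      rw [h2] at h1
      have h3 : ‖(n : 𝕂) ^ 2 * κ ^ 2‖ - 1 ≤ ‖1 - (n : 𝕂) ^ 2 * κ ^ 2‖ := by
        have := norm_sub_norm_le ((n : 𝕂) ^ 2 * κ ^ 2) 1
        rw [norm_one, norm_sub_rev] at this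
        exact this
      rw [norm_mul, norm_pow, norm_pow, RCLike.norm_natCast] at h3
      have h4 : (C ^ 2 + 1) < (n:ℝ) * ‖κ‖ ^ 2 := by
        have : (C ^ 2 + 1) / ‖κ‖ ^ 2 < n := by linarith
        rwa [div_lt_iff₀ (by positivity)] at this
      have h5 : (n:ℝ) * ‖κ‖ ^ 2 ≤ (n:ℝ) ^ 2 * ‖κ‖ ^ 2 := by
        apply mul_le_mul_of_nonneg_right _ (by positivity)
        nlinarith
      linarith
    have := hA n0
    rw [hκ0, mul_zero, sub_zero, norm_one, mul_one, hm, add_sub_cancel_right] at this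
    exact this
  -- W is power bounded
  have hWb : ∀ (n : ℕ) (y : Fin k → Seq p 𝕂), ‖(Wo ^ n) y‖ ≤ C * ‖y‖ := by
    intro n y
    rw [pi_norm_le_iff_of_nonneg (by positivity)]
    intro j
    refine (norm_shift_le hp n hC0 (y j) _ (fun m => ?_)).trans
      (mul_le_mul_of_nonneg_left (norm_le_pi_norm y j) hC0)
    rw [hWo, prodShift_pow, norm_mul]
    exact mul_le_mul_of_nonneg_right (key j m n) (norm_nonneg _)
  obtain ⟨x, hx⟩ := hN0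
  have hσb : ∀ n : ℕ, ‖x + (n : 𝕂) • N x‖ ≤ C * C * ‖x‖ := by
    intro n
    rw [← hBn n, ← hσn]
    have e2 : (σ ^ n) x = H.symm ((Wo ^ n) (H x)) := by
      rw [hWn, H.symm_apply_apply]
    rw [e2]
    calc ‖H.symm ((Wo ^ n) (H x))‖
        ≤ ‖(H.symm : (Fin k → Seq p 𝕂) →L[𝕂] E)‖ * ‖(Wo ^ n) (H x)‖ :=
          (H.symm : (Fin k → Seq p 𝕂) →L[𝕂] E).le_opNorm _
      _ ≤ ‖(H.symm : (Fin k → Seq p 𝕂) →L[𝕂] E)‖ *
          (C * (‖(H : E →L[𝕂] (Fin k → Seq p 𝕂))‖ * ‖x‖)) := by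
          refine mul_le_mul_of_nonneg_left ((hWb n _).trans ?_) (norm_nonneg _)
          exact mul_le_mul_of_nonneg_left
            ((H : E →L[𝕂] (Fin k → Seq p 𝕂)).le_opNorm _) hC0
      _ = C * C * ‖x‖ := by rw [hC]; ring
  have hxpos : 0 < ‖N x‖ := norm_pos_iff.2 hx
  obtain ⟨n, hn⟩ := exists_nat_gt ((C * C * ‖x‖ + ‖x‖) / ‖N x‖)
  have h1 := hσb n
  have h2 : ‖(n : 𝕂) • N x‖ - ‖x‖ ≤ ‖x + (n : 𝕂) • N x‖ := by
    have := norm_sub_norm_le ((n : 𝕂) • N x) (-x)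
    rw [norm_neg, sub_neg_eq_add, add_comm ((n : 𝕂) • N x) x] at this
    exact this
  rw [norm_smul, RCLike.norm_natCast] at h2
  rw [div_lt_iff₀ hxpos] at hn
  linarith

/-- A constant family `1 + N` with `N ≠ 0`, `N² = 0` generates a shift operator which is not
linearly conjugate to a finite product of weighted shifts. -/
theorem unipotent_not_conj [CompleteSpace V] (hp : p ≠ ⊤) (N : V →L[𝕂] V) (hNN : ∀ v, N (N v) = 0)
    (hN0 : ∃ v, N v ≠ 0) (hS : ∃ M : ℝ, ∀ _ : ℤ, ‖ContinuousLinearMap.id 𝕂 V + N‖ ≤ M)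
    {k : ℕ} (ω : Fin k → ℤ → 𝕂) (hω : ∀ j, IsWeight (ω j))
    (H : Seq p V →L[𝕂] (Fin k → Seq p 𝕂)) (hbij : Function.Bijective H)
    (hH : ∀ x, H (shiftOp hp (fun _ => ContinuousLinearMap.id 𝕂 V + N) hS x)
      = prodShift hp ω hω (H x)) : False := by
  have hI : ∃ M : ℝ, ∀ _ : ℤ, ‖ContinuousLinearMap.id 𝕂 V‖ ≤ M := ⟨_, fun _ => le_rfl⟩
  let He : Seq p V ≃L[𝕂] (Fin k → Seq p 𝕂) :=
    ContinuousLinearEquiv.ofBijective H (LinearMap.ker_eq_bot.2 hbij.1)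
      (LinearMap.range_eq_top.2 hbij.2)
  refine not_conj (shiftOp hp (fun _ => ContinuousLinearMap.id 𝕂 V + N) hS)
    (shiftOp hp (fun _ => ContinuousLinearMap.id 𝕂 V) hI) (diagOp hp N) ?_ ?_ ?_ ?_ ?_
    hp ω hω He (fun x => hH x)
  · intro x
    apply le_antisymm
    · have := norm_shift_le hp 1 zero_le_one x
        (shiftOp hp (fun _ => ContinuousLinearMap.id 𝕂 V) hI x) (fun n => by simp)
      simpa using this
    · have := norm_shift_le hp (-1) zero_le_one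
        (shiftOp hp (fun _ => ContinuousLinearMap.id 𝕂 V) hI x) x (fun n => by simp)
      simpa using this
  · intro x; ext n; simp
  · intro x; ext n; simp [hNN]
  · obtain ⟨v, hv⟩ := hN0
    refine ⟨lp.single p 0 v, fun h => hv ?_⟩
    have := congrArg (fun f : Seq p V => f 0) h
    simpa using this
  · intro x; ext n; simp

end ops

/-- `𝕂^d` with its Euclidean norm. -/
abbrev Eu (𝕂 : Type*) (d : ℕ) := EuclideanSpace 𝕂 (Fin d)

/-- Linear maps of `𝕂^d` (all are bounded). -/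
abbrev EndEu (𝕂 : Type*) [RCLike 𝕂] (d : ℕ) := Eu 𝕂 d →L[𝕂] Eu 𝕂 d

/-- The operator norms are bounded by one constant. -/
def OpBdd {𝕂 : Type*} [RCLike 𝕂] {d : ℕ} (S : ℤ → EndEu 𝕂 d) : Prop :=
  ∃ M : ℝ, ∀ n, ‖S n‖ ≤ M

/-- `R n` is the inverse of `S n` for each `n`. -/
def IsInv {𝕂 : Type*} [RCLike 𝕂] {d : ℕ} (S R : ℤ → EndEu 𝕂 d) : Prop :=
  ∀ n x, R n (S n x) = x ∧ S n (R n x) = x

/-- A two-sided family of invertible maps of `𝕂^d`, bounded together with their inverses. -/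
structure MatFamily (𝕂 : Type*) [RCLike 𝕂] (d : ℕ) where
  /-- the maps -/
  S : ℤ → EndEu 𝕂 d
  /-- their inverses -/
  R : ℤ → EndEu 𝕂 d
  inv : IsInv S R
  boundS : OpBdd S
  boundR : OpBdd R

/-- The sequence `(S_{n+1} x_{n+1})_n`. -/
def fShift {𝕂 : Type*} [RCLike 𝕂] {d : ℕ} (S : ℤ → EndEu 𝕂 d) (x : ℤ → Eu 𝕂 d) : ℤ → Eu 𝕂 d :=
  fun n => S (n + 1) (x (n + 1))

theorem fShift_mem {𝕂 : Type*} [RCLike 𝕂] {d : ℕ} {p : ℝ≥0∞} [Fact (1 ≤ p)] (hp : p ≠ ⊤)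
    (A : MatFamily 𝕂 d) (x : Seq p (Eu 𝕂 d)) : Memℓp (fShift A.S x) p :=
  shiftFun_mem hp A.S A.boundS x

/-- The shift operator `σ_S` generated by the family, as a map of `ℓ_p(𝕂^d)`. -/
def MatFamily.shift {𝕂 : Type*} [RCLike 𝕂] {d : ℕ} {p : ℝ≥0∞} [Fact (1 ≤ p)] (hp : p ≠ ⊤)
    (A : MatFamily 𝕂 d) : Seq p (Eu 𝕂 d) → Seq p (Eu 𝕂 d) :=
  fun x => ⟨fShift A.S x, fShift_mem hp A x⟩

theorem wShift_mem {𝕂 : Type*} [RCLike 𝕂] {p : ℝ≥0∞} [Fact (1 ≤ p)] (hp : p ≠ ⊤)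
    {ω : ℤ → 𝕂} (hω : IsWeight ω) (x : Seq p 𝕂) : Memℓp (fun n => ω (n + 1) * x (n + 1)) p := by
  obtain ⟨c, C, -, h⟩ := hω
  refine memlp_shift hp 1 C x _ (fun n => ?_)
  rw [norm_mul]
  exact mul_le_mul_of_nonneg_right (h _).2 (norm_nonneg _)

/-- The weighted backward shift `B_ω : (x_n) ↦ (ω_{n+1} x_{n+1})` on `ℓ_p(𝕂)`. -/
def wShift {𝕂 : Type*} [RCLike 𝕂] {p : ℝ≥0∞} [Fact (1 ≤ p)] (hp : p ≠ ⊤)
    {ω : ℤ → 𝕂} (hω : IsWeight ω) : Seq p 𝕂 → Seq p 𝕂 :=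
  fun x => ⟨fun n => ω (n + 1) * x (n + 1), wShift_mem hp hω x⟩

/-- The product `B_{ω 1} × ⋯ × B_{ω k}` acting coordinatewise on `ℓ_p(𝕂)^k`. -/
def pShift {𝕂 : Type*} [RCLike 𝕂] {p : ℝ≥0∞} [Fact (1 ≤ p)] (hp : p ≠ ⊤) {k : ℕ}
    {ω : Fin k → ℤ → 𝕂} (hω : ∀ j, IsWeight (ω j)) : (Fin k → Seq p 𝕂) → (Fin k → Seq p 𝕂) :=
  fun y j => wShift hp (hω j) (y j)

/-- Linear conjugacy of two maps: a bounded linear bijection intertwines them. -/
def LinConj (𝕂 : Type*) [RCLike 𝕂] {E F : Type*} [NormedAddCommGroup E] [NormedSpace 𝕂 E]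
    [NormedAddCommGroup F] [NormedSpace 𝕂 F] (T₁ : E → E) (T₂ : F → F) : Prop :=
  ∃ H : E →L[𝕂] F, Function.Bijective H ∧ ∀ x, H (T₁ x) = T₂ (H x)

/-- The shift operator `σ_S` on `ℓ_p(𝕂^d)` is linearly conjugate to the product of some number
`k` of weighted backward shifts on `ℓ_p(𝕂)`. -/
def ConjToProduct {𝕂 : Type*} [RCLike 𝕂] {d : ℕ} {p : ℝ≥0∞} [Fact (1 ≤ p)] (hp : p ≠ ⊤)
    (A : MatFamily 𝕂 d) : Prop :=
  ∃ (k : ℕ) (ω : Fin k → ℤ → 𝕂) (hω : ∀ j, IsWeight (ω j)),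
    LinConj 𝕂 (A.shift hp) (pShift hp hω)

theorem not_conjToProduct {𝕂 : Type*} [RCLike 𝕂] {d : ℕ} {p : ℝ≥0∞} [Fact (1 ≤ p)] (hp : p ≠ ⊤)
    (A : MatFamily 𝕂 d) (N : EndEu 𝕂 d) (hA : ∀ n, A.S n = ContinuousLinearMap.id 𝕂 (Eu 𝕂 d) + N)
    (hNN : ∀ v, N (N v) = 0) (hN0 : ∃ v, N v ≠ 0) : ¬ ConjToProduct hp A := by
  rintro ⟨k, ω, hω, H, hbij, hH⟩
  refine unipotent_not_conj hp N hNN hN0 ⟨_, fun _ => le_rfl⟩ ω hω H hbij (fun x => ?_)
  have h1 : A.shift hp x = shiftOp hp (fun _ => ContinuousLinearMap.id 𝕂 (Eu 𝕂 d) + N)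
      ⟨_, fun _ => le_rfl⟩ x := by
    ext n i
    rw [shiftOp_apply, ← hA (n + 1)]
    rfl
  rw [← h1, hH]
  funext j
  ext n
  rw [prodShift_apply, weightedShift_apply]
  rfl

end Q87.MatShift
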