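import Mathlib

/-! Newton coordinates for unilateral weighted shifts and disjoint mixing of the powers of `I + T`. -/

set_option autoImplicit false

open Polynomial Filter Topology
open scoped fwdDiff

namespace Q87.NewtonShift

/-- The sequence space `ℓ²(ℕ)`. -/
abbrev E : Type := lp (fun _ : ℕ => ℂ) 2

/-- `m`-th forward difference at `0`. -/
noncomputable def dd (m : ℕ) (p : ℂ[X]) : ℂ := (fwdDiff (1 : ℂ))^[m] (fun x => p.eval x) 0

theorem dd_add (m : ℕ) (p q : ℂ[X]) : dd m (p + q) = dd m p + dd m q := by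
  unfold dd
  have : (fun x => (p + q).eval x) = (fun x => p.eval x) + fun x => q.eval x := by
    funext x; simp
  rw [this, fwdDiff_iter_add]; rfl

theorem dd_smul (m : ℕ) (c : ℂ) (p : ℂ[X]) : dd m (c • p) = c * dd m p := by
  unfold dd
  have : (fun x => (c • p).eval x) = c • fun x => p.eval x := by funext x; simp
  rw [this, fwdDiff_iter_const_smul]; rfl

theorem dd_lt (m : ℕ) (p : ℂ[X]) (h : p.natDegree < m) : dd m p = 0 := by
  unfold dd
  exact congrFun (Polynomial.fwdDiff_iter_eq_zero_of_degree_lt h) 0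

theorem dd_X_pow (m : ℕ) : dd m (X ^ m) = (m.factorial : ℂ) := by
  unfold dd
  have : (fun x => (X ^ m : ℂ[X]).eval x) = fun r : ℂ => r ^ m := by funext x; simp
  rw [this, fwdDiff_iter_eq_factorial]; rfl

theorem dd_taylor (m : ℕ) (p : ℂ[X]) : dd m (taylor 1 p) = dd m p + dd (m + 1) p := by
  unfold dd
  have : (fun x => (taylor 1 p).eval x) = (fun x => p.eval x) +
      fwdDiff (1 : ℂ) fun x => p.eval x := by
    funext x
    rw [taylor_eval, Pi.add_apply, fwdDiff]; ring
  rw [this, fwdDiff_iter_add, Function.iterate_succ_apply]; rfl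

variable (w : ℕ → ℝ)

/-- products of weights -/
noncomputable def beta (m : ℕ) : ℂ := ∏ i ∈ Finset.range m, (w (i + 1) : ℂ)

theorem beta_ne (hw : ∀ n, 0 < w n) (m : ℕ) : beta w m ≠ 0 := by
  unfold beta
  rw [Finset.prod_ne_zero_iff]
  intro i _
  exact_mod_cast (hw (i + 1)).ne'

theorem beta_succ (m : ℕ) : beta w (m + 1) = beta w m * w (m + 1) := by
  unfold beta; rw [Finset.prod_range_succ]

theorem mem_lp (p : ℂ[X]) : Memℓp (fun m => dd m p / beta w m) 2 := by
  apply memℓp_gen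
  apply summable_of_hasFiniteSupport
  refine (Set.finite_Iic p.natDegree).subset ?_
  intro m hm
  by_contra hcon
  rw [Set.mem_Iic, not_le] at hcon
  apply hm
  show ‖dd m p / beta w m‖ ^ (2 : ENNReal).toReal = 0
  rw [dd_lt m p hcon]; simp

/-- The Newton coordinate map. -/
noncomputable def Lam : ℂ[X] →ₗ[ℂ] E where
  toFun p := ⟨fun m => dd m p / beta w m, mem_lp w p⟩
  map_add' p q := by
    apply Subtype.ext; funext m
    show dd m (p + q) / beta w m = dd m p / beta w m + dd m q / beta w m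
    rw [dd_add, add_div]
  map_smul' c p := by
    apply Subtype.ext; funext m
    show dd m (c • p) / beta w m = c * (dd m p / beta w m)
    rw [dd_smul, mul_div_assoc]

theorem Lam_apply (p : ℂ[X]) (m : ℕ) : Lam w p m = dd m p / beta w m := rfl

/-- All unit vectors are in the range. -/
theorem single_mem (hw : ∀ n, 0 < w n) (m : ℕ) (c : ℂ) :
    (lp.single 2 m c : E) ∈ LinearMap.range (Lam w) := by
  induction m using Nat.strong_induction_on generalizing c with
  | _ m ih =>
    have h1 : (lp.single 2 m (dd m (X ^ m) / beta w m) : E) =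
        Lam w (X ^ m) - ∑ k ∈ Finset.range m, lp.single 2 k (dd k (X ^ m) / beta w k) := by
      apply Subtype.ext; funext n
      rw [lp.coeFn_sub, Pi.sub_apply, lp.coeFn_sum, Finset.sum_apply, Lam_apply]
      simp only [lp.single_apply]
      rcases lt_trichotomy n m with h | h | h
      · rw [Finset.sum_eq_single_of_mem n (Finset.mem_range.2 h)]
        · simp [h.ne']
        · intro b _ hb
          simp [hb.symm]
      · subst h
        rw [Finset.sum_eq_zero]
        · simp
        · intro b hb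
          have := (Finset.mem_range.1 hb).ne'
          simp [this]
      · rw [Finset.sum_eq_zero]
        · rw [dd_lt n (X ^ m) (by simpa using h)]
          simp [h.ne']
        · intro b hb
          have : b < n := (Finset.mem_range.1 hb).trans h
          simp [this.ne']
    have h2 : (lp.single 2 m (dd m (X ^ m) / beta w m) : E) ∈ LinearMap.range (Lam w) := by
      rw [h1]
      refine Submodule.sub_mem _ ⟨_, rfl⟩ (Submodule.sum_mem _ fun k hk => ?_)
      exact ih k (Finset.mem_range.1 hk) _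
    have h3 : dd m (X ^ m) / beta w m ≠ 0 := by
      rw [dd_X_pow]
      exact div_ne_zero (by exact_mod_cast m.factorial_ne_zero) (beta_ne w hw m)
    have h4 : (lp.single 2 m c : E) =
        (c / (dd m (X ^ m) / beta w m)) • lp.single 2 m (dd m (X ^ m) / beta w m) := by
      rw [← lp.single_smul, smul_eq_mul, div_mul_cancel₀ _ h3]
    rw [h4]
    exact Submodule.smul_mem _ _ h2

theorem dense_range (hw : ∀ n, 0 < w n) : DenseRange (Lam w) := by
  have h : (LinearMap.range (Lam w)).topologicalClosure = ⊤ := by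
    rw [eq_top_iff]
    intro f _
    have hs := lp.hasSum_single (p := 2) (by norm_num) f
    refine (Submodule.isClosed_topologicalClosure _).mem_of_tendsto hs ?_
    refine Eventually.of_forall fun s => ?_
    refine Submodule.le_topologicalClosure _ (Submodule.sum_mem _ fun k _ => ?_)
    exact single_mem w hw k _
  have h2 : Dense (LinearMap.range (Lam w) : Set E) :=
    Submodule.dense_iff_topologicalClosure_eq_top.2 h
  exact h2

/-- `T` is the unilateral weighted shift with weights `w`: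
`T (x₀, x₁, x₂, …) = (w₁ x₁, w₂ x₂, …)`. -/
def IsShift (T : E →L[ℂ] E) : Prop := ∀ (x : E) (n : ℕ), T x n = w (n + 1) * x (n + 1)

variable {w}

theorem shift_Lam (hw : ∀ n, 0 < w n) {T : E →L[ℂ] E} (hT : IsShift w T) (p : ℂ[X]) :
    (1 + T) (Lam w p) = Lam w (taylor 1 p) := by
  apply Subtype.ext; funext m
  show Lam w p m + T (Lam w p) m = _
  rw [hT, Lam_apply, Lam_apply]
  show _ = dd m (taylor 1 p) / beta w m
  rw [dd_taylor, beta_succ]
  have h1 := beta_ne w hw m
  have h2 : (w (m + 1) : ℂ) ≠ 0 := by exact_mod_cast (hw (m + 1)).ne'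
  field_simp

theorem shift_pow_Lam (hw : ∀ n, 0 < w n) {T : E →L[ℂ] E} (hT : IsShift w T) (p : ℂ[X]) (n : ℕ) :
    ((1 + T) ^ n) (Lam w p) = Lam w (taylor (n : ℂ) p) := by
  induction n with
  | zero => simp [taylor_zero]
  | succ n ih =>
    rw [pow_succ', mul_apply_eq_comp, ih, shift_Lam hw hT, taylor_taylor]
    congr 3
    push_cast; ring

/-- The dilation `t ↦ p(t / k)`. -/
noncomputable def dil (k : ℂ) (p : ℂ[X]) : ℂ[X] := p.comp (C k⁻¹ * X)

theorem dil_taylor (k r : ℂ) (hk : k ≠ 0) (p : ℂ[X]) :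
    taylor (r * k) (dil k p) = dil k (taylor r p) := by
  unfold dil
  rw [taylor_apply, taylor_apply, comp_assoc, comp_assoc]
  congr 1
  simp only [mul_comp, C_comp, X_comp, add_comp, mul_add]
  rw [← C_mul]
  congr 2
  field_simp

theorem dil_limit (s : ℕ) (P : ℂ[X]) :
    Tendsto (fun k : ℕ => Lam w (X ^ s * dil (k : ℂ) P)) atTop (𝓝 (P.coeff 0 • Lam w (X ^ s))) := by
  have h1 : ∀ k : ℕ, Lam w (X ^ s * dil (k : ℂ) P) =
      ∑ i ∈ Finset.range (P.natDegree + 1),
        (P.coeff i * ((k : ℂ)⁻¹) ^ i) • Lam w (X ^ (s + i)) := by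
    intro k
    unfold dil
    rw [comp, eval₂_eq_sum_range, Finset.mul_sum, map_sum]
    refine Finset.sum_congr rfl fun i _ => ?_
    rw [← map_smul]
    congr 1
    rw [mul_pow, ← C_pow, smul_eq_C_mul, C_mul, pow_add]
    ring
  have h2 : P.coeff 0 • Lam w (X ^ s) = ∑ i ∈ Finset.range (P.natDegree + 1),
        (P.coeff i * (if i = 0 then 1 else 0)) • Lam w (X ^ (s + i)) := by
    rw [Finset.sum_eq_single_of_mem 0 (Finset.mem_range.2 (Nat.succ_pos _))]
    · simp
    · intro i _ hi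
      simp [hi]
  rw [h2]
  simp only [h1]
  refine tendsto_finsetSum _ fun i _ => ?_
  refine Tendsto.smul_const ?_ _
  refine Tendsto.const_mul _ ?_
  by_cases hi : i = 0
  · subst hi; simp
  · rw [if_neg hi]
    have h3 : Tendsto (fun k : ℕ => ((k : ℂ)⁻¹)) atTop (𝓝 0) := tendsto_inv_atTop_nhds_zero_nat
    have := h3.pow i
    rwa [zero_pow hi] at this

/-- Lagrange basis polynomials on `0, …, N`. -/
noncomputable def Lg (N j : ℕ) : ℂ[X] :=
  Lagrange.basis (Finset.range (N + 1)) (fun i : ℕ => (i : ℂ)) j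

theorem Lg_eval (N i j : ℕ) (hi : i ≤ N) (hj : j ≤ N) :
    (Lg N j).eval (i : ℂ) = if i = j then 1 else 0 := by
  have hinj : Set.InjOn (fun i : ℕ => (i : ℂ)) (Finset.range (N + 1)) :=
    fun a _ b _ h => Nat.cast_injective h
  by_cases h : i = j
  · subst h
    rw [if_pos rfl]
    exact Lagrange.eval_basis_self hinj (Finset.mem_range.2 (Nat.lt_succ_of_le hi))
  · rw [if_neg h]
    exact Lagrange.eval_basis_of_ne (fun h2 => h h2.symm) (Finset.mem_range.2 (Nat.lt_succ_of_le hi))

/-- The polynomial `(t - j)^s L_j(t)^(s+1)`. -/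
noncomputable def QQ (N j s : ℕ) : ℂ[X] := (X - C (j : ℂ)) ^ s * (Lg N j) ^ (s + 1)

/-- Its expansion at an integer point. -/
theorem QQ_taylor (N i j s : ℕ) (hi : i ≤ N) (hj : j ≤ N) :
    ∃ P : ℂ[X], taylor (i : ℂ) (QQ N j s) = X ^ s * P ∧ P.coeff 0 = if i = j then 1 else 0 := by
  unfold QQ
  rw [taylor_mul, taylor_pow, taylor_pow, map_sub, taylor_X, taylor_C]
  by_cases h : i = j
  · subst h
    refine ⟨(taylor (i : ℂ) (Lg N i)) ^ (s + 1), by rw [add_sub_cancel_right], ?_⟩
    rw [if_pos rfl, coeff_zero_eq_eval_zero, eval_pow, taylor_eval, zero_add,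
      Lg_eval N i i hi hi, if_pos rfl, one_pow]
  · have h0 : (taylor (i : ℂ) (Lg N j)).coeff 0 = 0 := by
      rw [taylor_coeff_zero, Lg_eval N i j hi hj, if_neg h]
    obtain ⟨G, hG⟩ := X_dvd_iff.2 h0
    refine ⟨(X + C (i : ℂ) - C (j : ℂ)) ^ s * (X * G ^ (s + 1)), ?_, ?_⟩
    · rw [hG]; ring
    · rw [if_neg h, coeff_zero_eq_eval_zero]; simp

/-- The approximating polynomials. -/
noncomputable def XX (N : ℕ) (Y : ℕ → ℂ[X]) (k : ℕ) : ℂ[X] :=
  ∑ j ∈ Finset.range (N + 1), ∑ s ∈ Finset.range ((Y j).natDegree + 1),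
    ((Y j).coeff s * (k : ℂ) ^ s) • dil (k : ℂ) (QQ N j s)

theorem XX_limit (hw : ∀ n, 0 < w n) {T : E →L[ℂ] E} (hT : IsShift w T) (N : ℕ) (Y : ℕ → ℂ[X])
    (i : ℕ) (hi : i ≤ N) :
    Tendsto (fun k : ℕ => ((1 + T) ^ (i * k)) (Lam w (XX N Y k))) atTop (𝓝 (Lam w (Y i))) := by
  have h1 : ∀ j ∈ Finset.range (N + 1), ∀ s : ℕ, ∃ P : ℂ[X],
      taylor (i : ℂ) (QQ N j s) = X ^ s * P ∧ P.coeff 0 = if i = j then 1 else 0 :=
    fun j hj s => QQ_taylor N i j s hi (Nat.lt_succ_iff.1 (Finset.mem_range.1 hj))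
  choose! P hP hP0 using h1
  have h2 : ∀ k : ℕ, 1 ≤ k → ((1 + T) ^ (i * k)) (Lam w (XX N Y k)) =
      ∑ j ∈ Finset.range (N + 1), ∑ s ∈ Finset.range ((Y j).natDegree + 1),
        (Y j).coeff s • Lam w (X ^ s * dil (k : ℂ) (P j s)) := by
    intro k hk
    have hk0 : (k : ℂ) ≠ 0 := by exact_mod_cast (by omega : k ≠ 0)
    rw [shift_pow_Lam hw hT, XX, map_sum, map_sum]
    refine Finset.sum_congr rfl fun j hj => ?_
    rw [map_sum, map_sum]
    refine Finset.sum_congr rfl fun s _ => ?_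
    rw [map_smul, map_smul, Nat.cast_mul, dil_taylor _ _ hk0, hP j hj s, mul_smul]
    congr 1
    rw [← map_smul]
    congr 1
    unfold dil
    rw [mul_comp, X_pow_comp, mul_pow, ← C_pow, smul_eq_C_mul, ← mul_assoc, ← mul_assoc, ← C_mul,
      ← mul_pow, mul_inv_cancel₀ hk0, one_pow, C_1, one_mul]
  have h3 : Lam w (Y i) = ∑ j ∈ Finset.range (N + 1), ∑ s ∈ Finset.range ((Y j).natDegree + 1),
        (Y j).coeff s • ((if i = j then (1 : ℂ) else 0) • Lam w (X ^ s)) := by
    rw [Finset.sum_eq_single_of_mem i (Finset.mem_range.2 (Nat.lt_succ_of_le hi))]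
    · conv_lhs => rw [(Y i).as_sum_range]
      rw [map_sum]
      refine Finset.sum_congr rfl fun s _ => ?_
      rw [if_pos rfl, one_smul, ← map_smul, smul_eq_C_mul, C_mul_X_pow_eq_monomial]
    · intro j _ hj
      refine Finset.sum_eq_zero fun s _ => ?_
      rw [if_neg hj.symm, zero_smul, smul_zero]
  rw [h3]
  have h4 : Tendsto (fun k : ℕ => ∑ j ∈ Finset.range (N + 1),
      ∑ s ∈ Finset.range ((Y j).natDegree + 1),
        (Y j).coeff s • Lam w (X ^ s * dil (k : ℂ) (P j s))) atTop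
      (𝓝 (∑ j ∈ Finset.range (N + 1), ∑ s ∈ Finset.range ((Y j).natDegree + 1),
        (Y j).coeff s • ((if i = j then (1 : ℂ) else 0) • Lam w (X ^ s)))) := by
    refine tendsto_finsetSum _ fun j hj => tendsto_finsetSum _ fun s _ => ?_
    refine Tendsto.const_smul ?_ _
    rw [← hP0 j hj s]
    exact dil_limit s (P j s)
  refine h4.congr' ?_
  filter_upwards [eventually_ge_atTop 1] with k hk
  exact (h2 k hk).symm

/-- The operators `I + T, (I + T)², …, (I + T)^N` are disjoint mixing. -/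
theorem disjoint_mixing (hw : ∀ n, 0 < w n) {T : E →L[ℂ] E} (hT : IsShift w T) (N : ℕ)
    (U : ℕ → Set E) (hU : ∀ i ≤ N, IsOpen (U i)) (hU2 : ∀ i ≤ N, (U i).Nonempty) :
    ∀ᶠ k in atTop, ∃ x : E, ∀ i ≤ N, ((1 + T) ^ (i * k)) x ∈ U i := by
  have h1 : ∀ i, ∃ Y : ℂ[X], i ≤ N → Lam w Y ∈ U i := by
    intro i
    by_cases h : i ≤ N
    · obtain ⟨Y, hY⟩ := (dense_range w hw).exists_mem_open (hU i h) (hU2 i h)
      exact ⟨Y, fun _ => hY⟩
    · exact ⟨0, fun h2 => absurd h2 h⟩
  choose Y hY using h1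
  have h2 : ∀ i ∈ Finset.range (N + 1), ∀ᶠ k : ℕ in atTop,
      ((1 + T) ^ (i * k)) (Lam w (XX N Y k)) ∈ U i := by
    intro i hi
    have hi' := Nat.lt_succ_iff.1 (Finset.mem_range.1 hi)
    exact (XX_limit hw hT N Y i hi').eventually ((hU i hi').mem_nhds (hY i hi'))
  have h3 := (Finset.eventually_all (Finset.range (N + 1))).2 h2
  filter_upwards [h3] with k hk
  exact ⟨_, fun i hi => hk i (Finset.mem_range.2 (Nat.lt_succ_of_le hi))⟩

end Q87.NewtonShift
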