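import Mathlib

/-! Operator norm localization is automatic on `L¹`. -/

set_option autoImplicit false
open MeasureTheory Filter Topology
open scoped ENNReal

namespace Q87.OneONL

variable {X : Type*} [MeasurableSpace X] {ν : Measure X}
  {E : Type*} [NormedAddCommGroup E] [NormedSpace ℝ E]

/-- restriction of a function to a set -/
noncomputable def cut {A : Set X} (hA : MeasurableSet A) (f : Lp E 1 ν) : Lp E 1 ν :=
  MemLp.toLp _ ((Lp.memLp f).indicator hA)

omit [NormedSpace ℝ E] in
theorem cut_ae {A : Set X} (hA : MeasurableSet A) (f : Lp E 1 ν) :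
    (cut hA f : X → E) =ᵐ[ν] A.indicator f := MemLp.coeFn_toLp _

omit [NormedSpace ℝ E] in
theorem norm_cut {A : Set X} (hA : MeasurableSet A) (f : Lp E 1 ν) :
    ‖cut hA f‖ = ∫ z in A, ‖f z‖ ∂ν := by
  rw [L1.norm_eq_integral_norm, ← integral_indicator hA]
  refine integral_congr_ae ?_
  filter_upwards [cut_ae hA f] with z hz
  rw [hz]
  by_cases h : z ∈ A
  · rw [Set.indicator_of_mem h, Set.indicator_of_mem h]
  · rw [Set.indicator_of_notMem h, Set.indicator_of_notMem h, norm_zero]

omit [NormedSpace ℝ E] in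
theorem cut_union {A B : Set X} (hA : MeasurableSet A) (hB : MeasurableSet B)
    (hAB : Disjoint A B) (f : Lp E 1 ν) : cut (hA.union hB) f = cut hA f + cut hB f := by
  apply Lp.ext
  filter_upwards [cut_ae (hA.union hB) f, cut_ae hA f, cut_ae hB f,
    Lp.coeFn_add (cut hA f) (cut hB f)] with z h1 h2 h3 h4
  rw [h1, h4, Pi.add_apply, h2, h3, Set.indicator_union_of_disjoint hAB]

omit [NormedSpace ℝ E] in
theorem norm_cut_union {A B : Set X} (hA : MeasurableSet A) (hB : MeasurableSet B)
    (hAB : Disjoint A B) (f : Lp E 1 ν) :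
    ‖cut (hA.union hB) f‖ = ‖cut hA f‖ + ‖cut hB f‖ := by
  have hi : Integrable (fun z => ‖f z‖) ν := (L1.integrable_coeFn f).norm
  rw [norm_cut, norm_cut, norm_cut, setIntegral_union hAB hB hi.integrableOn hi.integrableOn]

/-- An operator which is small on every function supported in a point is small. -/
theorem small [Countable X] [MeasurableSingletonClass X] (T : Lp E 1 ν →L[ℝ] Lp E 1 ν) (C : ℝ)
    (hC : ∀ (x : X) (f : Lp E 1 ν),
      ‖T (cut (measurableSet_singleton x) f)‖ ≤ C * ‖cut (measurableSet_singleton x) f‖)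
    (f : Lp E 1 ν) : ‖T f‖ ≤ C * ‖f‖ := by
  classical
  have hfin : ∀ F : Finset X, ∀ hF : MeasurableSet (F : Set X),
      ‖T (cut hF f)‖ ≤ C * ‖cut hF f‖ := by
    intro F
    induction F using Finset.induction_on with
    | empty =>
      intro hF
      have h0 : cut hF f = 0 := by
        rw [← norm_eq_zero, norm_cut]; simp
      rw [h0]; simp
    | insert a F ha ih =>
      intro hF
      have hF' : MeasurableSet (F : Set X) := F.measurableSet
      have hd : Disjoint ({a} : Set X) (F : Set X) := by
        rw [Set.disjoint_singleton_left]; exact ha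
      have e : cut hF f = cut ((measurableSet_singleton a).union hF') f := by
        congr 1
        rw [Finset.coe_insert, Set.insert_eq]
      rw [e, norm_cut_union (measurableSet_singleton a) hF' hd f, mul_add,
        cut_union (measurableSet_singleton a) hF' hd f, map_add]
      exact (norm_add_le _ _).trans (add_le_add (hC a f) (ih hF'))
  -- exhaustion
  have : Encodable X := Encodable.ofCountable X
  let F : ℕ → Set X := fun n => {x | Encodable.encode x < n}
  have hFfin : ∀ n, (F n).Finite := fun n =>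
    Set.Finite.preimage Encodable.encode_injective.injOn (Set.finite_lt_nat n)
  have hFm : ∀ n, MeasurableSet (F n) := fun n => (hFfin n).measurableSet
  have hb : ∀ n, ‖T (cut (hFm n) f)‖ ≤ C * ‖cut (hFm n) f‖ := by
    intro n
    have h1 := hfin (hFfin n).toFinset ((hFfin n).toFinset.measurableSet)
    have e : cut ((hFfin n).toFinset.measurableSet) f = cut (hFm n) f := by
      congr 1
      exact (hFfin n).coe_toFinset
    rwa [e] at h1
  have hi : Integrable (fun z => ‖f z‖) ν := (L1.integrable_coeFn f).norm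
  have hlim : Tendsto (fun n => cut (hFm n) f) atTop (𝓝 f) := by
    rw [tendsto_iff_norm_sub_tendsto_zero]
    have h1 : ∀ n, ‖cut (hFm n) f - f‖ = ∫ z in (F n)ᶜ, ‖f z‖ ∂ν := by
      intro n
      have h2 : f = cut ((hFm n).union (hFm n).compl) f := by
        apply Lp.ext
        filter_upwards [cut_ae ((hFm n).union (hFm n).compl) f] with z hz
        rw [hz, Set.indicator_of_mem (by simp)]
      have h3 : f = cut (hFm n) f + cut (hFm n).compl f := by
        conv_lhs => rw [h2]
        exact cut_union _ _ disjoint_compl_right f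
      have h4 : cut (hFm n) f - f = - cut (hFm n).compl f := by
        nth_rewrite 2 [h3]
        abel
      rw [h4, norm_neg, norm_cut]
    simp only [h1]
    have h5 := tendsto_setIntegral_of_antitone (μ := ν) (s := fun n => (F n)ᶜ)
      (f := fun z => ‖f z‖) (fun n => (hFm n).compl)
      (fun a b hab => Set.compl_subset_compl.2 fun x hx => lt_of_lt_of_le hx hab)
      ⟨0, hi.integrableOn⟩
    have h6 : ⋂ n, (F n)ᶜ = ∅ := by
      ext x
      simp only [Set.mem_iInter, Set.mem_compl_iff, Set.mem_empty_iff_false, iff_false, not_forall,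
        not_not]
      exact ⟨Encodable.encode x + 1, Nat.lt_succ_self _⟩
    rw [h6, Measure.restrict_empty, integral_zero_measure] at h5
    exact h5
  exact le_of_tendsto_of_tendsto' ((T.continuous.tendsto f).comp hlim).norm
    (hlim.norm.const_mul C) hb

/-- The localization property on `L¹`. -/
theorem onl {X : Type*} [MetricSpace X] [MeasurableSpace X] [BorelSpace X] [Countable X]
    [Nontrivial E] (ν : Measure X) (hfin : ∀ x, ν {x} ≠ ⊤) (hν : ν ≠ 0)
    (T : Lp E 1 ν →L[ℝ] Lp E 1 ν) :
    ∃ ξ : Lp E 1 ν, ξ ≠ 0 ∧ (∃ S : Set X, (∀ a ∈ S, ∀ b ∈ S, dist a b ≤ 0) ∧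
      ∀ᵐ z ∂ν, z ∉ S → ξ z = 0) ∧ (1/2) * ‖T‖ * ‖ξ‖ ≤ ‖T ξ‖ := by
  classical
  have hsing : ∀ x : X, ∀ f : Lp E 1 ν, (∃ S : Set X, (∀ a ∈ S, ∀ b ∈ S, dist a b ≤ 0) ∧
      ∀ᵐ z ∂ν, z ∉ S → (cut (measurableSet_singleton x) f) z = 0) := by
    intro x f
    refine ⟨{x}, ?_, ?_⟩
    · rintro a rfl b rfl; simp
    · filter_upwards [cut_ae (measurableSet_singleton x) f] with z hz hzx
      rw [hz, Set.indicator_of_notMem hzx]
  by_cases hT : T = 0
  · have hx : ∃ x, ν {x} ≠ 0 := by
      by_contra h
      push Not at h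
      apply hν
      rw [← Measure.measure_univ_eq_zero, ← Set.biUnion_of_singleton (Set.univ : Set X)]
      exact (measure_biUnion_null_iff (Set.to_countable _)).2 fun x _ => h x
    obtain ⟨x, hx⟩ := hx
    obtain ⟨c, hc⟩ := exists_ne (0 : E)
    let ξ : Lp E 1 ν := indicatorConstLp 1 (measurableSet_singleton x) (hfin x) c
    have hξ : ξ ≠ 0 := by
      intro h
      have h1 : ‖ξ‖ = 0 := by rw [h, norm_zero]
      simp only [ξ] at h1
      rw [norm_indicatorConstLp one_ne_zero ENNReal.one_ne_top] at h1
      rcases mul_eq_zero.1 h1 with h2 | h2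
      · exact hc (norm_eq_zero.1 h2)
      · have h3 : ν.real {x} = 0 := by simpa using h2
        rw [measureReal_def, ENNReal.toReal_eq_zero_iff] at h3
        rcases h3 with h3 | h3
        · exact hx h3
        · exact hfin x h3
    refine ⟨ξ, hξ, ⟨{x}, ?_, ?_⟩, ?_⟩
    · rintro a rfl b rfl; simp
    · have : (ξ : X → E) =ᵐ[ν] ({x} : Set X).indicator fun _ => c := indicatorConstLp_coeFn
      filter_upwards [this] with z hz hzx
      rw [hz, Set.indicator_of_notMem hzx]
    · rw [hT]; simp
  · by_contra hcon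
    push Not at hcon
    apply hT
    have hsmall : ∀ (x : X) (f : Lp E 1 ν), ‖T (cut (measurableSet_singleton x) f)‖
        ≤ ((1/2) * ‖T‖) * ‖cut (measurableSet_singleton x) f‖ := by
      intro x f
      by_cases h0 : cut (measurableSet_singleton x) f = 0
      · rw [h0]; simp
      · exact (hcon _ h0 (hsing x f)).le
    have h1 := ContinuousLinearMap.opNorm_le_bound T (by positivity)
      (small T ((1/2) * ‖T‖) hsmall)
    have h2 : ‖T‖ ≤ 0 := by linarith [norm_nonneg T]
    exact norm_le_zero_iff.1 h2

end Q87.OneONL
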