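import Pool.Agent.Q87.RZSeq

/-! The limiting state on `C([1,2])`. -/

set_option autoImplicit false
open MeasureTheory Filter Topology
open scoped ComplexConjugate ComplexOrder

namespace Q87.RZ

/-- the interval -/
abbrev E12 : Type := ↥(Set.Icc (1:ℝ) 2)

theorem le12 : (1:ℝ) ≤ 2 := by norm_num

/-- extension of a function on the interval -/
noncomputable def ext12 (a : C(E12, ℂ)) : ℝ → ℂ := Set.IccExtend le12 a

theorem ext12_cont (a : C(E12, ℂ)) : Continuous (ext12 a) :=
  a.continuous.Icc_extend'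

theorem ext12_of_mem (a : C(E12, ℂ)) (x : ℝ) (hx : x ∈ Set.Icc (1:ℝ) 2) :
    ext12 a x = a ⟨x, hx⟩ := Set.IccExtend_of_mem le12 a hx

theorem J_bound (k : ℕ) (f : ℝ → ℂ) (B : ℝ) (hB0 : 0 ≤ B)
    (hB : ∀ x ∈ Set.Icc (1:ℝ) 2, ‖f x‖ ≤ B) : ‖J k f‖ ≤ 2 * B := by
  have hpi : IntegrableOn (p k) (Set.Icc (1:ℝ) 2) :=
    (p_cont k).continuousOn.integrableOn_compact isCompact_Icc
  have h1 : ‖J k f‖ ≤ ∫ x in Set.Icc (1:ℝ) 2, B * p k x := by
    unfold J
    refine norm_integral_le_of_norm_le (hpi.const_mul B) ?_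
    refine (ae_restrict_iff' measurableSet_Icc).2 (Eventually.of_forall ?_)
    intro x hx
    rw [norm_mul, Complex.norm_real, Real.norm_of_nonneg (p_nonneg k x)]
    exact mul_le_mul_of_nonneg_right (hB x hx) (p_nonneg k x)
  have h2 := J_one k
  have h3 : J k (fun _ => 1) = ((∫ x in Set.Icc (1:ℝ) 2, p k x : ℝ) : ℂ) := by
    unfold J
    simp only [one_mul]
    exact integral_ofReal
  rw [h3] at h2
  have h4 : |(∫ x in Set.Icc (1:ℝ) 2, p k x) - 1| ≤ 1/16 := by
    have : ((∫ x in Set.Icc (1:ℝ) 2, p k x : ℝ) : ℂ) - 1 =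
      (((∫ x in Set.Icc (1:ℝ) 2, p k x) - 1 : ℝ) : ℂ) := by push_cast; ring
    rw [this, Complex.norm_real] at h2
    exact h2
  rw [integral_const_mul] at h1
  have h5 : (∫ x in Set.Icc (1:ℝ) 2, p k x) ≤ 2 := by linarith [(abs_le.1 h4).2]
  calc ‖J k f‖ ≤ B * ∫ x in Set.Icc (1:ℝ) 2, p k x := h1
    _ ≤ B * 2 := mul_le_mul_of_nonneg_left h5 hB0
    _ = 2 * B := by ring

theorem J_ext_bound (k : ℕ) (a : C(E12, ℂ)) : ‖J k (ext12 a)‖ ≤ 2 * ‖a‖ := by
  refine J_bound k _ _ (norm_nonneg a) ?_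
  intro x hx
  rw [ext12_of_mem a x hx]
  exact a.norm_coe_le_norm _

theorem exists_lim (a : C(E12, ℂ)) :
    ∃ z : ℂ, Tendsto (fun k => J k (ext12 a)) (hyperfilter ℕ) (𝓝 z) := by
  have hK : IsCompact (Metric.closedBall (0:ℂ) (2 * ‖a‖)) := isCompact_closedBall _ _
  obtain ⟨z, _, hz⟩ := hK.ultrafilter_le_nhds ((hyperfilter ℕ).map (fun k => J k (ext12 a))) (by
    rw [le_principal_iff]
    refine (Ultrafilter.mem_coe).2 ?_
    rw [Ultrafilter.mem_map]
    refine Filter.mem_of_superset Filter.univ_mem ?_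
    intro k _
    simp only [Set.mem_preimage, Metric.mem_closedBall, dist_zero_right]
    exact J_ext_bound k a)
  exact ⟨z, hz⟩

/-- the limiting functional -/
noncomputable def lam (a : C(E12, ℂ)) : ℂ := (exists_lim a).choose

theorem lam_spec (a : C(E12, ℂ)) :
    Tendsto (fun k => J k (ext12 a)) (hyperfilter ℕ) (𝓝 (lam a)) := (exists_lim a).choose_spec

theorem J_congr (k : ℕ) (f g : ℝ → ℂ) (h : ∀ x ∈ Set.Icc (1:ℝ) 2, f x = g x) :
    J k f = J k g := by
  unfold J
  refine setIntegral_congr_fun measurableSet_Icc ?_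
  intro x hx
  simp only
  rw [h x hx]

theorem J_add (k : ℕ) (f g : ℝ → ℂ) (hf : Continuous f) (hg : Continuous g) :
    J k (fun x => f x + g x) = J k f + J k g := by
  unfold J
  rw [← integral_add (J_integrable k f hf) (J_integrable k g hg)]
  refine integral_congr_ae (Eventually.of_forall ?_)
  intro x
  simp only
  ring

theorem J_smul (k : ℕ) (c : ℂ) (f : ℝ → ℂ) : J k (fun x => c * f x) = c * J k f := by
  unfold J
  rw [← integral_const_mul]
  refine integral_congr_ae (Eventually.of_forall ?_)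
  intro x
  simp only
  ring

/-- the limiting functional, linear -/
noncomputable def lamL : C(E12, ℂ) →ₗ[ℂ] ℂ where
  toFun := lam
  map_add' a b := by
    refine tendsto_nhds_unique (lam_spec (a + b)) (((lam_spec a).add (lam_spec b)).congr ?_)
    intro k
    rw [← J_add k _ _ (ext12_cont a) (ext12_cont b)]
    refine J_congr k _ _ ?_
    intro x hx
    rw [ext12_of_mem _ _ hx, ext12_of_mem _ _ hx, ext12_of_mem _ _ hx, ContinuousMap.add_apply]
  map_smul' c a := by
    refine tendsto_nhds_unique (lam_spec (c • a)) (((lam_spec a).const_mul c).congr ?_)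
    intro k
    rw [← J_smul]
    refine J_congr k _ _ ?_
    intro x hx
    rw [ext12_of_mem _ _ hx, ext12_of_mem _ _ hx, ContinuousMap.smul_apply, smul_eq_mul]

theorem lam_nonneg (a : C(E12, ℂ)) (ha : 0 ≤ a) : 0 ≤ lam a := by
  refine ge_of_tendsto (lam_spec a) (Eventually.of_forall ?_)
  intro k
  have h1 : J k (ext12 a) = ((∫ x in Set.Icc (1:ℝ) 2, (ext12 a x).re * p k x : ℝ) : ℂ) := by
    unfold J
    refine Eq.trans ?_ integral_ofReal
    refine setIntegral_congr_fun measurableSet_Icc ?_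
    intro x hx
    simp only
    have h2 : 0 ≤ ext12 a x := by
      rw [ext12_of_mem a x hx]
      exact ha ⟨x, hx⟩
    have h3 : ((ext12 a x).re : ℂ) = ext12 a x := by
      refine Complex.ext (by simp) ?_
      rw [Complex.ofReal_im]
      exact (Complex.le_def.1 h2).2
    have h5 : ((((ext12 a x).re * p k x : ℝ) : ℂ)) = ext12 a x * (p k x : ℂ) := by
      push_cast
      rw [h3]
    exact h5.symm
  rw [h1]
  have h4 : (0:ℝ) ≤ ∫ x in Set.Icc (1:ℝ) 2, (ext12 a x).re * p k x := by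
    refine setIntegral_nonneg measurableSet_Icc ?_
    intro x hx
    have h2 : 0 ≤ ext12 a x := by
      rw [ext12_of_mem a x hx]
      exact ha ⟨x, hx⟩
    exact mul_nonneg (Complex.le_def.1 h2).1 (p_nonneg k x)
  exact_mod_cast h4

/-- the limiting functional as a positive functional -/
noncomputable def Lam : C(E12, ℂ) →ₚ[ℂ] ℂ := PositiveLinearMap.mk₀ lamL lam_nonneg

theorem Lam_apply (a : C(E12, ℂ)) : Lam a = lam a := rfl

theorem lam_bound (a : C(E12, ℂ)) : ‖Lam a‖ ≤ 2 * ‖a‖ :=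
  le_of_tendsto (lam_spec a).norm (Eventually.of_forall (fun k => J_ext_bound k a))

/-- the exponentials -/
noncomputable def ex (t : ℝ) : C(E12, ℂ) :=
  ⟨fun x => Complex.exp ((t * x : ℝ) * Complex.I), by fun_prop⟩

/-- powers -/
noncomputable def mon (i : ℕ) : C(E12, ℂ) := ⟨fun x => ((x : ℝ) : ℂ) ^ i, by fun_prop⟩

/-- the symbol of the cogenerator on the interval -/
noncomputable def vE : C(E12, ℂ) := ⟨fun x => v x, continuous_v.comp continuous_subtype_val⟩

theorem lam_v (j : ℕ) : 1/4 ≤ ‖Lam (vE ^ Nn j)‖ := by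
  refine ge_of_tendsto (lam_spec (vE ^ Nn j)).norm ?_
  have h1 : ∀ᶠ k in (hyperfilter ℕ : Filter ℕ), j < k := by
    have : ∀ᶠ k in (atTop : Filter ℕ), j < k := eventually_gt_atTop j
    exact Nat.hyperfilter_le_atTop this
  filter_upwards [h1] with k hk
  have h2 : J k (ext12 (vE ^ Nn j)) = J k (fun x => v x ^ Nn j) := by
    refine J_congr k _ _ ?_
    intro x hx
    rw [ext12_of_mem _ _ hx]
    rfl
  rw [h2]
  exact J_v j k hk

theorem J_exp_tendsto (k i : ℕ) :
    Tendsto (fun t : ℝ => J k (fun x => Complex.exp ((t * x : ℝ) * Complex.I) * (x : ℂ) ^ i))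
      atTop (𝓝 0) := by
  have h := RL (Set.Icc (1:ℝ) 2) measurableSet_Icc (fun x => x) (fun _ => 1)
    (fun x _ => hasDerivWithinAt_id x _) (fun x _ y _ h => h) (fun _ _ => one_ne_zero)
    (fun x => (x : ℂ) ^ i * (p k x : ℂ))
  refine (h.mono_left atTop_le_cocompact).congr ?_
  intro t
  unfold J
  refine integral_congr_ae (Eventually.of_forall ?_)
  intro x
  simp only
  ring

theorem lam_exp_mon (i : ℕ) : Tendsto (fun t : ℝ => Lam (ex t * mon i)) atTop (𝓝 0) := by
  rw [Metric.tendsto_nhds]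
  intro δ hδ
  obtain ⟨k1, hk1⟩ := exists_pow_lt_of_lt_one hδ (show (1/2:ℝ) < 1 by norm_num)
  let k0 := max i k1
  have hk0 : (1/16) * (1/2 : ℝ) ^ k0 < δ / 2 := by
    have : (1/2:ℝ) ^ k0 ≤ (1/2) ^ k1 :=
      pow_le_pow_of_le_one (by norm_num) (by norm_num) (le_max_right _ _)
    have h0 : (0:ℝ) < (1/2) ^ k0 := by positivity
    linarith
  have h1 := (J_exp_tendsto k0 i).norm
  rw [norm_zero] at h1
  filter_upwards [h1.eventually (gt_mem_nhds (show 0 < δ / 4 by linarith))] with t ht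
  rw [dist_zero_right]
  have h2 : ‖Lam (ex t * mon i)‖ ≤ δ / 4 + δ / 2 := by
    refine le_of_tendsto (lam_spec (ex t * mon i)).norm ?_
    have h3 : ∀ᶠ k in (hyperfilter ℕ : Filter ℕ), k0 ≤ k := by
      have : ∀ᶠ k in (atTop : Filter ℕ), k0 ≤ k := eventually_ge_atTop k0
      exact Nat.hyperfilter_le_atTop this
    filter_upwards [h3] with k hk
    have h4 : J k (ext12 (ex t * mon i)) =
        J k (fun x => Complex.exp ((t * x : ℝ) * Complex.I) * (x : ℂ) ^ i) := by
      refine J_congr k _ _ ?_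
      intro x hx
      rw [ext12_of_mem _ _ hx]
      rfl
    rw [h4]
    have h5 := J_exp i k0 (le_max_left _ _) t k hk
    have h6 := norm_add_le
      (J k (fun x => Complex.exp ((t * x : ℝ) * Complex.I) * (x : ℂ) ^ i) -
      J k0 (fun x => Complex.exp ((t * x : ℝ) * Complex.I) * (x : ℂ) ^ i))
      (J k0 (fun x => Complex.exp ((t * x : ℝ) * Complex.I) * (x : ℂ) ^ i))
    rw [sub_add_cancel] at h6
    linarith
  linarith

theorem lam_exp_poly (P : Polynomial ℝ) :
    Tendsto (fun t : ℝ => Lam (ex t * ∑ i ∈ P.support, ((P.coeff i : ℝ) : ℂ) • mon i))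
      atTop (𝓝 0) := by
  have h : Tendsto (fun t : ℝ => ∑ i ∈ P.support, ((P.coeff i : ℝ) : ℂ) * Lam (ex t * mon i))
      atTop (𝓝 (∑ i ∈ P.support, ((P.coeff i : ℝ) : ℂ) * 0)) :=
    tendsto_finsetSum _ (fun i _ => (lam_exp_mon i).const_mul _)
  simp only [mul_zero, Finset.sum_const_zero] at h
  refine h.congr ?_
  intro t
  rw [Finset.mul_sum, map_sum]
  refine Finset.sum_congr rfl ?_
  intro i _
  rw [mul_smul_comm, map_smul, smul_eq_mul]

theorem ex_norm (t : ℝ) : ‖ex t‖ ≤ 1 := by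
  rw [ContinuousMap.norm_le _ zero_le_one]
  intro x
  exact (Complex.norm_exp_ofReal_mul_I _).le

theorem lam_exp_approx (a b : C(E12, ℂ)) (t : ℝ) :
    ‖Lam (ex t * a) - Lam (ex t * b)‖ ≤ 2 * ‖a - b‖ := by
  rw [← map_sub, ← mul_sub]
  refine (lam_bound _).trans ?_
  have h1 : ‖ex t * (a - b)‖ ≤ ‖a - b‖ := by
    refine (norm_mul_le _ _).trans ?_
    calc ‖ex t‖ * ‖a - b‖ ≤ 1 * ‖a - b‖ := mul_le_mul_of_nonneg_right (ex_norm t) (norm_nonneg _)
      _ = _ := one_mul _
  linarith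

theorem lam_exp_real (f : C(E12, ℝ)) (a : C(E12, ℂ)) (ha : ∀ x, a x = (f x : ℂ)) :
    Tendsto (fun t : ℝ => Lam (ex t * a)) atTop (𝓝 0) := by
  rw [Metric.tendsto_nhds]
  intro δ hδ
  obtain ⟨P, hP⟩ := exists_polynomial_near_continuousMap 1 2 f (δ / 4) (by linarith)
  have h1 := (lam_exp_poly P).norm
  rw [norm_zero] at h1
  filter_upwards [h1.eventually (gt_mem_nhds (show 0 < δ / 4 by linarith))] with t ht
  rw [dist_zero_right]
  have h2 : ‖a - ∑ i ∈ P.support, ((P.coeff i : ℝ) : ℂ) • mon i‖ ≤ δ / 4 := by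
    rw [ContinuousMap.norm_le _ (by linarith)]
    intro x
    have h3 := (ContinuousMap.norm_lt_iff _ (by linarith)).1 hP x
    rw [ContinuousMap.sub_apply, Polynomial.toContinuousMapOn_apply,
      Polynomial.toContinuousMap_apply] at h3
    have h4 : (a - ∑ i ∈ P.support, ((P.coeff i : ℝ) : ℂ) • mon i) x =
        ((-(P.eval (x : ℝ) - f x) : ℝ) : ℂ) := by
      rw [ContinuousMap.sub_apply, ha, ContinuousMap.sum_apply, Polynomial.eval_eq_sum,
        Polynomial.sum_def]
      push_cast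
      rw [neg_sub]
      congr 1
    rw [h4, Complex.norm_real, norm_neg]
    exact h3.le
  have h5 := lam_exp_approx a (∑ i ∈ P.support, ((P.coeff i : ℝ) : ℂ) • mon i) t
  have h6 := norm_add_le
    (Lam (ex t * a) - Lam (ex t * ∑ i ∈ P.support, ((P.coeff i : ℝ) : ℂ) • mon i))
    (Lam (ex t * ∑ i ∈ P.support, ((P.coeff i : ℝ) : ℂ) • mon i))
  rw [sub_add_cancel] at h6
  linarith

/-- Weak decay along the group of exponentials. -/
theorem lam_exp (a : C(E12, ℂ)) : Tendsto (fun t : ℝ => Lam (ex t * a)) atTop (𝓝 0) := by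
  let f1 : C(E12, ℝ) := ⟨fun x => (a x).re, Complex.continuous_re.comp a.continuous⟩
  let f2 : C(E12, ℝ) := ⟨fun x => (a x).im, Complex.continuous_im.comp a.continuous⟩
  let a1 : C(E12, ℂ) := ⟨fun x => ((a x).re : ℂ),
    Complex.continuous_ofReal.comp (Complex.continuous_re.comp a.continuous)⟩
  let a2 : C(E12, ℂ) := ⟨fun x => ((a x).im : ℂ),
    Complex.continuous_ofReal.comp (Complex.continuous_im.comp a.continuous)⟩
  have h1 := lam_exp_real f1 a1 (fun x => rfl)
  have h2 := lam_exp_real f2 a2 (fun x => rfl)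
  have h3 := h1.add (h2.const_mul Complex.I)
  rw [mul_zero, add_zero] at h3
  refine h3.congr ?_
  intro t
  have h4 : Complex.I * Lam (ex t * a2) = Lam (Complex.I • (ex t * a2)) := by
    rw [map_smul, smul_eq_mul]
  rw [h4, ← map_add]
  congr 1
  rw [← mul_smul_comm, ← mul_add]
  congr 1
  ext x
  simp only [a1, a2, ContinuousMap.add_apply, ContinuousMap.smul_apply, ContinuousMap.coe_mk,
    smul_eq_mul]
  rw [mul_comm]
  exact Complex.re_add_im (a x)

end Q87.RZ
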