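import Pool.Agent.Q87.RZFun

/-! The semigroup: multiplication by exponentials in the space of the limiting state. -/

set_option autoImplicit false
open MeasureTheory Filter Topology
open scoped ComplexConjugate ComplexOrder

namespace Q87.RZ

/-- the Hilbert space -/
abbrev HH : Type := Lam.GNS

/-- the representation -/
noncomputable def rep : C(E12, ℂ) →⋆ₐ[ℂ] (HH →L[ℂ] HH) := Lam.gnsStarAlgHom

theorem rep_norm (a : C(E12, ℂ)) : ‖rep a‖ ≤ ‖a‖ := NonUnitalStarAlgHom.norm_apply_le rep a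

/-- the semigroup -/
noncomputable def T (t : ℝ) : HH →L[ℂ] HH := rep (ex t)

theorem ex_zero : ex 0 = 1 := by
  ext x
  simp [ex]

theorem ex_add (s t : ℝ) : ex (s + t) = ex s * ex t := by
  ext x
  simp only [ex, ContinuousMap.coe_mk, ContinuousMap.mul_apply]
  rw [← Complex.exp_add]
  congr 1
  push_cast
  ring

theorem ex_cont : Continuous ex := by
  refine ContinuousMap.continuous_of_continuous_uncurry _ ?_
  simp only [ex, ContinuousMap.coe_mk]
  fun_prop

/-- the representation applied to a vector -/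
noncomputable def repv (z : HH) : C(E12, ℂ) →L[ℂ] HH :=
  LinearMap.mkContinuous
    { toFun := fun a => rep a z
      map_add' := fun a b => by rw [map_add]; rfl
      map_smul' := fun c a => by rw [map_smul]; rfl } ‖z‖ (by
    intro a
    refine ((rep a).le_opNorm z).trans ?_
    rw [mul_comm]
    exact mul_le_mul_of_nonneg_left (rep_norm a) (norm_nonneg z))

theorem repv_apply (z : HH) (a : C(E12, ℂ)) : repv z a = rep a z := rfl

theorem ex_int : IntegrableOn (fun t : ℝ => ((Real.exp (-t) : ℝ) : ℂ) • ex t) (Set.Ioi 0) := by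
  have h1 : IntegrableOn (fun t : ℝ => Real.exp (-t)) (Set.Ioi 0) := by
    have := exp_neg_integrableOn_Ioi 0 (show (0:ℝ) < 1 by norm_num)
    simpa using this
  refine Integrable.mono' h1 ?_ (Eventually.of_forall ?_)
  · refine Continuous.aestronglyMeasurable ?_
    exact (Complex.continuous_ofReal.comp (Real.continuous_exp.comp continuous_neg)).smul ex_cont
  · intro t
    rw [norm_smul, Complex.norm_real, Real.norm_of_nonneg (Real.exp_pos _).le]
    calc Real.exp (-t) * ‖ex t‖ ≤ Real.exp (-t) * 1 :=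
          mul_le_mul_of_nonneg_left (ex_norm t) (Real.exp_pos _).le
      _ = _ := mul_one _

theorem ex_integral (x : E12) :
    (∫ t in Set.Ioi (0:ℝ), ((Real.exp (-t) : ℝ) : ℂ) • ex t) x = 1 / (1 - (x : ℝ) * Complex.I) := by
  have h1 : (∫ t in Set.Ioi (0:ℝ), ((Real.exp (-t) : ℝ) : ℂ) • ex t) x =
      ∫ t in Set.Ioi (0:ℝ), (((Real.exp (-t) : ℝ) : ℂ) • ex t) x := by
    have := (ContinuousMap.evalCLM ℂ x).integral_comp_comm ex_int
    simpa using this.symm
  rw [h1]
  have h2 : ∀ t : ℝ, (((Real.exp (-t) : ℝ) : ℂ) • ex t) x =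
      Complex.exp ((-(1 - (x : ℝ) * Complex.I)) * t) := by
    intro t
    rw [ContinuousMap.smul_apply, smul_eq_mul]
    simp only [ex, ContinuousMap.coe_mk]
    rw [Complex.ofReal_exp, ← Complex.exp_add]
    congr 1
    push_cast
    ring
  simp only [h2]
  rw [integral_exp_mul_complex_Ioi (by simp) 0]
  rw [Complex.ofReal_zero, mul_zero, Complex.exp_zero, neg_div_neg_eq]

theorem cog (z : HH) : z - (2 : ℂ) • ∫ t in Set.Ioi (0 : ℝ), ((Real.exp (-t) : ℝ) : ℂ) • T t z
    = rep vE z := by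
  have h1 : ∫ t in Set.Ioi (0 : ℝ), ((Real.exp (-t) : ℝ) : ℂ) • T t z =
      repv z (∫ t in Set.Ioi (0:ℝ), ((Real.exp (-t) : ℝ) : ℂ) • ex t) := by
    rw [← (repv z).integral_comp_comm ex_int]
    refine integral_congr_ae (Eventually.of_forall ?_)
    intro t
    simp only
    rw [map_smul]
    rfl
  have h2 : z = repv z 1 := by
    rw [repv_apply, map_one]; rfl
  have h3 : z - (2 : ℂ) • ∫ t in Set.Ioi (0 : ℝ), ((Real.exp (-t) : ℝ) : ℂ) • T t z
      = repv z (1 - (2:ℂ) • (∫ t in Set.Ioi (0:ℝ), ((Real.exp (-t) : ℝ) : ℂ) • ex t)) := by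
    rw [h1, map_sub, map_smul, ← h2]
  rw [h3, repv_apply]
  congr 2
  ext x
  rw [ContinuousMap.sub_apply, ContinuousMap.smul_apply, ex_integral]
  simp only [vE, ContinuousMap.coe_mk, v, ContinuousMap.one_apply, smul_eq_mul]
  ring

/-- the cyclic vector -/
noncomputable def om : HH := ((Lam.toPreGNS 1 : Lam.PreGNS) : HH)

theorem cog_iter (n : ℕ) (z : HH) :
    (fun z : HH => z - (2 : ℂ) • ∫ t in Set.Ioi (0 : ℝ), ((Real.exp (-t) : ℝ) : ℂ) • T t z)^[n] z
      = rep (vE ^ n) z := by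
  have h : (fun z : HH => z - (2 : ℂ) • ∫ t in Set.Ioi (0 : ℝ),
      ((Real.exp (-t) : ℝ) : ℂ) • T t z) = fun z => rep vE z := funext cog
  rw [h]
  induction n with
  | zero => simp
  | succ n ih =>
    rw [Function.iterate_succ_apply', ih, pow_succ', map_mul]
    rfl

theorem inner_rep (a b c : C(E12, ℂ)) :
    inner ℂ (rep a ((Lam.toPreGNS b : Lam.PreGNS) : HH)) ((Lam.toPreGNS c : Lam.PreGNS) : HH)
      = conj (Lam (a * (b * star c))) := by
  have h1 : rep a ((Lam.toPreGNS b : Lam.PreGNS) : HH) =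
      ((Lam.toPreGNS (a * b) : Lam.PreGNS) : HH) := by
    exact Lam.gnsNonUnitalStarAlgHom_apply_coe
  rw [h1, UniformSpace.Completion.inner_coe, PositiveLinearMap.preGNS_inner_def]
  rw [← Complex.star_def, ← map_star Lam]
  congr 1
  rw [star_mul, star_mul, star_star]
  simp only [PositiveLinearMap.ofPreGNS_toPreGNS, star_mul]
  ring

theorem om_eq : om = ((Lam.toPreGNS 1 : Lam.PreGNS) : HH) := rfl

theorem T_zero : T 0 = 1 := by
  unfold T; rw [ex_zero, map_one]

theorem T_add (s t : ℝ) : T (s + t) = T s * T t := by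
  unfold T; rw [ex_add, map_mul]

theorem T_cont (z : HH) : Continuous (fun t : ℝ => T t z) := (repv z).continuous.comp ex_cont

theorem T_norm (t : ℝ) : ‖T t‖ ≤ 1 := (rep_norm _).trans (ex_norm t)

theorem T_weak_core (b c : C(E12, ℂ)) :
    Tendsto (fun t : ℝ => inner ℂ (T t ((Lam.toPreGNS b : Lam.PreGNS) : HH))
      ((Lam.toPreGNS c : Lam.PreGNS) : HH)) atTop (𝓝 0) := by
  have h := (Complex.continuous_conj.tendsto (0:ℂ)).comp (lam_exp (b * star c))
  rw [map_zero] at h
  refine h.congr ?_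
  intro t
  exact (inner_rep (ex t) b c).symm

theorem ext_dense {H : Type*} [NormedAddCommGroup H] (f : ℝ → H → ℂ) (K : ℝ) (hK : 0 ≤ K)
    (hf : ∀ t x x', ‖f t x - f t x'‖ ≤ K * ‖x - x'‖) (s : Set H) (hs : Dense s)
    (h : ∀ x ∈ s, Tendsto (fun t => f t x) atTop (𝓝 0)) (x : H) :
    Tendsto (fun t => f t x) atTop (𝓝 0) := by
  rw [Metric.tendsto_nhds]
  intro δ hδ
  obtain ⟨x', hx', hd⟩ := hs.exists_dist_lt x (show 0 < δ / (2 * (K + 1)) by positivity)
  have h1 := (h x' hx').norm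
  rw [norm_zero] at h1
  filter_upwards [h1.eventually (gt_mem_nhds (show 0 < δ / 2 by linarith))] with t ht
  rw [dist_zero_right]
  have h2 := hf t x x'
  have h3 := norm_add_le (f t x - f t x') (f t x')
  rw [sub_add_cancel] at h3
  rw [dist_eq_norm] at hd
  have h4 : K * ‖x - x'‖ ≤ δ / 2 := by
    have h5 : K * ‖x - x'‖ ≤ (K + 1) * (δ / (2 * (K + 1))) :=
      mul_le_mul (by linarith) hd.le (norm_nonneg _) (by linarith)
    have h6 : (K + 1) * (δ / (2 * (K + 1))) = δ / 2 := by
      field_simp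
    linarith
  linarith

/-- weak stability passes to the completion -/
theorem T_weak (x y : HH) : Tendsto (fun t : ℝ => inner ℂ (T t x) y) atTop (𝓝 0) := by
  have hd : Dense (Set.range (fun z : Lam.PreGNS => (z : HH))) :=
    UniformSpace.Completion.denseRange_coe
  refine ext_dense (fun t y => inner ℂ (T t x) y) ‖x‖ (norm_nonneg _) ?_ _ hd ?_ y
  · intro t y y'
    rw [← inner_sub_right]
    refine (norm_inner_le_norm _ _).trans ?_
    refine mul_le_mul_of_nonneg_right ?_ (norm_nonneg _)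
    calc ‖T t x‖ ≤ ‖T t‖ * ‖x‖ := (T t).le_opNorm x
      _ ≤ 1 * ‖x‖ := mul_le_mul_of_nonneg_right (T_norm t) (norm_nonneg _)
      _ = _ := one_mul _
  · rintro _ ⟨c, rfl⟩
    refine ext_dense (fun t x => inner ℂ (T t x) (c : HH)) ‖(c : HH)‖ (norm_nonneg _) ?_ _ hd ?_ x
    · intro t x x'
      rw [← inner_sub_left, ← map_sub]
      refine (norm_inner_le_norm _ _).trans ?_
      rw [mul_comm]
      refine mul_le_mul_of_nonneg_left ?_ (norm_nonneg _)
      calc ‖T t (x - x')‖ ≤ ‖T t‖ * ‖x - x'‖ := (T t).le_opNorm _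
        _ ≤ 1 * ‖x - x'‖ := mul_le_mul_of_nonneg_right (T_norm t) (norm_nonneg _)
        _ = _ := one_mul _
    · rintro _ ⟨b, rfl⟩
      exact T_weak_core b c

theorem le_Nn (j : ℕ) : j ≤ Nn j := (good j).1

/-- the cogenerator is not weakly stable -/
theorem V_not : ¬ Tendsto (fun n : ℕ => inner ℂ (rep (vE ^ n) om) om) atTop (𝓝 0) := by
  intro h
  have h1 := h.norm
  rw [norm_zero] at h1
  obtain ⟨n0, hn0⟩ := eventually_atTop.1 (h1.eventually (gt_mem_nhds (show (0:ℝ) < 1/4 by norm_num)))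
  have h2 := hn0 (Nn n0) (le_Nn n0)
  have h3 := lam_v n0
  rw [om_eq, inner_rep, star_one, mul_one, mul_one, RCLike.norm_conj] at h2
  linarith

end Q87.RZ
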