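import Mathlib

/-! Oscillatory integrals on `[1,2]` with phase `t x + N ψ(x)`, `ψ(x) = π + 2 arctan x`. -/

set_option autoImplicit false
open MeasureTheory Filter Topology
open scoped ComplexConjugate

namespace Q87.RZ

/-- the phase of the Cayley transform -/
noncomputable def ψ (x : ℝ) : ℝ := Real.pi + 2 * Real.arctan x

/-- the symbol of the cogenerator -/
noncomputable def v (x : ℝ) : ℂ := 1 - 2 / (1 - x * Complex.I)

theorem den_ne (x : ℝ) : (1 : ℂ) - x * Complex.I ≠ 0 := by
  intro h
  have := congrArg Complex.re h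
  simp at this

theorem v_eq (x : ℝ) : v x = Complex.exp (ψ x * Complex.I) := by
  have h1 : Complex.exp (Real.arctan x * Complex.I) ^ 2 = (1 + x * Complex.I) / (1 - x * Complex.I) := by
    rw [Complex.exp_mul_I, ← Complex.ofReal_cos, ← Complex.ofReal_sin, Real.cos_arctan,
      Real.sin_arctan]
    have hs : (0:ℝ) < Real.sqrt (1 + x ^ 2) := Real.sqrt_pos.2 (by positivity)
    have hs2 : ((Real.sqrt (1 + x ^ 2) : ℝ) : ℂ) ^ 2 = 1 + (x : ℂ) ^ 2 := by
      rw [← Complex.ofReal_pow, Real.sq_sqrt (by positivity)]; push_cast; ring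
    have hs0 : ((Real.sqrt (1 + x ^ 2) : ℝ) : ℂ) ≠ 0 := by exact_mod_cast hs.ne'
    have hd := den_ne x
    push_cast
    have e : (1 / (Real.sqrt (1 + x ^ 2) : ℂ) + x / (Real.sqrt (1 + x ^ 2) : ℂ) * Complex.I) ^ 2
        = (1 + x * Complex.I) ^ 2 / (Real.sqrt (1 + x ^ 2) : ℂ) ^ 2 := by
      field_simp
    rw [e, hs2]
    have hp : (1 : ℂ) + (x : ℂ) ^ 2 = (1 + x * Complex.I) * (1 - x * Complex.I) := by
      have := Complex.I_sq
      linear_combination (x : ℂ) ^ 2 * this
    rw [hp]
    have hd' : (1 : ℂ) + x * Complex.I ≠ 0 := by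
      intro h
      have := congrArg Complex.re h
      simp at this
    field_simp
  have h2 : Complex.exp (ψ x * Complex.I) = - Complex.exp (Real.arctan x * Complex.I) ^ 2 := by
    unfold ψ
    push_cast
    rw [add_mul, Complex.exp_add, Complex.exp_pi_mul_I, ← Complex.exp_nat_mul]
    push_cast
    ring_nf
  rw [h2, h1, v]
  have hd := den_ne x
  field_simp
  ring

theorem norm_v (x : ℝ) : ‖v x‖ = 1 := by
  rw [v_eq]; exact Complex.norm_exp_ofReal_mul_I _

theorem continuous_v : Continuous v := by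
  unfold v
  exact continuous_const.sub (continuous_const.div (by fun_prop) den_ne)

theorem hasDerivAt_ψ (x : ℝ) : HasDerivAt ψ (2 / (1 + x ^ 2)) x := by
  have h := (Real.hasDerivAt_arctan x).const_mul 2
  have h2 := h.const_add Real.pi
  refine h2.congr_deriv ?_
  ring

/-- Riemann–Lebesgue lemma after a change of variables. -/
theorem RL (S : Set ℝ) (hS : MeasurableSet S) (η η' : ℝ → ℝ)
    (hη : ∀ x ∈ S, HasDerivWithinAt η (η' x) S x) (inj : Set.InjOn η S)
    (hne : ∀ x ∈ S, η' x ≠ 0) (G : ℝ → ℂ) :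
    Tendsto (fun N : ℝ => ∫ x in S, Complex.exp ((N * η x : ℝ) * Complex.I) * G x)
      (cocompact ℝ) (𝓝 0) := by
  classical
  let L : ℝ → ℂ := fun y => ((|η' (Function.invFunOn η S y)| : ℝ) : ℂ)⁻¹ *
    G (Function.invFunOn η S y)
  have hinv : ∀ x ∈ S, Function.invFunOn η S (η x) = x := fun x hx =>
    inj.leftInvOn_invFunOn hx
  have himg : MeasurableSet (η '' S) :=
    measurable_image_of_fderivWithin hS (fun x hx => (hη x hx).hasFDerivWithinAt) inj
  have key : ∀ N : ℝ, ∫ x in S, Complex.exp ((N * η x : ℝ) * Complex.I) * G x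
      = ∫ y : ℝ, Real.fourierChar (-(y * (-N / (2 * Real.pi)))) • (η '' S).indicator L y := by
    intro N
    have h1 := integral_image_eq_integral_abs_deriv_smul hS hη inj
      (fun y => Complex.exp ((N * y : ℝ) * Complex.I) * L y)
    have h2 : ∫ x in S, |η' x| • (Complex.exp ((N * η x : ℝ) * Complex.I) * L (η x))
        = ∫ x in S, Complex.exp ((N * η x : ℝ) * Complex.I) * G x := by
      refine setIntegral_congr_fun hS ?_
      intro x hx
      have hx0 : ((|η' x| : ℝ) : ℂ) ≠ 0 := by
        exact_mod_cast (abs_pos.2 (hne x hx)).ne'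
      simp only [L]
      rw [hinv x hx, Complex.real_smul]
      field_simp
    rw [← h2, ← h1, ← integral_indicator himg]
    refine integral_congr_ae (Eventually.of_forall ?_)
    intro y
    simp only
    rw [Circle.smul_def, Real.fourierChar_apply]
    by_cases hy : y ∈ η '' S
    · rw [Set.indicator_of_mem hy, Set.indicator_of_mem hy, smul_eq_mul]
      congr 2
      have hpi : (Real.pi : ℂ) ≠ 0 := by exact_mod_cast Real.pi_ne_zero
      push_cast
      field_simp
    · rw [Set.indicator_of_notMem hy, Set.indicator_of_notMem hy, smul_zero]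
  have hT := (Real.tendsto_integral_exp_smul_cocompact ((η '' S).indicator L))
  have hc : Tendsto (fun N : ℝ => -N / (2 * Real.pi)) (cocompact ℝ) (cocompact ℝ) := by
    have : (fun N : ℝ => -N / (2 * Real.pi)) =
        (Homeomorph.mulLeft₀ (-(2 * Real.pi)⁻¹) (by
          have := Real.pi_pos
          exact neg_ne_zero.2 (by positivity)) : ℝ ≃ₜ ℝ) := by
      funext N
      simp [Homeomorph.mulLeft₀]
      field_simp
    rw [this]
    exact (Homeomorph.isClosedEmbedding _).tendsto_cocompact
  refine (hT.comp hc).congr ?_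
  intro N
  exact (key N).symm

/-- The square of an integral bounded through autocorrelations. -/
theorem sq_bound (F : ℝ → ℂ) (hF : Integrable F) :
    ‖∫ x, F x‖ ^ 2 ≤ ∫ w, ‖∫ y, F (y + w) * conj (F y)‖ := by
  have hcF : Integrable (fun y => conj (F y)) :=
    Complex.conjCLE.toContinuousLinearMap.integrable_comp hF
  have hint0 : Integrable (fun z : ℝ × ℝ => conj (F z.1) * F z.2) (volume.prod volume) :=
    hcF.mul_prod hF
  have hint1 : Integrable (fun z : ℝ × ℝ => conj (F z.1) * F (z.1 + z.2))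
      (volume.prod volume) :=
    ((measurePreserving_prod_add (volume : Measure ℝ) (volume : Measure ℝ)).integrable_comp
      hint0.aestronglyMeasurable).2 hint0
  have h1 : (∫ x, F x) * conj (∫ x, F x) = ∫ w, ∫ y, F (y + w) * conj (F y) := by
    have e1 : conj (∫ x, F x) = ∫ y, conj (F y) := integral_conj.symm
    rw [e1, ← integral_const_mul]
    have e2 : ∀ y : ℝ, (∫ x, F x) * conj (F y) = ∫ w, conj (F y) * F (y + w) := by
      intro y
      rw [integral_const_mul, integral_add_left_eq_self (fun x => F x) y, mul_comm]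
    rw [integral_congr_ae (Eventually.of_forall e2)]
    rw [integral_integral_swap (f := fun y w => conj (F y) * F (y + w)) hint1]
    simp only [mul_comm]
  have h2 : ‖∫ x, F x‖ ^ 2 = ‖(∫ x, F x) * conj (∫ x, F x)‖ := by
    rw [norm_mul, RCLike.norm_conj, sq]
  rw [h2, h1]
  exact norm_integral_le_integral_norm _

/-- the autocorrelation of `1_[1,2] v^N g` -/
noncomputable def C (g : ℝ → ℂ) (N : ℕ) (w : ℝ) : ℂ :=
  ∫ y, (Set.Icc (1:ℝ) 2).indicator (fun x => v x ^ N * g x) (y + w) *
    conj ((Set.Icc (1:ℝ) 2).indicator (fun x => v x ^ N * g x) y)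

theorem C_tendsto (g : ℝ → ℂ) (w : ℝ) (hw : w ≠ 0) :
    Tendsto (fun N : ℕ => C g N w) atTop (𝓝 0) := by
  classical
  let S : Set ℝ := {y | y ∈ Set.Icc (1:ℝ) 2 ∧ y + w ∈ Set.Icc (1:ℝ) 2}
  have hSc : S = Set.Icc (1:ℝ) 2 ∩ Set.Icc (1 - w) (2 - w) := by
    ext y
    simp only [S, Set.mem_ofPred_eq, Set.mem_inter_iff, Set.mem_Icc]
    constructor
    · rintro ⟨h, h1, h2⟩; exact ⟨h, by linarith, by linarith⟩
    · rintro ⟨h, h1, h2⟩; exact ⟨h, by linarith, by linarith⟩
  have hSm : MeasurableSet S := by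
    rw [hSc]; exact measurableSet_Icc.inter measurableSet_Icc
  have hSo : S.OrdConnected := by
    rw [hSc]; exact Set.ordConnected_Icc.inter Set.ordConnected_Icc
  let η : ℝ → ℝ := fun y => ψ (y + w) - ψ y
  let η' : ℝ → ℝ := fun y => 2 / (1 + (y + w) ^ 2) - 2 / (1 + y ^ 2)
  have hη : ∀ x, HasDerivAt η (η' x) x := by
    intro x
    have h1 : HasDerivAt (fun y => ψ (y + w)) (2 / (1 + (x + w) ^ 2)) x :=
      (hasDerivAt_ψ (x + w)).comp_add_const x w
    exact h1.sub (hasDerivAt_ψ x)
  have hne : ∀ x ∈ S, η' x ≠ 0 := by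
    rintro x ⟨⟨h1, h2⟩, h3, h4⟩ h0
    simp only [η'] at h0
    have p1 : 0 < 1 + (x + w) ^ 2 := by positivity
    have p2 : 0 < 1 + x ^ 2 := by positivity
    have : (x + w) ^ 2 = x ^ 2 := by
      field_simp at h0
      linarith
    have h5 : w * (2 * x + w) = 0 := by linarith [this]
    rcases mul_eq_zero.1 h5 with h | h
    · exact hw h
    · linarith
  have inj : Set.InjOn η S := by
    have aux : ∀ a ∈ S, ∀ b ∈ S, a < b → η a ≠ η b := by
      intro a ha b hb hab h
      obtain ⟨c, hc, hc0⟩ := exists_hasDerivAt_eq_zero hab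
        (fun x _ => (hη x).continuousAt.continuousWithinAt) h (fun x _ => hη x)
      exact hne c (hSo.out ha hb ⟨hc.1.le, hc.2.le⟩) hc0
    intro a ha b hb h
    rcases lt_trichotomy a b with h1 | h1 | h1
    · exact absurd h (aux a ha b hb h1)
    · exact h1
    · exact absurd h.symm (aux b hb a ha h1)
  have hRL := RL S hSm η η' (fun x _ => (hη x).hasDerivWithinAt) inj hne
    (fun y => g (y + w) * conj (g y))
  have hN : Tendsto (fun N : ℕ => (N : ℝ)) atTop (cocompact ℝ) :=
    tendsto_natCast_atTop_atTop.mono_right atTop_le_cocompact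
  refine (hRL.comp hN).congr ?_
  intro N
  simp only [Function.comp, C]
  rw [← integral_indicator hSm]
  refine integral_congr_ae (Eventually.of_forall ?_)
  intro y
  simp only
  by_cases h1 : y ∈ Set.Icc (1:ℝ) 2
  · by_cases h2 : y + w ∈ Set.Icc (1:ℝ) 2
    · rw [Set.indicator_of_mem (show y ∈ S from ⟨h1, h2⟩), Set.indicator_of_mem h1,
        Set.indicator_of_mem h2]
      rw [map_mul, map_pow, v_eq, v_eq, ← Complex.exp_conj, ← Complex.exp_nat_mul,
        ← Complex.exp_nat_mul]
      have e : Complex.exp ((((N : ℝ) * η y : ℝ) : ℂ) * Complex.I)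
          = Complex.exp ((N : ℂ) * (((ψ (y + w) : ℝ) : ℂ) * Complex.I)) *
            Complex.exp ((N : ℂ) * conj (((ψ y : ℝ) : ℂ) * Complex.I)) := by
        rw [← Complex.exp_add]
        congr 1
        simp only [η, map_mul, Complex.conj_ofReal, Complex.conj_I]
        push_cast
        ring
      rw [e]
      ring
    · rw [Set.indicator_of_notMem (show y ∉ S from fun h => h2 h.2),
        Set.indicator_of_notMem h2, zero_mul]
  · rw [Set.indicator_of_notMem (show y ∉ S from fun h => h1 h.1),
      Set.indicator_of_notMem h1, map_zero, mul_zero]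

theorem F0_meas (g : ℝ → ℂ) (hg : Continuous g) (N : ℕ) :
    Measurable ((Set.Icc (1:ℝ) 2).indicator (fun x => v x ^ N * g x)) :=
  (((continuous_v.pow N).mul hg).measurable).indicator measurableSet_Icc

theorem C_meas (g : ℝ → ℂ) (hg : Continuous g) (N : ℕ) :
    AEStronglyMeasurable (C g N) volume := by
  have h := F0_meas g hg N
  have h2 : Measurable (fun z : ℝ × ℝ =>
      (Set.Icc (1:ℝ) 2).indicator (fun x => v x ^ N * g x) (z.2 + z.1) *
      conj ((Set.Icc (1:ℝ) 2).indicator (fun x => v x ^ N * g x) z.2)) := by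
    refine Measurable.mul (h.comp (measurable_snd.add measurable_fst)) ?_
    exact Complex.continuous_conj.measurable.comp (h.comp measurable_snd)
  exact (h2.aestronglyMeasurable (μ := volume.prod volume)).integral_prod_right'

theorem F0_norm (g : ℝ → ℂ) (B : ℝ) (hB : ∀ x ∈ Set.Icc (1:ℝ) 2, ‖g x‖ ≤ B) (N : ℕ) (x : ℝ) :
    ‖(Set.Icc (1:ℝ) 2).indicator (fun x => v x ^ N * g x) x‖ ≤
      (Set.Icc (1:ℝ) 2).indicator (fun _ => B) x := by
  by_cases h : x ∈ Set.Icc (1:ℝ) 2
  · rw [Set.indicator_of_mem h, Set.indicator_of_mem h, norm_mul, norm_pow, norm_v, one_pow,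
      one_mul]
    exact hB x h
  · rw [Set.indicator_of_notMem h, Set.indicator_of_notMem h, norm_zero]

theorem C_bound (g : ℝ → ℂ) (B : ℝ) (hB0 : 0 ≤ B)
    (hB : ∀ x ∈ Set.Icc (1:ℝ) 2, ‖g x‖ ≤ B) (N : ℕ) (w : ℝ) :
    ‖C g N w‖ ≤ (Set.Icc (-1:ℝ) 1).indicator (fun _ => B ^ 2) w := by
  by_cases hw : w ∈ Set.Icc (-1:ℝ) 1
  · rw [Set.indicator_of_mem hw]
    have h1 : ‖C g N w‖ ≤ ∫ y : ℝ, (Set.Icc (1:ℝ) 2).indicator (fun _ => B ^ 2) y := by
      refine norm_integral_le_of_norm_le ?_ (Eventually.of_forall ?_)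
      · exact (integrable_indicator_iff measurableSet_Icc).2
          (integrableOn_const (by simp))
      · intro y
        rw [norm_mul, RCLike.norm_conj]
        have a1 := F0_norm g B hB N (y + w)
        have a2 := F0_norm g B hB N y
        have a3 : (Set.Icc (1:ℝ) 2).indicator (fun _ => B) (y + w) ≤ B :=
          Set.indicator_apply_le' (fun _ => le_rfl) (fun _ => hB0)
        by_cases hy : y ∈ Set.Icc (1:ℝ) 2
        · rw [Set.indicator_of_mem hy (fun _ => B)] at a2
          rw [Set.indicator_of_mem hy (fun _ => B ^ 2), sq]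
          exact mul_le_mul (a1.trans a3) a2 (norm_nonneg _) hB0
        · rw [Set.indicator_of_notMem hy] at a2
          rw [Set.indicator_of_notMem hy (fun _ => B ^ 2), Set.indicator_of_notMem hy]
          simp
    refine h1.trans ?_
    rw [integral_indicator measurableSet_Icc, integral_const]
    simp
    norm_num
  · rw [Set.indicator_of_notMem hw]
    have : C g N w = 0 := by
      unfold C
      rw [← integral_zero ℝ ℂ]
      refine integral_congr_ae (Eventually.of_forall ?_)
      intro y
      simp only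
      by_cases h1 : y ∈ Set.Icc (1:ℝ) 2
      · have h2 : y + w ∉ Set.Icc (1:ℝ) 2 := by
          intro h2
          apply hw
          constructor
          · linarith [h1.2, h2.1]
          · linarith [h1.1, h2.2]
        rw [Set.indicator_of_notMem h2, zero_mul]
      · rw [Set.indicator_of_notMem h1, map_zero, mul_zero]
    rw [this, norm_zero]

theorem C_int_tendsto (g : ℝ → ℂ) (hg : Continuous g) (B : ℝ) (hB0 : 0 ≤ B)
    (hB : ∀ x ∈ Set.Icc (1:ℝ) 2, ‖g x‖ ≤ B) :
    Tendsto (fun N : ℕ => ∫ w, ‖C g N w‖) atTop (𝓝 0) := by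
  have h := tendsto_integral_of_dominated_convergence (μ := (volume : Measure ℝ))
    (F := fun N w => ‖C g N w‖) (f := fun _ => (0:ℝ))
    ((Set.Icc (-1:ℝ) 1).indicator (fun _ => B ^ 2))
    (fun N => (C_meas g hg N).norm)
    ((integrable_indicator_iff measurableSet_Icc).2 (integrableOn_const (by simp)))
    (fun N => Eventually.of_forall (fun w => by
      rw [norm_norm]; exact C_bound g B hB0 hB N w))
    (by
      have : ∀ᵐ w : ℝ ∂volume, w ≠ 0 := by
        simp [ae_iff, measure_singleton]
      filter_upwards [this] with w hw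
      have := (C_tendsto g w hw).norm
      rwa [norm_zero] at this)
  simpa using h

/-- Oscillatory integrals are small uniformly in the linear part of the phase. -/
theorem lemmaA (g : ℝ → ℂ) (hg : Continuous g) (ε : ℝ) (hε : 0 < ε) :
    ∀ᶠ N : ℕ in atTop, ∀ t : ℝ,
      ‖∫ x in Set.Icc (1:ℝ) 2, Complex.exp ((t * x : ℝ) * Complex.I) * (v x ^ N * g x)‖ < ε := by
  obtain ⟨B, hB⟩ := isCompact_Icc.exists_bound_of_continuousOn (s := Set.Icc (1:ℝ) 2)
    hg.continuousOn
  have hB0 : 0 ≤ B := (norm_nonneg _).trans (hB 1 ⟨le_rfl, by norm_num⟩)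
  have h1 := (C_int_tendsto g hg B hB0 hB).eventually (gt_mem_nhds (show 0 < ε ^ 2 by positivity))
  filter_upwards [h1] with N hN t
  let F : ℝ → ℂ := fun x => Complex.exp ((t * x : ℝ) * Complex.I) *
    (Set.Icc (1:ℝ) 2).indicator (fun x => v x ^ N * g x) x
  have hFe : ∫ x in Set.Icc (1:ℝ) 2, Complex.exp ((t * x : ℝ) * Complex.I) * (v x ^ N * g x)
      = ∫ x, F x := by
    rw [← integral_indicator measurableSet_Icc]
    refine integral_congr_ae (Eventually.of_forall ?_)
    intro x
    simp only [F]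
    by_cases hx : x ∈ Set.Icc (1:ℝ) 2
    · rw [Set.indicator_of_mem hx, Set.indicator_of_mem hx]
    · rw [Set.indicator_of_notMem hx, Set.indicator_of_notMem hx, mul_zero]
  have hFi : Integrable F := by
    have h2 : IntegrableOn (fun x => Complex.exp ((t * x : ℝ) * Complex.I) * (v x ^ N * g x))
        (Set.Icc (1:ℝ) 2) := by
      refine ContinuousOn.integrableOn_compact isCompact_Icc ?_
      exact (Continuous.mul (by fun_prop) ((continuous_v.pow N).mul hg)).continuousOn
    rw [← integrable_indicator_iff measurableSet_Icc] at h2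
    refine h2.congr (Eventually.of_forall ?_)
    intro x
    simp only [F]
    by_cases hx : x ∈ Set.Icc (1:ℝ) 2
    · rw [Set.indicator_of_mem hx, Set.indicator_of_mem hx]
    · rw [Set.indicator_of_notMem hx, Set.indicator_of_notMem hx, mul_zero]
  have h3 := sq_bound F hFi
  have h4 : ∀ w : ℝ, ‖∫ y, F (y + w) * conj (F y)‖ = ‖C g N w‖ := by
    intro w
    have : ∫ y, F (y + w) * conj (F y) = Complex.exp ((t * w : ℝ) * Complex.I) * C g N w := by
      unfold C
      rw [← integral_const_mul]
      refine integral_congr_ae (Eventually.of_forall ?_)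
      intro y
      simp only [F]
      rw [map_mul, ← Complex.exp_conj]
      have e : Complex.exp (((t * (y + w) : ℝ) : ℂ) * Complex.I) *
          Complex.exp (conj (((t * y : ℝ) : ℂ) * Complex.I))
          = Complex.exp (((t * w : ℝ) : ℂ) * Complex.I) := by
        rw [← Complex.exp_add]
        congr 1
        simp only [map_mul, Complex.conj_ofReal, Complex.conj_I]
        push_cast
        ring
      rw [← e]
      ring
    rw [this, norm_mul, Complex.norm_exp_ofReal_mul_I, one_mul]
  simp only [h4] at h3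
  rw [hFe]
  exact lt_of_pow_lt_pow_left₀ 2 hε.le (lt_of_le_of_lt h3 hN)

theorem lemmaA_conj (g : ℝ → ℂ) (hg : Continuous g) (ε : ℝ) (hε : 0 < ε) :
    ∀ᶠ N : ℕ in atTop, ∀ t : ℝ,
      ‖∫ x in Set.Icc (1:ℝ) 2, Complex.exp ((t * x : ℝ) * Complex.I) *
        (conj (v x) ^ N * g x)‖ < ε := by
  filter_upwards [lemmaA (fun x => conj (g x)) (Complex.continuous_conj.comp hg) ε hε] with N hN t
  have h := hN (-t)
  have e : ∫ x in Set.Icc (1:ℝ) 2, Complex.exp ((t * x : ℝ) * Complex.I) *
        (conj (v x) ^ N * g x)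
      = conj (∫ x in Set.Icc (1:ℝ) 2, Complex.exp (((-t) * x : ℝ) * Complex.I) *
        (v x ^ N * conj (g x))) := by
    rw [← integral_conj]
    refine integral_congr_ae (Eventually.of_forall ?_)
    intro x
    simp only [map_mul, map_pow, Complex.conj_conj]
    rw [← Complex.exp_conj]
    congr 2
    simp only [map_mul, Complex.conj_ofReal, Complex.conj_I]
    push_cast
    ring
  rw [e, RCLike.norm_conj]
  exact h

/-- The same with the real part of `v^N`. -/
theorem lemmaA_re (g : ℝ → ℂ) (hg : Continuous g) (ε : ℝ) (hε : 0 < ε) :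
    ∀ᶠ N : ℕ in atTop, ∀ t : ℝ,
      ‖∫ x in Set.Icc (1:ℝ) 2, Complex.exp ((t * x : ℝ) * Complex.I) *
        (((v x ^ N).re : ℂ) * g x)‖ < ε := by
  filter_upwards [lemmaA g hg ε hε, lemmaA_conj g hg ε hε] with N h1 h2 t
  have e : ∫ x in Set.Icc (1:ℝ) 2, Complex.exp ((t * x : ℝ) * Complex.I) *
        (((v x ^ N).re : ℂ) * g x)
      = (1/2 : ℂ) * ((∫ x in Set.Icc (1:ℝ) 2, Complex.exp ((t * x : ℝ) * Complex.I) *
        (v x ^ N * g x)) + ∫ x in Set.Icc (1:ℝ) 2, Complex.exp ((t * x : ℝ) * Complex.I) *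
        (conj (v x) ^ N * g x)) := by
    rw [← integral_add, ← integral_const_mul]
    · refine integral_congr_ae (Eventually.of_forall ?_)
      intro x
      simp only
      rw [Complex.re_eq_add_conj, map_pow]
      ring
    · refine ContinuousOn.integrableOn_compact isCompact_Icc ?_
      exact (Continuous.mul (by fun_prop) ((continuous_v.pow N).mul hg)).continuousOn
    · refine ContinuousOn.integrableOn_compact isCompact_Icc ?_
      exact (Continuous.mul (by fun_prop)
        (((Complex.continuous_conj.comp continuous_v).pow N).mul hg)).continuousOn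
  rw [e, norm_mul]
  have h3 := norm_add_le (∫ x in Set.Icc (1:ℝ) 2, Complex.exp ((t * x : ℝ) * Complex.I) *
        (v x ^ N * g x)) (∫ x in Set.Icc (1:ℝ) 2, Complex.exp ((t * x : ℝ) * Complex.I) *
        (conj (v x) ^ N * g x))
  have h4 := h1 t
  have h5 := h2 t
  have h6 : ‖(1/2 : ℂ)‖ = 1/2 := by norm_num
  rw [h6]
  linarith

end Q87.RZ
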