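import Pool.Agent.Q87.RZOsc

/-! Riesz product type densities on `[1,2]`. -/

set_option autoImplicit false
open MeasureTheory Filter Topology
open scoped ComplexConjugate

namespace Q87.RZ

/-- the allowed errors -/
noncomputable def eps (k : ℕ) : ℝ := (1/32) * (1/2) ^ k

theorem eps_pos (k : ℕ) : 0 < eps k := by unfold eps; positivity

/-- admissible choices of the next frequency -/
def Good (q : ℝ → ℝ) (L : List ℕ) (k n : ℕ) : Prop :=
  k ≤ n ∧
  (∀ i ≤ k, ∀ t : ℝ, ‖∫ x in Set.Icc (1:ℝ) 2, Complex.exp ((t * x : ℝ) * Complex.I) *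
      (((v x ^ n).re : ℂ) * ((x : ℂ) ^ i * (q x : ℂ)))‖ < eps k) ∧
  (∀ m ∈ L, ‖∫ x in Set.Icc (1:ℝ) 2, (((v x ^ n).re : ℂ) * (v x ^ m * (q x : ℂ)))‖ < eps k) ∧
  ‖∫ x in Set.Icc (1:ℝ) 2, v x ^ n * (q x : ℂ)‖ < 1/32 ∧
  ‖∫ x in Set.Icc (1:ℝ) 2, v x ^ (2 * n) * (q x : ℂ)‖ < 1/32

theorem exists_good (q : ℝ → ℝ) (hq : Continuous q) (L : List ℕ) (k : ℕ) :
    ∃ n, Good q L k n := by
  have hqc : Continuous (fun x => (q x : ℂ)) := Complex.continuous_ofReal.comp hq
  have h1 : ∀ᶠ n : ℕ in atTop, k ≤ n := eventually_ge_atTop k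
  have h2 : ∀ᶠ n : ℕ in atTop, ∀ i ≤ k, ∀ t : ℝ,
      ‖∫ x in Set.Icc (1:ℝ) 2, Complex.exp ((t * x : ℝ) * Complex.I) *
      (((v x ^ n).re : ℂ) * ((x : ℂ) ^ i * (q x : ℂ)))‖ < eps k := by
    have : ∀ᶠ n : ℕ in atTop, ∀ i ∈ Set.Iic k, ∀ t : ℝ,
      ‖∫ x in Set.Icc (1:ℝ) 2, Complex.exp ((t * x : ℝ) * Complex.I) *
      (((v x ^ n).re : ℂ) * ((x : ℂ) ^ i * (q x : ℂ)))‖ < eps k := by
      rw [eventually_all_finite (Set.finite_Iic k)]
      intro i _
      exact lemmaA_re (fun x => (x : ℂ) ^ i * (q x : ℂ)) (by fun_prop) (eps k) (eps_pos k)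
    exact this
  have h3 : ∀ᶠ n : ℕ in atTop, ∀ m ∈ L,
      ‖∫ x in Set.Icc (1:ℝ) 2, (((v x ^ n).re : ℂ) * (v x ^ m * (q x : ℂ)))‖ < eps k := by
    have : ∀ᶠ n : ℕ in atTop, ∀ m ∈ {m | m ∈ L},
      ‖∫ x in Set.Icc (1:ℝ) 2, (((v x ^ n).re : ℂ) * (v x ^ m * (q x : ℂ)))‖ < eps k := by
      rw [eventually_all_finite (List.finite_toSet L)]
      intro m _
      filter_upwards [lemmaA_re (fun x => v x ^ m * (q x : ℂ))
        ((continuous_v.pow m).mul hqc) (eps k) (eps_pos k)] with n hn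
      have := hn 0
      simpa using this
    exact this
  have h4 : ∀ᶠ n : ℕ in atTop, ‖∫ x in Set.Icc (1:ℝ) 2, v x ^ n * (q x : ℂ)‖ < 1/32 := by
    filter_upwards [lemmaA (fun x => (q x : ℂ)) hqc (1/32) (by norm_num)] with n hn
    have := hn 0
    simpa using this
  have h5 : ∀ᶠ n : ℕ in atTop, ‖∫ x in Set.Icc (1:ℝ) 2, v x ^ (2 * n) * (q x : ℂ)‖ < 1/32 := by
    have h := h4
    exact (tendsto_id.const_mul_atTop' (show 0 < 2 by norm_num)).eventually h
  obtain ⟨n, hn⟩ := (h1.and (h2.and (h3.and (h4.and h5)))).exists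
  exact ⟨n, hn⟩

/-- the densities and the list of frequencies -/
noncomputable def st : ℕ → (ℝ → ℝ) × List ℕ
  | 0 => (fun _ => 1, [])
  | k + 1 => (fun x => (st k).1 x *
      (1 + (v x ^ (Classical.epsilon (Good (st k).1 (st k).2 k))).re),
      Classical.epsilon (Good (st k).1 (st k).2 k) :: (st k).2)

/-- densities -/
noncomputable def p (k : ℕ) : ℝ → ℝ := (st k).1

/-- frequencies -/
noncomputable def Nn (k : ℕ) : ℕ := Classical.epsilon (Good (st k).1 (st k).2 k)

theorem p_zero (x : ℝ) : p 0 x = 1 := rfl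

theorem p_succ (k : ℕ) (x : ℝ) : p (k + 1) x = p k x * (1 + (v x ^ Nn k).re) := rfl

theorem st_succ (k : ℕ) : (st (k + 1)).2 = Nn k :: (st k).2 := rfl

theorem p_cont (k : ℕ) : Continuous (p k) := by
  induction k with
  | zero => exact continuous_const
  | succ k ih =>
    have : p (k + 1) = fun x => p k x * (1 + (v x ^ Nn k).re) := rfl
    rw [this]
    exact ih.mul (continuous_const.add (Complex.continuous_re.comp (continuous_v.pow _)))

theorem p_nonneg (k : ℕ) (x : ℝ) : 0 ≤ p k x := by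
  induction k with
  | zero => rw [p_zero]; norm_num
  | succ k ih =>
    rw [p_succ]
    refine mul_nonneg ih ?_
    have h1 : |(v x ^ Nn k).re| ≤ ‖v x ^ Nn k‖ := Complex.abs_re_le_norm _
    rw [norm_pow, norm_v, one_pow] at h1
    linarith [(abs_le.1 h1).1]

theorem good (k : ℕ) : Good (p k) (st k).2 k (Nn k) :=
  Classical.epsilon_spec (exists_good (p k) (p_cont k) (st k).2 k)

theorem mem_list (j k : ℕ) (h : j < k) : Nn j ∈ (st k).2 := by
  induction k with
  | zero => omega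
  | succ k ih =>
    rw [st_succ]
    rcases Nat.lt_succ_iff_lt_or_eq.1 h with h1 | h1
    · exact List.mem_cons_of_mem _ (ih h1)
    · rw [h1]; exact List.mem_cons_self

/-- the unnormalised functionals -/
noncomputable def J (k : ℕ) (f : ℝ → ℂ) : ℂ := ∫ x in Set.Icc (1:ℝ) 2, f x * (p k x : ℂ)

theorem J_integrable (k : ℕ) (f : ℝ → ℂ) (hf : Continuous f) :
    IntegrableOn (fun x => f x * (p k x : ℂ)) (Set.Icc (1:ℝ) 2) :=
  ContinuousOn.integrableOn_compact isCompact_Icc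
    (hf.mul (Complex.continuous_ofReal.comp (p_cont k))).continuousOn

theorem J_succ (k : ℕ) (f : ℝ → ℂ) (hf : Continuous f) :
    J (k + 1) f = J k f + J k (fun x => ((v x ^ Nn k).re : ℂ) * f x) := by
  unfold J
  have hc : Continuous (fun x => ((v x ^ Nn k).re : ℂ) * f x) :=
    (Complex.continuous_ofReal.comp (Complex.continuous_re.comp (continuous_v.pow _))).mul hf
  rw [← integral_add (J_integrable k f hf) (J_integrable k _ hc)]
  refine integral_congr_ae (Eventually.of_forall ?_)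
  intro x
  simp only
  rw [p_succ]
  push_cast
  ring

theorem J_succ_exp (k i : ℕ) (hi : i ≤ k) (t : ℝ) :
    ‖J (k + 1) (fun x => Complex.exp ((t * x : ℝ) * Complex.I) * (x : ℂ) ^ i) -
      J k (fun x => Complex.exp ((t * x : ℝ) * Complex.I) * (x : ℂ) ^ i)‖ ≤ eps k := by
  rw [J_succ k _ (by fun_prop), add_sub_cancel_left]
  have h := ((good k).2.1 i hi t).le
  refine le_trans (le_of_eq ?_) h
  congr 1
  unfold J
  refine integral_congr_ae (Eventually.of_forall ?_)
  intro x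
  simp only
  ring

theorem J_succ_v (j k : ℕ) (h : j < k) :
    ‖J (k + 1) (fun x => v x ^ Nn j) - J k (fun x => v x ^ Nn j)‖ ≤ eps k := by
  rw [J_succ k (fun x => v x ^ Nn j) (continuous_v.pow _), add_sub_cancel_left]
  have h := ((good k).2.2.1 (Nn j) (mem_list j k h)).le
  refine le_trans (le_of_eq ?_) h
  congr 1
  unfold J
  refine integral_congr_ae (Eventually.of_forall ?_)
  intro x
  simp only
  ring

theorem tele (a : ℕ → ℂ) (k0 : ℕ) (h : ∀ k, k0 ≤ k → ‖a (k + 1) - a k‖ ≤ eps k) (k : ℕ)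
    (hk : k0 ≤ k) : ‖a k - a k0‖ ≤ (1/16) * ((1/2) ^ k0 - (1/2) ^ k) := by
  induction k, hk using Nat.le_induction with
  | base => simp
  | succ k hk ih =>
    have e : a (k + 1) - a k0 = (a (k + 1) - a k) + (a k - a k0) := by ring
    rw [e]
    refine (norm_add_le _ _).trans ?_
    have h1 := h k hk
    unfold eps at h1
    rw [pow_succ]
    linarith

theorem J_exp (i k0 : ℕ) (hi : i ≤ k0) (t : ℝ) (k : ℕ) (hk : k0 ≤ k) :
    ‖J k (fun x => Complex.exp ((t * x : ℝ) * Complex.I) * (x : ℂ) ^ i) -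
      J k0 (fun x => Complex.exp ((t * x : ℝ) * Complex.I) * (x : ℂ) ^ i)‖ ≤
      (1/16) * (1/2) ^ k0 := by
  have h := tele (fun k => J k (fun x => Complex.exp ((t * x : ℝ) * Complex.I) * (x : ℂ) ^ i)) k0
    (fun k hk => J_succ_exp k i (hi.trans hk) t) k hk
  refine h.trans ?_
  have : (0:ℝ) < (1/2) ^ k := by positivity
  linarith

theorem J_one (k : ℕ) : ‖J k (fun _ => 1) - 1‖ ≤ 1/16 := by
  have h := J_exp 0 0 le_rfl 0 k (Nat.zero_le k)
  simp only [zero_mul, Complex.ofReal_zero, Complex.exp_zero, pow_zero, mul_one] at h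
  have h0 : J 0 (fun _ => 1) = 1 := by
    unfold J
    simp only [p_zero, Complex.ofReal_one, mul_one]
    rw [setIntegral_const]
    simp
    norm_num
  rw [h0] at h
  linarith

theorem J_v (j k : ℕ) (h : j < k) : 1/4 ≤ ‖J k (fun x => v x ^ Nn j)‖ := by
  have h1 := tele (fun k => J k (fun x => v x ^ Nn j)) (j + 1)
    (fun k hk => J_succ_v j k hk) k h
  have h2 : J (j + 1) (fun x => v x ^ Nn j) = J j (fun x => v x ^ Nn j) +
      ((1/2) * J j (fun x => v x ^ (2 * Nn j)) + (1/2) * J j (fun _ => 1)) := by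
    rw [J_succ j (fun x => v x ^ Nn j) (continuous_v.pow _)]
    congr 1
    unfold J
    rw [← integral_const_mul, ← integral_const_mul, ← integral_add]
    · refine integral_congr_ae (Eventually.of_forall ?_)
      intro x
      simp only
      rw [Complex.re_eq_add_conj]
      have hv : conj (v x ^ Nn j) * v x ^ Nn j = 1 := by
        rw [← Complex.normSq_eq_conj_mul_self, Complex.normSq_eq_norm_sq, norm_pow, norm_v]
        simp
      rw [two_mul, pow_add]
      linear_combination (p j x : ℂ) * hv / 2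
    · exact (J_integrable j _ (continuous_v.pow _)).const_mul _
    · exact (J_integrable j _ continuous_const).const_mul _
  have h3 := (good j).2.2.2.1
  have h4 := (good j).2.2.2.2
  have h5 := J_one j
  change ‖J j (fun x => v x ^ Nn j)‖ < 1/32 at h3
  change ‖J j (fun x => v x ^ (2 * Nn j))‖ < 1/32 at h4
  have tri : ∀ a b c d e : ℂ, ‖a - b - c - d - e‖ ≤ ‖a‖ + ‖b‖ + ‖c‖ + ‖d‖ + ‖e‖ := by
    intro a b c d e
    have t1 := norm_sub_le (a - b - c - d) e
    have t2 := norm_sub_le (a - b - c) d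
    have t3 := norm_sub_le (a - b) c
    have t4 := norm_sub_le a b
    linarith
  have h7 := tri (J k (fun x => v x ^ Nn j))
      (J k (fun x => v x ^ Nn j) - J (j + 1) (fun x => v x ^ Nn j))
      (J j (fun x => v x ^ Nn j)) ((1/2) * J j (fun x => v x ^ (2 * Nn j)))
      ((1/2) * (J j (fun _ => 1) - 1))
  have h6 : J k (fun x => v x ^ Nn j) -
      (J k (fun x => v x ^ Nn j) - J (j + 1) (fun x => v x ^ Nn j)) -
      J j (fun x => v x ^ Nn j) - (1/2) * J j (fun x => v x ^ (2 * Nn j)) -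
      (1/2) * (J j (fun _ => 1) - 1) = 1/2 := by
    rw [h2]; ring
  rw [h6] at h7
  rw [norm_mul, norm_mul] at h7
  have h8 : ‖(1/2 : ℂ)‖ = 1/2 := by norm_num
  rw [h8] at h7
  have h9 : (0:ℝ) < (1/2) ^ k := by positivity
  have h10 : ((1:ℝ)/2) ^ (j + 1) ≤ 1/2 := by
    rw [pow_succ]
    have : ((1:ℝ)/2) ^ j ≤ 1 := pow_le_one₀ (by norm_num) (by norm_num)
    linarith
  have h11 : ‖J k (fun x => v x ^ Nn j) - J (j + 1) (fun x => v x ^ Nn j)‖ ≤ 1/32 := by
    refine h1.trans ?_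
    linarith
  linarith

end Q87.RZ
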