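import Mathlib

/-! The unilateral shift on `ℓ²(ℕ)`, and an obstruction to square roots. -/

set_option autoImplicit false

open scoped ComplexConjugate InnerProductSpace

namespace Q87.ShiftSq

/-- The sequence space `ℓ²(ℕ)`. -/
abbrev E : Type := lp (fun _ : ℕ => ℂ) 2

/-- the shifted sequence -/
def sf (f : ℕ → ℂ) : ℕ → ℂ
  | 0 => 0
  | n + 1 => f n

theorem summable_sq (f : E) : Summable fun n => ‖f n‖ ^ (2 : ℕ) := by
  have h := (lp.memℓp f).summable (by norm_num)
  refine h.congr fun n => ?_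
  norm_num

theorem memlp_of_sq {f : ℕ → ℂ} (h : Summable fun n => ‖f n‖ ^ (2 : ℕ)) : Memℓp f 2 := by
  apply memℓp_gen
  refine h.congr fun n => ?_
  norm_num

theorem norm_sq_eq (f : E) : ‖f‖ ^ (2 : ℕ) = ∑' n, ‖f n‖ ^ (2 : ℕ) := by
  have h := lp.norm_rpow_eq_tsum (p := 2) (by norm_num) f
  have h2 : ‖f‖ ^ (2 : ENNReal).toReal = ‖f‖ ^ (2 : ℕ) := by norm_num
  rw [h2] at h
  rw [h]
  refine tsum_congr fun n => ?_
  norm_num

theorem sf_mem (f : E) : Memℓp (sf f) 2 := by
  apply memlp_of_sq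
  rw [← summable_nat_add_iff 1]
  exact summable_sq f

theorem back_mem (f : E) : Memℓp (fun n => f (n + 1)) 2 := by
  apply memlp_of_sq
  exact (summable_nat_add_iff 1).2 (summable_sq f)

/-- The unilateral shift. -/
noncomputable def S : E →ₗᵢ[ℂ] E where
  toFun f := ⟨sf f, sf_mem f⟩
  map_add' f g := by
    apply Subtype.ext; funext n
    cases n with
    | zero => exact (add_zero (0:ℂ)).symm
    | succ n => rfl
  map_smul' c f := by
    apply Subtype.ext; funext n
    cases n with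
    | zero => exact (smul_zero c).symm
    | succ n => rfl
  norm_map' f := by
    have h : ‖(⟨sf f, sf_mem f⟩ : E)‖ ^ (2:ℕ) = ‖f‖ ^ (2:ℕ) := by
      rw [norm_sq_eq, norm_sq_eq]
      have hs : Summable fun n => ‖(⟨sf f, sf_mem f⟩ : E) n‖ ^ (2:ℕ) := summable_sq _
      rw [hs.tsum_eq_zero_add]
      show ‖(0:ℂ)‖ ^ 2 + ∑' n, ‖f n‖ ^ 2 = _
      simp
    exact (pow_left_inj₀ (norm_nonneg _) (norm_nonneg _) two_ne_zero).1 h

@[simp] theorem S_zero (f : E) : S f 0 = 0 := rfl
@[simp] theorem S_succ (f : E) (n : ℕ) : S f (n + 1) = f n := rfl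

/-- The first unit vector. -/
noncomputable def e : E := lp.single 2 0 (1 : ℂ)

theorem norm_e : ‖e‖ = 1 := by
  have := lp.norm_single (p := 2) (E := fun _ : ℕ => ℂ) (by norm_num) 0 (1:ℂ)
  rw [e, this]; simp

theorem inner_e (f : E) : ⟪e, f⟫_ℂ = f 0 := by
  have := lp.inner_single_left (𝕜 := ℂ) (G := fun _ : ℕ => ℂ) 0 (1 : ℂ) f
  rw [e, this]
  simp

theorem inner_e_S (f : E) : ⟪e, S f⟫_ℂ = 0 := by rw [inner_e]; rfl

theorem decomp (u : E) : ∃ x : E, u = S x + ⟪e, u⟫_ℂ • e := by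
  refine ⟨⟨fun n => u (n + 1), back_mem u⟩, ?_⟩
  apply Subtype.ext; funext n
  rw [inner_e]
  cases n with
  | zero =>
    show u 0 = (0:ℂ) + u 0 * (e 0)
    simp [e, lp.single_apply]
  | succ n =>
    show u (n+1) = u (n+1) + u 0 * (e (n+1))
    simp [e, lp.single_apply]

theorem not_finite : ¬ FiniteDimensional ℂ E := by
  intro h
  have h1 : Function.Surjective (S : E →ₗᵢ[ℂ] E).toLinearMap :=
    LinearMap.surjective_of_injective (S : E →ₗᵢ[ℂ] E).injective
  obtain ⟨x, hx⟩ := h1 e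
  have := inner_e_S x
  have h2 : S x = e := hx
  rw [h2, inner_self_eq_norm_sq_to_K, norm_e] at this
  norm_num at this

/-- No nonzero multiple of the shift has a square root, even among linear maps. -/
theorem no_sqrt (c : ℂ) (hc : c ≠ 0) (b : E →ₗ[ℂ] E) (hb : ∀ x, b (b x) = c • S x) : False := by
  have hinj : Function.Injective b := by
    intro x y hxy
    have h1 : c • S x = c • S y := by rw [← hb, ← hb, hxy]
    exact (S : E →ₗᵢ[ℂ] E).injective (smul_right_injective _ hc h1)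
  have hranS : ∀ x, S x ∈ LinearMap.range b := fun x =>
    ⟨b (c⁻¹ • x), by rw [hb, map_smul, smul_smul, mul_inv_cancel₀ hc, one_smul]⟩
  have hns : ¬ Function.Surjective b := by
    intro hs
    obtain ⟨y, hy⟩ := hs e
    obtain ⟨x, hx⟩ := hs y
    have h1 : c • S x = e := by rw [← hb, hx, hy]
    have h2 : ⟪e, c • S x⟫_ℂ = 0 := by rw [inner_smul_right, inner_e_S, mul_zero]
    rw [h1, inner_self_eq_norm_sq_to_K, norm_e] at h2
    norm_num at h2
  have he : e ∉ LinearMap.range b := by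
    intro he
    apply hns
    intro u
    obtain ⟨x, hx⟩ := decomp u
    have : u ∈ LinearMap.range b := by
      rw [hx]; exact Submodule.add_mem _ (hranS x) (Submodule.smul_mem _ _ he)
    exact this
  apply hns
  intro x
  -- b x is in the range of S
  obtain ⟨y, hy⟩ := decomp (b x)
  have h0 : ⟪e, b x⟫_ℂ = 0 := by
    by_contra h0
    apply he
    have h1 : ⟪e, b x⟫_ℂ • e ∈ LinearMap.range b := by
      have : ⟪e, b x⟫_ℂ • e = b x - S y := by
        nth_rewrite 2 [hy]; abel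
      rw [this]
      exact Submodule.sub_mem _ ⟨x, rfl⟩ (hranS y)
    have h2 := Submodule.smul_mem _ (⟪e, b x⟫_ℂ)⁻¹ h1
    rwa [smul_smul, inv_mul_cancel₀ h0, one_smul] at h2
  rw [h0, zero_smul, add_zero] at hy
  refine ⟨c⁻¹ • y, hinj ?_⟩
  show b (b (c⁻¹ • y)) = b x
  rw [hb, map_smul, smul_smul, mul_inv_cancel₀ hc, one_smul, hy]

end Q87.ShiftSq
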