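import Mathlib

/-! The translation group on `C₀(ℝ)`: an isometric group whose resolvent integrals along vertical
lines stay bounded for a suitable vector. -/

set_option autoImplicit false
open Filter Topology MeasureTheory

namespace Q87.StrongStab

open scoped ZeroAtInfty

/-- The space. -/
abbrev X := C₀(ℝ, ℂ)

theorem norm_le_iff (f : X) (C : ℝ) (hC : 0 ≤ C) : ‖f‖ ≤ C ↔ ∀ s, ‖f s‖ ≤ C := by
  rw [← ZeroAtInftyContinuousMap.norm_toBCF_eq_norm, BoundedContinuousFunction.norm_le hC]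
  rfl

theorem apply_le_norm (f : X) (s : ℝ) : ‖f s‖ ≤ ‖f‖ :=
  (norm_le_iff f ‖f‖ (norm_nonneg _)).1 le_rfl s

/-- translation as a cocompact map -/
def tr (t : ℝ) : CocompactMap ℝ ℝ := (Homeomorph.addRight t).toCocompactMap

theorem tr_apply (t s : ℝ) : tr t s = s + t := rfl

/-- translation operators -/
noncomputable def T (t : ℝ) : X →L[ℂ] X :=
  LinearMap.mkContinuous (ZeroAtInftyContinuousMap.compLinearMap (tr t) : X →ₗ[ℂ] X) 1 (by
    intro f
    rw [one_mul, norm_le_iff _ _ (norm_nonneg _)]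
    intro s
    exact apply_le_norm f (s + t))

@[simp] theorem T_apply (t : ℝ) (f : X) (s : ℝ) : T t f s = f (s + t) := rfl

theorem norm_T_apply_le (t : ℝ) (f : X) : ‖T t f‖ ≤ ‖f‖ := by
  rw [norm_le_iff _ _ (norm_nonneg _)]
  intro s
  exact apply_le_norm f (s + t)

theorem continuous_T (f : X) : Continuous fun t => T t f := by
  rw [Metric.continuous_iff]
  intro t ε hε
  obtain ⟨δ, hδ, h⟩ := Metric.uniformContinuous_iff.1 (ZeroAtInftyContinuousMap.uniformContinuous f)
    (ε / 2) (half_pos hε)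
  refine ⟨δ, hδ, fun t' ht' => ?_⟩
  rw [dist_eq_norm]
  refine lt_of_le_of_lt ?_ (half_lt_self hε)
  rw [norm_le_iff _ _ (half_pos hε).le]
  intro s
  have : dist (s + t') (s + t) < δ := by
    rw [Real.dist_eq] at *
    simpa using ht'
  have h1 := h this
  rw [dist_eq_norm] at h1
  exact h1.le

/-- the profile `1 / (1 + s²)` -/
noncomputable def φ (s : ℝ) : ℝ := (1 + s ^ 2)⁻¹

/-- derivative of the profile -/
noncomputable def φ' (s : ℝ) : ℝ := -(2 * s) / (1 + s ^ 2) ^ 2

theorem φ_pos (s : ℝ) : 0 < φ s := by unfold φ; positivity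

theorem φ_le_one (s : ℝ) : φ s ≤ 1 := by
  unfold φ
  apply inv_le_one_of_one_le₀
  nlinarith [sq_nonneg s]

theorem hasDeriv (s : ℝ) : HasDerivAt φ (φ' s) s := by
  have h1 : HasDerivAt (fun s : ℝ => 1 + s ^ 2) (2 * s) s := by
    have := (hasDerivAt_pow 2 s).const_add 1
    simpa using this
  exact h1.inv (by positivity)

theorem abs_φ'_le (s : ℝ) : |φ' s| ≤ φ s := by
  unfold φ φ'
  rw [abs_div, abs_of_pos (show 0 < (1 + s ^ 2) ^ 2 by positivity), div_le_iff₀ (by positivity),
    abs_neg, abs_mul, abs_two]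
  have : (1 + s ^ 2)⁻¹ * (1 + s ^ 2) ^ 2 = 1 + s ^ 2 := by
    field_simp
  rw [this]
  nlinarith [sq_nonneg (|s| - 1), sq_abs s]

theorem φ_integrable : Integrable φ := integrable_inv_one_add_sq

theorem φ_integral : ∫ s, φ s = Real.pi := integral_univ_inv_one_add_sq

theorem continuous_φ : Continuous φ := by
  rw [continuous_iff_continuousAt]
  exact fun s => (hasDeriv s).continuousAt

theorem continuous_φ' : Continuous φ' := by
  unfold φ'
  refine Continuous.div (by fun_prop) (by fun_prop) fun s => by positivity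

/-- the vector -/
noncomputable def f : X where
  toFun := fun s => (φ s : ℂ)
  continuous_toFun := Complex.continuous_ofReal.comp continuous_φ
  zero_at_infty' := by
    have h : Tendsto φ (cocompact ℝ) (𝓝 0) := by
      unfold φ
      refine Tendsto.comp tendsto_inv_atTop_zero ?_
      refine tendsto_atTop_add_const_left _ _ ?_
      have h2 : Tendsto (fun s : ℝ => ‖s‖ ^ 2) (cocompact ℝ) atTop :=
        (tendsto_pow_atTop two_ne_zero).comp (tendsto_norm_cocompact_atTop)
      simpa using h2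
    have := (Complex.continuous_ofReal.tendsto 0).comp h
    rw [Complex.ofReal_zero] at this
    exact this

@[simp] theorem f_apply (s : ℝ) : f s = (φ s : ℂ) := rfl

theorem not_stable : ¬ Tendsto (fun t : ℝ => T t f) atTop (𝓝 0) := by
  intro h
  have h1 := (tendsto_zero_iff_norm_tendsto_zero).1 h
  have h2 : ∀ t, 1 ≤ ‖T t f‖ := by
    intro t
    have := apply_le_norm (T t f) (-t)
    simpa [φ] using this
  have := ge_of_tendsto' h1 h2
  linarith

/-- the kernel -/
noncomputable def ker (a σ t : ℝ) : ℂ := Complex.exp (-(((a : ℂ) + (σ : ℂ) * Complex.I) * (t : ℂ)))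

theorem norm_ker (a σ t : ℝ) : ‖ker a σ t‖ = Real.exp (-(a * t)) := by
  unfold ker
  rw [Complex.norm_exp]
  congr 1
  simp

theorem continuous_ker (a σ : ℝ) : Continuous (ker a σ) := by
  unfold ker; fun_prop

theorem integrable_orbit (a σ : ℝ) (ha : 0 < a) (g : X) :
    IntegrableOn (fun t => ker a σ t • T t g) (Set.Ioi 0) := by
  have h1 : IntegrableOn (fun t => Real.exp (-(a * t)) * ‖g‖) (Set.Ioi 0) := by
    have := (integrableOn_exp_mul_Ioi (a := -a) (by linarith) 0)
    simp only [neg_mul] at this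
    exact this.mul_const _
  refine Integrable.mono' h1 ?_ ?_
  · exact ((continuous_ker a σ).smul (continuous_T g)).aestronglyMeasurable
  · refine Eventually.of_forall fun t => ?_
    rw [norm_smul, norm_ker]
    exact mul_le_mul_of_nonneg_left (norm_T_apply_le t g) (Real.exp_pos _).le

/-- evaluation functional -/
noncomputable def ev (s : ℝ) : X →L[ℂ] ℂ :=
  LinearMap.mkContinuous
    { toFun := fun f => f s
      map_add' := fun _ _ => rfl
      map_smul' := fun _ _ => rfl } 1 (fun f => by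
        rw [one_mul]; exact apply_le_norm f s)

theorem resolvent_apply (a σ : ℝ) (ha : 0 < a) (g : X) (s : ℝ) :
    (∫ t in Set.Ioi (0 : ℝ), ker a σ t • T t g) s = ∫ t in Set.Ioi (0 : ℝ), ker a σ t * g (s + t) := by
  have := (ev s).integral_comp_comm (integrable_orbit a σ ha g)
  exact this.symm

theorem φ_shift_int (s : ℝ) : IntegrableOn (fun t => φ (s + t)) (Set.Ioi 0) :=
  (φ_integrable.comp_add_left s).integrableOn

theorem φ_shift_le (s : ℝ) : ∫ t in Set.Ioi (0:ℝ), φ (s + t) ≤ Real.pi := by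
  calc ∫ t in Set.Ioi (0:ℝ), φ (s + t) ≤ ∫ t, φ (s + t) :=
        setIntegral_le_integral (φ_integrable.comp_add_left s)
          (Eventually.of_forall fun t => (φ_pos _).le)
    _ = ∫ t, φ t := integral_add_left_eq_self φ s
    _ = Real.pi := φ_integral

theorem ker_le_one (a σ t : ℝ) (ha : 0 < a) (ht : 0 ≤ t) : ‖ker a σ t‖ ≤ 1 := by
  rw [norm_ker, Real.exp_le_one_iff]
  nlinarith

theorem bound1 (a σ : ℝ) (ha : 0 < a) (s : ℝ) (g : ℝ → ℂ) (hg : ∀ t, ‖g t‖ ≤ φ t) :
    ‖∫ t in Set.Ioi (0 : ℝ), ker a σ t * g (s + t)‖ ≤ Real.pi := by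
  refine (norm_integral_le_of_norm_le (φ_shift_int s) ?_).trans (φ_shift_le s)
  refine (ae_restrict_iff' measurableSet_Ioi).2 (Eventually.of_forall fun t ht => ?_)
  rw [norm_mul]
  calc ‖ker a σ t‖ * ‖g (s + t)‖ ≤ 1 * φ (s + t) :=
        mul_le_mul (ker_le_one a σ t ha (le_of_lt ht)) (hg _) (norm_nonneg _) zero_le_one
    _ = φ (s + t) := one_mul _

theorem bound2 (a σ : ℝ) (ha : 0 < a) (s : ℝ) :
    ‖((a : ℂ) + (σ : ℂ) * Complex.I) * ∫ t in Set.Ioi (0 : ℝ), ker a σ t * f (s + t)‖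
      ≤ 1 + Real.pi := by
  set lam : ℂ := (a : ℂ) + (σ : ℂ) * Complex.I with hlam
  have hker : ∀ t : ℝ, HasDerivAt (ker a σ) (-lam * ker a σ t) t := by
    intro t
    unfold ker
    have h1 : HasDerivAt (fun t : ℝ => -(lam * (t : ℂ))) (-lam) t := by
      have := ((Complex.ofRealCLM.hasDerivAt (x := t)).const_mul lam).neg
      simp only [Complex.ofRealCLM_apply, Complex.ofReal_one, mul_one] at this
      exact this
    have := h1.cexp
    rw [mul_comm] at this
    exact this
  have hF : ∀ t : ℝ, HasDerivAt (fun t => ker a σ t * (φ (s + t) : ℂ))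
      (-lam * (ker a σ t * (φ (s + t) : ℂ)) + ker a σ t * (φ' (s + t) : ℂ)) t := by
    intro t
    have h1 : HasDerivAt (fun t : ℝ => ((φ (s + t) : ℝ) : ℂ)) ((φ' (s + t) : ℝ) : ℂ) t := by
      have h2 : HasDerivAt (fun t : ℝ => φ (s + t)) (φ' (s + t)) t := by
        have := (hasDeriv (s + t)).comp_const_add s t
        exact this
      exact h2.ofReal_comp
    have h3 : HasDerivAt (fun t => ker a σ t * (φ (s + t) : ℂ)) _ t := (hker t).mul h1
    refine h3.congr_deriv ?_
    ring
  have hdom : IntegrableOn (fun t => φ (s + t)) (Set.Ioi 0) := φ_shift_int s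
  have hb : ∀ (g : ℝ → ℝ), Continuous g → (∀ t, |g t| ≤ φ t) →
      IntegrableOn (fun t => ker a σ t * (g (s + t) : ℂ)) (Set.Ioi 0) := by
    intro g hg1 hg2
    refine Integrable.mono' hdom ?_ ?_
    · have h1 : Continuous fun t : ℝ => ((g (s + t) : ℝ) : ℂ) :=
        Complex.continuous_ofReal.comp (hg1.comp (continuous_const.add continuous_id))
      exact ((continuous_ker a σ).mul h1).aestronglyMeasurable
    · refine (ae_restrict_iff' measurableSet_Ioi).2 (Eventually.of_forall fun t ht => ?_)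
      rw [norm_mul, Complex.norm_real, Real.norm_eq_abs]
      calc ‖ker a σ t‖ * |g (s + t)| ≤ 1 * φ (s + t) :=
            mul_le_mul (ker_le_one a σ t ha (le_of_lt ht)) (hg2 _) (abs_nonneg _) zero_le_one
        _ = φ (s + t) := one_mul _
  have i1 := hb φ continuous_φ (fun t => by rw [abs_of_pos (φ_pos t)])
  have i2 := hb φ' continuous_φ' abs_φ'_le
  have hlim : Tendsto (fun t => ker a σ t * (φ (s + t) : ℂ)) atTop (𝓝 0) := by
    rw [tendsto_zero_iff_norm_tendsto_zero]
    have h1 : Tendsto (fun t : ℝ => Real.exp (-(a * t))) atTop (𝓝 0) := by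
      have : Tendsto (fun t : ℝ => a * t) atTop atTop := tendsto_id.const_mul_atTop ha
      exact Real.tendsto_exp_neg_atTop_nhds_zero.comp this
    refine squeeze_zero (fun _ => norm_nonneg _) (fun t => ?_) h1
    rw [norm_mul, norm_ker, Complex.norm_real, Real.norm_eq_abs, abs_of_pos (φ_pos _)]
    exact mul_le_of_le_one_right (Real.exp_pos _).le (φ_le_one _)
  have key := integral_Ioi_of_hasDerivAt_of_tendsto' (a := 0) (fun t _ => hF t)
    ((i1.const_mul (-lam)).add i2) hlim
  rw [integral_add (i1.const_mul (-lam)) i2, integral_const_mul] at key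
  have h0 : ker a σ 0 = 1 := by simp [ker]
  rw [h0, add_zero, one_mul, zero_sub] at key
  have e : lam * ∫ t in Set.Ioi (0 : ℝ), ker a σ t * f (s + t)
      = (φ s : ℂ) + ∫ t in Set.Ioi (0 : ℝ), ker a σ t * (φ' (s + t) : ℂ) := by
    have : ∫ t in Set.Ioi (0 : ℝ), ker a σ t * f (s + t)
        = ∫ t in Set.Ioi (0 : ℝ), ker a σ t * (φ (s + t) : ℂ) := rfl
    rw [this]
    linear_combination -key
  rw [e]
  refine (norm_add_le _ _).trans ?_
  refine add_le_add ?_ ?_
  · rw [Complex.norm_real, Real.norm_eq_abs, abs_of_pos (φ_pos s)]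
    exact φ_le_one s
  · exact bound1 a σ ha s (fun t => (φ' t : ℂ)) (fun t => by
      rw [Complex.norm_real, Real.norm_eq_abs]; exact abs_φ'_le t)

/-- resolvent bound -/
theorem resolvent_bound (a σ : ℝ) (ha : 0 < a) :
    ‖∫ t in Set.Ioi (0 : ℝ), ker a σ t • T t f‖ ^ 2 ≤ 50 * φ σ := by
  set R : X := ∫ t in Set.Ioi (0 : ℝ), ker a σ t • T t f with hR
  have hpi := Real.pi_lt_four
  have hpi0 := Real.pi_pos
  have h1 : ‖R‖ ≤ 4 := by
    rw [norm_le_iff _ _ (by norm_num)]
    intro s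
    rw [hR, resolvent_apply a σ ha]
    refine (bound1 a σ ha s f (fun t => ?_)).trans hpi.le
    rw [f_apply, Complex.norm_real, Real.norm_eq_abs, abs_of_pos (φ_pos t)]
  have h2 : |σ| * ‖R‖ ≤ 5 := by
    have h3 : ‖((σ : ℂ)) • R‖ ≤ 5 := by
      rw [norm_le_iff _ _ (by norm_num)]
      intro s
      have h4 := bound2 a σ ha s
      rw [← resolvent_apply a σ ha, ← hR, norm_mul] at h4
      have h5 : |σ| ≤ ‖(a : ℂ) + (σ : ℂ) * Complex.I‖ := by
        have := Complex.abs_im_le_norm ((a : ℂ) + (σ : ℂ) * Complex.I)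
        simpa using this
      have h6 : ((σ : ℂ) • R) s = (σ : ℂ) * R s := rfl
      rw [h6, norm_mul, Complex.norm_real, Real.norm_eq_abs]
      calc |σ| * ‖R s‖ ≤ ‖(a : ℂ) + (σ : ℂ) * Complex.I‖ * ‖R s‖ :=
            mul_le_mul_of_nonneg_right h5 (norm_nonneg _)
        _ ≤ 5 := by linarith
    rwa [norm_smul, Complex.norm_real, Real.norm_eq_abs] at h3
  unfold φ
  rw [← div_eq_mul_inv, le_div_iff₀ (by positivity)]
  have h7 : ‖R‖ ^ 2 ≤ 16 := by nlinarith [norm_nonneg R]
  have h8 : σ ^ 2 * ‖R‖ ^ 2 ≤ 25 := by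
    have : (|σ| * ‖R‖) ^ 2 ≤ 5 ^ 2 := pow_le_pow_left₀ (by positivity) h2 2
    rw [mul_pow, sq_abs] at this
    linarith
  nlinarith

theorem main_tendsto : Tendsto
    (fun a : ℝ => ENNReal.ofReal a *
      ∫⁻ s : ℝ,
        ((‖∫ t in Set.Ioi (0 : ℝ),
            Complex.exp (-(((a : ℂ) + (s : ℂ) * Complex.I) * (t : ℂ))) • T t f‖₊ : ENNReal)) ^ 2)
    (𝓝[>] (0 : ℝ)) (𝓝 0) := by
  have hK : ∫⁻ s : ℝ, ENNReal.ofReal (50 * φ s) = ENNReal.ofReal (50 * Real.pi) := by
    rw [← ofReal_integral_eq_lintegral_ofReal (φ_integrable.const_mul 50)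
      (Eventually.of_forall fun s => by have := φ_pos s; positivity), integral_const_mul, φ_integral]
  have hle : ∀ a : ℝ, 0 < a → ∫⁻ s : ℝ,
        ((‖∫ t in Set.Ioi (0 : ℝ),
            Complex.exp (-(((a : ℂ) + (s : ℂ) * Complex.I) * (t : ℂ))) • T t f‖₊ : ENNReal)) ^ 2
      ≤ ENNReal.ofReal (50 * Real.pi) := by
    intro a ha
    rw [← hK]
    refine lintegral_mono fun s => ?_
    have h1 := resolvent_bound a s ha
    rw [← enorm_eq_nnnorm, ← ofReal_norm, ← ENNReal.ofReal_pow (norm_nonneg _)]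
    exact ENNReal.ofReal_le_ofReal h1
  have hlim : Tendsto (fun a : ℝ => ENNReal.ofReal a * ENNReal.ofReal (50 * Real.pi))
      (𝓝[>] (0 : ℝ)) (𝓝 0) := by
    have h1 : Tendsto (fun a : ℝ => ENNReal.ofReal (a * (50 * Real.pi))) (𝓝 (0:ℝ)) (𝓝 0) := by
      have : Continuous fun a : ℝ => ENNReal.ofReal (a * (50 * Real.pi)) :=
        ENNReal.continuous_ofReal.comp (by fun_prop)
      have := this.tendsto 0
      simpa using this
    refine (h1.mono_left nhdsWithin_le_nhds).congr' ?_
    filter_upwards [self_mem_nhdsWithin] with a ha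
    rw [ENNReal.ofReal_mul (le_of_lt ha)]
  refine tendsto_of_tendsto_of_tendsto_of_le_of_le' tendsto_const_nhds hlim
    (Eventually.of_forall fun _ => zero_le) ?_
  filter_upwards [self_mem_nhdsWithin] with a ha
  exact mul_le_mul_right (hle a ha) _

end Q87.StrongStab
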