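import Pool.Agent.Q87.TTOSmooth

/-! Truncated Toeplitz matrices have invariants in a set of dimension at most `6n`. -/

set_option autoImplicit false
open Matrix Filter Topology Polynomial

namespace Q87.TTO

attribute [local instance] Matrix.linftyOpNormedRing Matrix.linftyOpNormedAlgebra

variable {n : ℕ} [NeZero n]

/-- The model property of the frozen statement. -/
def IsModel (M : Mat n) : Prop :=
  ∃ T : Mat n, ∃ k u v : Fin n → ℂ,
        1 - T * Tᴴ = Matrix.vecMulVec k (star k) ∧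
        (∀ μ : ℂ, ∀ x : Fin n → ℂ, x ≠ 0 → T *ᵥ x = μ • x → ‖μ‖ < 1) ∧
        M - T * M * Tᴴ = Matrix.vecMulVec u (star k) + Matrix.vecMulVec k (star v)

theorem exists_par (M : Mat n) (hM : IsModel M) :
    ∃ p : Par n, Good p ∧ ∃ V : Mat n, IsUnit V ∧
      A1 p = V⁻¹ * ((1/2 : ℂ) • (M + Mᴴ)) * V ∧
      A2 p = V⁻¹ * ((-Complex.I/2 : ℂ) • (M - Mᴴ)) * V := by
  obtain ⟨T, k, u, v, hk, hev, hM⟩ := hM
  have hT := pow_tendsto_zero T hev
  obtain ⟨c, hc⟩ := exists_comp T k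
  have hV := krylov_isUnit T k hk hT
  set V := krylov T k with hVdef
  have hdet : IsUnit V.det := (Matrix.isUnit_iff_isUnit_det _).1 hV
  have hVi : V⁻¹ * V = 1 := Matrix.nonsing_inv_mul V hdet
  have hVi' : V * V⁻¹ = 1 := Matrix.mul_nonsing_inv V hdet
  have hC : comp c = V⁻¹ * T * V := by
    rw [Matrix.mul_assoc, hc, ← Matrix.mul_assoc, hVi, Matrix.one_mul]
  have hCpow : ∀ m : ℕ, comp c ^ m = V⁻¹ * T ^ m * V := by
    intro m
    rw [Matrix.mul_assoc, krylov_pow T k c hc, ← Matrix.mul_assoc, hVi, Matrix.one_mul]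
  have hC0 : Tendsto (fun m : ℕ => comp c ^ m) atTop (𝓝 0) := by
    simp only [hCpow]
    have := (hT.const_mul V⁻¹).mul_const V
    rwa [mul_zero, zero_mul] at this
  have hspec := stinv_spec (C := comp c) (D := (comp c)ᴴ) (fun Z hZ => stein_inj _ hC0 Z hZ)
  have hk0 : V⁻¹ *ᵥ k = e0 := by
    rw [← krylov_zero T k, Matrix.mulVec_mulVec, hVi, Matrix.one_mulVec]; rfl
  have hconj : ∀ Z : Mat n, comp c * (V⁻¹ * Z * (V⁻¹)ᴴ) * (comp c)ᴴ
      = V⁻¹ * (T * Z * Tᴴ) * (V⁻¹)ᴴ := by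
    intro Z
    have h1 : comp c * V⁻¹ = V⁻¹ * T := by
      rw [hC, Matrix.mul_assoc, hVi', Matrix.mul_one]
    have h2 : (V⁻¹)ᴴ * (comp c)ᴴ = Tᴴ * (V⁻¹)ᴴ := by
      rw [← Matrix.conjTranspose_mul, h1, Matrix.conjTranspose_mul]
    calc comp c * (V⁻¹ * Z * (V⁻¹)ᴴ) * (comp c)ᴴ
        = (comp c * V⁻¹) * Z * ((V⁻¹)ᴴ * (comp c)ᴴ) := by simp only [Matrix.mul_assoc]
      _ = V⁻¹ * (T * Z * Tᴴ) * (V⁻¹)ᴴ := by rw [h1, h2]; simp only [Matrix.mul_assoc]
  have hrank : ∀ a b : Fin n → ℂ, V⁻¹ * vecMulVec a (star b) * (V⁻¹)ᴴ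
      = vecMulVec (V⁻¹ *ᵥ a) (star (V⁻¹ *ᵥ b)) := by
    intro a b
    rw [Matrix.mul_vecMulVec, Matrix.vecMulVec_mul, Matrix.star_mulVec]
  let p : Par n := (c, V⁻¹ *ᵥ u, V⁻¹ *ᵥ v)
  have hX : Xf p = V⁻¹ * (V⁻¹)ᴴ := by
    refine hspec.2 _ _ ?_
    have h1 := hconj 1
    rw [Matrix.mul_one, Matrix.mul_one] at h1
    have h2 : V⁻¹ * (V⁻¹)ᴴ = V⁻¹ * 1 * (V⁻¹)ᴴ := by rw [Matrix.mul_one]
    rw [h1, h2, ← Matrix.sub_mul, ← Matrix.mul_sub, hk, hrank, hk0]
  have hMf : Mf p = V⁻¹ * M * (V⁻¹)ᴴ := by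
    refine hspec.2 _ _ ?_
    rw [hconj M, ← Matrix.sub_mul, ← Matrix.mul_sub, hM, Matrix.mul_add, Matrix.add_mul,
      hrank, hrank, hk0]
  have hMfH : (Mf p)ᴴ = V⁻¹ * Mᴴ * (V⁻¹)ᴴ := by
    rw [hMf, Matrix.conjTranspose_mul, Matrix.conjTranspose_mul, Matrix.conjTranspose_conjTranspose]
    simp only [Matrix.mul_assoc]
  have hVH1 : (V⁻¹)ᴴ * Vᴴ = 1 := by
    rw [← Matrix.conjTranspose_mul, hVi', Matrix.conjTranspose_one]
  have hVH2 : Vᴴ * (V⁻¹)ᴴ = 1 := by
    rw [← Matrix.conjTranspose_mul, hVi, Matrix.conjTranspose_one]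
  have hXY : Xf p * (Vᴴ * V) = 1 := by
    rw [hX]
    calc V⁻¹ * (V⁻¹)ᴴ * (Vᴴ * V) = V⁻¹ * ((V⁻¹)ᴴ * Vᴴ) * V := by simp only [Matrix.mul_assoc]
      _ = 1 := by rw [hVH1, Matrix.mul_one, hVi]
  have hYX : (Vᴴ * V) * Xf p = 1 := by
    rw [hX]
    calc Vᴴ * V * (V⁻¹ * (V⁻¹)ᴴ) = Vᴴ * (V * V⁻¹) * (V⁻¹)ᴴ := by simp only [Matrix.mul_assoc]
      _ = 1 := by rw [hVi', Matrix.mul_one, hVH2]
  have hXinv : Ring.inverse (Xf p) = Vᴴ * V := by
    have := Ring.inverse_unit (⟨Xf p, Vᴴ * V, hXY, hYX⟩ : (Mat n)ˣ)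
    simpa using this
  refine ⟨p, ⟨hspec.1, ⟨⟨Xf p, Vᴴ * V, hXY, hYX⟩, rfl⟩⟩, V, hV, ?_, ?_⟩
  · unfold A1
    rw [hXinv, hMfH, hMf, ← Matrix.add_mul, ← Matrix.mul_add]
    calc ((1/2 : ℂ) • (V⁻¹ * (M + Mᴴ) * (V⁻¹)ᴴ)) * (Vᴴ * V)
        = V⁻¹ * ((1/2 : ℂ) • (M + Mᴴ)) * ((V⁻¹)ᴴ * Vᴴ) * V := by
          simp only [Matrix.mul_assoc, Matrix.smul_mul, Matrix.mul_smul]
      _ = _ := by rw [hVH1, Matrix.mul_one]
  · unfold A2
    rw [hXinv, hMfH, hMf, ← Matrix.sub_mul, ← Matrix.mul_sub]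
    calc ((-Complex.I/2 : ℂ) • (V⁻¹ * (M - Mᴴ) * (V⁻¹)ᴴ)) * (Vᴴ * V)
        = V⁻¹ * ((-Complex.I/2 : ℂ) • (M - Mᴴ)) * ((V⁻¹)ᴴ * Vᴴ) * V := by
          simp only [Matrix.mul_assoc, Matrix.smul_mul, Matrix.mul_smul]
      _ = _ := by rw [hVH1, Matrix.mul_one]

/-- Conjugation by an invertible matrix as an algebra homomorphism. -/
noncomputable def conjHom (V : Mat n) (hV : V * V⁻¹ = 1) (hV' : V⁻¹ * V = 1) :
    Mat n →ₐ[ℂ] Mat n where
  toFun A := V⁻¹ * A * V
  map_one' := by rw [Matrix.mul_one, hV']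
  map_mul' A B := by
    calc V⁻¹ * (A * B) * V = V⁻¹ * A * 1 * B * V := by simp only [Matrix.mul_assoc, Matrix.one_mul]
      _ = V⁻¹ * A * V * (V⁻¹ * B * V) := by rw [← hV]; simp only [Matrix.mul_assoc]
  map_zero' := by simp
  map_add' A B := by rw [Matrix.mul_add, Matrix.add_mul]
  commutes' r := by
    rw [Algebra.algebraMap_eq_smul_one, Matrix.mul_smul, Matrix.smul_mul, Matrix.mul_one, hV']

/-- The nodes. -/
def dd (n : ℕ) : Fin n → ℂ := fun i => ((i : ℕ) : ℂ)

omit [NeZero n] in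
theorem dd_inj : Function.Injective (dd n) := fun i j h => by
  have : ((i:ℕ):ℂ) = ((j:ℕ):ℂ) := h
  exact Fin.ext (by exact_mod_cast this)

/-- The Lagrange basis at the nodes. -/
noncomputable def PP (n : ℕ) (i : Fin n) : ℂ[X] := Lagrange.basis Finset.univ (dd n) i

omit [NeZero n] in
theorem aeval_PP (i : Fin n) : aeval (diagonal (dd n) : Mat n) (PP n i) =
    diagonal (Pi.single i 1) := by
  have h1 : (diagonal (dd n) : Mat n) = Matrix.diagonalAlgHom ℂ (dd n) := rfl
  rw [h1, Polynomial.aeval_algHom_apply]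
  have h2 : aeval (dd n) (PP n i) = (Pi.single i 1 : Fin n → ℂ) := by
    funext l
    have h3 : (aeval (dd n) (PP n i)) l = aeval (dd n l) (PP n i) := by
      have := Polynomial.aeval_algHom_apply (Pi.evalAlgHom ℂ (fun _ : Fin n => ℂ) l) (dd n) (PP n i)
      exact this.symm
    rw [h3, Polynomial.coe_aeval_eq_eval]
    by_cases hl : l = i
    · subst hl
      rw [Pi.single_eq_same]
      exact Lagrange.eval_basis_self dd_inj.injOn (Finset.mem_univ _)
    · rw [Pi.single_eq_of_ne hl]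
      exact Lagrange.eval_basis_of_ne (Ne.symm hl) (Finset.mem_univ _)
  rw [h2]; rfl

omit [NeZero n] in
theorem trace_PP (K : Mat n) (i j : Fin n) :
    trace (diagonal (Pi.single i 1) * K * diagonal (Pi.single j 1) * K) = K i j * K j i := by
  rw [Matrix.trace]
  have h : ∀ l : Fin n, (diagonal (Pi.single i 1) * K * diagonal (Pi.single j 1) * K).diag l
      = if l = i then K i j * K j i else 0 := by
    intro l
    rw [Matrix.diag_apply, Matrix.mul_apply]
    simp only [Matrix.mul_diagonal, Matrix.diagonal_mul]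
    by_cases hl : l = i
    · subst hl
      rw [if_pos rfl, Finset.sum_eq_single j]
      · simp
      · intro m _ hm; simp [hm]
      · intro h; exact absurd (Finset.mem_univ _) h
    · rw [if_neg hl]
      refine Finset.sum_eq_zero fun m _ => ?_
      simp [hl]
  rw [Finset.sum_congr rfl fun l _ => h l]
  simp

/-- The matrix attached to a real symmetric kernel. -/
noncomputable def MM (K : Fin n → Fin n → ℝ) : Mat n :=
  diagonal (dd n) + Complex.I • Matrix.of fun i j => (K i j : ℂ)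

theorem phi_eq (K : Fin n → Fin n → ℝ) (hK : ∀ i j, K i j = K j i) (hM : IsModel (MM K)) :
    ∃ p : Par n, Good p ∧ ∀ ij : Idx n, Phi (PP n) p ij = K ij.1.1 ij.1.2 ^ 2 := by
  obtain ⟨p, hp, V, hV, h1, h2⟩ := exists_par (MM K) hM
  refine ⟨p, hp, fun ij => ?_⟩
  have hdet : IsUnit V.det := (Matrix.isUnit_iff_isUnit_det _).1 hV
  have hVi : V⁻¹ * V = 1 := Matrix.nonsing_inv_mul V hdet
  have hVi' : V * V⁻¹ = 1 := Matrix.mul_nonsing_inv V hdet
  have hH : (MM K)ᴴ = diagonal (dd n) - Complex.I • Matrix.of fun i j => (K i j : ℂ) := by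
    ext i j
    simp only [MM, Matrix.conjTranspose_apply, Matrix.add_apply, Matrix.sub_apply,
      Matrix.smul_apply, Matrix.of_apply, smul_eq_mul, star_add, star_mul', RCLike.star_def,
      Complex.conj_I, Complex.conj_ofReal, hK i j]
    have : (starRingEnd ℂ) (diagonal (dd n) j i) = diagonal (dd n) i j := by
      by_cases hij : i = j
      · subst hij; simp [dd]
      · rw [Matrix.diagonal_apply_ne _ hij, Matrix.diagonal_apply_ne _ (Ne.symm hij), map_zero]
    rw [this]; ring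
  have e1 : (1/2 : ℂ) • (MM K + (MM K)ᴴ) = diagonal (dd n) := by
    rw [hH]; unfold MM
    ext i j
    simp only [Matrix.add_apply, Matrix.sub_apply, Matrix.smul_apply, smul_eq_mul]
    ring
  have e2 : (-Complex.I/2 : ℂ) • (MM K - (MM K)ᴴ) = Matrix.of fun i j => (K i j : ℂ) := by
    rw [hH]; unfold MM
    ext i j
    simp only [Matrix.add_apply, Matrix.sub_apply, Matrix.smul_apply, smul_eq_mul,
      Matrix.of_apply]
    have := Complex.I_mul_I
    linear_combination (-(K i j : ℂ)) * this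
  rw [e1] at h1
  rw [e2] at h2
  have h3 : ∀ q : ℂ[X], aeval (A1 p) q = V⁻¹ * aeval (diagonal (dd n) : Mat n) q * V := by
    intro q
    have := Polynomial.aeval_algHom_apply (conjHom V hVi' hVi) (diagonal (dd n) : Mat n) q
    rw [h1]
    exact this
  unfold Phi
  rw [h3, h3, h2, aeval_PP, aeval_PP]
  set K' : Mat n := Matrix.of fun i j => (K i j : ℂ) with hK'
  have h4 : V⁻¹ * diagonal (Pi.single ij.1.1 1) * V * (V⁻¹ * K' * V) *
      (V⁻¹ * diagonal (Pi.single ij.1.2 1) * V) * (V⁻¹ * K' * V) =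
      V⁻¹ * (diagonal (Pi.single ij.1.1 1) * (V * V⁻¹) * K' * (V * V⁻¹) *
      diagonal (Pi.single ij.1.2 1) * (V * V⁻¹) * K') * V := by
    simp only [Matrix.mul_assoc]
  rw [h4, hVi', Matrix.mul_one, Matrix.mul_one, Matrix.mul_one, Matrix.trace_mul_comm,
    ← Matrix.mul_assoc, hVi', Matrix.one_mul, trace_PP, hK']
  simp only [Matrix.of_apply]
  rw [hK ij.1.2 ij.1.1, ← Complex.ofReal_mul, Complex.ofReal_re, sq]

omit [NeZero n] in
theorem finrank_par : Module.finrank ℝ (Par n) = 6 * n := by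
  simp only [Par, Module.finrank_prod, Module.finrank_pi_fintype, Complex.finrank_real_complex,
    Finset.sum_const, Finset.card_univ, Fintype.card_fin, smul_eq_mul]
  ring

/-- Dimension bound for the invariants. -/
theorem dimH_phi : dimH (Phi (PP n) '' {p : Par n | Good p}) ≤ (6 * n : ℕ) := by
  have h1 : dimH (Phi (PP n) '' {p : Par n | Good p}) ≤ dimH {p : Par n | Good p} := by
    refine dimH_image_le_of_locally_lipschitzOn fun p hp => ?_
    obtain ⟨C, t, ht, hC⟩ := (cd_Phi (PP n) p hp).exists_lipschitzOnWith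
    exact ⟨C, t, mem_nhdsWithin_of_mem_nhds ht, hC⟩
  refine h1.trans ((dimH_mono (Set.subset_univ _)).trans ?_)
  rw [Real.dimH_univ_eq_finrank, finrank_par]

/-- Two orthogonal eigenvectors. -/
def HasOrtho (M : Mat n) : Prop := ∃ x y : Fin n → ℂ, ∃ a b : ℂ, x ≠ 0 ∧ y ≠ 0 ∧
          M *ᵥ x = a • x ∧ M *ᵥ y = b • y ∧ star x ⬝ᵥ y = 0

omit [NeZero n] in
theorem star_dot_self_ne (x : Fin n → ℂ) (hx : x ≠ 0) : star x ⬝ᵥ x ≠ 0 := by
  intro h0
  apply hx
  have h5 : ∑ i, ((‖x i‖ ^ 2 : ℝ) : ℂ) = 0 := by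
    rw [← h0]
    refine Finset.sum_congr rfl fun i _ => ?_
    rw [Pi.star_apply, RCLike.star_def, mul_comm, Complex.mul_conj, Complex.normSq_eq_norm_sq]
  have h6 : ∑ i, (‖x i‖ ^ 2 : ℝ) = 0 := by exact_mod_cast h5
  funext i
  have h7 := (Finset.sum_eq_zero_iff_of_nonneg (fun i _ => by positivity)).1 h6 i
    (Finset.mem_univ i)
  simpa using h7

omit [NeZero n] in
/-- The set of matrices with two orthogonal eigenvectors is closed. -/
theorem isClosed_hasOrtho : IsClosed {M : Mat n | HasOrtho M} := by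
  let S := Metric.sphere (0 : Fin n → ℂ) 1
  let F : Set (Mat n × (S × S)) := {q |
    (star q.2.1.1 ⬝ᵥ q.2.1.1) • (q.1 *ᵥ q.2.1.1) = (star q.2.1.1 ⬝ᵥ (q.1 *ᵥ q.2.1.1)) • q.2.1.1 ∧
    (star q.2.2.1 ⬝ᵥ q.2.2.1) • (q.1 *ᵥ q.2.2.1) = (star q.2.2.1 ⬝ᵥ (q.1 *ᵥ q.2.2.1)) • q.2.2.1 ∧
    star q.2.1.1 ⬝ᵥ q.2.2.1 = 0}
  have hF : IsClosed F := by
    have c1 : Continuous fun q : Mat n × (S × S) => q.1 := continuous_fst
    have c2 : Continuous fun q : Mat n × (S × S) => (q.2.1.1 : Fin n → ℂ) :=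
      continuous_subtype_val.comp (continuous_fst.comp continuous_snd)
    have c3 : Continuous fun q : Mat n × (S × S) => (q.2.2.1 : Fin n → ℂ) :=
      continuous_subtype_val.comp (continuous_snd.comp continuous_snd)
    have d1 := c1.matrix_mulVec c2
    have d2 := c1.matrix_mulVec c3
    refine IsClosed.inter ?_ (IsClosed.inter ?_ ?_)
    · exact isClosed_eq ((c2.star.dotProduct c2).smul d1) ((c2.star.dotProduct d1).smul c2)
    · exact isClosed_eq ((c3.star.dotProduct c3).smul d2) ((c3.star.dotProduct d2).smul c3)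
    · exact isClosed_eq (c2.star.dotProduct c3) continuous_const
  have hcompact : CompactSpace (S × S) := inferInstance
  have h := isClosedMap_fst_of_compactSpace (X := Mat n) (Y := S × S) F hF
  convert h using 1
  ext M
  constructor
  · rintro ⟨x, y, a, b, hx, hy, h1, h2, h3⟩
    have hnx : ‖x‖ ≠ 0 := norm_ne_zero_iff.2 hx
    have hny : ‖y‖ ≠ 0 := norm_ne_zero_iff.2 hy
    let x' : Fin n → ℂ := ((‖x‖ : ℂ)⁻¹) • x
    let y' : Fin n → ℂ := ((‖y‖ : ℂ)⁻¹) • y
    have hx' : ‖x'‖ = 1 := by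
      simp only [x', norm_smul, norm_inv, Complex.norm_real, norm_norm]
      exact inv_mul_cancel₀ hnx
    have hy' : ‖y'‖ = 1 := by
      simp only [y', norm_smul, norm_inv, Complex.norm_real, norm_norm]
      exact inv_mul_cancel₀ hny
    have e1 : M *ᵥ x' = a • x' := by
      simp only [x', Matrix.mulVec_smul, h1]; rw [smul_comm]
    have e2 : M *ᵥ y' = b • y' := by
      simp only [y', Matrix.mulVec_smul, h2]; rw [smul_comm]
    refine ⟨(M, (⟨x', by simpa [S] using hx'⟩, ⟨y', by simpa [S] using hy'⟩)), ?_, rfl⟩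
    refine ⟨?_, ?_, ?_⟩
    · simp only [e1, dotProduct_smul, smul_smul, smul_eq_mul, mul_comm]
    · simp only [e2, dotProduct_smul, smul_smul, smul_eq_mul, mul_comm]
    · simp only [x', y', dotProduct_smul, star_smul, smul_dotProduct, h3, smul_zero]
  · rintro ⟨⟨M', x, y⟩, ⟨h1, h2, h3⟩, rfl⟩
    have hx : (x : Fin n → ℂ) ≠ 0 := by
      have := x.2
      intro h0; simp [S, h0] at this
    have hy : (y : Fin n → ℂ) ≠ 0 := by
      have := y.2
      intro h0; simp [S, h0] at this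
    have g1 := star_dot_self_ne _ hx
    have g2 := star_dot_self_ne _ hy
    simp only at h1 h2 h3
    refine ⟨x, y, (star x.1 ⬝ᵥ x.1)⁻¹ * (star x.1 ⬝ᵥ (M' *ᵥ x.1)),
      (star y.1 ⬝ᵥ y.1)⁻¹ * (star y.1 ⬝ᵥ (M' *ᵥ y.1)), hx, hy, ?_, ?_, h3⟩
    · rw [← smul_smul, ← h1, smul_smul, inv_mul_cancel₀ g1, one_smul]
    · rw [← smul_smul, ← h2, smul_smul, inv_mul_cancel₀ g2, one_smul]

omit [NeZero n] in
/-- The base point has no two orthogonal eigenvectors. -/
theorem base_not_ortho : ¬ HasOrtho (MM (n := n) fun _ _ => 1) := by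
  rintro ⟨x, y, a, b, hx, hy, h1, h2, h3⟩
  -- action of the matrix
  have hmul : ∀ z : Fin n → ℂ, ∀ i, (MM (n := n) (fun _ _ => 1) *ᵥ z) i
      = dd n i * z i + Complex.I * ∑ j, z j := by
    intro z i
    unfold MM
    rw [Matrix.add_mulVec, Pi.add_apply, Matrix.mulVec_diagonal, Matrix.smul_mulVec,
      Pi.smul_apply, smul_eq_mul]
    congr 2
    simp [Matrix.mulVec, dotProduct]
  have key : ∀ z : Fin n → ℂ, ∀ c : ℂ, z ≠ 0 → MM (n := n) (fun _ _ => 1) *ᵥ z = c • z →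
      ∑ j, z j ≠ 0 := by
    intro z c hz hc hs
    obtain ⟨i, hi⟩ := Function.ne_iff.1 hz
    have hi' : z i ≠ 0 := hi
    have hall : ∀ l, (dd n l - c) * z l = 0 := by
      intro l
      have := congrFun hc l
      rw [hmul, hs, Pi.smul_apply, smul_eq_mul] at this
      linear_combination this
    have hci : dd n i = c := by
      rcases mul_eq_zero.1 (hall i) with h | h
      · exact sub_eq_zero.1 h
      · exact absurd h hi'
    have hz0 : ∀ l, l ≠ i → z l = 0 := by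
      intro l hl
      rcases mul_eq_zero.1 (hall l) with h | h
      · exfalso; apply hl; apply dd_inj; rw [hci]; exact sub_eq_zero.1 h
      · exact h
    rw [Finset.sum_eq_single i (fun l _ hl => hz0 l hl) (fun h => absurd (Finset.mem_univ _) h)]
      at hs
    exact hi' hs
  have k1 := key x a hx h1
  have k2 := key y b hy h2
  -- pairings
  have p1 : ∑ i, star (x i) * (dd n i * y i + Complex.I * ∑ j, y j) = 0 := by
    have : star x ⬝ᵥ (MM (n := n) (fun _ _ => 1) *ᵥ y) = 0 := by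
      rw [h2, dotProduct_smul, h3, smul_zero]
    rw [← this]
    refine Finset.sum_congr rfl fun i _ => ?_
    rw [hmul]; rfl
  have p2 : ∑ i, star (dd n i * x i + Complex.I * ∑ j, x j) * y i = 0 := by
    have : star (MM (n := n) (fun _ _ => 1) *ᵥ x) ⬝ᵥ y = 0 := by
      rw [h1, star_smul, smul_dotProduct, h3, smul_zero]
    rw [← this]
    refine Finset.sum_congr rfl fun i _ => ?_
    rw [Pi.star_apply, hmul]
  have hd : ∀ i, star (dd n i) = dd n i := by
    intro i; simp [dd]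
  have q : (2 * Complex.I) * (star (∑ j, x j) * ∑ j, y j) = 0 := by
    have e1 : ∀ s : ℂ, ∑ i, star (x i) * (dd n i * y i + Complex.I * s)
        = ∑ i, star (x i) * dd n i * y i + Complex.I * (star (∑ j, x j) * s) := by
      intro s
      rw [star_sum, Finset.sum_mul, Finset.mul_sum, ← Finset.sum_add_distrib]
      refine Finset.sum_congr rfl fun i _ => ?_
      ring
    have e2 : ∀ s : ℂ, ∑ i, star (dd n i * x i + Complex.I * s) * y i
        = ∑ i, star (x i) * dd n i * y i - Complex.I * (star s * ∑ j, y j) := by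
      intro s
      rw [Finset.mul_sum, Finset.mul_sum, ← Finset.sum_sub_distrib]
      refine Finset.sum_congr rfl fun i _ => ?_
      rw [star_add, star_mul', star_mul', hd, Complex.star_def, Complex.conj_I]
      ring
    rw [e1] at p1
    rw [e2] at p2
    linear_combination p1 - p2
  have : star (∑ j, x j) ≠ 0 := by
    intro h; exact k1 (star_eq_zero.1 h)
  exact (mul_ne_zero (mul_ne_zero two_ne_zero Complex.I_ne_zero) (mul_ne_zero this k2)) q

/-- Real symmetric kernel from its upper triangle. -/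
noncomputable def KK (q : Idx n → ℝ) : Fin n → Fin n → ℝ := fun i j =>
  Real.sqrt (q ⟨(min i j, max i j), min_le_max⟩)

omit [NeZero n] in
theorem continuous_MM : Continuous fun q : Idx n → ℝ => MM (KK q) := by
  unfold MM
  have h : Continuous fun q : Idx n → ℝ => (Matrix.of fun i j => ((KK q i j : ℝ) : ℂ) : Mat n) := by
    refine continuous_matrix fun i j => ?_
    simp only [Matrix.of_apply, KK]
    exact Complex.continuous_ofReal.comp (Real.continuous_sqrt.comp (continuous_apply _))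
  exact continuous_const.add (h.const_smul Complex.I)

theorem card_idx : Fintype.card (Idx 12) = 78 := by decide +kernel

theorem main12 : ∃ q : Idx 12 → ℝ, ¬ HasOrtho (MM (KK q)) ∧ ¬ IsModel (MM (KK q)) := by
  by_contra hcon
  push Not at hcon
  let G : Set (Idx 12 → ℝ) := {q | ¬ HasOrtho (MM (KK q))} ∩ {q | ∀ ij, 0 < q ij}
  have hG1 : G ∈ 𝓝 (fun _ => (1:ℝ)) := by
    refine Filter.inter_mem ?_ ?_
    · have ho : IsOpen {q : Idx 12 → ℝ | ¬ HasOrtho (MM (KK q))} :=
        (isClosed_hasOrtho.preimage continuous_MM).isOpen_compl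
      refine ho.mem_nhds ?_
      have : (KK (n := 12) fun _ => (1:ℝ)) = fun _ _ => 1 := by
        funext i j; simp [KK]
      simp only [Set.mem_ofPred_eq, this]
      exact base_not_ortho
    · have ho : IsOpen {q : Idx 12 → ℝ | ∀ ij, 0 < q ij} := by
        have : {q : Idx 12 → ℝ | ∀ ij, 0 < q ij} = ⋂ ij, {q | 0 < q ij} := by
          ext q; simp
        rw [this]
        exact isOpen_iInter_of_finite fun ij => isOpen_lt continuous_const (continuous_apply ij)
      exact ho.mem_nhds (fun _ => one_pos)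
  have hdim : dimH G = 78 := by
    rw [Real.dimH_of_nonempty_interior ⟨_, mem_interior_iff_mem_nhds.2 hG1⟩,
      Module.finrank_fintype_fun_eq_card, card_idx]
    rfl
  have hsub : G ⊆ Phi (PP 12) '' {p : Par 12 | Good p} := by
    rintro q ⟨hq1, hq2⟩
    obtain ⟨p, hp, h⟩ := phi_eq (KK q) (fun i j => by
      unfold KK; simp only [min_comm, max_comm]) (hcon q hq1)
    refine ⟨p, hp, ?_⟩
    funext ij
    rw [h ij]
    unfold KK
    rw [Real.sq_sqrt (hq2 _).le]
    congr 1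
    apply Subtype.ext
    simp only
    rw [min_eq_left ij.2, max_eq_right ij.2]
  have h1 := (dimH_mono hsub).trans (dimH_phi (n := 12))
  rw [hdim] at h1
  norm_num at h1

omit [NeZero n] in
theorem MM_transpose (K : Fin n → Fin n → ℝ) (hK : ∀ i j, K i j = K j i) : (MM K)ᵀ = MM K := by
  unfold MM
  rw [Matrix.transpose_add, Matrix.diagonal_transpose, Matrix.transpose_smul]
  congr 2
  ext i j
  simp [hK i j]

end Q87.TTO
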