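import Pool.Agent.Q87.TTOStein

/-! The invariants of a truncated Toeplitz matrix as smooth functions of `3n` complex parameters. -/

set_option autoImplicit false
open Matrix Filter Topology Polynomial

namespace Q87.TTO

attribute [local instance] Matrix.linftyOpNormedRing Matrix.linftyOpNormedAlgebra

variable {n : ℕ}

/-- Parameters: last column of the companion matrix and the two vectors. -/
abbrev Par (n : ℕ) := (Fin n → ℂ) × (Fin n → ℂ) × (Fin n → ℂ)

section generic
variable {A : Type*} [NormedRing A] [NormedAlgebra ℝ A]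

/-- Solution of the Stein equation `Z - C Z D = B`. -/
noncomputable def stinv (C D B : A) : A :=
  Ring.inverse (1 - ContinuousLinearMap.mulLeftRight ℝ A C D) B

/-- Solvability of the Stein equation. -/
def StGood (C D : A) : Prop := IsUnit (1 - ContinuousLinearMap.mulLeftRight ℝ A C D)

theorem stinv_contDiffAt [CompleteSpace A] {E : Type*} [NormedAddCommGroup E] [NormedSpace ℝ E]
    {f g h : E → A} {x : E} (hf : ContDiffAt ℝ 1 f x) (hg : ContDiffAt ℝ 1 g x)
    (hh : ContDiffAt ℝ 1 h x) (hG : StGood (f x) (g x)) :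
    ContDiffAt ℝ 1 (fun q : E => stinv (f q) (g q) (h q)) x := by
  unfold stinv
  have h2 : ContDiff ℝ 1 (fun a : A => ContinuousLinearMap.mulLeftRight ℝ A a) := by
    apply ContinuousLinearMap.contDiff
  have h3 : ContDiffAt ℝ 1 (fun q : E => ContinuousLinearMap.mulLeftRight ℝ A (f q)) x :=
    h2.contDiffAt.comp x hf
  have h4 : ContDiffAt ℝ 1 (fun q : E =>
      1 - ContinuousLinearMap.mulLeftRight ℝ A (f q) (g q)) x :=
    contDiffAt_const.sub (h3.clm_apply hg)
  obtain ⟨u, hu⟩ := hG
  have h5 := contDiffAt_ringInverse ℝ (n := 1) u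
  rw [hu] at h5
  exact (h5.comp x h4).clm_apply hh

theorem stinv_spec [FiniteDimensional ℝ A] {C D : A} (h : ∀ Z : A, Z - C * Z * D = 0 → Z = 0) :
    StGood C D ∧ ∀ X B : A, X - C * X * D = B → stinv C D B = X := by
  have : CompleteSpace A := FiniteDimensional.complete ℝ A
  have hinj : Function.Injective
      ⇑(1 - ContinuousLinearMap.mulLeftRight ℝ A C D : A →L[ℝ] A) := by
    rw [injective_iff_map_eq_zero]
    intro Z hZ
    apply h Z
    simpa using hZ
  have hU : StGood C D := by
    unfold StGood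
    rw [ContinuousLinearMap.isUnit_iff_bijective]
    refine ⟨hinj, ?_⟩
    exact LinearMap.surjective_of_injective
      (f := ((1 - ContinuousLinearMap.mulLeftRight ℝ A C D : A →L[ℝ] A) : A →ₗ[ℝ] A)) hinj
  refine ⟨hU, fun X B hX => ?_⟩
  unfold stinv
  have h1 : (1 - ContinuousLinearMap.mulLeftRight ℝ A C D : A →L[ℝ] A) X = B := by
    rw [← hX]; simp
  rw [← h1, ← mul_apply_eq_comp, Ring.inverse_mul_cancel _ hU]
  rfl

end generic

variable [NeZero n]

/-- first basis vector -/
def e0 : Fin n → ℂ := Pi.single 0 1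

/-- Gram matrix parameter. -/
noncomputable def Xf (p : Par n) : Mat n :=
  stinv (comp p.1) (comp p.1)ᴴ (vecMulVec e0 (star e0))

/-- Operator in the Krylov frame. -/
noncomputable def Mf (p : Par n) : Mat n :=
  stinv (comp p.1) (comp p.1)ᴴ (vecMulVec p.2.1 (star e0) + vecMulVec e0 (star p.2.2))

/-- similar copy of the real part -/
noncomputable def A1 (p : Par n) : Mat n :=
  ((1/2 : ℂ) • (Mf p + (Mf p)ᴴ)) * Ring.inverse (Xf p)

/-- similar copy of the imaginary part -/
noncomputable def A2 (p : Par n) : Mat n :=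
  ((-Complex.I/2 : ℂ) • (Mf p - (Mf p)ᴴ)) * Ring.inverse (Xf p)

/-- index type -/
abbrev Idx (n : ℕ) := {p : Fin n × Fin n // p.1 ≤ p.2}

/-- the invariants -/
noncomputable def Phi (P : Fin n → ℂ[X]) (p : Par n) : Idx n → ℝ := fun ij =>
  (trace (aeval (A1 p) (P ij.1.1) * A2 p * aeval (A1 p) (P ij.1.2) * A2 p)).re

/-- admissible parameters -/
def Good (p : Par n) : Prop := StGood (comp p.1) (comp p.1)ᴴ ∧ IsUnit (Xf p)

omit [NeZero n] in
theorem cd_lin {E F : Type*} [NormedAddCommGroup E] [NormedSpace ℝ E] [FiniteDimensional ℝ E]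
    [NormedAddCommGroup F] [NormedSpace ℝ F] (f : E →ₗ[ℝ] F) : ContDiff ℝ 1 f :=
  (LinearMap.toContinuousLinearMap f).contDiff

omit [NeZero n] in
theorem cd_ct : ContDiff ℝ 1 (fun A : Mat n => Aᴴ) :=
  cd_lin (E := Mat n) (F := Mat n)
    { toFun := fun A => Aᴴ
      map_add' := fun A B => conjTranspose_add A B
      map_smul' := fun r A => by
        ext i j; simp [conjTranspose_apply] }

omit [NeZero n] in
theorem cd_retrace : ContDiff ℝ 1 (fun A : Mat n => (trace A).re) :=
  cd_lin (E := Mat n) (F := ℝ)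
    { toFun := fun A => (trace A).re
      map_add' := fun A B => by simp
      map_smul' := fun r A => by simp [trace_smul] }

omit [NeZero n] in
theorem cd_left (w : Fin n → ℂ) : ContDiff ℝ 1 (fun c : Fin n → ℂ => (vecMulVec c w : Mat n)) :=
  cd_lin (E := Fin n → ℂ) (F := Mat n)
    { toFun := fun c => vecMulVec c w
      map_add' := fun a b => by ext i j; simp [vecMulVec_apply, add_mul]
      map_smul' := fun r a => by ext i j; simp [vecMulVec_apply, mul_assoc] }

omit [NeZero n] in
theorem cd_right (w : Fin n → ℂ) :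
    ContDiff ℝ 1 (fun c : Fin n → ℂ => (vecMulVec w (star c) : Mat n)) :=
  cd_lin (E := Fin n → ℂ) (F := Mat n)
    { toFun := fun c => vecMulVec w (star c)
      map_add' := fun a b => by ext i j; simp [vecMulVec_apply, mul_add]
      map_smul' := fun r a => by
        ext i j
        simp only [vecMulVec_apply, Pi.star_apply, Pi.smul_apply, RingHom.id_apply,
          Matrix.smul_apply, Complex.real_smul, star_mul', RCLike.star_def, Complex.conj_ofReal]
        ring }

omit [NeZero n] in
theorem comp_eq (c : Fin n → ℂ) :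
    comp c = comp 0 + vecMulVec c (fun j : Fin n => if (j:ℕ) + 1 < n then 0 else 1) := by
  ext i j
  simp only [comp, Matrix.of_apply, Matrix.add_apply, vecMulVec_apply, Pi.zero_apply]
  split_ifs <;> simp

omit [NeZero n] in
theorem cd_comp : ContDiff ℝ 1 (fun c : Fin n → ℂ => comp c) := by
  have : (fun c : Fin n → ℂ => comp c) =
      fun c => comp 0 + vecMulVec c (fun j : Fin n => if (j:ℕ) + 1 < n then 0 else 1) :=
    funext comp_eq
  rw [this]
  exact contDiff_const.add (cd_left _)

omit [NeZero n] in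
theorem cd_comp1 : ContDiff ℝ 1 (fun p : Par n => comp p.1) := cd_comp.comp contDiff_fst

omit [NeZero n] in
theorem cd_comp2 : ContDiff ℝ 1 (fun p : Par n => (comp p.1)ᴴ) := cd_ct.comp cd_comp1

theorem cd_Xf (p : Par n) (hp : StGood (comp p.1) (comp p.1)ᴴ) :
    ContDiffAt ℝ 1 (fun p : Par n => Xf p) p := by
  unfold Xf
  exact stinv_contDiffAt cd_comp1.contDiffAt cd_comp2.contDiffAt contDiffAt_const hp

theorem cd_Mf (p : Par n) (hp : StGood (comp p.1) (comp p.1)ᴴ) :
    ContDiffAt ℝ 1 (fun p : Par n => Mf p) p := by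
  unfold Mf
  refine stinv_contDiffAt cd_comp1.contDiffAt cd_comp2.contDiffAt ?_ hp
  have h1 : ContDiff ℝ 1 (fun p : Par n => (vecMulVec p.2.1 (star e0) : Mat n)) :=
    (cd_left _).comp (contDiff_fst.comp contDiff_snd)
  have h2 : ContDiff ℝ 1 (fun p : Par n => (vecMulVec e0 (star p.2.2) : Mat n)) :=
    (cd_right _).comp (contDiff_snd.comp contDiff_snd)
  exact (h1.add h2).contDiffAt

theorem cd_Xinv (p : Par n) (hp : Good p) :
    ContDiffAt ℝ 1 (fun p : Par n => Ring.inverse (Xf p)) p := by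
  obtain ⟨hp1, u, hu⟩ := hp
  have h := contDiffAt_ringInverse ℝ (n := 1) u
  rw [hu] at h
  exact h.comp (x := p) (cd_Xf p hp1)

theorem cd_A1 (p : Par n) (hp : Good p) : ContDiffAt ℝ 1 (fun p : Par n => A1 p) p := by
  unfold A1
  have h1 := cd_Mf p hp.1
  have h2 : ContDiffAt ℝ 1 (fun p : Par n => (Mf p)ᴴ) p := cd_ct.contDiffAt.comp p h1
  exact ((h1.add h2).const_smul (1/2 : ℂ)).mul (cd_Xinv p hp)

theorem cd_A2 (p : Par n) (hp : Good p) : ContDiffAt ℝ 1 (fun p : Par n => A2 p) p := by
  unfold A2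
  have h1 := cd_Mf p hp.1
  have h2 : ContDiffAt ℝ 1 (fun p : Par n => (Mf p)ᴴ) p := cd_ct.contDiffAt.comp p h1
  exact ((h1.sub h2).const_smul (-Complex.I/2 : ℂ)).mul (cd_Xinv p hp)

theorem cd_aeval (P : ℂ[X]) (p : Par n) (hp : Good p) :
    ContDiffAt ℝ 1 (fun p : Par n => aeval (A1 p) P) p := by
  simp only [Polynomial.aeval_eq_sum_range]
  refine ContDiffAt.sum fun i _ => ?_
  exact ((cd_A1 p hp).pow i).const_smul (P.coeff i)

theorem cd_Phi (P : Fin n → ℂ[X]) (p : Par n) (hp : Good p) : ContDiffAt ℝ 1 (Phi P) p := by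
  rw [contDiffAt_pi]
  intro ij
  unfold Phi
  have h := (((cd_aeval (P ij.1.1) p hp).mul (cd_A2 p hp)).mul
    (cd_aeval (P ij.1.2) p hp)).mul (cd_A2 p hp)
  exact cd_retrace.contDiffAt.comp p h

end Q87.TTO
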