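import Mathlib

/-! Algebra behind the Stein equation `1 - T T* = k k*` for matrices whose eigenvalues lie in the
open unit disc: powers tend to zero, the Krylov matrix is invertible, companion form. -/

set_option autoImplicit false
open Matrix Filter Topology

namespace Q87.TTO

attribute [local instance] Matrix.linftyOpNormedRing Matrix.linftyOpNormedAlgebra

/-- Square complex matrices. -/
abbrev Mat (n : ℕ) := Matrix (Fin n) (Fin n) ℂ

variable {n : ℕ}

theorem pow_tendsto_zero (T : Mat n)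
    (h : ∀ μ : ℂ, ∀ x : Fin n → ℂ, x ≠ 0 → T *ᵥ x = μ • x → ‖μ‖ < 1) :
    Tendsto (fun m : ℕ => T ^ m) atTop (𝓝 0) := by
  rcases Nat.eq_zero_or_pos n with rfl | hn
  · have : (fun m : ℕ => T ^ m) = fun _ => 0 := by
      funext m; ext i; exact i.elim0
    rw [this]; exact tendsto_const_nhds
  have : NeZero n := ⟨hn.ne'⟩
  have : Nontrivial (Mat n) := inferInstance
  have hne : (spectrum ℂ T).Nonempty := spectrum.nonempty_of_isAlgClosed_of_finiteDimensional ℂ T
  obtain ⟨μ, hμ, hr⟩ := spectrum.exists_nnnorm_eq_spectralRadius_of_nonempty hne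
  have hμ1 : ‖μ‖ < 1 := by
    rw [spectrum.mem_iff] at hμ
    have hdet : (algebraMap ℂ (Mat n) μ - T).det = 0 := by
      by_contra hd
      exact hμ ((Matrix.isUnit_iff_isUnit_det _).2 (isUnit_iff_ne_zero.2 hd))
    obtain ⟨x, hx, hx0⟩ := Matrix.exists_mulVec_eq_zero_iff.2 hdet
    refine h μ x hx ?_
    rw [Matrix.sub_mulVec, sub_eq_zero] at hx0
    rw [← hx0, Algebra.algebraMap_eq_smul_one, Matrix.smul_mulVec, Matrix.one_mulVec]
  have hlt : spectralRadius ℂ T < 1 := by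
    rw [← hr]
    have : ‖μ‖₊ < 1 := by exact_mod_cast hμ1
    exact_mod_cast this
  obtain ⟨r, hr1, hr2⟩ := exists_between hlt
  have hG := spectrum.pow_nnnorm_pow_one_div_tendsto_nhds_spectralRadius T
  have hev : ∀ᶠ m : ℕ in atTop, ((‖T ^ m‖₊ : ENNReal)) ^ (1 / (m : ℝ)) < r :=
    hG.eventually (gt_mem_nhds hr1)
  have hrr : r ≠ ⊤ := (hr2.trans ENNReal.one_lt_top).ne
  lift r to NNReal using hrr
  have hr3 : (r : ℝ) < 1 := by exact_mod_cast hr2
  have hbd : ∀ᶠ m : ℕ in atTop, ‖T ^ m‖ ≤ (r : ℝ) ^ m := by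
    filter_upwards [hev, eventually_gt_atTop 0] with m hm hm0
    have hm' : (m : ℝ) ≠ 0 := by exact_mod_cast hm0.ne'
    have h1 : ((‖T ^ m‖₊ : ENNReal)) = ((‖T ^ m‖₊ : ENNReal) ^ (1 / (m : ℝ))) ^ (m : ℝ) := by
      rw [← ENNReal.rpow_mul, one_div, inv_mul_cancel₀ hm', ENNReal.rpow_one]
    have h2 : ((‖T ^ m‖₊ : ENNReal)) ≤ (r : ENNReal) ^ m := by
      rw [h1, ← ENNReal.rpow_natCast]
      exact ENNReal.rpow_le_rpow hm.le (Nat.cast_nonneg m)
    have h3 : ‖T ^ m‖₊ ≤ r ^ m := by exact_mod_cast h2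
    exact_mod_cast h3
  exact squeeze_zero_norm' hbd (tendsto_pow_atTop_nhds_zero_of_lt_one r.2 hr3)

theorem conj_tendsto (T : Mat n) (hT : Tendsto (fun m : ℕ => T ^ m) atTop (𝓝 0)) (Z : Mat n) :
    Tendsto (fun m : ℕ => T ^ m * Z * (T ^ m)ᴴ) atTop (𝓝 0) := by
  have h1 : Tendsto (fun m : ℕ => (T ^ m)ᴴ) atTop (𝓝 0) := by
    have := (continuous_id.matrix_conjTranspose (A := fun x : Mat n => x)).tendsto 0
    rw [Matrix.conjTranspose_zero] at this
    exact this.comp hT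
  have h2 := (hT.mul_const Z).mul h1
  rw [zero_mul, zero_mul] at h2
  exact h2

theorem stein_inj (T : Mat n) (hT : Tendsto (fun m : ℕ => T ^ m) atTop (𝓝 0)) (Z : Mat n)
    (hZ : Z - T * Z * Tᴴ = 0) : Z = 0 := by
  have hZ' : T * Z * Tᴴ = Z := (sub_eq_zero.1 hZ).symm
  have h : ∀ m : ℕ, T ^ m * Z * (T ^ m)ᴴ = Z := by
    intro m
    induction m with
    | zero => simp
    | succ m ih =>
      rw [pow_succ, Matrix.conjTranspose_mul]
      calc T ^ m * T * Z * (Tᴴ * (T ^ m)ᴴ) = T ^ m * (T * Z * Tᴴ) * (T ^ m)ᴴ := by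
            simp only [Matrix.mul_assoc]
        _ = Z := by rw [hZ', ih]
  have h2 := conj_tendsto T hT Z
  simp only [h] at h2
  exact tendsto_nhds_unique tendsto_const_nhds h2

/-- If `w* T^j k = 0` for all `j` then `w = 0`. -/
theorem cyclic (T : Mat n) (k : Fin n → ℂ) (hk : 1 - T * Tᴴ = vecMulVec k (star k))
    (hT : Tendsto (fun m : ℕ => T ^ m) atTop (𝓝 0)) (w : Fin n → ℂ)
    (hw : ∀ j : ℕ, w ⬝ᵥ (T ^ j *ᵥ k) = 0) : w = 0 := by
  -- `N m = w T^m (T^m)* w*`
  have hstep : ∀ m : ℕ, w ᵥ* (T ^ (m+1) * (T ^ (m+1))ᴴ) ⬝ᵥ star w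
      = w ᵥ* (T ^ m * (T ^ m)ᴴ) ⬝ᵥ star w := by
    intro m
    have h1 : T ^ (m+1) * (T ^ (m+1))ᴴ = T ^ m * (T * Tᴴ) * (T ^ m)ᴴ := by
      rw [pow_succ, Matrix.conjTranspose_mul]; simp only [Matrix.mul_assoc]
    have h2 : T * Tᴴ = 1 - vecMulVec k (star k) := by rw [← hk]; abel
    rw [h1, h2, Matrix.mul_sub, Matrix.mul_one, Matrix.sub_mul, Matrix.vecMul_sub,
      sub_dotProduct]
    have h3 : w ᵥ* (T ^ m * vecMulVec k (star k) * (T ^ m)ᴴ) = 0 := by
      rw [← Matrix.vecMul_vecMul, ← Matrix.vecMul_vecMul]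
      have : (w ᵥ* T ^ m) ᵥ* vecMulVec k (star k) = (w ⬝ᵥ (T ^ m *ᵥ k)) • star k := by
        rw [Matrix.dotProduct_mulVec, Matrix.vecMul_vecMulVec]
      rw [this, hw m, zero_smul, Matrix.zero_vecMul]
    rw [h3, zero_dotProduct, sub_zero]
  have hconst : ∀ m : ℕ, w ᵥ* (T ^ m * (T ^ m)ᴴ) ⬝ᵥ star w = w ⬝ᵥ star w := by
    intro m
    induction m with
    | zero => simp
    | succ m ih => rw [hstep, ih]
  have hlim : Tendsto (fun m : ℕ => w ᵥ* (T ^ m * (T ^ m)ᴴ) ⬝ᵥ star w) atTop (𝓝 0) := by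
    have h1 := conj_tendsto T hT 1
    simp only [Matrix.mul_one] at h1
    have hc : Continuous (fun A : Mat n => w ᵥ* A ⬝ᵥ star w) := by
      fun_prop
    have := (hc.tendsto 0).comp h1
    rw [Matrix.vecMul_zero, zero_dotProduct] at this
    exact this
  simp only [hconst] at hlim
  have h0 : w ⬝ᵥ star w = 0 := tendsto_nhds_unique tendsto_const_nhds hlim
  have h5 : ∑ i, ((‖w i‖ ^ 2 : ℝ) : ℂ) = 0 := by
    rw [← h0]
    refine Finset.sum_congr rfl fun i _ => ?_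
    rw [Pi.star_apply, RCLike.star_def, Complex.mul_conj, Complex.normSq_eq_norm_sq]
  have h6 : ∑ i, (‖w i‖ ^ 2 : ℝ) = 0 := by exact_mod_cast h5
  funext i
  have h7 := (Finset.sum_eq_zero_iff_of_nonneg (fun i _ => by positivity)).1 h6 i
    (Finset.mem_univ i)
  simpa using h7

/-- Krylov matrix. -/
def krylov (T : Mat n) (k : Fin n → ℂ) : Mat n := Matrix.of fun i j => (T ^ (j:ℕ) *ᵥ k) i

/-- Companion matrix with last column `c`. -/
def comp (c : Fin n → ℂ) : Mat n :=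
  Matrix.of fun i j => if (j:ℕ) + 1 < n then (if (i:ℕ) = j + 1 then 1 else 0) else c i

theorem exists_comp (T : Mat n) (k : Fin n → ℂ) :
    ∃ c : Fin n → ℂ, T * krylov T k = krylov T k * comp c := by
  have h1 := Matrix.aeval_self_charpoly T
  have hmon := Matrix.charpoly_monic T
  have hdeg : T.charpoly.natDegree = n := by
    rw [Matrix.charpoly_natDegree_eq_dim]; simp
  rw [Polynomial.aeval_eq_sum_range, hdeg, Finset.sum_range_succ] at h1
  have hlead : T.charpoly.coeff n = 1 := by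
    have := hmon.coeff_natDegree
    rwa [hdeg] at this
  rw [hlead, one_smul] at h1
  have h2 : T ^ n = ∑ j : Fin n, (- T.charpoly.coeff j) • T ^ (j:ℕ) := by
    rw [Finset.sum_fin_eq_sum_range] 
    have : ∑ i ∈ Finset.range n, (if h : i < n then (-T.charpoly.coeff ((⟨i, h⟩ : Fin n) : ℕ)) • T ^ (((⟨i, h⟩ : Fin n) : ℕ)) else 0)
        = - ∑ i ∈ Finset.range n, T.charpoly.coeff i • T ^ i := by
      rw [← Finset.sum_neg_distrib]
      refine Finset.sum_congr rfl fun i hi => ?_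
      rw [dif_pos (Finset.mem_range.1 hi), neg_smul]
    rw [this]
    exact eq_neg_of_add_eq_zero_right h1
  refine ⟨fun j => - T.charpoly.coeff j, ?_⟩
  ext i j
  have hL : (T * krylov T k) i j = (T ^ ((j:ℕ)+1) *ᵥ k) i := by
    rw [pow_succ', ← Matrix.mulVec_mulVec]
    rfl
  rw [hL, Matrix.mul_apply]
  by_cases hj : (j:ℕ) + 1 < n
  · have : ∀ l : Fin n, krylov T k i l * comp (fun j => - T.charpoly.coeff j) l j
        = if l = ⟨(j:ℕ)+1, hj⟩ then (T ^ ((j:ℕ)+1) *ᵥ k) i else 0 := by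
      intro l
      simp only [comp, krylov, Matrix.of_apply, hj, if_true]
      by_cases hl : l = ⟨(j:ℕ)+1, hj⟩
      · subst hl; simp
      · have : ¬ ((l:ℕ) = j + 1) := fun h => hl (Fin.ext h)
        simp [hl, this]
    rw [Finset.sum_congr rfl fun l _ => this l]
    simp
  · have hjn : (j:ℕ) + 1 = n := by have := j.2; omega
    rw [hjn, h2, Matrix.sum_mulVec]
    simp only [comp, krylov, Matrix.of_apply, hj, if_false, Finset.sum_apply,
      Matrix.smul_mulVec, Pi.smul_apply, smul_eq_mul]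
    exact Finset.sum_congr rfl fun l _ => mul_comm _ _

theorem krylov_pow (T : Mat n) (k : Fin n → ℂ) (c : Fin n → ℂ)
    (h : T * krylov T k = krylov T k * comp c) (j : ℕ) :
    T ^ j * krylov T k = krylov T k * comp c ^ j := by
  induction j with
  | zero => simp
  | succ j ih => rw [pow_succ', Matrix.mul_assoc, ih, ← Matrix.mul_assoc, h, Matrix.mul_assoc, ← pow_succ']

theorem krylov_zero [NeZero n] (T : Mat n) (k : Fin n → ℂ) :
    krylov T k *ᵥ (Pi.single 0 1) = k := by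
  ext i
  simp [krylov, Matrix.mulVec_single]

theorem krylov_isUnit [NeZero n] (T : Mat n) (k : Fin n → ℂ)
    (hk : 1 - T * Tᴴ = vecMulVec k (star k))
    (hT : Tendsto (fun m : ℕ => T ^ m) atTop (𝓝 0)) : IsUnit (krylov T k) := by
  obtain ⟨c, hc⟩ := exists_comp T k
  by_contra hu
  have hdet : (krylov T k).det = 0 := by
    by_contra hd
    exact hu ((Matrix.isUnit_iff_isUnit_det _).2 (isUnit_iff_ne_zero.2 hd))
  obtain ⟨w, hw, hw0⟩ := Matrix.exists_vecMul_eq_zero_iff.2 hdet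
  apply hw
  refine cyclic T k hk hT w fun j => ?_
  have h1 : T ^ j *ᵥ k = (krylov T k * comp c ^ j) *ᵥ (Pi.single 0 1) := by
    rw [← krylov_pow T k c hc, ← Matrix.mulVec_mulVec, krylov_zero]
  rw [h1, ← Matrix.mulVec_mulVec, Matrix.dotProduct_mulVec, hw0, zero_dotProduct]

end Q87.TTO
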