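import Pool.Agent.Q87.ClarkMain

/-! Inner functions, model spaces and truncated Toeplitz operators; multiplication by the
coordinate on model spaces. -/

set_option autoImplicit false
open MeasureTheory Filter Topology
open scoped ENNReal InnerProductSpace ComplexConjugate

namespace Q87.TTZ

open Q87.Clark

/-- `Θ` (given by its boundary values) is a nonconstant inner function. -/
def IsInner (Θ : L2T) : Prop :=
  Θ ∈ H2 ∧ (∀ᵐ z ∂arc, ‖Θ z‖ = 1) ∧ ¬ ∃ c : ℂ, ∀ᵐ z ∂arc, Θ z = c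

/-- Membership in the model space `K_Θ = H² ⊖ Θ H²`. -/
def InK (Θ f : L2T) : Prop :=
  f ∈ H2 ∧ ∀ g ∈ H2, ∫ z, conj (Θ z * g z) * f z ∂arc = 0

/-- `T` is unitarily equivalent to a truncated Toeplitz operator: there are a nonconstant inner `Θ`,
`φ ∈ L²` and a unitary `U : H → K_Θ` with `⟨T x, y⟩ = ⟨φ U x, U y⟩` for all `x` with `U x` bounded and
all `y`, that is, `U T x = P_Θ (φ U x)` for `U x ∈ K_Θ ∩ H^∞`. -/
def UnitarilyTTO {H : Type} [NormedAddCommGroup H] [InnerProductSpace ℂ H] (T : H →L[ℂ] H) : Prop :=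
  ∃ (Θ φ : L2T) (U : H →ₗᵢ[ℂ] L2T), IsInner Θ ∧ (∀ f : L2T, (∃ x, U x = f) ↔ InK Θ f) ∧
    ∀ x y : H, MemLp (U x) ⊤ arc → ⟪y, T x⟫_ℂ = ∫ z, conj (U y z) * (φ z * U x z) ∂arc

/-- The operator `T ⊕ 0` on `H ⊕ ℂ`. -/
noncomputable def plusZero {H : Type} [NormedAddCommGroup H] [InnerProductSpace ℂ H]
    (T : H →L[ℂ] H) : WithLp 2 (H × ℂ) →L[ℂ] WithLp 2 (H × ℂ) :=
  ((WithLp.prodContinuousLinearEquiv 2 ℂ H ℂ).symm : H × ℂ →L[ℂ] WithLp 2 (H × ℂ)) ∘L
    (T.prodMap (0 : ℂ →L[ℂ] ℂ)) ∘L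
      (WithLp.prodContinuousLinearEquiv 2 ℂ H ℂ : WithLp 2 (H × ℂ) →L[ℂ] H × ℂ)

theorem memLp_mul (a : ℂ → ℂ) (ha : AEStronglyMeasurable a arc) (h1 : ∀ᵐ z ∂arc, ‖a z‖ = 1)
    (f : L2T) : MemLp (fun z => a z * f z) 2 arc := by
  have h : MemLp a ⊤ arc := MemLp.of_bound ha 1 (h1.mono fun _ h => h.le)
  exact (Lp.memLp f).mul' h

/-- Multiplication by a unimodular function. -/
noncomputable def mulU (a : ℂ → ℂ) (ha : AEStronglyMeasurable a arc) (h1 : ∀ᵐ z ∂arc, ‖a z‖ = 1) :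
    L2T →ₗᵢ[ℂ] L2T where
  toFun f := (memLp_mul a ha h1 f).toLp _
  map_add' f g := by
    apply Lp.ext
    filter_upwards [MemLp.coeFn_toLp (memLp_mul a ha h1 (f + g)),
      MemLp.coeFn_toLp (memLp_mul a ha h1 f),
      MemLp.coeFn_toLp (memLp_mul a ha h1 g), Lp.coeFn_add f g,
      Lp.coeFn_add ((memLp_mul a ha h1 f).toLp _) ((memLp_mul a ha h1 g).toLp _)]
        with z h1 h2 h3 h4 h5
    rw [h1, h5, Pi.add_apply, h2, h3, h4, Pi.add_apply, mul_add]
  map_smul' c f := by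
    apply Lp.ext
    filter_upwards [MemLp.coeFn_toLp (memLp_mul a ha h1 (c • f)),
      MemLp.coeFn_toLp (memLp_mul a ha h1 f),
      Lp.coeFn_smul c f, Lp.coeFn_smul c ((memLp_mul a ha h1 f).toLp _)] with z h1 h2 h3 h4
    rw [h1, RingHom.id_apply, h4, Pi.smul_apply, h2, h3, Pi.smul_apply, smul_eq_mul, smul_eq_mul]
    ring
  norm_map' f := by
    change ‖(memLp_mul a ha h1 f).toLp _‖ = ‖f‖
    rw [Lp.norm_toLp, Lp.norm_def]
    congr 1
    refine eLpNorm_congr_norm_ae ?_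
    filter_upwards [h1] with z hz
    rw [norm_mul, hz, one_mul]

theorem mulU_ae (a : ℂ → ℂ) (ha : AEStronglyMeasurable a arc) (h1 : ∀ᵐ z ∂arc, ‖a z‖ = 1)
    (f : L2T) : (mulU a ha h1 f : ℂ → ℂ) =ᵐ[arc] fun z => a z * f z :=
  MemLp.coeFn_toLp (memLp_mul a ha h1 f)

/-- multiplication by `z` -/
noncomputable def Mz : L2T →ₗᵢ[ℂ] L2T :=
  mulU (fun z => z) continuous_id.aestronglyMeasurable ae_norm

/-- multiplication by `conj z` -/
noncomputable def Mb : L2T →ₗᵢ[ℂ] L2T :=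
  mulU (fun z => conj z) Complex.continuous_conj.aestronglyMeasurable
    (ae_norm.mono fun z h => by rw [RCLike.norm_conj]; exact h)

theorem Mz_ae (f : L2T) : (Mz f : ℂ → ℂ) =ᵐ[arc] fun z => z * f z := mulU_ae _ _ _ f

theorem Mb_ae (f : L2T) : (Mb f : ℂ → ℂ) =ᵐ[arc] fun z => conj z * f z := mulU_ae _ _ _ f

theorem ae_zz : ∀ᵐ z ∂arc, z * conj z = 1 := by
  filter_upwards [ae_norm] with z hz
  rw [Complex.mul_conj, Complex.normSq_eq_norm_sq, hz]; norm_num

theorem Mz_Mb (f : L2T) : Mz (Mb f) = f := by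
  apply Lp.ext
  filter_upwards [Mz_ae (Mb f), Mb_ae f, ae_zz] with z h1 h2 h3
  rw [h1, h2, ← mul_assoc, h3, one_mul]

theorem Mb_Mz (f : L2T) : Mb (Mz f) = f := by
  apply Lp.ext
  filter_upwards [Mb_ae (Mz f), Mz_ae f, ae_zz] with z h1 h2 h3
  rw [h1, h2, ← mul_assoc, mul_comm (conj z), h3, one_mul]

theorem Mz_mono (n : ℕ) : Mz (mono n) = mono (n + 1) := by
  apply Lp.ext
  filter_upwards [Mz_ae (mono n), mono_ae n, mono_ae (n+1)] with z h1 h2 h3
  rw [h1, h2, h3, pow_succ']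

theorem Mb_mono (n : ℕ) : Mb (mono (n + 1)) = mono n := by
  rw [← Mz_mono, Mb_Mz]

/-- `z H² ⊆ H²` -/
theorem Mz_mem {f : L2T} (hf : f ∈ H2) : Mz f ∈ H2 := by
  have hle : H2 ≤ H2.comap Mz.toLinearMap := by
    conv_lhs => rw [H2_eq]
    refine Submodule.topologicalClosure_minimal _ ?_ ?_
    · rw [Submodule.span_le]
      rintro _ ⟨n, rfl⟩
      change Mz (mono n) ∈ H2
      rw [Mz_mono]; exact mono_mem _
    · have : IsClosed (H2 : Set L2T) := by
        rw [H2_eq]; exact Submodule.isClosed_topologicalClosure _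
      exact this.preimage Mz.continuous
  exact hle hf

/-- the backward shift, defined on all of `L²` -/
noncomputable def bs (f : L2T) : L2T := Mb (f - ⟪mono 0, f⟫_ℂ • mono 0)

theorem bs_mem {f : L2T} (hf : f ∈ H2) : bs f ∈ H2 := by
  let Q : L2T →ₗ[ℂ] L2T :=
    { toFun := bs
      map_add' := fun f g => by
        unfold bs
        rw [← map_add]; congr 1
        rw [inner_add_right]; module
      map_smul' := fun c f => by
        unfold bs
        rw [RingHom.id_apply, ← map_smul]; congr 1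
        rw [inner_smul_right]; module }
  have hQ : Continuous Q := by
    change Continuous bs
    unfold bs
    exact Mb.continuous.comp (by fun_prop)
  have hle : H2 ≤ H2.comap Q := by
    conv_lhs => rw [H2_eq]
    refine Submodule.topologicalClosure_minimal _ ?_ ?_
    · rw [Submodule.span_le]
      rintro _ ⟨n, rfl⟩
      change bs (mono n) ∈ H2
      unfold bs
      rw [mono_inner]
      rcases n with _ | n
      · simp
      · rw [if_neg (by omega), zero_smul, sub_zero, Mb_mono]; exact mono_mem _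
    · have : IsClosed (H2 : Set L2T) := by
        rw [H2_eq]; exact Submodule.isClosed_topologicalClosure _
      exact this.preimage hQ
  exact hle hf

theorem isClosed_H2 : IsClosed (H2 : Set L2T) := by
  rw [H2_eq]; exact Submodule.isClosed_topologicalClosure _

/-- multiplication by an inner function -/
noncomputable def MT (Θ : L2T) (h : IsInner Θ) : L2T →ₗᵢ[ℂ] L2T :=
  mulU (fun z => Θ z) (Lp.aestronglyMeasurable Θ) h.2.1

theorem MT_ae (Θ : L2T) (h : IsInner Θ) (f : L2T) :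
    (MT Θ h f : ℂ → ℂ) =ᵐ[arc] fun z => Θ z * f z := mulU_ae _ _ _ f

theorem MT_Mz (Θ : L2T) (h : IsInner Θ) (f : L2T) : MT Θ h (Mz f) = Mz (MT Θ h f) := by
  apply Lp.ext
  filter_upwards [MT_ae Θ h (Mz f), Mz_ae f, Mz_ae (MT Θ h f), MT_ae Θ h f] with z h1 h2 h3 h4
  rw [h1, h2, h3, h4]; ring

theorem MT_one (Θ : L2T) (h : IsInner Θ) : MT Θ h (mono 0) = Θ := by
  apply Lp.ext
  filter_upwards [MT_ae Θ h (mono 0), mono_ae 0] with z h1 h2
  rw [h1, h2, pow_zero, mul_one]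

theorem MT_mem (Θ : L2T) (h : IsInner Θ) {f : L2T} (hf : f ∈ H2) : MT Θ h f ∈ H2 := by
  have hle : H2 ≤ H2.comap (MT Θ h).toLinearMap := by
    conv_lhs => rw [H2_eq]
    refine Submodule.topologicalClosure_minimal _ ?_ (isClosed_H2.preimage (MT Θ h).continuous)
    rw [Submodule.span_le]
    rintro _ ⟨n, rfl⟩
    change MT Θ h (mono n) ∈ H2
    induction n with
    | zero => rw [MT_one]; exact h.1
    | succ n ih => rw [← Mz_mono, MT_Mz]; exact Mz_mem ih
  exact hle hf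

theorem inner_Mz_one {f : L2T} (hf : f ∈ H2) : ⟪Mz f, mono 0⟫_ℂ = 0 := by
  have hle : H2 ≤ (ℂ ∙ (mono 0 : L2T))ᗮ.comap Mz.toLinearMap := by
    conv_lhs => rw [H2_eq]
    refine Submodule.topologicalClosure_minimal _ ?_
      ((Submodule.isClosed_orthogonal _).preimage Mz.continuous)
    rw [Submodule.span_le]
    rintro _ ⟨n, rfl⟩
    change Mz (mono n) ∈ (ℂ ∙ (mono 0 : L2T))ᗮ
    rw [Submodule.mem_orthogonal_singleton_iff_inner_left, Mz_mono, mono_inner, if_neg (by omega)]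
  exact (Submodule.mem_orthogonal_singleton_iff_inner_left).1 (hle hf)

theorem int_eq (Θ : L2T) (h : IsInner Θ) (g f : L2T) :
    ∫ z, conj (Θ z * g z) * f z ∂arc = ⟪MT Θ h g, f⟫_ℂ := by
  rw [L2.inner_def]
  refine integral_congr_ae ?_
  filter_upwards [MT_ae Θ h g] with z h1
  rw [RCLike.inner_apply, h1]
  ring

theorem inK_iff (Θ : L2T) (h : IsInner Θ) (f : L2T) :
    InK Θ f ↔ f ∈ H2 ∧ ∀ g ∈ H2, ⟪MT Θ h g, f⟫_ℂ = 0 := by
  unfold InK
  simp only [int_eq Θ h]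

theorem inner_Mb (f g : L2T) : ⟪f, Mb g⟫_ℂ = ⟪Mz f, g⟫_ℂ := by
  rw [← Mz.inner_map_map f (Mb g), Mz_Mb]

/-- model spaces are invariant under the backward shift -/
theorem bs_inK (Θ : L2T) (h : IsInner Θ) {f : L2T} (hf : InK Θ f) : InK Θ (bs f) := by
  rw [inK_iff Θ h] at hf ⊢
  refine ⟨bs_mem hf.1, fun g hg => ?_⟩
  unfold bs
  rw [inner_Mb, inner_sub_right, inner_smul_right, ← MT_Mz, hf.2 _ (Mz_mem hg), MT_Mz,
    inner_Mz_one (MT_mem Θ h hg), mul_zero, sub_zero]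

end Q87.TTZ
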