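import Pool.Agent.Q87.TTZA

/-! Finite dimensional model spaces: boundedness of their elements, and the data attached to a
truncated Toeplitz operator. -/

set_option autoImplicit false
open MeasureTheory Filter Topology
open scoped ENNReal InnerProductSpace ComplexConjugate

namespace Q87.TTZ

open Q87.Clark

variable {E : Type} [NormedAddCommGroup E] [InnerProductSpace ℂ E]

theorem bs_add (f g : L2T) : bs (f + g) = bs f + bs g := by
  unfold bs
  rw [← map_add]; congr 1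
  rw [inner_add_right]; module

theorem bs_smul (c : ℂ) (f : L2T) : bs (c • f) = c • bs f := by
  unfold bs
  rw [← map_smul]; congr 1
  rw [inner_smul_right]; module

theorem exists_L (Θ : L2T) (h : IsInner Θ) (U : E →ₗᵢ[ℂ] L2T)
    (hU : ∀ f : L2T, (∃ x, U x = f) ↔ InK Θ f) :
    ∃ L : E →ₗ[ℂ] E, ∀ x, U (L x) = bs (U x) := by
  have h1 : ∀ x : E, ∃ y : E, U y = bs (U x) := fun x =>
    (hU _).2 (bs_inK Θ h ((hU _).1 ⟨x, rfl⟩))
  choose L hL using h1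
  refine ⟨{ toFun := L, map_add' := fun x y => ?_, map_smul' := fun c x => ?_ }, hL⟩
  · apply U.injective
    rw [map_add, hL, hL, hL, map_add, bs_add]
  · apply U.injective
    rw [RingHom.id_apply, map_smul, hL, hL, map_smul, bs_smul]

theorem bs_ae (f : L2T) :
    (bs f : ℂ → ℂ) =ᵐ[arc] fun z => conj z * (f z - ⟪mono 0, f⟫_ℂ) := by
  unfold bs
  filter_upwards [Mb_ae (f - ⟪mono 0, f⟫_ℂ • mono 0), Lp.coeFn_sub f (⟪mono 0, f⟫_ℂ • mono 0),
    Lp.coeFn_smul ⟪mono 0, f⟫_ℂ (mono 0), mono_ae 0] with z h1 h2 h3 h4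
  rw [h1, h2, Pi.sub_apply, h3, Pi.smul_apply, h4, pow_zero, smul_eq_mul, mul_one]

/-- The elements with bounded image. -/
def bddSub (U : E →ₗᵢ[ℂ] L2T) : Submodule ℂ E where
  carrier := {x | MemLp (U x) ⊤ arc}
  zero_mem' := by
    change MemLp (U 0) ⊤ arc
    rw [map_zero]
    exact (MemLp.zero (p := ⊤) (μ := arc)).ae_eq (Lp.coeFn_zero ℂ 2 arc).symm
  add_mem' := fun {x y} hx hy => by
    change MemLp (U (x + y)) ⊤ arc
    rw [map_add]
    exact (hx.add hy).ae_eq (Lp.coeFn_add _ _).symm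
  smul_mem' := fun c x hx => by
    change MemLp (U (c • x)) ⊤ arc
    rw [map_smul]
    exact (MemLp.const_smul hx c).ae_eq (Lp.coeFn_smul _ _).symm

theorem mem_bddSub (U : E →ₗᵢ[ℂ] L2T) (x : E) : x ∈ bddSub U ↔ MemLp (U x) ⊤ arc := Iff.rfl

theorem L_mem (U : E →ₗᵢ[ℂ] L2T) (L : E →ₗ[ℂ] E) (hL : ∀ x, U (L x) = bs (U x)) {x : E}
    (hx : x ∈ bddSub U) : L x ∈ bddSub U := by
  rw [mem_bddSub] at hx ⊢
  rw [hL]
  have h1 : MemLp (fun z : ℂ => conj z) ⊤ arc := memLp_of_cont _ Complex.continuous_conj ⊤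
  have h2 : MemLp (fun z : ℂ => U x z - ⟪mono 0, U x⟫_ℂ) ⊤ arc :=
    hx.sub (memLp_of_cont (fun _ => ⟪mono 0, U x⟫_ℂ) continuous_const ⊤)
  exact (h2.mul' h1).ae_eq (bs_ae (U x)).symm

theorem mem_of_sub (U : E →ₗᵢ[ℂ] L2T) (L : E →ₗ[ℂ] E) (hL : ∀ x, U (L x) = bs (U x)) {x : E}
    (μ : ℂ) (hμ : ‖μ‖ ≠ 1) (hx : L x - μ • x ∈ bddSub U) : x ∈ bddSub U := by
  rw [mem_bddSub] at hx ⊢
  have hpos : 0 < |1 - ‖μ‖| := abs_pos.2 (sub_ne_zero.2 (Ne.symm hμ))
  have hb : ∀ᵐ z ∂arc, |1 - ‖μ‖| ≤ ‖conj z - μ‖ := by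
    filter_upwards [ae_norm] with z hz
    have := abs_norm_sub_norm_le (conj z) μ
    rwa [RCLike.norm_conj, hz] at this
  have h1 : MemLp (fun z : ℂ => (conj z - μ)⁻¹) ⊤ arc := by
    refine MemLp.of_bound (C := |1 - ‖μ‖|⁻¹) ?_ ?_
    · have : Measurable fun z : ℂ => (conj z - μ)⁻¹ :=
        (Complex.continuous_conj.measurable.sub_const μ).inv
      exact this.aestronglyMeasurable
    · filter_upwards [hb] with z hz
      rw [norm_inv]
      exact inv_anti₀ hpos hz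
  have h2 : MemLp (fun z : ℂ => U (L x - μ • x) z + ⟪mono 0, U x⟫_ℂ * conj z) ⊤ arc :=
    hx.add (memLp_of_cont (fun z => ⟪mono 0, U x⟫_ℂ * conj z)
      (continuous_const.mul Complex.continuous_conj) ⊤)
  refine (h2.mul' h1).ae_eq ?_
  have e : U (L x - μ • x) = bs (U x) - μ • U x := by rw [map_sub, map_smul, hL]
  rw [e]
  filter_upwards [Lp.coeFn_sub (bs (U x)) (μ • U x), Lp.coeFn_smul μ (U x), bs_ae (U x), hb]
    with z h3 h4 h5 h6
  have h7 : conj z - μ ≠ 0 := norm_pos_iff.1 (hpos.trans_le h6)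
  rw [h3, Pi.sub_apply, h4, h5, Pi.smul_apply, smul_eq_mul]
  field_simp
  ring

theorem norm_bs_sq (f : L2T) : ‖bs f‖ ^ 2 = ‖f‖ ^ 2 - ‖⟪mono 0, f⟫_ℂ‖ ^ 2 := by
  unfold bs
  rw [LinearIsometry.norm_map]
  have h1 : ‖(mono 0 : L2T)‖ = 1 := by
    have h2 : ‖(mono 0 : L2T)‖ ^ 2 = 1 := by
      rw [← inner_self_eq_norm_sq (𝕜 := ℂ), mono_inner, if_pos rfl]
      exact Complex.one_re
    nlinarith [norm_nonneg (mono 0 : L2T)]
  rw [@norm_sub_sq ℂ, inner_smul_right, norm_smul, h1, mul_one]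
  have h3 : ⟪f, mono 0⟫_ℂ = conj ⟪mono 0, f⟫_ℂ := (inner_conj_symm _ _).symm
  rw [h3, Complex.mul_conj, Complex.normSq_eq_norm_sq]
  have h4 : RCLike.re (((‖⟪mono 0, f⟫_ℂ‖ ^ 2 : ℝ) : ℂ)) = ‖⟪mono 0, f⟫_ℂ‖ ^ 2 := Complex.ofReal_re _
  rw [h4]; ring

theorem zero_of_rot (f : L2T) (μ : ℂ) (h : Mb f = μ • f) : f = 0 := by
  apply Lp.ext
  filter_upwards [Mb_ae f, Lp.coeFn_smul μ f, Lp.coeFn_zero ℂ 2 arc, ae_ne (conj μ)]
    with z h1 h2 h3 h4
  rw [h3, Pi.zero_apply]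
  rw [h] at h1
  rw [h2, Pi.smul_apply, smul_eq_mul] at h1
  have h5 : (conj z - μ) * f z = 0 := by linear_combination -h1
  rcases mul_eq_zero.1 h5 with h6 | h6
  · exfalso
    apply h4
    rw [← sub_eq_zero.1 h6, Complex.conj_conj]
  · exact h6

theorem L_inj (U : E →ₗᵢ[ℂ] L2T) (L : E →ₗ[ℂ] E) (hL : ∀ x, U (L x) = bs (U x))
    (μ : ℂ) (hμ : ‖μ‖ = 1) (x : E) (hx : L x = μ • x) : x = 0 := by
  have h1 : bs (U x) = μ • U x := by rw [← hL, hx, map_smul]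
  have h2 := norm_bs_sq (U x)
  rw [h1, norm_smul, hμ, one_mul] at h2
  have h3 : ⟪mono 0, U x⟫_ℂ = 0 := by
    have : ‖⟪mono 0, U x⟫_ℂ‖ ^ 2 = 0 := by linarith
    exact norm_eq_zero.1 (pow_eq_zero_iff (two_ne_zero) |>.1 this)
  unfold bs at h1
  rw [h3, zero_smul, sub_zero] at h1
  have h4 := zero_of_rot _ _ h1
  exact U.injective (by rw [h4, map_zero])

/-- all elements of a finite dimensional model space are bounded -/
theorem all_bdd [FiniteDimensional ℂ E] (U : E →ₗᵢ[ℂ] L2T) (L : E →ₗ[ℂ] E)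
    (hL : ∀ x, U (L x) = bs (U x)) (x : E) : x ∈ bddSub U := by
  set B := bddSub U with hB
  by_contra hx
  have hne : B ≠ ⊤ := fun h => hx (h ▸ Submodule.mem_top)
  have hinv : B ≤ B.comap L := fun y hy => L_mem U L hL hy
  have : Nontrivial (E ⧸ B) := Submodule.Quotient.nontrivial_iff.2 hne
  obtain ⟨μ, hμ⟩ := Module.End.exists_eigenvalue (B.mapQ B L hinv)
  obtain ⟨q, hq, hq0⟩ := hμ.exists_hasEigenvector
  rw [Module.End.mem_eigenspace_iff] at hq
  obtain ⟨y, rfl⟩ := Submodule.Quotient.mk_surjective B q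
  have hy : L y - μ • y ∈ B := by
    rw [← Submodule.Quotient.mk_eq_zero, Submodule.Quotient.mk_sub, Submodule.Quotient.mk_smul,
      ← hq, sub_eq_zero]
    rfl
  have hy0 : y ∉ B := fun h => hq0 ((Submodule.Quotient.mk_eq_zero B).2 h)
  by_cases hn : ‖μ‖ = 1
  · let N : E →ₗ[ℂ] E := L - μ • LinearMap.id
    have hN : ∀ z, N z = L z - μ • z := fun z => rfl
    have hNinj : Function.Injective N := by
      rw [← LinearMap.ker_eq_bot, LinearMap.ker_eq_bot']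
      intro z hz
      exact L_inj U L hL μ hn z (sub_eq_zero.1 hz)
    have hNB : ∀ z ∈ B, N z ∈ B := fun z hz =>
      B.sub_mem (L_mem U L hL hz) (B.smul_mem _ hz)
    let N' : B →ₗ[ℂ] B := N.restrict hNB
    have hN'inj : Function.Injective N' := by
      intro a b hab
      apply Subtype.ext
      apply hNinj
      exact congrArg Subtype.val hab
    have hN'surj : Function.Surjective N' := LinearMap.injective_iff_surjective.1 hN'inj
    obtain ⟨b, hb⟩ := hN'surj ⟨N y, hy⟩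
    have h1 : N b = N y := congrArg Subtype.val hb
    have h2 := hNinj h1
    exact hy0 (h2 ▸ b.2)
  · exact hy0 (mem_of_sub U L hL μ hn hy)

/-- The data attached to a truncated Toeplitz operator on a finite dimensional space. -/
theorem tto_data [FiniteDimensional ℂ E] (T : E →L[ℂ] E) (hT : UnitarilyTTO T) :
    ∃ (ell : E →ₗ[ℂ] ℂ) (G : E →ₗ[ℂ] E),
      (∀ x y, ell x = 0 → ell y = 0 → ⟪G y, G x⟫_ℂ = ⟪y, x⟫_ℂ) ∧
      (∀ x y, ell x = 0 → ell y = 0 → ⟪G y, T (G x)⟫_ℂ = ⟪y, T x⟫_ℂ) ∧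
      (∀ x (ζ : ℂ), ell x = 0 → G x = ζ • x → x = 0) := by
  obtain ⟨Θ, φ, U, hΘ, hU, hφ⟩ := hT
  obtain ⟨L, hL⟩ := exists_L Θ hΘ U hU
  have hb := all_bdd U L hL
  have hG : ∀ x, ⟪mono 0, U x⟫_ℂ = 0 → U (L x) = Mb (U x) := by
    intro x hx
    rw [hL, bs, hx, zero_smul, sub_zero]
  refine ⟨(innerSL ℂ (mono 0)).toLinearMap ∘ₗ U.toLinearMap, L, ?_, ?_, ?_⟩
  · intro x y hx hy
    rw [← U.inner_map_map, hG x hx, hG y hy, Mb.inner_map_map, U.inner_map_map]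
  · intro x y hx hy
    rw [hφ _ _ (hb (L x)), hφ _ _ (hb x), hG x hx, hG y hy]
    refine integral_congr_ae ?_
    filter_upwards [Mb_ae (U x), Mb_ae (U y), ae_zz] with z h1 h2 h3
    rw [h1, h2, map_mul, Complex.conj_conj]
    linear_combination (conj (U y z) * φ z * U x z) * h3
  · intro x ζ hx hxz
    have h1 := hG x hx
    rw [hxz, map_smul] at h1
    have h2 := zero_of_rot _ _ h1.symm
    exact U.injective (by rw [h2, map_zero])

end Q87.TTZ
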