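import Pool.Agent.Q87.TTZB

/-! The `3 × 3` example: `T ⊕ 0` is not unitarily equivalent to a truncated Toeplitz operator. -/

set_option autoImplicit false
open MeasureTheory Filter Topology
open scoped ENNReal InnerProductSpace ComplexConjugate

namespace Q87.TTZ

open Q87.Clark

/-- The three dimensional Hilbert space. -/
abbrev H3 := EuclideanSpace ℂ (Fin 3)

/-- The Toeplitz matrix `2 I + i (path) - (corners)`. -/
noncomputable def TM : Matrix (Fin 3) (Fin 3) ℂ :=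
  !![2, Complex.I, -1; Complex.I, 2, Complex.I; -1, Complex.I, 2]

/-- The operator of the matrix `TM`. -/
noncomputable def TT : H3 →L[ℂ] H3 := Matrix.toEuclideanCLM (n := Fin 3) (𝕜 := ℂ) TM

theorem TT_apply (x : H3) (i : Fin 3) : TT x i = ∑ j, TM i j * x j := by
  unfold TT
  rw [Matrix.ofLp_toEuclideanCLM]
  rfl

theorem TT0 (x : H3) : TT x 0 = 2 * x 0 + Complex.I * x 1 - x 2 := by
  rw [TT_apply, Fin.sum_univ_three]; simp [TM]; ring

theorem TT1 (x : H3) : TT x 1 = Complex.I * x 0 + 2 * x 1 + Complex.I * x 2 := by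
  rw [TT_apply, Fin.sum_univ_three]; simp [TM]

theorem TT2 (x : H3) : TT x 2 = -x 0 + Complex.I * x 1 + 2 * x 2 := by
  rw [TT_apply, Fin.sum_univ_three]; simp [TM]

theorem inner3 (x y : H3) : ⟪x, y⟫_ℂ = conj (x 0) * y 0 + conj (x 1) * y 1 + conj (x 2) * y 2 := by
  rw [PiLp.inner_apply, Fin.sum_univ_three]
  simp only [RCLike.inner_apply]
  ring

theorem TT_pos (a : H3) (h : ⟪a, TT a⟫_ℂ = 0) : a = 0 := by
  rw [inner3, TT0, TT1, TT2] at h
  have h1 := congrArg Complex.re h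
  simp only [Complex.add_re, Complex.mul_re, Complex.sub_re, Complex.conj_re, Complex.conj_im,
    Complex.I_re, Complex.I_im, Complex.neg_re, Complex.add_im, Complex.mul_im, Complex.sub_im,
    Complex.neg_im, Complex.zero_re] at h1
  norm_num at h1
  have h2 : (a 0).re ^ 2 + (a 0).im ^ 2 + (a 2).re ^ 2 + (a 2).im ^ 2 + 2 * (a 1).re ^ 2
      + 2 * (a 1).im ^ 2 + ((a 0).re - (a 2).re) ^ 2 + ((a 0).im - (a 2).im) ^ 2 = 0 := by
    linear_combination h1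
  have e0 : a 0 = 0 := Complex.ext (by rw [Complex.zero_re]; nlinarith) (by rw [Complex.zero_im]; nlinarith)
  have e1 : a 1 = 0 := Complex.ext (by rw [Complex.zero_re]; nlinarith) (by rw [Complex.zero_im]; nlinarith)
  have e2 : a 2 = 0 := Complex.ext (by rw [Complex.zero_re]; nlinarith) (by rw [Complex.zero_im]; nlinarith)
  ext i
  fin_cases i
  · exact e0
  · exact e1
  · exact e2

/-- vectors -/
noncomputable def vec3 (a b c : ℂ) : H3 := WithLp.toLp 2 ![a, b, c]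

theorem vec3_0 (a b c : ℂ) : vec3 a b c 0 = a := rfl
theorem vec3_1 (a b c : ℂ) : vec3 a b c 1 = b := rfl
theorem vec3_2 (a b c : ℂ) : vec3 a b c 2 = c := rfl

theorem ext3 {x y : H3} (h0 : x 0 = y 0) (h1 : x 1 = y 1) (h2 : x 2 = y 2) : x = y := by
  ext i
  fin_cases i
  · exact h0
  · exact h1
  · exact h2

section core

variable (A : H3 →ₗ[ℂ] H3)

theorem A_surj (h2 : ∀ a b, ⟪A b, TT (A a)⟫_ℂ = ⟪b, TT a⟫_ℂ) : Function.Surjective A := by
  rw [← LinearMap.injective_iff_surjective, ← LinearMap.ker_eq_bot, LinearMap.ker_eq_bot']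
  intro a ha
  apply TT_pos
  rw [← h2 a a, ha, inner_zero_left]

/-- if `T* w = c T w` then `T* A w = c T A w`, in coordinates -/
theorem A_eig (h2 : ∀ a b, ⟪A b, TT (A a)⟫_ℂ = ⟪b, TT a⟫_ℂ) (w : H3) (c : ℂ)
    (hw : ∀ b, ⟪TT b, w⟫_ℂ = c * ⟪b, TT w⟫_ℂ) (d : H3) :
    ⟪TT d, A w⟫_ℂ = c * ⟪d, TT (A w)⟫_ℂ := by
  obtain ⟨b, rfl⟩ := A_surj A h2 d
  rw [h2, ← hw b, ← inner_conj_symm (TT (A b)) (A w), h2, inner_conj_symm]

theorem A_unit (h2 : ∀ a b, ⟪A b, TT (A a)⟫_ℂ = ⟪b, TT a⟫_ℂ) (w : H3) (hw : w ≠ 0) (ζ : ℂ)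
    (h : A w = ζ • w) : conj ζ * ζ = 1 := by
  have h3 := h2 w w
  rw [h, map_smul, inner_smul_left, inner_smul_right] at h3
  have h4 : ⟪w, TT w⟫_ℂ ≠ 0 := fun h => hw (TT_pos w h)
  apply mul_right_cancel₀ h4
  rw [mul_assoc, h3, one_mul]

theorem coords (u : H3) (c : ℂ) (h : ∀ d, ⟪TT d, u⟫_ℂ = c * ⟪d, TT u⟫_ℂ) :
    (2 * u 0 - Complex.I * u 1 - u 2 = c * (2 * u 0 + Complex.I * u 1 - u 2)) ∧
    (-Complex.I * u 0 + 2 * u 1 - Complex.I * u 2
      = c * (Complex.I * u 0 + 2 * u 1 + Complex.I * u 2)) ∧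
    (-u 0 - Complex.I * u 1 + 2 * u 2 = c * (-u 0 + Complex.I * u 1 + 2 * u 2)) := by
  have h0 := h (vec3 1 0 0)
  have h1 := h (vec3 0 1 0)
  have h2 := h (vec3 0 0 1)
  simp only [inner3, TT0, TT1, TT2, vec3_0, vec3_1, vec3_2, map_add, map_sub, map_mul, map_neg,
    Complex.conj_I, map_one, map_zero] at h0 h1 h2
  have e2 : conj (2 : ℂ) = 2 := Complex.conj_ofNat 2
  rw [e2] at h0 h1 h2
  refine ⟨?_, ?_, ?_⟩
  · linear_combination h0
  · linear_combination h1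
  · linear_combination h2

theorem eig1 (h2 : ∀ a b, ⟪A b, TT (A a)⟫_ℂ = ⟪b, TT a⟫_ℂ) :
    ∃ ζ : ℂ, A (vec3 1 1 1) = ζ • vec3 1 1 1 := by
  have hw : ∀ b, ⟪TT b, vec3 1 1 1⟫_ℂ = (-Complex.I) * ⟪b, TT (vec3 1 1 1)⟫_ℂ := by
    intro b
    have e2 : conj (2 : ℂ) = 2 := Complex.conj_ofNat 2
    simp only [inner3, TT0, TT1, TT2, vec3_0, vec3_1, vec3_2, map_add, map_sub, map_mul, map_neg,
      Complex.conj_I, e2]
    linear_combination (conj (b 0) + 2 * conj (b 1) + conj (b 2)) * Complex.I_sq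
  have h := coords _ _ (A_eig A h2 _ _ hw)
  set u := A (vec3 1 1 1)
  obtain ⟨e0, e1, e2⟩ := h
  have hI : (1 : ℂ) + Complex.I ≠ 0 := fun h => by simpa using congrArg Complex.im h
  have g0 : (1 + Complex.I) * (2 * u 0 - u 1 - u 2) = 0 := by
    linear_combination e0 - u 1 * Complex.I_sq
  have g1 : (1 + Complex.I) * (-u 0 + 2 * u 1 - u 2) = 0 := by
    linear_combination e1 - (u 0 + u 2) * Complex.I_sq
  have g0' := (mul_eq_zero.1 g0).resolve_left hI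
  have g1' := (mul_eq_zero.1 g1).resolve_left hI
  have f1 : u 1 = u 0 := by linear_combination (-1/3 : ℂ) * g0' + (1/3 : ℂ) * g1'
  have f2 : u 2 = u 0 := by linear_combination -g0' - f1
  refine ⟨u 0, ext3 ?_ ?_ ?_⟩
  · simp [vec3_0]
  · rw [f1]; simp [vec3_1]
  · rw [f2]; simp [vec3_2]

theorem eig2 (h2 : ∀ a b, ⟪A b, TT (A a)⟫_ℂ = ⟪b, TT a⟫_ℂ) :
    ∃ ζ : ℂ, A (vec3 1 (-1) 1) = ζ • vec3 1 (-1) 1 := by
  have hw : ∀ b, ⟪TT b, vec3 1 (-1) 1⟫_ℂ = Complex.I * ⟪b, TT (vec3 1 (-1) 1)⟫_ℂ := by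
    intro b
    have e2 : conj (2 : ℂ) = 2 := Complex.conj_ofNat 2
    simp only [inner3, TT0, TT1, TT2, vec3_0, vec3_1, vec3_2, map_add, map_sub, map_mul, map_neg,
      Complex.conj_I, e2]
    linear_combination (conj (b 0) - 2 * conj (b 1) + conj (b 2)) * Complex.I_sq
  have h := coords _ _ (A_eig A h2 _ _ hw)
  set u := A (vec3 1 (-1) 1)
  obtain ⟨e0, e1, e2⟩ := h
  have hI : (1 : ℂ) - Complex.I ≠ 0 := fun h => by simpa using congrArg Complex.im h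
  have g0 : (1 - Complex.I) * (2 * u 0 + u 1 - u 2) = 0 := by
    linear_combination e0 + u 1 * Complex.I_sq
  have g1 : (1 - Complex.I) * (u 0 + 2 * u 1 + u 2) = 0 := by
    linear_combination e1 + (u 0 + u 2) * Complex.I_sq
  have g0' := (mul_eq_zero.1 g0).resolve_left hI
  have g1' := (mul_eq_zero.1 g1).resolve_left hI
  have f1 : u 1 = -u 0 := by linear_combination (1/3 : ℂ) * g0' + (1/3 : ℂ) * g1'
  have f2 : u 2 = u 0 := by linear_combination -g0' + f1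
  refine ⟨u 0, ext3 ?_ ?_ ?_⟩
  · simp [vec3_0]
  · rw [f1]; simp [vec3_1]
  · rw [f2]; simp [vec3_2]

theorem eig3 (h2 : ∀ a b, ⟪A b, TT (A a)⟫_ℂ = ⟪b, TT a⟫_ℂ) :
    ∃ ζ : ℂ, A (vec3 1 0 (-1)) = ζ • vec3 1 0 (-1) := by
  have hw : ∀ b, ⟪TT b, vec3 1 0 (-1)⟫_ℂ = 1 * ⟪b, TT (vec3 1 0 (-1))⟫_ℂ := by
    intro b
    have e2 : conj (2 : ℂ) = 2 := Complex.conj_ofNat 2
    simp only [inner3, TT0, TT1, TT2, vec3_0, vec3_1, vec3_2, map_add, map_sub, map_mul, map_neg,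
      Complex.conj_I, e2]
    ring
  have h := coords _ _ (A_eig A h2 _ _ hw)
  set u := A (vec3 1 0 (-1))
  obtain ⟨e0, e1, e2⟩ := h
  have hI : (2 : ℂ) * Complex.I ≠ 0 := mul_ne_zero two_ne_zero Complex.I_ne_zero
  have g0 : (2 * Complex.I) * u 1 = 0 := by linear_combination -e0
  have g1 : (2 * Complex.I) * (u 0 + u 2) = 0 := by linear_combination -e1
  have f1 := (mul_eq_zero.1 g0).resolve_left hI
  have f2 : u 2 = -u 0 := by linear_combination (mul_eq_zero.1 g1).resolve_left hI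
  refine ⟨u 0, ext3 ?_ ?_ ?_⟩
  · simp [vec3_0]
  · rw [f1]; simp [vec3_1]
  · rw [f2]; simp [vec3_2]

theorem core (j k : H3 →ₗ[ℂ] ℂ)
    (h1 : ∀ a b, ⟪A b, A a⟫_ℂ + conj (k b) * k a = ⟪b, a⟫_ℂ + conj (j b) * j a)
    (h2 : ∀ a b, ⟪A b, TT (A a)⟫_ℂ = ⟪b, TT a⟫_ℂ)
    (h3 : ∀ a (ζ : ℂ), A a = ζ • a → k a = ζ * j a → a = 0) : False := by
  obtain ⟨ζ1, hz1⟩ := eig1 A h2
  obtain ⟨ζ2, hz2⟩ := eig2 A h2
  obtain ⟨ζ3, hz3⟩ := eig3 A h2
  have n1 : vec3 1 1 1 ≠ 0 := fun h => by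
    have := congrArg (fun x : H3 => x 0) h
    simp [vec3_0] at this
  have n2 : vec3 1 (-1) 1 ≠ 0 := fun h => by
    have := congrArg (fun x : H3 => x 0) h
    simp [vec3_0] at this
  have n3 : vec3 1 0 (-1) ≠ 0 := fun h => by
    have := congrArg (fun x : H3 => x 0) h
    simp [vec3_0] at this
  have u1 := A_unit A h2 _ n1 _ hz1
  have u2 := A_unit A h2 _ n2 _ hz2
  have u3 := A_unit A h2 _ n3 _ hz3
  have norm_eq : ∀ (w : H3) (ζ : ℂ), w ≠ 0 → conj ζ * ζ = 1 → A w = ζ • w →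
      conj (k w) * k w = conj (j w) * j w ∧ j w ≠ 0 := by
    intro w ζ hw hu hz
    have e := h1 w w
    rw [hz, inner_smul_left, inner_smul_right, ← mul_assoc, hu, one_mul] at e
    have e' : conj (k w) * k w = conj (j w) * j w := add_left_cancel e
    refine ⟨e', fun hj => hw (h3 w ζ hz ?_)⟩
    rw [hj, mul_zero] at e' ⊢
    rcases mul_eq_zero.1 e' with h | h
    · exact (map_eq_zero _).1 h
    · exact h
  obtain ⟨m1, j1⟩ := norm_eq _ _ n1 u1 hz1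
  obtain ⟨m2, j2⟩ := norm_eq _ _ n2 u2 hz2
  obtain ⟨m3, j3⟩ := norm_eq _ _ n3 u3 hz3
  have c13 := h1 (vec3 1 0 (-1)) (vec3 1 1 1)
  have c32 := h1 (vec3 1 (-1) 1) (vec3 1 0 (-1))
  have c12 := h1 (vec3 1 (-1) 1) (vec3 1 1 1)
  rw [hz1, hz3, inner_smul_left, inner_smul_right] at c13
  rw [hz2, hz3, inner_smul_left, inner_smul_right] at c32
  rw [hz1, hz2, inner_smul_left, inner_smul_right] at c12
  have i13 : ⟪vec3 1 1 1, vec3 1 0 (-1)⟫_ℂ = 0 := by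
    rw [inner3]; simp [vec3_0, vec3_1, vec3_2]
  have i32 : ⟪vec3 1 0 (-1), vec3 1 (-1) 1⟫_ℂ = 0 := by
    rw [inner3]; simp [vec3_0, vec3_1, vec3_2]
  have i12 : ⟪vec3 1 1 1, vec3 1 (-1) 1⟫_ℂ = 1 := by
    rw [inner3]; simp [vec3_0, vec3_1, vec3_2]
  rw [i13] at c13
  rw [i32] at c32
  rw [i12] at c12
  set w1 := vec3 1 1 1 with hw1
  set w2 := vec3 1 (-1) 1 with hw2
  set w3 := vec3 1 0 (-1) with hw3
  have hj3 : conj (j w3) * j w3 ≠ 0 := mul_ne_zero ((map_ne_zero _).2 j3) j3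
  have k12 : conj (k w1) * k w2 = conj (j w1) * j w2 := by
    apply mul_right_cancel₀ hj3
    have a1 : conj (k w1) * k w3 = conj (j w1) * j w3 := by linear_combination c13
    have a2 : conj (k w3) * k w2 = conj (j w3) * j w2 := by linear_combination c32
    linear_combination (conj (k w3) * k w2) * a1 + (conj (j w1) * j w3) * a2
      - (conj (k w1) * k w2) * m3
  have hz : ζ2 = ζ1 := by
    have e : conj ζ1 * ζ2 = 1 := by linear_combination c12 - k12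
    linear_combination ζ1 * e - ζ2 * u1
  have k12' : j w2 * k w1 = j w1 * k w2 := by
    apply mul_left_cancel₀ ((map_ne_zero (starRingEnd ℂ)).2 j1)
    linear_combination (-k w1) * k12 + (k w2) * m1
  have ha : j w2 • w1 - j w1 • w2 = 0 := by
    refine h3 _ ζ1 ?_ ?_
    · rw [map_sub, map_smul, map_smul, hz1, hz2, hz, smul_sub, smul_comm ζ1 (j w2),
        smul_comm ζ1 (j w1)]
    · simp only [map_sub, map_smul, smul_eq_mul]
      linear_combination k12'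
  have a0 := congrArg (fun x : H3 => x 0) ha
  have a1 := congrArg (fun x : H3 => x 1) ha
  simp [hw1, hw2, vec3_0, vec3_1] at a0 a1
  apply j1
  linear_combination (-1/2 : ℂ) * a0 + (1/2 : ℂ) * a1

end core

end Q87.TTZ
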