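import Pool.Agent.Q87.TTZC

/-! `T` is unitarily equivalent to a truncated Toeplitz operator, `T ⊕ 0` is not. -/

set_option autoImplicit false
open MeasureTheory Filter Topology
open scoped ENNReal InnerProductSpace ComplexConjugate

namespace Q87.TTZ

open Q87.Clark

/-- The four dimensional space `ℂ³ ⊕ ℂ`. -/
abbrev E4 := WithLp 2 (H3 × ℂ)

theorem finrank_E4 : Module.finrank ℂ E4 = 4 := by
  rw [LinearEquiv.finrank_eq (WithLp.linearEquiv 2 ℂ (H3 × ℂ)), Module.finrank_prod,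
    finrank_euclideanSpace, Fintype.card_fin, Module.finrank_self]

/-- first component -/
noncomputable def pp : E4 →ₗ[ℂ] H3 := WithLp.fstₗ 2 ℂ H3 ℂ

/-- second component -/
noncomputable def qq : E4 →ₗ[ℂ] ℂ := WithLp.sndₗ 2 ℂ H3 ℂ

theorem inner4 (x y : E4) : ⟪x, y⟫_ℂ = ⟪pp x, pp y⟫_ℂ + conj (qq x) * qq y := by
  rw [WithLp.prod_inner_apply, RCLike.inner_apply, mul_comm y.ofLp.2]
  rfl

theorem pp_plus (x : E4) : pp (plusZero TT x) = TT (pp x) := rfl

theorem qq_plus (x : E4) : qq (plusZero TT x) = 0 := rfl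

theorem ext4 {x y : E4} (h1 : pp x = pp y) (h2 : qq x = qq y) : x = y := by
  apply (WithLp.linearEquiv 2 ℂ (H3 × ℂ)).injective
  exact Prod.ext h1 h2

theorem inner_plus (x y : E4) : ⟪y, plusZero TT x⟫_ℂ = ⟪pp y, TT (pp x)⟫_ℂ := by
  rw [inner4, pp_plus, qq_plus, mul_zero, add_zero]

theorem not_tto : ¬ UnitarilyTTO (plusZero TT) := by
  intro h
  obtain ⟨ell, G, g1, g2, g3⟩ := tto_data _ h
  simp only [inner_plus] at g2
  set D := LinearMap.ker ell with hD
  have hDm : ∀ x : D, ell x = 0 := fun x => x.2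
  let π : D →ₗ[ℂ] H3 := pp ∘ₗ D.subtype
  have hinj : Function.Injective π := by
    rw [← LinearMap.ker_eq_bot, LinearMap.ker_eq_bot']
    rintro ⟨x, hx⟩ hx0
    have hpx : pp x = 0 := hx0
    have hx' : ell x = 0 := hx
    have e := g2 x x hx' hx'
    rw [hpx, inner_zero_left] at e
    have hpG := TT_pos _ e
    have hx00 : x = 0 := by
      by_cases hq : qq x = 0
      · exact ext4 (by rw [hpx, map_zero]) (by rw [hq, map_zero])
      · refine g3 x (qq (G x) / qq x) hx' (ext4 ?_ ?_)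
        · rw [hpG, map_smul, hpx, smul_zero]
        · rw [map_smul, smul_eq_mul, div_mul_cancel₀ _ hq]
    exact Subtype.ext hx00
  have hfr : Module.finrank ℂ D = 3 := by
    have h1 := LinearMap.finrank_range_add_finrank_ker ell
    rw [finrank_E4] at h1
    have h2 : Module.finrank ℂ (LinearMap.range ell) ≤ 1 := by
      have := Submodule.finrank_le (LinearMap.range ell)
      rwa [Module.finrank_self] at this
    have h3 := LinearMap.finrank_le_finrank_of_injective hinj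
    rw [finrank_euclideanSpace, Fintype.card_fin] at h3
    rw [← hD] at h1
    omega
  have hsurj : Function.Surjective π := by
    have h4 : Module.finrank ℂ D = Module.finrank ℂ H3 := by
      rw [hfr, finrank_euclideanSpace, Fintype.card_fin]
    exact (LinearMap.injective_iff_surjective_of_finrank_eq_finrank h4).1 hinj
  let e : D ≃ₗ[ℂ] H3 := LinearEquiv.ofBijective π ⟨hinj, hsurj⟩
  let J : H3 →ₗ[ℂ] E4 := D.subtype ∘ₗ e.symm.toLinearMap
  have hJ0 : ∀ a, ell (J a) = 0 := fun a => (e.symm a).2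
  have hJp : ∀ a, pp (J a) = a := fun a => e.apply_symm_apply a
  refine core (pp ∘ₗ G ∘ₗ J) (qq ∘ₗ J) (qq ∘ₗ G ∘ₗ J) ?_ ?_ ?_
  · intro a b
    have := g1 (J a) (J b) (hJ0 a) (hJ0 b)
    rw [inner4, inner4, hJp, hJp] at this
    exact this
  · intro a b
    have := g2 (J a) (J b) (hJ0 a) (hJ0 b)
    rw [hJp, hJp] at this
    exact this
  · intro a ζ ha hk
    have := g3 (J a) ζ (hJ0 a) (ext4 ?_ ?_)
    · rw [← hJp a, this, map_zero]
    · rw [map_smul, hJp]; exact ha
    · rw [map_smul]; exact hk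

/-! ### `T` is unitarily equivalent to a truncated Toeplitz operator on the model space of `z³` -/

theorem mono3_ae : (mono 3 : ℂ → ℂ) =ᵐ[arc] cube.eval := by
  filter_upwards [mono_ae 3] with z h
  rw [h, cube_eval]

theorem inK_cube (f : L2T) : InK (mono 3) f ↔ InModel cube f := by
  unfold InK InModel
  refine and_congr Iff.rfl (forall₂_congr fun g _ => ?_)
  rw [integral_congr_ae (g := fun z => conj (cube.eval z * g z) * f z)]
  filter_upwards [mono3_ae] with z h
  rw [h]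

theorem isInner_mono3 : IsInner (mono 3) := by
  refine ⟨mono_mem 3, ?_, ?_⟩
  · filter_upwards [mono_ae 3, ae_norm] with z h h1
    rw [h, norm_pow, h1, one_pow]
  · rintro ⟨c, hc⟩
    have h1 : (mono 3 : L2T) = c • mono 0 := by
      apply Lp.ext
      filter_upwards [hc, Lp.coeFn_smul c (mono 0), mono_ae 0] with z h1 h2 h3
      rw [h1, h2, Pi.smul_apply, h3, pow_zero, smul_eq_mul, mul_one]
    have h2 := mono_inner 3 3
    rw [if_pos rfl] at h2
    conv_lhs at h2 => arg 3; rw [h1]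
    rw [inner_smul_right, mono_inner, if_neg (by norm_num), mul_zero] at h2
    exact zero_ne_one h2

/-- `(x₀, x₁, x₂) ↦ x₀ + x₁ z + x₂ z²` -/
noncomputable def U3 : H3 →ₗᵢ[ℂ] L2T :=
  LinearMap.isometryOfInner
    { toFun := fun x : H3 => x 0 • mono 0 + x 1 • mono 1 + x 2 • mono 2
      map_add' := fun x y => by
        simp only [PiLp.add_apply]; module
      map_smul' := fun c x => by
        simp only [PiLp.smul_apply, smul_eq_mul, RingHom.id_apply]; module }
    (fun x y => by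
      change ⟪x 0 • mono 0 + x 1 • mono 1 + x 2 • mono 2,
        y 0 • mono 0 + y 1 • mono 1 + y 2 • mono 2⟫_ℂ = ⟪x, y⟫_ℂ
      simp only [inner_add_left, inner_add_right, inner_smul_left, inner_smul_right, mono_inner,
        inner3]
      norm_num
      ring)

theorem U3_apply (x : H3) : U3 x = x 0 • mono 0 + x 1 • mono 1 + x 2 • mono 2 := rfl

theorem U3_ae (x : H3) : (U3 x : ℂ → ℂ) =ᵐ[arc] fun z => x 0 + x 1 * z + x 2 * z ^ 2 := by
  rw [U3_apply]
  filter_upwards [Lp.coeFn_add (x 0 • mono 0 + x 1 • mono 1) (x 2 • mono 2),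
    Lp.coeFn_add (x 0 • mono 0) (x 1 • mono 1), Lp.coeFn_smul (x 0) (mono 0),
    Lp.coeFn_smul (x 1) (mono 1), Lp.coeFn_smul (x 2) (mono 2), mono_ae 0, mono_ae 1, mono_ae 2]
    with z h1 h2 h3 h4 h5 h6 h7 h8
  rw [h1, Pi.add_apply, h2, Pi.add_apply, h3, h4, h5, Pi.smul_apply, Pi.smul_apply, Pi.smul_apply,
    h6, h7, h8]
  simp only [smul_eq_mul, pow_zero, pow_one, mul_one]

/-- the symbol -/
noncomputable def phi (z : ℂ) : ℂ :=
  -z ^ 2 + Complex.I * z + 2 + Complex.I * conj z - conj z ^ 2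

theorem phi_cont : Continuous phi := by
  unfold phi
  have := Complex.continuous_conj
  fun_prop

theorem int_mono (a b : ℕ) (c : ℂ) :
    ∫ z, c * (z ^ a * conj (z ^ b)) ∂arc = if a = b then c else 0 := by
  rw [integral_const_mul, integral_mono]
  split_ifs <;> simp

theorem int_t (c : ℂ) (l m : ℕ) : Integrable (fun z : ℂ => c * (z ^ l * conj (z ^ m))) arc :=
  (memLp_of_cont _ (by fun_prop) 1).integrable le_rfl

theorem int5 (c1 c2 c3 c4 c5 : ℂ) (a1 a2 a3 a4 a5 b1 b2 b3 b4 b5 : ℕ) :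
    ∫ z, (c1 * (z ^ a1 * conj (z ^ b1)) + c2 * (z ^ a2 * conj (z ^ b2))
      + c3 * (z ^ a3 * conj (z ^ b3)) + c4 * (z ^ a4 * conj (z ^ b4))
      + c5 * (z ^ a5 * conj (z ^ b5))) ∂arc
    = (if a1 = b1 then c1 else 0) + (if a2 = b2 then c2 else 0) + (if a3 = b3 then c3 else 0)
      + (if a4 = b4 then c4 else 0) + (if a5 = b5 then c5 else 0) := by
  have i2 : Integrable (fun z : ℂ => c1 * (z ^ a1 * conj (z ^ b1))
      + c2 * (z ^ a2 * conj (z ^ b2))) arc := (int_t _ _ _).add (int_t _ _ _)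
  have i3 : Integrable (fun z : ℂ => c1 * (z ^ a1 * conj (z ^ b1))
      + c2 * (z ^ a2 * conj (z ^ b2)) + c3 * (z ^ a3 * conj (z ^ b3))) arc := i2.add (int_t _ _ _)
  have i4 : Integrable (fun z : ℂ => c1 * (z ^ a1 * conj (z ^ b1))
      + c2 * (z ^ a2 * conj (z ^ b2)) + c3 * (z ^ a3 * conj (z ^ b3))
      + c4 * (z ^ a4 * conj (z ^ b4))) arc := i3.add (int_t _ _ _)
  rw [integral_add i4 (int_t _ _ _), integral_add i3 (int_t _ _ _), integral_add i2 (int_t _ _ _),
    integral_add (int_t _ _ _) (int_t _ _ _)]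
  simp only [int_mono]

theorem int5' (c1 c2 c3 c4 c5 : ℂ) (a1 a2 a3 a4 a5 b1 b2 b3 b4 b5 : ℕ) :
    Integrable (fun z : ℂ => (c1 * (z ^ a1 * conj (z ^ b1)) + c2 * (z ^ a2 * conj (z ^ b2))
      + c3 * (z ^ a3 * conj (z ^ b3)) + c4 * (z ^ a4 * conj (z ^ b4))
      + c5 * (z ^ a5 * conj (z ^ b5)))) arc :=
  ((((int_t _ _ _).add (int_t _ _ _)).add (int_t _ _ _)).add (int_t _ _ _)).add (int_t _ _ _)

theorem U3_int (x y : H3) :
    ∫ z, conj (U3 y z) * (phi z * U3 x z) ∂arc = ⟪y, TT x⟫_ℂ := by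
  let s : Fin 3 → Fin 3 → ℂ := fun l m => conj (y m) * x l
  let F : Fin 3 → Fin 3 → ℂ → ℂ := fun l m z =>
    ((-(s l m)) * (z ^ ((l : ℕ) + 2) * conj (z ^ (m : ℕ)))
          + (Complex.I * s l m) * (z ^ ((l : ℕ) + 1) * conj (z ^ (m : ℕ)))
          + (2 * s l m) * (z ^ (l : ℕ) * conj (z ^ (m : ℕ)))
          + (Complex.I * s l m) * (z ^ (l : ℕ) * conj (z ^ ((m : ℕ) + 1)))
          + (-(s l m)) * (z ^ (l : ℕ) * conj (z ^ ((m : ℕ) + 2))))
  have hF : ∀ l m, Integrable (F l m) arc := fun l m => int5' _ _ _ _ _ _ _ _ _ _ _ _ _ _ _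
  have e1 : ∫ z, conj (U3 y z) * (phi z * U3 x z) ∂arc
      = ∫ z, ∑ l : Fin 3, ∑ m : Fin 3, F l m z ∂arc := by
    refine integral_congr_ae ?_
    filter_upwards [U3_ae x, U3_ae y] with z h1 h2
    rw [h1, h2]
    unfold phi
    simp only [F, s, Fin.sum_univ_three, map_add, map_mul, map_pow, Fin.val_zero, Fin.val_one,
      Fin.val_two]
    ring
  have e2 : ∀ l m : Fin 3, ∫ z, F l m z ∂arc
      = (if (l : ℕ) + 2 = m then -(s l m) else 0)
        + (if (l : ℕ) + 1 = m then Complex.I * (s l m) else 0)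
        + (if (l : ℕ) = m then 2 * (s l m) else 0)
        + (if (l : ℕ) = m + 1 then Complex.I * (s l m) else 0)
        + (if (l : ℕ) = m + 2 then -(s l m) else 0) := fun l m =>
    int5 _ _ _ _ _ _ _ _ _ _ _ _ _ _ _
  have e3 : ∀ l : Fin 3, ∫ z, ∑ m : Fin 3, F l m z ∂arc = ∑ m : Fin 3, ∫ z, F l m z ∂arc :=
    fun l => integral_finsetSum _ fun m _ => hF l m
  have e4 : ∫ z, ∑ l : Fin 3, ∑ m : Fin 3, F l m z ∂arc
      = ∑ l : Fin 3, ∑ m : Fin 3, ∫ z, F l m z ∂arc := by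
    rw [integral_finsetSum _ fun l _ => integrable_finsetSum _ fun m _ => hF l m]
    exact Finset.sum_congr rfl fun l _ => e3 l
  rw [e1, e4]
  simp only [e2, Fin.sum_univ_three, Fin.val_zero, Fin.val_one, Fin.val_two]
  rw [inner3, TT0, TT1, TT2]
  simp only [s]
  norm_num
  ring

theorem tto_TT : UnitarilyTTO TT := by
  have hφ : MemLp phi 2 arc := memLp_of_cont _ phi_cont 2
  refine ⟨mono 3, hφ.toLp phi, U3, isInner_mono3, fun f => ?_, fun x y _ => ?_⟩
  · rw [inK_cube, model_cube, Submodule.mem_span_range_iff_exists_fun]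
    constructor
    · rintro ⟨x, rfl⟩
      exact ⟨fun j => x j, by rw [Fin.sum_univ_three]; rfl⟩
    · rintro ⟨c, rfl⟩
      exact ⟨WithLp.toLp 2 c, by rw [Fin.sum_univ_three]; rfl⟩
  · rw [← U3_int]
    refine integral_congr_ae ?_
    filter_upwards [hφ.coeFn_toLp] with z h
    rw [h]

end Q87.TTZ
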