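import Mathlib

/-! # Abstract block construction for weakly dense orbits -/

open Filter Topology
open scoped ComplexConjugate

namespace Pool.Agent.Q87.WH

variable {X H : Type*} [NormedAddCommGroup X] [NormedSpace ℂ X] [NormedAddCommGroup H]
  [NormedSpace ℂ H]

/-- Quantitative weak approximation by orbits. -/
def WA (T : H →L[ℂ] H) : Prop :=
  ∀ (x₀ y : H) (κ δ τ : ℝ), 0 < δ → 0 < τ → ∃ x, ‖x - x₀‖ < δ ∧ ∃ N : ℕ,
    ∀ s : Finset (H →L[ℂ] ℂ), ∑ h ∈ s, ‖h‖ ^ 2 ≤ κ →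
      ∃ n ≤ N, ∑ h ∈ s, ‖h ((T ^ n) x - y)‖ ^ 2 < τ

structure Blk (P : X →L[ℂ] H) (T S : H →L[ℂ] H) (A : ℤ → X →L[ℂ] X) : Prop where
  hTS : ∀ y, T (S y) = y
  hS : ∀ y, Tendsto (fun n : ℕ => (S ^ n) y) atTop (𝓝 0)
  hA : ∀ m n u, A m (A n u) = A (m + n) u
  hAn : ∀ n u, ‖A n u‖ ≤ ‖u‖
  hTP : ∀ n u, T (P (A n u)) = P (A (n + 1) u)
  hW : ∀ (F Ψ : X) (ε : ℝ), 0 < ε → ∀ᶠ n : ℕ in atTop,
    ‖A 0 F + A n Ψ‖ ^ 2 ≤ ‖F‖ ^ 2 + 2 * ‖Ψ‖ ^ 2 + ε
  hW' : ∀ (F Ψ : X) (ε : ℝ), 0 < ε → ∀ᶠ n : ℕ in atTop,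
    ‖A 0 F + A (-(n : ℤ)) Ψ‖ ^ 2 ≤ ‖F‖ ^ 2 + 2 * ‖Ψ‖ ^ 2 + ε
  hd : DenseRange (fun u => P (A 0 u))

theorem unif {Y : Type*} [TopologicalSpace Y] {K : Set Y} (hK : IsCompact K) (f : ℕ → Y → ℝ)
    (g : Y → ℝ) (hg : Continuous g) (d : Y → Y → ℝ) (hd : ∀ y, Tendsto (d y) (𝓝 y) (𝓝 0))
    (hf : ∀ k y y', f k y' ≤ f k y + d y y') {ε : ℝ} (hε : 0 < ε)
    (h : ∀ y, ∀ ε > 0, ∀ᶠ k in atTop, f k y ≤ g y + ε) :
    ∀ᶠ k in atTop, ∀ y ∈ K, f k y ≤ g y + ε := by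
  refine hK.induction_on (p := fun t => ∀ᶠ k in atTop, ∀ y ∈ t, f k y ≤ g y + ε) ?_ ?_ ?_ ?_
  · exact Eventually.of_forall fun k y hy => absurd hy (Set.notMem_empty y)
  · intro s t hst ht
    filter_upwards [ht] with k hk y hy
    exact hk y (hst hy)
  · intro s t hs ht
    filter_upwards [hs, ht] with k h1 h2 y hy
    rcases hy with hy | hy
    · exact h1 y hy
    · exact h2 y hy
  · intro y _
    have h1 : ∀ᶠ y' in 𝓝 y, d y y' < ε / 3 := (hd y).eventually_lt_const (by linarith)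
    have h2 : ∀ᶠ y' in 𝓝 y, g y - ε / 3 < g y' :=
      (hg.tendsto y).eventually_const_lt (by linarith)
    refine ⟨{y' | d y y' < ε / 3 ∧ g y - ε / 3 < g y'}, mem_nhdsWithin_of_mem_nhds (h1.and h2), ?_⟩
    filter_upwards [h y (ε / 3) (by linarith)] with k hk y' hy'
    have := hf k y y'
    have h3 := hy'.1
    have h4 := hy'.2
    linarith

theorem Blk.unif {P : X →L[ℂ] H} {T S : H →L[ℂ] H} {A : ℤ → X →L[ℂ] X} (hB : Blk P T S A)
    (V : Submodule ℂ X) [FiniteDimensional ℂ V] (hV : ∀ F ∈ V, A 0 F = F) (Ψ : X) (R ε : ℝ)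
    (hε : 0 < ε) :
    ∀ᶠ k : ℕ in atTop, ∀ F ∈ V, ‖F‖ ≤ R → ∀ t : ℂ, ‖t‖ ≤ 1 →
      ‖F + t • A k Ψ‖ ≤ √(‖F‖ ^ 2 + 2 * (‖t‖ ^ 2 * ‖Ψ‖ ^ 2)) + ε := by
  have hK : IsCompact ((Metric.closedBall (0 : V) R) ×ˢ (Metric.closedBall (0 : ℂ) 1)) :=
    (isCompact_closedBall _ _).prod (isCompact_closedBall _ _)
  have h := WH.unif hK (fun k (y : V × ℂ) => ‖(y.1 : X) + y.2 • A k Ψ‖)
    (fun y => √(‖y.1‖ ^ 2 + 2 * (‖y.2‖ ^ 2 * ‖Ψ‖ ^ 2))) (by fun_prop)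
    (fun y y' => ‖y'.1 - y.1‖ + ‖y'.2 - y.2‖ * ‖Ψ‖) ?_ ?_ hε ?_
  · filter_upwards [h] with k hk F hF hFR t ht
    have := hk (⟨F, hF⟩, t) ⟨by simpa using hFR, by simpa using ht⟩
    simpa using this
  · intro y
    have : Continuous (fun y' : V × ℂ => ‖y'.1 - y.1‖ + ‖y'.2 - y.2‖ * ‖Ψ‖) := by fun_prop
    have h := this.tendsto y
    simpa using h
  · intro k y y'
    have h1 : (y'.1 : X) + y'.2 • A k Ψ
        = ((y.1 : X) + y.2 • A k Ψ) + (((y'.1 - y.1 : V) : X) + (y'.2 - y.2) • A k Ψ) := by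
      rw [Submodule.coe_sub, sub_smul]; abel
    show ‖(y'.1 : X) + y'.2 • A k Ψ‖ ≤ ‖(y.1 : X) + y.2 • A k Ψ‖ + (‖y'.1 - y.1‖ + ‖y'.2 - y.2‖ * ‖Ψ‖)
    rw [h1]
    refine (norm_add_le _ _).trans (add_le_add le_rfl ((norm_add_le _ _).trans ?_))
    refine add_le_add le_rfl ?_
    rw [norm_smul]
    exact mul_le_mul_of_nonneg_left (hB.hAn _ _) (norm_nonneg _)
  · intro y ε hε
    filter_upwards [hB.hW (y.1 : X) (y.2 • Ψ) (ε ^ 2) (by positivity)] with k hk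
    rw [hV _ y.1.2, map_smul, norm_smul, mul_pow] at hk
    show ‖(y.1 : X) + y.2 • A k Ψ‖ ≤ √(‖(y.1 : X)‖ ^ 2 + 2 * (‖y.2‖ ^ 2 * ‖Ψ‖ ^ 2)) + ε
    refine abs_le_of_sq_le_sq' ?_ (by positivity) |>.2
    have h0 : 0 ≤ ‖(y.1 : X)‖ ^ 2 + 2 * (‖y.2‖ ^ 2 * ‖Ψ‖ ^ 2) := by positivity
    have h1 := Real.sq_sqrt h0
    have h2 := Real.sqrt_nonneg (‖(y.1 : X)‖ ^ 2 + 2 * (‖y.2‖ ^ 2 * ‖Ψ‖ ^ 2))
    nlinarith [mul_nonneg h2 hε.le]

/-- The accumulated vectors. -/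
noncomputable def Psi (A : ℤ → X →L[ℂ] X) (u v : X) (n : ℕ → ℕ) (i : ℕ) : X :=
  A 0 u + ∑ j ∈ Finset.range i, A (-(n j : ℤ)) v

/-- The weights. -/
noncomputable def wt (u v : X) (i : ℕ) : ℝ := (‖u‖ ^ 2 + 1) + i * (2 * ‖v‖ ^ 2 + 1)

omit [NormedSpace ℂ X] in
theorem wt_pos (u v : X) (i : ℕ) : 0 < wt u v i := by unfold wt; positivity

noncomputable def eta (A : ℤ → X →L[ℂ] X) (u v : X) (n : ℕ → ℕ) (i : ℕ) : X :=
  ((√(wt u v i) : ℝ) : ℂ)⁻¹ • A (n i) (Psi A u v n i)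

/-- The invariant of the construction. -/
structure Inv (P : X →L[ℂ] H) (S : H →L[ℂ] H) (A : ℤ → X →L[ℂ] X) (u v : X) (η δ : ℝ)
    (m : ℕ) (n : ℕ → ℕ) : Prop where
  lt : ∀ j < m, ∀ i < j, n i < n j
  sm : ∀ j < m, ∀ i < j, ‖(S ^ (n j - n i)) (P (A 0 v))‖ ≤ δ
  sm0 : ∀ j < m, ‖(S ^ (n j)) (P (A 0 v))‖ ≤ δ
  psi : ∀ i ≤ m, ‖Psi A u v n i‖ ^ 2 ≤ wt u v i
  bes : ∀ c : ℕ → ℂ, ‖∑ i ∈ Finset.range m, c i • eta A u v n i‖
    ≤ (2 + m * η) * √(∑ i ∈ Finset.range m, ‖c i‖ ^ 2)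

theorem Psi_update (A : ℤ → X →L[ℂ] X) (u v : X) (n : ℕ → ℕ) (m k i : ℕ) (hi : i ≤ m) :
    Psi A u v (Function.update n m k) i = Psi A u v n i := by
  unfold Psi
  congr 1
  refine Finset.sum_congr rfl fun j hj => ?_
  rw [Function.update_of_ne]
  have := Finset.mem_range.1 hj
  omega

theorem eta_update (A : ℤ → X →L[ℂ] X) (u v : X) (n : ℕ → ℕ) (m k i : ℕ) (hi : i < m) :
    eta A u v (Function.update n m k) i = eta A u v n i := by
  unfold eta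
  rw [Psi_update _ _ _ _ _ _ _ hi.le, Function.update_of_ne hi.ne]

theorem Blk.A0_psi {P : X →L[ℂ] H} {T S : H →L[ℂ] H} {A : ℤ → X →L[ℂ] X} (hB : Blk P T S A)
    (u v : X) (n : ℕ → ℕ) (i : ℕ) : A 0 (Psi A u v n i) = Psi A u v n i := by
  unfold Psi
  rw [map_add, map_sum, hB.hA, zero_add]
  congr 1
  refine Finset.sum_congr rfl fun j _ => ?_
  rw [hB.hA, zero_add]

theorem Blk.step {P : X →L[ℂ] H} {T S : H →L[ℂ] H} {A : ℤ → X →L[ℂ] X} (hB : Blk P T S A)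
    (u v : X) {η δ : ℝ} (hη : 0 < η) (hδ : 0 < δ) (m : ℕ) (n : ℕ → ℕ) (h : Inv P S A u v η δ m n) :
    ∃ k, Inv P S A u v η δ (m + 1) (Function.update n m k) := by
  have hw := wt_pos u v m
  have hsw : 0 < √(wt u v m) := Real.sqrt_pos.2 hw
  -- the subspace spanned by the previous vectors
  set V : Submodule ℂ X := Submodule.span ℂ ((fun i => eta A u v n i) '' (Finset.range m : Set ℕ))
    with hVdef
  haveI : FiniteDimensional ℂ V :=
    FiniteDimensional.span_of_finite ℂ ((Finset.range m).finite_toSet.image _)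
  have hV : ∀ F ∈ V, A 0 F = F := by
    intro F hF
    induction hF using Submodule.span_induction with
    | mem x hx =>
      obtain ⟨i, _, rfl⟩ := hx
      show A 0 (eta A u v n i) = eta A u v n i
      unfold eta
      rw [map_smul, hB.hA, zero_add]
    | zero => rw [map_zero]
    | add x y _ _ hx hy => rw [map_add, hx, hy]
    | smul a x _ hx => rw [map_smul, hx]
  set Ψ : X := ((√(wt u v m) : ℝ) : ℂ)⁻¹ • Psi A u v n m with hΨ
  have hΨ1 : ‖Ψ‖ ^ 2 ≤ 1 := by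
    rw [hΨ, norm_smul, mul_pow, norm_inv, Complex.norm_real, Real.norm_of_nonneg hsw.le, inv_pow,
      Real.sq_sqrt hw.le, inv_mul_le_iff₀ hw, mul_one]
    exact h.psi m le_rfl
  have e1 : ∀ᶠ k : ℕ in atTop, ∀ i ∈ Finset.range m, n i < k := by
    rw [Filter.eventually_all_finset]
    exact fun i _ => eventually_gt_atTop (n i)
  have hsm : ∀ᶠ k : ℕ in atTop, ‖(S ^ k) (P (A 0 v))‖ < δ := by
    have := (hB.hS (P (A 0 v))).norm
    rw [norm_zero] at this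
    exact this.eventually_lt_const hδ
  have e2 : ∀ᶠ k : ℕ in atTop, ∀ i ∈ Finset.range m, ‖(S ^ (k - n i)) (P (A 0 v))‖ < δ := by
    rw [Filter.eventually_all_finset]
    exact fun i _ => (tendsto_sub_atTop_nat (n i)).eventually hsm
  have e3 := hB.hW' (Psi A u v n m) v 1 one_pos
  rw [hB.A0_psi] at e3
  have e4 := hB.unif V hV Ψ (2 + m * η) η hη
  obtain ⟨k, k1, k2, k2', k3, k4⟩ := (e1.and (e2.and (hsm.and (e3.and e4)))).exists
  refine ⟨k, ?_, ?_, ?_, ?_, ?_⟩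
  · intro j hj i hi
    rcases Nat.lt_succ_iff_lt_or_eq.1 hj with hj' | rfl
    · rw [Function.update_of_ne (by omega), Function.update_of_ne (by omega)]
      exact h.lt j hj' i hi
    · rw [Function.update_self, Function.update_of_ne (by omega)]
      exact k1 i (Finset.mem_range.2 hi)
  · intro j hj i hi
    rcases Nat.lt_succ_iff_lt_or_eq.1 hj with hj' | rfl
    · rw [Function.update_of_ne (by omega), Function.update_of_ne (by omega)]
      exact h.sm j hj' i hi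
    · rw [Function.update_self, Function.update_of_ne (by omega)]
      exact (k2 i (Finset.mem_range.2 hi)).le
  · intro j hj
    rcases Nat.lt_succ_iff_lt_or_eq.1 hj with hj' | rfl
    · rw [Function.update_of_ne (by omega)]
      exact h.sm0 j hj'
    · rw [Function.update_self]
      exact k2'.le
  · intro i hi
    rcases Nat.le_succ_iff.1 hi with hi' | rfl
    · rw [Psi_update _ _ _ _ _ _ _ hi']
      exact h.psi i hi'
    · have h1 : Psi A u v (Function.update n m k) (m + 1) = Psi A u v n m + A (-(k : ℤ)) v := by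
        have h2 := Psi_update A u v n m k m le_rfl
        unfold Psi at h2 ⊢
        rw [Finset.sum_range_succ, ← add_assoc, h2, Function.update_self]
      have h3 := h.psi m le_rfl
      rw [show (m.succ) = m + 1 from rfl, h1]
      have h4 : wt u v (m + 1) = wt u v m + (2 * ‖v‖ ^ 2 + 1) := by
        unfold wt; push_cast; ring
      rw [h4]
      linarith
  · intro c
    rw [Finset.sum_range_succ, Finset.sum_range_succ]
    have h1 : ∑ i ∈ Finset.range m, c i • eta A u v (Function.update n m k) i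
        = ∑ i ∈ Finset.range m, c i • eta A u v n i :=
      Finset.sum_congr rfl fun i hi => by
        rw [eta_update _ _ _ _ _ _ _ (Finset.mem_range.1 hi)]
    have h2 : eta A u v (Function.update n m k) m = A k Ψ := by
      unfold eta
      rw [Psi_update _ _ _ _ _ _ _ le_rfl, Function.update_self, hΨ, map_smul]
    rw [h1, h2]
    set q : ℝ := ∑ i ∈ Finset.range m, ‖c i‖ ^ 2 with hq
    have hq0 : 0 ≤ q := Finset.sum_nonneg fun i _ => by positivity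
    set r : ℝ := √(q + ‖c m‖ ^ 2) with hr
    have hr0 : 0 ≤ r := Real.sqrt_nonneg _
    have hrsq : r ^ 2 = q + ‖c m‖ ^ 2 := Real.sq_sqrt (by positivity)
    set F : X := ∑ i ∈ Finset.range m, c i • eta A u v n i with hF
    have hFV : F ∈ V := Submodule.sum_mem _ fun i hi =>
      Submodule.smul_mem _ _ (Submodule.subset_span ⟨i, hi, rfl⟩)
    have hFn : ‖F‖ ≤ (2 + m * η) * √q := h.bes c
    have hK0 : (0 : ℝ) ≤ 2 + m * η := by positivity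
    have hFsq : ‖F‖ ^ 2 ≤ (2 + m * η) ^ 2 * q := by
      calc ‖F‖ ^ 2 ≤ ((2 + m * η) * √q) ^ 2 := pow_le_pow_left₀ (norm_nonneg _) hFn 2
        _ = _ := by rw [mul_pow, Real.sq_sqrt hq0]
    rcases eq_or_lt_of_le hr0 with h0 | hrpos
    · have hqz : q + ‖c m‖ ^ 2 = 0 := by rw [← hrsq, ← h0]; norm_num
      have hcz : ‖c m‖ ^ 2 = 0 := by
        have : 0 ≤ ‖c m‖ ^ 2 := by positivity
        linarith
      have hqz' : q = 0 := by linarith [hqz, hcz]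
      have hcm : c m = 0 := by simpa using hcz
      have hF0 : ‖F‖ ≤ 0 := by rw [hqz'] at hFn; simpa using hFn
      rw [hcm, zero_smul, add_zero]
      exact hF0.trans (by positivity)
    · have hrC : ((r : ℝ) : ℂ) ≠ 0 := by exact_mod_cast hrpos.ne'
      have hn1 : ‖((r : ℝ) : ℂ)⁻¹ • F‖ ^ 2 = ‖F‖ ^ 2 / r ^ 2 := by
        rw [norm_smul, norm_inv, Complex.norm_real, Real.norm_of_nonneg hr0, mul_pow, inv_pow]
        field_simp
      have hn2 : ‖((r : ℝ) : ℂ)⁻¹ * c m‖ ^ 2 = ‖c m‖ ^ 2 / r ^ 2 := by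
        rw [norm_mul, norm_inv, Complex.norm_real, Real.norm_of_nonneg hr0, mul_pow, inv_pow]
        field_simp
      have hr2 : 0 < r ^ 2 := by positivity
      have h5 : ‖((r : ℝ) : ℂ)⁻¹ • F‖ ≤ 2 + m * η := by
        refine abs_le_of_sq_le_sq' ?_ hK0 |>.2
        rw [hn1, div_le_iff₀ hr2]
        refine hFsq.trans (mul_le_mul_of_nonneg_left ?_ (by positivity))
        rw [hrsq]
        have : 0 ≤ ‖c m‖ ^ 2 := by positivity
        linarith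
      have h6 : ‖((r : ℝ) : ℂ)⁻¹ * c m‖ ≤ 1 := by
        refine abs_le_of_sq_le_sq' ?_ zero_le_one |>.2
        rw [hn2, one_pow, div_le_one hr2, hrsq]
        linarith
      have h7 := k4 (((r : ℝ) : ℂ)⁻¹ • F) (V.smul_mem _ hFV) h5 (((r : ℝ) : ℂ)⁻¹ * c m) h6
      have h8 : ((r : ℝ) : ℂ)⁻¹ • F + (((r : ℝ) : ℂ)⁻¹ * c m) • A k Ψ
          = ((r : ℝ) : ℂ)⁻¹ • (F + c m • A k Ψ) := by
        rw [smul_add, smul_smul]
      have h9 : √(‖((r : ℝ) : ℂ)⁻¹ • F‖ ^ 2 + 2 * (‖((r : ℝ) : ℂ)⁻¹ * c m‖ ^ 2 * ‖Ψ‖ ^ 2))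
          ≤ 2 + m * η := by
        rw [Real.sqrt_le_left hK0, hn1, hn2]
        have h10 : ‖F‖ ^ 2 / r ^ 2 + 2 * (‖c m‖ ^ 2 / r ^ 2 * ‖Ψ‖ ^ 2)
            = (‖F‖ ^ 2 + 2 * (‖c m‖ ^ 2 * ‖Ψ‖ ^ 2)) / r ^ 2 := by ring
        rw [h10, div_le_iff₀ hr2, hrsq]
        have h11 : ‖c m‖ ^ 2 * ‖Ψ‖ ^ 2 ≤ ‖c m‖ ^ 2 := by
          have : 0 ≤ ‖c m‖ ^ 2 := by positivity
          nlinarith
        have h12 : (0 : ℝ) ≤ m * η := by positivity
        have h13 : (2 : ℝ) ≤ (2 + m * η) ^ 2 := by nlinarith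
        have h14 : 0 ≤ ‖c m‖ ^ 2 := by positivity
        nlinarith
      rw [h8, norm_smul, norm_inv, Complex.norm_real, Real.norm_of_nonneg hr0] at h7
      have h15 : r⁻¹ * ‖F + c m • A k Ψ‖ ≤ 2 + m * η + η := h7.trans (by linarith)
      rw [inv_mul_le_iff₀ hrpos] at h15
      refine h15.trans (le_of_eq ?_)
      push_cast; ring

theorem Blk.exists_inv {P : X →L[ℂ] H} {T S : H →L[ℂ] H} {A : ℤ → X →L[ℂ] X} (hB : Blk P T S A)
    (u v : X) {η δ : ℝ} (hη : 0 < η) (hδ : 0 < δ) (m : ℕ) : ∃ n, Inv P S A u v η δ m n := by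
  induction m with
  | zero =>
    refine ⟨fun _ => 0, fun j hj => absurd hj (Nat.not_lt_zero j), fun j hj => absurd hj (Nat.not_lt_zero j),
      fun j hj => absurd hj (Nat.not_lt_zero j), ?_, ?_⟩
    · intro i hi
      obtain rfl : i = 0 := by omega
      unfold Psi wt
      rw [Finset.range_zero, Finset.sum_empty, add_zero]
      have := hB.hAn 0 u
      have h2 : ‖A 0 u‖ ^ 2 ≤ ‖u‖ ^ 2 := pow_le_pow_left₀ (norm_nonneg _) this 2
      push_cast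
      linarith
    · intro c
      simp
  | succ m ih =>
    obtain ⟨n, hn⟩ := ih
    obtain ⟨k, hk⟩ := hB.step u v hη hδ m n hn
    exact ⟨_, hk⟩

end Pool.Agent.Q87.WH
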