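import Pool.Agent.Q87.WHTwo

/-! # Admissibility of the generic symbol -/

open Filter Topology Complex MeasureTheory AddCircle
open scoped Real ComplexConjugate ENNReal

namespace Pool.Agent.Q87.WH

/-- Finitely supported parameters. -/
def DD : Set ZZ := {z | ∃ m, 0 < cf z m ∧ ∀ j, m < j → cf z j = 0}

theorem dense_DD : Dense DD := by
  rw [dense_iff_inter_open]
  rintro U hU ⟨z, hz⟩
  obtain ⟨I, u, hu, hIU⟩ := isOpen_pi_iff.1 hU z hz
  obtain ⟨m, hm⟩ := I.exists_nat_subset_range
  refine ⟨fun j => if j < m then z j else if j = m then 1 else 0, hIU ?_, m, ?_, ?_⟩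
  · intro j hj
    have : j < m := Finset.mem_range.1 (hm hj)
    simp only [this, if_true]
    exact (hu j hj).2
  · show (0 : ℝ) < ((if m < m then z m else if m = m then 1 else 0 : unitInterval) : ℝ)
    simp
  · intro j hj
    show ((if j < m then z j else if j = m then 1 else 0 : unitInterval) : ℝ) = 0
    rw [if_neg (by omega), if_neg (by omega)]; rfl

theorem DD_wa {P : LL 2 →L[ℂ] LL 2} (hP : IsRiesz P) : ∀ z ∈ DD, WA (toep hP (bz z)) := by
  rintro z ⟨m, hm, hj⟩
  exact (sym_fin (cf_le z) (cf_nonneg z) hj hm).wa_two hP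

/-- The pieces of the circle. -/
def II (k : ℕ) : Set TT := {x | (k : ℝ) < sx x ∧ sx x < k + 1}

theorem measurable_II (k : ℕ) : MeasurableSet (II k) :=
  (measurableSet_lt measurable_const measurable_sx).inter (measurableSet_lt measurable_sx measurable_const)

theorem II_disj : Pairwise (Function.onFun Disjoint II) := by
  intro i j hij
  rw [Function.onFun, Set.disjoint_left]
  rintro x ⟨h1, h2⟩ ⟨h3, h4⟩
  rcases Nat.lt_or_gt_of_ne hij with h | h
  · have : (i : ℝ) + 1 ≤ j := by exact_mod_cast h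
    linarith
  · have : (j : ℝ) + 1 ≤ i := by exact_mod_cast h
    linarith

theorem ct_value (c : ℝ) : ct (π - 2 * Real.arctan c) = c := by
  unfold ct
  have h : (π - 2 * Real.arctan c) / 2 = π / 2 - Real.arctan c := by ring
  rw [h, Real.cos_pi_div_two_sub, Real.sin_pi_div_two_sub, ← Real.tan_eq_sin_div_cos, Real.tan_arctan]

theorem II_pos (k : ℕ) : 0 < (haarAddCircle (T := 2 * π)) (II k) := by
  have hmp := AddCircle.measurePreserving_mk (2 * π) 0
  rw [zero_add] at hmp
  have h1 : volume (II k) = (volume.restrict (Set.Ioc 0 (2 * π))) ((fun θ : ℝ => (θ : TT)) ⁻¹' (II k)) :=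
    (hmp.measure_preimage (measurable_II k).nullMeasurableSet).symm
  have h2 : 0 < (volume : Measure TT) (II k) := by
    rw [h1, Measure.restrict_apply (hmp.measurable (measurable_II k))]
    -- an open nonempty subset
    set J : Set ℝ := Set.Ioo 0 (2 * π) ∩ ct ⁻¹' (Set.Ioo (k : ℝ) (k + 1)) with hJ
    have hcont : ContinuousOn ct (Set.Ioo 0 (2 * π)) := fun θ hθ =>
      (hasDerivAt_ct hθ).continuousAt.continuousWithinAt
    have hJo : IsOpen J := hcont.isOpen_inter_preimage isOpen_Ioo isOpen_Ioo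
    have hJne : J.Nonempty := by
      refine ⟨π - 2 * Real.arctan (k + 1 / 2), ⟨?_, ?_⟩, ?_⟩
      · have := Real.arctan_lt_pi_div_two ((k : ℝ) + 1 / 2); linarith
      · have := Real.neg_pi_div_two_lt_arctan ((k : ℝ) + 1 / 2); linarith
      · show (k : ℝ) < ct _ ∧ ct _ < k + 1
        rw [ct_value]; constructor <;> linarith
    refine lt_of_lt_of_le (hJo.measure_pos volume hJne) (measure_mono ?_)
    rintro θ ⟨h3, h4⟩
    refine ⟨?_, ⟨h3.1, h3.2.le⟩⟩
    show (k : ℝ) < sx (θ : TT) ∧ sx (θ : TT) < k + 1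
    rw [sx_coe h3]; exact h4
  rw [volume_eq_smul_haarAddCircle, Measure.smul_apply, smul_eq_mul] at h2
  exact pos_of_mul_pos_right h2 zero_le

/-- The tail sums. -/
noncomputable def tl (k : ℕ) (z : ZZ) : ℝ := ∑' j : ℕ, if k < j then cf z j * (1 / 2) ^ j else 0

theorem continuous_tl (k : ℕ) : Continuous (tl k) := by
  unfold tl
  refine continuous_tsum (u := fun j : ℕ => (1 / 2 : ℝ) ^ j) ?_
    (summable_geometric_of_lt_one (by norm_num) (by norm_num)) ?_
  · intro j
    by_cases h : k < j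
    · simp only [h, if_true]
      exact (continuous_cf j).mul_const _
    · simp only [h, if_false]
      exact continuous_const
  · intro j z
    by_cases h : k < j
    · simp only [h, if_true]
      rw [norm_mul, Real.norm_eq_abs, Real.norm_of_nonneg (by positivity : (0 : ℝ) ≤ (1 / 2) ^ j)]
      have := cf_le z j
      have h2 : (0 : ℝ) < (1 / 2) ^ j := by positivity
      nlinarith
    · simp only [h, if_false, norm_zero]
      positivity

theorem hh_re_II {j : ℕ} {x : TT} {k : ℕ} (hx : x ∈ II k) :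
    (hh j (zz x)).re = if k < j then 1 else 0 := by
  obtain ⟨h1, h2⟩ := hx
  split_ifs with h
  · have h3 : sx x < (j : ℝ) := by
      have : (k : ℝ) + 1 ≤ j := by exact_mod_cast h
      linarith
    rw [hh_lt (cay_zz' x) h3]
    have : (I / (π : ℂ)) * (Real.log (j - sx x) : ℝ) = ((Real.log (j - sx x) / π : ℝ) : ℂ) * I := by
      push_cast; ring
    rw [this]; simp
  · have h3 : (j : ℝ) < sx x := by
      have : (j : ℝ) ≤ k := by exact_mod_cast (not_lt.1 h)
      linarith
    rw [hh_gt (cay_zz' x) h3]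
    have : (I / (π : ℂ)) * (Real.log (sx x - j) : ℝ) = ((Real.log (sx x - j) / π : ℝ) : ℂ) * I := by
      push_cast; ring
    rw [this]; simp

theorem norm_bz_II {z : ZZ} {x : TT} {k : ℕ} (hx : x ∈ II k) : ‖bz z x‖ = Real.exp (tl k z) := by
  unfold bz
  rw [norm_gg, one_mul, HS_re (cf_le z)]
  congr 1
  unfold tl
  refine tsum_congr fun j => ?_
  rw [hh_re_II hx]
  split_ifs <;> simp

theorem tl_pos {z : ZZ} (hz : ∀ k, 0 < cf z k) (k : ℕ) : 0 < tl k z := by
  unfold tl
  have hs : Summable (fun j : ℕ => if k < j then cf z j * (1 / 2 : ℝ) ^ j else 0) := by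
    refine Summable.of_norm_bounded (summable_geometric_of_lt_one (r := (1 / 2 : ℝ)) (by norm_num) (by norm_num)) fun j => ?_
    by_cases h : k < j
    · simp only [h, if_true]
      rw [norm_mul, Real.norm_eq_abs, Real.norm_of_nonneg (by positivity : (0 : ℝ) ≤ (1 / 2) ^ j)]
      have := cf_le z j
      have h2 : (0 : ℝ) < (1 / 2) ^ j := by positivity
      nlinarith
    · simp only [h, if_false, norm_zero]
      positivity
  refine hs.tsum_pos (fun j => ?_) (k + 1) ?_
  · split_ifs
    · exact mul_nonneg (cf_nonneg z j) (by positivity)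
    · exact le_rfl
  · rw [if_pos (Nat.lt_succ_self k)]
    exact mul_pos (hz _) (by positivity)

/-- The open dense sets of parameters. -/
noncomputable def WW : ℕ → Set ZZ := fun n =>
  {z | 0 < cf z n} ∩ {z | ∃ k, n ≤ k ∧ Real.exp (tl k z) - 1 < Real.exp (-1 / (haarAddCircle (T := 2 * π)).real (II k))}

theorem WW_open (n : ℕ) : IsOpen (WW n) := by
  unfold WW
  refine (isOpen_lt continuous_const (continuous_cf n)).inter ?_
  have : {z : ZZ | ∃ k, n ≤ k ∧ Real.exp (tl k z) - 1 < Real.exp (-1 / (haarAddCircle (T := 2 * π)).real (II k))}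
      = ⋃ k ∈ {k : ℕ | n ≤ k}, {z : ZZ | Real.exp (tl k z) - 1 < Real.exp (-1 / (haarAddCircle (T := 2 * π)).real (II k))} := by
    ext z; simp
  rw [this]
  refine isOpen_biUnion fun k _ => ?_
  exact isOpen_lt ((Real.continuous_exp.comp (continuous_tl k)).sub continuous_const) continuous_const

theorem WW_dense (n : ℕ) : Dense (WW n) := by
  rw [dense_iff_inter_open]
  rintro U hU ⟨z, hz⟩
  obtain ⟨I, u, hu, hIU⟩ := isOpen_pi_iff.1 hU z hz
  -- make the n-th coordinate positive inside U
  obtain ⟨m, hm⟩ := I.exists_nat_subset_range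
  have hnear : ∃ a : unitInterval, 0 < (a : ℝ) ∧ (n ∈ I → a ∈ u n) := by
    by_cases hn : n ∈ I
    · have hd : Dense {a : unitInterval | 0 < (a : ℝ)} := by
        intro a
        rw [Metric.mem_closure_iff]
        intro ε hε
        by_cases ha : 0 < (a : ℝ)
        · exact ⟨a, ha, by simpa using hε⟩
        · have ha0 : (a : ℝ) = 0 := le_antisymm (not_lt.1 ha) a.2.1
          refine ⟨⟨min (ε / 2) 1, by positivity, min_le_right _ _⟩, by
            show (0 : ℝ) < min (ε / 2) 1
            positivity, ?_⟩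
          rw [Subtype.dist_eq, Real.dist_eq, ha0, zero_sub, abs_neg, abs_of_nonneg (by positivity)]
          exact (min_le_left _ _).trans_lt (by linarith)
      obtain ⟨a, ha1, ha2⟩ := hd.inter_open_nonempty (u n) (hu n hn).1 ⟨z n, (hu n hn).2⟩
      exact ⟨a, ha2, fun _ => ha1⟩
    · exact ⟨1, by simp, fun h => absurd h hn⟩
  obtain ⟨a, ha0, hau⟩ := hnear
  set M := max m (n + 1) with hM
  set w : ZZ := fun j => if j = n then a else if j < M then z j else 0 with hw
  have hw0 : ∀ j, M ≤ j → cf w j = 0 := by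
    intro j hj
    have h1 : j ≠ n := by
      have := le_max_right m (n + 1); omega
    show ((if j = n then a else if j < M then z j else 0 : unitInterval) : ℝ) = 0
    rw [if_neg h1, if_neg (by omega)]; rfl
  refine ⟨w, hIU ?_, ?_, M, ?_, ?_⟩
  · intro j hj
    by_cases h : j = n
    · subst h
      simp only [hw, if_true]
      exact hau hj
    · have h1 : j < M := lt_of_lt_of_le (Finset.mem_range.1 (hm hj)) (le_max_left _ _)
      simp only [hw, h, if_false, h1, if_true]
      exact (hu j hj).2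
  · show (0 : ℝ) < ((if n = n then a else if n < M then z n else 0 : unitInterval) : ℝ)
    rw [if_pos rfl]; exact ha0
  · have := le_max_right m (n + 1); omega
  · have h1 : tl M w = 0 := by
      unfold tl
      have h2 : ∀ j : ℕ, (if M < j then cf w j * (1 / 2 : ℝ) ^ j else 0) = 0 := by
        intro j
        split_ifs with h
        · rw [hw0 j h.le, zero_mul]
        · rfl
      simp_rw [h2]
      exact tsum_zero
    rw [h1, Real.exp_zero, sub_self]
    exact Real.exp_pos _

instance baireZH : BaireSpace (ZZ × HH 2) := by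
  let _ : PseudoMetricSpace (ZZ × HH 2) := UniformSpace.pseudoMetricSpace (ZZ × HH 2)
  infer_instance

theorem norm_bz_gt {z : ZZ} (hz : ∀ k, 0 < cf z k) (x : TT) : 1 < ‖bz z x‖ := by
  obtain ⟨j, hj⟩ := exists_nat_gt (sx x)
  have h := HS_off (cf_le z) (cf_nonneg z) j hj
  have h2 : 0 < cf z j * (1 / 2) ^ j := mul_pos (hz j) (by positivity)
  unfold bz
  rw [norm_gg, one_mul]
  exact Real.one_lt_exp_iff.2 (by linarith)

theorem not_integrable {z : ZZ} (hz : ∀ k, 0 < cf z k) (hW : ∀ n, z ∈ WW n) :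
    ¬ Integrable (fun x => Real.log (‖bz z x‖ - 1)) (haarAddCircle (T := 2 * π)) := by
  intro hint
  set L : TT → ℝ := fun x => Real.log (‖bz z x‖ - 1) with hL
  have hs := (hasSum_integral_iUnion (f := fun x => ‖L x‖) (μ := haarAddCircle (T := 2 * π)) (s := II)
    measurable_II II_disj hint.norm.integrableOn).summable
  have ht := hs.tendsto_atTop_zero
  obtain ⟨N, hN⟩ := (ht.eventually_lt_const one_pos).exists_forall_of_atTop
  obtain ⟨k, hk, hlt⟩ := (hW N).2
  set m : ℝ := (haarAddCircle (T := 2 * π)).real (II k) with hm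
  have hm0 : 0 < m := by
    rw [hm, Measure.real, ENNReal.toReal_pos_iff]
    exact ⟨II_pos k, measure_lt_top _ _⟩
  have h1 : ∀ x ∈ II k, 1 / m ≤ ‖L x‖ := by
    intro x hx
    rw [hL]
    show 1 / m ≤ ‖Real.log (‖bz z x‖ - 1)‖
    rw [norm_bz_II hx]
    have h2 : 0 < Real.exp (tl k z) - 1 := by
      have := Real.one_lt_exp_iff.2 (tl_pos hz k)
      linarith
    have h3 : Real.log (Real.exp (tl k z) - 1) < -1 / m := by
      rw [← Real.log_exp (-1 / m)]
      exact Real.log_lt_log h2 hlt
    have h4 : -1 / m = -(1 / m) := by ring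
    rw [h4] at h3
    rw [Real.norm_eq_abs]
    have := neg_abs_le (Real.log (Real.exp (tl k z) - 1))
    linarith
  have h5 : (1 : ℝ) ≤ ∫ x in II k, ‖L x‖ ∂(haarAddCircle (T := 2 * π)) := by
    have h6 : ∫ _x in II k, (1 / m) ∂(haarAddCircle (T := 2 * π)) = 1 := by
      rw [setIntegral_const, smul_eq_mul, ← hm]
      field_simp
    rw [← h6]
    exact setIntegral_mono_on (integrable_const _).integrableOn hint.norm.integrableOn
      (measurable_II k) h1
  have := hN k hk
  linarith

theorem main_two : ∃ (g : ℂ → ℂ), DifferentiableOn ℂ g (Metric.ball 0 1) ∧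
    (∃ K, ∀ z ∈ Metric.ball (0 : ℂ) 1, ‖g z‖ ≤ K) ∧ (∀ z ∈ Metric.ball (0 : ℂ) 1, 1 < ‖g z‖) ∧
    (∀ᵐ x ∂(haarAddCircle (T := 2 * π)), Tendsto (fun r : ℝ => g (r * toCircle x)) (𝓝[<] 1) (𝓝 (g (toCircle x)))) ∧
    Bdd (fun x => g (zz x)) ∧
    (∀ᵐ x ∂(haarAddCircle (T := 2 * π)), 1 < ‖g (toCircle x)‖) ∧
    ¬ Integrable (fun x => Real.log (‖g (toCircle x)‖ - 1)) (haarAddCircle (T := 2 * π)) ∧
    ∃ (P : LL 2 →L[ℂ] LL 2) (hP : IsRiesz P) (x : HH 2),
      DenseRange (fun n : ℕ => toWeakSpace ℂ (HH 2) ((toep hP (fun x => g (zz x)) ^ n) x)) := by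
  obtain ⟨P, hP⟩ := exists_riesz_two
  have hsep : TopologicalSpace.SeparableSpace (HH 2) := separable_HH ENNReal.ofNat_ne_top two_le_two hP
  obtain ⟨z, x, hzW, hx⟩ := exists_generic (Z := ZZ) (H := HH 2) (fun z => toep hP (bz z))
    (cont_toep hP) DD dense_DD (DD_wa hP) WW WW_open WW_dense
  have hz : ∀ k, 0 < cf z k := fun k => (hzW k).1
  refine ⟨gg 1 (cf z), ?_, ⟨Real.exp (|1| * 2), ?_⟩, ?_, radial (fun _ hw => gg_diff (cf_le z) 1 hw),
    bz_bdd z, Eventually.of_forall (norm_bz_gt hz), not_integrable hz hzW, P, hP, x, hx⟩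
  · intro w hw
    have hw1 : ‖w‖ < 1 := by simpa using hw
    exact (gg_diff (cf_le z) 1 (good_of_re (re_cay_pos hw1))).differentiableWithinAt
  · intro w hw
    have hw1 : ‖w‖ < 1 := by simpa using hw
    exact gg_bound (cf_le z) (cf_nonneg z) 1 hw1.le
  · intro w hw
    have hw1 : ‖w‖ < 1 := by simpa using hw
    rw [norm_gg]
    refine Real.one_lt_exp_iff.2 ?_
    have := HS_re_pos (cf_le z) (cf_nonneg z) (k := 0) (hz 0) (re_cay_pos hw1)
    linarith

end Pool.Agent.Q87.WH
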