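import Pool.Agent.Q87.WHBdry

/-! # Analyticity of the boundary functions -/

open Filter Topology Complex MeasureTheory AddCircle
open scoped Real ComplexConjugate ENNReal

namespace Pool.Agent.Q87.WH


theorem zz_injective : Function.Injective zz := fun _ _ h =>
  AddCircle.injective_toCircle (T := 2 * π) Real.two_pi_pos.ne' (Subtype.ext h)

theorem zz_continuous : Continuous zz :=
  continuous_subtype_val.comp AddCircle.continuous_toCircle

theorem mu_singleton (x : TT) : (haarAddCircle (T := 2 * π)) {x} = 0 := by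
  have h1 : volume ({x} : Set TT) = 0 := by
    have := AddCircle.volume_closedBall (2 * π) (x := x) 0
    rw [Metric.closedBall_zero] at this
    rw [this]
    simp
  rw [volume_eq_smul_haarAddCircle, Measure.smul_apply, smul_eq_mul, mul_eq_zero] at h1
  refine h1.resolve_left ?_
  rw [ENNReal.ofReal_eq_zero, not_le]
  exact Real.two_pi_pos

instance instNSC : NullSingletonClass (haarAddCircle (T := 2 * π)) := ⟨mu_singleton⟩

theorem good_zz {x : TT} (h1 : zz x ≠ 1) (h : ∀ j : ℕ, sx x ≠ j) : Good (zz x) :=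
  good_of_im h1 (re_cay_zz x) h

theorem null_eq (s : ℝ) : (haarAddCircle (T := 2 * π)) {x | sx x = s ∧ zz x ≠ 1} = 0 := by
  refine Set.Subsingleton.measure_zero ?_ _
  rintro x ⟨hx, hx1⟩ y ⟨hy, hy1⟩
  apply zz_injective
  have h1 : cay (zz x) = cay (zz y) := by rw [cay_zz', cay_zz', hx, hy]
  unfold cay at h1
  have hx0 : 1 - zz x ≠ 0 := sub_ne_zero.2 (Ne.symm hx1)
  have hy0 : 1 - zz y ≠ 0 := sub_ne_zero.2 (Ne.symm hy1)
  rw [div_eq_div_iff hx0 hy0] at h1
  linear_combination h1 / 2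

theorem null_one : (haarAddCircle (T := 2 * π)) {x | zz x = 1} = 0 := by
  refine Set.Subsingleton.measure_zero ?_ _
  intro x hx y hy
  exact zz_injective (hx.trans hy.symm)

theorem ae_ne_one : ∀ᵐ x ∂(haarAddCircle (T := 2 * π)), zz x ≠ 1 := by
  rw [ae_iff]
  simpa using null_one

theorem ae_sx_ne : ∀ᵐ x ∂(haarAddCircle (T := 2 * π)), ∀ j : ℕ, sx x ≠ j := by
  rw [ae_all_iff]
  intro j
  have h1 : ∀ᵐ x ∂(haarAddCircle (T := 2 * π)), ¬ (sx x = j ∧ zz x ≠ 1) := by
    rw [ae_iff]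
    simpa using null_eq j
  filter_upwards [h1, ae_ne_one] with x h1 h2 h3
  exact h1 ⟨h3, h2⟩

theorem ae_good : ∀ᵐ x ∂(haarAddCircle (T := 2 * π)), Good (zz x) := by
  filter_upwards [ae_ne_one, ae_sx_ne] with x h1 h2
  exact good_zz h1 h2

theorem integral_circleAverage (F : ℂ → ℂ) (r : ℝ) :
    ∫ x, F (r * zz x) ∂(haarAddCircle (T := 2 * π)) = Real.circleAverage F 0 r := by
  rw [integral_haarAddCircle, Real.circleAverage, ← AddCircle.intervalIntegral_preimage (2 * π) 0]
  simp only [zz_coe, circleMap, zero_add]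

theorem coeff_of_good {G : ℂ → ℂ} (hd : ∀ z, Good z → DifferentiableAt ℂ G z) {K : ℝ}
    (hb : ∀ z, ‖z‖ ≤ 1 → ‖G z‖ ≤ K) (k : ℕ) :
    fourierCoeff (fun x : TT => G (zz x)) (-(k : ℤ)) = if k = 0 then G 0 else 0 := by
  have hball : ∀ z, ‖z‖ < 1 → DifferentiableAt ℂ G z := fun z hz => hd z (good_of_re (re_cay_pos hz))
  set r : ℕ → ℝ := fun j => 1 - 1 / ((j : ℝ) + 2) with hr
  have hr0 : ∀ j, 0 < r j := fun j => by
    have h1 : 1 / ((j : ℝ) + 2) < 1 := by
      rw [div_lt_one (by positivity)]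
      have : (0 : ℝ) ≤ j := Nat.cast_nonneg j
      linarith
    show 0 < 1 - 1 / ((j : ℝ) + 2)
    linarith
  have hr1 : ∀ j, r j < 1 := fun j => by
    have h1 : 0 < 1 / ((j : ℝ) + 2) := by positivity
    show 1 - 1 / ((j : ℝ) + 2) < 1
    linarith
  have hrt : Tendsto r atTop (𝓝 1) := by
    have h1 : Tendsto (fun j : ℕ => 1 / ((j : ℝ) + 2)) atTop (𝓝 0) := by
      have := (tendsto_natCast_atTop_atTop (R := ℝ)).atTop_add (tendsto_const_nhds (x := (2 : ℝ)))
      exact (tendsto_const_nhds (x := (1 : ℝ))).div_atTop this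
    have := (tendsto_const_nhds (x := (1 : ℝ)) (f := (atTop : Filter ℕ))).sub h1
    rw [sub_zero] at this
    exact this
  have hcont : ∀ j, Continuous (fun x : TT => G (r j * zz x)) := by
    intro j
    rw [continuous_iff_continuousAt]
    intro x
    have h1 : ‖(r j : ℂ) * zz x‖ < 1 := by
      rw [norm_mul, norm_zz, mul_one, Complex.norm_real, Real.norm_of_nonneg (hr0 j).le]
      exact hr1 j
    exact ((hball _ h1).continuousAt).comp (f := fun x : TT => (r j : ℂ) * zz x)
      ((continuous_const.mul zz_continuous).continuousAt)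
  have hfz : ∀ x : TT, (fourier (k : ℤ) x : ℂ) = zz x ^ k := by
    intro x
    induction k with
    | zero => simp
    | succ k ih => 
      rw [pow_succ, ← ih]
      push_cast
      rw [fourier_add]
      congr 1
      rw [fourier_one]; rfl
  have hval : ∀ j, ∫ x, (fourier (k : ℤ) x : ℂ) * G (r j * zz x) ∂(haarAddCircle (T := 2 * π)) = if k = 0 then G 0 else 0 := by
    intro j
    have h1 := integral_circleAverage (fun z => (z / r j) ^ k * G z) (r j)
    have hrj : (r j : ℂ) ≠ 0 := by exact_mod_cast (hr0 j).ne'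
    have h2 : ∫ x, (fourier (k : ℤ) x : ℂ) * G (r j * zz x) ∂(haarAddCircle (T := 2 * π))
        = ∫ x, ((r j * zz x) / r j) ^ k * G (r j * zz x) ∂(haarAddCircle (T := 2 * π)) := by
      refine integral_congr_ae (Eventually.of_forall fun x => ?_)
      show (fourier (k : ℤ) x : ℂ) * G (r j * zz x) = ((r j * zz x) / r j) ^ k * G (r j * zz x)
      rw [hfz, mul_div_cancel_left₀ _ hrj]
    rw [h2, h1]
    have h3 : DiffContOnCl ℂ (fun z => (z / r j) ^ k * G z) (Metric.ball 0 |r j|) := by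
      rw [abs_of_pos (hr0 j)]
      refine DifferentiableOn.diffContOnCl fun z hz => ?_
      have hz1 : ‖z‖ ≤ r j := by
        have := Metric.closure_ball_subset_closedBall hz
        simpa using this
      have := hball z (hz1.trans_lt (hr1 j))
      refine DifferentiableAt.differentiableWithinAt ?_
      exact ((differentiableAt_id.div_const _).pow k).mul this
    rw [h3.circleAverage]
    rcases k with _ | k
    · simp
    · simp
  have hlim : Tendsto (fun j => ∫ x, (fourier (k : ℤ) x : ℂ) * G (r j * zz x) ∂(haarAddCircle (T := 2 * π))) atTop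
      (𝓝 (∫ x, (fourier (k : ℤ) x : ℂ) * G (zz x) ∂(haarAddCircle (T := 2 * π)))) := by
    refine tendsto_integral_of_dominated_convergence (fun _ => K) ?_ (integrable_const _) ?_ ?_
    · intro j
      exact ((fourier (k : ℤ)).continuous.mul (hcont j)).aestronglyMeasurable
    · intro j
      refine Eventually.of_forall fun x => ?_
      rw [norm_mul, norm_fourier_apply, one_mul]
      refine hb _ ?_
      rw [norm_mul, norm_zz, mul_one, Complex.norm_real, Real.norm_of_nonneg (hr0 j).le]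
      exact (hr1 j).le
    · filter_upwards [ae_good] with x hx
      refine Tendsto.const_mul _ ?_
      have h1 : Tendsto (fun j => (r j : ℂ) * zz x) atTop (𝓝 (zz x)) := by
        have : Tendsto (fun j => (r j : ℂ) * zz x) atTop (𝓝 ((1 : ℝ) * zz x)) :=
          ((Complex.continuous_ofReal.tendsto 1).comp hrt).mul_const _
        simpa using this
      exact ((hd _ hx).continuousAt.tendsto).comp h1
  have h3 : fourierCoeff (fun x : TT => G (zz x)) (-(k : ℤ))
      = ∫ x, (fourier (k : ℤ) x : ℂ) * G (zz x) ∂(haarAddCircle (T := 2 * π)) := by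
    rw [fourierCoeff, neg_neg]
    rfl
  rw [h3]
  refine tendsto_nhds_unique hlim ?_
  simp_rw [hval]
  exact tendsto_const_nhds

theorem ana_of_good {G : ℂ → ℂ} (hd : ∀ z, Good z → DifferentiableAt ℂ G z) {K : ℝ}
    (hb : ∀ z, ‖z‖ ≤ 1 → ‖G z‖ ≤ K) : Ana (fun x : TT => G (zz x)) := by
  intro n hn
  obtain ⟨k, rfl⟩ : ∃ k : ℕ, n = -(k : ℤ) := ⟨(-n).toNat, by omega⟩
  rw [coeff_of_good hd hb, if_neg (by omega)]

theorem measurable_hh (R : ℝ) : Measurable (hh R) := by
  unfold hh cay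
  have : Measurable (fun z : ℂ => (1 + z) / (1 - z) - I * R) := by fun_prop
  exact ((Complex.measurable_log.comp this).const_mul _).const_add _

theorem measurable_HS {t : ℕ → ℝ} (ht : ∀ j, |t j| ≤ 1) : Measurable (HS t) := by
  refine measurable_of_tendsto_metrizable (f := fun N z => ∑ j ∈ Finset.range N, tm t z j) ?_ ?_
  · intro N
    refine Finset.measurable_fun_sum _ fun j _ => ?_
    unfold tm
    exact (measurable_hh _).const_mul _
  · rw [tendsto_pi_nhds]
    intro z
    exact (summable_tm ht z).hasSum.tendsto_sum_nat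

/-- The boundary function `exp(c · HS t)`. -/
noncomputable def gg (c : ℝ) (t : ℕ → ℝ) (z : ℂ) : ℂ := exp (c * HS t z)

theorem gg_bound {t : ℕ → ℝ} (ht : ∀ j, |t j| ≤ 1) (ht0 : ∀ j, 0 ≤ t j) (c : ℝ) {z : ℂ}
    (hz : ‖z‖ ≤ 1) : ‖gg c t z‖ ≤ Real.exp (|c| * 2) := by
  unfold gg
  rw [Complex.norm_exp, Complex.re_ofReal_mul, Real.exp_le_exp]
  have h1 := HS_re_nonneg ht ht0 (re_cay_nonneg hz)
  have h2 := HS_re_le ht ht0 (re_cay_nonneg hz)
  calc c * (HS t z).re ≤ |c| * (HS t z).re := mul_le_mul_of_nonneg_right (le_abs_self c) h1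
    _ ≤ |c| * 2 := mul_le_mul_of_nonneg_left h2 (abs_nonneg _)

theorem gg_diff {t : ℕ → ℝ} (ht : ∀ j, |t j| ≤ 1) (c : ℝ) {z : ℂ} (hz : Good z) :
    DifferentiableAt ℂ (gg c t) z := by
  unfold gg
  exact ((hz.differentiableAt ht).const_mul _).cexp

theorem gg_bdd {t : ℕ → ℝ} (ht : ∀ j, |t j| ≤ 1) (ht0 : ∀ j, 0 ≤ t j) (c : ℝ) :
    Bdd (fun x : TT => gg c t (zz x)) := by
  refine ⟨?_, Real.exp (|c| * 2), fun x => gg_bound ht ht0 c (norm_zz x).le⟩
  unfold gg
  exact Complex.measurable_exp.comp (((measurable_HS ht).comp zz_continuous.measurable).const_mul _)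

theorem gg_ana {t : ℕ → ℝ} (ht : ∀ j, |t j| ≤ 1) (ht0 : ∀ j, 0 ≤ t j) (c : ℝ) :
    Ana (fun x : TT => gg c t (zz x)) :=
  ana_of_good (fun _ hz => gg_diff ht c hz) (fun _ hz => gg_bound ht ht0 c hz)

theorem gg_coeff_zero {t : ℕ → ℝ} (ht : ∀ j, |t j| ≤ 1) (ht0 : ∀ j, 0 ≤ t j) (c : ℝ) :
    fourierCoeff (fun x : TT => gg c t (zz x)) 0 = gg c t 0 := by
  have := coeff_of_good (fun _ hz => gg_diff ht c hz) (fun _ hz => gg_bound ht ht0 c hz) 0
  simpa using this

theorem gg_pow (c : ℝ) (t : ℕ → ℝ) (z : ℂ) (n : ℕ) : gg c t z ^ n = gg (n * c) t z := by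
  unfold gg
  rw [← Complex.exp_nat_mul]; congr 1; push_cast; ring

theorem gg_mul_neg (c : ℝ) (t : ℕ → ℝ) (z : ℂ) : gg c t z * gg (-c) t z = 1 := by
  unfold gg
  rw [← Complex.exp_add, Complex.ofReal_neg, neg_mul, add_neg_cancel, Complex.exp_zero]

end Pool.Agent.Q87.WH
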