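import Pool.Agent.Q87.WHBlk

/-! # Baire category: from quantitative weak approximation to weakly dense orbits -/

open Filter Topology
open scoped ComplexConjugate

namespace Pool.Agent.Q87.WH

variable {H : Type*} [NormedAddCommGroup H] [NormedSpace ℂ H]

/-- Density in the weak topology from finite families of functionals. -/
theorem dense_weak {ι : Type*} {x : ι → H}
    (h : ∀ (y : H) (s : Finset (H →L[ℂ] ℂ)) (ε : ℝ), 0 < ε → ∃ i, ∀ f ∈ s, ‖f (x i) - f y‖ < ε) :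
    DenseRange (fun i => toWeakSpace ℂ H (x i)) := by
  intro y'
  obtain ⟨y, rfl⟩ := (toWeakSpace ℂ H).surjective y'
  rw [mem_closure_iff_nhds]
  intro t ht
  have h1 : t ∈ Filter.comap (fun (z : WeakSpace ℂ H) (f : H →L[ℂ] ℂ) => f ((toWeakSpace ℂ H).symm z))
      (𝓝 (fun f : H →L[ℂ] ℂ => f y)) := by
    have : 𝓝 (toWeakSpace ℂ H y) = Filter.comap
        (fun (z : WeakSpace ℂ H) (f : H →L[ℂ] ℂ) => f ((toWeakSpace ℂ H).symm z))
      (𝓝 (fun f : H →L[ℂ] ℂ => f y)) := nhds_induced _ _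
    rwa [this] at ht
  obtain ⟨u, hu, hut⟩ := Filter.mem_comap.1 h1
  rw [nhds_pi, Filter.mem_pi] at hu
  obtain ⟨I, hI, v, hv, hIv⟩ := hu
  -- choose ε
  have h2 : ∀ f ∈ hI.toFinset, ∃ ε > 0, Metric.ball (f y) ε ⊆ v f := fun f _ =>
    Metric.mem_nhds_iff.1 (hv f)
  choose! e he hev using h2
  obtain ⟨ε, hε, hεe⟩ : ∃ ε > 0, ∀ f ∈ hI.toFinset, ε ≤ e f := by
    rcases hI.toFinset.eq_empty_or_nonempty with h0 | h0
    · exact ⟨1, one_pos, by simp [h0]⟩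
    · exact ⟨hI.toFinset.inf' h0 e, (Finset.lt_inf'_iff h0).2 he, fun f hf => Finset.inf'_le e hf⟩
  obtain ⟨i, hi⟩ := h y hI.toFinset ε hε
  refine ⟨toWeakSpace ℂ H (x i), hut (hIv fun f hf => hev f (hI.mem_toFinset.2 hf) ?_), ⟨i, rfl⟩⟩
  rw [Metric.mem_ball, dist_eq_norm]
  exact (hi f (hI.mem_toFinset.2 hf)).trans_le (hεe f (hI.mem_toFinset.2 hf))

variable {Z : Type*} [TopologicalSpace Z]

/-- The Baire category theorem for pairs (symbol, vector). -/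
theorem exists_generic [BaireSpace (Z × H)] [Nonempty Z] [TopologicalSpace.SeparableSpace H]
    (T : Z → H →L[ℂ] H) (hT : ∀ n : ℕ, Continuous (fun q : Z × H => (T q.1 ^ n) q.2))
    (D : Set Z) (hD : Dense D) (hDT : ∀ z ∈ D, WA (T z))
    (W : ℕ → Set Z) (hWo : ∀ k, IsOpen (W k)) (hWd : ∀ k, Dense (W k)) :
    ∃ z x, (∀ k, z ∈ W k) ∧ DenseRange (fun n : ℕ => toWeakSpace ℂ H ((T z ^ n) x)) := by
  set G : ℕ × ℕ → Set (Z × H) := fun jk => {q | ∃ N : ℕ, ∀ s : Finset (H →L[ℂ] ℂ),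
    ∑ h ∈ s, ‖h‖ ^ 2 ≤ (jk.2 : ℝ) → ∃ n ≤ N,
      ∑ h ∈ s, ‖h ((T q.1 ^ n) q.2 - TopologicalSpace.denseSeq H jk.1)‖ ^ 2 < 1 / ((jk.2 : ℝ) + 1)} with hG
  have hGd : ∀ jk, Dense (interior (G jk)) := by
    rintro ⟨j, k⟩
    rw [dense_iff_inter_open]
    rintro U hU ⟨⟨z₀, x₀⟩, hq⟩
    obtain ⟨U1, hU1, U2, hU2, hU12⟩ := mem_nhds_prod_iff.1 (hU.mem_nhds hq)
    obtain ⟨z, hzD, hzU⟩ := hD.inter_nhds_nonempty hU1
    obtain ⟨δ, hδ, hδU⟩ := Metric.mem_nhds_iff.1 hU2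
    obtain ⟨x, hx, N, hN⟩ := hDT z hzD x₀ (TopologicalSpace.denseSeq H j) k δ (1 / (4 * ((k : ℝ) + 1))) hδ (by positivity)
    refine ⟨(z, x), hU12 ⟨hzU, hδU (by rw [Metric.mem_ball, dist_eq_norm]; exact hx)⟩, ?_⟩
    rw [mem_interior_iff_mem_nhds]
    have hr : ∀ᶠ q : Z × H in 𝓝 (z, x), ∀ n ∈ Finset.range (N + 1),
        ‖(T q.1 ^ n) q.2 - (T z ^ n) x‖ < 1 / (4 * ((k : ℝ) + 1)) := by
      rw [Filter.eventually_all_finset]
      intro n _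
      have h1 : Tendsto (fun q : Z × H => ‖(T q.1 ^ n) q.2 - (T z ^ n) x‖) (𝓝 (z, x)) (𝓝 0) := by
        have := ((hT n).sub continuous_const).norm.tendsto (z, x) (f := fun q : Z × H =>
          ‖(T q.1 ^ n) q.2 - (T z ^ n) x‖)
        simpa using this
      exact h1.eventually_lt_const (by positivity)
    filter_upwards [hr] with q hq'
    refine ⟨N, fun s hs => ?_⟩
    obtain ⟨n, hn, hlt⟩ := hN s hs
    refine ⟨n, hn, ?_⟩
    have h2 : (T q.1 ^ n) q.2 - TopologicalSpace.denseSeq H j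
        = ((T z ^ n) x - TopologicalSpace.denseSeq H j) + ((T q.1 ^ n) q.2 - (T z ^ n) x) := by abel
    show ∑ h ∈ s, ‖h ((T q.1 ^ n) q.2 - TopologicalSpace.denseSeq H j)‖ ^ 2 < 1 / ((k : ℝ) + 1)
    rw [h2]
    refine (sum_split s _ _ hs).trans_lt ?_
    have h3 := hq' n (Finset.mem_range.2 (by omega))
    set c : ℝ := (k : ℝ) + 1 with hc
    have hc1 : 1 ≤ c := by rw [hc]; have : (0 : ℝ) ≤ k := Nat.cast_nonneg k; linarith
    have h4 : ‖(T q.1 ^ n) q.2 - (T z ^ n) x‖ ^ 2 ≤ (1 / (4 * c)) ^ 2 :=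
      pow_le_pow_left₀ (norm_nonneg _) h3.le 2
    have h5 : (k : ℝ) * ‖(T q.1 ^ n) q.2 - (T z ^ n) x‖ ^ 2 ≤ c * (1 / (4 * c)) ^ 2 :=
      mul_le_mul (by rw [hc]; linarith) h4 (by positivity) (by positivity)
    have h6 : c * (1 / (4 * c)) ^ 2 = 1 / (16 * c) := by field_simp; norm_num
    have h7 : 1 / (4 * c) = (1 / c) / 4 := by field_simp
    have h8 : 1 / (16 * c) = (1 / c) / 16 := by field_simp
    have h9 : 0 < 1 / c := by positivity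
    rw [h6, h8] at h5
    rw [h7] at hlt
    linarith
  have hdense : Dense (⋂ i : (ℕ × ℕ) ⊕ ℕ, Sum.elim (fun jk => interior (G jk))
      (fun k => (Prod.fst ⁻¹' (W k) : Set (Z × H))) i) := by
    refine dense_iInter_of_isOpen ?_ ?_
    · rintro (jk | k)
      · exact isOpen_interior
      · exact (hWo k).preimage continuous_fst
    · rintro (jk | k)
      · exact hGd jk
      · exact (hWd k).preimage isOpenMap_fst
  obtain ⟨⟨z, x⟩, hzx⟩ := hdense.nonempty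
  rw [Set.mem_iInter] at hzx
  refine ⟨z, x, fun k => hzx (Sum.inr k), ?_⟩
  refine dense_weak fun y s ε hε => ?_
  set κ : ℝ := ∑ h ∈ s, ‖h‖ ^ 2 with hκ
  have hκ0 : 0 ≤ κ := Finset.sum_nonneg fun _ _ => by positivity
  obtain ⟨ρ, hρ0, hρ⟩ : ∃ ρ : ℝ, 0 < ρ ∧ κ * ρ ^ 2 < ε ^ 2 / 4 := by
    refine ⟨√(ε ^ 2 / (8 * (κ + 1))), Real.sqrt_pos.2 (by positivity), ?_⟩
    rw [Real.sq_sqrt (by positivity), mul_div_assoc', div_lt_div_iff₀ (by positivity) (by norm_num)]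
    have : 0 < ε ^ 2 := by positivity
    nlinarith
  obtain ⟨j, hj⟩ := (TopologicalSpace.denseRange_denseSeq H).exists_dist_lt y hρ0
  obtain ⟨k, hk⟩ := exists_nat_gt (max κ (4 / ε ^ 2))
  have hk1 : κ ≤ k := (le_max_left _ _).trans hk.le
  have hk2 : 4 / ε ^ 2 < k := (le_max_right _ _).trans_lt hk
  obtain ⟨N, hN⟩ := interior_subset (hzx (Sum.inl (j, k)))
  obtain ⟨n, _, hlt⟩ := hN s hk1
  refine ⟨n, fun f hf => ?_⟩
  have h2 : (T z ^ n) x - y = ((T z ^ n) x - TopologicalSpace.denseSeq H j) + (TopologicalSpace.denseSeq H j - y) := by abel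
  have h3 := sum_split s ((T z ^ n) x - TopologicalSpace.denseSeq H j) (TopologicalSpace.denseSeq H j - y) le_rfl
  rw [← h2] at h3
  have h4 : ‖f ((T z ^ n) x - y)‖ ^ 2 ≤ ∑ h ∈ s, ‖h ((T z ^ n) x - y)‖ ^ 2 :=
    Finset.single_le_sum (f := fun h : H →L[ℂ] ℂ => ‖h ((T z ^ n) x - y)‖ ^ 2)
      (fun _ _ => by positivity) hf
  have h5 : ‖TopologicalSpace.denseSeq H j - y‖ ^ 2 ≤ ρ ^ 2 := by
    rw [dist_comm, dist_eq_norm] at hj
    exact pow_le_pow_left₀ (norm_nonneg _) hj.le 2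
  have h6 : κ * ‖TopologicalSpace.denseSeq H j - y‖ ^ 2 ≤ κ * ρ ^ 2 := mul_le_mul_of_nonneg_left h5 hκ0
  have h7 : 1 / ((k : ℝ) + 1) < ε ^ 2 / 4 := by
    rw [div_lt_iff₀ (by positivity)] at hk2 ⊢
    nlinarith [sq_nonneg ε]
  have h8 : ∑ h ∈ s, ‖h ((T z ^ n) x - TopologicalSpace.denseSeq H j)‖ ^ 2 < 1 / ((k : ℝ) + 1) := hlt
  rw [← map_sub]
  refine abs_lt_of_sq_lt_sq' ?_ hε.le |>.2
  linarith

end Pool.Agent.Q87.WH
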