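import Pool.Agent.Q87.WHCirc

/-! # Hardy spaces `H^p` and coanalytic Toeplitz operators -/

open MeasureTheory AddCircle Filter Topology Complex
open scoped Real ENNReal ComplexConjugate

namespace Pool.Agent.Q87.WH


variable {p : ℝ≥0∞} [hp1 : Fact (1 ≤ p)]

/-- Analytic symbols: the Fourier coefficients of negative index vanish. -/
def Ana (m : TT → ℂ) : Prop := ∀ n : ℤ, n < 0 → fourierCoeff m n = 0

theorem riesz_fourier {P : LL p →L[ℂ] LL p} (hP : IsRiesz P) (h2 : 2 ≤ p) (n : ℤ) :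
    P (fourierLp p n) = if 0 ≤ n then (fourierLp p n : LL p) else 0 := by
  refine ext_coeff h2 fun k => ?_
  rw [hP, coeffL_fourierLp]
  split_ifs with h1 h3 h4 h5 h6
  · rw [coeffL_fourierLp, if_pos h3]
  · exfalso; omega
  · rw [coeffL_fourierLp, if_neg h3]
  · rw [map_zero]
  · rw [coeffL_fourierLp, if_neg]; omega
  · rw [map_zero]

theorem coeff_conj_mul {m : TT → ℂ} (hm : Bdd m) (k n : ℤ) :
    coeffL p n (mul p (fun x => conj (m x)) (fourierLp p k)) = conj (fourierCoeff m (k - n)) := by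
  rw [coeffL_apply, fourierCoeff, fourierCoeff, ← integral_conj]
  refine integral_congr_ae ?_
  filter_upwards [mul_ae hm.conj (fourierLp p k), coeFn_fourierLp (T := 2 * π) p k] with x h1 h2
  rw [h1, h2, smul_eq_mul, smul_eq_mul, map_mul, ← fourier_neg, neg_neg]
  rw [show k - n = -n + k by ring, fourier_add]
  ring

theorem riesz_conj {P : LL p →L[ℂ] LL p} (hP : IsRiesz P) (h2 : 2 ≤ p) (hp : p ≠ ∞)
    {m : TT → ℂ} (hm : Bdd m) (ha : Ana m) (f : LL p) :
    P (mul p (fun x => conj (m x)) (P f)) = P (mul p (fun x => conj (m x)) f) := by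
  have : (P.comp (mul p (fun x => conj (m x)))).comp P = P.comp (mul p (fun x => conj (m x))) := by
    refine ext_fourier hp fun k => ?_
    simp only [ContinuousLinearMap.comp_apply]
    rw [riesz_fourier hP h2]
    split_ifs with hk
    · rfl
    · rw [map_zero, map_zero]
      symm
      refine ext_coeff h2 fun n => ?_
      rw [hP, map_zero, coeff_conj_mul hm]
      split_ifs with hn
      · rw [ha _ (by omega), map_zero]
      · rfl
  exact DFunLike.congr_fun this f

/-- The action on exponentials. -/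
theorem riesz_conj_fourier {P : LL p →L[ℂ] LL p} (hP : IsRiesz P) (h2 : 2 ≤ p)
    {m : TT → ℂ} (hm : Bdd m) (ha : Ana m) (k : ℕ) :
    P (mul p (fun x => conj (m x)) (fourierLp p k))
      = ∑ j ∈ Finset.range (k + 1), conj (fourierCoeff m ((k : ℤ) - j)) • (fourierLp p (j : ℤ) : LL p) := by
  refine ext_coeff h2 fun n => ?_
  rw [hP, coeff_conj_mul hm, map_sum]
  simp only [map_smul, coeffL_fourierLp, smul_eq_mul, mul_ite, mul_one, mul_zero]
  split_ifs with hn
  · obtain ⟨n, rfl⟩ := Int.eq_ofNat_of_zero_le hn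
    by_cases hk : n ≤ k
    · rw [Finset.sum_eq_single n]
      · rw [if_pos rfl]
      · intro j _ hj
        rw [if_neg]; exact_mod_cast hj.symm
      · intro h; exact absurd (Finset.mem_range.2 (by omega)) h
    · rw [ha _ (by omega), map_zero]
      symm
      refine Finset.sum_eq_zero fun j hj => ?_
      rw [if_neg]
      have := Finset.mem_range.1 hj
      omega
  · symm
    refine Finset.sum_eq_zero fun j hj => ?_
    rw [if_neg]; omega

theorem hh_add {f g : LL p} (hf : ∀ n : ℤ, n < 0 → fourierCoeff (f : TT → ℂ) n = 0)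
    (hg : ∀ n : ℤ, n < 0 → fourierCoeff (g : TT → ℂ) n = 0) :
    ∀ n : ℤ, n < 0 → fourierCoeff ((f + g : LL p) : TT → ℂ) n = 0 := fun n hn => by
  have h := map_add (coeffL p n) f g
  rw [coeffL_apply, coeffL_apply, coeffL_apply, hf n hn, hg n hn, add_zero] at h
  exact h

theorem hh_zero : ∀ n : ℤ, n < 0 → fourierCoeff ((0 : LL p) : TT → ℂ) n = 0 :=
  fun n _ => map_zero (coeffL p n)

theorem hh_smul (c : ℂ) {f : LL p} (hf : ∀ n : ℤ, n < 0 → fourierCoeff (f : TT → ℂ) n = 0) :
    ∀ n : ℤ, n < 0 → fourierCoeff ((c • f : LL p) : TT → ℂ) n = 0 := fun n hn => by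
  have h := map_smul (coeffL p n) c f
  rw [coeffL_apply, coeffL_apply, hf n hn, smul_zero] at h
  exact h

/-- The Hardy space `H^p` as a closed subspace of `L^p` of the circle: the Fourier coefficients of
negative index vanish. -/
def HH (p : ℝ≥0∞) [Fact (1 ≤ p)] : Submodule ℂ (LL p) where
  carrier := {f | ∀ n : ℤ, n < 0 → fourierCoeff (f : TT → ℂ) n = 0}
  add_mem' := fun hf hg => hh_add hf hg
  zero_mem' := hh_zero
  smul_mem' := fun c _ hf => hh_smul c hf

theorem HH_closed : IsClosed (HH p : Set (LL p)) := by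
  have : (HH p : Set (LL p)) = ⋂ n : {n : ℤ // n < 0}, {f | coeffL p n f = 0} := by
    ext f
    simp only [Set.mem_iInter, Subtype.forall]
    exact Iff.rfl
  rw [this]
  exact isClosed_iInter fun n => isClosed_eq (coeffL p n).continuous continuous_const

instance : CompleteSpace (HH p) := HH_closed.completeSpace_coe

theorem riesz_mem {P : LL p →L[ℂ] LL p} (hP : IsRiesz P) (f : LL p) : P f ∈ HH p := by
  intro n hn
  have := hP f n
  rw [if_neg (by omega)] at this
  exact this

theorem riesz_of_mem {P : LL p →L[ℂ] LL p} (hP : IsRiesz P) (h2 : 2 ≤ p) {f : LL p} (hf : f ∈ HH p) :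
    P f = f := by
  refine ext_coeff h2 fun n => ?_
  rw [hP]
  split_ifs with hn
  · rfl
  · exact (hf n (by omega)).symm

/-- The Riesz projection onto `H^p`. -/
noncomputable def pr {P : LL p →L[ℂ] LL p} (hP : IsRiesz P) : LL p →L[ℂ] HH p :=
  P.codRestrict (HH p) (riesz_mem hP)

theorem pr_coe {P : LL p →L[ℂ] LL p} (hP : IsRiesz P) (f : LL p) : ((pr hP f : HH p) : LL p) = P f :=
  rfl

/-- The coanalytic Toeplitz operator `f ↦ P₊(m̄ f)` on `H^p`. -/
noncomputable def toep {P : LL p →L[ℂ] LL p} (hP : IsRiesz P) (m : TT → ℂ) : HH p →L[ℂ] HH p :=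
  ((pr hP).comp (mul p (fun x => conj (m x)))).comp (HH p).subtypeL

theorem toep_apply {P : LL p →L[ℂ] LL p} (hP : IsRiesz P) (m : TT → ℂ) (f : HH p) :
    toep hP m f = pr hP (mul p (fun x => conj (m x)) (f : LL p)) := rfl

theorem toep_coeff {P : LL p →L[ℂ] LL p} (hP : IsRiesz P) {m : TT → ℂ} (hm : Bdd m) (f : HH p)
    (n : ℤ) (hn : 0 ≤ n) :
    fourierCoeff ((toep hP m f : HH p) : LL p) n
      = fourierCoeff (fun x => conj (m x) * (f : LL p) x) n := by
  have h := hP (mul p (fun x => conj (m x)) (f : LL p)) n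
  rw [if_pos hn] at h
  refine h.trans ?_
  exact congrFun (fourierCoeff_congr_ae (mul_ae hm.conj (f : LL p))) n

theorem toep_pr {P : LL p →L[ℂ] LL p} (hP : IsRiesz P) (h2 : 2 ≤ p) (hp : p ≠ ∞)
    {m : TT → ℂ} (hm : Bdd m) (ha : Ana m) (f : LL p) :
    toep hP m (pr hP f) = pr hP (mul p (fun x => conj (m x)) f) :=
  Subtype.ext (riesz_conj hP h2 hp hm ha f)

theorem pr_of_mem {P : LL p →L[ℂ] LL p} (hP : IsRiesz P) (h2 : 2 ≤ p) (f : HH p) :
    pr hP (f : LL p) = f := Subtype.ext (riesz_of_mem hP h2 f.2)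

theorem toep_pow_pr {P : LL p →L[ℂ] LL p} (hP : IsRiesz P) (h2 : 2 ≤ p) (hp : p ≠ ∞)
    {m : TT → ℂ} (hm : Bdd m) (ha : Ana m) (f : LL p) (n : ℕ) :
    (toep hP m ^ n) (pr hP f) = pr hP (mul p (fun x => conj (m x) ^ n) f) := by
  induction n with
  | zero => 
    simp only [pow_zero]
    rw [mul_one']; rfl
  | succ n ih =>
    rw [pow_succ', mul_apply_eq_comp, ih, toep_pr hP h2 hp hm ha, mul_mul hm.conj (hm.conj.pow n)]
    simp only [pow_succ']

end Pool.Agent.Q87.WH
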