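import Pool.Agent.Q87.WHFun
import Pool.Agent.Q87.WHToep

/-! # Boundary values on the circle and weak nullness of powers -/

open Filter Topology Complex MeasureTheory AddCircle
open scoped Real ComplexConjugate ENNReal

namespace Pool.Agent.Q87.WH


/-! ### Riemann-Lebesgue with a phase -/

theorem rl_nat (G : ℝ → ℂ) :
    Tendsto (fun n : ℕ => ∫ y : ℝ, exp (I * (n * y)) * G y) atTop (𝓝 0) := by
  have h := Real.tendsto_integral_exp_smul_cocompact G
  have h1 : Tendsto (fun n : ℕ => -(n : ℝ) / (2 * π)) atTop (cocompact ℝ) := by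
    rw [cocompact_eq_atBot_atTop]
    refine Tendsto.mono_right ?_ le_sup_left
    have : Tendsto (fun n : ℕ => -((n : ℝ) / (2 * π))) atTop atBot :=
      tendsto_neg_atTop_atBot.comp (tendsto_natCast_atTop_atTop.atTop_div_const (by positivity))
    refine this.congr fun n => by ring
  refine (h.comp h1).congr fun n => ?_
  refine integral_congr_ae (Eventually.of_forall fun y => ?_)
  show (Real.fourierChar (-(y * (-(n : ℝ) / (2 * π)))) : Circle) • G y = _
  rw [Circle.smul_def, Real.fourierChar_apply, smul_eq_mul]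
  congr 2
  have : (π : ℂ) ≠ 0 := by exact_mod_cast Real.pi_ne_zero
  push_cast
  field_simp

theorem rl {J : Set ℝ} (hJ : MeasurableSet J) {γ γ' : ℝ → ℝ}
    (hγ : ∀ x ∈ J, HasDerivAt γ (γ' x) x) (hinj : Set.InjOn γ J) (hne : ∀ x ∈ J, γ' x ≠ 0)
    (f : ℝ → ℂ) :
    Tendsto (fun n : ℕ => ∫ x in J, exp (I * (n * γ x)) * f x) atTop (𝓝 0) := by
  classical
  set G : ℝ → ℂ := fun y => ((|γ' (Function.invFunOn γ J y)| : ℝ) : ℂ)⁻¹ * f (Function.invFunOn γ J y)
  have h1 := rl_nat ((γ '' J).indicator G)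
  refine h1.congr fun n => ?_
  have hm : MeasurableSet (γ '' J) := 
    measurable_image_of_fderivWithin hJ (fun x hx => (hγ x hx).hasFDerivAt.hasFDerivWithinAt) hinj
  have h2 : ∫ y : ℝ, exp (I * (n * y)) * (γ '' J).indicator G y
      = ∫ y in γ '' J, exp (I * (n * y)) * G y := by
    rw [← integral_indicator hm]
    refine integral_congr_ae (Eventually.of_forall fun y => ?_)
    by_cases hy : y ∈ γ '' J
    · simp [hy]
    · simp [hy]
  rw [h2, integral_image_eq_integral_abs_deriv_smul hJ (fun x hx => (hγ x hx).hasDerivWithinAt) hinj]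
  refine setIntegral_congr_fun hJ fun x hx => ?_
  have h3 : Function.invFunOn γ J (γ x) = x := hinj.leftInvOn_invFunOn hx
  show |γ' x| • (exp (I * (n * γ x)) * G (γ x)) = _
  simp only [G, h3]
  have h4 : ((|γ' x| : ℝ) : ℂ) ≠ 0 := by
    exact_mod_cast abs_ne_zero.2 (hne x hx)
  rw [Complex.real_smul]
  field_simp

/-! ### The circle parameter -/

/-- The point of the unit circle. -/
noncomputable def zz (x : TT) : ℂ := (toCircle x : ℂ)

/-- The parameter `cot(θ/2)`. -/
noncomputable def ct (θ : ℝ) : ℝ := Real.cos (θ / 2) / Real.sin (θ / 2)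

/-- The same parameter on the circle. -/
noncomputable def sx (x : TT) : ℝ := (cay (zz x)).im

theorem zz_coe (θ : ℝ) : zz (θ : TT) = exp (θ * I) := by
  unfold zz
  rw [toCircle_apply_mk, Circle.coe_exp]
  congr 2
  have : (π : ℝ) ≠ 0 := Real.pi_ne_zero
  field_simp

theorem norm_zz (x : TT) : ‖zz x‖ = 1 := Circle.norm_coe _

theorem cay_exp {θ : ℝ} (h : Real.sin (θ / 2) ≠ 0) : cay (exp (θ * I)) = I * (ct θ : ℝ) := by
  set a : ℂ := ((Real.cos (θ / 2) : ℝ) : ℂ) with ha
  set b : ℂ := ((Real.sin (θ / 2) : ℝ) : ℂ) with hb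
  have hb0 : b ≠ 0 := by rw [hb]; exact_mod_cast h
  have hab : a ^ 2 + b ^ 2 = 1 := by
    rw [ha, hb]
    have := Real.cos_sq_add_sin_sq (θ / 2)
    exact_mod_cast this
  have hz : exp (θ * I) = (a + b * I) ^ 2 := by
    rw [ha, hb, Complex.ofReal_cos, Complex.ofReal_sin, ← Complex.exp_mul_I, ← Complex.exp_nat_mul]
    congr 1; push_cast; ring
  have hs : a + b * I ≠ 0 := by
    intro h0
    have : exp (θ * I) = 0 := by rw [hz, h0]; ring
    exact Complex.exp_ne_zero _ this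
  have h1 : 1 + exp (θ * I) = 2 * a * (a + b * I) := by
    rw [hz, ← hab]
    linear_combination b ^ 2 * Complex.I_sq
  have h2 : 1 - exp (θ * I) = -2 * I * b * (a + b * I) := by
    rw [hz, ← hab]
    linear_combination b ^ 2 * Complex.I_sq
  unfold cay ct
  rw [h1, h2, Complex.ofReal_div, ← ha, ← hb]
  have hI : (I : ℂ) ≠ 0 := Complex.I_ne_zero
  field_simp
  linear_combination (-a) * Complex.I_sq

theorem sin_half_pos {θ : ℝ} (h : θ ∈ Set.Ioo 0 (2 * π)) : 0 < Real.sin (θ / 2) :=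
  Real.sin_pos_of_pos_of_lt_pi (by linarith [h.1]) (by linarith [h.2])

theorem cay_zz {θ : ℝ} (h : θ ∈ Set.Ioo 0 (2 * π)) : cay (zz (θ : TT)) = I * (ct θ : ℝ) := by
  rw [zz_coe, cay_exp (sin_half_pos h).ne']

theorem sx_coe {θ : ℝ} (h : θ ∈ Set.Ioo 0 (2 * π)) : sx (θ : TT) = ct θ := by
  unfold sx
  rw [cay_zz h]; simp

theorem sx_two_pi : sx ((2 * π : ℝ) : TT) = 0 := by
  unfold sx
  rw [zz_coe]
  have : exp (((2 * π : ℝ) : ℂ) * I) = 1 := by
    push_cast
    exact Complex.exp_two_pi_mul_I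
  rw [this]
  simp [cay]

theorem re_cay_zz (x : TT) : (cay (zz x)).re = 0 := by
  rw [re_cay, norm_zz]; simp

theorem cay_zz' (x : TT) : cay (zz x) = I * (sx x : ℝ) := by
  refine Complex.ext ?_ ?_
  · rw [re_cay_zz]; simp
  · simp [sx]

theorem hasDerivAt_ct {θ : ℝ} (h : θ ∈ Set.Ioo 0 (2 * π)) :
    HasDerivAt ct (-(1 / (2 * Real.sin (θ / 2) ^ 2))) θ := by
  have hs := sin_half_pos h
  have h1 : HasDerivAt (fun θ : ℝ => Real.cos (θ / 2)) (-Real.sin (θ / 2) * (1 / 2)) θ := by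
    simpa using ((hasDerivAt_id θ).div_const 2).cos
  have h2 : HasDerivAt (fun θ : ℝ => Real.sin (θ / 2)) (Real.cos (θ / 2) * (1 / 2)) θ := by
    simpa using ((hasDerivAt_id θ).div_const 2).sin
  have h3 := h1.div h2 hs.ne'
  have this := Real.cos_sq_add_sin_sq (θ / 2)
  have h4 : (-Real.sin (θ / 2) * (1 / 2) * Real.sin (θ / 2) - Real.cos (θ / 2) *
      (Real.cos (θ / 2) * (1 / 2))) / Real.sin (θ / 2) ^ 2 = -(1 / (2 * Real.sin (θ / 2) ^ 2)) := by
    have hs' := hs.ne'
    field_simp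
    linarith
  rw [h4] at h3
  exact h3

theorem ct_anti : StrictAntiOn ct (Set.Ioo 0 (2 * π)) := by
  refine strictAntiOn_of_deriv_neg (convex_Ioo _ _) ?_ ?_
  · intro θ hθ
    exact (hasDerivAt_ct hθ).continuousAt.continuousWithinAt
  · intro θ hθ
    rw [interior_Ioo] at hθ
    rw [(hasDerivAt_ct hθ).deriv]
    have := sin_half_pos hθ
    have : 0 < 1 / (2 * Real.sin (θ / 2) ^ 2) := by positivity
    linarith

/-! ### boundary values of `hh` -/

theorem hh_gt {R s : ℝ} {z : ℂ} (hz : cay z = I * s) (h : R < s) :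
    hh R z = (I / π) * (Real.log (s - R) : ℝ) := by
  unfold hh
  have h1 : cay z - I * R = ((s - R : ℝ) : ℂ) * I := by rw [hz]; push_cast; ring
  rw [h1, log_ofReal_mul (by linarith) Complex.I_ne_zero, log_I]
  have : (π : ℂ) ≠ 0 := by exact_mod_cast Real.pi_ne_zero
  field_simp
  linear_combination (π : ℂ) * Complex.I_sq

theorem hh_lt {R s : ℝ} {z : ℂ} (hz : cay z = I * s) (h : s < R) :
    hh R z = 1 + (I / π) * (Real.log (R - s) : ℝ) := by
  unfold hh
  have h1 : cay z - I * R = ((R - s : ℝ) : ℂ) * (-I) := by rw [hz]; push_cast; ring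
  rw [h1, log_ofReal_mul (by linarith) (neg_ne_zero.2 Complex.I_ne_zero), log_neg_I]
  have : (π : ℂ) ≠ 0 := by exact_mod_cast Real.pi_ne_zero
  field_simp
  linear_combination (-π : ℂ) * Complex.I_sq

end Pool.Agent.Q87.WH
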