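import Pool.Agent.Q87.WHAbs

/-! # The block theorem: quantitative weak approximation -/

open Filter Topology
open scoped ComplexConjugate

namespace Pool.Agent.Q87.WH

variable {X H : Type*} [NormedAddCommGroup X] [NormedSpace ℂ X] [NormedAddCommGroup H]
  [NormedSpace ℂ H]

theorem bessel {e : ℕ → X} {m : ℕ} {K : ℝ}
    (h : ∀ c : ℕ → ℂ, ‖∑ i ∈ Finset.range m, c i • e i‖ ≤ K * √(∑ i ∈ Finset.range m, ‖c i‖ ^ 2))
    (L : X →L[ℂ] ℂ) : ∑ i ∈ Finset.range m, ‖L (e i)‖ ^ 2 ≤ K ^ 2 * ‖L‖ ^ 2 := by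
  set q := ∑ i ∈ Finset.range m, ‖L (e i)‖ ^ 2 with hq
  have hq0 : 0 ≤ q := Finset.sum_nonneg fun i _ => by positivity
  have h1 := h (fun i => conj (L (e i)))
  simp only [RCLike.norm_conj] at h1
  have h2 : L (∑ i ∈ Finset.range m, conj (L (e i)) • e i) = (q : ℂ) := by
    rw [map_sum, hq]
    push_cast
    refine Finset.sum_congr rfl fun i _ => ?_
    rw [map_smul, smul_eq_mul, ← Complex.normSq_eq_conj_mul_self, Complex.normSq_eq_norm_sq]
    push_cast; rfl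
  have h3 : q ≤ ‖L‖ * (K * √q) := by
    have h4 := L.le_opNorm (∑ i ∈ Finset.range m, conj (L (e i)) • e i)
    rw [h2, Complex.norm_real, Real.norm_of_nonneg hq0] at h4
    exact h4.trans (mul_le_mul_of_nonneg_left h1 (norm_nonneg _))
  rcases eq_or_lt_of_le hq0 with h0 | hpos
  · rw [← h0]; positivity
  · have hs : 0 < √q := Real.sqrt_pos.2 hpos
    have h5 : √q ≤ K * ‖L‖ := by
      have h6 : √q * √q ≤ (K * ‖L‖) * √q := by
        rw [Real.mul_self_sqrt hq0]; linarith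
      exact le_of_mul_le_mul_right h6 hs
    have h7 := pow_le_pow_left₀ hs.le h5 2
    rwa [Real.sq_sqrt hq0, mul_pow] at h7

theorem pow_apply_add (T : H →L[ℂ] H) (a b : ℕ) (x : H) : (T ^ (a + b)) x = (T ^ a) ((T ^ b) x) := by
  rw [pow_add]; rfl

theorem Blk.TS_pow {P : X →L[ℂ] H} {T S : H →L[ℂ] H} {A : ℤ → X →L[ℂ] X} (hB : Blk P T S A)
    (a : ℕ) (x : H) : (T ^ a) ((S ^ a) x) = x := by
  induction a generalizing x with
  | zero => rfl
  | succ a ih =>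
    rw [pow_succ T, pow_succ' S]
    show (T ^ a) (T (S ((S ^ a) x))) = x
    rw [hB.hTS, ih]

theorem Blk.TP_pow {P : X →L[ℂ] H} {T S : H →L[ℂ] H} {A : ℤ → X →L[ℂ] X} (hB : Blk P T S A)
    (a : ℕ) (n : ℤ) (u : X) : (T ^ a) (P (A n u)) = P (A (n + a) u) := by
  induction a generalizing n with
  | zero => simp
  | succ a ih =>
    rw [pow_succ T]
    show (T ^ a) (T (P (A n u))) = _
    rw [hB.hTP, ih]; congr 2; push_cast; ring_nf

theorem Blk.orbit {P : X →L[ℂ] H} {T S : H →L[ℂ] H} {A : ℤ → X →L[ℂ] X} (hB : Blk P T S A)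
    (u v : X) {η δ : ℝ} {m : ℕ} {n : ℕ → ℕ} (h : Inv P S A u v η δ m n) {i : ℕ} (hi : i < m) :
    (T ^ (n i)) (P (A 0 u) + ∑ j ∈ Finset.range m, (S ^ (n j)) (P (A 0 v))) - P (A 0 v)
      = P (A (n i) (Psi A u v n i))
        + ∑ j ∈ Finset.Ico (i + 1) m, (S ^ (n j - n i)) (P (A 0 v)) := by
  have h1 : ∑ j ∈ Finset.range m, (T ^ (n i)) ((S ^ (n j)) (P (A 0 v)))
      = ∑ j ∈ Finset.range i, P (A ((n i : ℤ) - n j) v) + P (A 0 v)
        + ∑ j ∈ Finset.Ico (i + 1) m, (S ^ (n j - n i)) (P (A 0 v)) := by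
    rw [Finset.range_eq_Ico, ← Finset.sum_Ico_consecutive _ (Nat.zero_le (i + 1)) hi,
      ← Finset.range_eq_Ico, Finset.sum_range_succ]
    congr 1
    · congr 1
      · refine Finset.sum_congr rfl fun j hj => ?_
        have hji := h.lt i hi j (Finset.mem_range.1 hj)
        have h2 : n i = (n i - n j) + n j := by omega
        rw [h2, pow_apply_add, hB.TS_pow, hB.TP_pow, zero_add]
        congr 2
        push_cast [hji.le]; ring_nf
      · exact hB.TS_pow _ _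
    · refine Finset.sum_congr rfl fun j hj => ?_
      rw [Finset.mem_Ico] at hj
      have hji := h.lt j hj.2 i (by omega)
      have h2 : n j = n i + (n j - n i) := by omega
      conv_lhs => rw [h2, pow_apply_add S, hB.TS_pow]
  rw [map_add, map_sum, h1, hB.TP_pow, zero_add]
  have h3 : P (A (n i) (Psi A u v n i)) = P (A (n i) u) + ∑ j ∈ Finset.range i, P (A ((n i : ℤ) - n j) v) := by
    unfold Psi
    rw [map_add, map_sum, map_add, map_sum, hB.hA, add_zero]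
    congr 1
    refine Finset.sum_congr rfl fun j _ => ?_
    rw [hB.hA]; rfl
  rw [h3]
  abel

omit [NormedSpace ℂ X] in
theorem wt_div (u v : X) (C : ℝ) : ∃ m, C < ∑ i ∈ Finset.range m, (wt u v i)⁻¹ := by
  set c : ℝ := (‖u‖ ^ 2 + 1) + (2 * ‖v‖ ^ 2 + 1) with hc
  have hc0 : 0 < c := by positivity
  obtain ⟨m, hm⟩ := (Real.tendsto_sum_range_one_div_nat_succ_atTop.eventually_gt_atTop (C * c)).exists
  refine ⟨m, ?_⟩
  have h1 : ∑ i ∈ Finset.range m, (1 / ((i : ℝ) + 1)) / c ≤ ∑ i ∈ Finset.range m, (wt u v i)⁻¹ := by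
    refine Finset.sum_le_sum fun i _ => ?_
    have hw := wt_pos u v i
    rw [div_div, one_div]
    refine inv_anti₀ hw ?_
    unfold wt
    have : (0 : ℝ) ≤ i := Nat.cast_nonneg i
    have h2 : 0 ≤ ‖u‖ ^ 2 := by positivity
    have h3 : 0 ≤ ‖v‖ ^ 2 := by positivity
    rw [hc]
    nlinarith [mul_nonneg this h2, mul_nonneg this h3]
  rw [← Finset.sum_div] at h1
  refine lt_of_lt_of_le ?_ h1
  rwa [lt_div_iff₀ hc0]

theorem sum_split (s : Finset (H →L[ℂ] ℂ)) (x y : H) {κ : ℝ} (hs : ∑ h ∈ s, ‖h‖ ^ 2 ≤ κ) :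
    ∑ h ∈ s, ‖h (x + y)‖ ^ 2 ≤ 2 * ∑ h ∈ s, ‖h x‖ ^ 2 + 2 * (κ * ‖y‖ ^ 2) := by
  have h1 : ∑ h ∈ s, ‖h (x + y)‖ ^ 2 ≤ ∑ h ∈ s, (2 * ‖h x‖ ^ 2 + 2 * (‖h‖ ^ 2 * ‖y‖ ^ 2)) := by
    refine Finset.sum_le_sum fun h _ => ?_
    rw [map_add]
    have h2 := norm_add_le (h x) (h y)
    have h3 := h.le_opNorm y
    have h4 : ‖h y‖ ^ 2 ≤ ‖h‖ ^ 2 * ‖y‖ ^ 2 := by
      rw [← mul_pow]; exact pow_le_pow_left₀ (norm_nonneg _) h3 2
    have h5 : ‖h x + h y‖ ^ 2 ≤ (‖h x‖ + ‖h y‖) ^ 2 := pow_le_pow_left₀ (norm_nonneg _) h2 2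
    nlinarith [sq_nonneg (‖h x‖ - ‖h y‖)]
  rw [Finset.sum_add_distrib, ← Finset.mul_sum, ← Finset.mul_sum, ← Finset.sum_mul] at h1
  have h6 : (∑ h ∈ s, ‖h‖ ^ 2) * ‖y‖ ^ 2 ≤ κ * ‖y‖ ^ 2 :=
    mul_le_mul_of_nonneg_right hs (by positivity)
  linarith

/-- The block theorem. -/
theorem Blk.wa {P : X →L[ℂ] H} {T S : H →L[ℂ] H} {A : ℤ → X →L[ℂ] X} (hB : Blk P T S A) : WA T := by
  intro x₀ y κ' δ τ hδ hτ
  -- replace κ' by a positive number
  obtain ⟨κ, hκ0, hκ⟩ : ∃ κ : ℝ, 0 < κ ∧ κ' ≤ κ := ⟨max κ' 1, by positivity, le_max_left _ _⟩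
  suffices hh : ∃ x, ‖x - x₀‖ < δ ∧ ∃ N : ℕ,
    ∀ s : Finset (H →L[ℂ] ℂ), ∑ h ∈ s, ‖h‖ ^ 2 ≤ κ →
      ∃ n ≤ N, ∑ h ∈ s, ‖h ((T ^ n) x - y)‖ ^ 2 < τ by
    obtain ⟨x, hx, N, hN⟩ := hh
    exact ⟨x, hx, N, fun s hs => hN s (hs.trans hκ)⟩
  obtain ⟨u, hu⟩ := hB.hd.exists_dist_lt x₀ (half_pos hδ)
  obtain ⟨ρ, hρ0, hρ⟩ : ∃ ρ : ℝ, 0 < ρ ∧ κ * ρ ^ 2 < τ / 16 := by
    refine ⟨√(τ / (32 * κ)), Real.sqrt_pos.2 (by positivity), ?_⟩
    rw [Real.sq_sqrt (by positivity)]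
    have : κ * (τ / (32 * κ)) = τ / 32 := by field_simp
    rw [this]; linarith
  obtain ⟨v, hv⟩ := hB.hd.exists_dist_lt y hρ0
  obtain ⟨m, hm⟩ := wt_div u v (9 * ‖P‖ ^ 2 * κ * (16 / τ))
  set η : ℝ := 1 / ((m : ℝ) + 1) with hη
  have hη0 : 0 < η := by positivity
  set δ' : ℝ := min (δ / 2) ρ / ((m : ℝ) + 1) with hδ'
  have hδ'0 : 0 < δ' := by positivity
  have hmδ : m * δ' ≤ min (δ / 2) ρ := by
    have h1 : ((m : ℝ) + 1) * δ' = min (δ / 2) ρ := by rw [hδ']; field_simp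
    nlinarith
  obtain ⟨n, hn⟩ := hB.exists_inv u v hη0 hδ'0 m
  have hmη : (2 + (m : ℝ) * η) ≤ 3 := by
    have : (m : ℝ) * η ≤ 1 := by
      rw [hη, mul_one_div, div_le_one (by positivity)]; linarith
    linarith
  refine ⟨P (A 0 u) + ∑ j ∈ Finset.range m, (S ^ (n j)) (P (A 0 v)), ?_, ?_⟩
  · have h1 : ‖∑ j ∈ Finset.range m, (S ^ (n j)) (P (A 0 v))‖ ≤ m * δ' := by
      refine (norm_sum_le _ _).trans ?_
      have := Finset.sum_le_card_nsmul (Finset.range m) (fun j => ‖(S ^ (n j)) (P (A 0 v))‖) δ'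
        (fun j hj => hn.sm0 j (Finset.mem_range.1 hj))
      simpa using this
    have h2 : P (A 0 u) + ∑ j ∈ Finset.range m, (S ^ (n j)) (P (A 0 v)) - x₀
        = (P (A 0 u) - x₀) + ∑ j ∈ Finset.range m, (S ^ (n j)) (P (A 0 v)) := by abel
    rw [h2]
    refine (norm_add_le _ _).trans_lt ?_
    rw [dist_comm, dist_eq_norm] at hu
    have h3 := hmδ.trans (min_le_left _ _)
    linarith
  · refine ⟨∑ i ∈ Finset.range m, n i, fun s hs => ?_⟩
    -- total Bessel inequality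
    have h1 : ∑ i ∈ Finset.range m, (wt u v i)⁻¹ * ∑ h ∈ s, ‖h (P (A (n i) (Psi A u v n i)))‖ ^ 2
        ≤ 9 * ‖P‖ ^ 2 * κ := by
      have h2 : ∀ h : H →L[ℂ] ℂ, ∑ i ∈ Finset.range m, (wt u v i)⁻¹ * ‖h (P (A (n i) (Psi A u v n i)))‖ ^ 2
          ≤ 9 * (‖P‖ ^ 2 * ‖h‖ ^ 2) := by
        intro h
        have h3 := bessel hn.bes (h.comp P)
        have h4 : ∀ i, ‖(h.comp P) (eta A u v n i)‖ ^ 2
            = (wt u v i)⁻¹ * ‖h (P (A (n i) (Psi A u v n i)))‖ ^ 2 := by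
          intro i
          unfold eta
          rw [map_smul, ContinuousLinearMap.comp_apply, norm_smul, mul_pow, norm_inv,
            Complex.norm_real, Real.norm_of_nonneg (Real.sqrt_nonneg _), inv_pow,
            Real.sq_sqrt (wt_pos u v i).le]
        simp_rw [h4] at h3
        refine h3.trans ?_
        have h5 : ‖h.comp P‖ ^ 2 ≤ ‖P‖ ^ 2 * ‖h‖ ^ 2 := by
          rw [← mul_pow, mul_comm]
          exact pow_le_pow_left₀ (norm_nonneg _) (h.opNorm_comp_le P) 2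
        have h6 : (2 + (m : ℝ) * η) ^ 2 ≤ 9 := by
          have : (0 : ℝ) ≤ 2 + (m : ℝ) * η := by positivity
          nlinarith
        exact mul_le_mul h6 h5 (by positivity) (by norm_num)
      have h3 : ∑ i ∈ Finset.range m, (wt u v i)⁻¹ * ∑ h ∈ s, ‖h (P (A (n i) (Psi A u v n i)))‖ ^ 2
          = ∑ h ∈ s, ∑ i ∈ Finset.range m, (wt u v i)⁻¹ * ‖h (P (A (n i) (Psi A u v n i)))‖ ^ 2 := by
        rw [Finset.sum_comm]
        exact Finset.sum_congr rfl fun i _ => by rw [Finset.mul_sum]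
      rw [h3]
      refine (Finset.sum_le_sum fun h _ => h2 h).trans ?_
      rw [← Finset.mul_sum, ← Finset.mul_sum]
      have h4 : 0 ≤ ‖P‖ ^ 2 := by positivity
      nlinarith [mul_le_mul_of_nonneg_left hs h4]
    obtain ⟨i, hi, hlt⟩ : ∃ i < m, ∑ h ∈ s, ‖h (P (A (n i) (Psi A u v n i)))‖ ^ 2 < τ / 16 := by
      by_contra hcon
      push Not at hcon
      have h2 : ∑ i ∈ Finset.range m, (wt u v i)⁻¹ * (τ / 16)
          ≤ ∑ i ∈ Finset.range m, (wt u v i)⁻¹ * ∑ h ∈ s, ‖h (P (A (n i) (Psi A u v n i)))‖ ^ 2 :=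
        Finset.sum_le_sum fun i hi => mul_le_mul_of_nonneg_left (hcon i (Finset.mem_range.1 hi))
          (inv_nonneg.2 (wt_pos u v i).le)
      rw [← Finset.sum_mul] at h2
      have h3 := h2.trans h1
      have h4 : 9 * ‖P‖ ^ 2 * κ * (16 / τ) * (τ / 16) = 9 * ‖P‖ ^ 2 * κ := by field_simp
      have h5 : 9 * ‖P‖ ^ 2 * κ * (16 / τ) * (τ / 16) < (∑ i ∈ Finset.range m, (wt u v i)⁻¹) * (τ / 16) :=
        mul_lt_mul_of_pos_right hm (by positivity)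
      linarith
    refine ⟨n i, Finset.single_le_sum (f := n) (fun _ _ => Nat.zero_le _) (Finset.mem_range.2 hi), ?_⟩
    have h6 := hB.orbit u v hn hi
    set x := P (A 0 u) + ∑ j ∈ Finset.range m, (S ^ (n j)) (P (A 0 v)) with hx
    set w := ∑ j ∈ Finset.Ico (i + 1) m, (S ^ (n j - n i)) (P (A 0 v)) with hw
    have hwn : ‖w‖ ≤ m * δ' := by
      refine (norm_sum_le _ _).trans ?_
      have := Finset.sum_le_card_nsmul (Finset.Ico (i + 1) m)
        (fun j => ‖(S ^ (n j - n i)) (P (A 0 v))‖) δ'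
        (fun j hj => by
          rw [Finset.mem_Ico] at hj
          exact hn.sm j hj.2 i (by omega))
      refine this.trans ?_
      rw [nsmul_eq_mul, Nat.card_Ico]
      refine mul_le_mul_of_nonneg_right ?_ hδ'0.le
      have : m - (i + 1) ≤ m := by omega
      exact_mod_cast this
    have h7 : (T ^ (n i)) x - y = P (A (n i) (Psi A u v n i)) + (w + (P (A 0 v) - y)) := by
      rw [← add_assoc, ← h6]; abel
    have h8 : ‖w + (P (A 0 v) - y)‖ ≤ 2 * ρ := by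
      refine (norm_add_le _ _).trans ?_
      rw [dist_comm, dist_eq_norm] at hv
      have h3 := hmδ.trans (min_le_right _ _)
      linarith
    rw [h7]
    refine (sum_split s _ _ hs).trans_lt ?_
    have h9 : κ * ‖w + (P (A 0 v) - y)‖ ^ 2 ≤ κ * (2 * ρ) ^ 2 :=
      mul_le_mul_of_nonneg_left (pow_le_pow_left₀ (norm_nonneg _) h8 2) hκ0.le
    have h10 : κ * (2 * ρ) ^ 2 = 4 * (κ * ρ ^ 2) := by ring
    linarith

end Pool.Agent.Q87.WH
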