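import Mathlib

/-! # `L^p` of the circle: coefficient functionals, multiplication operators, Riesz projection -/

open MeasureTheory AddCircle Filter Topology Complex
open scoped Real ENNReal ComplexConjugate

namespace Pool.Agent.Q87.WH

instance instTwoPiPos : Fact (0 < 2 * π) := ⟨Real.two_pi_pos⟩

/-- The circle `ℝ/2πℤ`. -/
abbrev TT : Type := AddCircle (2 * π)

/-- The Lebesgue space `L^p` of the circle with normalized measure. -/
abbrev LL (p : ℝ≥0∞) : Type := Lp ℂ p (haarAddCircle (T := 2 * π))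


variable {p : ℝ≥0∞} [hp1 : Fact (1 ≤ p)]

theorem LL.integrable (f : LL p) : Integrable (f : TT → ℂ) (haarAddCircle (T := 2 * π)) :=
  (Lp.memLp f).integrable hp1.out

theorem integral_norm_le (f : LL p) : ∫ x, ‖f x‖ ∂(haarAddCircle (T := 2 * π)) ≤ ‖f‖ := by
  have h1 : eLpNorm (f : TT → ℂ) 1 (haarAddCircle (T := 2 * π)) ≤ eLpNorm (f : TT → ℂ) p (haarAddCircle (T := 2 * π)) :=
    eLpNorm_le_eLpNorm_of_exponent_le hp1.out (Lp.memLp f).1
  rw [Lp.norm_def, integral_norm_eq_lintegral_enorm (Lp.memLp f).1, ← eLpNorm_one_eq_lintegral_enorm]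
  exact ENNReal.toReal_mono (Lp.eLpNorm_ne_top f) h1

theorem norm_fourier_apply (n : ℤ) (x : TT) : ‖(fourier n x : ℂ)‖ = 1 := by
  rw [fourier_apply]; exact Circle.norm_coe _

theorem LL.integrable_coeff (f : LL p) (n : ℤ) :
    Integrable (fun x : TT => fourier (-n) x • f x) (haarAddCircle (T := 2 * π)) :=
  f.integrable.fourier_smul (-n)

/-- The `n`-th Fourier coefficient as a bounded functional. -/
noncomputable def coeffL (p : ℝ≥0∞) [Fact (1 ≤ p)] (n : ℤ) : LL p →L[ℂ] ℂ :=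
  LinearMap.mkContinuous
    { toFun := fun f => fourierCoeff (f : TT → ℂ) n
      map_add' := fun f g => by
        have h : fourierCoeff (((f + g : LL p)) : TT → ℂ) n
            = fourierCoeff ((f : TT → ℂ) + (g : TT → ℂ)) n :=
          congrFun (fourierCoeff_congr_ae (Lp.coeFn_add f g)) n
        rw [h, fourierCoeff.add (LL.integrable f) (LL.integrable g)]
        rfl
      map_smul' := fun c f => by
        have h : fourierCoeff (((c • f : LL p)) : TT → ℂ) n
            = fourierCoeff (c • (f : TT → ℂ)) n :=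
          congrFun (fourierCoeff_congr_ae (Lp.coeFn_smul c f)) n
        rw [h, fourierCoeff.const_smul]
        rfl } 1
    (fun f => by
      show ‖fourierCoeff (f : TT → ℂ) n‖ ≤ 1 * ‖f‖
      rw [one_mul]
      refine le_trans ?_ (integral_norm_le f)
      rw [fourierCoeff]
      refine (norm_integral_le_integral_norm _).trans (le_of_eq ?_)
      refine integral_congr_ae (Eventually.of_forall fun x => ?_)
      show ‖fourier (-n) x • f x‖ = ‖f x‖
      rw [norm_smul, norm_fourier_apply, one_mul])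

theorem coeffL_apply (n : ℤ) (f : LL p) : coeffL p n f = fourierCoeff (f : TT → ℂ) n := rfl

theorem coeffL_fourierLp (n k : ℤ) : coeffL p n (fourierLp p k) = if n = k then 1 else 0 := by
  rw [coeffL_apply]
  have h : fourierCoeff ((fourierLp p k : LL p) : TT → ℂ) n = fourierCoeff (fourier k) n :=
    congrFun (fourierCoeff_congr_ae (coeFn_fourierLp p k)) n
  rw [h, fourierCoeff_fourier]
  simp [Pi.single_apply]

/-- Operators agreeing on the exponentials are equal. -/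
theorem ext_fourier (hp : p ≠ ∞) {F : Type*} [NormedAddCommGroup F] [NormedSpace ℂ F]
    {A B : LL p →L[ℂ] F} (h : ∀ n : ℤ, A (fourierLp p n) = B (fourierLp p n)) : A = B := by
  refine ContinuousLinearMap.ext_on (s := Set.range (fourierLp p)) ?_ ?_
  · exact Submodule.dense_iff_topologicalClosure_eq_top.2 (span_fourierLp_closure_eq_top hp)
  · rintro _ ⟨n, rfl⟩
    exact h n

/-- Bounded measurable multipliers. -/
def Bdd (m : TT → ℂ) : Prop := Measurable m ∧ ∃ K : ℝ, ∀ x, ‖m x‖ ≤ K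

omit hp1 in
theorem Bdd.memLp {m : TT → ℂ} (hm : Bdd m) (f : LL p) : MemLp (fun x => m x * f x) p (haarAddCircle (T := 2 * π)) := by
  obtain ⟨h1, K, hK⟩ := hm
  refine MemLp.of_le_mul (c := K) (Lp.memLp f) (h1.aestronglyMeasurable.mul (Lp.memLp f).1) ?_
  refine Eventually.of_forall fun x => ?_
  rw [norm_mul]
  exact mul_le_mul_of_nonneg_right (hK x) (norm_nonneg _)

theorem Bdd.mul {m m' : TT → ℂ} (hm : Bdd m) (hm' : Bdd m') : Bdd (fun x => m x * m' x) := by
  obtain ⟨h1, K, hK⟩ := hm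
  obtain ⟨h2, K', hK'⟩ := hm'
  refine ⟨h1.mul h2, K * K', fun x => ?_⟩
  rw [norm_mul]
  exact mul_le_mul (hK x) (hK' x) (norm_nonneg _) ((norm_nonneg _).trans (hK x))

theorem Bdd.pow {m : TT → ℂ} (hm : Bdd m) (n : ℕ) : Bdd (fun x => m x ^ n) := by
  induction n with
  | zero => exact ⟨by simp, 1, fun x => by simp⟩
  | succ n ih => 
    have := ih.mul hm
    simpa only [pow_succ] using this

theorem Bdd.conj {m : TT → ℂ} (hm : Bdd m) : Bdd (fun x => conj (m x)) := by
  obtain ⟨h1, K, hK⟩ := hm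
  refine ⟨Complex.continuous_conj.measurable.comp h1, K, fun x => ?_⟩
  rw [RCLike.norm_conj]; exact hK x

open Classical in
/-- Multiplication by a bounded measurable function, as an operator on `L^p`. -/
noncomputable def mul (p : ℝ≥0∞) [Fact (1 ≤ p)] (m : TT → ℂ) : LL p →L[ℂ] LL p :=
  if hm : Bdd m then
    LinearMap.mkContinuous
      { toFun := fun f => (hm.memLp f).toLp (fun x => m x * f x)
        map_add' := fun f g => by
          rw [← MemLp.toLp_add, MemLp.toLp_eq_toLp_iff]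
          filter_upwards [Lp.coeFn_add f g] with x hx
          show m x * (f + g : LL p) x = m x * f x + m x * g x
          rw [hx]; show m x * (f x + g x) = _; ring
        map_smul' := fun c f => by
          rw [RingHom.id_apply, ← MemLp.toLp_const_smul, MemLp.toLp_eq_toLp_iff]
          filter_upwards [Lp.coeFn_smul c f] with x hx
          show m x * (c • f : LL p) x = c • (m x * f x)
          rw [hx]; show m x * (c • f x) = _
          rw [smul_eq_mul, smul_eq_mul]; ring } (hm.2.choose)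
      (fun f => by
        show ‖(hm.memLp f).toLp (fun x => m x * f x)‖ ≤ _
        refine Lp.norm_le_mul_norm_of_ae_le_mul ?_
        filter_upwards [(hm.memLp f).coeFn_toLp] with x hx
        rw [hx, norm_mul]
        exact mul_le_mul_of_nonneg_right (hm.2.choose_spec x) (norm_nonneg _))
  else 0

theorem mul_ae {m : TT → ℂ} (hm : Bdd m) (f : LL p) :
    (mul p m f : TT → ℂ) =ᵐ[(haarAddCircle (T := 2 * π))] fun x => m x * f x := by
  rw [mul, dif_pos hm]
  exact (hm.memLp f).coeFn_toLp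

theorem norm_mul_le {m : TT → ℂ} (hm : Bdd m) {K : ℝ} (hK : ∀ x, ‖m x‖ ≤ K) (f : LL p) :
    ‖mul p m f‖ ≤ K * ‖f‖ := by
  refine Lp.norm_le_mul_norm_of_ae_le_mul ?_
  filter_upwards [mul_ae hm f] with x hx
  rw [hx, norm_mul]
  exact mul_le_mul_of_nonneg_right (hK x) (norm_nonneg _)

theorem mul_mul {m m' : TT → ℂ} (hm : Bdd m) (hm' : Bdd m') (f : LL p) :
    mul p m (mul p m' f) = mul p (fun x => m x * m' x) f := by
  refine Lp.ext ?_
  filter_upwards [mul_ae hm (mul p m' f), mul_ae hm' f, mul_ae (hm.mul hm') f] with x h1 h2 h3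
  rw [h1, h2, h3, mul_assoc]

theorem mul_congr {m m' : TT → ℂ} (h : m =ᵐ[(haarAddCircle (T := 2 * π))] m') (hm : Bdd m) (hm' : Bdd m') (f : LL p) :
    mul p m f = mul p m' f := by
  refine Lp.ext ?_
  filter_upwards [mul_ae hm f, mul_ae hm' f, h] with x h1 h2 h3
  rw [h1, h2, h3]

theorem mul_one' (f : LL p) : mul p (fun _ => 1) f = f := by
  refine Lp.ext ?_
  filter_upwards [mul_ae (m := fun _ => 1) ⟨measurable_const, 1, fun x => by simp⟩ f] with x h1
  rw [h1, one_mul]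

/-- Fourier coefficients determine elements of `L^p`, `2 ≤ p`. -/
theorem ext_coeff (h2 : 2 ≤ p) {f g : LL p} (h : ∀ n : ℤ, coeffL p n f = coeffL p n g) : f = g := by
  have key : ∀ f : LL p, (∀ n : ℤ, coeffL p n f = 0) → f = 0 := by
    intro f hf
    have hm : MemLp (f : TT → ℂ) 2 (haarAddCircle (T := 2 * π)) := (Lp.memLp f).mono_exponent h2
    have h0 : hm.toLp f = 0 := by
      apply (fourierBasis (T := 2 * π)).repr.injective
      ext n
      rw [fourierBasis_repr, map_zero]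
      have := congrFun (fourierCoeff_congr_ae (T := 2 * π) hm.coeFn_toLp) n
      rw [this]
      exact hf n
    refine Lp.ext ?_
    have h1 := hm.coeFn_toLp
    rw [h0] at h1
    filter_upwards [h1, Lp.coeFn_zero ℂ 2 (haarAddCircle (T := 2 * π)), Lp.coeFn_zero ℂ p (haarAddCircle (T := 2 * π))] with x h1 h2 h3
    rw [← h1, h2, h3]
  have := key (f - g) (fun n => by rw [map_sub, h n, sub_self])
  exact sub_eq_zero.1 this

omit hp1 in
theorem Lnorm_pow {k : ℕ} (hk : k ≠ 0) (hpk : p = (k : ℝ≥0∞)) (f : LL p) :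
    ‖f‖ ^ k = ∫ x, ‖f x‖ ^ k ∂(haarAddCircle (T := 2 * π)) := by
  have hp0 : p ≠ 0 := by rw [hpk]; exact_mod_cast hk
  have hpt : p ≠ ∞ := by rw [hpk]; exact ENNReal.natCast_ne_top k
  have h1 := (Lp.memLp f).eLpNorm_eq_integral_rpow_norm hp0 hpt
  have hr : p.toReal = (k : ℝ) := by rw [hpk]; simp
  have hnn : 0 ≤ ∫ x, ‖f x‖ ^ k ∂(haarAddCircle (T := 2 * π)) := integral_nonneg fun x => by positivity
  rw [Lp.norm_def, h1, ENNReal.toReal_ofReal (by positivity), hr]
  simp_rw [Real.rpow_natCast]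
  rw [← Real.rpow_natCast, ← Real.rpow_mul hnn, inv_mul_cancel₀ (by exact_mod_cast hk),
    Real.rpow_one]

/-- Being the Riesz projection. -/
def IsRiesz (P : LL p →L[ℂ] LL p) : Prop :=
  ∀ (f : LL p) (n : ℤ), coeffL p n (P f) = if 0 ≤ n then coeffL p n f else 0

open Polynomial in
/-- The trigonometric polynomial `a(z) + \bar z b(\bar z)`. -/
noncomputable def tp (q : ℂ[X] × ℂ[X]) : C(TT, ℂ) :=
  q.1.toAddCircle + Polynomial.aeval (fourier (-1)) (X * q.2)

open Polynomial in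
noncomputable def tpL (p : ℝ≥0∞) [Fact (1 ≤ p)] : ℂ[X] × ℂ[X] →ₗ[ℂ] LL p where
  toFun q := ContinuousMap.toLp p (haarAddCircle (T := 2 * π)) ℂ (tp q)
  map_add' a b := by
    rw [← map_add]
    congr 1
    simp only [tp, Prod.fst_add, Prod.snd_add, map_add, mul_add]
    ring
  map_smul' c a := by
    rw [RingHom.id_apply, ← map_smul]
    congr 1
    simp only [tp, Prod.smul_fst, Prod.smul_snd, map_smul, mul_smul_comm, smul_add]

open Polynomial in
noncomputable def anL (p : ℝ≥0∞) [Fact (1 ≤ p)] : ℂ[X] × ℂ[X] →ₗ[ℂ] LL p where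
  toFun q := ContinuousMap.toLp p (haarAddCircle (T := 2 * π)) ℂ q.1.toAddCircle
  map_add' a b := by
    rw [← map_add, ← map_add, Prod.fst_add]
  map_smul' c a := by
    rw [RingHom.id_apply, ← map_smul, ← map_smul, Prod.smul_fst]

open Polynomial in
theorem tpL_nat (n : ℕ) : tpL p (X ^ n, 0) = fourierLp p n := by
  show ContinuousMap.toLp p (haarAddCircle (T := 2 * π)) ℂ (tp (X ^ n, 0)) = ContinuousMap.toLp p (haarAddCircle (T := 2 * π)) ℂ (fourier (n : ℤ))
  congr 1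
  simp [tp, toAddCircle_X_pow_eq_fourier]

open Polynomial in
theorem tpL_neg (n : ℕ) : tpL p (0, X ^ n) = fourierLp p (-((n : ℤ) + 1)) := by
  show ContinuousMap.toLp p (haarAddCircle (T := 2 * π)) ℂ (tp (0, X ^ n)) = ContinuousMap.toLp p (haarAddCircle (T := 2 * π)) ℂ (fourier (-((n : ℤ) + 1)))
  congr 1
  ext x
  have : ∀ n : ℕ, (fourier (-1) x : ℂ) ^ n = fourier (-(n : ℤ)) x := by
    intro n
    induction n with
    | zero => simp
    | succ n ih => rw [pow_succ, ih, ← fourier_add]; congr 1; push_cast; ring_nf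
  simp only [tp, map_zero, zero_add, ← pow_succ', map_pow, aeval_X]
  rw [ContinuousMap.pow_apply, this]
  norm_cast

theorem anL_nat (n : ℕ) : anL p (Polynomial.X ^ n, 0) = fourierLp p n := by
  show ContinuousMap.toLp p (haarAddCircle (T := 2 * π)) ℂ (Polynomial.toAddCircle (Polynomial.X ^ n)) = ContinuousMap.toLp p (haarAddCircle (T := 2 * π)) ℂ (fourier (n : ℤ))
  congr 1
  exact Polynomial.toAddCircle_X_pow_eq_fourier

theorem anL_neg (n : ℕ) : anL p (0, Polynomial.X ^ n) = 0 := by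
  show ContinuousMap.toLp p (haarAddCircle (T := 2 * π)) ℂ (Polynomial.toAddCircle 0) = 0
  rw [map_zero, map_zero]

theorem tpL_dense (hp : p ≠ ∞) : DenseRange (tpL p) := by
  have h := Submodule.dense_iff_topologicalClosure_eq_top.2 (span_fourierLp_closure_eq_top (T := 2 * π) hp)
  refine Dense.mono ?_ h
  have : Submodule.span ℂ (Set.range (fourierLp (T := 2 * π) p)) ≤ LinearMap.range (tpL p) := by
    rw [Submodule.span_le]
    rintro _ ⟨n, rfl⟩
    rcases le_or_gt 0 n with hn | hn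
    · obtain ⟨k, rfl⟩ := Int.eq_ofNat_of_zero_le hn
      exact ⟨_, tpL_nat k⟩
    · obtain ⟨k, hk⟩ : ∃ k : ℕ, n = -((k : ℤ) + 1) := ⟨(-n - 1).toNat, by omega⟩
      rw [hk]
      exact ⟨_, tpL_neg k⟩
  exact this

theorem exists_ext {E G : Type*} [AddCommGroup E] [Module ℂ E] [NormedAddCommGroup G]
    [NormedSpace ℂ G] [CompleteSpace G] (f e : E →ₗ[ℂ] G) (hd : DenseRange e) {C : ℝ}
    (h : ∀ x, ‖f x‖ ≤ C * ‖e x‖) : ∃ P : G →L[ℂ] G, ∀ x, P (e x) = f x :=
  ⟨f.extendOfNorm e, fun x => LinearMap.extendOfNorm_eq hd ⟨C, h⟩ x⟩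

/-- If the norm inequality holds on trigonometric polynomials, the Riesz projection exists. -/
theorem exists_riesz (hp : p ≠ ∞) {C : ℝ}
    (h : ∀ q, ‖anL p q‖ ≤ C * ‖tpL p q‖) :
    ∃ P : LL p →L[ℂ] LL p, IsRiesz P := by
  obtain ⟨P, hP⟩ := exists_ext (anL p) (tpL p) (tpL_dense hp) h
  refine ⟨P, ?_⟩
  have h0 : ∀ n : ℕ, P (fourierLp p n) = fourierLp p n := fun n => by
    rw [← tpL_nat, hP, anL_nat, tpL_nat]
  have h1 : ∀ n : ℕ, P (fourierLp p (-((n : ℤ) + 1))) = 0 := fun n => by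
    rw [← tpL_neg, hP, anL_neg]
  intro f n
  have : (coeffL p n).comp P = if 0 ≤ n then coeffL p n else 0 := by
    refine ext_fourier hp fun k => ?_
    rw [ContinuousLinearMap.comp_apply]
    rcases le_or_gt 0 k with hk | hk
    · obtain ⟨k, rfl⟩ := Int.eq_ofNat_of_zero_le hk
      rw [h0, coeffL_fourierLp]
      split_ifs with h2 h3 h3
      · rw [coeffL_fourierLp, if_pos h2]
      · omega
      · rw [coeffL_fourierLp, if_neg h2]
      · rfl
    · obtain ⟨m, hm⟩ : ∃ m : ℕ, k = -((m : ℤ) + 1) := ⟨(-k - 1).toNat, by omega⟩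
      rw [hm, h1, map_zero]
      split_ifs with h3
      · rw [coeffL_fourierLp, if_neg (by omega)]
      · rfl
  have := DFunLike.congr_fun this f
  rw [ContinuousLinearMap.comp_apply] at this
  rw [this]
  split_ifs <;> rfl

theorem key_ineq (A B : ℂ) : ‖A‖ ^ 4 ≤ 10 * ‖A + conj B‖ ^ 4 + 4 * ((A * B) ^ 2).re := by
  have h1 : ‖A + conj B‖ ^ 2 = ‖A‖ ^ 2 + ‖B‖ ^ 2 + 2 * (A * B).re := by
    rw [← Complex.normSq_eq_norm_sq, ← Complex.normSq_eq_norm_sq, ← Complex.normSq_eq_norm_sq,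
      Complex.normSq_add, Complex.normSq_conj, Complex.conj_conj]
  have h2 : ((A * B) ^ 2).re = 2 * (A * B).re ^ 2 - ‖A‖ ^ 2 * ‖B‖ ^ 2 := by
    have h3 : ‖A‖ ^ 2 * ‖B‖ ^ 2 = (A * B).re ^ 2 + (A * B).im ^ 2 := by
      rw [← mul_pow, ← norm_mul, ← Complex.normSq_eq_norm_sq, Complex.normSq_apply]; ring
    rw [h3, sq (A * B), Complex.mul_re]; ring
  have h4 : ‖A + conj B‖ ^ 4 = (‖A + conj B‖ ^ 2) ^ 2 := by ring
  have h5 : |(A * B).re| ≤ ‖A‖ * ‖B‖ := by
    rw [← norm_mul]; exact Complex.abs_re_le_norm _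
  rw [h4, h1, h2]
  set s := (A * B).re
  have ha := norm_nonneg A
  have hb := norm_nonneg B
  have h0 : 0 ≤ ‖A‖ ^ 2 + ‖B‖ ^ 2 + 2 * s := by rw [← h1]; positivity
  have h6 : s ^ 2 ≤ ‖A‖ ^ 2 * ‖B‖ ^ 2 := by
    rw [← mul_pow]; exact sq_le_sq.2 (by rwa [abs_of_nonneg (mul_nonneg ha hb)])
  -- with t2 = |t|^2: |A|^4+|B|^4 = t2^2 - 4 t2 s + 2 Re((AB)^2)
  nlinarith [sq_nonneg (2 * (‖A‖ ^ 2 + ‖B‖ ^ 2 + 2 * s) - ‖A‖ ^ 2 / 2),
    sq_nonneg (2 * (‖A‖ ^ 2 + ‖B‖ ^ 2 + 2 * s) - ‖B‖ ^ 2 / 2), sq_nonneg ‖A‖, sq_nonneg ‖B‖,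
    sq_nonneg (‖B‖ ^ 2), sq_nonneg (‖A‖ ^ 2), mul_nonneg (sq_nonneg ‖A‖) (sq_nonneg ‖B‖)]

open Polynomial in
theorem tp_apply (q : ℂ[X] × ℂ[X]) (x : TT) :
    tp q x = q.1.toAddCircle x + conj ((X * q.2.map (starRingEnd ℂ)).toAddCircle x) := by
  have h : ∀ (r : ℂ[X]), (Polynomial.aeval (fourier (-1) : C(TT, ℂ)) r) x
      = conj ((r.map (starRingEnd ℂ)).toAddCircle x) := by
    intro r
    induction r using Polynomial.induction_on' with
    | add a b ha hb => 
      rw [map_add, Polynomial.map_add, map_add, ContinuousMap.add_apply, ContinuousMap.add_apply,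
        map_add, ha, hb]
    | monomial n a =>
      rw [Polynomial.map_monomial, toAddCircle_monomial_eq_smul_fourier, aeval_monomial]
      rw [ContinuousMap.mul_apply, ContinuousMap.smul_apply, smul_eq_mul, map_mul,
        Complex.conj_conj, ContinuousMap.pow_apply, fourier_neg, ← map_pow]
      congr 2
      induction n with
      | zero => simp
      | succ n ih => 
        rw [pow_succ, ih]
        rw [← fourier_add]; norm_cast
  show q.1.toAddCircle x + (Polynomial.aeval (fourier (-1) : C(TT, ℂ)) (X * q.2)) x = _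
  rw [h, Polynomial.map_mul, Polynomial.map_X]

open Polynomial in
theorem integral_toAddCircle (r : ℂ[X]) : ∫ x, r.toAddCircle x ∂(haarAddCircle (T := 2 * π)) = r.coeff 0 := by
  have h := Polynomial.fourierCoeff_toAddCircle_natCast r 0
  rw [← h, fourierCoeff]
  refine integral_congr_ae (Eventually.of_forall fun x => ?_)
  simp

theorem cont_integrable (f : C(TT, ℂ)) : Integrable (f : TT → ℂ) (haarAddCircle (T := 2 * π)) := by
  simpa using f.continuous.continuousOn.integrableOn_compact isCompact_univ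

theorem cont_integrable' {f : TT → ℝ} (hf : Continuous f) : Integrable f (haarAddCircle (T := 2 * π)) := by
  simpa using hf.continuousOn.integrableOn_compact isCompact_univ

open Polynomial in
theorem ineq_four (q : ℂ[X] × ℂ[X]) [Fact ((1 : ℝ≥0∞) ≤ 4)] : ‖anL 4 q‖ ≤ 10 * ‖tpL 4 q‖ := by
  have h4 : (4 : ℝ≥0∞) = ((4 : ℕ) : ℝ≥0∞) := by norm_num
  have hA := Lnorm_pow (p := 4) (k := 4) (by norm_num) h4 (anL 4 q)
  have ht := Lnorm_pow (p := 4) (k := 4) (by norm_num) h4 (tpL 4 q)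
  set B : ℂ[X] := X * q.2.map (starRingEnd ℂ)
  have h1 : ∫ x, ‖(anL 4 q) x‖ ^ 4 ∂(haarAddCircle (T := 2 * π)) = ∫ x, ‖q.1.toAddCircle x‖ ^ 4 ∂(haarAddCircle (T := 2 * π)) := by
    refine integral_congr_ae ?_
    filter_upwards [ContinuousMap.coeFn_toLp (p := 4) (𝕜 := ℂ) (haarAddCircle (T := 2 * π)) q.1.toAddCircle] with x hx
    show ‖(ContinuousMap.toLp 4 (haarAddCircle (T := 2 * π)) ℂ q.1.toAddCircle) x‖ ^ 4 = _
    rw [hx]
  have h2 : ∫ x, ‖(tpL 4 q) x‖ ^ 4 ∂(haarAddCircle (T := 2 * π)) = ∫ x, ‖tp q x‖ ^ 4 ∂(haarAddCircle (T := 2 * π)) := by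
    refine integral_congr_ae ?_
    filter_upwards [ContinuousMap.coeFn_toLp (p := 4) (𝕜 := ℂ) (haarAddCircle (T := 2 * π)) (tp q)] with x hx
    show ‖(ContinuousMap.toLp 4 (haarAddCircle (T := 2 * π)) ℂ (tp q)) x‖ ^ 4 = _
    rw [hx]
  have h3 : ∫ x, (((q.1 * B) ^ 2).toAddCircle x).re ∂(haarAddCircle (T := 2 * π)) = 0 := by
    have := integral_toAddCircle ((q.1 * B) ^ 2)
    have h5 : ((q.1 * B) ^ 2).coeff 0 = 0 := by
      have : (q.1 * B) ^ 2 = X * (q.1 ^ 2 * X * (q.2.map (starRingEnd ℂ)) ^ 2) := by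
        simp only [B]; ring
      rw [this, mul_coeff_zero, coeff_X_zero, zero_mul]
    rw [h5] at this
    have h6 : ∫ x, (((q.1 * B) ^ 2).toAddCircle x).re ∂(haarAddCircle (T := 2 * π))
        = (∫ x, ((q.1 * B) ^ 2).toAddCircle x ∂(haarAddCircle (T := 2 * π))).re :=
      integral_re (cont_integrable _)
    rw [h6, this]; rfl
  have hi1 : Integrable (fun x => ‖tp q x‖ ^ 4) (haarAddCircle (T := 2 * π)) := cont_integrable' (by fun_prop)
  have hi2 : Integrable (fun x => (((q.1 * B) ^ 2).toAddCircle x).re) (haarAddCircle (T := 2 * π)) :=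
    cont_integrable' (by fun_prop)
  have hi3 : Integrable (fun x => ‖q.1.toAddCircle x‖ ^ 4) (haarAddCircle (T := 2 * π)) := cont_integrable' (by fun_prop)
  have h7 : ∫ x, ‖q.1.toAddCircle x‖ ^ 4 ∂(haarAddCircle (T := 2 * π))
      ≤ ∫ x, (10 * ‖tp q x‖ ^ 4 + 4 * (((q.1 * B) ^ 2).toAddCircle x).re) ∂(haarAddCircle (T := 2 * π)) := by
    refine integral_mono hi3 ((hi1.const_mul 10).add (hi2.const_mul 4)) fun x => ?_
    show ‖q.1.toAddCircle x‖ ^ 4 ≤ 10 * ‖tp q x‖ ^ 4 + 4 * (((q.1 * B) ^ 2).toAddCircle x).re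
    have htp : tp q x = q.1.toAddCircle x + conj (B.toAddCircle x) := tp_apply q x
    have hpr : ((q.1 * B) ^ 2).toAddCircle x = (q.1.toAddCircle x * B.toAddCircle x) ^ 2 := by
      rw [map_pow, map_mul]; rfl
    rw [htp, hpr]
    exact key_ineq _ _
  rw [integral_add (hi1.const_mul 10) (hi2.const_mul 4), integral_const_mul, integral_const_mul,
    h3, mul_zero, add_zero, ← h1, ← h2, ← hA, ← ht] at h7
  by_contra hc
  push Not at hc
  have h8 : (10 * ‖tpL 4 q‖) ^ 4 < ‖anL 4 q‖ ^ 4 := pow_lt_pow_left₀ hc (by positivity) (by norm_num)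
  have h9 : 0 ≤ ‖tpL 4 q‖ ^ 4 := by positivity
  rw [mul_pow] at h8
  linarith

open Polynomial in
theorem ineq_two (q : ℂ[X] × ℂ[X]) : ‖anL 2 q‖ ≤ 1 * ‖tpL 2 q‖ := by
  have h4 : (2 : ℝ≥0∞) = ((2 : ℕ) : ℝ≥0∞) := by norm_num
  have hA := Lnorm_pow (p := 2) (k := 2) (by norm_num) h4 (anL 2 q)
  have ht := Lnorm_pow (p := 2) (k := 2) (by norm_num) h4 (tpL 2 q)
  set B : ℂ[X] := X * q.2.map (starRingEnd ℂ)
  have h1 : ∫ x, ‖(anL 2 q) x‖ ^ 2 ∂(haarAddCircle (T := 2 * π)) = ∫ x, ‖q.1.toAddCircle x‖ ^ 2 ∂(haarAddCircle (T := 2 * π)) := by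
    refine integral_congr_ae ?_
    filter_upwards [ContinuousMap.coeFn_toLp (p := 2) (𝕜 := ℂ) (haarAddCircle (T := 2 * π)) q.1.toAddCircle] with x hx
    show ‖(ContinuousMap.toLp 2 (haarAddCircle (T := 2 * π)) ℂ q.1.toAddCircle) x‖ ^ 2 = _
    rw [hx]
  have h2 : ∫ x, ‖(tpL 2 q) x‖ ^ 2 ∂(haarAddCircle (T := 2 * π)) = ∫ x, ‖tp q x‖ ^ 2 ∂(haarAddCircle (T := 2 * π)) := by
    refine integral_congr_ae ?_
    filter_upwards [ContinuousMap.coeFn_toLp (p := 2) (𝕜 := ℂ) (haarAddCircle (T := 2 * π)) (tp q)] with x hx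
    show ‖(ContinuousMap.toLp 2 (haarAddCircle (T := 2 * π)) ℂ (tp q)) x‖ ^ 2 = _
    rw [hx]
  have h3 : ∫ x, ((q.1 * B).toAddCircle x).re ∂(haarAddCircle (T := 2 * π)) = 0 := by
    have := integral_toAddCircle (q.1 * B)
    have h5 : (q.1 * B).coeff 0 = 0 := by
      have : q.1 * B = X * (q.1 * (q.2.map (starRingEnd ℂ))) := by
        simp only [B]; ring
      rw [this, mul_coeff_zero, coeff_X_zero, zero_mul]
    rw [h5] at this
    have h6 : ∫ x, ((q.1 * B).toAddCircle x).re ∂(haarAddCircle (T := 2 * π))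
        = (∫ x, (q.1 * B).toAddCircle x ∂(haarAddCircle (T := 2 * π))).re :=
      integral_re (cont_integrable _)
    rw [h6, this]; rfl
  have hi1 : Integrable (fun x => ‖tp q x‖ ^ 2) (haarAddCircle (T := 2 * π)) := cont_integrable' (by fun_prop)
  have hi2 : Integrable (fun x => ((q.1 * B).toAddCircle x).re) (haarAddCircle (T := 2 * π)) :=
    cont_integrable' (by fun_prop)
  have hi3 : Integrable (fun x => ‖q.1.toAddCircle x‖ ^ 2) (haarAddCircle (T := 2 * π)) := cont_integrable' (by fun_prop)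
  have h7 : ∫ x, ‖q.1.toAddCircle x‖ ^ 2 ∂(haarAddCircle (T := 2 * π))
      ≤ ∫ x, (1 * ‖tp q x‖ ^ 2 + (-2) * ((q.1 * B).toAddCircle x).re) ∂(haarAddCircle (T := 2 * π)) := by
    refine integral_mono hi3 ((hi1.const_mul 1).add (hi2.const_mul (-2))) fun x => ?_
    show ‖q.1.toAddCircle x‖ ^ 2 ≤ 1 * ‖tp q x‖ ^ 2 + (-2) * ((q.1 * B).toAddCircle x).re
    have htp : tp q x = q.1.toAddCircle x + conj (B.toAddCircle x) := tp_apply q x
    have hpr : (q.1 * B).toAddCircle x = q.1.toAddCircle x * B.toAddCircle x := by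
      rw [map_mul]; rfl
    rw [htp, hpr]
    have h1 : ‖q.1.toAddCircle x + conj (B.toAddCircle x)‖ ^ 2
        = ‖q.1.toAddCircle x‖ ^ 2 + ‖B.toAddCircle x‖ ^ 2
          + 2 * (q.1.toAddCircle x * B.toAddCircle x).re := by
      rw [← Complex.normSq_eq_norm_sq, ← Complex.normSq_eq_norm_sq, ← Complex.normSq_eq_norm_sq,
        Complex.normSq_add, Complex.normSq_conj, Complex.conj_conj]
    rw [h1]
    nlinarith [sq_nonneg ‖B.toAddCircle x‖]
  rw [integral_add (hi1.const_mul 1) (hi2.const_mul (-2)), integral_const_mul, integral_const_mul,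
    h3, mul_zero, add_zero, ← h1, ← h2, ← hA, ← ht] at h7
  rw [one_mul] at h7 ⊢
  exact le_of_sq_le_sq h7 (norm_nonneg _)

instance fact4 : Fact ((1 : ℝ≥0∞) ≤ 4) := ⟨by norm_num⟩

theorem exists_riesz_four : ∃ P : LL 4 →L[ℂ] LL 4, IsRiesz P :=
  exists_riesz (by norm_num) (fun q => ineq_four q)

theorem exists_riesz_two : ∃ P : LL 2 →L[ℂ] LL 2, IsRiesz P :=
  exists_riesz (by norm_num) ineq_two

end Pool.Agent.Q87.WH
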