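import Pool.Agent.Q87.WHToep

/-! # Statement-level definitions: Hardy spaces of the circle and coanalytic Toeplitz operators -/

open MeasureTheory AddCircle Filter Topology
open scoped Real ENNReal ComplexConjugate

namespace Pool.Agent.Q87.WHD

/-- The circle `ℝ/2πℤ`. -/
def Circ : Type := AddCircle (2 * π)

noncomputable instance : MeasurableSpace Circ := (inferInstance : MeasurableSpace (AddCircle (2 * π)))

/-- The point `e^{ix}` of the unit circle. -/
noncomputable def pt (x : Circ) : ℂ := (toCircle (show AddCircle (2 * π) from x) : ℂ)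

/-- Normalised Lebesgue measure of the circle. -/
noncomputable def leb : Measure Circ := haarAddCircle (T := 2 * π)

/-- The `n`-th Fourier coefficient `∫ f(x) e^{-inx} dx/2π`. -/
noncomputable def coef (f : Circ → ℂ) (n : ℤ) : ℂ := fourierCoeff (T := 2 * π) f n

/-- The Lebesgue space `L^p` of the circle with respect to normalised Lebesgue measure. -/
def LpC (p : ℝ≥0∞) : Type := Lp ℂ p leb

variable (p : ℝ≥0∞) [Fact (1 ≤ p)]

noncomputable instance : NormedAddCommGroup (LpC p) :=
  (inferInstance : NormedAddCommGroup (Lp ℂ p leb))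

noncomputable instance : NormedSpace ℂ (LpC p) := (inferInstance : NormedSpace ℂ (Lp ℂ p leb))

variable {p}

omit [Fact (1 ≤ p)] in
/-- The function (up to a.e. equality) underlying an element of `L^p`. -/
noncomputable def LpC.fn (f : LpC p) : Circ → ℂ := ((show Lp ℂ p leb from f : Lp ℂ p leb) : Circ → ℂ)

theorem coef_add {f g : LpC p} (hf : ∀ n : ℤ, n < 0 → coef f.fn n = 0)
    (hg : ∀ n : ℤ, n < 0 → coef g.fn n = 0) : ∀ n : ℤ, n < 0 → coef (f + g).fn n = 0 :=
  Pool.Agent.Q87.WH.hh_add (p := p) hf hg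

theorem coef_zero : ∀ n : ℤ, n < 0 → coef (0 : LpC p).fn n = 0 :=
  Pool.Agent.Q87.WH.hh_zero (p := p)

theorem coef_smul (c : ℂ) {f : LpC p} (hf : ∀ n : ℤ, n < 0 → coef f.fn n = 0) :
    ∀ n : ℤ, n < 0 → coef (c • f).fn n = 0 := Pool.Agent.Q87.WH.hh_smul (p := p) c hf

variable (p)

/-- The subspace of `L^p` of the circle of the functions whose Fourier coefficients of negative index
vanish. -/
def Hardy : Submodule ℂ (LpC p) where
  carrier := {f | ∀ n : ℤ, n < 0 → coef f.fn n = 0}
  add_mem' := fun hf hg => coef_add hf hg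
  zero_mem' := coef_zero
  smul_mem' := fun c _ hf => coef_smul c hf

/-- The Hardy space `H^p`, a closed subspace of `L^p` of the circle, with the norm of `L^p`. -/
def Hp : Type := Hardy p

noncomputable instance : NormedAddCommGroup (Hp p) := (inferInstance : NormedAddCommGroup (Hardy p))

noncomputable instance : NormedSpace ℂ (Hp p) := (inferInstance : NormedSpace ℂ (Hardy p))

variable {p}

/-- The function (up to a.e. equality) underlying an element of `H^p`. -/
noncomputable def Hp.fn (f : Hp p) : Circ → ℂ := (show Hardy p from f).1.fn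

/-- `P` is the (bounded) Riesz projection of `L^p` onto `H^p`: it keeps the Fourier coefficients of
index `n ≥ 0`. -/
def IsRieszProjection (P : LpC p →L[ℂ] Hp p) : Prop :=
  ∀ (f : LpC p) (n : ℤ), 0 ≤ n → coef (P f).fn n = coef f.fn n

/-- `g ∈ H^∞(𝔻)`: holomorphic and bounded on the open unit disc. -/
def HInfty (g : ℂ → ℂ) : Prop :=
  DifferentiableOn ℂ g (Metric.ball 0 1) ∧ ∃ K : ℝ, ∀ z ∈ Metric.ball (0 : ℂ) 1, ‖g z‖ ≤ K

/-- `b` is the boundary function of `g`: its radial limit at almost every point of the circle. -/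
def IsBoundaryFunction (g : ℂ → ℂ) (b : Circ → ℂ) : Prop :=
  ∀ᵐ x ∂leb, Tendsto (fun r : ℝ => g (r * pt x)) (𝓝[<] 1) (𝓝 (b x))

/-- `T` is the coanalytic Toeplitz operator `T_g^* f = P_+(\bar g f)` on `H^p`: with `b` the boundary
function of `g`, for every `f ∈ H^p` the function `\bar b f` is (a.e. equal to) an element `u` of `L^p`
and `T f = P_+ u`. -/
def IsCoanalyticToeplitz (g : ℂ → ℂ) (T : Hp p →L[ℂ] Hp p) : Prop :=
  ∃ P : LpC p →L[ℂ] Hp p, IsRieszProjection P ∧ ∃ b : Circ → ℂ, IsBoundaryFunction g b ∧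
    ∀ f : Hp p, ∃ u : LpC p, (u.fn =ᵐ[leb] fun x => conj (b x) * f.fn x) ∧ T f = P u

/-- `T` is weakly hypercyclic: some orbit is dense for the weak topology. -/
def IsWeaklyHypercyclic {H : Type} [NormedAddCommGroup H] [NormedSpace ℂ H] (T : H →L[ℂ] H) : Prop :=
  ∃ x : H, DenseRange (fun n : ℕ => toWeakSpace ℂ H ((T ^ n) x))

end Pool.Agent.Q87.WHD
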