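import Pool.Agent.Q87.WHSym

/-! # A weakly hypercyclic coanalytic Toeplitz operator on `H⁴` -/

open Filter Topology Complex MeasureTheory AddCircle
open scoped Real ComplexConjugate ENNReal

namespace Pool.Agent.Q87.WH


variable {p : ℝ≥0∞} [hp1 : Fact (1 ≤ p)]

theorem separable_LL (hp : p ≠ ∞) : TopologicalSpace.SeparableSpace (LL p) := by
  have h1 : TopologicalSpace.IsSeparable (Set.range (fourierLp (T := 2 * π) p)) :=
    (Set.countable_range _).isSeparable
  have h2 := (h1.span (R := ℂ)).closure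
  have h3 := Submodule.dense_iff_topologicalClosure_eq_top.2 (span_fourierLp_closure_eq_top (T := 2 * π) hp)
  rw [h3.closure_eq] at h2
  exact TopologicalSpace.isSeparable_univ_iff.1 h2

theorem separable_HH (hp : p ≠ ∞) (h2 : 2 ≤ p) {P : LL p →L[ℂ] LL p} (hP : IsRiesz P) :
    TopologicalSpace.SeparableSpace (HH p) := by
  have := separable_LL hp
  have hs : Function.Surjective (pr hP) := fun f => ⟨(f : LL p), pr_of_mem hP h2 f⟩
  exact hs.denseRange.separableSpace (pr hP).continuous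

theorem radial {G : ℂ → ℂ} (hd : ∀ z, Good z → DifferentiableAt ℂ G z) :
    ∀ᵐ x ∂(haarAddCircle (T := 2 * π)), Tendsto (fun r : ℝ => G (r * zz x)) (𝓝[<] 1) (𝓝 (G (zz x))) := by
  filter_upwards [ae_good] with x hx
  have h1 : Tendsto (fun r : ℝ => (r : ℂ) * zz x) (𝓝[<] 1) (𝓝 (zz x)) := by
    have h2 : Tendsto (fun r : ℝ => (r : ℂ) * zz x) (𝓝 1) (𝓝 (((1 : ℝ) : ℂ) * zz x)) :=
      (Complex.continuous_ofReal.tendsto 1).mul_const _
    rw [Complex.ofReal_one, one_mul] at h2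
    exact h2.mono_left nhdsWithin_le_nhds
  exact ((hd _ hx).continuousAt.tendsto).comp h1

theorem main_four : ∃ (g : ℂ → ℂ), DifferentiableOn ℂ g (Metric.ball 0 1) ∧
    (∃ K, ∀ z ∈ Metric.ball (0 : ℂ) 1, ‖g z‖ ≤ K) ∧ (∀ z ∈ Metric.ball (0 : ℂ) 1, 1 < ‖g z‖) ∧
    (∀ᵐ x ∂(haarAddCircle (T := 2 * π)), Tendsto (fun r : ℝ => g (r * toCircle x)) (𝓝[<] 1) (𝓝 (g (toCircle x)))) ∧
    Bdd (fun x => g (zz x)) ∧
    ∃ (P : LL 4 →L[ℂ] LL 4) (hP : IsRiesz P) (x : HH 4),
      DenseRange (fun n : ℕ => toWeakSpace ℂ (HH 4) ((toep hP (fun x => g (zz x)) ^ n) x)) := by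
  set t : ℕ → ℝ := Pi.single 0 1 with ht
  have hs1 := single_le 0
  have hs0 := single_nonneg 0
  have hm : ∀ j, 0 < j → t j = 0 := fun j hj => Pi.single_eq_of_ne hj.ne' _
  have htm : 0 < t 0 := by rw [ht]; simp
  have hsym := sym_fin hs1 hs0 (m := 0) hm htm
  obtain ⟨P, hP⟩ := exists_riesz_four
  have hsep : TopologicalSpace.SeparableSpace (HH 4) := separable_HH (by norm_num) (by norm_num) hP
  have hwa := hsym.wa_four hP
  obtain ⟨z, x, _, hx⟩ := exists_generic (Z := Unit) (H := HH 4)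
    (fun _ => toep hP (fun x => gg 1 t (zz x)))
    (fun n => ((toep hP (fun x => gg 1 t (zz x)) ^ n).continuous).comp continuous_snd)
    Set.univ dense_univ (fun _ _ => hwa) (fun _ => Set.univ) (fun _ => isOpen_univ) (fun _ => dense_univ)
  refine ⟨gg 1 t, ?_, ⟨Real.exp (|1| * 2), ?_⟩, ?_, radial (fun _ hz => gg_diff hs1 1 hz), hsym.bb, P, hP, x, hx⟩
  · intro z hz
    have hz1 : ‖z‖ < 1 := by simpa using hz
    exact (gg_diff hs1 1 (good_of_re (re_cay_pos hz1))).differentiableWithinAt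
  · intro z hz
    have hz1 : ‖z‖ < 1 := by simpa using hz
    exact gg_bound hs1 hs0 1 hz1.le
  · intro z hz
    have hz1 : ‖z‖ < 1 := by simpa using hz
    rw [norm_gg]
    refine Real.one_lt_exp_iff.2 ?_
    have := HS_re_pos hs1 hs0 (k := 0) htm (re_cay_pos hz1)
    linarith

end Pool.Agent.Q87.WH
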