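import Mathlib

/-! # The functions `h_R(z) = 1/2 + (i/π) log((1+z)/(1-z) - iR)` and their sums -/

open Filter Topology Complex
open scoped Real ComplexConjugate

namespace Pool.Agent.Q87.WH

/-- Cayley transform. -/
noncomputable def cay (z : ℂ) : ℂ := (1 + z) / (1 - z)

theorem re_cay (z : ℂ) : (cay z).re = (1 - ‖z‖ ^ 2) / ‖1 - z‖ ^ 2 := by
  unfold cay
  rw [Complex.div_re, ← Complex.normSq_eq_norm_sq, ← Complex.normSq_eq_norm_sq, ← add_div]
  congr 1
  simp [Complex.normSq_apply]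
  ring

theorem re_cay_nonneg {z : ℂ} (hz : ‖z‖ ≤ 1) : 0 ≤ (cay z).re := by
  rw [re_cay]
  have : ‖z‖ ^ 2 ≤ 1 := pow_le_one₀ (norm_nonneg _) hz
  exact div_nonneg (by linarith) (by positivity)

theorem re_cay_pos {z : ℂ} (hz : ‖z‖ < 1) : 0 < (cay z).re := by
  rw [re_cay]
  have h1 : ‖z‖ ^ 2 < 1 := pow_lt_one₀ (norm_nonneg _) hz two_ne_zero
  have h2 : 1 - z ≠ 0 := by
    intro h
    have : z = 1 := by linear_combination -h
    rw [this] at hz
    simp at hz
  have h3 : 0 < ‖1 - z‖ ^ 2 := by positivity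
  exact div_pos (by linarith) h3

noncomputable def hh (R : ℝ) (z : ℂ) : ℂ := 1 / 2 + (I / π) * log (cay z - I * R)

theorem hh_re (R : ℝ) (z : ℂ) : (hh R z).re = 1 / 2 - arg (cay z - I * R) / π := by
  unfold hh
  have h1 : (I / (π : ℂ)) * log (cay z - I * R) = ((1 / π : ℝ) : ℂ) * (I * log (cay z - I * R)) := by
    push_cast; ring
  rw [Complex.add_re, h1, Complex.re_ofReal_mul, Complex.I_mul_re, Complex.log_im]
  norm_num
  ring

theorem hh_re_nonneg {R : ℝ} {z : ℂ} (hz : 0 ≤ (cay z).re) : 0 ≤ (hh R z).re := by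
  rw [hh_re]
  have h1 : |arg (cay z - I * R)| ≤ π / 2 := by
    rw [Complex.abs_arg_le_pi_div_two_iff]
    simpa using hz
  have h2 := (abs_le.1 h1).2
  have h3 : arg (cay z - I * R) / π ≤ 1 / 2 := by
    rw [div_le_iff₀ Real.pi_pos]; linarith
  linarith

theorem hh_re_le {R : ℝ} {z : ℂ} (hz : 0 ≤ (cay z).re) : (hh R z).re ≤ 1 := by
  rw [hh_re]
  have h1 : |arg (cay z - I * R)| ≤ π / 2 := by
    rw [Complex.abs_arg_le_pi_div_two_iff]
    simpa using hz
  have h2 := (abs_le.1 h1).1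
  have h3 : -(1 / 2) ≤ arg (cay z - I * R) / π := by
    rw [le_div_iff₀ Real.pi_pos]; linarith
  linarith

theorem hh_re_pos {R : ℝ} {z : ℂ} (hz : 0 < (cay z).re) : 0 < (hh R z).re := by
  rw [hh_re]
  have h1 : |arg (cay z - I * R)| < π / 2 := by
    rw [Complex.abs_arg_lt_pi_div_two_iff]
    left; simpa using hz
  have h2 := (abs_lt.1 h1).2
  have h3 : arg (cay z - I * R) / π < 1 / 2 := by
    rw [div_lt_iff₀ Real.pi_pos]; linarith
  linarith

theorem hh_re_lt {R : ℝ} {z : ℂ} (hz : 0 < (cay z).re) : (hh R z).re < 1 := by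
  rw [hh_re]
  have h1 : |arg (cay z - I * R)| < π / 2 := by
    rw [Complex.abs_arg_lt_pi_div_two_iff]
    left; simpa using hz
  have h2 := (abs_lt.1 h1).1
  have h3 : -(1 / 2) < arg (cay z - I * R) / π := by
    rw [lt_div_iff₀ Real.pi_pos]; linarith
  linarith

theorem norm_log_le {w : ℂ} {d : ℝ} (hd : 0 < d) (hw : w = 0 ∨ d ≤ ‖w‖) :
    ‖log w‖ ≤ ‖w‖ + 1 / d + 4 := by
  have h1 : ‖log w‖ ≤ |Real.log ‖w‖| + |arg w| := by
    have := Complex.norm_le_abs_re_add_abs_im (log w)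
    rwa [Complex.log_re, Complex.log_im] at this
  have h2 : |arg w| ≤ π := Complex.abs_arg_le_pi w
  have h3 : |Real.log ‖w‖| ≤ ‖w‖ + 1 / d := by
    rcases hw with hw | hw
    · rw [hw]; simp; positivity
    · have hp : 0 < ‖w‖ := hd.trans_le hw
      have h4 := Real.log_le_sub_one_of_pos hp
      have h5 := Real.log_le_sub_one_of_pos (inv_pos.2 hp)
      rw [Real.log_inv] at h5
      have h6 : ‖w‖⁻¹ ≤ 1 / d := by rw [one_div]; exact inv_anti₀ hd hw
      have h7 : 0 < ‖w‖⁻¹ := inv_pos.2 hp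
      have h8 : 0 < 1 / d := by positivity
      rw [abs_le]; constructor <;> linarith
  have h4 : π ≤ 4 := Real.pi_le_four
  linarith

theorem norm_hh_le {j : ℕ} {z : ℂ} {c d : ℝ} (hd : 0 < d) (hc : ‖cay z‖ ≤ c)
    (hw : cay z - I * j = 0 ∨ d ≤ ‖cay z - I * j‖) : ‖hh j z‖ ≤ (c + 1 / d + 5) + j := by
  have h0 : ‖cay z - I * ((j : ℝ) : ℂ)‖ ≤ c + j := by
    refine (norm_sub_le _ _).trans (add_le_add hc ?_)
    simp
  have h1 := norm_log_le (w := cay z - I * ((j : ℝ) : ℂ)) hd (by simpa using hw)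
  unfold hh
  refine (norm_add_le _ _).trans ?_
  have hIp : ‖I / (π : ℂ)‖ = 1 / π := by
    rw [norm_div, Complex.norm_I, Complex.norm_real, Real.norm_of_nonneg Real.pi_pos.le]
  rw [norm_mul, hIp]
  have h2 : (1 : ℝ) / π ≤ 1 := by
    rw [div_le_one Real.pi_pos]; linarith [Real.pi_gt_three]
  have h3 : ‖(1 / 2 : ℂ)‖ = 1 / 2 := by norm_num
  rw [h3]
  have h4 : (1 : ℝ) / π * ‖log (cay z - I * ((j : ℝ) : ℂ))‖ ≤ 1 * ‖log (cay z - I * ((j : ℝ) : ℂ))‖ :=
    mul_le_mul_of_nonneg_right h2 (norm_nonneg _)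
  linarith

theorem exists_gap (w : ℂ) : ∃ d > 0, ∀ j : ℕ, w - I * j = 0 ∨ d ≤ ‖w - I * j‖ := by
  obtain ⟨N, hN⟩ := exists_nat_gt (‖w‖ + 1)
  have h1 : ∀ j : ℕ, N ≤ j → 1 ≤ ‖w - I * j‖ := by
    intro j hj
    have h2 : ‖I * (j : ℂ)‖ = j := by simp
    have h3 := norm_sub_norm_le (I * (j : ℂ)) w
    rw [h2, norm_sub_rev] at h3
    have h4 : (N : ℝ) ≤ j := by exact_mod_cast hj
    linarith
  have h2 : ∀ M : ℕ, ∃ d > 0, ∀ j < M, w - I * j = 0 ∨ d ≤ ‖w - I * (j : ℂ)‖ := by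
    intro M
    induction M with
    | zero => exact ⟨1, one_pos, fun j hj => absurd hj (Nat.not_lt_zero j)⟩
    | succ M ih =>
      obtain ⟨d, hd, hdM⟩ := ih
      by_cases h : w - I * (M : ℂ) = 0
      · refine ⟨d, hd, fun j hj => ?_⟩
        rcases Nat.lt_succ_iff_lt_or_eq.1 hj with h1 | rfl
        · exact hdM j h1
        · exact Or.inl h
      · refine ⟨min d ‖w - I * (M : ℂ)‖, lt_min hd (norm_pos_iff.2 h), fun j hj => ?_⟩
        rcases Nat.lt_succ_iff_lt_or_eq.1 hj with h1 | rfl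
        · exact (hdM j h1).imp_right fun h => (min_le_left _ _).trans h
        · exact Or.inr (min_le_right _ _)
  obtain ⟨d, hd, hdM⟩ := h2 N
  refine ⟨min d 1, lt_min hd one_pos, fun j => ?_⟩
  rcases lt_or_ge j N with h | h
  · exact (hdM j h).imp_right fun h => (min_le_left _ _).trans h
  · exact Or.inr ((min_le_right _ _).trans (h1 j h))

theorem summable_aux (c : ℝ) : Summable (fun j : ℕ => (1 / 2 : ℝ) ^ j * (c + j)) := by
  have h1 : Summable (fun j : ℕ => (1 / 2 : ℝ) ^ j * c) :=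
    (summable_geometric_of_lt_one (by norm_num) (by norm_num)).mul_right c
  have h2 : Summable (fun j : ℕ => (1 / 2 : ℝ) ^ j * (j : ℝ)) := by
    have := summable_pow_mul_geometric_of_norm_lt_one 1 (r := (1 / 2 : ℝ)) (by norm_num)
    refine this.congr fun j => by rw [pow_one, mul_comm]
  exact (h1.add h2).congr fun j => by ring

/-- The general term. -/
noncomputable def tm (t : ℕ → ℝ) (z : ℂ) (j : ℕ) : ℂ := ((t j * (1 / 2) ^ j : ℝ) : ℂ) * hh j z

noncomputable def HS (t : ℕ → ℝ) (z : ℂ) : ℂ := ∑' j, tm t z j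

theorem norm_tm_le {t : ℕ → ℝ} (ht : ∀ j, |t j| ≤ 1) {j : ℕ} {z : ℂ} {c d : ℝ} (hd : 0 < d)
    (hc : ‖cay z‖ ≤ c) (hw : cay z - I * j = 0 ∨ d ≤ ‖cay z - I * j‖) :
    ‖tm t z j‖ ≤ (1 / 2 : ℝ) ^ j * ((c + 1 / d + 5) + j) := by
  unfold tm
  rw [norm_mul, Complex.norm_real, Real.norm_eq_abs, abs_mul, abs_of_nonneg (by positivity : (0 : ℝ) ≤ (1 / 2) ^ j)]
  have h1 := norm_hh_le hd hc hw
  have h2 := ht j
  have h3 : 0 ≤ ‖hh j z‖ := norm_nonneg _
  have h4 : (0 : ℝ) < (1 / 2) ^ j := by positivity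
  calc |t j| * (1 / 2) ^ j * ‖hh j z‖ ≤ 1 * (1 / 2) ^ j * ‖hh j z‖ := by gcongr
    _ ≤ 1 * (1 / 2) ^ j * ((c + 1 / d + 5) + j) := by gcongr
    _ = _ := by ring

theorem summable_tm {t : ℕ → ℝ} (ht : ∀ j, |t j| ≤ 1) (z : ℂ) : Summable (tm t z) := by
  obtain ⟨d, hd, hdj⟩ := exists_gap (cay z)
  exact Summable.of_norm_bounded (summable_aux _) fun j => norm_tm_le ht hd le_rfl (hdj j)

theorem HS_re {t : ℕ → ℝ} (ht : ∀ j, |t j| ≤ 1) (z : ℂ) :
    (HS t z).re = ∑' j, t j * (1 / 2) ^ j * (hh j z).re := by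
  unfold HS
  rw [Complex.re_tsum (summable_tm ht z)]
  refine tsum_congr fun j => ?_
  unfold tm
  rw [Complex.re_ofReal_mul]

theorem summable_re {t : ℕ → ℝ} (ht : ∀ j, |t j| ≤ 1) (z : ℂ) :
    Summable (fun j : ℕ => t j * (1 / 2) ^ j * (hh j z).re) := by
  have := (Complex.hasSum_re (summable_tm ht z).hasSum).summable
  refine this.congr fun j => ?_
  unfold tm
  rw [Complex.re_ofReal_mul]

theorem HS_re_nonneg {t : ℕ → ℝ} (ht : ∀ j, |t j| ≤ 1) (ht0 : ∀ j, 0 ≤ t j) {z : ℂ}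
    (hz : 0 ≤ (cay z).re) : 0 ≤ (HS t z).re := by
  rw [HS_re ht]
  exact tsum_nonneg fun j => mul_nonneg (mul_nonneg (ht0 j) (by positivity)) (hh_re_nonneg hz)

theorem HS_re_le {t : ℕ → ℝ} (ht : ∀ j, |t j| ≤ 1) (ht0 : ∀ j, 0 ≤ t j) {z : ℂ}
    (hz : 0 ≤ (cay z).re) : (HS t z).re ≤ 2 := by
  rw [HS_re ht]
  have h1 : Summable (fun j : ℕ => (1 / 2 : ℝ) ^ j) := summable_geometric_of_lt_one (by norm_num) (by norm_num)
  have h2 : ∑' j : ℕ, (1 / 2 : ℝ) ^ j = 2 := tsum_geometric_two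
  refine le_trans ((summable_re ht z).tsum_le_tsum (fun j => ?_) h1) h2.le
  have h3 := hh_re_le (R := j) hz
  have h4 := hh_re_nonneg (R := j) hz
  have h5 := (abs_le.1 (ht j)).2
  have h6 : (0 : ℝ) < (1 / 2) ^ j := by positivity
  calc t j * (1 / 2) ^ j * (hh j z).re ≤ 1 * (1 / 2) ^ j * 1 := by
        refine mul_le_mul (mul_le_mul_of_nonneg_right h5 h6.le) h3 h4 (by positivity)
    _ = _ := by ring

theorem HS_re_pos {t : ℕ → ℝ} (ht : ∀ j, |t j| ≤ 1) (ht0 : ∀ j, 0 ≤ t j) {k : ℕ} (hk : 0 < t k)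
    {z : ℂ} (hz : 0 < (cay z).re) : 0 < (HS t z).re := by
  rw [HS_re ht]
  refine (summable_re ht z).tsum_pos (fun j => mul_nonneg (mul_nonneg (ht0 j) (by positivity)) (hh_re_nonneg hz.le)) k ?_
  exact mul_pos (mul_pos hk (by positivity)) (hh_re_pos hz)

/-- A point where all logarithms are uniformly holomorphic. -/
def Good (z : ℂ) : Prop := z ≠ 1 ∧ ∃ d > 0, ∀ j : ℕ, ∀ w : ℂ, ‖w - cay z‖ < d →
  w - I * j ∈ slitPlane ∧ d ≤ ‖w - I * j‖

theorem good_of_re {z : ℂ} (hz : 0 < (cay z).re) : Good z := by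
  refine ⟨?_, (cay z).re / 2, by positivity, fun j w hw => ?_⟩
  · rintro rfl
    simp [cay] at hz
  · have h1 : |(w - cay z).re| < (cay z).re / 2 := (Complex.abs_re_le_norm _).trans_lt hw
    rw [Complex.sub_re] at h1
    have h2 := (abs_lt.1 h1).1
    have h3 : (w - I * j).re = w.re := by simp
    refine ⟨Or.inl (by rw [h3]; linarith), ?_⟩
    refine le_trans ?_ (Complex.re_le_norm _)
    rw [h3]; linarith

theorem good_of_im {z : ℂ} (hz : z ≠ 1) (hr : (cay z).re = 0) (h : ∀ j : ℕ, (cay z).im ≠ j) : Good z := by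
  obtain ⟨d, hd, hdj⟩ := exists_gap (cay z)
  refine ⟨hz, d / 2, by positivity, fun j w hw => ?_⟩
  have h1 : cay z - I * j ≠ 0 := by
    intro h0
    apply h j
    have : cay z = I * j := sub_eq_zero.1 h0
    rw [this]; simp
  have h2 := (hdj j).resolve_left h1
  have h3 : |(cay z - I * j).im| = ‖cay z - I * j‖ := by
    have : (cay z - I * j).re = 0 := by simp [hr]
    rw [← Complex.re_add_im (cay z - I * j), this, Complex.ofReal_zero, zero_add, norm_mul,
      Complex.norm_I, mul_one, Complex.norm_real, Real.norm_eq_abs]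
    simp
  have h4 : |(w - cay z).im| < d / 2 := (Complex.abs_im_le_norm _).trans_lt hw
  have h5 : (w - I * j).im = (w - cay z).im + (cay z - I * j).im := by
    rw [← Complex.add_im]; congr 1; ring
  have h6 : d / 2 < |(w - I * j).im| := by
    rw [h5]
    have := abs_sub_abs_le_abs_sub ((cay z - I * j).im) (-(w - cay z).im)
    rw [abs_neg, sub_neg_eq_add, add_comm] at this
    rw [h3] at this
    linarith
  refine ⟨Or.inr ?_, h6.le.trans (Complex.abs_im_le_norm _)⟩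
  intro h0
  rw [h0, abs_zero] at h6
  linarith

theorem Good.differentiableAt {t : ℕ → ℝ} (ht : ∀ j, |t j| ≤ 1) {z : ℂ} (hz : Good z) :
    DifferentiableAt ℂ (HS t) z := by
  obtain ⟨hz1, d, hd, hdj⟩ := hz
  set U : Set ℂ := {w | w ≠ 1 ∧ ‖cay w - cay z‖ < d} with hU
  have hcd : DifferentiableOn ℂ cay {w | w ≠ 1} := by
    intro w hw
    unfold cay
    refine DifferentiableAt.differentiableWithinAt ?_
    refine DifferentiableAt.div (by fun_prop) (by fun_prop) ?_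
    exact sub_ne_zero.2 (Ne.symm hw)
  have hUo : IsOpen U := by
    have h1 : IsOpen {w : ℂ | w ≠ 1} := isOpen_ne
    have h2 := (hcd.continuousOn).isOpen_inter_preimage h1 (Metric.isOpen_ball (x := cay z) (ε := d))
    convert h2 using 1
    ext w
    simp [hU, dist_eq_norm]
  have hzU : z ∈ U := ⟨hz1, by simpa using hd⟩
  have hdU : DifferentiableOn ℂ (HS t) U := by
    unfold HS
    refine differentiableOn_tsum_of_summable_norm (u := fun j => (1 / 2 : ℝ) ^ j * (((‖cay z‖ + d) + 1 / d + 5) + j))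
      (summable_aux _) (fun j => ?_) hUo (fun j w hw => ?_)
    · intro w hw
      have h1 := hdj j (cay w) hw.2
      have h2 : DifferentiableAt ℂ cay w := (hcd w hw.1).differentiableAt (isOpen_ne.mem_nhds hw.1)
      have h3 : DifferentiableAt ℂ (fun w => log (cay w - I * ((j : ℝ) : ℂ))) w := by
        refine (h2.sub_const _).clog ?_
        simpa using h1.1
      refine DifferentiableAt.differentiableWithinAt ?_
      unfold tm hh
      exact ((h3.const_mul _).const_add _).const_mul _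
    · refine norm_tm_le ht hd ?_ (Or.inr (hdj j (cay w) hw.2).2)
      have := norm_sub_norm_le (cay w) (cay z)
      linarith [hw.2]
  exact (hdU z hzU).differentiableAt (hUo.mem_nhds hzU)

end Pool.Agent.Q87.WH
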