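import Pool.Agent.Q87.WHAna

/-! # Weak nullness of the powers of the boundary function on the arc `E` -/

open Filter Topology Complex MeasureTheory AddCircle
open scoped Real ComplexConjugate ENNReal

namespace Pool.Agent.Q87.WH


/-- The arc. -/
def EE (m : ℕ) : Set TT := {x | (m : ℝ) < sx x}

theorem measurable_sx : Measurable sx := by
  unfold sx cay
  have : Measurable (fun x : TT => (1 + zz x) / (1 - zz x)) :=
    (zz_continuous.measurable.const_add _).div (zz_continuous.measurable.const_sub _)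
  exact Complex.measurable_im.comp this

theorem measurable_EE (m : ℕ) : MeasurableSet (EE m) := measurableSet_lt measurable_const measurable_sx

/-- Integration over the circle in terms of the angle. -/
theorem integral_TT (F : TT → ℂ) :
    ∫ x, F x ∂(haarAddCircle (T := 2 * π)) = (2 * π)⁻¹ • ∫ θ in Set.Ioc 0 (2 * π), F (θ : TT) := by
  rw [integral_haarAddCircle, ← AddCircle.integral_preimage (2 * π) 0, zero_add]

theorem integral_EE (m : ℕ) (F : TT → ℂ) :
    ∫ x in EE m, F x ∂(haarAddCircle (T := 2 * π))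
      = (2 * π)⁻¹ • ∫ θ in {θ | θ ∈ Set.Ioo 0 (2 * π) ∧ (m : ℝ) < ct θ}, F (θ : TT) := by
  rw [← integral_indicator (measurable_EE m), integral_TT]
  congr 1
  have h1 : ∀ θ : ℝ, (EE m).indicator F (θ : TT)
      = ((fun θ : ℝ => (θ : TT)) ⁻¹' (EE m)).indicator (fun θ : ℝ => F (θ : TT)) θ := fun θ => rfl
  simp_rw [h1]
  rw [setIntegral_indicator]
  · congr 2
    ext θ
    simp only [Set.mem_inter_iff, Set.mem_Ioc, Set.mem_preimage, Set.mem_ofPred_eq, Set.mem_Ioo, EE]
    constructor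
    · rintro ⟨⟨h0, h1⟩, h2⟩
      have h3 : θ < 2 * π := by
        rcases lt_or_eq_of_le h1 with h | h
        · exact h
        · rw [h, sx_two_pi] at h2
          exact absurd h2 (not_lt.2 (Nat.cast_nonneg m))
      exact ⟨⟨h0, h3⟩, by rwa [sx_coe ⟨h0, h3⟩] at h2⟩
    · rintro ⟨⟨h0, h1⟩, h2⟩
      exact ⟨⟨h0, h1.le⟩, by rwa [sx_coe ⟨h0, h1⟩]⟩
  · exact (AddCircle.measurable_mk' (a := (2 * π : ℝ))) (measurable_EE m)

/-- The phase. -/
noncomputable def ph (t : ℕ → ℝ) (m : ℕ) (s : ℝ) : ℝ :=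
  ∑ j ∈ Finset.range (m + 1), (t j * (1 / 2) ^ j / π) * Real.log (s - j)

theorem HS_fin {t : ℕ → ℝ} {m : ℕ} (hm : ∀ j, m < j → t j = 0) (z : ℂ) :
    HS t z = ∑ j ∈ Finset.range (m + 1), tm t z j := by
  unfold HS
  refine tsum_eq_sum fun j hj => ?_
  have : m < j := by
    rw [Finset.mem_range] at hj; omega
  unfold tm
  rw [hm j this]; simp

theorem HS_on {t : ℕ → ℝ} {m : ℕ} (hm : ∀ j, m < j → t j = 0) {x : TT} (hx : x ∈ EE m) :
    HS t (zz x) = I * (ph t m (sx x) : ℝ) := by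
  rw [HS_fin hm]
  unfold ph
  rw [Complex.ofReal_sum, Finset.mul_sum]
  refine Finset.sum_congr rfl fun j hj => ?_
  have hj' : (j : ℝ) < sx x := by
    have h1 : (j : ℝ) ≤ m := by
      have := Finset.mem_range.1 hj
      exact_mod_cast Nat.lt_succ_iff.1 this
    have h2 : (m : ℝ) < sx x := hx
    linarith
  unfold tm
  rw [hh_gt (cay_zz' x) hj']
  push_cast
  ring

theorem ph_strictMono {t : ℕ → ℝ} (ht0 : ∀ j, 0 ≤ t j) {m : ℕ} (htm : 0 < t m) :
    StrictMonoOn (ph t m) (Set.Ioi (m : ℝ)) := by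
  intro s hs s' hs' hss
  have hs : (m : ℝ) < s := hs
  unfold ph
  refine Finset.sum_lt_sum ?_ ⟨m, Finset.self_mem_range_succ m, ?_⟩
  · intro j hj
    have h1 : (j : ℝ) ≤ m := by
      have := Finset.mem_range.1 hj
      exact_mod_cast Nat.lt_succ_iff.1 this
    refine mul_le_mul_of_nonneg_left (Real.log_le_log (by linarith) (by linarith)) ?_
    have := ht0 j
    have := Real.pi_pos
    positivity
  · refine mul_lt_mul_of_pos_left (Real.log_lt_log (by linarith) (by linarith)) ?_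
    have := Real.pi_pos
    positivity

theorem hasDerivAt_ph (t : ℕ → ℝ) (m : ℕ) {s : ℝ} (hs : (m : ℝ) < s) :
    HasDerivAt (ph t m) (∑ j ∈ Finset.range (m + 1), (t j * (1 / 2) ^ j / π) * (1 / (s - j))) s := by
  unfold ph
  refine HasDerivAt.fun_sum fun j hj => ?_
  have h1 : (j : ℝ) ≤ m := by
    have := Finset.mem_range.1 hj
    exact_mod_cast Nat.lt_succ_iff.1 this
  refine HasDerivAt.const_mul _ ?_
  exact ((hasDerivAt_id s).sub_const (j : ℝ)).log (by simp; linarith)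

theorem deriv_ph_pos {t : ℕ → ℝ} (ht0 : ∀ j, 0 ≤ t j) {m : ℕ} (htm : 0 < t m) {s : ℝ}
    (hs : (m : ℝ) < s) :
    0 < ∑ j ∈ Finset.range (m + 1), (t j * (1 / 2) ^ j / π) * (1 / (s - j)) := by
  have hpi := Real.pi_pos
  refine Finset.sum_pos' ?_ ⟨m, Finset.self_mem_range_succ m, ?_⟩
  · intro j hj
    have h1 : (j : ℝ) ≤ m := by
      have := Finset.mem_range.1 hj
      exact_mod_cast Nat.lt_succ_iff.1 this
    have h2 : 0 < s - j := by linarith
    have := ht0 j
    positivity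
  · have h2 : 0 < s - m := by linarith
    positivity

/-- The powers of the boundary function tend weakly to zero on the arc. -/
theorem weak_null {t : ℕ → ℝ} (ht0 : ∀ j, 0 ≤ t j) {m : ℕ} (hm : ∀ j, m < j → t j = 0)
    (htm : 0 < t m) (f : TT → ℂ) :
    Tendsto (fun n : ℕ => ∫ x in EE m, gg 1 t (zz x) ^ n * f x ∂(haarAddCircle (T := 2 * π))) atTop (𝓝 0) := by
  set J : Set ℝ := {θ | θ ∈ Set.Ioo 0 (2 * π) ∧ (m : ℝ) < ct θ} with hJ
  have hJm : MeasurableSet J := by
    have h1 : MeasurableSet (Set.Ioo 0 (2 * π)) := measurableSet_Ioo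
    have h2 : Measurable ct := by unfold ct; fun_prop
    exact h1.inter (measurableSet_lt measurable_const h2)
  have h1 := rl hJm (γ := fun θ => ph t m (ct θ))
    (γ' := fun θ => (∑ j ∈ Finset.range (m + 1), (t j * (1 / 2) ^ j / π) * (1 / (ct θ - j)))
      * (-(1 / (2 * Real.sin (θ / 2) ^ 2)))) ?_ ?_ ?_ (fun θ => f (θ : TT))
  · have h2 := h1.const_smul ((2 * π)⁻¹ : ℝ)
    rw [smul_zero] at h2
    refine h2.congr fun n => ?_
    rw [integral_EE]
    congr 1
    refine setIntegral_congr_fun hJm fun θ hθ => ?_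
    have hE : (θ : TT) ∈ EE m := by
      show (m : ℝ) < sx (θ : TT)
      rw [sx_coe hθ.1]; exact hθ.2
    show _ = gg 1 t (zz (θ : TT)) ^ n * f (θ : TT)
    rw [gg_pow]
    unfold gg
    rw [HS_on hm hE, sx_coe hθ.1]
    congr 2
    push_cast
    ring
  · intro θ hθ
    exact (hasDerivAt_ph t m hθ.2).comp θ (hasDerivAt_ct hθ.1)
  · intro θ hθ θ' hθ' h
    have h2 := (ph_strictMono ht0 htm).injOn hθ.2 hθ'.2 h
    exact ct_anti.injOn hθ.1 hθ'.1 h2
  · intro θ hθ
    have h2 := deriv_ph_pos ht0 htm hθ.2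
    have h3 := sin_half_pos hθ.1
    have h4 : 0 < 1 / (2 * Real.sin (θ / 2) ^ 2) := by positivity
    exact mul_ne_zero h2.ne' (neg_ne_zero.2 h4.ne')

/-- Modulus one on the arc. -/
theorem norm_gg_on {t : ℕ → ℝ} {m : ℕ} (hm : ∀ j, m < j → t j = 0) (c : ℝ) {x : TT} (hx : x ∈ EE m) :
    ‖gg c t (zz x)‖ = 1 := by
  unfold gg
  rw [HS_on hm hx, Complex.norm_exp]
  have : ((c : ℂ) * (I * (ph t m (sx x) : ℝ))).re = 0 := by simp
  rw [this, Real.exp_zero]

/-- Expansion off the arc. -/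
theorem HS_off {t : ℕ → ℝ} (ht : ∀ j, |t j| ≤ 1) (ht0 : ∀ j, 0 ≤ t j) (m : ℕ) {x : TT}
    (hx : sx x < m) : t m * (1 / 2) ^ m ≤ (HS t (zz x)).re := by
  rw [HS_re ht]
  have h1 : (hh m (zz x)).re = 1 := by
    rw [hh_lt (cay_zz' x) hx]
    have : (I / (π : ℂ)) * (Real.log (m - sx x) : ℝ) = ((Real.log (m - sx x) / π : ℝ) : ℂ) * I := by
      push_cast; ring
    rw [this]; simp
  have h2 := (summable_re ht (zz x)).le_tsum m
    (fun j _ => mul_nonneg (mul_nonneg (ht0 j) (by positivity)) (hh_re_nonneg (re_cay_zz x).ge))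
  rw [h1, mul_one] at h2
  exact h2

end Pool.Agent.Q87.WH
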