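import Pool.Agent.Q87.WHW
import Pool.Agent.Q87.WHBaire

/-! # Coanalytic Toeplitz operators satisfy the hypotheses of the block theorem -/

open Filter Topology Complex MeasureTheory AddCircle
open scoped Real ComplexConjugate ENNReal

namespace Pool.Agent.Q87.WH


variable {p : ℝ≥0∞} [hp1 : Fact (1 ≤ p)]

/-- Uniformly bounded operators converging to zero on a total set converge to zero. -/
theorem tendsto_zero_of_dense {X Y : Type*} [NormedAddCommGroup X] [NormedSpace ℂ X]
    [NormedAddCommGroup Y] [NormedSpace ℂ Y] (B : ℕ → X → Y) (C : ℝ) (hC : 0 ≤ C)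
    (hadd : ∀ n x y, B n (x + y) = B n x + B n y) (hsmul : ∀ n (c : ℂ) x, B n (c • x) = c • B n x)
    (hB : ∀ n x, ‖B n x‖ ≤ C * ‖x‖) (s : Set X) (hs : Dense (Submodule.span ℂ s : Set X))
    (h : ∀ x ∈ s, Tendsto (fun n => B n x) atTop (𝓝 0)) (x : X) :
    Tendsto (fun n => B n x) atTop (𝓝 0) := by
  have h0 : ∀ n, B n 0 = 0 := fun n => by
    have := hsmul n 0 0
    simpa using this
  have hspan : ∀ y ∈ Submodule.span ℂ s, Tendsto (fun n => B n y) atTop (𝓝 0) := by
    intro y hy
    induction hy using Submodule.span_induction with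
    | mem y hy => exact h y hy
    | zero => simp_rw [h0]; exact tendsto_const_nhds
    | add y z _ _ hy hz => simp_rw [hadd]; simpa using hy.add hz
    | smul c y _ hy => simp_rw [hsmul]; simpa using hy.const_smul c
  rw [Metric.tendsto_atTop]
  intro ε hε
  obtain ⟨y, hy, hxy⟩ := hs.exists_dist_lt x (ε := ε / (2 * (C + 1))) (by positivity)
  obtain ⟨N, hN⟩ := (Metric.tendsto_atTop.1 (hspan y hy)) (ε / 2) (by positivity)
  refine ⟨N, fun n hn => ?_⟩
  have h1 := hN n hn
  rw [dist_zero_right] at h1 ⊢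
  have h2 : B n x = B n (x - y) + B n y := by rw [← hadd]; congr 1; abel
  have h3 := hB n (x - y)
  rw [dist_eq_norm] at hxy
  have h4 : C * ‖x - y‖ ≤ (C + 1) * (ε / (2 * (C + 1))) :=
    mul_le_mul (by linarith) hxy.le (norm_nonneg _) (by linarith)
  have h5 : (C + 1) * (ε / (2 * (C + 1))) = ε / 2 := by field_simp
  rw [h2]
  have h6 := norm_add_le (B n (x - y)) (B n y)
  linarith

/-- The multipliers `χ_E βⁿ`, `n ∈ ℤ`. -/
noncomputable def AA (p : ℝ≥0∞) [Fact (1 ≤ p)] (E : Set TT) (β : TT → ℂ) (n : ℤ) : LL p →L[ℂ] LL p :=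
  mul p (E.indicator (fun x => β x ^ n))

structure Sym (b φ : TT → ℂ) (E : Set TT) : Prop where
  bb : Bdd b
  ab : Ana b
  bφ : Bdd φ
  aφ : ∀ n : ℕ, Ana (fun x => φ x ^ n)
  one : ∀ x, b x * φ x = 1
  φle : ∀ x, ‖φ x‖ ≤ 1
  un : UN E (fun x => conj (b x))
  un' : UN E b
  coef : ∀ k : ℤ, Tendsto (fun n : ℕ => fourierCoeff (fun x => φ x ^ n) k) atTop (𝓝 0)
  den : ∀ η : ℝ, 0 < η → ∃ k : TT → ℂ, Bdd k ∧ Ana k ∧ fourierCoeff k 0 ≠ 0 ∧
    ∀ᵐ x ∂(haarAddCircle (T := 2 * π)), x ∉ E → ‖k x‖ ≤ η * ‖fourierCoeff k 0‖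

variable {b φ : TT → ℂ} {E : Set TT}

theorem Sym.bddA (h : Sym b φ E) (n : ℤ) : Bdd (E.indicator (fun x => conj (b x) ^ n)) := by
  refine ⟨?_, 1, fun x => ?_⟩
  · refine Measurable.indicator ?_ h.un.mE
    rcases n with n | n
    · simpa using h.un.mβ.pow_const n
    · simp only [zpow_negSucc]
      exact (h.un.mβ.pow_const (n + 1)).inv
  · by_cases hx : x ∈ E
    · rw [Set.indicator_of_mem hx, norm_zpow, h.un.one x hx, one_zpow]
    · rw [Set.indicator_of_notMem hx, norm_zero]; exact zero_le_one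

theorem A_nat (n : ℕ) (f : LL p) :
    AA p E (fun x => conj (b x)) n f = mul p (ind E (fun x => conj (b x)) n) f := by
  unfold AA ind
  simp only [zpow_natCast]

theorem Sym.A_neg (h : Sym b φ E) (n : ℕ) (f : LL p) :
    AA p E (fun x => conj (b x)) (-(n : ℤ)) f = mul p (ind E b n) f := by
  unfold AA
  congr 2
  funext x
  unfold ind
  by_cases hx : x ∈ E
  · rw [Set.indicator_of_mem hx, Set.indicator_of_mem hx, zpow_neg, zpow_natCast, ← inv_pow]
    congr 1
    have h1 := h.un'.one x hx
    have h2 : conj (b x) * b x = 1 := by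
      rw [mul_comm, Complex.mul_conj, Complex.normSq_eq_norm_sq, h1]; norm_num
    exact inv_eq_of_mul_eq_one_right h2
  · rw [Set.indicator_of_notMem hx, Set.indicator_of_notMem hx]

theorem Sym.A_mul (h : Sym b φ E) (m n : ℤ) (f : LL p) :
    AA p E (fun x => conj (b x)) m (AA p E (fun x => conj (b x)) n f)
      = AA p E (fun x => conj (b x)) (m + n) f := by
  unfold AA
  rw [mul_mul (h.bddA m) (h.bddA n)]
  congr 2
  funext x
  by_cases hx : x ∈ E
  · rw [Set.indicator_of_mem hx, Set.indicator_of_mem hx, Set.indicator_of_mem hx]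
    have hb : conj (b x) ≠ 0 := by
      intro h0
      have := h.un.one x hx
      rw [h0, norm_zero] at this
      exact zero_ne_one this
    rw [zpow_add₀ hb]
  · rw [Set.indicator_of_notMem hx, Set.indicator_of_notMem hx, Set.indicator_of_notMem hx, mul_zero]

theorem Sym.A_norm (h : Sym b φ E) (n : ℤ) (f : LL p) :
    ‖AA p E (fun x => conj (b x)) n f‖ ≤ ‖f‖ := by
  have := norm_mul_le (p := p) (h.bddA n) (K := 1) (fun x => ?_) f
  · rwa [one_mul] at this
  · by_cases hx : x ∈ E
    · rw [Set.indicator_of_mem hx, norm_zpow, h.un.one x hx, one_zpow]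
    · rw [Set.indicator_of_notMem hx, norm_zero]; exact zero_le_one

theorem Sym.mul_A (h : Sym b φ E) (n : ℤ) (f : LL p) :
    mul p (fun x => conj (b x)) (AA p E (fun x => conj (b x)) n f)
      = AA p E (fun x => conj (b x)) (n + 1) f := by
  unfold AA
  rw [mul_mul h.bb.conj (h.bddA n)]
  congr 2
  funext x
  by_cases hx : x ∈ E
  · rw [Set.indicator_of_mem hx, Set.indicator_of_mem hx]
    have hb : conj (b x) ≠ 0 := by
      intro h0
      have := h.un.one x hx
      rw [h0, norm_zero] at this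
      exact zero_ne_one this
    rw [zpow_add₀ hb, zpow_one, mul_comm]
  · rw [Set.indicator_of_notMem hx, Set.indicator_of_notMem hx, mul_zero]

/-- `S^n → 0` strongly. -/
theorem Sym.strong (h : Sym b φ E) {P : LL p →L[ℂ] LL p} (hP : IsRiesz P) (h2 : 2 ≤ p) (hp : p ≠ ∞)
    (y : HH p) : Tendsto (fun n : ℕ => (toep hP φ ^ n) y) atTop (𝓝 0) := by
  have aφ1 : Ana φ := by simpa using h.aφ 1
  have key : ∀ u : LL p, Tendsto (fun n : ℕ => pr hP (mul p (fun x => conj (φ x ^ n)) u)) atTop (𝓝 0) := by
    refine tendsto_zero_of_dense _ ‖pr hP‖ (pr hP).opNorm_nonneg ?_ ?_ ?_ (Set.range (fourierLp p))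
      (Submodule.dense_iff_topologicalClosure_eq_top.2 (span_fourierLp_closure_eq_top hp)) ?_
    · intro n x y; rw [map_add, map_add]
    · intro n c x; rw [map_smul, map_smul]
    · intro n u
      refine ((pr hP).le_opNorm _).trans (mul_le_mul_of_nonneg_left ?_ (pr hP).opNorm_nonneg)
      have := norm_mul_le (p := p) (h.bφ.pow n).conj (K := 1) (fun x => ?_) u
      · rwa [one_mul] at this
      · rw [RCLike.norm_conj, norm_pow]; exact pow_le_one₀ (norm_nonneg _) (h.φle x)
    · rintro _ ⟨k, rfl⟩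
      rcases le_or_gt 0 k with hk | hk
      · obtain ⟨k, rfl⟩ := Int.eq_ofNat_of_zero_le hk
        rw [tendsto_subtype_rng]
        have h1 : ∀ n : ℕ, ((pr hP (mul p (fun x => conj (φ x ^ n)) (fourierLp p (k : ℤ))) : HH p) : LL p)
            = ∑ j ∈ Finset.range (k + 1), conj (fourierCoeff (fun x => φ x ^ n) ((k : ℤ) - j))
              • (fourierLp p (j : ℤ) : LL p) := fun n =>
          riesz_conj_fourier hP h2 (h.bφ.pow n) (h.aφ n) k
        simp_rw [h1]
        have h3 : ((0 : HH p) : LL p) = ∑ j ∈ Finset.range (k + 1), conj (0 : ℂ) • (fourierLp p (j : ℤ) : LL p) := by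
          simp
        rw [h3]
        refine tendsto_finsetSum _ fun j _ => ?_
        refine Tendsto.smul_const ?_ _
        exact (Complex.continuous_conj.tendsto 0).comp (h.coef _)
      · have h1 : ∀ n : ℕ, pr hP (mul p (fun x => conj (φ x ^ n)) (fourierLp p k)) = 0 := by
          intro n
          have h3 := riesz_conj hP h2 hp (h.bφ.pow n) (h.aφ n) (fourierLp p k)
          rw [riesz_fourier hP h2, if_neg (by omega), map_zero, map_zero] at h3
          exact Subtype.ext h3.symm
        simp_rw [h1]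
        exact tendsto_const_nhds
  have h5 : ∀ n : ℕ, (toep hP φ ^ n) y = pr hP (mul p (fun x => conj (φ x ^ n)) (y : LL p)) := by
    intro n
    have := toep_pow_pr hP h2 hp h.bφ aφ1 (y : LL p) n
    rw [pr_of_mem hP h2] at this
    rw [this]
    simp only [map_pow]
  simp_rw [h5]
  exact key _

theorem norm_mul_le_ae {m : TT → ℂ} (hm : Bdd m) {K : ℝ} (hK : ∀ᵐ x ∂(haarAddCircle (T := 2 * π)), ‖m x‖ ≤ K) (f : LL p) :
    ‖mul p m f‖ ≤ K * ‖f‖ := by
  refine Lp.norm_le_mul_norm_of_ae_le_mul ?_
  filter_upwards [mul_ae hm f, hK] with x hx hK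
  rw [hx, norm_mul]
  exact mul_le_mul_of_nonneg_right hK (norm_nonneg _)

theorem Sym.dense (h : Sym b φ E) {P : LL p →L[ℂ] LL p} (hP : IsRiesz P) (h2 : 2 ≤ p) (hp : p ≠ ∞) :
    DenseRange (fun u : LL p => pr hP (AA p E (fun x => conj (b x)) 0 u)) := by
  set L : LL p →L[ℂ] HH p := (pr hP).comp (AA p E (fun x => conj (b x)) 0) with hL
  set V : Submodule ℂ (HH p) := (LinearMap.range (L : LL p →ₗ[ℂ] HH p)).topologicalClosure with hV
  have hVc : IsClosed (V : Set (HH p)) := Submodule.isClosed_topologicalClosure _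
  have hVL : ∀ u, L u ∈ V := fun u =>
    Submodule.le_topologicalClosure _ (LinearMap.mem_range_self _ u)
  have hnat : ∀ k : ℕ, pr hP (fourierLp p (k : ℤ)) ∈ V := by
    intro k
    induction k using Nat.strong_induction_on with
    | _ k ih =>
      have hcl : pr hP (fourierLp p (k : ℤ)) ∈ closure (V : Set (HH p)) := by
        rw [Metric.mem_closure_iff]
        intro ε hε
        obtain ⟨κ, hκb, hκa, hκ0, hκE⟩ := h.den (ε / (2 * (‖pr hP‖ + 1) * (‖(fourierLp p (k : ℤ) : LL p)‖ + 1)))
          (by have := (pr hP).opNorm_nonneg; positivity)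
        set η := ε / (2 * (‖pr hP‖ + 1) * (‖(fourierLp p (k : ℤ) : LL p)‖ + 1)) with hη
        set c : ℂ := conj (fourierCoeff κ 0) with hc
        have hc0 : c ≠ 0 := by rw [hc]; simpa using hκ0
        have hcn : ‖c‖ = ‖fourierCoeff κ 0‖ := by rw [hc, RCLike.norm_conj]
        -- the identity for the action of κ
        have h3 : pr hP (mul p (fun x => conj (κ x)) (fourierLp p (k : ℤ)))
            = ∑ j ∈ Finset.range k, conj (fourierCoeff κ ((k : ℤ) - j)) • pr hP (fourierLp p (j : ℤ))
              + c • pr hP (fourierLp p (k : ℤ)) := by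
          apply Subtype.ext
          have h4 := riesz_conj_fourier hP h2 hκb hκa k
          have h5 : ∀ j : ℕ, ((pr hP (fourierLp p (j : ℤ)) : HH p) : LL p) = fourierLp p (j : ℤ) := by
            intro j
            rw [pr_coe, riesz_fourier hP h2, if_pos (by omega)]
          rw [Finset.sum_range_succ, sub_self] at h4
          rw [pr_coe, h4, Submodule.coe_add, Submodule.coe_sum, Submodule.coe_smul, h5]
          congr 1
          refine Finset.sum_congr rfl fun j _ => ?_
          rw [Submodule.coe_smul, h5]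
        set m1 : TT → ℂ := Eᶜ.indicator (fun x => conj (κ x)) with hm1
        have hbm1 : Bdd m1 := by
          obtain ⟨k1, K, k2⟩ := hκb.conj
          refine ⟨k1.indicator h.un.mE.compl, K, fun x => ?_⟩
          rw [hm1]
          by_cases hx : x ∈ Eᶜ
          · rw [Set.indicator_of_mem hx]; exact k2 x
          · rw [Set.indicator_of_notMem hx, norm_zero]; exact (norm_nonneg _).trans (k2 x)
        have h6 : mul p (fun x => conj (κ x)) (fourierLp p (k : ℤ))
            = AA p E (fun x => conj (b x)) 0 (mul p (fun x => conj (κ x)) (fourierLp p (k : ℤ)))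
              + mul p m1 (fourierLp p (k : ℤ)) := by
          unfold AA
          rw [mul_mul (h.bddA 0) hκb.conj]
          refine Lp.ext ?_
          filter_upwards [mul_ae hκb.conj (fourierLp p (k : ℤ)), mul_ae ((h.bddA 0).mul hκb.conj) (fourierLp p (k : ℤ)),
            mul_ae hbm1 (fourierLp p (k : ℤ)), Lp.coeFn_add (mul p (fun x => E.indicator (fun x => conj (b x) ^ (0 : ℤ)) x * conj (κ x)) (fourierLp p (k : ℤ)))
              (mul p m1 (fourierLp p (k : ℤ)))] with x e1 e2 e3 e4
          rw [e4, Pi.add_apply, e1, e2, e3, hm1]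
          by_cases hx : x ∈ E
          · rw [Set.indicator_of_mem hx, Set.indicator_of_notMem (by simpa using hx), zpow_zero]; ring
          · rw [Set.indicator_of_notMem hx, Set.indicator_of_mem (by simpa using hx)]; ring
        refine ⟨c⁻¹ • (L (mul p (fun x => conj (κ x)) (fourierLp p (k : ℤ)))
          - ∑ j ∈ Finset.range k, conj (fourierCoeff κ ((k : ℤ) - j)) • pr hP (fourierLp p (j : ℤ))), ?_, ?_⟩
        · refine V.smul_mem _ (V.sub_mem (hVL _) (V.sum_mem fun j hj => V.smul_mem _ (ih j (Finset.mem_range.1 hj))))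
        · have h7 : pr hP (fourierLp p (k : ℤ)) - c⁻¹ • (L (mul p (fun x => conj (κ x)) (fourierLp p (k : ℤ)))
              - ∑ j ∈ Finset.range k, conj (fourierCoeff κ ((k : ℤ) - j)) • pr hP (fourierLp p (j : ℤ)))
              = c⁻¹ • pr hP (mul p m1 (fourierLp p (k : ℤ))) := by
            have h8 : pr hP (mul p m1 (fourierLp p (k : ℤ)))
                = pr hP (mul p (fun x => conj (κ x)) (fourierLp p (k : ℤ)))
                  - L (mul p (fun x => conj (κ x)) (fourierLp p (k : ℤ))) := by
              rw [hL, ContinuousLinearMap.comp_apply, ← map_sub]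
              congr 1
              rw [eq_sub_iff_add_eq, add_comm]
              exact h6.symm
            rw [h8, h3]
            have h9 : pr hP (fourierLp p (k : ℤ)) = c⁻¹ • (c • pr hP (fourierLp p (k : ℤ))) := by
              rw [smul_smul, inv_mul_cancel₀ hc0, one_smul]
            conv_lhs => rw [h9]
            rw [← smul_sub]
            congr 1
            abel
          rw [dist_eq_norm, h7, norm_smul, norm_inv]
          have h10 : ‖mul p m1 (fourierLp p (k : ℤ))‖ ≤ (η * ‖c‖) * ‖(fourierLp p (k : ℤ) : LL p)‖ := by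
            refine norm_mul_le_ae hbm1 ?_ _
            filter_upwards [hκE] with x hx
            rw [hm1, hcn]
            have hη0 : 0 ≤ η := by have := (pr hP).opNorm_nonneg; positivity
            by_cases hxE : x ∈ E
            · rw [Set.indicator_of_notMem (by simpa using hxE), norm_zero]; positivity
            · rw [Set.indicator_of_mem (by simpa using hxE), RCLike.norm_conj]; exact hx hxE
          have h11 := ((pr hP).le_opNorm (mul p m1 (fourierLp p (k : ℤ)))).trans
            (mul_le_mul_of_nonneg_left h10 (pr hP).opNorm_nonneg)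
          have hcp : 0 < ‖c‖ := norm_pos_iff.2 hc0
          have hpn : 0 ≤ ‖pr hP‖ := (pr hP).opNorm_nonneg
          have hfn : 0 ≤ ‖(fourierLp p (k : ℤ) : LL p)‖ := norm_nonneg _
          have hη0 : 0 < η := by positivity
          calc ‖c‖⁻¹ * ‖pr hP (mul p m1 (fourierLp p (k : ℤ)))‖
              ≤ ‖c‖⁻¹ * (‖pr hP‖ * ((η * ‖c‖) * ‖(fourierLp p (k : ℤ) : LL p)‖)) :=
                mul_le_mul_of_nonneg_left h11 (by positivity)
            _ = ‖pr hP‖ * ‖(fourierLp p (k : ℤ) : LL p)‖ * η := by field_simp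
            _ ≤ ((‖pr hP‖ + 1) * (‖(fourierLp p (k : ℤ) : LL p)‖ + 1)) * η := by
                refine mul_le_mul_of_nonneg_right ?_ hη0.le
                nlinarith
            _ = ε / 2 := by rw [hη]; field_simp
            _ < ε := by linarith
      rwa [hVc.closure_eq] at hcl
  have hint : ∀ n : ℤ, pr hP (fourierLp p n) ∈ V := by
    intro n
    rcases le_or_gt 0 n with hn | hn
    · obtain ⟨k, rfl⟩ := Int.eq_ofNat_of_zero_le hn
      exact hnat k
    · have : pr hP (fourierLp p n) = 0 := by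
        apply Subtype.ext
        rw [pr_coe, riesz_fourier hP h2, if_neg (by omega)]; rfl
      rw [this]; exact V.zero_mem
  have hall : ∀ u : LL p, pr hP u ∈ V := by
    intro u
    have hsp : ∀ w ∈ Submodule.span ℂ (Set.range (fourierLp (T := 2 * π) p)), pr hP w ∈ V := by
      intro w hw
      induction hw using Submodule.span_induction with
      | mem y hy => obtain ⟨n, rfl⟩ := hy; exact hint n
      | zero => rw [map_zero]; exact V.zero_mem
      | add y z _ _ hy hz => rw [map_add]; exact V.add_mem hy hz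
      | smul c y _ hy => rw [map_smul]; exact V.smul_mem _ hy
    have hd := Submodule.dense_iff_topologicalClosure_eq_top.2 (span_fourierLp_closure_eq_top (T := 2 * π) hp)
    have hcl : IsClosed {w : LL p | pr hP w ∈ V} := hVc.preimage (pr hP).continuous
    have := hcl.closure_subset_iff.2 (show (Submodule.span ℂ (Set.range (fourierLp (T := 2 * π) p)) : Set (LL p)) ⊆ _ from hsp)
    exact this (hd u)
  intro f
  have := hall (f : LL p)
  rw [pr_of_mem hP h2] at this
  exact this

/-- The block hypotheses for the coanalytic Toeplitz operator. -/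
theorem Sym.blk (h : Sym b φ E) {P : LL p →L[ℂ] LL p} (hP : IsRiesz P) (h2 : 2 ≤ p) (hp : p ≠ ∞)
    (hW : ∀ β : TT → ℂ, UN E β → ∀ (F G : LL p) (ε : ℝ), 0 < ε → ∀ᶠ n : ℕ in atTop,
      ‖mul p (ind E β 0) F + mul p (ind E β n) G‖ ^ 2 ≤ ‖F‖ ^ 2 + 2 * ‖G‖ ^ 2 + ε) :
    Blk (pr hP) (toep hP b) (toep hP φ) (AA p E (fun x => conj (b x))) where
  hTS y := by
    have aφ1 : Ana φ := by simpa using h.aφ 1
    rw [toep_apply hP φ, toep_pr hP h2 hp h.bb h.ab, mul_mul h.bb.conj h.bφ.conj]
    have : (fun x => conj (b x) * conj (φ x)) = fun _ : TT => (1 : ℂ) := by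
      funext x; rw [← map_mul, h.one, map_one]
    rw [this, mul_one', pr_of_mem hP h2]
  hS y := h.strong hP h2 hp y
  hA m n u := h.A_mul m n u
  hAn n u := h.A_norm n u
  hTP n u := by
    rw [toep_pr hP h2 hp h.bb h.ab, h.mul_A]
  hW F Ψ ε hε := by
    filter_upwards [hW _ h.un F Ψ ε hε] with n hn
    have h0 : AA p E (fun x => conj (b x)) 0 F = mul p (ind E (fun x => conj (b x)) 0) F := A_nat 0 F
    rw [h0, A_nat]
    exact hn
  hW' F Ψ ε hε := by
    filter_upwards [hW _ h.un' F Ψ ε hε] with n hn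
    have h0 : AA p E (fun x => conj (b x)) 0 F = mul p (ind E b 0) F := by
      have := h.A_neg 0 F (p := p)
      simpa using this
    rw [h0, h.A_neg]
    exact hn
  hd := h.dense hP h2 hp

theorem Sym.wa_four (h : Sym b φ E) {P : LL 4 →L[ℂ] LL 4} (hP : IsRiesz P) : WA (toep hP b) :=
  (h.blk hP (by norm_num) (by norm_num) (fun _ hβ F G _ hε => hβ.four F G hε)).wa

theorem Sym.wa_two (h : Sym b φ E) {P : LL 2 →L[ℂ] LL 2} (hP : IsRiesz P) : WA (toep hP b) :=
  (h.blk hP le_rfl (by norm_num) (fun _ hβ F G _ hε => hβ.two F G hε)).wa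

end Pool.Agent.Q87.WH
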