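import Pool.Agent.Q87.WHOp

/-! # The symbols `exp(∑ t_j 2^{-j} h_j)` with finitely many terms -/

open Filter Topology Complex MeasureTheory AddCircle
open scoped Real ComplexConjugate ENNReal

namespace Pool.Agent.Q87.WH


theorem norm_gg (c : ℝ) (t : ℕ → ℝ) (z : ℂ) : ‖gg c t z‖ = Real.exp (c * (HS t z).re) := by
  unfold gg
  rw [Complex.norm_exp, Complex.re_ofReal_mul]

theorem HS_single (m : ℕ) (z : ℂ) : HS (Pi.single m 1) z = ((1 / 2 : ℝ) ^ m : ℝ) * hh m z := by
  unfold HS
  rw [tsum_eq_single m]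
  · unfold tm; simp
  · intro j hj
    unfold tm
    rw [Pi.single_eq_of_ne hj]; simp

theorem single_le (m : ℕ) (j : ℕ) : |(Pi.single m 1 : ℕ → ℝ) j| ≤ 1 := by
  rcases eq_or_ne j m with rfl | h
  · simp
  · rw [Pi.single_eq_of_ne h]; simp

theorem single_nonneg (m : ℕ) (j : ℕ) : 0 ≤ (Pi.single m 1 : ℕ → ℝ) j := by
  rcases eq_or_ne j m with rfl | h
  · simp
  · rw [Pi.single_eq_of_ne h]

theorem ae_off (m : ℕ) : ∀ᵐ x ∂(haarAddCircle (T := 2 * π)), x ∉ EE m → sx x < m := by
  filter_upwards [ae_sx_ne] with x hx h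
  exact lt_of_le_of_ne (not_lt.1 h) (hx m)

theorem un_gg {t : ℕ → ℝ} (ht : ∀ j, |t j| ≤ 1) (ht0 : ∀ j, 0 ≤ t j) {m : ℕ}
    (hm : ∀ j, m < j → t j = 0) (htm : 0 < t m) : UN (EE m) (fun x => gg 1 t (zz x)) where
  mE := measurable_EE m
  mβ := (gg_bdd ht ht0 1).1
  one _ hx := norm_gg_on hm 1 hx
  null f := weak_null ht0 hm htm f

theorem UN.conj {E : Set TT} {β : TT → ℂ} (h : UN E β) : UN E (fun x => conj (β x)) where
  mE := h.mE
  mβ := Complex.continuous_conj.measurable.comp h.mβ
  one x hx := by rw [RCLike.norm_conj]; exact h.one x hx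
  null f := by
    have h1 := (Complex.continuous_conj.tendsto 0).comp (h.null (fun x => starRingEnd ℂ (f x)))
    rw [map_zero] at h1
    refine h1.congr fun n => ?_
    show starRingEnd ℂ (∫ x in E, β x ^ n * starRingEnd ℂ (f x) ∂(haarAddCircle (T := 2 * π))) = _
    rw [← integral_conj]
    refine integral_congr_ae (Eventually.of_forall fun x => ?_)
    show starRingEnd ℂ (β x ^ n * starRingEnd ℂ (f x)) = starRingEnd ℂ (β x) ^ n * f x
    rw [map_mul, map_pow, Complex.conj_conj]

theorem sym_fin {t : ℕ → ℝ} (ht : ∀ j, |t j| ≤ 1) (ht0 : ∀ j, 0 ≤ t j) {m : ℕ}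
    (hm : ∀ j, m < j → t j = 0) (htm : 0 < t m) :
    Sym (fun x => gg 1 t (zz x)) (fun x => gg (-1) t (zz x)) (EE m) where
  bb := gg_bdd ht ht0 1
  ab := gg_ana ht ht0 1
  bφ := gg_bdd ht ht0 (-1)
  aφ n := by
    simp_rw [gg_pow]
    exact gg_ana ht ht0 _
  one x := gg_mul_neg 1 t (zz x)
  φle x := by
    rw [norm_gg]
    have := HS_re_nonneg ht ht0 (re_cay_nonneg (norm_zz x).le)
    exact Real.exp_le_one_iff.2 (by linarith)
  un := (un_gg ht ht0 hm htm).conj
  un' := un_gg ht ht0 hm htm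
  coef k := by
    have hφ : ∀ x, ‖gg (-1) t (zz x)‖ ≤ 1 := fun x => by
      rw [norm_gg]
      have := HS_re_nonneg ht ht0 (re_cay_nonneg (norm_zz x).le)
      exact Real.exp_le_one_iff.2 (by linarith)
    have hmeas : ∀ n : ℕ, Measurable (fun x : TT => (fourier (-k) x : ℂ) * gg (-1) t (zz x) ^ n) := fun n =>
      (fourier (-k)).continuous.measurable.mul (((gg_bdd ht ht0 (-1)).pow n).1)
    have hint : ∀ n : ℕ, Integrable (fun x : TT => (fourier (-k) x : ℂ) * gg (-1) t (zz x) ^ n) (haarAddCircle (T := 2 * π)) := by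
      intro n
      refine Integrable.mono' (integrable_const (1 : ℝ)) (hmeas n).aestronglyMeasurable ?_
      refine Eventually.of_forall fun x => ?_
      rw [norm_mul, norm_fourier_apply, one_mul, norm_pow]
      exact pow_le_one₀ (norm_nonneg _) (hφ x)
    have hsplit : ∀ n : ℕ, fourierCoeff (fun x : TT => gg (-1) t (zz x) ^ n) k
        = ∫ x in EE m, (conj (gg 1 t (zz x))) ^ n * (fourier (-k) x : ℂ) ∂(haarAddCircle (T := 2 * π))
          + ∫ x in (EE m)ᶜ, (fourier (-k) x : ℂ) * gg (-1) t (zz x) ^ n ∂(haarAddCircle (T := 2 * π)) := by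
      intro n
      rw [fourierCoeff]
      simp only [smul_eq_mul]
      rw [← integral_add_compl (measurable_EE m) (hint n)]
      congr 1
      refine setIntegral_congr_fun (measurable_EE m) fun x hx => ?_
      show (fourier (-k) x : ℂ) * gg (-1) t (zz x) ^ n = (conj (gg 1 t (zz x))) ^ n * (fourier (-k) x : ℂ)
      have h1 := norm_gg_on hm 1 hx
      have h2 : gg 1 t (zz x) * conj (gg 1 t (zz x)) = 1 := by
        rw [Complex.mul_conj, Complex.normSq_eq_norm_sq, h1]; norm_num
      have h3 := gg_mul_neg 1 t (zz x)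
      have h4 : gg (-1) t (zz x) = conj (gg 1 t (zz x)) := by
        have hne : gg 1 t (zz x) ≠ 0 := by
          intro h0; rw [h0, zero_mul] at h3; exact zero_ne_one h3
        exact mul_left_cancel₀ hne (h3.trans h2.symm)
      rw [h4, mul_comm]
    simp_rw [hsplit]
    have t1 := (un_gg ht ht0 hm htm).conj.null (fun x => (fourier (-k) x : ℂ))
    have t2 : Tendsto (fun n : ℕ => ∫ x in (EE m)ᶜ, (fourier (-k) x : ℂ) * gg (-1) t (zz x) ^ n ∂(haarAddCircle (T := 2 * π)))
        atTop (𝓝 0) := by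
      have : (0 : ℂ) = ∫ x in (EE m)ᶜ, (0 : ℂ) ∂(haarAddCircle (T := 2 * π)) := by simp
      rw [this]
      refine tendsto_integral_of_dominated_convergence (fun _ => (1 : ℝ)) ?_ (integrable_const _) ?_ ?_
      · intro n; exact (hmeas n).aestronglyMeasurable
      · intro n
        refine Eventually.of_forall fun x => ?_
        rw [norm_mul, norm_fourier_apply, one_mul, norm_pow]
        exact pow_le_one₀ (norm_nonneg _) (hφ x)
      · rw [ae_restrict_iff' (measurable_EE m).compl]
        filter_upwards [ae_off m] with x hx hxE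
        have h1 := HS_off ht ht0 m (hx hxE)
        have h2 : ‖gg (-1) t (zz x)‖ < 1 := by
          rw [norm_gg]
          have : 0 < t m * (1 / 2) ^ m := by positivity
          exact Real.exp_lt_one_iff.2 (by linarith)
        have h3 := tendsto_pow_atTop_nhds_zero_of_norm_lt_one h2
        have h4 := h3.const_mul (fourier (-k) x : ℂ)
        rw [mul_zero] at h4
        exact h4
    have := t1.add t2
    rw [add_zero] at this
    exact this
  den η hη := by
    set ρ : ℝ := (hh m 0).re with hρ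
    have hρ1 : ρ < 1 := hh_re_lt (by simp [cay])
    obtain ⟨N, hN⟩ := exists_nat_gt (-Real.log η / (1 - ρ))
    have hNη : Real.exp (-(N : ℝ) * (1 - ρ)) ≤ η := by
      rw [← Real.exp_log hη, Real.exp_le_exp]
      rw [div_lt_iff₀ (by linarith)] at hN
      linarith
    have hs1 := single_le m
    have hs0 := single_nonneg m
    have hHS : ∀ z, (HS (Pi.single m 1) z).re = (1 / 2) ^ m * (hh m z).re := fun z => by
      rw [HS_single, Complex.re_ofReal_mul]
    refine ⟨fun x => gg (-(N : ℝ) * 2 ^ m) (Pi.single m 1) (zz x), gg_bdd hs1 hs0 _, gg_ana hs1 hs0 _, ?_, ?_⟩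
    · rw [gg_coeff_zero hs1 hs0]
      unfold gg
      exact Complex.exp_ne_zero _
    · filter_upwards [ae_off m] with x hx hxE
      rw [gg_coeff_zero hs1 hs0, norm_gg, norm_gg, hHS, hHS]
      have h1 : (hh m (zz x)).re = 1 := by
        rw [hh_lt (cay_zz' x) (hx hxE)]
        have : (I / (π : ℂ)) * (Real.log (m - sx x) : ℝ) = ((Real.log (m - sx x) / π : ℝ) : ℂ) * I := by
          push_cast; ring
        rw [this]; simp
      rw [h1, ← hρ]
      have h2 : -(N : ℝ) * 2 ^ m * ((1 / 2) ^ m * 1) = -(N : ℝ) * (1 - ρ) + -(N : ℝ) * 2 ^ m * ((1 / 2) ^ m * ρ) := by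
        have : (2 : ℝ) ^ m * (1 / 2) ^ m = 1 := by rw [← mul_pow]; norm_num
        linear_combination (-(N : ℝ) + (N : ℝ) * ρ) * this
      rw [h2, Real.exp_add]
      exact mul_le_mul_of_nonneg_right hNη (Real.exp_nonneg _)

end Pool.Agent.Q87.WH
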