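import Pool.Agent.Q87.WHFour

/-! # Weakly hypercyclic coanalytic Toeplitz operators on `H²` with `|g| > 1` almost everywhere -/

open Filter Topology Complex MeasureTheory AddCircle
open scoped Real ComplexConjugate ENNReal

namespace Pool.Agent.Q87.WH

/-- The parameter space. -/
abbrev ZZ : Type := ℕ → unitInterval

/-- The coefficients. -/
def cf (z : ZZ) : ℕ → ℝ := fun j => (z j : ℝ)

theorem cf_le (z : ZZ) (j : ℕ) : |cf z j| ≤ 1 := by
  have h1 := (z j).2.1
  have h2 := (z j).2.2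
  show |((z j : unitInterval) : ℝ)| ≤ 1
  rw [abs_of_nonneg h1]; exact h2

theorem cf_nonneg (z : ZZ) (j : ℕ) : 0 ≤ cf z j := (z j).2.1

theorem continuous_cf (j : ℕ) : Continuous (fun z : ZZ => cf z j) :=
  continuous_subtype_val.comp (continuous_apply j)

/-- Continuity in the parameter. -/
theorem continuous_HS (w : ℂ) : Continuous (fun z : ZZ => HS (cf z) w) := by
  obtain ⟨d, hd, hdj⟩ := exists_gap (cay w)
  unfold HS
  refine continuous_tsum (u := fun j : ℕ => (1 / 2 : ℝ) ^ j * ((‖cay w‖ + 1 / d + 5) + j)) ?_ (summable_aux _) ?_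
  · intro j
    unfold tm
    exact (Complex.continuous_ofReal.comp ((continuous_cf j).mul_const _)).mul_const _
  · intro j z
    exact norm_tm_le (cf_le z) hd le_rfl (hdj j)

theorem continuous_gg (c : ℝ) (w : ℂ) : Continuous (fun z : ZZ => gg c (cf z) w) := by
  unfold gg
  exact Complex.continuous_exp.comp ((continuous_HS w).const_mul _)

/-- The symbol. -/
noncomputable def bz (z : ZZ) (x : TT) : ℂ := gg 1 (cf z) (zz x)

theorem bz_bdd (z : ZZ) : Bdd (bz z) := gg_bdd (cf_le z) (cf_nonneg z) 1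

theorem bz_ana (z : ZZ) : Ana (bz z) := gg_ana (cf_le z) (cf_nonneg z) 1

theorem bz_norm (z : ZZ) (x : TT) : ‖bz z x‖ ≤ Real.exp 2 := by
  have := gg_bound (cf_le z) (cf_nonneg z) 1 (norm_zz x).le
  unfold bz
  simpa using this

/-- Continuity of the multiplication operators in the strong sense. -/
theorem cont_mul (n : ℕ) : Continuous (fun q : ZZ × LL 2 => mul 2 (fun x => conj (bz q.1 x) ^ n) q.2) := by
  rw [continuous_iff_continuousAt]
  rintro ⟨z₀, f₀⟩
  have hb : ∀ z, Bdd (fun x => conj (bz z x) ^ n) := fun z => (bz_bdd z).conj.pow n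
  have hK : ∀ z x, ‖conj (bz z x) ^ n‖ ≤ Real.exp 2 ^ n := fun z x => by
    rw [norm_pow, RCLike.norm_conj]
    exact pow_le_pow_left₀ (norm_nonneg _) (bz_norm z x) n
  -- the scalar part
  have h1 : Tendsto (fun z : ZZ => ‖mul 2 (fun x => conj (bz z x) ^ n) f₀
      - mul 2 (fun x => conj (bz z₀ x) ^ n) f₀‖ ^ 2) (𝓝 z₀) (𝓝 0) := by
    have h2 : ∀ z : ZZ, ‖mul 2 (fun x => conj (bz z x) ^ n) f₀
      - mul 2 (fun x => conj (bz z₀ x) ^ n) f₀‖ ^ 2
        = ∫ x, ‖(conj (bz z x) ^ n - conj (bz z₀ x) ^ n) * f₀ x‖ ^ 2 ∂(haarAddCircle (T := 2 * π)) := by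
      intro z
      rw [Lnorm_pow (p := 2) (k := 2) (by norm_num) (by norm_num)]
      refine integral_congr_ae ?_
      filter_upwards [Lp.coeFn_sub (mul 2 (fun x => conj (bz z x) ^ n) f₀) (mul 2 (fun x => conj (bz z₀ x) ^ n) f₀),
        mul_ae (hb z) f₀, mul_ae (hb z₀) f₀] with x e1 e2 e3
      rw [e1, Pi.sub_apply, e2, e3, sub_mul]
    simp_rw [h2]
    have h3 : (0 : ℝ) = ∫ x : TT, (0 : ℝ) ∂(haarAddCircle (T := 2 * π)) := by simp
    rw [h3]
    have hf : Integrable (fun x => ‖f₀ x‖ ^ 2) (haarAddCircle (T := 2 * π)) := by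
      have := (Lp.memLp f₀).integrable_norm_pow (p := 2) (by norm_num)
      simpa using this
    refine tendsto_integral_filter_of_dominated_convergence
      (fun x => (2 * Real.exp 2 ^ n) ^ 2 * ‖f₀ x‖ ^ 2) ?_ ?_ (hf.const_mul _) ?_
    · refine Eventually.of_forall fun z => ?_
      exact ((((hb z).1.sub (hb z₀).1).aestronglyMeasurable.mul (Lp.memLp f₀).1).norm.pow 2)
    · refine Eventually.of_forall fun z => Eventually.of_forall fun x => ?_
      rw [Real.norm_of_nonneg (by positivity), norm_mul, mul_pow]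
      refine mul_le_mul_of_nonneg_right (pow_le_pow_left₀ (norm_nonneg _) ?_ 2) (by positivity)
      refine (norm_sub_le _ _).trans ?_
      linarith [hK z x, hK z₀ x]
    · refine Eventually.of_forall fun x => ?_
      have h4 : Continuous (fun z : ZZ => ‖(conj (bz z x) ^ n - conj (bz z₀ x) ^ n) * f₀ x‖ ^ 2) := by
        have h5 : Continuous (fun z : ZZ => bz z x) := continuous_gg 1 (zz x)
        have h6 : Continuous (fun z : ZZ => conj (bz z x)) := Complex.continuous_conj.comp h5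
        exact ((((h6.pow n).sub continuous_const).mul continuous_const).norm.pow 2)
      have := h4.tendsto z₀
      simpa using this
  have h1' : Tendsto (fun z : ZZ => ‖mul 2 (fun x => conj (bz z x) ^ n) f₀
      - mul 2 (fun x => conj (bz z₀ x) ^ n) f₀‖) (𝓝 z₀) (𝓝 0) := by
    have := (Real.continuous_sqrt.tendsto 0).comp h1
    rw [Real.sqrt_zero] at this
    refine this.congr fun z => ?_
    exact Real.sqrt_sq (norm_nonneg _)
  rw [ContinuousAt, tendsto_iff_norm_sub_tendsto_zero]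
  have h7 : Tendsto (fun q : ZZ × LL 2 => Real.exp 2 ^ n * ‖q.2 - f₀‖ + ‖mul 2 (fun x => conj (bz q.1 x) ^ n) f₀
      - mul 2 (fun x => conj (bz z₀ x) ^ n) f₀‖) (𝓝 (z₀, f₀)) (𝓝 0) := by
    have t1 : Tendsto (fun q : ZZ × LL 2 => Real.exp 2 ^ n * ‖q.2 - f₀‖) (𝓝 (z₀, f₀)) (𝓝 0) := by
      have : Continuous (fun q : ZZ × LL 2 => Real.exp 2 ^ n * ‖q.2 - f₀‖) := by fun_prop
      have h := this.tendsto (z₀, f₀)
      simpa using h
    have t2 := h1'.comp ((continuous_fst (X := ZZ) (Y := LL 2)).tendsto (z₀, f₀))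
    have := t1.add t2
    rw [add_zero] at this
    exact this
  refine squeeze_zero (fun _ => norm_nonneg _) (fun q => ?_) h7
  have h8 : mul 2 (fun x => conj (bz q.1 x) ^ n) q.2 - mul 2 (fun x => conj (bz z₀ x) ^ n) f₀
      = mul 2 (fun x => conj (bz q.1 x) ^ n) (q.2 - f₀) + (mul 2 (fun x => conj (bz q.1 x) ^ n) f₀
        - mul 2 (fun x => conj (bz z₀ x) ^ n) f₀) := by
    rw [map_sub]; abel
  show ‖mul 2 (fun x => conj (bz q.1 x) ^ n) q.2 - mul 2 (fun x => conj (bz z₀ x) ^ n) f₀‖ ≤ _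
  rw [h8]
  exact (norm_add_le _ _).trans (add_le_add (norm_mul_le (hb q.1) (hK q.1) _) le_rfl)

theorem two_le_two : (2 : ℝ≥0∞) ≤ 2 := le_refl 2

theorem toep_pow_eq {P : LL 2 →L[ℂ] LL 2} (hP : IsRiesz P) (n : ℕ) {m : TT → ℂ} (hm : Bdd m)
    (ha : Ana m) (f : HH 2) :
    (toep hP m ^ n) f = pr hP (mul 2 (fun x => conj (m x) ^ n) (f : LL 2)) := by
  have h1 := toep_pow_pr (p := 2) hP two_le_two ENNReal.ofNat_ne_top hm ha (f : LL 2) n
  have h2 := pr_of_mem (p := 2) hP two_le_two f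
  rw [h2] at h1
  exact h1

theorem cont_toep {P : LL 2 →L[ℂ] LL 2} (hP : IsRiesz P) (n : ℕ) :
    Continuous (fun q : ZZ × HH 2 => (toep hP (bz q.1) ^ n) q.2) := by
  have h0 : (fun q : ZZ × HH 2 => (toep hP (bz q.1) ^ n) q.2)
      = (fun u : LL 2 => pr hP u) ∘ (fun q : ZZ × LL 2 => mul 2 (fun x => conj (bz q.1 x) ^ n) q.2)
        ∘ (fun q : ZZ × HH 2 => (q.1, (q.2 : LL 2))) := by
    funext q
    exact toep_pow_eq hP n (bz_bdd q.1) (bz_ana q.1) q.2
  rw [h0]
  have h2 : Continuous (fun q : ZZ × HH 2 => (q.1, (q.2 : LL 2))) :=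
    continuous_fst.prodMk (continuous_subtype_val.comp continuous_snd)
  have h3 : Continuous (fun u : LL 2 => pr hP u) := (pr hP).continuous
  exact h3.comp ((cont_mul n).comp h2)

end Pool.Agent.Q87.WH
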