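import Pool.Agent.Q87.WHNull

/-! # Asymptotic norm inequality `‖F + βⁿ Ψ‖² ≲ ‖F‖² + 2‖Ψ‖²` in `L²` and `L⁴` -/

open Filter Topology Complex MeasureTheory AddCircle
open scoped Real ComplexConjugate ENNReal

namespace Pool.Agent.Q87.WH


/-- The multiplier `χ_E βⁿ`. -/
noncomputable def ind (E : Set TT) (β : TT → ℂ) (n : ℕ) : TT → ℂ := E.indicator (fun x => β x ^ n)

structure UN (E : Set TT) (β : TT → ℂ) : Prop where
  mE : MeasurableSet E
  mβ : Measurable β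
  one : ∀ x ∈ E, ‖β x‖ = 1
  null : ∀ f : TT → ℂ, Tendsto (fun n : ℕ => ∫ x in E, β x ^ n * f x ∂(haarAddCircle (T := 2 * π))) atTop (𝓝 0)

theorem UN.bdd {E : Set TT} {β : TT → ℂ} (h : UN E β) (n : ℕ) : Bdd (ind E β n) := by
  refine ⟨(h.mβ.pow_const n).indicator h.mE, 1, fun x => ?_⟩
  unfold ind
  by_cases hx : x ∈ E
  · rw [Set.indicator_of_mem hx, norm_pow, h.one x hx, one_pow]
  · rw [Set.indicator_of_notMem hx, norm_zero]; exact zero_le_one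

theorem four_id (F G β : ℂ) (hβ : ‖β‖ = 1) :
    ‖F + β * G‖ ^ 4 = (‖F‖ ^ 4 + ‖G‖ ^ 4 + 4 * (‖F‖ ^ 2 * ‖G‖ ^ 2))
      + 2 * (β ^ 2 * (conj F ^ 2 * G ^ 2)).re
      + 4 * (β * (((‖F‖ ^ 2 + ‖G‖ ^ 2 : ℝ) : ℂ) * (conj F * G))).re := by
  have h1 : ‖F + β * G‖ ^ 2 = ‖F‖ ^ 2 + ‖G‖ ^ 2 + 2 * (β * (conj F * G)).re := by
    rw [← Complex.normSq_eq_norm_sq, ← Complex.normSq_eq_norm_sq, ← Complex.normSq_eq_norm_sq,
      Complex.normSq_add, Complex.normSq_mul, Complex.normSq_eq_norm_sq β, hβ]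
    have : (F * conj (β * G)).re = (β * (conj F * G)).re := by
      rw [← Complex.conj_re (F * conj (β * G))]
      congr 1
      rw [map_mul, Complex.conj_conj]; ring
    rw [this]; ring
  have h2 : ‖β * (conj F * G)‖ ^ 2 = ‖F‖ ^ 2 * ‖G‖ ^ 2 := by
    rw [norm_mul, norm_mul, hβ, RCLike.norm_conj]; ring
  set w := β * (conj F * G) with hw
  have h3 : β ^ 2 * (conj F ^ 2 * G ^ 2) = w ^ 2 := by rw [hw]; ring
  have h4 : β * (((‖F‖ ^ 2 + ‖G‖ ^ 2 : ℝ) : ℂ) * (conj F * G)) = ((‖F‖ ^ 2 + ‖G‖ ^ 2 : ℝ) : ℂ) * w := by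
    rw [hw]; ring
  have h5 : (w ^ 2).re = 2 * w.re ^ 2 - ‖w‖ ^ 2 := by
    rw [← Complex.normSq_eq_norm_sq, Complex.normSq_apply, sq w, Complex.mul_re]; ring
  rw [h3, h4, Complex.re_ofReal_mul, h5, h2]
  have h6 : ‖F + β * G‖ ^ 4 = (‖F + β * G‖ ^ 2) ^ 2 := by ring
  rw [h6, h1]; ring

theorem two_id (F G β : ℂ) (hβ : ‖β‖ = 1) :
    ‖F + β * G‖ ^ 2 = (‖F‖ ^ 2 + ‖G‖ ^ 2) + 2 * (β * (conj F * G)).re := by
  rw [← Complex.normSq_eq_norm_sq, ← Complex.normSq_eq_norm_sq, ← Complex.normSq_eq_norm_sq,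
    Complex.normSq_add, Complex.normSq_mul, Complex.normSq_eq_norm_sq β, hβ]
  have : (F * conj (β * G)).re = (β * (conj F * G)).re := by
    rw [← Complex.conj_re (F * conj (β * G))]
    congr 1
    rw [map_mul, Complex.conj_conj]; ring
  rw [this]; ring

theorem cs_four (F G : LL 4) : ∫ x, ‖F x‖ ^ 2 * ‖G x‖ ^ 2 ∂(haarAddCircle (T := 2 * π)) ≤ ‖F‖ ^ 2 * ‖G‖ ^ 2 := by
  have h4 : (4 : ℝ≥0∞) = ((4 : ℕ) : ℝ≥0∞) := by norm_num
  have hi : ∀ F : LL 4, Integrable (fun x => ‖F x‖ ^ 4) (haarAddCircle (T := 2 * π)) := fun F => by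
    have := (Lp.memLp F).integrable_norm_pow (p := 4) (by norm_num)
    simpa using this
  have hmem : ∀ F : LL 4, MemLp (fun x => ‖F x‖ ^ 2) (ENNReal.ofReal 2) (haarAddCircle (T := 2 * π)) := fun F => by
    have h2 : ENNReal.ofReal 2 = 2 := by norm_num
    have hm : AEStronglyMeasurable (fun x => ‖F x‖ ^ 2) (haarAddCircle (T := 2 * π)) := (Lp.memLp F).1.norm.pow 2
    rw [h2, memLp_two_iff_integrable_sq hm]
    refine (hi F).congr (Eventually.of_forall fun x => ?_)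
    show ‖F x‖ ^ 4 = (‖F x‖ ^ 2) ^ 2
    ring
  have h := integral_mul_le_Lp_mul_Lq_of_nonneg (p := 2) (q := 2)
    Real.HolderConjugate.two_two (f := fun x => ‖F x‖ ^ 2) (g := fun x => ‖G x‖ ^ 2)
    (Eventually.of_forall fun x => by positivity) (Eventually.of_forall fun x => by positivity)
    (hmem F) (hmem G)
  have hv : ∀ F : LL 4, (∫ x, (‖F x‖ ^ 2) ^ (2 : ℝ) ∂(haarAddCircle (T := 2 * π))) ^ (1 / (2 : ℝ)) = ‖F‖ ^ 2 := fun F => by
    have h1 : ∫ x, (‖F x‖ ^ 2) ^ (2 : ℝ) ∂(haarAddCircle (T := 2 * π)) = ‖F‖ ^ 4 := by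
      rw [Lnorm_pow (k := 4) (by norm_num) h4 F]
      refine integral_congr_ae (Eventually.of_forall fun x => ?_)
      show (‖F x‖ ^ 2) ^ (2 : ℝ) = ‖F x‖ ^ 4
      rw [Real.rpow_two]; ring
    rw [h1, ← Real.sqrt_eq_rpow, show ‖F‖ ^ 4 = (‖F‖ ^ 2) ^ 2 by ring, Real.sqrt_sq (by positivity)]
  rw [hv, hv] at h
  exact h

theorem sq_bound {a B ε : ℝ} (hB : 0 ≤ B) (hε : 0 < ε) (h : a ^ 2 ≤ B ^ 2 + ε ^ 2) : a ≤ B + ε := by
  refine abs_le_of_sq_le_sq' ?_ (by positivity) |>.2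
  nlinarith [mul_nonneg hB hε.le]

/-- The inequality in `L⁴`. -/
theorem UN.four {E : Set TT} {β : TT → ℂ} (h : UN E β) (F G : LL 4) {ε : ℝ} (hε : 0 < ε) :
    ∀ᶠ n : ℕ in atTop, ‖mul 4 (ind E β 0) F + mul 4 (ind E β n) G‖ ^ 2
      ≤ ‖F‖ ^ 2 + 2 * ‖G‖ ^ 2 + ε := by
  have h4 : (4 : ℝ≥0∞) = ((4 : ℕ) : ℝ≥0∞) := by norm_num
  have hi : ∀ F : LL 4, Integrable (fun x => ‖F x‖ ^ 4) (haarAddCircle (T := 2 * π)) := fun F => by
    have := (Lp.memLp F).integrable_norm_pow (p := 4) (by norm_num)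
    simpa using this
  set f1 : TT → ℂ := fun x => conj (F x) ^ 2 * G x ^ 2 with hf1
  set f2 : TT → ℂ := fun x => ((‖F x‖ ^ 2 + ‖G x‖ ^ 2 : ℝ) : ℂ) * (conj (F x) * G x) with hf2
  have hFm := (Lp.memLp F).1
  have hGm := (Lp.memLp G).1
  have hcF : AEStronglyMeasurable (fun x => conj (F x)) (haarAddCircle (T := 2 * π)) :=
    Complex.continuous_conj.comp_aestronglyMeasurable hFm
  have hi1 : Integrable f1 (haarAddCircle (T := 2 * π)) := by
    refine Integrable.mono' ((hi F).add (hi G)) ((hcF.pow 2).mul (hGm.pow 2)) ?_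
    refine Eventually.of_forall fun x => ?_
    show ‖conj (F x) ^ 2 * G x ^ 2‖ ≤ ‖F x‖ ^ 4 + ‖G x‖ ^ 4
    rw [norm_mul, norm_pow, norm_pow, RCLike.norm_conj]
    nlinarith [sq_nonneg (‖F x‖ ^ 2 - ‖G x‖ ^ 2), sq_nonneg (‖F x‖ ^ 2), sq_nonneg (‖G x‖ ^ 2)]
  have hi2 : Integrable f2 (haarAddCircle (T := 2 * π)) := by
    have hm : AEStronglyMeasurable f2 (haarAddCircle (T := 2 * π)) := by
      refine AEStronglyMeasurable.mul ?_ (hcF.mul hGm)
      exact Complex.continuous_ofReal.comp_aestronglyMeasurable ((hFm.norm.pow 2).add (hGm.norm.pow 2))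
    refine Integrable.mono' (((hi F).add (hi G)).const_mul 2) hm ?_
    refine Eventually.of_forall fun x => ?_
    show ‖((‖F x‖ ^ 2 + ‖G x‖ ^ 2 : ℝ) : ℂ) * (conj (F x) * G x)‖ ≤ 2 * (‖F x‖ ^ 4 + ‖G x‖ ^ 4)
    rw [norm_mul, norm_mul, RCLike.norm_conj, Complex.norm_real, Real.norm_of_nonneg (by positivity)]
    have ha := norm_nonneg (F x)
    have hb := norm_nonneg (G x)
    have h5 : ‖F x‖ * ‖G x‖ ≤ ‖F x‖ ^ 2 + ‖G x‖ ^ 2 := by
      nlinarith [sq_nonneg (‖F x‖ - ‖G x‖)]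
    have h6 : (‖F x‖ ^ 2 + ‖G x‖ ^ 2) * (‖F x‖ * ‖G x‖) ≤ (‖F x‖ ^ 2 + ‖G x‖ ^ 2) * (‖F x‖ ^ 2 + ‖G x‖ ^ 2) :=
      mul_le_mul_of_nonneg_left h5 (by positivity)
    nlinarith [sq_nonneg (‖F x‖ ^ 2 - ‖G x‖ ^ 2)]
  have hi3 : Integrable (fun x => ‖F x‖ ^ 2 * ‖G x‖ ^ 2) (haarAddCircle (T := 2 * π)) := by
    refine Integrable.mono' ((hi F).add (hi G)) ((hFm.norm.pow 2).mul (hGm.norm.pow 2)) ?_
    refine Eventually.of_forall fun x => ?_
    show ‖‖F x‖ ^ 2 * ‖G x‖ ^ 2‖ ≤ ‖F x‖ ^ 4 + ‖G x‖ ^ 4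
    rw [Real.norm_of_nonneg (by positivity)]
    nlinarith [sq_nonneg (‖F x‖ ^ 2 - ‖G x‖ ^ 2), sq_nonneg (‖F x‖ ^ 2), sq_nonneg (‖G x‖ ^ 2)]
  set g0 : TT → ℝ := fun x => ‖F x‖ ^ 4 + ‖G x‖ ^ 4 + 4 * (‖F x‖ ^ 2 * ‖G x‖ ^ 2) with hg0
  have hi0 : Integrable g0 (haarAddCircle (T := 2 * π)) := ((hi F).add (hi G)).add (hi3.const_mul 4)
  -- multiplication by powers of β preserves integrability on E
  have hβi : ∀ (n : ℕ) (f : TT → ℂ), Integrable f (haarAddCircle (T := 2 * π)) → IntegrableOn (fun x => β x ^ n * f x) E (haarAddCircle (T := 2 * π)) := by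
    intro n f hf
    refine Integrable.mono' (hf.norm.integrableOn (s := E)) ?_ ?_
    · exact ((h.mβ.pow_const n).aestronglyMeasurable.mul hf.1).restrict
    · refine (ae_restrict_iff' h.mE).2 (Eventually.of_forall fun x hx => ?_)
      rw [norm_mul, norm_pow, h.one x hx, one_pow, one_mul]
  have hval : ∀ n : ℕ, ‖mul 4 (ind E β 0) F + mul 4 (ind E β n) G‖ ^ 4
      = ∫ x in E, g0 x ∂(haarAddCircle (T := 2 * π)) + 2 * (∫ x in E, β x ^ (2 * n) * f1 x ∂(haarAddCircle (T := 2 * π))).re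
        + 4 * (∫ x in E, β x ^ n * f2 x ∂(haarAddCircle (T := 2 * π))).re := by
    intro n
    rw [Lnorm_pow (k := 4) (by norm_num) h4]
    have e1 : ∫ x, ‖(mul 4 (ind E β 0) F + mul 4 (ind E β n) G : LL 4) x‖ ^ 4 ∂(haarAddCircle (T := 2 * π))
        = ∫ x, E.indicator (fun x => g0 x + 2 * (β x ^ (2 * n) * f1 x).re + 4 * (β x ^ n * f2 x).re) x ∂(haarAddCircle (T := 2 * π)) := by
      refine integral_congr_ae ?_
      filter_upwards [Lp.coeFn_add (mul 4 (ind E β 0) F) (mul 4 (ind E β n) G), mul_ae (h.bdd 0) F,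
        mul_ae (h.bdd n) G] with x h1 h2 h3
      rw [h1, Pi.add_apply, h2, h3]
      unfold ind
      by_cases hx : x ∈ E
      · simp only [Set.indicator_of_mem hx, pow_zero, one_mul]
        rw [four_id (F x) (G x) (β x ^ n) (by rw [norm_pow, h.one x hx, one_pow])]
        rw [← pow_mul, mul_comm n 2]
      · simp only [Set.indicator_of_notMem hx, zero_mul, add_zero, norm_zero]
        norm_num
    rw [e1, integral_indicator h.mE]
    have i1 : IntegrableOn (fun x => (β x ^ (2 * n) * f1 x).re) E (haarAddCircle (T := 2 * π)) := (hβi (2 * n) f1 hi1).re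
    have i2 : IntegrableOn (fun x => (β x ^ n * f2 x).re) E (haarAddCircle (T := 2 * π)) := (hβi n f2 hi2).re
    have i3 : IntegrableOn (fun x => g0 x + 2 * (β x ^ (2 * n) * f1 x).re) E (haarAddCircle (T := 2 * π)) :=
      hi0.integrableOn.add (i1.const_mul 2)
    rw [integral_add i3 (i2.const_mul 4),
      integral_add hi0.integrableOn (i1.const_mul 2), integral_const_mul, integral_const_mul]
    congr 2
    · congr 1
      exact integral_re (hβi (2 * n) f1 hi1)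
    · exact integral_re (hβi n f2 hi2)
  have hL : ∫ x in E, g0 x ∂(haarAddCircle (T := 2 * π)) ≤ (‖F‖ ^ 2 + 2 * ‖G‖ ^ 2) ^ 2 := by
    have e1 : ∫ x in E, g0 x ∂(haarAddCircle (T := 2 * π)) ≤ ∫ x, g0 x ∂(haarAddCircle (T := 2 * π)) :=
      setIntegral_le_integral hi0 (Eventually.of_forall fun x => by
        show 0 ≤ ‖F x‖ ^ 4 + ‖G x‖ ^ 4 + 4 * (‖F x‖ ^ 2 * ‖G x‖ ^ 2)
        positivity)
    have e2 : ∫ x, g0 x ∂(haarAddCircle (T := 2 * π)) = ‖F‖ ^ 4 + ‖G‖ ^ 4 + 4 * ∫ x, ‖F x‖ ^ 2 * ‖G x‖ ^ 2 ∂(haarAddCircle (T := 2 * π)) := by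
      have i4 : Integrable (fun x => ‖F x‖ ^ 4 + ‖G x‖ ^ 4) (haarAddCircle (T := 2 * π)) := (hi F).add (hi G)
      show ∫ x, (‖F x‖ ^ 4 + ‖G x‖ ^ 4 + 4 * (‖F x‖ ^ 2 * ‖G x‖ ^ 2)) ∂(haarAddCircle (T := 2 * π)) = _
      rw [integral_add i4 (hi3.const_mul 4), integral_add (hi F) (hi G),
        integral_const_mul, Lnorm_pow (k := 4) (by norm_num) h4 F, Lnorm_pow (k := 4) (by norm_num) h4 G]
    have e3 := cs_four F G
    have e4 : 0 ≤ ‖G‖ ^ 4 := by positivity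
    rw [e2] at e1
    nlinarith
  have hlim : Tendsto (fun n : ℕ => 2 * (∫ x in E, β x ^ (2 * n) * f1 x ∂(haarAddCircle (T := 2 * π))).re
        + 4 * (∫ x in E, β x ^ n * f2 x ∂(haarAddCircle (T := 2 * π))).re) atTop (𝓝 0) := by
    have t1 : Tendsto (fun n : ℕ => (∫ x in E, β x ^ (2 * n) * f1 x ∂(haarAddCircle (T := 2 * π))).re) atTop (𝓝 0) := by
      have h1 : Tendsto (fun n : ℕ => 2 * n) atTop atTop :=
        tendsto_id.const_mul_atTop' (by norm_num)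
      exact (Complex.continuous_re.tendsto 0).comp ((h.null f1).comp h1)
    have t2 : Tendsto (fun n : ℕ => (∫ x in E, β x ^ n * f2 x ∂(haarAddCircle (T := 2 * π))).re) atTop (𝓝 0) := by
      exact (Complex.continuous_re.tendsto 0).comp (h.null f2)
    have := (t1.const_mul 2).add (t2.const_mul 4)
    simpa using this
  filter_upwards [hlim.eventually_lt_const (show (0 : ℝ) < ε ^ 2 by positivity)] with n hn
  refine sq_bound (by positivity) hε ?_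
  have e1 : (‖mul 4 (ind E β 0) F + mul 4 (ind E β n) G‖ ^ 2) ^ 2
      = ‖mul 4 (ind E β 0) F + mul 4 (ind E β n) G‖ ^ 4 := by ring
  rw [e1, hval n]
  linarith

/-- The inequality in `L²`. -/
theorem UN.two {E : Set TT} {β : TT → ℂ} (h : UN E β) (F G : LL 2) {ε : ℝ} (hε : 0 < ε) :
    ∀ᶠ n : ℕ in atTop, ‖mul 2 (ind E β 0) F + mul 2 (ind E β n) G‖ ^ 2
      ≤ ‖F‖ ^ 2 + 2 * ‖G‖ ^ 2 + ε := by
  have h4 : (2 : ℝ≥0∞) = ((2 : ℕ) : ℝ≥0∞) := by norm_num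
  have hi : ∀ F : LL 2, Integrable (fun x => ‖F x‖ ^ 2) (haarAddCircle (T := 2 * π)) := fun F => by
    have := (Lp.memLp F).integrable_norm_pow (p := 2) (by norm_num)
    simpa using this
  set f2 : TT → ℂ := fun x => conj (F x) * G x with hf2
  have hFm := (Lp.memLp F).1
  have hGm := (Lp.memLp G).1
  have hcF : AEStronglyMeasurable (fun x => conj (F x)) (haarAddCircle (T := 2 * π)) :=
    Complex.continuous_conj.comp_aestronglyMeasurable hFm
  have hi2 : Integrable f2 (haarAddCircle (T := 2 * π)) := by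
    refine Integrable.mono' ((hi F).add (hi G)) (hcF.mul hGm) ?_
    refine Eventually.of_forall fun x => ?_
    show ‖conj (F x) * G x‖ ≤ ‖F x‖ ^ 2 + ‖G x‖ ^ 2
    rw [norm_mul, RCLike.norm_conj]
    nlinarith [sq_nonneg (‖F x‖ - ‖G x‖), sq_nonneg (‖F x‖), sq_nonneg (‖G x‖)]
  set g0 : TT → ℝ := fun x => ‖F x‖ ^ 2 + ‖G x‖ ^ 2 with hg0
  have hi0 : Integrable g0 (haarAddCircle (T := 2 * π)) := (hi F).add (hi G)
  have hβi : ∀ (n : ℕ) (f : TT → ℂ), Integrable f (haarAddCircle (T := 2 * π)) → IntegrableOn (fun x => β x ^ n * f x) E (haarAddCircle (T := 2 * π)) := by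
    intro n f hf
    refine Integrable.mono' (hf.norm.integrableOn (s := E)) ?_ ?_
    · exact ((h.mβ.pow_const n).aestronglyMeasurable.mul hf.1).restrict
    · refine (ae_restrict_iff' h.mE).2 (Eventually.of_forall fun x hx => ?_)
      rw [norm_mul, norm_pow, h.one x hx, one_pow, one_mul]
  have hval : ∀ n : ℕ, ‖mul 2 (ind E β 0) F + mul 2 (ind E β n) G‖ ^ 2
      = ∫ x in E, g0 x ∂(haarAddCircle (T := 2 * π)) + 2 * (∫ x in E, β x ^ n * f2 x ∂(haarAddCircle (T := 2 * π))).re := by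
    intro n
    rw [Lnorm_pow (k := 2) (by norm_num) h4]
    have e1 : ∫ x, ‖(mul 2 (ind E β 0) F + mul 2 (ind E β n) G : LL 2) x‖ ^ 2 ∂(haarAddCircle (T := 2 * π))
        = ∫ x, E.indicator (fun x => g0 x + 2 * (β x ^ n * f2 x).re) x ∂(haarAddCircle (T := 2 * π)) := by
      refine integral_congr_ae ?_
      filter_upwards [Lp.coeFn_add (mul 2 (ind E β 0) F) (mul 2 (ind E β n) G), mul_ae (h.bdd 0) F,
        mul_ae (h.bdd n) G] with x h1 h2 h3
      rw [h1, Pi.add_apply, h2, h3]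
      unfold ind
      by_cases hx : x ∈ E
      · simp only [Set.indicator_of_mem hx, pow_zero, one_mul]
        rw [two_id (F x) (G x) (β x ^ n) (by rw [norm_pow, h.one x hx, one_pow])]
      · simp only [Set.indicator_of_notMem hx, zero_mul, add_zero, norm_zero]
        norm_num
    rw [e1, integral_indicator h.mE]
    have i2 : IntegrableOn (fun x => (β x ^ n * f2 x).re) E (haarAddCircle (T := 2 * π)) := (hβi n f2 hi2).re
    rw [integral_add hi0.integrableOn (i2.const_mul 2), integral_const_mul]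
    congr 2
    exact integral_re (hβi n f2 hi2)
  have hL : ∫ x in E, g0 x ∂(haarAddCircle (T := 2 * π)) ≤ ‖F‖ ^ 2 + 2 * ‖G‖ ^ 2 := by
    have e1 : ∫ x in E, g0 x ∂(haarAddCircle (T := 2 * π)) ≤ ∫ x, g0 x ∂(haarAddCircle (T := 2 * π)) :=
      setIntegral_le_integral hi0 (Eventually.of_forall fun x => by
        show 0 ≤ ‖F x‖ ^ 2 + ‖G x‖ ^ 2
        positivity)
    have e2 : ∫ x, g0 x ∂(haarAddCircle (T := 2 * π)) = ‖F‖ ^ 2 + ‖G‖ ^ 2 := by
      rw [hg0, integral_add (hi F) (hi G), Lnorm_pow (k := 2) (by norm_num) h4 F,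
        Lnorm_pow (k := 2) (by norm_num) h4 G]
    have e4 : 0 ≤ ‖G‖ ^ 2 := by positivity
    rw [e2] at e1
    linarith
  have t2 : Tendsto (fun n : ℕ => 2 * (∫ x in E, β x ^ n * f2 x ∂(haarAddCircle (T := 2 * π))).re) atTop (𝓝 0) := by
    have := ((Complex.continuous_re.tendsto 0).comp (h.null f2)).const_mul 2
    rw [Complex.zero_re, mul_zero] at this
    exact this
  filter_upwards [t2.eventually_lt_const hε] with n hn
  rw [hval n]
  linarith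

end Pool.Agent.Q87.WH
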