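import Pool.Agent.Q87.WTop

/-! Weighted rotations of the circle are not hypercyclic. -/

set_option autoImplicit false

open Set Filter Topology MeasureTheory
open scoped ENNReal

namespace Q87.WRot

open Q87.WTop

/-- the circle -/
abbrev C : Type := AddCircle (1:ℝ)

variable {p : ℝ≥0∞} [hp1 : Fact (1 ≤ p)]

/-- `L^p` of the circle. -/
abbrev XX (p : ℝ≥0∞) : Type := Lp ℂ p (volume : Measure C)

theorem mp_add (θ : C) : MeasurePreserving (fun x : C => x + θ) volume volume :=
  measurePreserving_add_right volume θ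

/-- translation -/
noncomputable def tau (θ : C) (g : XX p) : XX p := Lp.compMeasurePreserving _ (mp_add θ) g

omit hp1 in
theorem tau_ae (θ : C) (g : XX p) : tau θ g =ᵐ[volume] fun x => g (x + θ) :=
  Lp.coeFn_compMeasurePreserving g (mp_add θ)

theorem tendsto_tau (hp : p ≠ ∞) {ι : Type*} {l : Filter ι} (θ : ι → C) (hθ : Tendsto θ l (𝓝 0))
    (g : XX p) : Tendsto (fun i => tau (θ i) g) l (𝓝 g) := by
  have h0 : tau (0:C) g = g := by
    apply Lp.ext
    filter_upwards [tau_ae (0:C) g] with x hx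
    rw [hx, add_zero]
  set G : C → C(C, C) := fun θ => ⟨fun x => x + θ, by fun_prop⟩ with hG
  have hGc : Continuous G := by
    have : G = (ContinuousMap.curry ⟨fun q : C × C => q.2 + q.1, by fun_prop⟩ : C(C, C(C, C))) := by
      ext θ x; rfl
    rw [this]; exact ContinuousMap.continuous _
  have h1 := Filter.Tendsto.compMeasurePreservingLp (E := ℂ) (p := p) (μ := (volume : Measure C))
    (ν := (volume : Measure C)) (l := l) (f := fun _ : ι => g) (f₀ := g) (g := fun i => G (θ i))
    (g₀ := G 0) tendsto_const_nhds ((hGc.tendsto 0).comp hθ) (fun i => mp_add (θ i)) (mp_add 0) hp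
  have h2 : Lp.compMeasurePreserving (G 0) (mp_add 0) g = g := h0
  rw [h2] at h1
  exact h1

/-- passing to the limit in a product identity -/
theorem lim_mul {A B D E : ℕ → XX p} {a b d e : XX p} (hA : Tendsto A atTop (𝓝 a))
    (hB : Tendsto B atTop (𝓝 b)) (hD : Tendsto D atTop (𝓝 d)) (hE : Tendsto E atTop (𝓝 e))
    (h : ∀ k, ∀ᵐ x ∂(volume : Measure C), A k x * B k x = D k x * E k x) :
    ∀ᵐ x ∂(volume : Measure C), a x * b x = d x * e x := by
  obtain ⟨n1, hn1, h1⟩ := (tendstoInMeasure_of_tendsto_Lp hA).exists_seq_tendsto_ae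
  obtain ⟨n2, hn2, h2⟩ := (tendstoInMeasure_of_tendsto_Lp
    (hB.comp hn1.tendsto_atTop)).exists_seq_tendsto_ae
  obtain ⟨n3, hn3, h3⟩ := (tendstoInMeasure_of_tendsto_Lp
    (hD.comp (hn1.comp hn2).tendsto_atTop)).exists_seq_tendsto_ae
  obtain ⟨n4, hn4, h4⟩ := (tendstoInMeasure_of_tendsto_Lp
    (hE.comp ((hn1.comp hn2).comp hn3).tendsto_atTop)).exists_seq_tendsto_ae
  have hall := ae_all_iff.2 h
  filter_upwards [h1, h2, h3, h4, hall] with x h1 h2 h3 h4 hx
  have e1 : Tendsto (fun i => A (n1 (n2 (n3 (n4 i)))) x) atTop (𝓝 (a x)) :=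
    h1.comp ((hn2.comp hn3).comp hn4).tendsto_atTop
  have e2 : Tendsto (fun i => B (n1 (n2 (n3 (n4 i)))) x) atTop (𝓝 (b x)) :=
    h2.comp (hn3.comp hn4).tendsto_atTop
  have e3 : Tendsto (fun i => D (n1 (n2 (n3 (n4 i)))) x) atTop (𝓝 (d x)) :=
    h3.comp hn4.tendsto_atTop
  have e4 : Tendsto (fun i => E (n1 (n2 (n3 (n4 i)))) x) atTop (𝓝 (e x)) := h4
  have e5 := e1.mul e2
  have e6 := e3.mul e4
  refine tendsto_nhds_unique e5 (e6.congr fun i => ?_)
  exact (hx _).symm

variable {T : XX p →L[ℂ] XX p} {φ : C → ℂ} {α : C}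

/-- the iterates -/
theorem iter (hT : ∀ f : XX p, T f =ᵐ[volume] fun x => φ x * f (x + α)) (n : ℕ) (f : XX p) :
    (T ^ n) f =ᵐ[volume] fun x => (∏ j ∈ Finset.range n, φ (x + j • α)) * f (x + n • α) := by
  induction n generalizing f with
  | zero =>
    refine Eventually.of_forall fun x => ?_
    simp
  | succ n ih =>
    have h1 : (T ^ (n + 1)) f = (T ^ n) (T f) := by rw [pow_succ, mul_apply_eq_comp]
    rw [h1]
    have h2 := (mp_add (n • α)).quasiMeasurePreserving.ae_eq_comp (hT f)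
    filter_upwards [ih (T f), h2] with x hx h2x
    rw [hx]
    have h3 : (T f) (x + n • α) = φ (x + n • α) * f (x + n • α + α) := h2x
    rw [h3, Finset.prod_range_succ, succ_nsmul]
    rw [← add_assoc]; ring

theorem cross (hT : ∀ f : XX p, T f =ᵐ[volume] fun x => φ x * f (x + α)) (n : ℕ) (u : XX p) :
    ∀ᵐ x ∂(volume : Measure C), T ((T ^ n) u) x * tau (n • α) u x =
      (T ^ n) u x * tau (n • α) (T u) x := by
  rw [← pow_comm_apply]
  filter_upwards [iter hT n (T u), iter hT n u, tau_ae (n • α) u, tau_ae (n • α) (T u)]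
    with x h1 h2 h3 h4
  rw [h1, h2, h3, h4]; ring

theorem dense_close {f : XX p} (hf : HC T f) (h : XX p) {δ : ℝ} (hδ : 0 < δ) :
    ∃ n : ℕ, ‖h - (T ^ n) f‖ < δ := by
  obtain ⟨y, hn, ⟨n, rfl⟩⟩ := Metric.dense_iff.1 hf h δ hδ
  refine ⟨n, ?_⟩
  rw [← dist_eq_norm, dist_comm]; exact hn

theorem hc_ne (hp : p ≠ ∞) (hT : ∀ f : XX p, T f =ᵐ[volume] fun x => φ x * f (x + α)) {u : XX p}
    (hu : HC T u) : ∀ᵐ x ∂(volume : Measure C), u x ≠ 0 := by
  set Z : Set C := {x | u x = 0} with hZ
  have hZm : MeasurableSet Z :=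
    (Lp.stronglyMeasurable u).measurable (measurableSet_singleton (0:ℂ))
  have hp0 : p ≠ 0 := (lt_of_lt_of_le zero_lt_one hp1.out).ne'
  by_contra hne
  have hZ0 : (volume : Measure C) Z ≠ 0 := by
    intro h0; apply hne
    rw [ae_iff]
    have : {a | ¬ u a ≠ 0} = Z := by ext x; simp [hZ]
    rw [this]; exact h0
  have hreal : 0 < (volume : Measure C).real Z :=
    ENNReal.toReal_pos hZ0 (measure_ne_top _ _)
  set δ : ℝ := (volume : Measure C).real Z ^ (1 / p.toReal) with hδ
  have hδ0 : 0 < δ := Real.rpow_pos_of_pos hreal _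
  set one : XX p := indicatorConstLp p MeasurableSet.univ (measure_ne_top _ _) (1:ℂ) with hone
  obtain ⟨n, hn⟩ := dense_close hu one hδ0
  set Zn : Set C := (fun x => x + n • α) ⁻¹' Z with hZn
  have hZnm : MeasurableSet Zn := (mp_add (n • α)).measurable hZm
  have hle : ‖(indicatorConstLp p hZnm (measure_ne_top _ _) (1:ℂ) : XX p)‖ ≤ ‖one - (T ^ n) u‖ := by
    apply Lp.norm_le_norm_of_ae_le
    filter_upwards [indicatorConstLp_coeFn (p := p) (hs := hZnm)
      (hμs := measure_ne_top (volume : Measure C) _) (c := (1:ℂ)),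
      indicatorConstLp_coeFn (p := p) (hs := MeasurableSet.univ)
      (hμs := measure_ne_top (volume : Measure C) _) (c := (1:ℂ)), Lp.coeFn_sub one ((T ^ n) u),
      iter hT n u] with x h1 h2 h3 h4
    rw [h1, h3, Pi.sub_apply, h2, h4]
    by_cases hx : x ∈ Zn
    · rw [Set.indicator_of_mem hx, Set.indicator_of_mem (mem_univ x)]
      have : u (x + n • α) = 0 := hx
      rw [this, mul_zero, sub_zero]
    · rw [Set.indicator_of_notMem hx, norm_zero]; exact norm_nonneg _
  rw [norm_indicatorConstLp hp0 hp, norm_one, one_mul] at hle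
  have hmeas : (volume : Measure C).real Zn = (volume : Measure C).real Z := by
    rw [measureReal_def, measureReal_def, (mp_add (n • α)).measure_preimage hZm.nullMeasurableSet]
  rw [hmeas] at hle
  exact absurd hn (not_lt.2 hle)

/-- the rigidity statement in the ergodic case -/
theorem rigid (hp : p ≠ ∞) (hT : ∀ f : XX p, T f =ᵐ[volume] fun x => φ x * f (x + α))
    (hα : addOrderOf α = 0) (u v : XX p) (hu : HC T u) (h : F T α u v 0) : ∃ c : ℂ, v = c • u := by
  obtain ⟨y, hy, hlim⟩ := mem_closure_iff_seq_limit.1 h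
  choose n hn using hy
  have hy1 : ∀ k, (y k).1 = (T ^ (n k)) u := fun k => (congrArg Prod.fst (hn k)).symm
  have hy2 : ∀ k, (y k).2 = n k • α := fun k => (congrArg Prod.snd (hn k)).symm
  have hl1 : Tendsto (fun k => (T ^ (n k)) u) atTop (𝓝 v) := by
    have : Tendsto (fun k => (y k).1) atTop (𝓝 v) := (continuous_fst.tendsto _).comp hlim
    exact this.congr hy1
  have hl2 : Tendsto (fun k => n k • α) atTop (𝓝 0) := by
    have : Tendsto (fun k => (y k).2) atTop (𝓝 0) := (continuous_snd.tendsto _).comp hlim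
    exact this.congr hy2
  have key := lim_mul (A := fun k => T ((T ^ (n k)) u)) (B := fun k => tau (n k • α) u)
    (D := fun k => (T ^ (n k)) u) (E := fun k => tau (n k • α) (T u))
    ((T.continuous.tendsto v).comp hl1) (tendsto_tau hp _ hl2 u) hl1 (tendsto_tau hp _ hl2 (T u))
    (fun k => cross hT (n k) u)
  set g : C → ℂ := fun x => v x / u x with hg
  have hgm : AEStronglyMeasurable g (volume : Measure C) :=
    ((Lp.stronglyMeasurable v).div (Lp.stronglyMeasurable u)).aestronglyMeasurable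
  have hinv : g ∘ (fun x => x + α) =ᵐ[volume] g := by
    filter_upwards [key, hT u, hT v, hc_ne hp hT hu, hc_ne hp hT (hc_T hu)]
      with x h1 h2 h3 h4 h5
    rw [h2, h3] at h1
    rw [h2] at h5
    have h6 : φ x ≠ 0 := left_ne_zero_of_mul h5
    have h7 : u (x + α) ≠ 0 := right_ne_zero_of_mul h5
    show v (x + α) / u (x + α) = v x / u x
    rw [div_eq_div_iff h7 h4]
    apply mul_left_cancel₀ h6
    linear_combination h1
  have herg : Ergodic (fun x : C => x + α) volume := AddCircle.ergodic_add_right.2 hα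
  obtain ⟨c, hc⟩ := herg.quasiErgodic.ae_eq_const_of_ae_eq_comp_ae hgm hinv
  refine ⟨c, ?_⟩
  apply Lp.ext
  filter_upwards [hc, Lp.coeFn_smul c u, hc_ne hp hT hu] with x h1 h2 h3
  rw [h2, Pi.smul_apply, smul_eq_mul]
  have : v x / u x = c := h1
  rw [← this, div_mul_cancel₀ _ h3]

end Q87.WRot
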