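import Pool.Agent.Q87.WRot

/-! Weighted rotations are not hypercyclic: torsion case, main theorem and the interval version. -/

set_option autoImplicit false

open Set Filter Topology MeasureTheory
open scoped ENNReal

namespace Q87.WRot

open Q87.WTop

variable {p : ℝ≥0∞} [hp1 : Fact (1 ≤ p)]
variable {T : XX p →L[ℂ] XX p} {φ : C → ℂ} {α : C}

/-- the constant function one -/
noncomputable def one (p : ℝ≥0∞) : XX p :=
  indicatorConstLp p MeasurableSet.univ (measure_ne_top _ _) (1:ℂ)

omit hp1 in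
theorem one_ae : (one p : C → ℂ) =ᵐ[volume] fun _ => 1 := by
  filter_upwards [indicatorConstLp_coeFn (p := p) (hs := MeasurableSet.univ)
      (hμs := measure_ne_top (volume : Measure C) _) (c := (1:ℂ))] with x h
  rw [one, h]; exact Set.indicator_of_mem (mem_univ x) _

theorem norm_le_of {A : Set C} (hA : MeasurableSet A) (hp : p ≠ ∞) (g : XX p)
    (h : ∀ᵐ x ∂(volume : Measure C), x ∈ A → 1 ≤ ‖g x‖) :
    (volume : Measure C).real A ^ (1 / p.toReal) ≤ ‖g‖ := by
  have hp0 : p ≠ 0 := (lt_of_lt_of_le zero_lt_one hp1.out).ne'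
  have hle : ‖(indicatorConstLp p hA (measure_ne_top _ _) (1:ℂ) : XX p)‖ ≤ ‖g‖ := by
    apply Lp.norm_le_norm_of_ae_le
    filter_upwards [indicatorConstLp_coeFn (p := p) (hs := hA)
      (hμs := measure_ne_top (volume : Measure C) _) (c := (1:ℂ)), h] with x h1 h2
    rw [h1]
    by_cases hx : x ∈ A
    · rw [Set.indicator_of_mem hx, norm_one]; exact h2 hx
    · rw [Set.indicator_of_notMem hx, norm_zero]; exact norm_nonneg _
  rwa [norm_indicatorConstLp hp0 hp, norm_one, one_mul] at hle

theorem torsion (hp : p ≠ ∞) (hT : ∀ f : XX p, T f =ᵐ[volume] fun x => φ x * f (x + α))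
    (hα : addOrderOf α ≠ 0) (f : XX p) (hf : HC T f) : False := by
  set b := addOrderOf α with hb
  have hb0 : 0 < b := Nat.pos_of_ne_zero hα
  have hbα : b • α = 0 := addOrderOf_nsmul_eq_zero α
  set Φ : C → ℂ := fun x => ((T ^ b) (one p)) x with hΦ
  have hΦm : Measurable Φ := (Lp.stronglyMeasurable _).measurable
  -- `T ^ b` is a multiplication
  have hTb : ∀ g : XX p, (T ^ b) g =ᵐ[volume] fun x => Φ x * g x := by
    intro g
    filter_upwards [iter hT b g, iter hT b (one p), one_ae (p := p)] with x h1 h2 h3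
    have h4 : Φ x = ∏ j ∈ Finset.range b, φ (x + j • α) := by
      rw [hΦ]; show ((T ^ b) (one p)) x = _
      rw [h2, hbα, add_zero, h3, mul_one]
    rw [h1, hbα, add_zero, h4]
  have hTq : ∀ (q : ℕ) (g : XX p), (T ^ (b * q)) g =ᵐ[volume] fun x => Φ x ^ q * g x := by
    intro q
    induction q with
    | zero => intro g; refine Eventually.of_forall fun x => ?_; simp
    | succ q ih =>
      intro g
      have h1 : (T ^ (b * (q + 1))) g = (T ^ (b * q)) ((T ^ b) g) := by
        rw [← mul_apply_eq_comp, ← pow_add, mul_add, mul_one]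
      rw [h1]
      filter_upwards [ih ((T ^ b) g), hTb g] with x h2 h3
      rw [h2, h3, pow_succ]; ring
  have hTn : ∀ n : ℕ, (T ^ n) f =ᵐ[volume] fun x => Φ x ^ (n / b) * ((T ^ (n % b)) f) x := by
    intro n
    have h1 : (T ^ n) f = (T ^ (b * (n / b))) ((T ^ (n % b)) f) := by
      rw [← mul_apply_eq_comp, ← pow_add, Nat.div_add_mod]
    nth_rewrite 1 [h1]
    exact hTq _ _
  -- Step 2: `‖Φ‖ > 1` a.e.
  set A : Set C := {x | ‖Φ x‖ ≤ 1} with hA
  have hAm : MeasurableSet A := measurableSet_le hΦm.norm measurable_const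
  have hA0 : (volume : Measure C) A = 0 := by
    by_contra hA0
    have hreal : 0 < (volume : Measure C).real A :=
      ENNReal.toReal_pos hA0 (measure_ne_top _ _)
    set w : C → ℝ := fun x => ∑ r ∈ Finset.range b, ‖((T ^ r) f) x‖ with hw
    have hwm : MemLp w p (volume : Measure C) := by
      rw [hw]
      exact memLp_finsetSum _ fun r _ => (Lp.memLp ((T ^ r) f)).norm
    have hhm : MemLp (fun x => ((1 + w x : ℝ) : ℂ)) p (volume : Measure C) :=
      ((memLp_const (1:ℝ)).add hwm).ofReal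
    set h : XX p := hhm.toLp _ with hh
    obtain ⟨n, hn⟩ := dense_close hf h (Real.rpow_pos_of_pos hreal (1 / p.toReal))
    have := norm_le_of hAm hp (h - (T ^ n) f) (by
      filter_upwards [hTn n, Lp.coeFn_sub h ((T ^ n) f), hhm.coeFn_toLp] with x h1 h2 h3 hx
      rw [h2, Pi.sub_apply, h1, hh, h3]
      have h4 : ‖Φ x ^ (n / b) * ((T ^ (n % b)) f) x‖ ≤ w x := by
        rw [norm_mul, norm_pow]
        have h5 : ‖Φ x‖ ^ (n / b) ≤ 1 := pow_le_one₀ (norm_nonneg _) hx
        have h6 : ‖((T ^ (n % b)) f) x‖ ≤ w x :=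
          Finset.single_le_sum (f := fun r => ‖((T ^ r) f) x‖) (fun r _ => norm_nonneg _)
            (Finset.mem_range.2 (Nat.mod_lt n hb0))
        nlinarith [norm_nonneg (((T ^ (n % b)) f) x), norm_nonneg (Φ x),
          pow_nonneg (norm_nonneg (Φ x)) (n / b)]
      have hw0 : 0 ≤ w x := Finset.sum_nonneg fun r _ => norm_nonneg _
      have h7 := norm_sub_norm_le ((1 + w x : ℝ) : ℂ) (Φ x ^ (n / b) * ((T ^ (n % b)) f) x)
      rw [Complex.norm_real, Real.norm_eq_abs, abs_of_nonneg (by linarith)] at h7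
      linarith)
    exact absurd hn (not_lt.2 this)
  have hbig : ∀ᵐ x ∂(volume : Measure C), 1 < ‖Φ x‖ := by
    rw [ae_iff]
    have : {a | ¬ 1 < ‖Φ a‖} = A := by ext x; simp [hA]
    rw [this]; exact hA0
  -- Step 3: the orbit stays away from `0`
  have hne : ∀ r, (T ^ r) f ≠ 0 := by
    intro r h0
    have h1 := hc_pow hf r
    rw [h0] at h1
    have h2 := hc_ne hp hT h1
    have h3 : ∀ᵐ x ∂(volume : Measure C), False := by
      filter_upwards [h2, Lp.coeFn_zero ℂ p (volume : Measure C)] with x h4 h5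
      exact h4 h5
    rw [ae_iff] at h3
    simp at h3
  have hlow : ∀ n, ‖(T ^ (n % b)) f‖ ≤ ‖(T ^ n) f‖ := by
    intro n
    apply Lp.norm_le_norm_of_ae_le
    filter_upwards [hTn n, hbig] with x h1 h2
    rw [h1, norm_mul, norm_pow]
    have h3 : 1 ≤ ‖Φ x‖ ^ (n / b) := one_le_pow₀ h2.le
    nlinarith [norm_nonneg (((T ^ (n % b)) f) x)]
  obtain ⟨r0, hr0, hmin⟩ := Finset.exists_min_image (Finset.range b) (fun r => ‖(T ^ r) f‖)
    ⟨0, Finset.mem_range.2 hb0⟩
  have hδ : 0 < ‖(T ^ r0) f‖ := norm_pos_iff.2 (hne r0)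
  obtain ⟨n, hn⟩ := dense_close hf 0 hδ
  rw [zero_sub, norm_neg] at hn
  have h1 := hmin (n % b) (Finset.mem_range.2 (Nat.mod_lt n hb0))
  linarith [hlow n]

omit hp1 in
theorem two_dim (u : XX p) : ∃ v : XX p, ∀ c : ℂ, v ≠ c • u := by
  set B : Set C := Metric.closedBall 0 (1/4) with hB
  have hBm : MeasurableSet B := measurableSet_closedBall
  set v : XX p := indicatorConstLp p hBm (measure_ne_top _ _) (1:ℂ) with hv
  by_contra hall
  push Not at hall
  obtain ⟨c, hc⟩ := hall (one p)
  obtain ⟨d, hd⟩ := hall v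
  have hvol : (volume : Measure C) B = ENNReal.ofReal (1/2) := by
    rw [hB, AddCircle.volume_closedBall]
    congr 1; norm_num
  have huniv : (volume : Measure C) univ = 1 := by
    rw [AddCircle.measure_univ]; simp
  -- a point inside and a point outside
  have hrel : ∀ᵐ x ∂(volume : Measure C), (1:ℂ) = c * u x ∧ v x = d * u x := by
    filter_upwards [one_ae (p := p), Lp.coeFn_smul c u, Lp.coeFn_smul d u] with x h1 h2 h3
    constructor
    · have : (one p : C → ℂ) x = (c • u : XX p) x := by rw [← hc]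
      rw [h1, h2] at this; exact this
    · have : (v : C → ℂ) x = (d • u : XX p) x := by rw [← hd]
      rw [h3] at this; exact this
  have hvi : (v : C → ℂ) =ᵐ[volume] B.indicator fun _ => (1:ℂ) := indicatorConstLp_coeFn
  have hc0 : c ≠ 0 := by
    rintro rfl
    have : ∀ᵐ x ∂(volume : Measure C), False := by
      filter_upwards [hrel] with x h
      have := h.1; simp at this
    rw [ae_iff] at this
    have h2 : {a : C | ¬ False} = univ := by ext; simp
    rw [h2, huniv] at this
    exact one_ne_zero this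
  have hall2 : ∀ᵐ x ∂(volume : Measure C), B.indicator (fun _ => (1:ℂ)) x = d / c := by
    filter_upwards [hrel, hvi] with x h1 h2
    rw [← h2, h1.2]
    field_simp
    have := h1.1
    linear_combination (-d) * this
  by_cases hd0 : d = 0
  · have : (volume : Measure C) B = 0 := by
      have h3 : ∀ᵐ x ∂(volume : Measure C), x ∉ B := by
        filter_upwards [hall2] with x h1 h2
        rw [Set.indicator_of_mem h2, hd0, zero_div] at h1
        exact one_ne_zero h1
      rw [ae_iff] at h3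
      have h4 : {a : C | ¬ a ∉ B} = B := by ext; simp
      rw [h4] at h3; exact h3
    rw [hvol] at this
    simp at this
  · have : (volume : Measure C) Bᶜ = 0 := by
      have h3 : ∀ᵐ x ∂(volume : Measure C), x ∉ Bᶜ := by
        filter_upwards [hall2] with x h1 h2
        rw [Set.indicator_of_notMem h2] at h1
        exact (div_ne_zero hd0 hc0) h1.symm
      rw [ae_iff] at h3
      have h4 : {a : C | ¬ a ∉ Bᶜ} = Bᶜ := by ext; simp
      rw [h4] at h3; exact h3
    rw [measure_compl hBm (measure_ne_top _ _), hvol, huniv] at this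
    have h5 : (1 : ℝ≥0∞) ≤ ENNReal.ofReal (1/2) := tsub_eq_zero_iff_le.1 this
    have h6 : ENNReal.ofReal (1/2) < ENNReal.ofReal 1 :=
      (ENNReal.ofReal_lt_ofReal_iff one_pos).2 (by norm_num)
    rw [ENNReal.ofReal_one] at h6
    exact absurd h5 (not_le.2 h6)

/-- Weighted rotations of the circle are never hypercyclic. -/
theorem circle_main (hp : p ≠ ∞) (T : XX p →L[ℂ] XX p) (φ : C → ℂ) (α : C)
    (hT : ∀ f : XX p, T f =ᵐ[volume] fun x => φ x * f (x + α)) (f : XX p) : ¬ HC T f := by
  intro hf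
  by_cases hα : addOrderOf α = 0
  · exact no_hypercyclic (α := α) (fun u v hu h => rigid hp hT hα u v hu h) two_dim f hf
  · exact torsion hp hT hα f hf


/-! ### The interval -/

/-- Lebesgue measure on `[0,1]` -/
noncomputable abbrev mu : Measure ℝ := (volume : Measure ℝ).restrict (Icc 0 1)

/-- `L^p` of the interval -/
abbrev YY (p : ℝ≥0∞) : Type := Lp ℂ p mu

theorem mp_mk : MeasurePreserving (fun x : ℝ => (x : C)) mu volume := by
  have h := AddCircle.measurePreserving_mk (1:ℝ) 0
  rw [zero_add] at h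
  have h2 : (volume : Measure ℝ).restrict (Ioc 0 1) = mu := restrict_Ioc_eq_restrict_Icc
  rw [h2] at h
  exact h

/-- the representative in `(0,1]` -/
noncomputable def io (x : C) : ℝ := (AddCircle.equivIoc (1:ℝ) 0 x : ℝ)

theorem mp_io : MeasurePreserving io volume mu := by
  have h := (measurePreserving_subtype_coe (μa := (volume : Measure ℝ))
    (measurableSet_Ioc (a := (0:ℝ)) (b := 0 + 1))).comp (AddCircle.measurePreserving_equivIoc (1:ℝ))
  have h2 : (volume : Measure ℝ).restrict (Ioc 0 (0 + 1)) = mu := by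
    rw [zero_add]; exact restrict_Ioc_eq_restrict_Icc
  rw [h2] at h
  exact h

theorem mk_io (x : C) : ((io x : ℝ) : C) = x := by
  have := (AddCircle.equivIoc (1:ℝ) 0).symm_apply_apply x
  exact this

theorem io_mem (x : C) : io x ∈ Ioc (0:ℝ) 1 := by
  have h := (AddCircle.equivIoc (1:ℝ) 0 x).2
  exact ⟨h.1, h.2.trans_eq (zero_add (1:ℝ))⟩

theorem io_mk (x : ℝ) (hx : x ∈ Ioc (0:ℝ) 1) : io (x : C) = x := by
  have hx' : x ∈ Ioc (0:ℝ) (0 + 1) := by rwa [zero_add]
  have := AddCircle.equivIoc_coe_eq (p := (1:ℝ)) (a := 0) hx'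
  rw [io, this]

theorem fract_io (x : C) (a : ℝ) (h : x + (a : C) ≠ 0) : Int.fract (io x + a) = io (x + (a : C)) := by
  have h1 : ((Int.fract (io x + a) : ℝ) : C) = x + (a : C) := by
    rw [AddCircle.coe_fract, AddCircle.coe_add, mk_io]
  have h3 : Int.fract (io x + a) ∈ Ioc (0:ℝ) 1 := by
    refine ⟨lt_of_le_of_ne (Int.fract_nonneg _) ?_, (Int.fract_lt_one _).le⟩
    intro h0
    apply h
    rw [← h1, ← h0]; rfl
  rw [← h1, io_mk _ h3]


/-- from the circle to the interval -/
noncomputable def J (p : ℝ≥0∞) [Fact (1 ≤ p)] : XX p →ₗᵢ[ℂ] YY p :=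
  Lp.compMeasurePreservingₗᵢ ℂ _ mp_mk

/-- from the interval to the circle -/
noncomputable def J' (p : ℝ≥0∞) [Fact (1 ≤ p)] : YY p →ₗᵢ[ℂ] XX p :=
  Lp.compMeasurePreservingₗᵢ ℂ _ mp_io

theorem J_ae (g : XX p) : J p g =ᵐ[mu] fun x => g (x : C) :=
  Lp.coeFn_compMeasurePreserving g mp_mk

theorem J'_ae (h : YY p) : J' p h =ᵐ[volume] fun x => h (io x) :=
  Lp.coeFn_compMeasurePreserving h mp_io

theorem J_io (g : XX p) : ∀ᵐ x ∂(volume : Measure C), J p g (io x) = g x := by
  have h := mp_io.quasiMeasurePreserving.ae_eq_comp (J_ae g)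
  filter_upwards [h] with x hx
  have hx' : J p g (io x) = g ((io x : ℝ) : C) := hx
  rw [hx', mk_io]

theorem J'J (g : XX p) : J' p (J p g) = g := by
  apply Lp.ext
  filter_upwards [J'_ae (J p g), J_io g] with x h1 h2
  rw [h1, h2]

theorem JJ' (h : YY p) : J p (J' p h) = h := by
  apply Lp.ext
  have h1 := mp_mk.quasiMeasurePreserving.ae_eq_comp (J'_ae h)
  have h2 : ∀ᵐ x ∂mu, x ∈ Ioc (0:ℝ) 1 := by
    rw [mu, ← restrict_Ioc_eq_restrict_Icc]
    exact ae_restrict_mem measurableSet_Ioc
  filter_upwards [J_ae (J' p h), h1, h2] with x h3 h4 h5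
  have h4' : J' p h (x : C) = h (io (x : C)) := h4
  rw [h3, h4', io_mk x h5]

theorem ae_add_ne (a : C) : ∀ᵐ x ∂(volume : Measure C), x + a ≠ 0 := by
  have h : (volume : Measure C) (io ⁻¹' {io (-a)}) = 0 := by
    rw [mp_io.measure_preimage (measurableSet_singleton _).nullMeasurableSet]
    exact measure_singleton _
  rw [ae_iff]
  refine measure_mono_null ?_ h
  intro x hx
  have hx' : x + a = 0 := by by_contra h0; exact hx h0
  have : x = -a := eq_neg_of_add_eq_zero_left hx'
  rw [this]; rfl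

theorem interval_main (hp : p ≠ ∞) (φ : ℝ → ℂ) (a : ℝ) (T : YY p →L[ℂ] YY p)
    (hT : ∀ f : YY p, T f =ᵐ[mu] fun x => φ x * f (Int.fract (x + a))) (f : YY p) :
    ¬ Dense (range fun n : ℕ => (T ^ n) f) := by
  intro hf
  set T' : XX p →L[ℂ] XX p :=
    ((J' p).toContinuousLinearMap.comp T).comp (J p).toContinuousLinearMap with hT'
  have hT'a : ∀ g, T' g = J' p (T (J p g)) := fun g => rfl
  have hpow : ∀ n : ℕ, (T' ^ n) (J' p f) = J' p ((T ^ n) f) := by
    intro n
    induction n with
    | zero => simp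
    | succ n ih =>
      rw [pow_succ', mul_apply_eq_comp, ih, hT'a, JJ', pow_succ', mul_apply_eq_comp]
  apply circle_main hp T' (fun x => φ (io x)) (a : C) _ (J' p f)
  · show DenseRange _
    have h1 : (fun n : ℕ => (T' ^ n) (J' p f)) = fun n : ℕ => J' p ((T ^ n) f) := by
      funext n; exact hpow n
    rw [h1]
    have hs : Function.Surjective (J' p) := fun g => ⟨J p g, J'J g⟩
    exact hs.denseRange.comp hf (J' p).continuous
  · intro g
    have h1 := mp_io.quasiMeasurePreserving.ae_eq_comp (hT (J p g))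
    have h2 := (mp_add (a : C)).quasiMeasurePreserving.ae_eq_comp (J_io g)
    filter_upwards [J'_ae (T (J p g)), h1, h2, ae_add_ne (a : C)] with x h3 h4 h5 h6
    have h4' : T (J p g) (io x) = φ (io x) * J p g (Int.fract (io x + a)) := h4
    have h5' : J p g (io (x + (a : C))) = g (x + (a : C)) := h5
    rw [hT'a, h3, h4', fract_io x a h6, h5']


/-- `x ↦ {x+a}` preserves the Lebesgue measure of `[0,1]`, up to a.e. equality -/
theorem fract_ae (a : ℝ) : ∀ᵐ x ∂mu, Int.fract (x + a) = io ((x : C) + (a : C)) := by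
  have h1 := mp_mk.quasiMeasurePreserving.ae (ae_add_ne (a : C))
  have h2 : ∀ᵐ x ∂mu, x ∈ Ioc (0:ℝ) 1 := by
    rw [mu, ← restrict_Ioc_eq_restrict_Icc]
    exact ae_restrict_mem measurableSet_Ioc
  filter_upwards [h1, h2] with x h3 h4
  have h5 := fract_io (x : C) a h3
  rwa [io_mk x h4] at h5

theorem qmp_fract (a : ℝ) : Measure.QuasiMeasurePreserving (fun x : ℝ => Int.fract (x + a)) mu mu := by
  have h1 : MeasurePreserving (fun x : ℝ => io ((x : C) + (a : C))) mu mu :=
    mp_io.comp ((mp_add (a : C)).comp mp_mk)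
  have hm : Measurable (fun x : ℝ => Int.fract (x + a)) := measurable_fract.comp (by fun_prop)
  refine ⟨hm, ?_⟩
  have : Measure.map (fun x : ℝ => Int.fract (x + a)) mu = mu := by
    rw [Measure.map_congr (fract_ae a)]; exact h1.map_eq
  rw [this]

end Q87.WRot
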