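import Mathlib

/-! Topological part of the non-hypercyclicity of weighted rotations. -/

set_option autoImplicit false

open Set Filter Topology

namespace Q87.WTop

/-- no continuous injective map from a disc to the reals -/
theorem no_inj_real (r : ℝ) (hr : 0 < r) (h : ℂ → ℝ)
    (hc : ContinuousOn h (Metric.closedBall 0 r)) (hi : Set.InjOn h (Metric.closedBall 0 r)) :
    False := by
  -- two paths
  set p1 : ℝ → ℂ := fun t => ((r * t : ℝ) : ℂ) with hp1
  set p2 : ℝ → ℂ := fun t => ((r * t : ℝ) : ℂ) + ((r * ((1 - t ^ 2) / 2) : ℝ) : ℂ) * Complex.I with hp2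
  have hI : ∀ t ∈ Icc (-1:ℝ) 1, p1 t ∈ Metric.closedBall (0:ℂ) r := by
    intro t ht
    rw [mem_closedBall_zero_iff, hp1]
    show ‖((r * t : ℝ) : ℂ)‖ ≤ r
    rw [Complex.norm_real, Real.norm_eq_abs, abs_mul, abs_of_pos hr]
    have : |t| ≤ 1 := abs_le.2 ht
    nlinarith [abs_nonneg t]
  have hJ : ∀ t ∈ Icc (-1:ℝ) 1, p2 t ∈ Metric.closedBall (0:ℂ) r := by
    intro t ht
    rw [mem_closedBall_zero_iff, hp2]
    have h1 : ‖((r * t : ℝ) : ℂ) + ((r * ((1 - t ^ 2) / 2) : ℝ) : ℂ) * Complex.I‖ ^ 2 ≤ r ^ 2 := by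
      rw [← Complex.normSq_eq_norm_sq, Complex.normSq_add_mul_I]
      have h2 : t ^ 2 ≤ 1 := by nlinarith [ht.1, ht.2]
      have h3 : 0 ≤ t ^ 2 := sq_nonneg t
      have h4 : t ^ 2 + ((1 - t ^ 2) / 2) ^ 2 ≤ 1 := by nlinarith
      have h5 : (r * t) ^ 2 + (r * ((1 - t ^ 2) / 2)) ^ 2 = r ^ 2 * (t ^ 2 + ((1 - t ^ 2) / 2) ^ 2) := by
        ring
      rw [h5]
      nlinarith [sq_nonneg r]
    exact (pow_le_pow_iff_left₀ (norm_nonneg _) hr.le two_ne_zero).1 h1
  have hc1 : ContinuousOn (fun t => h (p1 t)) (Icc (-1) 1) :=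
    hc.comp (by rw [hp1]; fun_prop) hI
  have hc2 : ContinuousOn (fun t => h (p2 t)) (Icc (-1) 1) :=
    hc.comp (by rw [hp2]; fun_prop) hJ
  have e1 : p2 1 = p1 1 := by simp [hp1, hp2]
  have e2 : p2 (-1) = p1 (-1) := by simp [hp1, hp2]
  have hne : h (p1 (-1)) ≠ h (p1 1) := by
    intro he
    have := hi (hI _ (by norm_num)) (hI _ (by norm_num)) he
    simp only [hp1, Complex.ofReal_inj] at this
    linarith
  set m : ℝ := (h (p1 (-1)) + h (p1 1)) / 2 with hm
  have hmid : m ∈ uIcc (h (p1 (-1))) (h (p1 1)) := by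
    rw [mem_uIcc]
    rcases le_total (h (p1 (-1))) (h (p1 1)) with hle | hle
    · left; constructor <;> · rw [hm]; linarith
    · right; constructor <;> · rw [hm]; linarith
  have hu : uIcc (-1:ℝ) 1 = Icc (-1) 1 := uIcc_of_le (by norm_num)
  obtain ⟨t1, ht1, hv1⟩ := intermediate_value_uIcc (f := fun t => h (p1 t)) (a := -1) (b := 1)
    (by rw [hu]; exact hc1) hmid
  have hmid2 : m ∈ uIcc (h (p2 (-1))) (h (p2 1)) := by rw [e1, e2]; exact hmid
  obtain ⟨t2, ht2, hv2⟩ := intermediate_value_uIcc (f := fun t => h (p2 t)) (a := -1) (b := 1)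
    (by rw [hu]; exact hc2) hmid2
  rw [hu] at ht1 ht2
  have heq : p1 t1 = p2 t2 := hi (hI _ ht1) (hJ _ ht2) (by
    show (fun t => h (p1 t)) t1 = (fun t => h (p2 t)) t2
    rw [hv1, hv2])
  have him := congrArg Complex.im heq
  simp only [hp1, hp2, Complex.add_im, Complex.ofReal_im, Complex.mul_im, Complex.ofReal_re,
    Complex.I_im, Complex.I_re, mul_one, mul_zero, add_zero, zero_add] at him
  have h0 : (1 - t2 ^ 2) = 0 := by
    have : r * ((1 - t2 ^ 2) / 2) = 0 := him.symm
    rcases mul_eq_zero.1 this with h | h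
    · exact absurd h hr.ne'
    · linarith
  have h1 : t2 = 1 ∨ t2 = -1 := by
    have : (t2 - 1) * (t2 + 1) = 0 := by nlinarith
    rcases mul_eq_zero.1 this with h | h
    · left; linarith
    · right; linarith
  have hv2' : h (p2 t2) = m := hv2
  rcases h1 with h1 | h1
  · rw [h1, e1, hm] at hv2'; apply hne; linarith
  · rw [h1, e2, hm] at hv2'; apply hne; linarith

/-- no continuous injective map from the plane to the circle -/
theorem no_inj_circle (s : ℂ → AddCircle (1:ℝ)) (hc : Continuous s)
    (hi : Function.Injective s) : False := by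
  set S : ℂ → ℂ := fun c => (AddCircle.toCircle (s c) : ℂ) / (AddCircle.toCircle (s 0) : ℂ) with hS
  have h0 : (AddCircle.toCircle (s 0) : ℂ) ≠ 0 := Circle.coe_ne_zero _
  have hSc : Continuous S := by
    rw [hS]
    apply Continuous.div_const
    exact continuous_subtype_val.comp (AddCircle.continuous_toCircle.comp hc)
  have hSi : Function.Injective S := by
    intro a b hab
    have h1 : (AddCircle.toCircle (s a) : ℂ) = (AddCircle.toCircle (s b) : ℂ) := by
      have h2 : (AddCircle.toCircle (s a) : ℂ) / (AddCircle.toCircle (s 0) : ℂ) =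
        (AddCircle.toCircle (s b) : ℂ) / (AddCircle.toCircle (s 0) : ℂ) := hab
      exact (div_left_inj' h0).1 h2
    have h3 := Circle.coe_injective h1
    exact hi (AddCircle.injective_toCircle one_ne_zero h3)
  have hSn : ∀ c, ‖S c‖ = 1 := by
    intro c; rw [hS]; simp
  have hS0 : S 0 = 1 := by rw [hS]; exact div_self h0
  have hop : IsOpen {c : ℂ | 0 < (S c).re} :=
    isOpen_lt continuous_const (Complex.continuous_re.comp hSc)
  have hmem : (0:ℂ) ∈ {c : ℂ | 0 < (S c).re} := by
    show 0 < (S 0).re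
    rw [hS0]; simp
  obtain ⟨r, hr, hball⟩ := Metric.isOpen_iff.1 hop 0 hmem
  apply no_inj_real (r / 2) (by linarith) (fun c => (S c).im)
  · exact (Complex.continuous_im.comp hSc).continuousOn
  · intro a ha b hb hab
    have ha' : 0 < (S a).re := hball (by
      rw [mem_closedBall_zero_iff] at ha; rw [mem_ball_zero_iff]; linarith)
    have hb' : 0 < (S b).re := hball (by
      rw [mem_closedBall_zero_iff] at hb; rw [mem_ball_zero_iff]; linarith)
    have hab' : (S a).im = (S b).im := hab
    have h1 : (S a).re ^ 2 + (S a).im ^ 2 = 1 := by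
      have := hSn a
      have h2 : Complex.normSq (S a) = 1 := by rw [Complex.normSq_eq_norm_sq, this]; norm_num
      rw [Complex.normSq_apply] at h2; nlinarith
    have h2 : (S b).re ^ 2 + (S b).im ^ 2 = 1 := by
      have := hSn b
      have h2 : Complex.normSq (S b) = 1 := by rw [Complex.normSq_eq_norm_sq, this]; norm_num
      rw [Complex.normSq_apply] at h2; nlinarith
    have h3 : (S a).re = (S b).re := by
      rw [hab'] at h1
      have h4 : ((S a).re - (S b).re) * ((S a).re + (S b).re) = 0 := by nlinarith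
      rcases mul_eq_zero.1 h4 with h | h
      · linarith
      · linarith
    exact hSi (Complex.ext h3 hab')


/-! ### Abstract part -/

section abstract

variable {X : Type*} [NormedAddCommGroup X] [NormedSpace ℂ X]

/-- geometric sequences are not dense -/
theorem not_dense_geom (l a : ℂ) : ¬ Dense (range fun n : ℕ => l ^ n * a) := by
  intro hd
  by_cases h1 : ‖l‖ ≤ 1
  · have hsub : (range fun n : ℕ => l ^ n * a) ⊆ Metric.closedBall 0 ‖a‖ := by
      rintro _ ⟨n, rfl⟩
      rw [mem_closedBall_zero_iff, norm_mul, norm_pow]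
      have : ‖l‖ ^ n ≤ 1 := pow_le_one₀ (norm_nonneg _) h1
      nlinarith [norm_nonneg a]
    have h2 : ((‖a‖ + 1 : ℝ) : ℂ) ∈ Metric.closedBall (0:ℂ) ‖a‖ := by
      have := hd.closure_eq ▸ (closure_minimal hsub Metric.isClosed_closedBall)
      exact this (mem_univ _)
    rw [mem_closedBall_zero_iff, Complex.norm_real, Real.norm_eq_abs,
      abs_of_pos (by positivity)] at h2
    linarith
  · push Not at h1
    have hsub : (range fun n : ℕ => l ^ n * a) ⊆ {z : ℂ | ‖a‖ ≤ ‖z‖} := by
      rintro _ ⟨n, rfl⟩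
      show ‖a‖ ≤ ‖l ^ n * a‖
      rw [norm_mul, norm_pow]
      have : 1 ≤ ‖l‖ ^ n := one_le_pow₀ h1.le
      nlinarith [norm_nonneg a]
    have hcl : IsClosed {z : ℂ | ‖a‖ ≤ ‖z‖} := isClosed_le continuous_const continuous_norm
    have hall : ∀ z : ℂ, ‖a‖ ≤ ‖z‖ := fun z => by
      have := hd.closure_eq ▸ (closure_minimal hsub hcl)
      exact this (mem_univ z)
    have ha : a = 0 := by
      have := hall 0
      rw [norm_zero] at this
      exact norm_le_zero_iff.1 this
    have hsub2 : (range fun n : ℕ => l ^ n * a) ⊆ {0} := by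
      rintro _ ⟨n, rfl⟩
      show l ^ n * a = 0
      rw [ha, mul_zero]
    have h2 : (1:ℂ) ∈ ({0} : Set ℂ) := by
      have := hd.closure_eq ▸ (closure_minimal hsub2 isClosed_singleton)
      exact this (mem_univ _)
    exact one_ne_zero h2

variable (T : X →L[ℂ] X)

/-- hypercyclic vectors -/
def HC (f : X) : Prop := Dense (range fun n : ℕ => (T ^ n) f)

variable {T}

theorem dense_range_gen {f : X} (hf : HC T f) (b c : ℂ) (hc : c ≠ 0) :
    DenseRange fun x => b • x + c • T x := by
  by_contra hnd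
  set L : X →L[ℂ] X := b • ContinuousLinearMap.id ℂ X + c • T with hL
  have hLx : ∀ x, L x = b • x + c • T x := fun x => rfl
  set M : Submodule ℂ X := (LinearMap.range (L : X →ₗ[ℂ] X)).topologicalClosure with hM
  have hMne : M ≠ ⊤ := by
    intro h
    apply hnd
    have h1 : (M : Set X) = univ := by rw [h]; rfl
    rw [hM, Submodule.topologicalClosure_coe] at h1
    have h2 : Dense ((LinearMap.range (L : X →ₗ[ℂ] X) : Submodule ℂ X) : Set X) :=
      dense_iff_closure_eq.2 h1
    exact h2
  have hMcl : IsClosed (M : Set X) := Submodule.isClosed_topologicalClosure _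
  have : IsClosed (M : Set X) := hMcl
  obtain ⟨x, hx⟩ : ∃ x, x ∉ M := by
    by_contra hall; push Not at hall; exact hMne (Submodule.eq_top_iff'.2 hall)
  -- functional
  obtain ⟨g, hg0, hgM⟩ : ∃ g : X →L[ℂ] ℂ, g x ≠ 0 ∧ ∀ y ∈ M, g y = 0 := by
    have : IsClosed (M : Set X) := hMcl
    have hq : M.mkQ x ≠ 0 := by
      intro h; exact hx ((Submodule.Quotient.mk_eq_zero M).1 h)
    obtain ⟨g, hg, hgx⟩ := exists_dual_vector ℂ (M.mkQ x) (norm_ne_zero_iff.2 hq)
    refine ⟨g.comp (M.mkQL), ?_, ?_⟩
    · show g (M.mkQ x) ≠ 0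
      rw [hgx]
      intro h0
      exact norm_ne_zero_iff.2 hq (Complex.ofReal_eq_zero.1 h0)
    · intro y hy
      show g (M.mkQ y) = 0
      have : M.mkQ y = 0 := (Submodule.Quotient.mk_eq_zero M).2 hy
      rw [this, map_zero]
  have hgT : ∀ y, g (T y) = (-(b * c⁻¹)) * g y := by
    intro y
    have h1 : g (L y) = 0 := hgM _ (subset_closure ⟨y, rfl⟩)
    rw [hLx, map_add, map_smul, map_smul, smul_eq_mul, smul_eq_mul] at h1
    field_simp
    linear_combination h1
  have hgTn : ∀ n : ℕ, g ((T ^ n) f) = (-(b * c⁻¹)) ^ n * g f := by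
    intro n
    induction n with
    | zero => simp
    | succ n ih =>
      rw [pow_succ', mul_apply_eq_comp, hgT, ih, pow_succ]; ring
  apply not_dense_geom (-(b * c⁻¹)) (g f)
  have hsur : Function.Surjective g := by
    intro z
    refine ⟨(z / g x) • x, ?_⟩
    rw [map_smul, smul_eq_mul, div_mul_cancel₀ _ hg0]
  have hd : DenseRange (fun n : ℕ => g ((T ^ n) f)) :=
    hsur.denseRange.comp hf g.continuous
  have : (fun n : ℕ => (-(b * c⁻¹)) ^ n * g f) = fun n : ℕ => g ((T ^ n) f) := by
    funext n; rw [hgTn]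
  rw [this]; exact hd

theorem dense_range_add {f : X} (hf : HC T f) (c : ℂ) : DenseRange fun x => x + c • T x := by
  by_cases hc : c = 0
  · subst hc
    have : (fun x : X => x + (0:ℂ) • T x) = id := by funext x; simp
    rw [this]; exact denseRange_id
  · have := dense_range_gen hf 1 c hc
    simpa using this

theorem pow_comm_apply (n : ℕ) (f : X) : (T ^ n) (T f) = T ((T ^ n) f) := by
  rw [← mul_apply_eq_comp, ← mul_apply_eq_comp, ← pow_succ, ← pow_succ']

theorem hc_T {f : X} (hf : HC T f) : HC T (T f) := by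
  have h1 : (fun n : ℕ => (T ^ n) (T f)) = fun n : ℕ => T ((T ^ n) f) := by
    funext n; exact pow_comm_apply n f
  show DenseRange _
  rw [h1]
  have h2 : DenseRange fun x => T x := by
    have := dense_range_gen hf 0 1 one_ne_zero
    simpa using this
  exact h2.comp hf T.continuous

theorem hc_pow {f : X} (hf : HC T f) (n : ℕ) : HC T ((T ^ n) f) := by
  induction n with
  | zero => simpa using hf
  | succ n ih =>
    rw [pow_succ', mul_apply_eq_comp]; exact hc_T ih

theorem hc_add {f : X} (hf : HC T f) (c : ℂ) : HC T (f + c • T f) := by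
  have h1 : (fun n : ℕ => (T ^ n) (f + c • T f)) =
      fun n : ℕ => (fun x => x + c • T x) ((T ^ n) f) := by
    funext n
    show (T ^ n) (f + c • T f) = (T ^ n) f + c • T ((T ^ n) f)
    rw [map_add, map_smul, pow_comm_apply]
  show DenseRange _
  rw [h1]
  have hc : Continuous fun x => x + c • T x := by fun_prop
  exact (dense_range_add hf c).comp hf hc

variable (T) (α : AddCircle (1:ℝ))

/-- the joint orbit -/
def Orb (u : X) : Set (X × AddCircle (1:ℝ)) := range fun n : ℕ => ((T ^ n) u, n • α)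

/-- the joint limit relation -/
def F (u v : X) (θ : AddCircle (1:ℝ)) : Prop := (v, θ) ∈ closure (Orb T α u)

variable {T α}

theorem F_trans {u v w : X} {θ θ' : AddCircle (1:ℝ)} (h : F T α u v θ) (h' : F T α v w θ') :
    F T α u w (θ + θ') := by
  -- add θ to the second orbit
  have h1 : (w, θ + θ') ∈ closure (range fun n : ℕ => ((T ^ n) v, θ + n • α)) := by
    have hcont : Continuous fun q : X × AddCircle (1:ℝ) => (q.1, θ + q.2) := by fun_prop
    have h2 : (fun q : X × AddCircle (1:ℝ) => (q.1, θ + q.2)) (w, θ') ∈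
        closure ((fun q : X × AddCircle (1:ℝ) => (q.1, θ + q.2)) '' Orb T α v) :=
      image_closure_subset_closure_image hcont ⟨_, h', rfl⟩
    refine closure_mono ?_ h2
    rintro _ ⟨_, ⟨n, rfl⟩, rfl⟩
    exact ⟨n, rfl⟩
  have h2 : (range fun n : ℕ => ((T ^ n) v, θ + n • α)) ⊆ closure (Orb T α u) := by
    rintro _ ⟨n, rfl⟩
    have hcont : Continuous fun q : X × AddCircle (1:ℝ) => ((T ^ n) q.1, q.2 + n • α) := by fun_prop
    have h3 : (fun q : X × AddCircle (1:ℝ) => ((T ^ n) q.1, q.2 + n • α)) (v, θ) ∈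
        closure ((fun q : X × AddCircle (1:ℝ) => ((T ^ n) q.1, q.2 + n • α)) '' Orb T α u) :=
      image_closure_subset_closure_image hcont ⟨_, h, rfl⟩
    refine closure_mono ?_ h3
    rintro _ ⟨_, ⟨m, rfl⟩, rfl⟩
    refine ⟨n + m, ?_⟩
    show ((T ^ (n + m)) u, (n + m) • α) = ((T ^ n) ((T ^ m) u), m • α + n • α)
    rw [pow_add, mul_apply_eq_comp, add_nsmul, add_comm (m • α)]
  exact closure_minimal h2 isClosed_closure h1

theorem F_self (u : X) : F T α u u 0 := subset_closure ⟨0, by simp⟩

theorem F_nonempty {u : X} (hu : HC T u) (v : X) : ∃ θ, F T α u v θ := by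
  have hcl : IsClosed (Prod.fst '' closure (Orb T α u)) :=
    isClosedMap_fst_of_compactSpace _ isClosed_closure
  have hsub : (range fun n : ℕ => (T ^ n) u) ⊆ Prod.fst '' closure (Orb T α u) := by
    rintro _ ⟨n, rfl⟩
    exact ⟨((T ^ n) u, n • α), subset_closure ⟨n, rfl⟩, rfl⟩
  have h1 : v ∈ Prod.fst '' closure (Orb T α u) := by
    have := closure_minimal hsub hcl
    rw [hu.closure_eq] at this
    exact this (mem_univ v)
  obtain ⟨⟨v', θ⟩, h2, h3⟩ := h1
  have h4 : v' = v := h3
  subst h4
  exact ⟨θ, h2⟩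

theorem isClosed_F (u v : X) : IsClosed {θ | F T α u v θ} :=
  isClosed_closure.preimage (by fun_prop : Continuous fun θ : AddCircle (1:ℝ) => (v, θ))

/-- the group of return angles -/
def KG (T : X →L[ℂ] X) (α : AddCircle (1:ℝ)) (u : X) : AddSubgroup (AddCircle (1:ℝ)) where
  carrier := {θ | F T α u u θ}
  zero_mem' := F_self u
  add_mem' := fun ha hb => F_trans ha hb
  neg_mem' := by
    intro θ hθ
    have hn : ∀ n : ℕ, F T α u u (n • θ) := by
      intro n
      induction n with
      | zero => rw [zero_nsmul]; exact F_self u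
      | succ n ih => rw [succ_nsmul]; exact F_trans ih hθ
    have h1 : -θ ∈ closure (range (fun n : ℤ => n • θ)) :=
      subset_closure ⟨-1, by simp⟩
    rw [closure_range_zsmul_eq_nsmul] at h1
    have h2 : closure (range (fun n : ℕ => n • θ)) ⊆ {θ | F T α u u θ} :=
      closure_minimal (by rintro _ ⟨n, rfl⟩; exact hn n) (isClosed_F u u)
    exact h2 h1

theorem mem_KG {u : X} {θ : AddCircle (1:ℝ)} : θ ∈ KG T α u ↔ F T α u u θ := Iff.rfl

theorem no_hypercyclic
    (H : ∀ u v : X, HC T u → F T α u v 0 → ∃ c : ℂ, v = c • u)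
    (hdim : ∀ u : X, ∃ v : X, ∀ c : ℂ, v ≠ c • u) (f : X) (hf : HC T f) : False := by
  -- independence of `f` and `T f`
  have hind : ∀ c : ℂ, T f ≠ c • f := by
    intro c hc
    have h1 : ∀ n : ℕ, (T ^ n) f = c ^ n • f := by
      intro n
      induction n with
      | zero => simp
      | succ n ih =>
        rw [pow_succ', mul_apply_eq_comp, ih, map_smul, hc, smul_smul,
          pow_succ]
    obtain ⟨v, hv⟩ := hdim f
    have hsub : (range fun n : ℕ => (T ^ n) f) ⊆ (Submodule.span ℂ {f} : Submodule ℂ X) := by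
      rintro _ ⟨n, rfl⟩
      show (T ^ n) f ∈ Submodule.span ℂ {f}
      rw [h1]; exact Submodule.smul_mem _ _ (Submodule.mem_span_singleton_self f)
    have hcl : IsClosed ((Submodule.span ℂ {f} : Submodule ℂ X) : Set X) :=
      Submodule.closed_of_finiteDimensional _
    have h2 := closure_minimal hsub hcl
    rw [hf.closure_eq] at h2
    have h3 : v ∈ Submodule.span ℂ {f} := h2 (mem_univ v)
    obtain ⟨d, hd⟩ := Submodule.mem_span_singleton.1 h3
    exact hv d hd.symm
  have hf0 : f ≠ 0 := by
    intro h0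
    apply hind 0
    rw [h0]; simp
  set vc : ℂ → X := fun c => f + c • T f with hvc
  have hvcH : ∀ c, HC T (vc c) := fun c => hc_add hf c
  have hex : ∀ c, ∃ θ, F T α f (vc c) θ := fun c => F_nonempty hf _
  choose t ht using hex
  -- claim 1
  have cl1 : ∀ c θ θ', F T α f (vc c) θ → F T α f (vc c) θ' → θ - θ' ∈ KG T α f := by
    intro c θ θ' h h'
    obtain ⟨η, hη⟩ := F_nonempty (α := α) (hvcH c) f
    have h1 : θ + η ∈ KG T α f := F_trans h hη
    have h2 : θ' + η ∈ KG T α f := F_trans h' hη
    have := (KG T α f).sub_mem h1 h2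
    rwa [add_sub_add_right_eq_sub] at this
  -- claim 2
  have cl2 : ∀ c c' θ θ', F T α f (vc c) θ → F T α f (vc c') θ' → θ' - θ ∈ KG T α f → c = c' := by
    intro c c' θ θ' h h' hk
    obtain ⟨η, hη⟩ := F_nonempty (α := α) (hvcH c) f
    have h1 : θ + η ∈ KG T α f := F_trans h hη
    have h2 : -(η + θ') ∈ KG T α f := by
      have : η + θ' = (θ + η) + (θ' - θ) := by abel
      rw [this]
      exact (KG T α f).neg_mem ((KG T α f).add_mem h1 hk)
    have h3 : F T α (vc c) (vc c') 0 := by
      have h4 := F_trans (F_trans hη h2) h'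
      have : η + -(η + θ') + θ' = 0 := by abel
      rwa [this] at h4
    obtain ⟨l, hl⟩ := H _ _ (hvcH c) h3
    have h5 : (1 - l) • f = (l * c - c') • T f := by
      have : f + c' • T f = l • (f + c • T f) := hl
      rw [smul_add, smul_smul] at this
      rw [sub_smul, sub_smul, one_smul]
      rw [sub_eq_sub_iff_add_eq_add]
      rw [this]; abel
    by_cases hlc : l * c - c' = 0
    · rw [hlc, zero_smul] at h5
      have : 1 - l = 0 := (smul_eq_zero.1 h5).resolve_right hf0
      have hl1 : l = 1 := by linear_combination -this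
      rw [hl1] at hlc; linear_combination hlc
    · exfalso
      apply hind ((l * c - c')⁻¹ * (1 - l))
      rw [← smul_smul, h5, smul_smul, inv_mul_cancel₀ hlc, one_smul]
  by_cases hden : Dense ((KG T α f : AddSubgroup (AddCircle (1:ℝ))) : Set (AddCircle (1:ℝ)))
  · have hcl : IsClosed ((KG T α f : AddSubgroup (AddCircle (1:ℝ))) : Set (AddCircle (1:ℝ))) :=
      isClosed_F f f
    have hall : ∀ θ, θ ∈ KG T α f := by
      intro θ
      have := hcl.closure_eq
      rw [hden.closure_eq] at this
      have h2 : θ ∈ ((KG T α f : AddSubgroup (AddCircle (1:ℝ))) : Set (AddCircle (1:ℝ))) := by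
        rw [← this]; exact mem_univ θ
      exact h2
    have := cl2 0 1 _ _ (ht 0) (ht 1) (hall _)
    exact zero_ne_one this
  · rw [AddCircle.dense_addSubgroup_iff_ne_zmultiples] at hden
    push Not at hden
    obtain ⟨a, ha, hKa⟩ := hden
    set m := addOrderOf a with hm
    have hm0 : m ≠ 0 := ha
    have hmK : ∀ θ, θ ∈ KG T α f ↔ m • θ = 0 := by
      have hfin : Finite (AddSubgroup.zmultiples a) := by
        apply Nat.finite_of_card_ne_zero
        rw [Nat.card_zmultiples]; exact ha
      have hcard : ((AddSubgroup.zmultiples a : AddSubgroup (AddCircle (1:ℝ))) :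
          Set (AddCircle (1:ℝ))).encard = (m : ℕ∞) := by
        have h1 : ENat.card (AddSubgroup.zmultiples a) = (Nat.card (AddSubgroup.zmultiples a) : ℕ∞) :=
          ENat.card_eq_coe_natCard _
        rw [Nat.card_zmultiples] at h1
        exact h1
      have hsub : ((AddSubgroup.zmultiples a : AddSubgroup (AddCircle (1:ℝ))) :
          Set (AddCircle (1:ℝ))) ⊆ {θ | m • θ = 0} := by
        intro θ hθ
        obtain ⟨k, hk⟩ := AddSubgroup.mem_zmultiples_iff.1 hθ
        show m • θ = 0
        rw [← hk, smul_comm, addOrderOf_nsmul_eq_zero, smul_zero]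
      have hle : ({θ | m • θ = 0} : Set (AddCircle (1:ℝ))).encard ≤ (m : ℕ∞) :=
        AddCircle.card_torsion_le_of_isSMulRegular (1:ℝ) m hm0
          (IsSMulRegular.of_right_eq_zero_of_smul fun x hx => by simpa [hm0] using hx)
      have heq := Set.Finite.eq_of_subset_of_encard_le'
        (AddCircle.finite_torsion (1:ℝ) (Nat.pos_of_ne_zero hm0)) hsub (by rw [hcard]; exact hle)
      intro θ
      rw [hKa]
      constructor
      · intro h; exact hsub h
      · intro h
        have h2 : θ ∈ ({θ | m • θ = 0} : Set (AddCircle (1:ℝ))) := h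
        rw [← heq] at h2; exact h2
    apply no_inj_circle (fun c => m • t c)
    · rw [continuous_iff_isClosed]
      intro C hC
      set D : Set (ℂ × AddCircle (1:ℝ)) := {q | F T α f (vc q.1) q.2 ∧ m • q.2 ∈ C} with hD
      have hDc : IsClosed D := by
        apply IsClosed.inter
        · have : Continuous fun q : ℂ × AddCircle (1:ℝ) => (vc q.1, q.2) := by
            rw [hvc]; fun_prop
          exact isClosed_closure.preimage this
        · exact hC.preimage (by fun_prop)
      have h1 : (fun c => m • t c) ⁻¹' C = Prod.fst '' D := by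
        ext c
        constructor
        · intro hc
          exact ⟨(c, t c), ⟨ht c, hc⟩, rfl⟩
        · rintro ⟨⟨c', θ⟩, ⟨h1, h2⟩, h3⟩
          have h4 : c' = c := h3
          subst h4
          have h5 := (hmK _).1 (cl1 c' (t c') θ (ht c') h1)
          rw [smul_sub, sub_eq_zero] at h5
          show m • t c' ∈ C
          rw [h5]; exact h2
      rw [h1]
      exact isClosedMap_fst_of_compactSpace _ hDc
    · intro c c' hcc
      have hcc' : m • t c = m • t c' := hcc
      apply cl2 c c' _ _ (ht c) (ht c')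
      rw [hmK, smul_sub, sub_eq_zero, hcc']

end abstract

end Q87.WTop
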